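import Mathlib

/-!
# Definitions for MP_497a12_mp

Schroedinger operators `-hb^2 Laplacian + V` on `L^2(R^d; C)` with a complex potential `V`, in the
sense of quadratic forms; algebraic multiplicities of eigenvalues; the left and right sides of the
bound (*) of the problem; sharpness of (*) up to `hb ^ eps`.
-/

open MeasureTheory
open scoped ENNReal ContDiff

namespace MP497a12

variable {d : ℕ}

/-- The space `R^d`. -/
abbrev Sp (d : ℕ) := EuclideanSpace ℝ (Fin d)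

/-- Complex test functions: smooth with compact support. -/
def IsTest (φ : Sp d → ℂ) : Prop := ContDiff ℝ ∞ φ ∧ HasCompactSupport φ

/-- The partial derivative in the `j`-th coordinate direction. -/
noncomputable def pd (j : Fin d) (φ : Sp d → ℂ) (x : Sp d) : ℂ :=
  fderiv ℝ φ x (EuclideanSpace.single j 1)

/-- `G j`, `j = 1, ..., d`, are the weak first partial derivatives of `ψ`. -/
def IsWeakGrad (ψ : Sp d → ℂ) (G : Fin d → Sp d → ℂ) : Prop :=
  ∀ φ : Sp d → ℂ, IsTest φ → ∀ j, (∫ x, ψ x * pd j φ x) = - (∫ x, G j x * φ x)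

/-- `Graph V hb ψ f` says that `ψ` lies in the domain of `H = -hb^2 Laplacian + V` and `H ψ = f`:
`ψ` is in `H^1` (it and its weak partial derivatives are in `L^2`), `f` is in `L^2`, `|V| |ψ|^2` is
integrable, and `hb^2 ∫ ∇ψ · ∇φ + ∫ V ψ φ = ∫ f φ` for all test functions `φ`.  For the potentials
allowed here (`Admissible`) the form domain is `H^1` and the test functions are a form core, so that
this is the graph of the m-sectorial operator given by the form `hb^2 ∫ |∇ψ|^2 + ∫ V |ψ|^2`. -/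
def Graph (V : Sp d → ℂ) (hb : ℝ) (ψ f : Sp d → ℂ) : Prop :=
  MemLp ψ 2 ∧ MemLp f 2 ∧ ∃ G : Fin d → Sp d → ℂ, (∀ j, MemLp (G j) 2) ∧ IsWeakGrad ψ G ∧
    Integrable (fun x => ‖V x‖ * ‖ψ x‖ ^ 2) ∧
    ∀ φ : Sp d → ℂ, IsTest φ →
      (hb : ℂ) ^ 2 * (∑ j, (∫ x, G j x * pd j φ x)) + (∫ x, V x * ψ x * φ x) =
        (∫ x, f x * φ x)

/-- `ψ` is a root vector of `H = -hb^2 Laplacian + V` for `E`, that is `(H - E)^k ψ = 0` for some
`k`: there are `c 0 = ψ`, `c 1`, ..., `c k = 0` with `(H - E) (c i) = c (i + 1)`. -/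
def InRoot (V : Sp d → ℂ) (hb : ℝ) (E : ℂ) (ψ : Sp d → ℂ) : Prop :=
  ∃ (k : ℕ) (c : ℕ → Sp d → ℂ), c 0 = ψ ∧ c k =ᵐ[volume] 0 ∧
    ∀ i < k, Graph V hb (c i) (c (i + 1) + E • c i)

/-- The algebraic multiplicity of `E` as an eigenvalue of `H = -hb^2 Laplacian + V`: the largest
number `n` of root vectors that are linearly independent in `L^2` (`∞` if there is no largest such
number), that is the dimension of the union over `k` of the kernels of `(H - E)^k`; it is `0` if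
`E` is not an eigenvalue. -/
noncomputable def algMult (V : Sp d → ℂ) (hb : ℝ) (E : ℂ) : ℕ∞ :=
  ⨆ (n : ℕ) (_ : ∃ v : Fin n → Sp d → ℂ, (∀ i, InRoot V hb E (v i)) ∧
    ∀ c : Fin n → ℂ, (∀ᵐ x, ∑ i, c i * v i x = 0) → c = 0), (n : ℕ∞)

/-- The half-line `[0, ∞)` in the complex plane. -/
def halfLine : Set ℂ := {z | ∃ t : ℝ, 0 ≤ t ∧ z = (t : ℂ)}

/-- `δ(E)`, the distance from `E` to `[0, ∞)`. -/
noncomputable def delta (E : ℂ) : ℝ := Metric.infDist E halfLine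

/-- `N_γ(V, hb) = hb^(-d) ∫ |V|^(γ + d/2)`. -/
noncomputable def NN (V : Sp d → ℂ) (hb γ : ℝ) : ℝ :=
  hb ^ (-(d : ℝ)) * (∫ x, ‖V x‖ ^ (γ + d / 2))

/-- The three kinds of sums: no truncation, `(T_le)` and `(T_ge)`. -/
inductive Trunc
  | none
  | le
  | ge

/-- The eigenvalues `E` that are summed: all of them, those with `|E|^γ ≤ N_γ(V, hb)`, or those
with `|E|^γ ≥ N_γ(V, hb)`. -/
def Keep (V : Sp d → ℂ) (hb γ : ℝ) : Trunc → ℂ → Prop
  | .none, _ => True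
  | .le, E => ‖E‖ ^ γ ≤ NN V hb γ
  | .ge, E => NN V hb γ ≤ ‖E‖ ^ γ

open Classical in
/-- The left side of (*): the sum over the eigenvalues `E` of `-hb^2 Laplacian + V` outside
`[0, ∞)` that are kept by the truncation `t`, counted with algebraic multiplicity, of
`|E|^α (δ(E) / |E|)^β`. -/
noncomputable def lhs (V : Sp d → ℂ) (hb α β γ : ℝ) (t : Trunc) : ℝ≥0∞ :=
  ∑' E : ℂ, if E ∉ halfLine ∧ Keep V hb γ t E then
    (algMult V hb E : ℝ≥0∞) * ENNReal.ofReal (‖E‖ ^ α * (delta E / ‖E‖) ^ β) else 0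

/-- Admissible potentials.  For every `η > 0`, `V` is the sum of a bounded function `V₁` with
compact support and of a function `V - V₁` whose modulus has form bound `η` relative to
`-Laplacian + 1`.  This is the usual form-compactness.  It makes `-hb^2 Laplacian + V` an
m-sectorial operator with form domain `H^1`, for every `hb > 0`, whose essential spectrum is
`[0, ∞)` and whose spectrum outside `[0, ∞)` consists of isolated eigenvalues of finite algebraic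
multiplicity. -/
def Admissible (V : Sp d → ℂ) : Prop :=
  Measurable V ∧ ∀ η : ℝ, 0 < η → ∃ V₁ : Sp d → ℂ, Measurable V₁ ∧
    (∃ M : ℝ, ∀ x, ‖V₁ x‖ ≤ M) ∧
    HasCompactSupport V₁ ∧ ∀ φ : Sp d → ℂ, IsTest φ →
      Integrable (fun x => ‖V x - V₁ x‖ * ‖φ x‖ ^ 2) ∧
      (∫ x, ‖V x - V₁ x‖ * ‖φ x‖ ^ 2) ≤
        η * ((∑ j, (∫ x, ‖pd j φ x‖ ^ 2)) + (∫ x, ‖φ x‖ ^ 2))

/-- (*) with parameters `(d, α, β, γ)` and truncation `t` is sharp up to `hb ^ eps`: there is an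
admissible `V ≠ 0` in `L^(γ + d/2)` such that for every `ε > 0` there are `c > 0` and `hb₀ > 0`
with `(left side) ≥ c hb^ε N_γ(V, hb)^(α/γ)` for all `0 < hb < hb₀`. -/
def Sharp (d : ℕ) (α β γ : ℝ) (t : Trunc) : Prop :=
  ∃ V : Sp d → ℂ, Admissible V ∧ MemLp V (ENNReal.ofReal (γ + d / 2)) ∧
    ¬ (V =ᵐ[volume] 0) ∧
    ∀ ε : ℝ, 0 < ε → ∃ c : ℝ, 0 < c ∧ ∃ hb₀ : ℝ, 0 < hb₀ ∧ ∀ hb : ℝ, 0 < hb → hb < hb₀ →
      ENNReal.ofReal (c * hb ^ ε * NN V hb γ ^ (α / γ)) ≤ lhs V hb α β γ t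

/-- The six cases of the problem. -/
inductive Case
  | a
  | b
  | c
  | d
  | e
  | f

/-- The truncation that belongs to each case: none in (a), (b); `(T_le)` in (c), (e); `(T_ge)` in
(d), (f). -/
def Case.trunc : Case → Trunc
  | .a => .none
  | .b => .none
  | .c => .le
  | .d => .ge
  | .e => .le
  | .f => .ge

/-- The parameter ranges (a)-(f) of the problem. -/
def Case.Range (k : Case) (d : ℕ) (α β γ : ℝ) : Prop :=
  match k with
  | .a => 2 ≤ d ∧ α = 1 / 2 ∧ β = 1 ∧ 0 < γ ∧ γ < d / (2 * (2 * d - 1))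
  | .b => 2 ≤ d ∧ (d - 1) * γ / (d / 2 - γ) < α ∧ β = 1 ∧ d / (2 * (2 * d - 1)) ≤ γ ∧ γ ≤ 1 / 2
  | .c => 1 ≤ d ∧ α = β ∧ 2 * γ < β ∧ 1 / 2 < γ
  | .d => 1 ≤ d ∧ 0 < α ∧ α < γ * (γ + d / 2) ∧ 2 * γ < β ∧ 1 / 2 < γ
  | .e => 1 ≤ d ∧ α = γ + d / 2 ∧ β = γ + d / 2 ∧ 0 < γ ∧ (d = 1 → 1 / 2 ≤ γ)
  | .f => 1 ≤ d ∧ γ < α ∧ β = γ + d / 2 ∧ 0 < γ ∧ (d = 1 → 1 / 2 ≤ γ)

end MP497a12
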