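import Mathlib
import Pool.Agent.Lib.MP_497a12_mp.Defs

/-!
# Real test functions: gradients, integrability, translation estimate
-/

open MeasureTheory
open scoped ENNReal ContDiff RealInnerProductSpace

namespace MP497a12

variable {d : ℕ}

/-- Real test functions. -/
def TF (d : ℕ) : Submodule ℝ (Sp d → ℝ) where
  carrier := {χ | ContDiff ℝ ∞ χ ∧ HasCompactSupport χ}
  add_mem' := fun ha hb => ⟨ha.1.add hb.1, ha.2.add hb.2⟩
  zero_mem' := ⟨contDiff_const, HasCompactSupport.zero⟩
  smul_mem' := fun c χ h => ⟨contDiff_const.smul h.1, h.2.smul_left (f := fun _ => c)⟩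

/-- The Dirichlet integral. -/
noncomputable def DD (χ : Sp d → ℝ) : ℝ := ∫ x, ‖fderiv ℝ χ x‖ ^ 2

/-- The squared norm. -/
noncomputable def SS (χ : Sp d → ℝ) : ℝ := ∫ x, χ x ^ 2

section basics

variable {χ : Sp d → ℝ} (h : χ ∈ TF d)
include h

lemma TF.contDiff : ContDiff ℝ ∞ χ := h.1
lemma TF.cont : Continuous χ := h.1.continuous
lemma TF.supp : HasCompactSupport χ := h.2
lemma TF.diff : Differentiable ℝ χ := h.1.differentiable (by simp)
lemma TF.cont_fderiv : Continuous (fderiv ℝ χ) := h.1.continuous_fderiv (by simp)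
lemma TF.supp_fderiv : HasCompactSupport (fderiv ℝ χ) := h.2.fderiv (𝕜 := ℝ)
lemma TF.memLp : MemLp χ 2 := (TF.cont h).memLp_of_hasCompactSupport (TF.supp h)
lemma TF.cont_grad : Continuous (gradient χ) :=
  (InnerProductSpace.toDual ℝ (Sp d)).symm.continuous.comp (TF.cont_fderiv h)
lemma TF.supp_grad : HasCompactSupport (gradient χ) := by
  have := (TF.supp_fderiv h).comp_left (g := (InnerProductSpace.toDual ℝ (Sp d)).symm) (by simp)
  exact this
lemma TF.memLp_grad : MemLp (gradient χ) 2 :=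
  (TF.cont_grad h).memLp_of_hasCompactSupport (TF.supp_grad h)
lemma TF.integrable_sq : Integrable (fun x => χ x ^ 2) := by
  apply Continuous.integrable_of_hasCompactSupport
  · exact (TF.cont h).pow 2
  · exact (TF.supp h).comp_left (g := fun t : ℝ => t ^ 2) (by simp)
lemma TF.integrable_fderiv_sq : Integrable (fun x => ‖fderiv ℝ χ x‖ ^ 2) := by
  apply Continuous.integrable_of_hasCompactSupport
  · exact (TF.cont_fderiv h).norm.pow 2
  · exact (TF.supp_fderiv h).comp_left (g := fun t : Sp d →L[ℝ] ℝ => ‖t‖ ^ 2) (by simp)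

end basics

lemma norm_gradient (χ : Sp d → ℝ) (x : Sp d) : ‖gradient χ x‖ = ‖fderiv ℝ χ x‖ := by
  rw [gradient]; exact LinearIsometryEquiv.norm_map _ _

lemma DD_nonneg (χ : Sp d → ℝ) : 0 ≤ DD χ := integral_nonneg fun x => by positivity
lemma SS_nonneg (χ : Sp d → ℝ) : 0 ≤ SS χ := integral_nonneg fun x => by positivity

/-- Cauchy-Schwarz on the unit interval. -/
lemma sq_intervalIntegral_le {f : ℝ → ℝ} (hf : Continuous f) :
    (∫ t in (0:ℝ)..1, f t) ^ 2 ≤ ∫ t in (0:ℝ)..1, f t ^ 2 := by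
  set a := ∫ t in (0:ℝ)..1, f t with ha
  have h0 : 0 ≤ ∫ t in (0:ℝ)..1, (f t - a) ^ 2 :=
    intervalIntegral.integral_nonneg (by norm_num) fun t _ => sq_nonneg _
  have h1 : ∫ t in (0:ℝ)..1, (f t - a) ^ 2 = (∫ t in (0:ℝ)..1, f t ^ 2) - a ^ 2 := by
    have e : (fun t => (f t - a) ^ 2) = fun t => f t ^ 2 - (2 * a) * f t + a ^ 2 := by
      funext t; ring
    rw [e, intervalIntegral.integral_add, intervalIntegral.integral_sub,
      intervalIntegral.integral_const_mul, ← ha]
    · simp; ring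
    · exact (hf.pow 2).intervalIntegrable _ _
    · exact (continuous_const.mul hf).intervalIntegrable _ _
    · exact ((hf.pow 2).sub (continuous_const.mul hf)).intervalIntegrable _ _
    · exact continuous_const.intervalIntegrable _ _
  linarith

/-- The translation estimate. -/
lemma trans_le {χ : Sp d → ℝ} (h : χ ∈ TF d) (v : Sp d) :
    ∫ x, (χ (x + v) - χ x) ^ 2 ≤ ‖v‖ ^ 2 * DD χ := by
  have key : ∀ x, (χ (x + v) - χ x) ^ 2 ≤
      ∫ t in (0:ℝ)..1, ‖v‖ ^ 2 * ‖fderiv ℝ χ (x + t • v)‖ ^ 2 := by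
    intro x
    have hd : ∀ t : ℝ, HasDerivAt (fun s : ℝ => χ (x + s • v)) (fderiv ℝ χ (x + t • v) v) t := by
      intro t
      have h1 : HasFDerivAt χ (fderiv ℝ χ (x + t • v)) (x + t • v) :=
        (TF.diff h (x + t • v)).hasFDerivAt
      have h2 : HasDerivAt (fun s : ℝ => x + s • v) v t := by
        simpa using ((hasDerivAt_id t).smul_const v).const_add x
      exact h1.comp_hasDerivAt t h2
    have hc : Continuous (fun t : ℝ => fderiv ℝ χ (x + t • v) v) := by
      have := TF.cont_fderiv h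
      fun_prop
    have e : χ (x + v) - χ x = ∫ t in (0:ℝ)..1, fderiv ℝ χ (x + t • v) v := by
      rw [intervalIntegral.integral_eq_sub_of_hasDerivAt (fun t _ => hd t)
        (hc.intervalIntegrable _ _)]
      simp
    rw [e]
    refine (sq_intervalIntegral_le hc).trans ?_
    apply intervalIntegral.integral_mono_on (by norm_num)
    · exact (hc.pow 2).intervalIntegrable _ _
    · apply Continuous.intervalIntegrable
      have := TF.cont_fderiv h
      fun_prop
    · intro t _
      have := (fderiv ℝ χ (x + t • v)).le_opNorm v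
      rw [← mul_pow, ← sq_abs]
      rw [Real.norm_eq_abs] at this
      gcongr
      linarith [mul_comm ‖v‖ ‖fderiv ℝ χ (x + t • v)‖]
  have hcont : Continuous (fun p : Sp d × ℝ => ‖v‖ ^ 2 * ‖fderiv ℝ χ (p.1 + p.2 • v)‖ ^ 2) := by
    have := TF.cont_fderiv h
    fun_prop
  -- integrability on the product
  have hint : Integrable (fun p : Sp d × ℝ => ‖v‖ ^ 2 * ‖fderiv ℝ χ (p.1 + p.2 • v)‖ ^ 2)
      ((volume : Measure (Sp d)).prod (volume.restrict (Set.Ioc (0:ℝ) 1))) := by
    rw [integrable_prod_iff' hcont.aestronglyMeasurable]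
    constructor
    · refine Filter.Eventually.of_forall fun t => ?_
      exact ((TF.integrable_fderiv_sq h).comp_add_right (t • v)).const_mul _
    · have : (fun t : ℝ => ∫ x, ‖‖v‖ ^ 2 * ‖fderiv ℝ χ (x + t • v)‖ ^ 2‖) =
          fun _ => ‖v‖ ^ 2 * DD χ := by
        funext t
        rw [show (fun x => ‖‖v‖ ^ 2 * ‖fderiv ℝ χ (x + t • v)‖ ^ 2‖) =
          fun x => ‖v‖ ^ 2 * ‖fderiv ℝ χ (x + t • v)‖ ^ 2 from by
            funext x; rw [Real.norm_of_nonneg]; positivity]
        rw [integral_const_mul, integral_add_right_eq_self (fun x => ‖fderiv ℝ χ x‖ ^ 2) (t • v)]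
        rfl
      simp only
      rw [this]
      exact integrable_const _
  calc ∫ x, (χ (x + v) - χ x) ^ 2
      ≤ ∫ x, ∫ t in (0:ℝ)..1, ‖v‖ ^ 2 * ‖fderiv ℝ χ (x + t • v)‖ ^ 2 := by
        apply integral_mono_of_nonneg (Filter.Eventually.of_forall fun x => sq_nonneg _)
        · simp_rw [intervalIntegral.integral_of_le (zero_le_one (α := ℝ))]
          exact hint.integral_prod_left
        · exact Filter.Eventually.of_forall key
    _ = ∫ t in (0:ℝ)..1, ∫ x, ‖v‖ ^ 2 * ‖fderiv ℝ χ (x + t • v)‖ ^ 2 := by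
        simp_rw [intervalIntegral.integral_of_le (zero_le_one (α := ℝ))]
        rw [integral_integral_swap]
        exact hint
    _ = ‖v‖ ^ 2 * DD χ := by
        have : ∀ t : ℝ, ∫ x, ‖v‖ ^ 2 * ‖fderiv ℝ χ (x + t • v)‖ ^ 2 = ‖v‖ ^ 2 * DD χ := by
          intro t
          rw [integral_const_mul, integral_add_right_eq_self (fun x => ‖fderiv ℝ χ x‖ ^ 2) (t • v)]
          rfl
        simp [this]

end MP497a12
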