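import Mathlib
import Pool.Agent.Lib.MP_497a12_mp.Test

/-!
# The form bound for the indicator function of a ball
-/

open MeasureTheory
open scoped ENNReal ContDiff RealInnerProductSpace

namespace MP497a12

variable {d : ℕ}

/-- The regularised squared distance. -/
noncomputable def AA (ρ : ℝ) (x : Sp d) : ℝ := ‖x‖ ^ 2 + ρ ^ 2

lemma AA_pos {ρ : ℝ} (hρ : 0 < ρ) (x : Sp d) : 0 < AA ρ x := by unfold AA; positivity

lemma AA_cont (ρ : ℝ) : Continuous (AA (d := d) ρ) := by unfold AA; fun_prop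

lemma hasFDerivAt_AA (ρ : ℝ) (x : Sp d) :
    HasFDerivAt (AA ρ) (2 • (innerSL ℝ x)) x := by
  have := (hasStrictFDerivAt_norm_sq x).hasFDerivAt.add_const (ρ ^ 2)
  exact this

lemma hasFDerivAt_AA_rpow {ρ : ℝ} (hρ : 0 < ρ) (p : ℝ) (x : Sp d) :
    HasFDerivAt (fun y => AA ρ y ^ p) ((p * AA ρ x ^ (p - 1)) • (2 • innerSL ℝ x)) x :=
  (hasFDerivAt_AA ρ x).rpow_const (Or.inl (AA_pos hρ x).ne')

lemma AA_rpow_cont {ρ : ℝ} (hρ : 0 < ρ) (p : ℝ) : Continuous (fun y : Sp d => AA ρ y ^ p) :=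
  (AA_cont ρ).rpow_const fun x => Or.inl (AA_pos hρ x).ne'

/-- The coordinate identity. -/
lemma ibp_coord {ρ : ℝ} (hρ : 0 < ρ) (b : ℝ) {χ : Sp d → ℝ} (h : χ ∈ TF d) (i : Fin d) :
    ∫ x, (x i * AA ρ x ^ (-b / 2)) * (2 * χ x * fderiv ℝ χ x (EuclideanSpace.single i 1)) =
    - ∫ x, (AA ρ x ^ (-b / 2) - b * x i ^ 2 * AA ρ x ^ (-b / 2 - 1)) * χ x ^ 2 := by
  have hf : ∀ x : Sp d, HasFDerivAt (fun y : Sp d => y i * AA ρ y ^ (-b / 2))
      (x i • ((-b / 2 * AA ρ x ^ (-b / 2 - 1)) • (2 • innerSL ℝ x)) +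
        AA ρ x ^ (-b / 2) • (EuclideanSpace.proj i : Sp d →L[ℝ] ℝ)) x := by
    intro x
    exact (EuclideanSpace.proj i : Sp d →L[ℝ] ℝ).hasFDerivAt.mul (hasFDerivAt_AA_rpow hρ (-b / 2) x)
  have hg : ∀ x : Sp d, HasFDerivAt (fun y : Sp d => χ y ^ 2) ((2 * χ x) • fderiv ℝ χ x) x := by
    intro x
    have := (TF.diff h x).hasFDerivAt.pow 2
    simpa using this
  have c1 := TF.cont h
  have c2 := TF.cont_fderiv h
  have c3 := AA_rpow_cont (d := d) hρ (-b / 2)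
  have c4 := AA_rpow_cont (d := d) hρ (-b / 2 - 1)
  have s2 : HasCompactSupport (fun x => χ x ^ 2) :=
    (TF.supp h).comp_left (g := fun t : ℝ => t ^ 2) (by simp)
  have e1 : ∀ x : Sp d, fderiv ℝ (fun y : Sp d => y i * AA ρ y ^ (-b / 2)) x
      (EuclideanSpace.single i 1) =
      AA ρ x ^ (-b / 2) - b * x i ^ 2 * AA ρ x ^ (-b / 2 - 1) := by
    intro x
    rw [(hf x).fderiv]
    simp [EuclideanSpace.inner_single_right]
    ring
  have e2 : ∀ x : Sp d, fderiv ℝ (fun y : Sp d => χ y ^ 2) x (EuclideanSpace.single i 1) =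
      2 * χ x * fderiv ℝ χ x (EuclideanSpace.single i 1) := by
    intro x
    rw [(hg x).fderiv]
    simp
  have key := integral_mul_fderiv_eq_neg_fderiv_mul_of_integrable (μ := (volume : Measure (Sp d)))
    (f := fun y : Sp d => y i * AA ρ y ^ (-b / 2)) (g := fun y : Sp d => χ y ^ 2)
    (v := EuclideanSpace.single i 1) ?_ ?_ ?_ (fun x _ => (hf x).differentiableAt)
    (fun x _ => (hg x).differentiableAt)
  · simp only [e1, e2] at key
    exact key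
  · apply Continuous.integrable_of_hasCompactSupport
    · simp only [e1]
      exact (c3.sub ((by fun_prop : Continuous fun x : Sp d => b * x i ^ 2).mul c4)).mul (c1.pow 2)
    · exact s2.mul_left
  · apply Continuous.integrable_of_hasCompactSupport
    · simp only [e2]
      fun_prop
    · apply HasCompactSupport.mul_left
      simp only [e2]
      have : HasCompactSupport (fun x => (fderiv ℝ χ x) (EuclideanSpace.single i 1)) :=
        (TF.supp_fderiv h).comp_left (g := fun L : Sp d →L[ℝ] ℝ => L (EuclideanSpace.single i 1))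
          (by simp)
      exact this.mul_left (f := fun x => 2 * χ x)
  · apply Continuous.integrable_of_hasCompactSupport
    · fun_prop
    · exact s2.mul_left

lemma fderiv_self_eq (χ : Sp d → ℝ) (x : Sp d) :
    fderiv ℝ χ x x = ∑ i, x i * fderiv ℝ χ x (EuclideanSpace.single i 1) := by
  have hx : x = ∑ i, x i • (EuclideanSpace.single i (1:ℝ) : Sp d) := by
    have := (EuclideanSpace.basisFun (Fin d) ℝ).sum_repr x
    simpa [EuclideanSpace.basisFun_repr] using this.symm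
  have h2 : fderiv ℝ χ x x = fderiv ℝ χ x (∑ i, x i • (EuclideanSpace.single i (1:ℝ) : Sp d)) :=
    congrArg _ hx
  rw [h2, map_sum]
  simp

lemma TF.supp_mul {χ : Sp d → ℝ} (h : χ ∈ TF d) (f : Sp d → ℝ) :
    HasCompactSupport (fun x => f x * χ x ^ 2) := by
  have s2 : HasCompactSupport (fun x => χ x ^ 2) :=
    (TF.supp h).comp_left (g := fun t : ℝ => t ^ 2) (by simp)
  exact s2.mul_left

lemma TF.integrable_mul {χ : Sp d → ℝ} (h : χ ∈ TF d) {f : Sp d → ℝ} (hf : Continuous f) :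
    Integrable (fun x => f x * χ x ^ 2) :=
  (hf.mul ((TF.cont h).pow 2)).integrable_of_hasCompactSupport (TF.supp_mul h f)

lemma TF.integrable_mul' {χ : Sp d → ℝ} (h : χ ∈ TF d) {f : Sp d → ℝ} (hf : Continuous f)
    {v : Sp d → Sp d} (hv : Continuous v) :
    Integrable (fun x => f x * (2 * χ x * fderiv ℝ χ x (v x))) := by
  have c1 := TF.cont h
  have c2 := TF.cont_fderiv h
  apply Continuous.integrable_of_hasCompactSupport
  · fun_prop
  · have s1 : HasCompactSupport (fun x => χ x) := TF.supp h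
    have : HasCompactSupport (fun x => (f x * 2 * fderiv ℝ χ x (v x)) * χ x) := s1.mul_left
    refine (this.mono ?_)
    intro x hx
    simp only [Function.mem_support] at hx ⊢
    contrapose! hx
    linear_combination hx

lemma ibp_sum {ρ : ℝ} (hρ : 0 < ρ) (b : ℝ) {χ : Sp d → ℝ} (h : χ ∈ TF d) :
    ∫ x, (d * AA ρ x ^ (-b / 2) - b * ‖x‖ ^ 2 * AA ρ x ^ (-b / 2 - 1)) * χ x ^ 2 =
    - ∫ x, AA ρ x ^ (-b / 2) * (2 * χ x * fderiv ℝ χ x x) := by
  have c3 := AA_rpow_cont (d := d) hρ (-b / 2)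
  have c4 := AA_rpow_cont (d := d) hρ (-b / 2 - 1)
  have h1 : ∀ x : Sp d, (d * AA ρ x ^ (-b / 2) - b * ‖x‖ ^ 2 * AA ρ x ^ (-b / 2 - 1)) * χ x ^ 2 =
      ∑ i, (AA ρ x ^ (-b / 2) - b * x i ^ 2 * AA ρ x ^ (-b / 2 - 1)) * χ x ^ 2 := by
    intro x
    rw [← Finset.sum_mul, Finset.sum_sub_distrib, EuclideanSpace.norm_sq_eq]
    simp [Finset.mul_sum, Finset.sum_mul]
  have h2 : ∀ x : Sp d, AA ρ x ^ (-b / 2) * (2 * χ x * fderiv ℝ χ x x) =
      ∑ i, (x i * AA ρ x ^ (-b / 2)) * (2 * χ x * fderiv ℝ χ x (EuclideanSpace.single i 1)) := by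
    intro x
    rw [fderiv_self_eq, Finset.mul_sum, Finset.mul_sum]
    refine Finset.sum_congr rfl fun i _ => by ring
  simp_rw [h1, h2]
  rw [integral_finsetSum, integral_finsetSum, ← Finset.sum_neg_distrib]
  · refine Finset.sum_congr rfl fun i _ => ?_
    rw [ibp_coord hρ b h i]
    simp
  · intro i _
    exact TF.integrable_mul' h ((by fun_prop : Continuous fun x : Sp d => x i).mul c3)
      continuous_const
  · intro i _
    exact TF.integrable_mul h (c3.sub ((by fun_prop : Continuous fun x : Sp d => b * x i ^ 2).mul c4))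

/-- The basic inequality. -/
lemma ibp_le {ρ : ℝ} (hρ : 0 < ρ) (b : ℝ) {χ : Sp d → ℝ} (h : χ ∈ TF d) {s : ℝ} (hs : 0 < s) :
    ∫ x, (d * AA ρ x ^ (-b / 2) - b * ‖x‖ ^ 2 * AA ρ x ^ (-b / 2 - 1)) * χ x ^ 2 ≤
    s * (∫ x, AA ρ x ^ (1 - b) * χ x ^ 2) + s⁻¹ * DD χ := by
  have c3 := AA_rpow_cont (d := d) hρ (-b / 2)
  have c5 := AA_rpow_cont (d := d) hρ (1 - b)
  rw [ibp_sum hρ b h, ← integral_neg, ← integral_const_mul, DD, ← integral_const_mul,
    ← integral_add ((TF.integrable_mul h c5).const_mul s)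
      ((TF.integrable_fderiv_sq h).const_mul s⁻¹)]
  apply integral_mono
  · exact (TF.integrable_mul' h c3 continuous_id).neg
  · exact ((TF.integrable_mul h c5).const_mul s).add ((TF.integrable_fderiv_sq h).const_mul s⁻¹)
  · intro x
    simp only
    set P := AA ρ x ^ (-b / 2) with hP
    have hP0 : 0 < P := Real.rpow_pos_of_pos (AA_pos hρ x) _
    have h1 : |fderiv ℝ χ x x| ≤ ‖fderiv ℝ χ x‖ * ‖x‖ := by
      have := (fderiv ℝ χ x).le_opNorm x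
      rwa [Real.norm_eq_abs] at this
    have h2 : P ^ 2 * ‖x‖ ^ 2 ≤ AA ρ x ^ (1 - b) := by
      have : P ^ 2 * AA ρ x = AA ρ x ^ (1 - b) := by
        rw [hP, ← Real.rpow_natCast, ← Real.rpow_mul (AA_pos hρ x).le]
        nth_rw 2 [← Real.rpow_one (AA ρ x)]
        rw [← Real.rpow_add (AA_pos hρ x)]
        congr 1
        push_cast
        ring
      rw [← this]
      have : ‖x‖ ^ 2 ≤ AA ρ x := by unfold AA; nlinarith [sq_nonneg ρ]
      gcongr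
    set F := ‖fderiv ℝ χ x‖ with hF
    have h3 : -(P * (2 * χ x * fderiv ℝ χ x x)) ≤ 2 * (P * |χ x| * ‖x‖) * F := by
      have a1 : -(P * (2 * χ x * fderiv ℝ χ x x)) ≤ |P * (2 * χ x * fderiv ℝ χ x x)| :=
        neg_le_abs _
      rw [abs_mul, abs_mul, abs_mul, abs_of_pos hP0, abs_two] at a1
      refine a1.trans ?_
      have : P * (2 * |χ x| * |fderiv ℝ χ x x|) ≤ P * (2 * |χ x| * (F * ‖x‖)) := by
        gcongr
      refine this.trans (le_of_eq (by ring))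
    have h4 : 2 * (P * |χ x| * ‖x‖) * F ≤ s * (P * |χ x| * ‖x‖) ^ 2 + s⁻¹ * F ^ 2 := by
      have hs' : s * s⁻¹ = 1 := mul_inv_cancel₀ hs.ne'
      have : 0 ≤ s⁻¹ * (s * (P * |χ x| * ‖x‖) - F) ^ 2 := by positivity
      have e : s⁻¹ * (s * (P * |χ x| * ‖x‖) - F) ^ 2 =
        (s * s⁻¹) * s * (P * |χ x| * ‖x‖) ^ 2 - 2 * (s * s⁻¹) * (P * |χ x| * ‖x‖) * F
          + s⁻¹ * F ^ 2 := by ring
      rw [e, hs'] at this
      linarith
    have h5 : s * (P * |χ x| * ‖x‖) ^ 2 ≤ s * (AA ρ x ^ (1 - b) * χ x ^ 2) := by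
      have : (P * |χ x| * ‖x‖) ^ 2 = P ^ 2 * ‖x‖ ^ 2 * χ x ^ 2 := by
        rw [mul_pow, mul_pow, sq_abs]; ring
      rw [this]
      gcongr
    linarith

/-- The quadratic form with parameter `τ`. -/
noncomputable def QQ (τ : ℝ) (χ : Sp d → ℝ) : ℝ := DD χ + τ ^ 2 * SS χ

lemma QQ_nonneg (τ : ℝ) (χ : Sp d → ℝ) : 0 ≤ QQ τ χ := by
  have := DD_nonneg χ
  have := SS_nonneg χ
  unfold QQ; positivity

lemma young_pt {b η τ A : ℝ} (hb1 : 1 ≤ b) (hb2 : b < 2) (hη : 0 < η) (hτ : 0 < τ) (hA : 0 < A) :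
    A ^ (1 - b) ≤ η * τ ^ (b - 2) * A ^ (-b / 2) +
      η ^ (-(2 * b - 2) / (2 - b)) * τ ^ (2 * b - 2) := by
  have h2b : 0 < 2 - b := by linarith
  have hx : 0 < η * τ ^ (b - 2) := by positivity
  rcases le_or_gt (A ^ ((2 - b) / 2)) (η * τ ^ (b - 2)) with h | h
  · have e : A ^ (1 - b) = A ^ ((2 - b) / 2) * A ^ (-b / 2) := by
      rw [← Real.rpow_add hA]; congr 1; ring
    rw [e]
    have : A ^ ((2 - b) / 2) * A ^ (-b / 2) ≤ η * τ ^ (b - 2) * A ^ (-b / 2) := by gcongr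
    have h0 : 0 ≤ η ^ (-(2 * b - 2) / (2 - b)) * τ ^ (2 * b - 2) := by positivity
    linarith
  · have hp : -(2 * b - 2) / (2 - b) ≤ 0 := by
      apply div_nonpos_of_nonpos_of_nonneg <;> linarith
    have e : A ^ (1 - b) = (A ^ ((2 - b) / 2)) ^ (-(2 * b - 2) / (2 - b)) := by
      rw [← Real.rpow_mul hA.le]; congr 1; field_simp; ring
    have h1 : (A ^ ((2 - b) / 2)) ^ (-(2 * b - 2) / (2 - b)) ≤
        (η * τ ^ (b - 2)) ^ (-(2 * b - 2) / (2 - b)) :=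
      Real.rpow_le_rpow_of_nonpos hx h.le hp
    have h2 : (η * τ ^ (b - 2)) ^ (-(2 * b - 2) / (2 - b)) =
        η ^ (-(2 * b - 2) / (2 - b)) * τ ^ (2 * b - 2) := by
      rw [Real.mul_rpow hη.le (by positivity), ← Real.rpow_mul hτ.le]
      congr 2
      field_simp
      ring
    have h0 : 0 ≤ η * τ ^ (b - 2) * A ^ (-b / 2) := by positivity
    rw [e]
    linarith [h1, h2]

lemma FBcore {b : ℝ} (hb1 : 1 ≤ b) (hb2 : b < 2) (hbd : b < d) {ρ τ : ℝ} (hρ : 0 < ρ) (hτ : 0 < τ)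
    {χ : Sp d → ℝ} (h : χ ∈ TF d) :
    ((d : ℝ) - b) / 2 * ∫ x, AA ρ x ^ (-b / 2) * χ x ^ 2 ≤
      (((d : ℝ) - b) / 2) ^ (-(2 * b - 2) / (2 - b)) * τ ^ b * SS χ + τ ^ (b - 2) * DD χ := by
  have hdb : 0 < (d : ℝ) - b := by linarith
  set η := ((d : ℝ) - b) / 2 with hη
  have hη0 : 0 < η := by positivity
  have c3 := AA_rpow_cont (d := d) hρ (-b / 2)
  have c4 := AA_rpow_cont (d := d) hρ (-b / 2 - 1)
  have c5 := AA_rpow_cont (d := d) hρ (1 - b)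
  have i3 := TF.integrable_mul h c3
  have i5 := TF.integrable_mul h c5
  have hs : 0 < τ ^ (2 - b) := by positivity
  have h1 := ibp_le hρ b h hs
  have h2 : (2 * η) * ∫ x, AA ρ x ^ (-b / 2) * χ x ^ 2 ≤
      ∫ x, (d * AA ρ x ^ (-b / 2) - b * ‖x‖ ^ 2 * AA ρ x ^ (-b / 2 - 1)) * χ x ^ 2 := by
    rw [← integral_const_mul]
    apply integral_mono (i3.const_mul _)
    · exact TF.integrable_mul h ((continuous_const.mul c3).sub
        ((by fun_prop : Continuous fun x : Sp d => b * ‖x‖ ^ 2).mul c4))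
    · intro x
      simp only
      have hA := AA_pos hρ x
      have e : AA ρ x ^ (-b / 2) = AA ρ x * AA ρ x ^ (-b / 2 - 1) := by
        nth_rw 2 [← Real.rpow_one (AA ρ x)]
        rw [← Real.rpow_add hA]; congr 1; ring
      have h0 : 0 ≤ AA ρ x ^ (-b / 2 - 1) := by positivity
      have hle : ‖x‖ ^ 2 ≤ AA ρ x := by unfold AA; nlinarith [sq_nonneg ρ]
      have : 2 * η * AA ρ x ^ (-b / 2) ≤
          d * AA ρ x ^ (-b / 2) - b * ‖x‖ ^ 2 * AA ρ x ^ (-b / 2 - 1) := by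
        have h3 : b * ‖x‖ ^ 2 * AA ρ x ^ (-b / 2 - 1) ≤ b * AA ρ x * AA ρ x ^ (-b / 2 - 1) := by
          gcongr
        have h4 : b * AA ρ x * AA ρ x ^ (-b / 2 - 1) = b * AA ρ x ^ (-b / 2) := by
          rw [e]; ring
        rw [hη]
        linarith
      calc 2 * η * (AA ρ x ^ (-b / 2) * χ x ^ 2) = (2 * η * AA ρ x ^ (-b / 2)) * χ x ^ 2 := by ring
        _ ≤ _ := by gcongr
  have h3 : ∫ x, AA ρ x ^ (1 - b) * χ x ^ 2 ≤
      η * τ ^ (b - 2) * (∫ x, AA ρ x ^ (-b / 2) * χ x ^ 2) +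
        η ^ (-(2 * b - 2) / (2 - b)) * τ ^ (2 * b - 2) * SS χ := by
    rw [SS, ← integral_const_mul, ← integral_const_mul,
      ← integral_add (i3.const_mul _) ((TF.integrable_sq h).const_mul _)]
    apply integral_mono i5 ((i3.const_mul _).add ((TF.integrable_sq h).const_mul _))
    intro x
    simp only
    have := young_pt hb1 hb2 hη0 hτ (AA_pos hρ x)
    calc AA ρ x ^ (1 - b) * χ x ^ 2 ≤ (η * τ ^ (b - 2) * AA ρ x ^ (-b / 2) +
      η ^ (-(2 * b - 2) / (2 - b)) * τ ^ (2 * b - 2)) * χ x ^ 2 := by gcongr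
      _ = _ := by simp only [Pi.add_apply]; ring
  set Y := ∫ x, AA ρ x ^ (-b / 2) * χ x ^ 2 with hY
  set Cη := η ^ (-(2 * b - 2) / (2 - b)) with hCη
  have h4 : τ ^ (2 - b) * (η * τ ^ (b - 2) * Y + Cη * τ ^ (2 * b - 2) * SS χ) =
      η * Y + Cη * τ ^ b * SS χ := by
    have e1 : τ ^ (2 - b) * τ ^ (b - 2) = 1 := by
      rw [← Real.rpow_add hτ]; simp
    have e2 : τ ^ (2 - b) * τ ^ (2 * b - 2) = τ ^ b := by
      rw [← Real.rpow_add hτ]; congr 1; ring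
    calc _ = (τ ^ (2 - b) * τ ^ (b - 2)) * (η * Y) + Cη * (τ ^ (2 - b) * τ ^ (2 * b - 2)) * SS χ := by
          ring
      _ = _ := by rw [e1, e2]; ring
  have h5 : (τ ^ (2 - b))⁻¹ = τ ^ (b - 2) := by
    rw [← Real.rpow_neg hτ.le]; congr 1; ring
  have h6 : τ ^ (2 - b) * (∫ x, AA ρ x ^ (1 - b) * χ x ^ 2) ≤ η * Y + Cη * τ ^ b * SS χ := by
    rw [← h4]; gcongr
  rw [h5] at h1
  linarith

lemma SS_set_le {χ : Sp d → ℝ} (h : χ ∈ TF d) {f : Sp d → ℝ} (hf : Continuous f) (hf0 : ∀ x, 0 ≤ f x)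
    {ρ C : ℝ} (hC : ∀ x : Sp d, ‖x‖ ≤ ρ → 1 ≤ C * f x) (hC0 : 0 ≤ C) :
    ∫ x in Metric.closedBall (0 : Sp d) ρ, χ x ^ 2 ≤ C * ∫ x, f x * χ x ^ 2 := by
  rw [← integral_const_mul]
  calc ∫ x in Metric.closedBall (0 : Sp d) ρ, χ x ^ 2
      ≤ ∫ x in Metric.closedBall (0 : Sp d) ρ, C * (f x * χ x ^ 2) := by
        apply setIntegral_mono_on (TF.integrable_sq h).integrableOn
          ((TF.integrable_mul h hf).const_mul C).integrableOn Metric.isClosed_closedBall.measurableSet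
        intro x hx
        have := hC x (by simpa using hx)
        nlinarith [sq_nonneg (χ x)]
    _ ≤ ∫ x, C * (f x * χ x ^ 2) := by
        apply setIntegral_le_integral ((TF.integrable_mul h hf).const_mul C)
        refine Filter.Eventually.of_forall fun x => ?_
        have := hf0 x
        simp only [Pi.zero_apply]
        positivity

lemma SS_ball_le {χ : Sp d → ℝ} (h : χ ∈ TF d) (ρ : ℝ) :
    ∫ x in Metric.closedBall (0 : Sp d) ρ, χ x ^ 2 ≤ SS χ := by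
  have := SS_set_le h (f := fun _ => 1) continuous_const (fun _ => zero_le_one) (ρ := ρ) (C := 1)
    (fun x _ => by simp) zero_le_one
  simpa [SS] using this

/-- The bound for `b = 1`. -/
lemma FB_one (hd : 1 ≤ d) {ρ τ : ℝ} (hρ : 0 < ρ) (hτ : 0 < τ) {χ : Sp d → ℝ} (h : χ ∈ TF d) :
    ∫ x in Metric.closedBall (0 : Sp d) ρ, χ x ^ 2 ≤ 2 ^ (3 / 2 : ℝ) * ρ * τ⁻¹ * QQ τ χ := by
  have c3 := AA_rpow_cont (d := d) hρ (-1 / 2)
  have c4 := AA_rpow_cont (d := d) hρ (-1 / 2 - 1)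
  have h1 := ibp_le hρ 1 h hτ
  have h2 : ∫ x, (ρ ^ 2 * AA ρ x ^ (-1 / 2 - 1 : ℝ)) * χ x ^ 2 ≤
      ∫ x, (d * AA ρ x ^ (-1 / 2 : ℝ) - 1 * ‖x‖ ^ 2 * AA ρ x ^ (-1 / 2 - 1 : ℝ)) * χ x ^ 2 := by
    apply integral_mono
    · exact TF.integrable_mul h (continuous_const.mul c4)
    · exact TF.integrable_mul h ((continuous_const.mul c3).sub
        ((by fun_prop : Continuous fun x : Sp d => 1 * ‖x‖ ^ 2).mul c4))
    · intro x
      simp only
      have hA := AA_pos hρ x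
      have e : AA ρ x ^ (-1 / 2 : ℝ) = AA ρ x * AA ρ x ^ (-1 / 2 - 1 : ℝ) := by
        nth_rw 2 [← Real.rpow_one (AA ρ x)]
        rw [← Real.rpow_add hA]; congr 1; ring
      have h0 : 0 ≤ AA ρ x ^ (-1 / 2 : ℝ) := by positivity
      have hd' : (1 : ℝ) ≤ d := by exact_mod_cast hd
      have h3 : ρ ^ 2 * AA ρ x ^ (-1 / 2 - 1 : ℝ) ≤
          d * AA ρ x ^ (-1 / 2 : ℝ) - 1 * ‖x‖ ^ 2 * AA ρ x ^ (-1 / 2 - 1 : ℝ) := by
        have h4 : 1 * AA ρ x ^ (-1 / 2 : ℝ) ≤ d * AA ρ x ^ (-1 / 2 : ℝ) := by gcongr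
        have h5 : 1 * AA ρ x ^ (-1 / 2 : ℝ) = (‖x‖ ^ 2 + ρ ^ 2) * AA ρ x ^ (-1 / 2 - 1 : ℝ) := by
          rw [one_mul, e]; rfl
        nlinarith
      gcongr
  have h3 : ∫ x, AA ρ x ^ (1 - 1 : ℝ) * χ x ^ 2 = SS χ := by simp [SS]
  rw [h3] at h1
  have h4 := SS_set_le h (f := fun x => ρ ^ 2 * AA ρ x ^ (-1 / 2 - 1 : ℝ)) (continuous_const.mul c4)
    (fun x => by have := AA_pos hρ x; positivity) (ρ := ρ) (C := 2 ^ (3 / 2 : ℝ) * ρ) ?_ (by positivity)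
  · refine h4.trans ?_
    have e : τ * SS χ + τ⁻¹ * DD χ = τ⁻¹ * QQ τ χ := by
      unfold QQ; field_simp; ring
    rw [mul_assoc (2 ^ (3 / 2 : ℝ) * ρ), ← e]
    gcongr
    exact h2.trans h1
  · intro x hx
    have hA := AA_pos hρ x
    have hA2 : AA ρ x ≤ 2 * ρ ^ 2 := by
      unfold AA
      have : ‖x‖ ^ 2 ≤ ρ ^ 2 := by gcongr
      linarith
    have h5 : (2 * ρ ^ 2) ^ (-1 / 2 - 1 : ℝ) ≤ AA ρ x ^ (-1 / 2 - 1 : ℝ) :=
      Real.rpow_le_rpow_of_nonpos hA hA2 (by norm_num)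
    have h6 : 2 ^ (3 / 2 : ℝ) * ρ * (ρ ^ 2 * (2 * ρ ^ 2) ^ (-1 / 2 - 1 : ℝ)) = 1 := by
      rw [Real.mul_rpow (by norm_num) (by positivity), ← Real.rpow_natCast ρ 2,
        ← Real.rpow_mul hρ.le]
      have e1 : (2:ℝ) ^ (3 / 2 : ℝ) * (2:ℝ) ^ (-1 / 2 - 1 : ℝ) = 1 := by
        rw [← Real.rpow_add (by norm_num)]; norm_num
      have e2 : ρ * (ρ ^ ((2:ℕ):ℝ) * ρ ^ (((2:ℕ):ℝ) * (-1 / 2 - 1))) = 1 := by
        nth_rw 1 [← Real.rpow_one ρ]
        rw [← Real.rpow_add hρ, ← Real.rpow_add hρ]; norm_num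
      calc _ = ((2:ℝ) ^ (3 / 2 : ℝ) * (2:ℝ) ^ (-1 / 2 - 1 : ℝ)) *
          (ρ * (ρ ^ ((2:ℕ):ℝ) * ρ ^ (((2:ℕ):ℝ) * (-1 / 2 - 1)))) := by ring
        _ = 1 := by rw [e1, e2]; norm_num
    refine h6.symm.le.trans ?_
    gcongr

/-- **The form bound.** -/
theorem FB (hd : 1 ≤ d) {b : ℝ} (hb0 : 0 < b) (hb : b < 2) (hb1 : d = 1 → b ≤ 1) :
    ∃ C > 0, ∀ ρ > 0, ∀ τ > 0, ∀ χ ∈ TF d,
      ∫ x in Metric.closedBall (0 : Sp d) ρ, χ x ^ 2 ≤ C * ρ ^ b * τ ^ (b - 2) * QQ τ χ := by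
  rcases le_or_gt b 1 with hb' | hb'
  · refine ⟨2 ^ (3 / 2 : ℝ), by positivity, fun ρ hρ τ hτ χ h => ?_⟩
    have hQ := QQ_nonneg τ χ
    have hC : (1:ℝ) ≤ 2 ^ (3 / 2 : ℝ) := Real.one_le_rpow (by norm_num) (by norm_num)
    rcases le_or_gt (ρ * τ) 1 with h1 | h1
    · refine (FB_one hd hρ hτ h).trans ?_
      have : ρ * τ⁻¹ ≤ ρ ^ b * τ ^ (b - 2) := by
        have e : ρ * τ⁻¹ = ρ ^ b * τ ^ (b - 2) * (ρ * τ) ^ (1 - b) := by
          rw [Real.mul_rpow hρ.le hτ.le]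
          have e1 : ρ ^ b * ρ ^ (1 - b) = ρ := by
            rw [← Real.rpow_add hρ]; simp
          have e2 : τ ^ (b - 2) * τ ^ (1 - b) = τ⁻¹ := by
            rw [← Real.rpow_add hτ, ← Real.rpow_neg_one]; congr 1; ring
          calc ρ * τ⁻¹ = (ρ ^ b * ρ ^ (1 - b)) * (τ ^ (b - 2) * τ ^ (1 - b)) := by rw [e1, e2]
            _ = _ := by ring
        rw [e]
        have : (ρ * τ) ^ (1 - b) ≤ 1 := Real.rpow_le_one (by positivity) h1 (by linarith)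
        have h0 : 0 ≤ ρ ^ b * τ ^ (b - 2) := by positivity
        nlinarith
      calc 2 ^ (3 / 2 : ℝ) * ρ * τ⁻¹ * QQ τ χ = 2 ^ (3 / 2 : ℝ) * (ρ * τ⁻¹) * QQ τ χ := by ring
        _ ≤ 2 ^ (3 / 2 : ℝ) * (ρ ^ b * τ ^ (b - 2)) * QQ τ χ := by gcongr
        _ = _ := by ring
    · refine (SS_ball_le h ρ).trans ?_
      have h2 : SS χ ≤ τ ^ (-2 : ℝ) * QQ τ χ := by
        have e : τ ^ (-2 : ℝ) = (τ ^ 2)⁻¹ := by
          rw [Real.rpow_neg hτ.le]; norm_num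
        rw [e]
        have : SS χ = (τ ^ 2)⁻¹ * (τ ^ 2 * SS χ) := by field_simp
        rw [this]
        have := DD_nonneg χ
        unfold QQ
        gcongr
        linarith
      have h3 : τ ^ (-2 : ℝ) ≤ ρ ^ b * τ ^ (b - 2) := by
        have e : ρ ^ b * τ ^ (b - 2) = (ρ * τ) ^ b * τ ^ (-2 : ℝ) := by
          rw [Real.mul_rpow hρ.le hτ.le, mul_assoc, ← Real.rpow_add hτ]; congr 2
        rw [e]
        have : 1 ≤ (ρ * τ) ^ b := Real.one_le_rpow h1.le hb0.le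
        have h0 : 0 ≤ τ ^ (-2 : ℝ) := by positivity
        nlinarith
      calc SS χ ≤ τ ^ (-2 : ℝ) * QQ τ χ := h2
        _ ≤ (ρ ^ b * τ ^ (b - 2)) * QQ τ χ := by gcongr
        _ = 1 * ((ρ ^ b * τ ^ (b - 2)) * QQ τ χ) := by ring
        _ ≤ 2 ^ (3 / 2 : ℝ) * ((ρ ^ b * τ ^ (b - 2)) * QQ τ χ) := by gcongr
        _ = _ := by ring
  · have hd2 : 2 ≤ d := by
      by_contra hcon
      have : d = 1 := by omega
      linarith [hb1 this]
    have hbd : b < d := lt_of_lt_of_le hb (by exact_mod_cast hd2)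
    set η := ((d : ℝ) - b) / 2 with hη
    have hη0 : 0 < η := by rw [hη]; linarith
    set Cη := η ^ (-(2 * b - 2) / (2 - b)) with hCη
    have hCη0 : 0 < Cη := by positivity
    refine ⟨2 ^ (b / 2) * (η⁻¹ * (Cη + 1)), by positivity, fun ρ hρ τ hτ χ h => ?_⟩
    have c3 := AA_rpow_cont (d := d) hρ (-b / 2)
    have h1 := FBcore hb'.le hb hbd hρ hτ h
    have h4 := SS_set_le h (f := fun x => AA ρ x ^ (-b / 2)) c3
      (fun x => by have := AA_pos hρ x; positivity) (ρ := ρ) (C := 2 ^ (b / 2) * ρ ^ b) ?_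
      (by positivity)
    · refine h4.trans ?_
      set Y := ∫ x, AA ρ x ^ (-b / 2) * χ x ^ 2 with hY
      have hD := DD_nonneg χ
      have hS := SS_nonneg χ
      have e : τ ^ (b - 2) * τ ^ 2 = τ ^ b := by
        rw [← Real.rpow_natCast τ 2, ← Real.rpow_add hτ]; congr 1; push_cast; ring
      have h5 : η * Y ≤ (Cη + 1) * (τ ^ (b - 2) * QQ τ χ) := by
        refine h1.trans ?_
        unfold QQ
        have : (Cη + 1) * (τ ^ (b - 2) * (DD χ + τ ^ 2 * SS χ)) =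
          (Cη + 1) * τ ^ (b - 2) * DD χ + (Cη + 1) * (τ ^ (b - 2) * τ ^ 2) * SS χ := by ring
        rw [this, e]
        have h0 : 0 ≤ τ ^ (b - 2) * DD χ := by positivity
        have h0' : 0 ≤ τ ^ b * SS χ := by positivity
        nlinarith
      have h6 : Y ≤ η⁻¹ * ((Cη + 1) * (τ ^ (b - 2) * QQ τ χ)) := by
        rw [le_inv_mul_iff₀ hη0]; exact h5
      calc 2 ^ (b / 2) * ρ ^ b * Y ≤
          2 ^ (b / 2) * ρ ^ b * (η⁻¹ * ((Cη + 1) * (τ ^ (b - 2) * QQ τ χ))) := by gcongr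
        _ = _ := by ring
    · intro x hx
      have hA := AA_pos hρ x
      have hA2 : AA ρ x ≤ 2 * ρ ^ 2 := by
        unfold AA
        have : ‖x‖ ^ 2 ≤ ρ ^ 2 := by gcongr
        linarith
      have h5 : (2 * ρ ^ 2) ^ (-b / 2 : ℝ) ≤ AA ρ x ^ (-b / 2 : ℝ) :=
        Real.rpow_le_rpow_of_nonpos hA hA2 (by linarith)
      have h6 : 2 ^ (b / 2) * ρ ^ b * (2 * ρ ^ 2) ^ (-b / 2) = 1 := by
        rw [Real.mul_rpow (by norm_num) (by positivity), ← Real.rpow_natCast ρ 2,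
          ← Real.rpow_mul hρ.le]
        have e1 : (2:ℝ) ^ (b / 2) * (2:ℝ) ^ (-b / 2) = 1 := by
          rw [← Real.rpow_add (by norm_num), show b / 2 + -b / 2 = 0 by ring, Real.rpow_zero]
        have e2 : ρ ^ b * ρ ^ (((2:ℕ):ℝ) * (-b / 2)) = 1 := by
          rw [← Real.rpow_add hρ, show b + ((2:ℕ):ℝ) * (-b / 2) = 0 by push_cast; ring,
            Real.rpow_zero]
        calc _ = ((2:ℝ) ^ (b / 2) * (2:ℝ) ^ (-b / 2)) *
            (ρ ^ b * ρ ^ (((2:ℕ):ℝ) * (-b / 2))) := by ring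
          _ = 1 := by rw [e1, e2]; norm_num
      refine h6.symm.le.trans ?_
      gcongr

end MP497a12
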