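import Mathlib
import Pool.Agent.Lib.MP_497a12_mp.FB

/-!
# The potential
-/

open MeasureTheory Filter Topology
open scoped ENNReal ContDiff RealInnerProductSpace

namespace MP497a12

variable {d : ℕ}

/-- The heights. -/
noncomputable def aa (b : ℝ) (k : ℕ) : ℝ := (2 : ℝ) ^ ((k : ℝ) * b) / ((k : ℝ) + 1) ^ 2

lemma aa_pos (b : ℝ) (k : ℕ) : 0 < aa b k := by unfold aa; positivity

/-- The radii. -/
noncomputable def rad (k : ℕ) : ℝ := (1 / 2 : ℝ) ^ k

lemma rad_pos (k : ℕ) : 0 < rad k := by unfold rad; positivity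

open Classical in
/-- The `k`-th piece. -/
noncomputable def tt (b : ℝ) (k : ℕ) (x : Sp d) : ℝ :=
  if 0 < ‖x‖ ∧ ‖x‖ ≤ rad k then aa b k else 0

lemma tt_nonneg (b : ℝ) (k : ℕ) (x : Sp d) : 0 ≤ tt b k x := by
  unfold tt; split_ifs
  · exact (aa_pos b k).le
  · exact le_rfl

lemma tt_le (b : ℝ) (k : ℕ) (x : Sp d) : tt b k x ≤ aa b k := by
  unfold tt; split_ifs
  · exact le_rfl
  · exact (aa_pos b k).le

lemma measurable_tt (b : ℝ) (k : ℕ) : Measurable (tt (d := d) b k) := by
  unfold tt
  refine Measurable.ite ?_ measurable_const measurable_const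
  exact (measurableSet_lt measurable_const measurable_norm).inter
    (measurableSet_le measurable_norm measurable_const)

lemma tt_support (b : ℝ) (x : Sp d) : ∃ K, ∀ k ≥ K, tt b k x = 0 := by
  rcases eq_or_ne x 0 with rfl | hx
  · exact ⟨0, fun k _ => by simp [tt]⟩
  · have hx0 : 0 < ‖x‖ := norm_pos_iff.mpr hx
    obtain ⟨K, hK⟩ := exists_pow_lt_of_lt_one hx0 (by norm_num : (1 / 2 : ℝ) < 1)
    refine ⟨K, fun k hk => ?_⟩
    unfold tt
    rw [if_neg]
    rintro ⟨-, h⟩
    have : rad k ≤ (1 / 2 : ℝ) ^ K := pow_le_pow_of_le_one (by norm_num) (by norm_num) hk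
    linarith

lemma tt_summable (b : ℝ) (x : Sp d) : Summable (fun k => tt b k x) := by
  obtain ⟨K, hK⟩ := tt_support b x
  exact summable_of_ne_finset_zero (s := Finset.range K) fun k hk => hK k (by simpa using hk)

/-- The potential (with the opposite sign). -/
noncomputable def WW (b : ℝ) (x : Sp d) : ℝ := ∑' k, tt b k x

/-- Its partial sums. -/
noncomputable def WK (b : ℝ) (K : ℕ) (x : Sp d) : ℝ := ∑ k ∈ Finset.range K, tt b k x

lemma WK_nonneg (b : ℝ) (K : ℕ) (x : Sp d) : 0 ≤ WK b K x :=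
  Finset.sum_nonneg fun k _ => tt_nonneg b k x

lemma WW_nonneg (b : ℝ) (x : Sp d) : 0 ≤ WW b x := tsum_nonneg fun k => tt_nonneg b k x

lemma WK_le_WW (b : ℝ) (K : ℕ) (x : Sp d) : WK b K x ≤ WW b x :=
  (tt_summable b x).sum_le_tsum _ fun k _ => tt_nonneg b k x

lemma WK_le (b : ℝ) (K : ℕ) (x : Sp d) : WK b K x ≤ ∑ k ∈ Finset.range K, aa b k :=
  Finset.sum_le_sum fun k _ => tt_le b k x

lemma WK_supp (b : ℝ) (K : ℕ) (x : Sp d) (hx : 1 < ‖x‖) : WK b K x = 0 := by
  apply Finset.sum_eq_zero
  intro k _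
  unfold tt
  rw [if_neg]
  rintro ⟨-, h⟩
  have : rad k ≤ 1 := pow_le_one₀ (by norm_num) (by norm_num)
  linarith

lemma measurable_WK (b : ℝ) (K : ℕ) : Measurable (WK (d := d) b K) :=
  Finset.measurable_sum _ fun k _ => measurable_tt b k

lemma tendsto_WK (b : ℝ) (x : Sp d) : Tendsto (fun K => WK b K x) atTop (𝓝 (WW b x)) :=
  (tt_summable b x).hasSum.tendsto_sum_nat

lemma measurable_WW (b : ℝ) : Measurable (WW (d := d) b) :=
  measurable_of_tendsto_metrizable (fun K => measurable_WK b K)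
    (tendsto_pi_nhds.mpr fun x => tendsto_WK b x)

lemma aa_le_WW (b : ℝ) (k : ℕ) {x : Sp d} (h0 : 0 < ‖x‖) (h1 : ‖x‖ ≤ rad k) :
    aa b k ≤ WW b x := by
  have : tt b k x = aa b k := by unfold tt; rw [if_pos ⟨h0, h1⟩]
  rw [← this]
  exact (tt_summable b x).le_tsum k fun j _ => tt_nonneg b j x

/-- The tails of the sum of the inverse squares. -/
noncomputable def ee (K : ℕ) : ℝ := ∑' k : ℕ, 1 / (((k + K : ℕ) : ℝ) + 1) ^ 2

lemma summable_inv_sq : Summable (fun k : ℕ => 1 / ((k : ℝ) + 1) ^ 2) := by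
  have := (summable_nat_add_iff 1).mpr (Real.summable_one_div_nat_pow.mpr (by norm_num : 1 < 2))
  simpa using this

lemma summable_inv_sq' (K : ℕ) : Summable (fun k : ℕ => 1 / (((k + K : ℕ) : ℝ) + 1) ^ 2) :=
  (summable_nat_add_iff (f := fun k : ℕ => 1 / ((k : ℝ) + 1) ^ 2) K).mpr summable_inv_sq

lemma ee_pos (K : ℕ) : 0 < ee K := by
  unfold ee
  exact (summable_inv_sq' K).tsum_pos (fun k => by positivity) 0 (by positivity)

lemma tendsto_ee : Tendsto ee atTop (𝓝 0) := by
  have := tendsto_sum_nat_add (fun k : ℕ => 1 / ((k : ℝ) + 1) ^ 2)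
  exact this

lemma tail_eq (b : ℝ) (K : ℕ) (x : Sp d) : WW b x - WK b K x = ∑' k, tt b (k + K) x := by
  have := (tt_summable b x).sum_add_tsum_nat_add K
  unfold WW WK
  linarith

/-- The form bound for the tails. -/
lemma tail_bound {b C : ℝ} (hC : 0 < C)
    (hFB : ∀ ρ > 0, ∀ τ > 0, ∀ χ ∈ TF d,
      ∫ x in Metric.closedBall (0 : Sp d) ρ, χ x ^ 2 ≤ C * ρ ^ b * τ ^ (b - 2) * QQ τ χ)
    (K : ℕ) {τ : ℝ} (hτ : 0 < τ) {χ : Sp d → ℝ} (hχ : χ ∈ TF d) :
    Integrable (fun x => (WW b x - WK b K x) * χ x ^ 2) ∧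
      ∫ x, (WW b x - WK b K x) * χ x ^ 2 ≤ C * ee K * τ ^ (b - 2) * QQ τ χ := by
  have hQ := QQ_nonneg τ χ
  have hmeas : Measurable (fun x => (WW b x - WK b K x) * χ x ^ 2) :=
    ((measurable_WW b).sub (measurable_WK b K)).mul ((TF.cont hχ).measurable.pow_const 2)
  have hnn : ∀ x, 0 ≤ (WW b x - WK b K x) * χ x ^ 2 := fun x =>
    mul_nonneg (sub_nonneg.mpr (WK_le_WW b K x)) (sq_nonneg _)
  have hterm : ∀ k : ℕ, ∫⁻ x, ENNReal.ofReal (tt b k x * χ x ^ 2) ≤
      ENNReal.ofReal (C * (1 / ((k : ℝ) + 1) ^ 2) * τ ^ (b - 2) * QQ τ χ) := by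
    intro k
    calc ∫⁻ x, ENNReal.ofReal (tt b k x * χ x ^ 2)
        ≤ ∫⁻ x in Metric.closedBall (0 : Sp d) (rad k), ENNReal.ofReal (aa b k * χ x ^ 2) := by
          rw [← lintegral_indicator Metric.isClosed_closedBall.measurableSet]
          apply lintegral_mono
          intro x
          simp only
          by_cases hx : x ∈ Metric.closedBall (0 : Sp d) (rad k)
          · rw [Set.indicator_of_mem hx]
            apply ENNReal.ofReal_le_ofReal
            have := tt_le b k x
            gcongr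
          · rw [Set.indicator_of_notMem hx]
            have : tt b k x = 0 := by
              unfold tt
              rw [if_neg]
              rintro ⟨-, h⟩
              exact hx (by simpa using h)
            rw [this]; simp
      _ = ENNReal.ofReal (∫ x in Metric.closedBall (0 : Sp d) (rad k), aa b k * χ x ^ 2) := by
          rw [ofReal_integral_eq_lintegral_ofReal]
          · exact ((TF.integrable_sq hχ).const_mul _).integrableOn
          · exact Eventually.of_forall fun x => mul_nonneg (aa_pos b k).le (sq_nonneg _)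
      _ ≤ _ := by
          apply ENNReal.ofReal_le_ofReal
          rw [integral_const_mul]
          have h1 := hFB (rad k) (rad_pos k) τ hτ χ hχ
          have h2 : aa b k * rad k ^ b = 1 / ((k : ℝ) + 1) ^ 2 := by
            have h3 : rad k ^ b = (2 : ℝ) ^ (-((k : ℝ) * b)) := by
              unfold rad
              rw [one_div, inv_pow, Real.inv_rpow (by positivity), ← Real.rpow_natCast 2 k,
                ← Real.rpow_mul (by norm_num), Real.rpow_neg (by norm_num)]
            rw [h3, aa, div_mul_eq_mul_div, ← Real.rpow_add (by norm_num)]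
            simp
          calc aa b k * ∫ x in Metric.closedBall (0 : Sp d) (rad k), χ x ^ 2
              ≤ aa b k * (C * rad k ^ b * τ ^ (b - 2) * QQ τ χ) := by
                have := (aa_pos b k).le
                gcongr
            _ = C * (aa b k * rad k ^ b) * τ ^ (b - 2) * QQ τ χ := by ring
            _ = _ := by rw [h2]
  have hlint : ∫⁻ x, ENNReal.ofReal ((WW b x - WK b K x) * χ x ^ 2) ≤
      ENNReal.ofReal (C * ee K * τ ^ (b - 2) * QQ τ χ) := by
    calc ∫⁻ x, ENNReal.ofReal ((WW b x - WK b K x) * χ x ^ 2)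
        = ∫⁻ x, ∑' k, ENNReal.ofReal (tt b (k + K) x * χ x ^ 2) := by
          apply lintegral_congr
          intro x
          rw [tail_eq, ← tsum_mul_right, ENNReal.ofReal_tsum_of_nonneg]
          · exact fun k => mul_nonneg (tt_nonneg b _ x) (sq_nonneg _)
          · exact ((summable_nat_add_iff (f := fun k => tt b k x) K).mpr
              (tt_summable b x)).mul_right _
      _ = ∑' k, ∫⁻ x, ENNReal.ofReal (tt b (k + K) x * χ x ^ 2) := by
          apply lintegral_tsum
          intro k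
          exact (((measurable_tt b (k + K)).mul
            ((TF.cont hχ).measurable.pow_const 2)).ennreal_ofReal).aemeasurable
      _ ≤ ∑' k : ℕ, ENNReal.ofReal (C * (1 / (((k + K : ℕ) : ℝ) + 1) ^ 2) * τ ^ (b - 2) * QQ τ χ) :=
          ENNReal.tsum_le_tsum fun k => hterm (k + K)
      _ = _ := by
          rw [← ENNReal.ofReal_tsum_of_nonneg]
          · congr 1
            rw [ee, tsum_mul_right, tsum_mul_right, tsum_mul_left]
          · intro k; positivity
          · exact (((summable_inv_sq' K).mul_left C).mul_right _).mul_right _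
  have hint : Integrable (fun x => (WW b x - WK b K x) * χ x ^ 2) := by
    refine ⟨hmeas.aestronglyMeasurable, ?_⟩
    rw [hasFiniteIntegral_iff_ofReal (Eventually.of_forall hnn)]
    exact hlint.trans_lt ENNReal.ofReal_lt_top
  refine ⟨hint, ?_⟩
  rw [← ofReal_integral_eq_lintegral_ofReal hint (Eventually.of_forall hnn)] at hlint
  refine (ENNReal.ofReal_le_ofReal_iff ?_).mp hlint
  have := (ee_pos K).le
  positivity

/-- The `L^q` norm of the pieces. -/
lemma eLpNorm_tt {b q : ℝ} (hq : 0 < q) (hbq : b * q = d) (k : ℕ) :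
    eLpNorm (tt (d := d) b k) (ENNReal.ofReal q) volume ≤
      ENNReal.ofReal (1 / ((k : ℝ) + 1) ^ 2) *
        (volume (Metric.closedBall (0 : Sp d) 1)) ^ (1 / q) := by
  have hq0 : ENNReal.ofReal q ≠ 0 := by simpa using hq
  have h1 : eLpNorm (tt (d := d) b k) (ENNReal.ofReal q) volume ≤
      eLpNorm ((Metric.closedBall (0 : Sp d) (rad k)).indicator fun _ => aa b k)
        (ENNReal.ofReal q) volume := by
    apply eLpNorm_mono
    intro x
    by_cases hx : x ∈ Metric.closedBall (0 : Sp d) (rad k)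
    · rw [Set.indicator_of_mem hx, Real.norm_of_nonneg (tt_nonneg b k x),
        Real.norm_of_nonneg (aa_pos b k).le]
      exact tt_le b k x
    · have : tt b k x = 0 := by
        unfold tt
        rw [if_neg]
        rintro ⟨-, h⟩
        exact hx (by simpa using h)
      rw [this]; simp
  refine h1.trans ?_
  rw [eLpNorm_indicator_const Metric.isClosed_closedBall.measurableSet hq0 ENNReal.ofReal_ne_top,
    ENNReal.toReal_ofReal hq.le, Measure.addHaar_closedBall' volume (0 : Sp d) (rad_pos k).le,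
    ENNReal.mul_rpow_of_nonneg _ _ (by positivity), ← mul_assoc]
  gcongr
  rw [ENNReal.ofReal_rpow_of_nonneg (by have := rad_pos k; positivity) (by positivity),
    Real.enorm_eq_ofReal (aa_pos b k).le, ← ENNReal.ofReal_mul (aa_pos b k).le]
  apply ENNReal.ofReal_le_ofReal
  apply le_of_eq
  have hfr : Module.finrank ℝ (Sp d) = d := by simp
  rw [hfr]
  have hr : (rad k ^ d) ^ (1 / q) = (2 : ℝ) ^ (-((k : ℝ) * b)) := by
    unfold rad
    rw [← pow_mul, one_div, inv_pow, ← Real.rpow_natCast 2, ← Real.rpow_neg (by norm_num),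
      ← Real.rpow_mul (by norm_num)]
    congr 1
    push_cast
    rw [← hbq]
    field_simp
  rw [hr, aa, div_mul_eq_mul_div, ← Real.rpow_add (by norm_num)]
  simp

lemma WW_memLp {b q : ℝ} (hq : 1 ≤ q) (hbq : b * q = d) :
    MemLp (WW (d := d) b) (ENNReal.ofReal q) volume := by
  have hq0 : 0 < q := by linarith
  refine ⟨(measurable_WW b).aestronglyMeasurable, ?_⟩
  set v := (volume (Metric.closedBall (0 : Sp d) 1)) ^ (1 / q) with hv
  have hvtop : v ≠ ⊤ := by
    rw [hv]
    exact ENNReal.rpow_ne_top_of_nonneg (by positivity) measure_closedBall_lt_top.ne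
  have hpart : ∀ K, eLpNorm (WK (d := d) b K) (ENNReal.ofReal q) volume ≤
      ENNReal.ofReal (ee 0) * v := by
    intro K
    have e : WK (d := d) b K = ∑ k ∈ Finset.range K, tt b k := by
      funext x; simp [WK]
    rw [e]
    refine (eLpNorm_sum_le (fun k _ => (measurable_tt b k).aestronglyMeasurable)
      (by rw [← ENNReal.ofReal_one]; exact ENNReal.ofReal_le_ofReal hq)).trans ?_
    refine (Finset.sum_le_sum fun k _ => eLpNorm_tt hq0 hbq k).trans ?_
    rw [← Finset.sum_mul]
    gcongr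
    rw [← ENNReal.ofReal_sum_of_nonneg (fun k _ => by positivity)]
    apply ENNReal.ofReal_le_ofReal
    have : ee 0 = ∑' k : ℕ, 1 / ((k : ℝ) + 1) ^ 2 := by simp [ee]
    rw [this]
    exact summable_inv_sq.sum_le_tsum _ fun k _ => by positivity
  have hlim := Lp.eLpNorm_lim_le_liminf_eLpNorm (p := ENNReal.ofReal q)
    (fun K => (measurable_WK (d := d) b K).aestronglyMeasurable (μ := volume)) (WW b)
    (Eventually.of_forall fun x => tendsto_WK b x)
  refine hlim.trans_lt ?_
  refine lt_of_le_of_lt (liminf_le_of_frequently_le' (Frequently.of_forall hpart)) ?_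
  exact ENNReal.mul_lt_top ENNReal.ofReal_lt_top hvtop.lt_top

end MP497a12
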