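import Mathlib
import Pool.Agent.Lib.MP_497a12_mp.Pot

/-!
# The lowest eigenvalue: upper and lower bounds
-/

open MeasureTheory Filter Topology
open scoped ENNReal ContDiff RealInnerProductSpace

namespace MP497a12

variable {d : ℕ}

/-- The form bound constant exists. -/
def FBound (d : ℕ) (b C : ℝ) : Prop :=
  0 < C ∧ ∀ ρ > 0, ∀ τ > 0, ∀ χ ∈ TF d,
      ∫ x in Metric.closedBall (0 : Sp d) ρ, χ x ^ 2 ≤ C * ρ ^ b * τ ^ (b - 2) * QQ τ χ

/-- The (negative of the) energy. -/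
noncomputable def RQ (b hb : ℝ) (χ : Sp d → ℝ) : ℝ := (∫ x, WW b x * χ x ^ 2) - hb ^ 2 * DD χ

lemma WW_integrable {b C : ℝ} (hF : FBound d b C) {χ : Sp d → ℝ} (hχ : χ ∈ TF d) :
    Integrable (fun x => WW b x * χ x ^ 2) := by
  have := (tail_bound hF.1 hF.2 0 one_pos hχ).1
  simpa [WK] using this

/-- Upper bound for the energy. -/
lemma RQ_le {b C : ℝ} (hb2 : b < 2) (hF : FBound d b C) (K : ℕ) {hb : ℝ} (hhb : 0 < hb)
    {χ : Sp d → ℝ} (hχ : χ ∈ TF d) :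
    RQ b hb χ ≤ ((∑ k ∈ Finset.range K, aa b k) +
      (C * ee K) ^ (2 / (2 - b)) * hb ^ (-(2 * b / (2 - b)))) * SS χ := by
  have h2b : 0 < 2 - b := by linarith
  have hCe : 0 < C * ee K := mul_pos hF.1 (ee_pos K)
  set τ := (C * ee K / hb ^ 2) ^ (1 / (2 - b)) with hτ
  have hτ0 : 0 < τ := by positivity
  obtain ⟨hi, hle⟩ := tail_bound hF.1 hF.2 K hτ0 hχ
  have hWK : Integrable (fun x => WK b K x * χ x ^ 2) := by
    have := (WW_integrable hF hχ).sub hi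
    refine this.congr (Eventually.of_forall fun x => ?_)
    simp only [Pi.sub_apply]
    ring
  have e1 : ∫ x, WW b x * χ x ^ 2 =
      (∫ x, WK b K x * χ x ^ 2) + ∫ x, (WW b x - WK b K x) * χ x ^ 2 := by
    rw [← integral_add hWK hi]
    congr 1
    funext x
    ring
  have h1 : ∫ x, WK b K x * χ x ^ 2 ≤ (∑ k ∈ Finset.range K, aa b k) * SS χ := by
    rw [SS, ← integral_const_mul]
    apply integral_mono hWK ((TF.integrable_sq hχ).const_mul _)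
    intro x
    simp only
    have := WK_le b K x
    gcongr
  have h2 : C * ee K * τ ^ (b - 2) = hb ^ 2 := by
    rw [hτ, ← Real.rpow_mul (by positivity)]
    have : 1 / (2 - b) * (b - 2) = -1 := by field_simp; ring
    rw [this, Real.rpow_neg_one, inv_div, mul_div_cancel₀ _ hCe.ne']
  have h3 : hb ^ 2 * τ ^ 2 = (C * ee K) ^ (2 / (2 - b)) * hb ^ (-(2 * b / (2 - b))) := by
    have hh : hb ^ 2 = hb ^ (2 : ℝ) := by norm_num
    have e2 : τ ^ 2 = (C * ee K / hb ^ (2 : ℝ)) ^ (2 / (2 - b)) := by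
      rw [hτ, hh, ← Real.rpow_natCast _ 2, ← Real.rpow_mul (by positivity)]
      congr 1
      push_cast
      ring
    rw [e2, hh, Real.div_rpow hCe.le (by positivity), ← Real.rpow_mul hhb.le, div_eq_mul_inv,
      ← Real.rpow_neg hhb.le, mul_left_comm, ← Real.rpow_add hhb]
    congr 2
    field_simp
    ring
  rw [h2] at hle
  unfold RQ
  rw [e1]
  unfold QQ at hle
  have : hb ^ 2 * (DD χ + τ ^ 2 * SS χ) = hb ^ 2 * DD χ + hb ^ 2 * τ ^ 2 * SS χ := by ring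
  rw [this, h3] at hle
  linarith

/-- A fixed test function supported in the unit ball. -/
lemma exists_chi0 (d : ℕ) : ∃ χ ∈ TF d, 0 < SS χ ∧ ∀ x, 1 < ‖x‖ → χ x = 0 := by
  let f : ContDiffBump (0 : Sp d) := ⟨1 / 2, 1, by norm_num, by norm_num⟩
  have hf : (f : Sp d → ℝ) ∈ TF d := ⟨f.contDiff, f.hasCompactSupport⟩
  refine ⟨f, hf, ?_, ?_⟩
  · unfold SS
    rw [integral_pos_iff_support_of_nonneg (fun x => sq_nonneg _) (TF.integrable_sq hf)]
    have : Function.support (fun x => (f : Sp d → ℝ) x ^ 2) = Metric.ball (0 : Sp d) 1 := by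
      ext x
      rw [Function.mem_support, pow_ne_zero_iff (by norm_num), ← Function.mem_support,
        f.support_eq]
    rw [this]
    exact Metric.measure_ball_pos _ _ one_pos
  · intro x hx
    have : x ∉ Function.support (f : Sp d → ℝ) := by
      rw [f.support_eq]
      intro h
      have := mem_ball_zero_iff.mp h
      change ‖x‖ < 1 at this
      linarith
    simpa using this

/-- The scaled test function. -/
lemma scale_mem {χ : Sp d → ℝ} (hχ : χ ∈ TF d) {c : ℝ} (hc : 0 < c) :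
    (fun x => χ (c • x)) ∈ TF d := by
  refine ⟨(TF.contDiff hχ).comp (contDiff_const_smul c), ?_⟩
  exact (TF.supp hχ).comp_homeomorph (Homeomorph.smulOfNeZero c hc.ne')

lemma scale_SS (χ : Sp d → ℝ) {c : ℝ} (hc : 0 < c) :
    SS (fun x => χ (c • x)) = (c ^ d)⁻¹ * SS χ := by
  unfold SS
  rw [Measure.integral_comp_smul volume (fun x => χ x ^ 2) c]
  have hfr : Module.finrank ℝ (Sp d) = d := by simp
  rw [hfr, abs_of_pos (by positivity), smul_eq_mul]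

lemma scale_DD {χ : Sp d → ℝ} (hχ : χ ∈ TF d) {c : ℝ} (hc : 0 < c) :
    DD (fun x => χ (c • x)) = c ^ 2 * (c ^ d)⁻¹ * DD χ := by
  have h1 : ∀ x, ‖fderiv ℝ (fun x => χ (c • x)) x‖ ^ 2 = c ^ 2 * ‖fderiv ℝ χ (c • x)‖ ^ 2 := by
    intro x
    have : fderiv ℝ (fun x => χ (c • x)) x = c • fderiv ℝ χ (c • x) := by
      have h2 : HasFDerivAt (fun x : Sp d => c • x) (c • ContinuousLinearMap.id ℝ (Sp d)) x :=
        (hasFDerivAt_id x).const_smul c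
      have h3 := ((TF.diff hχ (c • x)).hasFDerivAt.comp x h2).fderiv
      have h4 : fderiv ℝ (fun x => χ (c • x)) x = (fderiv ℝ χ (c • x)).comp
        (c • ContinuousLinearMap.id ℝ (Sp d)) := h3
      rw [h4]
      ext v
      simp
    rw [this, norm_smul, mul_pow, Real.norm_eq_abs, sq_abs]
  unfold DD
  simp_rw [h1]
  rw [integral_const_mul, Measure.integral_comp_smul volume (fun x => ‖fderiv ℝ χ x‖ ^ 2) c]
  have hfr : Module.finrank ℝ (Sp d) = d := by simp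
  rw [hfr, abs_of_pos (by positivity), smul_eq_mul]
  ring

/-- Lower bound for the energy of the scaled trial functions. -/
lemma RQ_ge {b C : ℝ} (hF : FBound d b C) (hb : ℝ) (k : ℕ)
    {χ : Sp d → ℝ} (hχ : χ ∈ TF d) (hsupp : ∀ x, 1 < ‖x‖ → χ x = 0) (hd : 1 ≤ d) :
    (aa b k * SS χ - hb ^ 2 * 4 ^ k * DD χ) * (((2 : ℝ) ^ k) ^ d)⁻¹ ≤
      RQ b hb (fun x => χ ((2 : ℝ) ^ k • x)) := by
  have hc : (0 : ℝ) < 2 ^ k := by positivity
  unfold RQ
  rw [scale_DD hχ hc]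
  have h1 : aa b k * SS (fun x => χ ((2 : ℝ) ^ k • x)) ≤
      ∫ x, WW b x * χ ((2 : ℝ) ^ k • x) ^ 2 := by
    unfold SS
    rw [← integral_const_mul]
    apply integral_mono_ae ((TF.integrable_sq (scale_mem hχ hc)).const_mul _)
      (WW_integrable hF (scale_mem hχ hc))
    have hne : ∀ᵐ x : Sp d, x ≠ 0 := by
      have : Nontrivial (Sp d) := by
        have : Nonempty (Fin d) := ⟨⟨0, hd⟩⟩
        infer_instance
      exact (measure_eq_zero_iff_ae_notMem.mp (measure_singleton (0 : Sp d)))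
    filter_upwards [hne] with x hx
    rcases le_or_gt ‖x‖ (rad k) with h | h
    · have := aa_le_WW b k (norm_pos_iff.mpr hx) h
      gcongr
    · have : χ ((2 : ℝ) ^ k • x) = 0 := by
        apply hsupp
        rw [norm_smul, Real.norm_of_nonneg hc.le]
        have h2 : (2 : ℝ) ^ k * rad k = 1 := by
          unfold rad; rw [← mul_pow]; norm_num
        rw [← h2]
        gcongr
      rw [this]; simp
  rw [scale_SS χ hc] at h1
  have e : ((2 : ℝ) ^ k) ^ 2 = 4 ^ k := by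
    rw [← pow_mul, mul_comm, pow_mul]; norm_num
  rw [e]
  have : (aa b k * SS χ - hb ^ 2 * 4 ^ k * DD χ) * (((2 : ℝ) ^ k) ^ d)⁻¹ =
    aa b k * ((((2 : ℝ) ^ k) ^ d)⁻¹ * SS χ) -
      hb ^ 2 * (4 ^ k * (((2 : ℝ) ^ k) ^ d)⁻¹ * DD χ) := by ring
  rw [this]
  linarith

/-- The set of values of the normalised energy. -/
def eS (d : ℕ) (b hb : ℝ) : Set ℝ := {r | ∃ χ ∈ TF d, 0 < SS χ ∧ r = RQ b hb χ / SS χ}

/-- Minus the lowest energy. -/
noncomputable def eH (d : ℕ) (b hb : ℝ) : ℝ := sSup (eS d b hb)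

lemma eS_nonempty (d : ℕ) (b hb : ℝ) : (eS d b hb).Nonempty := by
  obtain ⟨χ, h1, h2, -⟩ := exists_chi0 d
  exact ⟨_, χ, h1, h2, rfl⟩

lemma eS_le {b C : ℝ} (hb2 : b < 2) (hF : FBound d b C) (K : ℕ) {hb : ℝ} (hhb : 0 < hb)
    {r : ℝ} (hr : r ∈ eS d b hb) : r ≤ (∑ k ∈ Finset.range K, aa b k) +
      (C * ee K) ^ (2 / (2 - b)) * hb ^ (-(2 * b / (2 - b))) := by
  obtain ⟨χ, h1, h2, rfl⟩ := hr
  rw [div_le_iff₀ h2]
  exact RQ_le hb2 hF K hhb h1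

lemma eS_bdd {b C : ℝ} (hb2 : b < 2) (hF : FBound d b C) {hb : ℝ} (hhb : 0 < hb) :
    BddAbove (eS d b hb) := ⟨_, fun _ hr => eS_le hb2 hF 0 hhb hr⟩

lemma eq_zero_of_SS {χ : Sp d → ℝ} (hχ : χ ∈ TF d) (h : SS χ = 0) : χ = 0 := by
  have h1 : (fun x => χ x ^ 2) =ᵐ[volume] 0 :=
    (integral_eq_zero_iff_of_nonneg (fun x => sq_nonneg _) (TF.integrable_sq hχ)).mp h
  have h2 : χ =ᵐ[volume] (0 : Sp d → ℝ) := by
    filter_upwards [h1] with x hx
    simpa using hx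
  exact (Continuous.ae_eq_iff_eq volume (TF.cont hχ) continuous_const).mp h2

lemma RQ_le_eH {b C : ℝ} (hb2 : b < 2) (hF : FBound d b C) {hb : ℝ} (hhb : 0 < hb)
    {χ : Sp d → ℝ} (hχ : χ ∈ TF d) : RQ b hb χ ≤ eH d b hb * SS χ := by
  rcases (SS_nonneg χ).eq_or_lt with h | h
  · have h0 := eq_zero_of_SS hχ h.symm
    subst h0
    have hf : fderiv ℝ (0 : Sp d → ℝ) = 0 := fderiv_zero
    simp [RQ, DD, SS, hf]
  · rw [← div_le_iff₀ h]
    exact le_csSup (eS_bdd hb2 hF hhb) ⟨χ, hχ, h, rfl⟩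

lemma exists_near {b : ℝ} {hb : ℝ} {δ : ℝ} (hδ : 0 < δ) :
    ∃ χ ∈ TF d, 0 < SS χ ∧ (eH d b hb - δ) * SS χ ≤ RQ b hb χ := by
  obtain ⟨r, ⟨χ, h1, h2, rfl⟩, hr⟩ := exists_lt_of_lt_csSup (eS_nonempty d b hb)
    (show eH d b hb - δ < sSup (eS d b hb) by unfold eH; linarith)
  exact ⟨χ, h1, h2, by rw [← le_div_iff₀ h2]; exact hr.le⟩

lemma eH_ge {b C : ℝ} (hb2 : b < 2) (hF : FBound d b C) {hb : ℝ} (hhb : 0 < hb) (k : ℕ)
    {χ : Sp d → ℝ} (hχ : χ ∈ TF d) (hS : 0 < SS χ) (hsupp : ∀ x, 1 < ‖x‖ → χ x = 0)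
    (hd : 1 ≤ d) : aa b k - hb ^ 2 * 4 ^ k * (DD χ / SS χ) ≤ eH d b hb := by
  have hc : (0 : ℝ) < 2 ^ k := by positivity
  have h1 := (RQ_ge hF hb k hχ hsupp hd).trans (RQ_le_eH hb2 hF hhb (scale_mem hχ hc))
  rw [scale_SS χ hc] at h1
  have hp : 0 < (((2 : ℝ) ^ k) ^ d)⁻¹ := by positivity
  have h2 : (aa b k * SS χ - hb ^ 2 * 4 ^ k * DD χ) ≤ eH d b hb * SS χ := by
    have : eH d b hb * ((((2 : ℝ) ^ k) ^ d)⁻¹ * SS χ) =
      (eH d b hb * SS χ) * (((2 : ℝ) ^ k) ^ d)⁻¹ := by ring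
    rw [this] at h1
    exact le_of_mul_le_mul_right h1 hp
  have h3 : aa b k - hb ^ 2 * 4 ^ k * (DD χ / SS χ) =
      (aa b k * SS χ - hb ^ 2 * 4 ^ k * DD χ) / SS χ := by
    field_simp
  rw [h3, div_le_iff₀ hS]
  exact h2

/-- Powers of small numbers are small. -/
lemma small_rpow {A ν δ : ℝ} (hA : 0 ≤ A) (hν : 0 < ν) (hδ : 0 < δ) :
    ∃ h₀ > 0, h₀ ≤ 1 ∧ ∀ h : ℝ, 0 < h → h < h₀ → A * h ^ ν ≤ δ := by
  refine ⟨min ((δ / (A + 1)) ^ (1 / ν)) 1, by positivity, min_le_right _ _, ?_⟩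
  intro h h0 h1
  have h2 : h < (δ / (A + 1)) ^ (1 / ν) := lt_of_lt_of_le h1 (min_le_left _ _)
  have h3 : h ^ ν ≤ δ / (A + 1) := by
    calc h ^ ν ≤ ((δ / (A + 1)) ^ (1 / ν)) ^ ν := by gcongr
      _ = δ / (A + 1) := by
        rw [← Real.rpow_mul (by positivity), one_div_mul_cancel hν.ne', Real.rpow_one]
  calc A * h ^ ν ≤ (A + 1) * (δ / (A + 1)) := by
        have : 0 ≤ h ^ ν := by positivity
        gcongr
        linarith
    _ = δ := by field_simp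

/-- The upper bound: `eH` is `o(hb^(-κ))`. -/
theorem eH_upper {b C : ℝ} (hb0 : 0 < b) (hb2 : b < 2) (hF : FBound d b C) {δ : ℝ} (hδ : 0 < δ) :
    ∃ h₀ > 0, ∀ hb : ℝ, 0 < hb → hb < h₀ → eH d b hb ≤ δ * hb ^ (-(2 * b / (2 - b))) := by
  have h2b : 0 < 2 - b := by linarith
  have hκ : 0 < 2 * b / (2 - b) := by positivity
  have hlim : Tendsto (fun K => (C * ee K) ^ (2 / (2 - b))) atTop (𝓝 0) := by
    have h1 : Tendsto (fun K => C * ee K) atTop (𝓝 0) := by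
      simpa using tendsto_ee.const_mul C
    have h2 := h1.rpow_const (p := 2 / (2 - b)) (Or.inr (by positivity))
    rwa [Real.zero_rpow (by positivity)] at h2
  obtain ⟨K, hK⟩ := (hlim.eventually (gt_mem_nhds (show (0 : ℝ) < δ / 2 by positivity))).exists
  set M := ∑ k ∈ Finset.range K, aa b k with hM
  have hM0 : 0 ≤ M := Finset.sum_nonneg fun k _ => (aa_pos b k).le
  obtain ⟨h₀, h₀p, -, hh₀⟩ := small_rpow hM0 hκ (show (0 : ℝ) < δ / 2 by positivity)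
  refine ⟨h₀, h₀p, fun hb h0 h1 => ?_⟩
  apply csSup_le (eS_nonempty d b hb)
  intro r hr
  have h2 := eS_le hb2 hF K h0 hr
  have h3 := hh₀ hb h0 h1
  have hp : 0 < hb ^ (-(2 * b / (2 - b))) := by positivity
  have h4 : M ≤ δ / 2 * hb ^ (-(2 * b / (2 - b))) := by
    rw [Real.rpow_neg h0.le, ← div_eq_mul_inv, le_div_iff₀ (by positivity)]
    exact h3
  have h5 : (C * ee K) ^ (2 / (2 - b)) * hb ^ (-(2 * b / (2 - b))) ≤
      δ / 2 * hb ^ (-(2 * b / (2 - b))) := by gcongr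
  linarith

/-- The lower bound. -/
theorem eH_lower {b C : ℝ} (hb0 : 0 < b) (hb2 : b < 2) (hF : FBound d b C) (hd : 1 ≤ d)
    {η : ℝ} (hη : 0 < η) :
    ∃ c > 0, ∃ h₀ > 0, ∀ hb : ℝ, 0 < hb → hb < h₀ →
      c * hb ^ (-(2 * b / (2 - b)) + η) ≤ eH d b hb := by
  obtain ⟨χ, hχ, hS, hsupp⟩ := exists_chi0 d
  have h2b : 0 < 2 - b := by linarith
  set κ := 2 * b / (2 - b) with hκ
  have hκ0 : 0 < κ := by positivity
  set A := DD χ / SS χ with hA
  have hA0 : 0 ≤ A := div_nonneg (DD_nonneg χ) hS.le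
  set t := min (1 / 2) (η / (2 * κ)) with ht
  have ht0 : 0 < t := by positivity
  have ht1 : t ≤ 1 / 2 := min_le_left _ _
  have ht2 : κ * t ≤ η / 2 := by
    calc κ * t ≤ κ * (η / (2 * κ)) := by gcongr; exact min_le_right _ _
      _ = η / 2 := by field_simp
  set θ := 2 / (2 - b) * (1 - t) with hθ
  have hθ0 : 0 < θ := by
    rw [hθ]; apply mul_pos (by positivity); linarith
  set σ := min (η / 4) (t / 2) with hσ
  have hσ0 : 0 < σ := by positivity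
  have hσ1 : σ ≤ η / 4 := min_le_left _ _
  have hσ2 : σ ≤ t / 2 := min_le_right _ _
  have hl2 : 0 < Real.log 2 := Real.log_pos (by norm_num)
  set Cs := 1 + θ / (σ * Real.log 2) with hCs
  have hCs0 : 0 < Cs := by positivity
  obtain ⟨h₀, h₀p, h₀1, hh₀⟩ := small_rpow hA0 (show 0 < 2 * t - 2 * σ by linarith)
    (show (0 : ℝ) < (Cs ^ 2)⁻¹ / 2 by positivity)
  refine ⟨(Cs ^ 2)⁻¹ / 2 * 2 ^ (-b), by positivity, h₀, h₀p, fun hb h0 h1 => ?_⟩
  have hb1 : hb < 1 := lt_of_lt_of_le h1 h₀1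
  set L := θ * Real.logb 2 (1 / hb) with hL
  have hlog : 0 ≤ Real.log (1 / hb) := Real.log_nonneg (by rw [le_div_iff₀ h0]; linarith)
  have hL0 : 0 ≤ L := by
    rw [hL, Real.logb]; positivity
  set k := ⌊L⌋₊ with hk
  have hk1 : (k : ℝ) ≤ L := Nat.floor_le hL0
  have hk2 : L < (k : ℝ) + 1 := Nat.lt_floor_add_one L
  have h2L : (2 : ℝ) ^ L = hb ^ (-θ) := by
    rw [hL, mul_comm, Real.rpow_mul (by norm_num), Real.rpow_logb (by norm_num) (by norm_num)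
      (by positivity), one_div, Real.inv_rpow h0.le, Real.rpow_neg h0.le]
  -- bound for k + 1
  have hk3 : (k : ℝ) + 1 ≤ Cs * hb ^ (-σ) := by
    have e1 : (1 / hb) ^ σ = hb ^ (-σ) := by
      rw [one_div, Real.inv_rpow h0.le, Real.rpow_neg h0.le]
    have h3 : Real.log (1 / hb) ≤ hb ^ (-σ) / σ := by
      rw [← e1]; exact Real.log_le_rpow_div (by positivity) hσ0
    have h4 : 1 ≤ hb ^ (-σ) := by
      rw [← e1]; exact Real.one_le_rpow (by rw [le_div_iff₀ h0]; linarith) hσ0.le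
    have h5 : L ≤ θ / (σ * Real.log 2) * hb ^ (-σ) := by
      rw [hL, Real.logb]
      calc θ * (Real.log (1 / hb) / Real.log 2) ≤ θ * ((hb ^ (-σ) / σ) / Real.log 2) := by gcongr
        _ = _ := by field_simp
    calc (k : ℝ) + 1 ≤ L + 1 := by linarith
      _ ≤ θ / (σ * Real.log 2) * hb ^ (-σ) + hb ^ (-σ) := by linarith
      _ = Cs * hb ^ (-σ) := by rw [hCs]; ring
  have hk4 : (Cs ^ 2)⁻¹ * hb ^ (2 * σ) ≤ 1 / ((k : ℝ) + 1) ^ 2 := by
    rw [le_div_iff₀ (by positivity)]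
    have h6 : ((k : ℝ) + 1) ^ 2 ≤ Cs ^ 2 * hb ^ (-(2 * σ)) := by
      calc ((k : ℝ) + 1) ^ 2 ≤ (Cs * hb ^ (-σ)) ^ 2 := by gcongr
        _ = Cs ^ 2 * hb ^ (-(2 * σ)) := by
          rw [mul_pow, ← Real.rpow_natCast (hb ^ (-σ)) 2, ← Real.rpow_mul h0.le]
          congr 2
          push_cast
          ring
    calc (Cs ^ 2)⁻¹ * hb ^ (2 * σ) * ((k : ℝ) + 1) ^ 2
        ≤ (Cs ^ 2)⁻¹ * hb ^ (2 * σ) * (Cs ^ 2 * hb ^ (-(2 * σ))) := by gcongr
      _ = ((Cs ^ 2)⁻¹ * Cs ^ 2) * (hb ^ (2 * σ) * hb ^ (-(2 * σ))) := by ring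
      _ = 1 := by
        rw [← Real.rpow_add h0, inv_mul_cancel₀ (by positivity)]
        simp
  -- the main estimate
  have hmain := eH_ge hb2 hF h0 k hχ hS hsupp hd
  have h4k : (4 : ℝ) ^ k = 2 ^ ((k : ℝ) * b) * 2 ^ ((k : ℝ) * (2 - b)) := by
    rw [← Real.rpow_add (by norm_num)]
    have : (k : ℝ) * b + (k : ℝ) * (2 - b) = 2 * k := by ring
    rw [this, Real.rpow_mul (by norm_num)]
    norm_num
  have h2k : (2 : ℝ) ^ ((k : ℝ) * (2 - b)) ≤ hb ^ (-(θ * (2 - b))) := by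
    calc (2 : ℝ) ^ ((k : ℝ) * (2 - b)) ≤ 2 ^ (L * (2 - b)) := by
          apply Real.rpow_le_rpow_of_exponent_le (by norm_num)
          gcongr
      _ = hb ^ (-(θ * (2 - b))) := by
        rw [Real.rpow_mul (by norm_num), h2L, ← Real.rpow_mul h0.le]
        congr 1; ring
  have h7 : hb ^ 2 * 2 ^ ((k : ℝ) * (2 - b)) * A ≤ (Cs ^ 2)⁻¹ / 2 * hb ^ (2 * σ) := by
    have e3 : hb ^ 2 * hb ^ (-(θ * (2 - b))) = hb ^ (2 * t - 2 * σ) * hb ^ (2 * σ) := by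
      rw [← Real.rpow_natCast hb 2, ← Real.rpow_add h0, ← Real.rpow_add h0]
      congr 1
      push_cast
      rw [hθ]
      field_simp
      ring
    calc hb ^ 2 * 2 ^ ((k : ℝ) * (2 - b)) * A
        ≤ hb ^ 2 * hb ^ (-(θ * (2 - b))) * A := by gcongr
      _ = (A * hb ^ (2 * t - 2 * σ)) * hb ^ (2 * σ) := by rw [e3]; ring
      _ ≤ (Cs ^ 2)⁻¹ / 2 * hb ^ (2 * σ) := by
        have := hh₀ hb h0 h1
        gcongr
  have h8 : 2 ^ (-b) * hb ^ (-(θ * b)) ≤ (2 : ℝ) ^ ((k : ℝ) * b) := by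
    have e4 : hb ^ (-(θ * b)) = 2 ^ (L * b) := by
      rw [Real.rpow_mul (by norm_num), h2L, ← Real.rpow_mul h0.le]
      congr 1; ring
    rw [e4, ← Real.rpow_add (by norm_num)]
    apply Real.rpow_le_rpow_of_exponent_le (by norm_num)
    nlinarith
  have h9 : (2 : ℝ) ^ ((k : ℝ) * b) * ((Cs ^ 2)⁻¹ / 2 * hb ^ (2 * σ)) ≤ eH d b hb := by
    refine le_trans ?_ hmain
    unfold aa
    rw [h4k]
    have e5 : (2 : ℝ) ^ ((k : ℝ) * b) / ((k : ℝ) + 1) ^ 2 -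
        hb ^ 2 * (2 ^ ((k : ℝ) * b) * 2 ^ ((k : ℝ) * (2 - b))) * A =
        2 ^ ((k : ℝ) * b) * (1 / ((k : ℝ) + 1) ^ 2 - hb ^ 2 * 2 ^ ((k : ℝ) * (2 - b)) * A) := by
      ring
    rw [e5]
    gcongr
    linarith
  refine le_trans ?_ h9
  have h10 : hb ^ (-κ + η) ≤ hb ^ (-(θ * b)) * hb ^ (2 * σ) := by
    rw [← Real.rpow_add h0]
    apply Real.rpow_le_rpow_of_exponent_ge h0 hb1.le
    have : θ * b = κ * (1 - t) := by
      rw [hθ, hκ]; field_simp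
    rw [this]
    linarith
  calc (Cs ^ 2)⁻¹ / 2 * 2 ^ (-b) * hb ^ (-κ + η)
      ≤ (Cs ^ 2)⁻¹ / 2 * 2 ^ (-b) * (hb ^ (-(θ * b)) * hb ^ (2 * σ)) := by gcongr
    _ = (2 ^ (-b) * hb ^ (-(θ * b))) * ((Cs ^ 2)⁻¹ / 2 * hb ^ (2 * σ)) := by ring
    _ ≤ _ := by gcongr

end MP497a12
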