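import Mathlib
import Pool.Agent.Lib.MP_497a12_mp.Test

/-!
# Averages over small cubes
-/

open MeasureTheory
open scoped ENNReal ContDiff RealInnerProductSpace

namespace MP497a12

variable {d : ℕ}

/-- The index of the cube of side `1/N` containing `x`. -/
noncomputable def cell (N : ℕ) (x : Sp d) : Fin d → ℤ := fun i => ⌊(N : ℝ) * x i⌋

/-- The cube with index `z`. -/
def Qc (N : ℕ) (z : Fin d → ℤ) : Set (Sp d) := {x | cell N x = z}

lemma measurable_cell (N : ℕ) : Measurable (cell (d := d) N) := by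
  unfold cell
  refine measurable_pi_lambda _ fun i => ?_
  have h : Measurable (fun x : Sp d => (N : ℝ) * x i) := by
    apply Continuous.measurable; fun_prop
  exact h.floor

lemma measurableSet_Qc (N : ℕ) (z : Fin d → ℤ) : MeasurableSet (Qc (d := d) N z) :=
  measurable_cell N (measurableSet_singleton z)

lemma Qc_eq {N : ℕ} (hN : 0 < N) (z : Fin d → ℤ) :
    Qc (d := d) N z = (WithLp.ofLp) ⁻¹'
      (Set.univ.pi fun i => Set.Ico ((z i : ℝ) / N) (((z i : ℝ) + 1) / N)) := by
  have hN' : (0 : ℝ) < N := by exact_mod_cast hN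
  ext x
  simp only [Qc, cell, Set.mem_ofPred_eq, Set.mem_preimage, Set.mem_univ_pi, Set.mem_Ico,
    funext_iff, Int.floor_eq_iff]
  refine forall_congr' fun i => ?_
  rw [div_le_iff₀ hN', lt_div_iff₀ hN', mul_comm (x i)]

lemma volume_Qc {N : ℕ} (hN : 0 < N) (z : Fin d → ℤ) :
    volume (Qc (d := d) N z) = ENNReal.ofReal ((1 / N : ℝ) ^ d) := by
  have hN' : (0 : ℝ) < N := by exact_mod_cast hN
  rw [Qc_eq hN, (PiLp.volume_preserving_ofLp (Fin d)).measure_preimage
    (MeasurableSet.univ_pi fun i => measurableSet_Ico).nullMeasurableSet, Real.volume_pi_Ico]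
  have : ∀ i, ENNReal.ofReal (((z i : ℝ) + 1) / N - (z i : ℝ) / N) = ENNReal.ofReal (1 / N) := by
    intro i; congr 1; ring
  simp_rw [this]
  rw [Finset.prod_const, Finset.card_univ, Fintype.card_fin, ENNReal.ofReal_pow (by positivity)]

/-- A box. -/
def Bx (d : ℕ) (N : ℕ) : Set (Sp d) := {h | ∀ i, |h i| ≤ 1 / N}

lemma Bx_eq (N : ℕ) :
    Bx d N = (WithLp.ofLp) ⁻¹' (Set.Icc (fun _ => (-(1 / N) : ℝ)) (fun _ => (1 / N : ℝ))) := by
  ext x
  simp only [Bx, Set.mem_ofPred_eq, Set.mem_preimage, Set.mem_Icc, Pi.le_def, abs_le]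
  exact forall_and

lemma measurableSet_Bx (N : ℕ) : MeasurableSet (Bx d N) := by
  rw [Bx_eq]
  exact (PiLp.volume_preserving_ofLp (Fin d)).measurable measurableSet_Icc

lemma volume_Bx {N : ℕ} (hN : 0 < N) : volume (Bx d N) = ENNReal.ofReal ((2 / N : ℝ) ^ d) := by
  have hN' : (0 : ℝ) < N := by exact_mod_cast hN
  rw [Bx_eq, (PiLp.volume_preserving_ofLp (Fin d)).measure_preimage
    measurableSet_Icc.nullMeasurableSet, Real.volume_Icc_pi]
  rw [Finset.prod_const, Finset.card_univ, Fintype.card_fin, ← ENNReal.ofReal_pow (by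
    have : (0 : ℝ) ≤ 1 / N := by positivity
    linarith)]
  congr 2; ring

lemma norm_sq_le_of_mem_Bx {N : ℕ} {h : Sp d} (hh : h ∈ Bx d N) :
    ‖h‖ ^ 2 ≤ d * (1 / N) ^ 2 := by
  rw [EuclideanSpace.norm_sq_eq]
  have : ∀ i ∈ Finset.univ, ‖h i‖ ^ 2 ≤ (1 / N : ℝ) ^ 2 := by
    intro i _
    have := hh i
    rw [Real.norm_eq_abs]
    gcongr
  refine (Finset.sum_le_sum this).trans ?_
  simp

lemma sub_mem_Bx {N : ℕ} (hN : 0 < N) {x y : Sp d} (h : cell N x = cell N y) : y - x ∈ Bx d N := by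
  have hN' : (0 : ℝ) < N := by exact_mod_cast hN
  intro i
  have h1 : ⌊(N : ℝ) * x i⌋ = ⌊(N : ℝ) * y i⌋ := congrFun h i
  have h2 := Int.abs_sub_lt_one_of_floor_eq_floor h1
  rw [← mul_sub, abs_mul, abs_of_pos hN'] at h2
  have : |(y - x) i| = |x i - y i| := by
    rw [abs_sub_comm]; rfl
  rw [this, le_div_iff₀ hN', mul_comm]
  exact h2.le

/-- The average of `u` over the cube of side `1/N` containing `x`. -/
noncomputable def avg (N : ℕ) (u : Sp d → ℝ) (x : Sp d) : ℝ :=
  (N : ℝ) ^ d * ∫ y in Qc N (cell N x), u y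

lemma measurable_avg (N : ℕ) (u : Sp d → ℝ) : Measurable (avg N u) := by
  have : avg N u = (fun z : Fin d → ℤ => (N : ℝ) ^ d * ∫ y in Qc N z, u y) ∘ (cell N) := rfl
  rw [this]
  exact (measurable_of_countable _).comp (measurable_cell N)

/-- Cauchy-Schwarz on a set of finite measure. -/
lemma sq_setIntegral_le {S : Set (Sp d)} {m : ℝ} (hm : 0 < m)
    (hS : volume S = ENNReal.ofReal m) {f : Sp d → ℝ}
    (h1 : IntegrableOn f S) (h2 : IntegrableOn (fun x => f x ^ 2) S) :
    (∫ x in S, f x) ^ 2 ≤ m * ∫ x in S, f x ^ 2 := by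
  have hSr : volume.real S = m := by
    rw [measureReal_def, hS, ENNReal.toReal_ofReal hm.le]
  set a := ∫ x in S, f x with ha
  have h0 : 0 ≤ ∫ x in S, (m * f x - a) ^ 2 := integral_nonneg fun x => sq_nonneg _
  have hfin : volume S ≠ ⊤ := by rw [hS]; exact ENNReal.ofReal_ne_top
  have h3 : ∫ x in S, (m * f x - a) ^ 2 = m ^ 2 * (∫ x in S, f x ^ 2) - m * a ^ 2 := by
    have e : (fun x => (m * f x - a) ^ 2) = fun x => (m ^ 2 * f x ^ 2 - (2 * a * m) * f x) + a ^ 2 := by
      funext t; ring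
    rw [e, integral_add, integral_sub, integral_const_mul, integral_const_mul, ← ha, setIntegral_const,
      hSr]
    · simp; ring
    · exact h2.const_mul _
    · exact h1.const_mul _
    · exact (h2.const_mul _).sub (h1.const_mul _)
    · exact integrableOn_const hfin
  rw [h3] at h0
  have : 0 ≤ m * (m * (∫ x in S, f x ^ 2) - a ^ 2) := by linarith
  have := nonneg_of_mul_nonneg_right this hm
  linarith

lemma avg_pointwise {N : ℕ} (hN : 0 < N) {χ : Sp d → ℝ} (h : χ ∈ TF d) (x : Sp d) :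
    (χ x - avg N χ x) ^ 2 ≤ (N : ℝ) ^ d * ∫ v in Bx d N, (χ (x + v) - χ x) ^ 2 := by
  have hN' : (0 : ℝ) < N := by exact_mod_cast hN
  have hm : (0 : ℝ) < (1 / N) ^ d := by positivity
  have hvol := volume_Qc hN (cell N x)
  have hfin : volume (Qc N (cell N x)) ≠ ⊤ := by rw [hvol]; exact ENNReal.ofReal_ne_top
  have hχi : Integrable χ := (TF.cont h).integrable_of_hasCompactSupport (TF.supp h)
  have hi1 : IntegrableOn (fun y => χ x - χ y) (Qc N (cell N x)) :=
    (integrableOn_const hfin).sub hχi.integrableOn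
  have hi2 : IntegrableOn (fun y => (χ x - χ y) ^ 2) (Qc N (cell N x)) := by
    have e : (fun y => (χ x - χ y) ^ 2) = fun y => (χ x ^ 2 - (2 * χ x) * χ y) + χ y ^ 2 := by
      funext y; ring
    rw [e]
    exact ((integrableOn_const hfin).sub (hχi.integrableOn.const_mul _)).add
      (TF.integrable_sq h).integrableOn
  have e1 : χ x - avg N χ x = (N : ℝ) ^ d * ∫ y in Qc N (cell N x), (χ x - χ y) := by
    have hc0 : Integrable (fun _ : Sp d => χ x) (volume.restrict (Qc N (cell N x))) :=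
      integrableOn_const hfin
    rw [integral_sub hc0 hχi.integrableOn, setIntegral_const, avg,
      measureReal_def, hvol, ENNReal.toReal_ofReal hm.le, mul_sub, smul_eq_mul, ← mul_assoc,
      ← mul_pow]
    rw [mul_one_div_cancel hN'.ne']; simp
  rw [e1, mul_pow]
  have h2 := sq_setIntegral_le hm hvol hi1 hi2
  have h3 : ∫ y in Qc N (cell N x), (χ x - χ y) ^ 2 ≤ ∫ v in Bx d N, (χ (x + v) - χ x) ^ 2 := by
    rw [← integral_indicator (measurableSet_Qc N _), ← integral_indicator (measurableSet_Bx N)]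
    rw [← integral_add_left_eq_self _ x]
    have hcont : Continuous fun v => (χ (x + v) - χ x) ^ 2 := by
      have := TF.cont h
      fun_prop
    have hBfin : volume (Bx d N) ≠ ⊤ := by rw [volume_Bx hN]; exact ENNReal.ofReal_ne_top
    have hi3 : IntegrableOn (fun v => (χ (x + v) - χ x) ^ 2) (Bx d N) := by
      have e : (fun v => (χ (x + v) - χ x) ^ 2) =
          fun v => (χ x ^ 2 - (2 * χ x) * χ (x + v)) + χ (x + v) ^ 2 := by
        funext y; ring
      rw [e]
      refine ((integrableOn_const hBfin).sub ((hχi.comp_add_left x).integrableOn.const_mul _)).add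
        ((TF.integrable_sq h).comp_add_left x).integrableOn
    apply integral_mono_of_nonneg
    · refine Filter.Eventually.of_forall fun v => ?_
      exact Set.indicator_nonneg (fun y _ => sq_nonneg _) _
    · exact (integrable_indicator_iff (measurableSet_Bx N)).mpr hi3
    · refine Filter.Eventually.of_forall fun v => ?_
      simp only [Set.indicator]
      by_cases hv : x + v ∈ Qc N (cell N x)
      · have : v ∈ Bx d N := by
          have := sub_mem_Bx hN (x := x) (y := x + v) hv.symm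
          simpa using this
        rw [if_pos hv, if_pos this]
        exact le_of_eq (by ring)
      · rw [if_neg hv]
        split_ifs
        · exact sq_nonneg _
        · exact le_rfl
  have h4 : 0 ≤ (N : ℝ) ^ d := by positivity
  calc ((N : ℝ) ^ d) ^ 2 * (∫ y in Qc N (cell N x), (χ x - χ y)) ^ 2
      ≤ ((N : ℝ) ^ d) ^ 2 * ((1 / N) ^ d * ∫ y in Qc N (cell N x), (χ x - χ y) ^ 2) := by gcongr
    _ = (N : ℝ) ^ d * ((N * (1 / N)) ^ d * ∫ y in Qc N (cell N x), (χ x - χ y) ^ 2) := by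
        rw [mul_pow (N : ℝ)]; ring
    _ = (N : ℝ) ^ d * ∫ y in Qc N (cell N x), (χ x - χ y) ^ 2 := by
        rw [mul_one_div_cancel hN'.ne']; simp
    _ ≤ _ := by gcongr

lemma lintegral_trans_le {χ : Sp d → ℝ} (h : χ ∈ TF d) (v : Sp d) :
    ∫⁻ x, ENNReal.ofReal ((χ (x + v) - χ x) ^ 2) ≤ ENNReal.ofReal (‖v‖ ^ 2 * DD χ) := by
  have hi : Integrable (fun x => (χ (x + v) - χ x) ^ 2) := by
    have : MemLp (fun x => χ (x + v) - χ x) 2 := by
      have h1 : MemLp (fun x => χ (x + v)) 2 :=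
        (TF.memLp h).comp_measurePreserving (measurePreserving_add_right volume v)
      exact h1.sub (TF.memLp h)
    exact this.integrable_sq
  rw [← ofReal_integral_eq_lintegral_ofReal hi (Filter.Eventually.of_forall fun x => sq_nonneg _)]
  exact ENNReal.ofReal_le_ofReal (trans_le h v)

/-- **The averaging estimate.** -/
lemma avg_lintegral_le {N : ℕ} (hN : 0 < N) {χ : Sp d → ℝ} (h : χ ∈ TF d) :
    ∫⁻ x, ENNReal.ofReal ((χ x - avg N χ x) ^ 2) ≤
      ENNReal.ofReal (2 ^ d * d / (N : ℝ) ^ 2 * DD χ) := by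
  have hN' : (0 : ℝ) < N := by exact_mod_cast hN
  have hD := DD_nonneg χ
  have hBfin : volume (Bx d N) ≠ ⊤ := by rw [volume_Bx hN]; exact ENNReal.ofReal_ne_top
  have hχi : Integrable χ := (TF.cont h).integrable_of_hasCompactSupport (TF.supp h)
  have hcont : Continuous fun p : Sp d × Sp d => (χ (p.1 + p.2) - χ p.1) ^ 2 := by
    have := TF.cont h
    fun_prop
  have step1 : ∀ x, ENNReal.ofReal ((χ x - avg N χ x) ^ 2) ≤
      ENNReal.ofReal ((N : ℝ) ^ d) * ∫⁻ v in Bx d N, ENNReal.ofReal ((χ (x + v) - χ x) ^ 2) := by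
    intro x
    have hi3 : IntegrableOn (fun v => (χ (x + v) - χ x) ^ 2) (Bx d N) := by
      have e : (fun v => (χ (x + v) - χ x) ^ 2) =
          fun v => (χ x ^ 2 - (2 * χ x) * χ (x + v)) + χ (x + v) ^ 2 := by
        funext y; ring
      rw [e]
      refine ((integrableOn_const hBfin).sub ((hχi.comp_add_left x).integrableOn.const_mul _)).add
        ((TF.integrable_sq h).comp_add_left x).integrableOn
    rw [← ofReal_integral_eq_lintegral_ofReal hi3
      (Filter.Eventually.of_forall fun x => sq_nonneg _),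
      ← ENNReal.ofReal_mul (by positivity)]
    exact ENNReal.ofReal_le_ofReal (avg_pointwise hN h x)
  calc ∫⁻ x, ENNReal.ofReal ((χ x - avg N χ x) ^ 2)
      ≤ ∫⁻ x, ENNReal.ofReal ((N : ℝ) ^ d) *
          ∫⁻ v in Bx d N, ENNReal.ofReal ((χ (x + v) - χ x) ^ 2) := lintegral_mono step1
    _ = ENNReal.ofReal ((N : ℝ) ^ d) *
          ∫⁻ x, ∫⁻ v in Bx d N, ENNReal.ofReal ((χ (x + v) - χ x) ^ 2) := by
        rw [lintegral_const_mul' _ _ ENNReal.ofReal_ne_top]
    _ = ENNReal.ofReal ((N : ℝ) ^ d) *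
          ∫⁻ v in Bx d N, ∫⁻ x, ENNReal.ofReal ((χ (x + v) - χ x) ^ 2) := by
        rw [lintegral_lintegral_swap]
        exact (hcont.measurable.ennreal_ofReal).aemeasurable
    _ ≤ ENNReal.ofReal ((N : ℝ) ^ d) *
          ∫⁻ v in Bx d N, ENNReal.ofReal (d * (1 / N) ^ 2 * DD χ) := by
        refine mul_le_mul_right (setLIntegral_mono' (measurableSet_Bx N) ?_) _
        intro v hv
        refine (lintegral_trans_le h v).trans ?_
        apply ENNReal.ofReal_le_ofReal
        have := norm_sq_le_of_mem_Bx hv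
        gcongr
    _ = ENNReal.ofReal ((N : ℝ) ^ d) * (ENNReal.ofReal (d * (1 / N) ^ 2 * DD χ) *
          ENNReal.ofReal ((2 / N : ℝ) ^ d)) := by
        rw [setLIntegral_const, volume_Bx hN]
    _ = ENNReal.ofReal (2 ^ d * d / (N : ℝ) ^ 2 * DD χ) := by
        rw [← ENNReal.ofReal_mul (by positivity), ← ENNReal.ofReal_mul (by positivity)]
        congr 1
        have e : (2 / (N : ℝ)) ^ d = 2 ^ d / (N : ℝ) ^ d := div_pow _ _ _
        rw [e]
        field_simp

end MP497a12
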