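import Mathlib
import Pool.Agent.Lib.MP_497a12_mp.Avg

/-!
# The form Hilbert space and the compactness of multiplication by a weight
-/

open MeasureTheory Filter Topology
open scoped ENNReal ContDiff RealInnerProductSpace

namespace MP497a12

variable {d : ℕ}

noncomputable abbrev E1 (d : ℕ) := Lp (Sp d) 2 (volume : Measure (Sp d))
noncomputable abbrev E2 (d : ℕ) := Lp ℝ 2 (volume : Measure (Sp d))
noncomputable abbrev KK (d : ℕ) := WithLp 2 (E1 d × E2 d)

section L2norm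

variable {α F : Type*} [MeasurableSpace α] {μ : Measure α} [NormedAddCommGroup F]
  [InnerProductSpace ℝ F]

lemma L2_norm_sq (f : Lp F 2 μ) : ‖f‖ ^ 2 = ∫ x, ‖f x‖ ^ 2 ∂μ := by
  rw [← real_inner_self_eq_norm_sq, L2.inner_def]
  simp_rw [real_inner_self_eq_norm_sq]

lemma L2_norm_sq_toLp {f : α → F} (hf : MemLp f 2 μ) : ‖hf.toLp f‖ ^ 2 = ∫ x, ‖f x‖ ^ 2 ∂μ := by
  rw [L2_norm_sq]
  apply integral_congr_ae
  filter_upwards [hf.coeFn_toLp] with x hx
  rw [hx]

lemma L2_lintegral (f : Lp F 2 μ) : ∫⁻ x, ‖f x‖ₑ ^ 2 ∂μ = ENNReal.ofReal (‖f‖ ^ 2) := by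
  rw [L2_norm_sq, ofReal_integral_eq_lintegral_ofReal]
  · apply lintegral_congr
    intro x
    rw [ENNReal.ofReal_pow (norm_nonneg _), ofReal_norm]
  · exact (Lp.memLp f).integrable_norm_pow (by norm_num)
  · exact Eventually.of_forall fun x => by positivity

end L2norm

/-- Test functions as elements of `L^2`. -/
noncomputable def valL (d : ℕ) : TF d →ₗ[ℝ] E2 d where
  toFun χ := (TF.memLp χ.2).toLp χ.1
  map_add' χ₁ χ₂ := MemLp.toLp_add _ _
  map_smul' c χ := MemLp.toLp_const_smul _ _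

lemma gradient_add' {χ₁ χ₂ : Sp d → ℝ} (h₁ : χ₁ ∈ TF d) (h₂ : χ₂ ∈ TF d) :
    gradient (χ₁ + χ₂) = gradient χ₁ + gradient χ₂ := by
  funext x
  simp only [gradient, Pi.add_apply]
  rw [fderiv_add (TF.diff h₁ x) (TF.diff h₂ x), map_add]

lemma gradient_smul' (c : ℝ) {χ : Sp d → ℝ} (h : χ ∈ TF d) :
    gradient (c • χ) = c • gradient χ := by
  funext x
  simp only [gradient, Pi.smul_apply]
  rw [fderiv_const_smul (TF.diff h x), map_smul]

/-- The gradients of test functions as elements of `L^2`. -/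
noncomputable def gradL (d : ℕ) : TF d →ₗ[ℝ] E1 d where
  toFun χ := (TF.memLp_grad χ.2).toLp (gradient χ.1)
  map_add' χ₁ χ₂ := by
    rw [← MemLp.toLp_add]
    apply MemLp.toLp_congr
    rw [Submodule.coe_add, gradient_add' χ₁.2 χ₂.2]
  map_smul' c χ := by
    simp only [RingHom.id_apply]
    rw [← MemLp.toLp_const_smul]
    apply MemLp.toLp_congr
    rw [Submodule.coe_smul, gradient_smul' c χ.2]

lemma norm_valL_sq (χ : TF d) : ‖valL d χ‖ ^ 2 = SS χ.1 := by
  have := L2_norm_sq_toLp (TF.memLp χ.2)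
  simpa [valL, SS] using this

lemma norm_gradL_sq (χ : TF d) : ‖gradL d χ‖ ^ 2 = DD χ.1 := by
  have := L2_norm_sq_toLp (TF.memLp_grad χ.2)
  simpa [gradL, DD, norm_gradient] using this

/-- The embedding of the test functions into the product space. -/
noncomputable def iota (s : ℝ) : TF d →ₗ[ℝ] KK d :=
  (WithLp.linearEquiv 2 ℝ (E1 d × E2 d)).symm.toLinearMap ∘ₗ
    (LinearMap.prod (s • gradL d) (valL d))

lemma iota_fst (s : ℝ) (χ : TF d) : (iota s χ).fst = s • gradL d χ := rfl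
lemma iota_snd (s : ℝ) (χ : TF d) : (iota s χ).snd = valL d χ := rfl

lemma norm_iota_sq (s : ℝ) (χ : TF d) : ‖iota s χ‖ ^ 2 = s ^ 2 * DD χ.1 + SS χ.1 := by
  rw [WithLp.prod_norm_sq_eq_of_L2, iota_fst, iota_snd, norm_smul, mul_pow, norm_valL_sq,
    norm_gradL_sq]
  simp

/-- The form Hilbert space. -/
noncomputable def HH (d : ℕ) (s : ℝ) : Submodule ℝ (KK d) :=
  (LinearMap.range (iota (d := d) s)).topologicalClosure

instance (s : ℝ) : CompleteSpace (HH d s) :=
  (LinearMap.range (iota (d := d) s)).isClosed_topologicalClosure.completeSpace_coe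

lemma iota_mem (s : ℝ) (χ : TF d) : iota s χ ∈ HH d s :=
  Submodule.le_topologicalClosure _ (LinearMap.mem_range_self _ χ)

lemma HH_seq {s : ℝ} {u : KK d} (hu : u ∈ HH d s) :
    ∃ χ : ℕ → TF d, Tendsto (fun n => iota s (χ n)) atTop (𝓝 u) := by
  have h : u ∈ closure ((LinearMap.range (iota (d := d) s) : Submodule ℝ (KK d)) : Set (KK d)) := by
    rw [← Submodule.topologicalClosure_coe]; exact hu
  obtain ⟨x, hx, hlim⟩ := mem_closure_iff_seq_limit.mp h
  have : ∀ n, ∃ χ : TF d, iota s χ = x n := fun n => hx n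
  choose χ hχ using this
  exact ⟨χ, by simpa [hχ] using hlim⟩

/-- Extension of form bounds from test functions to the form Hilbert space. -/
lemma ext_bound {s : ℝ} {w : Sp d → ℝ} (hw : Measurable w) {A : ℝ} 
    (hb : ∀ χ : TF d, ∫⁻ x, ‖w x * χ.1 x‖ₑ ^ 2 ≤ ENNReal.ofReal (A * ‖iota s χ‖ ^ 2))
    {u : KK d} (hu : u ∈ HH d s) :
    ∫⁻ x, ‖w x * u.snd x‖ₑ ^ 2 ≤ ENNReal.ofReal (A * ‖u‖ ^ 2) := by
  obtain ⟨χ, hχ⟩ := HH_seq hu
  have h2 : Tendsto (fun n => valL d (χ n)) atTop (𝓝 u.snd) := by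
    have := (WithLp.sndL 2 ℝ (E1 d) (E2 d)).continuous.tendsto u
    exact this.comp hχ
  obtain ⟨ns, hns, hae⟩ := (tendstoInMeasure_of_tendsto_Lp h2).exists_seq_tendsto_ae
  have hval : ∀ n, ∀ᵐ x, (valL d (χ n)) x = (χ n).1 x := fun n =>
    (TF.memLp (χ n).2).coeFn_toLp
  have hlim : ∀ᵐ x, Tendsto (fun n => ‖w x * (χ (ns n)).1 x‖ₑ ^ 2) atTop
      (𝓝 (‖w x * u.snd x‖ₑ ^ 2)) := by
    filter_upwards [hae, ae_all_iff.mpr hval] with x h1 h3
    have h4 : Tendsto (fun n => w x * (χ (ns n)).1 x) atTop (𝓝 (w x * u.snd x)) := by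
      apply Tendsto.const_mul
      refine h1.congr fun n => ?_
      rw [h3]
    exact (ENNReal.continuous_pow 2).tendsto _ |>.comp (continuous_enorm.tendsto _ |>.comp h4)
  calc ∫⁻ x, ‖w x * u.snd x‖ₑ ^ 2
      = ∫⁻ x, liminf (fun n => ‖w x * (χ (ns n)).1 x‖ₑ ^ 2) atTop := by
        apply lintegral_congr_ae
        filter_upwards [hlim] with x hx
        exact hx.liminf_eq.symm
    _ ≤ liminf (fun n => ∫⁻ x, ‖w x * (χ (ns n)).1 x‖ₑ ^ 2) atTop := by
        apply lintegral_liminf_le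
        intro n
        exact ((hw.mul (TF.cont (χ (ns n)).2).measurable).enorm).pow_const 2
    _ ≤ liminf (fun n => ENNReal.ofReal (A * ‖iota s (χ (ns n))‖ ^ 2)) atTop := by
        exact liminf_le_liminf (Eventually.of_forall fun n => hb _)
    _ = ENNReal.ofReal (A * ‖u‖ ^ 2) := by
        apply Tendsto.liminf_eq
        have : Tendsto (fun n => A * ‖iota s (χ (ns n))‖ ^ 2) atTop (𝓝 (A * ‖u‖ ^ 2)) :=
          ((hχ.comp hns.tendsto_atTop).norm.pow 2).const_mul A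
        exact ENNReal.tendsto_ofReal this

end MP497a12
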