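import Mathlib
import Pool.Agent.Lib.MP_497a12_mp.Hilb

/-!
# Compactness of multiplication operators on the form Hilbert space
-/

open MeasureTheory Filter Topology
open scoped ENNReal ContDiff RealInnerProductSpace

namespace MP497a12

variable {d : ℕ}

/-- `w^2` has form bound `A`. -/
def Bd (s : ℝ) (w : Sp d → ℝ) (A : ℝ) : Prop :=
  ∀ χ : TF d, ∫⁻ x, ‖w x * χ.1 x‖ₑ ^ 2 ≤ ENNReal.ofReal (A * ‖iota s χ‖ ^ 2)

lemma norm_sq_le_of_lintegral {f : E2 d} {g : Sp d → ℝ} (hfg : f =ᵐ[volume] g) {c : ℝ}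
    (hc : 0 ≤ c) (h : ∫⁻ x, ‖g x‖ₑ ^ 2 ≤ ENNReal.ofReal c) : ‖f‖ ^ 2 ≤ c := by
  have h1 : ∫⁻ x, ‖f x‖ₑ ^ 2 = ∫⁻ x, ‖g x‖ₑ ^ 2 := by
    apply lintegral_congr_ae
    filter_upwards [hfg] with x hx
    rw [hx]
  rw [← h1, L2_lintegral] at h
  exact (ENNReal.ofReal_le_ofReal_iff hc).mp h

lemma memLp_of_lintegral {g : Sp d → ℝ} (hg : AEStronglyMeasurable g volume) {c : ℝ}
    (h : ∫⁻ x, ‖g x‖ₑ ^ 2 ≤ ENNReal.ofReal c) : MemLp g 2 := by
  rw [memLp_two_iff_integrable_sq hg]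
  refine ⟨hg.pow 2, ?_⟩
  rw [HasFiniteIntegral]
  have : ∀ x, ‖g x ^ 2‖ₑ = ‖g x‖ₑ ^ 2 := fun x => by rw [enorm_pow]
  simp_rw [this]
  exact h.trans_lt ENNReal.ofReal_lt_top

lemma memLp_mul {s A : ℝ} {w : Sp d → ℝ} (hw : Measurable w) (hb : Bd s w A) {u : KK d}
    (hu : u ∈ HH d s) : MemLp (fun x => w x * u.snd x) 2 :=
  memLp_of_lintegral (hw.aestronglyMeasurable.mul (Lp.aestronglyMeasurable _))
    (ext_bound hw hb hu)

/-- Multiplication by `w` as an operator from the form Hilbert space to `L^2`. -/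
noncomputable def JJ {s A : ℝ} {w : Sp d → ℝ} (hw : Measurable w) (hA : 0 ≤ A)
    (hb : Bd s w A) : HH d s →L[ℝ] E2 d :=
  LinearMap.mkContinuous
    { toFun := fun u => (memLp_mul hw hb u.2).toLp _
      map_add' := fun u v => by
        rw [← MemLp.toLp_add]
        apply MemLp.toLp_congr
        filter_upwards [Lp.coeFn_add u.1.snd v.1.snd] with x hx
        simp only [Pi.add_apply]
        rw [Submodule.coe_add, WithLp.add_snd, hx, Pi.add_apply]
        ring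
      map_smul' := fun c u => by
        simp only [RingHom.id_apply]
        rw [← MemLp.toLp_const_smul]
        apply MemLp.toLp_congr
        filter_upwards [Lp.coeFn_smul c u.1.snd] with x hx
        simp only [Pi.smul_apply, smul_eq_mul]
        rw [Submodule.coe_smul, WithLp.smul_snd, hx, Pi.smul_apply, smul_eq_mul]
        ring }
    (√A) (fun u => by
      have h := norm_sq_le_of_lintegral ((memLp_mul hw hb u.2).coeFn_toLp)
        (by positivity) (ext_bound hw hb u.2)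
      have h2 : 0 ≤ √A * ‖u‖ := by positivity
      have h3 : (√A * ‖u‖) ^ 2 = A * ‖(u : KK d)‖ ^ 2 := by
        rw [mul_pow, Real.sq_sqrt hA]; rfl
      rw [← h3] at h
      exact (abs_le_of_sq_le_sq' h h2).2)

lemma JJ_coe {s A : ℝ} {w : Sp d → ℝ} (hw : Measurable w) (hA : 0 ≤ A)
    (hb : Bd s w A) (u : HH d s) : JJ hw hA hb u =ᵐ[volume] fun x => w x * u.1.snd x :=
  (memLp_mul hw hb u.2).coeFn_toLp

lemma JJ_norm_sq_le {s A : ℝ} {w : Sp d → ℝ} (hw : Measurable w) (hA : 0 ≤ A)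
    (hb : Bd s w A) (u : HH d s) : ‖JJ hw hA hb u‖ ^ 2 ≤ A * ‖u‖ ^ 2 :=
  norm_sq_le_of_lintegral (JJ_coe hw hA hb u) (by positivity) (ext_bound hw hb u.2)

lemma HH_seq' {s : ℝ} (u : HH d s) :
    ∃ χ : ℕ → TF d, Tendsto (fun n => (⟨iota s (χ n), iota_mem s (χ n)⟩ : HH d s)) atTop
      (𝓝 u) := by
  obtain ⟨χ, hχ⟩ := HH_seq u.2
  exact ⟨χ, tendsto_subtype_rng.mpr hχ⟩

/-- An operator bounded on test functions is bounded. -/
lemma opNorm_le_of_test {s : ℝ} {F : Type*} [NormedAddCommGroup F] [NormedSpace ℝ F]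
    (L : HH d s →L[ℝ] F) {c : ℝ} (hc : 0 ≤ c)
    (h : ∀ χ : TF d, ‖L ⟨iota s χ, iota_mem s χ⟩‖ ≤ c * ‖iota s χ‖) : ‖L‖ ≤ c := by
  apply L.opNorm_le_bound hc
  intro u
  obtain ⟨χ, hχ⟩ := HH_seq' u
  have h1 : Tendsto (fun n => ‖L ⟨iota s (χ n), iota_mem s (χ n)⟩‖) atTop (𝓝 ‖L u‖) :=
    ((L.continuous.tendsto u).comp hχ).norm
  have h2 : Tendsto (fun n => c * ‖iota s (χ n)‖) atTop (𝓝 (c * ‖u‖)) :=
    (hχ.norm).const_mul c
  exact le_of_tendsto_of_tendsto' h1 h2 fun n => h (χ n)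

/-- One averaging functional. -/
noncomputable def LL (N : ℕ) (hN : 0 < N) (z : Fin d → ℤ) : E2 d →L[ℝ] ℝ :=
  (N : ℝ) ^ d • innerSL ℝ (indicatorConstLp 2 (measurableSet_Qc N z)
    (by rw [volume_Qc hN z]; exact ENNReal.ofReal_ne_top) (1 : ℝ))

lemma LL_apply (N : ℕ) (hN : 0 < N) (z : Fin d → ℤ) (f : E2 d) :
    LL N hN z f = (N : ℝ) ^ d * ∫ x in Qc N z, f x := by
  simp only [LL, _root_.smul_apply, innerSL_apply_apply, smul_eq_mul]
  rw [L2.inner_indicatorConstLp_one]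

/-- Indices of the cubes meeting the unit ball. -/
noncomputable def FF (d N : ℕ) : Finset (Fin d → ℤ) :=
  Fintype.piFinset (fun _ : Fin d => Finset.Icc (-(N : ℤ)) N)

lemma cell_mem_FF {N : ℕ} {x : Sp d} (hx : ‖x‖ ≤ 1) : cell N x ∈ FF d N := by
  rw [FF, Fintype.mem_piFinset]
  intro i
  have h1 : |x i| ≤ 1 := by
    have := PiLp.norm_apply_le x i
    rw [Real.norm_eq_abs] at this
    linarith
  obtain ⟨h2, h3⟩ := abs_le.mp h1
  have hN : (0 : ℝ) ≤ N := by positivity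
  rw [Finset.mem_Icc]
  constructor
  · apply Int.le_floor.mpr
    push_cast
    nlinarith
  · have : ((⌊(N : ℝ) * x i⌋ : ℤ) : ℝ) ≤ (N : ℝ) := (Int.floor_le _).trans (by nlinarith)
    exact_mod_cast this

lemma memLp_ind {N : ℕ} (hN : 0 < N) (z : Fin d → ℤ) {w : Sp d → ℝ} (hw : Measurable w) {M : ℝ}
    (hM : ∀ x, |w x| ≤ M) : MemLp ((Qc N z).indicator w) 2 := by
  rw [memLp_indicator_iff_restrict (measurableSet_Qc N z)]
  have : IsFiniteMeasure (volume.restrict (Qc (d := d) N z)) :=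
    ⟨by rw [Measure.restrict_apply_univ, volume_Qc hN z]; exact ENNReal.ofReal_lt_top⟩
  exact MemLp.of_bound hw.aestronglyMeasurable M (Eventually.of_forall fun x => hM x)

/-- The finite rank approximation. -/
noncomputable def RR (s : ℝ) {N : ℕ} (hN : 0 < N) {w : Sp d → ℝ} (hw : Measurable w) {M : ℝ}
    (hM : ∀ x, |w x| ≤ M) : HH d s →L[ℝ] E2 d :=
  ∑ z ∈ FF d N, ((LL N hN z).comp ((WithLp.sndL 2 ℝ (E1 d) (E2 d)).comp
    (HH d s).subtypeL)).smulRight ((memLp_ind hN z hw hM).toLp _)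

lemma RR_apply (s : ℝ) {N : ℕ} (hN : 0 < N) {w : Sp d → ℝ} (hw : Measurable w) {M : ℝ}
    (hM : ∀ x, |w x| ≤ M) (u : HH d s) :
    RR s hN hw hM u = ∑ z ∈ FF d N, (LL N hN z u.1.snd) • ((memLp_ind hN z hw hM).toLp _) := by
  simp only [RR, _root_.sum_apply]
  rfl

lemma RR_coe (s : ℝ) {N : ℕ} (hN : 0 < N) {w : Sp d → ℝ} (hw : Measurable w) {M : ℝ}
    (hM : ∀ x, |w x| ≤ M) (hsupp : ∀ x, 1 < ‖x‖ → w x = 0) (u : HH d s) :
    RR s hN hw hM u =ᵐ[volume] fun x => w x * avg N u.1.snd x := by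
  rw [RR_apply]
  have h1 := Lp.coeFn_finsetSum (FF d N)
    (fun z => (LL N hN z u.1.snd) • ((memLp_ind hN z hw hM).toLp _))
  have h2 : ∀ z : Fin d → ℤ, ∀ᵐ x, ((LL N hN z u.1.snd) • ((memLp_ind hN z hw hM).toLp _) : E2 d) x =
      (LL N hN z u.1.snd) * (Qc N z).indicator w x := by
    intro z
    filter_upwards [Lp.coeFn_smul (LL N hN z u.1.snd) ((memLp_ind hN z hw hM).toLp _),
      (memLp_ind hN z hw hM).coeFn_toLp] with x h3 h4
    rw [h3, Pi.smul_apply, h4, smul_eq_mul]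
  filter_upwards [h1, ae_all_iff.mpr h2] with x h3 h4
  rw [h3, Finset.sum_apply]
  simp_rw [h4]
  rcases le_or_gt ‖x‖ 1 with hx | hx
  · rw [Finset.sum_eq_single (cell N x)]
    · rw [Set.indicator_of_mem (show x ∈ Qc N (cell N x) from rfl), LL_apply, avg]
      ring
    · intro z _ hz
      rw [Set.indicator_of_notMem (fun h : x ∈ Qc N z => hz (Eq.symm h)), mul_zero]
    · intro h
      exact absurd (cell_mem_FF hx) h
  · rw [hsupp x hx, zero_mul]
    apply Finset.sum_eq_zero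
    intro z _
    have : (Qc N z).indicator w x = 0 := by
      by_cases h : x ∈ Qc N z
      · rw [Set.indicator_of_mem h, hsupp x hx]
      · rw [Set.indicator_of_notMem h]
    rw [this, mul_zero]

lemma RR_compact (s : ℝ) {N : ℕ} (hN : 0 < N) {w : Sp d → ℝ} (hw : Measurable w) {M : ℝ}
    (hM : ∀ x, |w x| ≤ M) : IsCompactOperator (RR s hN hw hM) := by
  have : RR s hN hw hM ∈ compactOperator (RingHom.id ℝ) (HH d s) (E2 d) := by
    unfold RR
    apply Submodule.sum_mem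
    intro z _
    have h1 : IsCompactOperator ((LL N hN z).comp ((WithLp.sndL 2 ℝ (E1 d) (E2 d)).comp
      (HH d s).subtypeL)) := isCompactOperator_of_locallyCompactSpace_dom _
    exact h1.clm_comp ((ContinuousLinearMap.id ℝ ℝ).smulRight ((memLp_ind hN z hw hM).toLp _))
  exact this

/-- The finite rank operators approximate multiplication by `w`. -/
lemma JJ_sub_RR_le {s A : ℝ} (hs : 0 < s) {w : Sp d → ℝ} (hw : Measurable w) (hA : 0 ≤ A)
    (hb : Bd s w A) {N : ℕ} (hN : 0 < N) {M : ℝ} (hM : ∀ x, |w x| ≤ M)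
    (hsupp : ∀ x, 1 < ‖x‖ → w x = 0) :
    ‖JJ hw hA hb - RR s hN hw hM‖ ≤ √(M ^ 2 * (2 ^ d * d / s ^ 2)) * (1 / N) := by
  have hN' : (0 : ℝ) < N := by exact_mod_cast hN
  apply opNorm_le_of_test _ (by positivity)
  intro χ
  set u : HH d s := ⟨iota s χ, iota_mem s χ⟩ with hu
  have hD := DD_nonneg χ.1
  have hS := SS_nonneg χ.1
  have h1 : (JJ hw hA hb - RR s hN hw hM) u =ᵐ[volume] fun x => w x * (χ.1 x - avg N χ.1 x) := by
    rw [_root_.sub_apply]
    have e2 : u.1.snd =ᵐ[volume] χ.1 := (TF.memLp χ.2).coeFn_toLp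
    have e3 : ∀ x, avg N u.1.snd x = avg N χ.1 x := by
      intro x
      unfold avg
      congr 1
      apply integral_congr_ae
      exact ae_restrict_of_ae e2
    filter_upwards [Lp.coeFn_sub (JJ hw hA hb u) (RR s hN hw hM u), JJ_coe hw hA hb u,
      RR_coe s hN hw hM hsupp u, e2] with x h1 h2 h3 h4
    rw [h1, Pi.sub_apply, h2, h3, h4, e3]
    ring
  have h2 : ∫⁻ x, ‖w x * (χ.1 x - avg N χ.1 x)‖ₑ ^ 2 ≤
      ENNReal.ofReal (M ^ 2 * (2 ^ d * d / (N : ℝ) ^ 2 * DD χ.1)) := by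
    calc ∫⁻ x, ‖w x * (χ.1 x - avg N χ.1 x)‖ₑ ^ 2
        ≤ ∫⁻ x, ENNReal.ofReal (M ^ 2) * ENNReal.ofReal ((χ.1 x - avg N χ.1 x) ^ 2) := by
          apply lintegral_mono
          intro x
          simp only
          rw [← ENNReal.ofReal_mul (by positivity), ← ofReal_norm, ← ENNReal.ofReal_pow (norm_nonneg _)]
          apply ENNReal.ofReal_le_ofReal
          rw [norm_mul, mul_pow, Real.norm_eq_abs, Real.norm_eq_abs, sq_abs (χ.1 x - avg N χ.1 x)]
          have := hM x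
          have := abs_nonneg (w x)
          gcongr
      _ = ENNReal.ofReal (M ^ 2) * ∫⁻ x, ENNReal.ofReal ((χ.1 x - avg N χ.1 x) ^ 2) := by
          rw [lintegral_const_mul' _ _ ENNReal.ofReal_ne_top]
      _ ≤ ENNReal.ofReal (M ^ 2) * ENNReal.ofReal (2 ^ d * d / (N : ℝ) ^ 2 * DD χ.1) :=
          mul_le_mul_right (avg_lintegral_le hN χ.2) _
      _ = _ := by rw [← ENNReal.ofReal_mul (by positivity)]
  have h3 := norm_sq_le_of_lintegral h1 (by positivity) h2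
  have h4 : M ^ 2 * (2 ^ d * d / (N : ℝ) ^ 2 * DD χ.1) ≤
      (√(M ^ 2 * (2 ^ d * d / s ^ 2)) * (1 / N) * ‖iota s χ‖) ^ 2 := by
    rw [mul_pow, mul_pow, Real.sq_sqrt (by positivity), norm_iota_sq]
    have : M ^ 2 * (2 ^ d * d / s ^ 2) * (1 / N) ^ 2 * (s ^ 2 * DD χ.1 + SS χ.1) =
      M ^ 2 * (2 ^ d * d / (N : ℝ) ^ 2 * DD χ.1) +
        M ^ 2 * (2 ^ d * d / s ^ 2) * (1 / N) ^ 2 * SS χ.1 := by
      field_simp
    rw [this]
    have : 0 ≤ M ^ 2 * (2 ^ d * d / s ^ 2) * (1 / N) ^ 2 * SS χ.1 := by positivity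
    linarith
  exact (abs_le_of_sq_le_sq' (h3.trans h4) (by positivity)).2

/-- An operator that is approximated in norm by compact operators is compact. -/
lemma compact_of_approx {E F : Type*} [NormedAddCommGroup E] [NormedSpace ℝ E]
    [NormedAddCommGroup F] [NormedSpace ℝ F] [CompleteSpace F] (T : E →L[ℝ] F)
    (h : ∀ ε > 0, ∃ S : E →L[ℝ] F, IsCompactOperator S ∧ ‖T - S‖ ≤ ε) : IsCompactOperator T := by
  have hcl : T ∈ closure {f : E →L[ℝ] F | IsCompactOperator f} := by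
    rw [Metric.mem_closure_iff]
    intro ε hε
    obtain ⟨S, hS, hn⟩ := h (ε / 2) (by positivity)
    exact ⟨S, hS, by rw [dist_eq_norm]; linarith⟩
  have hclosed : IsClosed {f : E →L[ℝ] F | IsCompactOperator f} :=
    isClosed_setOfPred_isCompactOperator
  rw [hclosed.closure_eq] at hcl
  exact hcl

/-- Multiplication by a bounded weight supported in the unit ball is compact. -/
lemma JJ_compact_of_bounded {s A : ℝ} (hs : 0 < s) {w : Sp d → ℝ} (hw : Measurable w) (hA : 0 ≤ A)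
    (hb : Bd s w A) {M : ℝ} (hM : ∀ x, |w x| ≤ M)
    (hsupp : ∀ x, 1 < ‖x‖ → w x = 0) : IsCompactOperator (JJ hw hA hb) := by
  apply compact_of_approx
  intro ε hε
  set c := √(M ^ 2 * (2 ^ d * d / s ^ 2)) with hc
  have hc0 : 0 ≤ c := Real.sqrt_nonneg _
  obtain ⟨n, hn⟩ := exists_nat_gt (c / ε)
  have hn0 : (0 : ℝ) < n := lt_of_le_of_lt (by positivity) hn
  have hn1 : 0 < n := by exact_mod_cast hn0
  refine ⟨RR s hn1 hw hM, RR_compact s _ hw hM, ?_⟩
  refine (JJ_sub_RR_le hs hw hA hb hn1 hM hsupp).trans ?_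
  rw [← hc, mul_one_div, div_le_iff₀ hn0]
  rw [div_lt_iff₀ hε] at hn
  linarith

/-- Compactness from approximation. -/
lemma JJ_compact_of_approx {s A : ℝ} (hs : 0 < s) {w : Sp d → ℝ} (hw : Measurable w) (hA : 0 ≤ A)
    (hb : Bd s w A)
    (happ : ∀ δ > 0, ∃ w' : Sp d → ℝ, Measurable w' ∧ (∃ A', 0 ≤ A' ∧ Bd s w' A') ∧
      (∃ M, ∀ x, |w' x| ≤ M) ∧ (∀ x, 1 < ‖x‖ → w' x = 0) ∧
      Bd s (fun x => w x - w' x) δ) : IsCompactOperator (JJ hw hA hb) := by
  apply compact_of_approx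
  intro ε hε
  obtain ⟨w', hw', ⟨A', hA', hb'⟩, ⟨M, hM⟩, hsupp, hdiff⟩ := happ (ε ^ 2) (by positivity)
  refine ⟨JJ hw' hA' hb', JJ_compact_of_bounded hs hw' hA' hb' hM hsupp, ?_⟩
  apply ContinuousLinearMap.opNorm_le_bound _ (by positivity)
  intro u
  have h1 : (JJ hw hA hb - JJ hw' hA' hb') u =ᵐ[volume]
      fun x => (w x - w' x) * u.1.snd x := by
    rw [_root_.sub_apply]
    filter_upwards [Lp.coeFn_sub (JJ hw hA hb u) (JJ hw' hA' hb' u), JJ_coe hw hA hb u,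
      JJ_coe hw' hA' hb' u] with x h1 h2 h3
    rw [h1, Pi.sub_apply, h2, h3]
    ring
  have h2 := norm_sq_le_of_lintegral h1 (by positivity)
    (ext_bound (hw.sub hw') hdiff u.2)
  have h3 : ε ^ 2 * ‖(u : KK d)‖ ^ 2 = (ε * ‖u‖) ^ 2 := by
    rw [mul_pow]; rfl
  rw [h3] at h2
  exact (abs_le_of_sq_le_sq' h2 (by positivity)).2

end MP497a12
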