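import Mathlib
import Pool.Agent.Lib.MP_497a12_mp.Cpt

/-!
# Existence of an eigenfunction
-/

open MeasureTheory Filter Topology
open scoped ENNReal ContDiff RealInnerProductSpace

namespace MP497a12

variable {d : ℕ}

lemma sq_sub_le' {a b : ℝ} (hb : 0 ≤ b) (hab : b ≤ a) : (a - b) ^ 2 ≤ a ^ 2 - b ^ 2 := by
  have h := mul_nonneg hb (sub_nonneg.mpr hab)
  have e : a ^ 2 - b ^ 2 = (a - b) ^ 2 + 2 * (b * (a - b)) := by ring
  rw [e]; linarith

lemma min_mul_add_le {s a b : ℝ} (ha : 0 ≤ a) (hb : 0 ≤ b) : min s 1 * (a + b) ≤ s * a + b := by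
  have h1 := mul_le_mul_of_nonneg_right (min_le_left s 1) ha
  have h2 := mul_le_mul_of_nonneg_right (min_le_right s 1) hb
  rw [mul_add]
  linarith

/-- The top of the spectrum of `J* J` is an eigenvalue if `J` is compact. -/
lemma exists_top_eigenvector {E F : Type*} [NormedAddCommGroup E] [InnerProductSpace ℝ E]
    [CompleteSpace E] [NormedAddCommGroup F] [InnerProductSpace ℝ F] [CompleteSpace F]
    (J : E →L[ℝ] F) (hJ : IsCompactOperator J) {e : ℝ} (he : 0 < e)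
    (hup : ∀ u, ‖J u‖ ^ 2 ≤ e * ‖u‖ ^ 2)
    (hlow : ∀ δ > 0, ∃ u, u ≠ 0 ∧ (e - δ) * ‖u‖ ^ 2 ≤ ‖J u‖ ^ 2) :
    ∃ u, u ≠ 0 ∧ ∀ v, ⟪J u, J v⟫ = e * ⟪u, v⟫ := by
  obtain ⟨T, hT⟩ : ∃ T : E →L[ℝ] E, T = (ContinuousLinearMap.adjoint J).comp J := ⟨_, rfl⟩
  have hTc : IsCompactOperator T := by
    rw [hT]
    exact hJ.clm_comp (ContinuousLinearMap.adjoint J)
  have hTuv : ∀ u v, ⟪T u, v⟫ = ⟪J u, J v⟫ := by
    intro u v
    rw [hT, ContinuousLinearMap.comp_apply, ContinuousLinearMap.adjoint_inner_left]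
  have hJn : ‖J‖ ≤ √e := by
    apply J.opNorm_le_bound (Real.sqrt_nonneg _)
    intro u
    have h1 : ‖J u‖ ^ 2 ≤ (√e * ‖u‖) ^ 2 := by
      rw [mul_pow, Real.sq_sqrt he.le]; exact hup u
    exact (abs_le_of_sq_le_sq' h1 (by positivity)).2
  have hTn : ∀ u, ‖T u‖ ^ 2 ≤ e * ‖J u‖ ^ 2 := by
    intro u
    have h1 : ‖T u‖ ≤ √e * ‖J u‖ := by
      calc ‖T u‖ = ‖(ContinuousLinearMap.adjoint J) (J u)‖ := by rw [hT]; rfl
        _ ≤ ‖ContinuousLinearMap.adjoint J‖ * ‖J u‖ := ContinuousLinearMap.le_opNorm _ _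
        _ = ‖J‖ * ‖J u‖ := by rw [LinearIsometryEquiv.norm_map]
        _ ≤ √e * ‖J u‖ := by gcongr
    calc ‖T u‖ ^ 2 ≤ (√e * ‖J u‖) ^ 2 := by gcongr
      _ = e * ‖J u‖ ^ 2 := by rw [mul_pow, Real.sq_sqrt he.le]
  have hev : Module.End.HasEigenvalue (T : Module.End ℝ E) e := by
    by_contra hcon
    obtain ⟨K, hK⟩ := IsCompactOperator.antilipschitz_of_not_hasEigenvalue hTc he.ne' hcon
    have hK' : ∀ u, ‖u‖ ≤ K * ‖T u - e • u‖ := by
      intro u
      have := hK.le_mul_dist u 0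
      simpa using this
    have hKp : 0 < 2 * e * (K : ℝ) ^ 2 + 1 := by positivity
    obtain ⟨u, hu0, hu⟩ := hlow (1 / (2 * e * (K : ℝ) ^ 2 + 1)) (by positivity)
    have hun : 0 < ‖u‖ := norm_pos_iff.mpr hu0
    have h1 : ‖T u - e • u‖ ^ 2 ≤ e * (1 / (2 * e * (K : ℝ) ^ 2 + 1)) * ‖u‖ ^ 2 := by
      rw [@norm_sub_sq_real, inner_smul_right, hTuv, real_inner_self_eq_norm_sq, norm_smul,
        mul_pow, Real.norm_eq_abs, sq_abs]
      have := hTn u
      nlinarith
    have h2 : ‖u‖ ^ 2 ≤ (K : ℝ) ^ 2 * (e * (1 / (2 * e * (K : ℝ) ^ 2 + 1)) * ‖u‖ ^ 2) := by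
      calc ‖u‖ ^ 2 ≤ (K * ‖T u - e • u‖) ^ 2 := by
            have := hK' u
            gcongr
        _ = (K : ℝ) ^ 2 * ‖T u - e • u‖ ^ 2 := by ring
        _ ≤ _ := by gcongr
    have h3 : (K : ℝ) ^ 2 * (e * (1 / (2 * e * (K : ℝ) ^ 2 + 1)) * ‖u‖ ^ 2) =
        (e * (K : ℝ) ^ 2) / (2 * e * (K : ℝ) ^ 2 + 1) * ‖u‖ ^ 2 := by ring
    rw [h3] at h2
    have h4 : (e * (K : ℝ) ^ 2) / (2 * e * (K : ℝ) ^ 2 + 1) < 1 := by
      rw [div_lt_one hKp]
      have : 0 ≤ e * (K : ℝ) ^ 2 := by positivity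
      rw [mul_assoc]
      linarith
    have h5 : (e * (K : ℝ) ^ 2) / (2 * e * (K : ℝ) ^ 2 + 1) * ‖u‖ ^ 2 < 1 * ‖u‖ ^ 2 := by
      gcongr
    linarith
  obtain ⟨u, hu⟩ := hev.exists_hasEigenvector
  refine ⟨u, hu.2, fun v => ?_⟩
  have : T u = e • u := Module.End.HasEigenvector.apply_eq_smul hu
  rw [← hTuv, this, inner_smul_left]
  simp

/-- The constant vector field in direction `i` times a test function. -/
lemma memLp_field {χ : Sp d → ℝ} (h : χ ∈ TF d) (i : Fin d) :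
    MemLp (fun x => χ x • (EuclideanSpace.single i (1 : ℝ) : Sp d)) 2 := by
  have h1 := TF.cont h
  apply Continuous.memLp_of_hasCompactSupport
  · fun_prop
  · exact (TF.supp h).smul_right

lemma integrable_pd {χ : Sp d → ℝ} (h : χ ∈ TF d) (i : Fin d) :
    MemLp (fun x => fderiv ℝ χ x (EuclideanSpace.single i 1)) 2 := by
  have h1 := TF.cont_fderiv h
  apply Continuous.memLp_of_hasCompactSupport
  · fun_prop
  · exact (TF.supp_fderiv h).comp_left
      (g := fun L : Sp d →L[ℝ] ℝ => L (EuclideanSpace.single i 1)) (by simp)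

/-- The weak gradient relation in the form Hilbert space. -/
lemma weak_grad {s : ℝ} {u : KK d} (hu : u ∈ HH d s) {χ : Sp d → ℝ} (h : χ ∈ TF d) (i : Fin d) :
    s * ∫ x, u.snd x * fderiv ℝ χ x (EuclideanSpace.single i 1) = - ∫ x, u.fst x i * χ x := by
  obtain ⟨χn, hχn⟩ := HH_seq hu
  have h2 : Tendsto (fun n => valL d (χn n)) atTop (𝓝 u.snd) :=
    ((WithLp.sndL 2 ℝ (E1 d) (E2 d)).continuous.tendsto u).comp hχn
  have h1 : Tendsto (fun n => s • gradL d (χn n)) atTop (𝓝 u.fst) :=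
    ((WithLp.fstL 2 ℝ (E1 d) (E2 d)).continuous.tendsto u).comp hχn
  -- inner product representations
  have r2 : ∀ f : E2 d, ⟪f, (integrable_pd h i).toLp _⟫ =
      ∫ x, f x * fderiv ℝ χ x (EuclideanSpace.single i 1) := by
    intro f
    rw [L2.inner_def]
    apply integral_congr_ae
    filter_upwards [(integrable_pd h i).coeFn_toLp] with x hx
    rw [hx, RCLike.inner_apply]
    simp [mul_comm]
  have r1 : ∀ f : E1 d, ⟪f, (memLp_field h i).toLp _⟫ = ∫ x, f x i * χ x := by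
    intro f
    rw [L2.inner_def]
    apply integral_congr_ae
    filter_upwards [(memLp_field h i).coeFn_toLp] with x hx
    rw [hx, inner_smul_right, EuclideanSpace.inner_single_right]
    simp [mul_comm]
  rw [← r2, ← r1]
  have l2 : Tendsto (fun n => s * ⟪valL d (χn n), (integrable_pd h i).toLp _⟫) atTop
      (𝓝 (s * ⟪u.snd, (integrable_pd h i).toLp _⟫)) :=
    (h2.inner tendsto_const_nhds).const_mul s
  have l1 : Tendsto (fun n => -⟪s • gradL d (χn n), (memLp_field h i).toLp _⟫) atTop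
      (𝓝 (-⟪u.fst, (memLp_field h i).toLp _⟫)) :=
    (h1.inner tendsto_const_nhds).neg
  refine tendsto_nhds_unique l2 ?_
  refine l1.congr fun n => ?_
  rw [inner_smul_left, r2, r1]
  have e1 : ∫ x, (gradL d (χn n)) x i * χ x =
      ∫ x, fderiv ℝ (χn n).1 x (EuclideanSpace.single i 1) * χ x := by
    apply integral_congr_ae
    filter_upwards [(TF.memLp_grad (χn n).2).coeFn_toLp] with x hx
    have : (gradL d (χn n)) x = gradient (χn n).1 x := hx
    rw [this]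
    congr 1
    have h3 : ⟪gradient (χn n).1 x, (EuclideanSpace.single i (1 : ℝ) : Sp d)⟫ =
      fderiv ℝ (χn n).1 x (EuclideanSpace.single i 1) := by
      rw [gradient, InnerProductSpace.toDual_symm_apply]
    rw [← h3, EuclideanSpace.inner_single_right]
    simp
  have e2 : ∫ x, (valL d (χn n)) x * fderiv ℝ χ x (EuclideanSpace.single i 1) =
      ∫ x, (χn n).1 x * fderiv ℝ χ x (EuclideanSpace.single i 1) := by
    apply integral_congr_ae
    filter_upwards [(TF.memLp (χn n).2).coeFn_toLp] with x hx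
    have : (valL d (χn n)) x = (χn n).1 x := hx
    rw [this]
  rw [e1, e2]
  have key := integral_mul_fderiv_eq_neg_fderiv_mul_of_integrable (μ := (volume : Measure (Sp d)))
    (f := (χn n).1) (g := χ) (v := EuclideanSpace.single i 1)
    ((integrable_pd (χn n).2 i).integrable_mul (TF.memLp h))
    ((TF.memLp (χn n).2).integrable_mul (integrable_pd h i))
    ((TF.memLp (χn n).2).integrable_mul (TF.memLp h))
    (fun x _ => TF.diff (χn n).2 x) (fun x _ => TF.diff h x)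
  rw [key]
  simp

/-- **Existence of a real eigenfunction.** -/
theorem exists_eigenfunction {hb e : ℝ} (hhb : 0 < hb) (he : 0 < e) {W : Sp d → ℝ}
    (hW : Measurable W) (hW0 : ∀ x, 0 ≤ W x)
    (hup : ∀ χ ∈ TF d, Integrable (fun x => W x * χ x ^ 2) ∧
      ∫ x, W x * χ x ^ 2 ≤ hb ^ 2 * DD χ + e * SS χ)
    (hlow : ∀ δ > 0, ∃ χ ∈ TF d, 0 < SS χ ∧
      (e - δ) * SS χ ≤ (∫ x, W x * χ x ^ 2) - hb ^ 2 * DD χ)
    (happ : ∀ δ > 0, ∃ W' : Sp d → ℝ, Measurable W' ∧ (∀ x, 0 ≤ W' x) ∧ (∀ x, W' x ≤ W x) ∧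
      (∃ M, ∀ x, W' x ≤ M) ∧ (∀ x, 1 < ‖x‖ → W' x = 0) ∧
      ∀ χ ∈ TF d, ∫ x, (W x - W' x) * χ x ^ 2 ≤ δ * (DD χ + SS χ)) :
    ∃ (u : E2 d) (g : E1 d), u ≠ 0 ∧
      (∀ χ ∈ TF d, ∀ i, ∫ x, u x * fderiv ℝ χ x (EuclideanSpace.single i 1) =
        - ∫ x, g x i * χ x) ∧
      Integrable (fun x => W x * u x ^ 2) ∧
      ∀ χ ∈ TF d, hb ^ 2 * (∑ i, ∫ x, g x i * fderiv ℝ χ x (EuclideanSpace.single i 1)) -
        (∫ x, W x * u x * χ x) = - e * ∫ x, u x * χ x := by
  obtain ⟨s, hs⟩ : ∃ s, s = hb / √e := ⟨_, rfl⟩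
  have hse : 0 < √e := Real.sqrt_pos.mpr he
  have hs0 : 0 < s := by rw [hs]; positivity
  have hs2 : e * s ^ 2 = hb ^ 2 := by
    rw [hs, div_pow, Real.sq_sqrt he.le]; field_simp
  have hw : Measurable (fun x => √(W x)) := hW.sqrt
  -- conversion of integrals
  have conv : ∀ (V : Sp d → ℝ), (∀ x, 0 ≤ V x) → ∀ χ : TF d, Integrable (fun x => V x * χ.1 x ^ 2) →
      ∫⁻ x, ‖√(V x) * χ.1 x‖ₑ ^ 2 = ENNReal.ofReal (∫ x, V x * χ.1 x ^ 2) := by
    intro V hV0 χ hi
    rw [ofReal_integral_eq_lintegral_ofReal hi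
      (Eventually.of_forall fun x => mul_nonneg (hV0 x) (sq_nonneg _))]
    apply lintegral_congr
    intro x
    rw [← ofReal_norm, ← ENNReal.ofReal_pow (norm_nonneg _), norm_mul, mul_pow, Real.norm_eq_abs,
      Real.norm_eq_abs, sq_abs, sq_abs, Real.sq_sqrt (hV0 x)]
  have hb1 : Bd s (fun x => √(W x)) e := by
    intro χ
    obtain ⟨hi, hle⟩ := hup χ.1 χ.2
    rw [conv W hW0 χ hi, norm_iota_sq]
    apply ENNReal.ofReal_le_ofReal
    have : e * (s ^ 2 * DD χ.1 + SS χ.1) = hb ^ 2 * DD χ.1 + e * SS χ.1 := by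
      rw [mul_add, ← mul_assoc, hs2]
    rw [this]
    exact hle
  let J := JJ hw he.le hb1
  have hJ : J = JJ hw he.le hb1 := rfl
  have hJc : IsCompactOperator J := by
    apply JJ_compact_of_approx hs0 hw he.le hb1
    intro δ hδ
    obtain ⟨δ', hδ'⟩ : ∃ δ', δ' = δ * min (s ^ 2) 1 := ⟨_, rfl⟩
    have hδ'0 : 0 < δ' := by rw [hδ']; positivity
    obtain ⟨W', hW'm, hW'0, hW'le, ⟨M, hM⟩, hsupp, hW'⟩ := happ δ' hδ'0
    refine ⟨fun x => √(W' x), hW'm.sqrt, ⟨e, he.le, ?_⟩, ⟨√M, ?_⟩, ?_, ?_⟩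
    · intro χ
      refine le_trans ?_ (hb1 χ)
      apply lintegral_mono
      intro x
      simp only [enorm_mul]
      have : ‖√(W' x)‖ₑ ≤ ‖√(W x)‖ₑ := by
        apply enorm_le_iff_norm_le.mpr
        rw [Real.norm_of_nonneg (Real.sqrt_nonneg _), Real.norm_of_nonneg (Real.sqrt_nonneg _)]
        exact Real.sqrt_le_sqrt (hW'le x)
      gcongr
    · intro x
      rw [abs_of_nonneg (Real.sqrt_nonneg _)]
      exact Real.sqrt_le_sqrt (hM x)
    · intro x hx
      simp [hsupp x hx]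
    · intro χ
      have hi : Integrable (fun x => (W x - W' x) * χ.1 x ^ 2) := by
        refine (hup χ.1 χ.2).1.mono ?_ ?_
        · exact ((hW.sub hW'm).mul ((TF.cont χ.2).measurable.pow_const 2)).aestronglyMeasurable
        · refine Eventually.of_forall fun x => ?_
          have h1 := hW'0 x
          have h2 := hW'le x
          rw [Real.norm_of_nonneg (mul_nonneg (by linarith) (sq_nonneg _)),
            Real.norm_of_nonneg (mul_nonneg (by linarith) (sq_nonneg _))]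
          gcongr
          linarith
      calc ∫⁻ x, ‖(√(W x) - √(W' x)) * χ.1 x‖ₑ ^ 2
          ≤ ∫⁻ x, ‖√(W x - W' x) * χ.1 x‖ₑ ^ 2 := by
            apply lintegral_mono
            intro x
            simp only [enorm_mul]
            have : ‖√(W x) - √(W' x)‖ₑ ≤ ‖√(W x - W' x)‖ₑ := by
              apply enorm_le_iff_norm_le.mpr
              rw [Real.norm_of_nonneg (sub_nonneg.mpr (Real.sqrt_le_sqrt (hW'le x))),
                Real.norm_of_nonneg (Real.sqrt_nonneg _)]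
              apply Real.le_sqrt_of_sq_le
              have h5 := sq_sub_le' (Real.sqrt_nonneg (W' x)) (Real.sqrt_le_sqrt (hW'le x))
              rwa [Real.sq_sqrt (hW0 x), Real.sq_sqrt (hW'0 x)] at h5
            gcongr
        _ = ENNReal.ofReal (∫ x, (W x - W' x) * χ.1 x ^ 2) :=
            conv (fun x => W x - W' x) (fun x => sub_nonneg.mpr (hW'le x)) χ hi
        _ ≤ ENNReal.ofReal (δ * ‖iota s χ‖ ^ 2) := by
            apply ENNReal.ofReal_le_ofReal
            refine (hW' χ.1 χ.2).trans ?_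
            rw [norm_iota_sq, hδ', mul_assoc]
            have hD := DD_nonneg χ.1
            have hS := SS_nonneg χ.1
            exact mul_le_mul_of_nonneg_left (min_mul_add_le hD hS) hδ.le
  obtain ⟨u, hu0, hu⟩ := exists_top_eigenvector J hJc he (fun u => JJ_norm_sq_le hw he.le hb1 u) (by
    intro δ hδ
    obtain ⟨χ, hχ, hS, hle⟩ := hlow δ hδ
    have hn := norm_iota_sq s (⟨χ, hχ⟩ : TF d)
    have hD := DD_nonneg χ
    simp only at hn
    refine ⟨⟨iota s ⟨χ, hχ⟩, iota_mem s ⟨χ, hχ⟩⟩, ?_, ?_⟩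
    · intro h0
      have h1 : iota s (⟨χ, hχ⟩ : TF d) = 0 := congrArg Subtype.val h0
      rw [h1, norm_zero] at hn
      have h6 : 0 ≤ s ^ 2 * DD χ := by positivity
      have h7 : (0 : ℝ) ^ 2 = 0 := by norm_num
      rw [h7] at hn
      linarith
    · have h2 : ‖J ⟨iota s ⟨χ, hχ⟩, iota_mem s ⟨χ, hχ⟩⟩‖ ^ 2 = ∫ x, W x * χ x ^ 2 := by
        rw [L2_norm_sq]
        apply integral_congr_ae
        filter_upwards [JJ_coe hw he.le hb1 ⟨iota s ⟨χ, hχ⟩, iota_mem s ⟨χ, hχ⟩⟩,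
          (TF.memLp hχ).coeFn_toLp] with x h1 h3
        have h4 : (iota s (⟨χ, hχ⟩ : TF d)).snd x = χ x := h3
        rw [hJ, h1, h4, norm_mul, mul_pow, Real.norm_eq_abs, Real.norm_eq_abs, sq_abs, sq_abs,
          Real.sq_sqrt (hW0 x)]
      rw [h2]
      change (e - δ) * ‖iota s ⟨χ, hχ⟩‖ ^ 2 ≤ _
      rw [hn]
      have h5 : (e - δ) * (s ^ 2 * DD χ + SS χ) ≤ hb ^ 2 * DD χ + (e - δ) * SS χ := by
        have : (e - δ) * (s ^ 2 * DD χ + SS χ) = (e * s ^ 2) * DD χ - δ * s ^ 2 * DD χ +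
          (e - δ) * SS χ := by ring
        rw [this, hs2]
        have : 0 ≤ δ * s ^ 2 * DD χ := by positivity
        linarith
      linarith)
  have hJu := JJ_coe hw he.le hb1 u
  have hmem := memLp_mul hw hb1 u.2
  refine ⟨u.1.snd, s⁻¹ • u.1.fst, ?_, ?_, ?_, ?_⟩
  · intro h0
    have h1 : J u = 0 := by
      have : (J u : Sp d → ℝ) =ᵐ[volume] 0 := by
        have h2 : (u.1.snd : Sp d → ℝ) =ᵐ[volume] 0 := by
          rw [h0]; exact Lp.coeFn_zero _ _ _
        filter_upwards [hJu, h2] with x h3 h4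
        rw [hJ, h3, h4]; simp
      exact (Lp.eq_zero_iff_ae_eq_zero).mpr this
    have h2 := hu u
    rw [h1, inner_zero_left, real_inner_self_eq_norm_sq] at h2
    have h3 : 0 < ‖u‖ := norm_pos_iff.mpr hu0
    have : 0 < e * ‖u‖ ^ 2 := by positivity
    linarith
  · intro χ hχ i
    have h1 := weak_grad u.2 hχ i
    have h2 : ∫ x, (s⁻¹ • u.1.fst : E1 d) x i * χ x = s⁻¹ * ∫ x, u.1.fst x i * χ x := by
      rw [← integral_const_mul]
      apply integral_congr_ae
      filter_upwards [Lp.coeFn_smul s⁻¹ u.1.fst] with x hx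
      rw [hx]
      simp only [Pi.smul_apply, PiLp.smul_apply, smul_eq_mul]
      ring
    rw [h2]
    have h3 : ∫ x, u.1.snd x * fderiv ℝ χ x (EuclideanSpace.single i 1) =
        s⁻¹ * (s * ∫ x, u.1.snd x * fderiv ℝ χ x (EuclideanSpace.single i 1)) := by
      rw [← mul_assoc, inv_mul_cancel₀ hs0.ne', one_mul]
    rw [h3, h1]
    ring
  · have h1 := hmem.integrable_sq
    refine h1.congr ?_
    refine Eventually.of_forall fun x => ?_
    simp only
    rw [mul_pow, Real.sq_sqrt (hW0 x)]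
  · intro χ hχ
    have h1 := hu ⟨iota s ⟨χ, hχ⟩, iota_mem s ⟨χ, hχ⟩⟩
    have h2 : ⟪J u, J ⟨iota s ⟨χ, hχ⟩, iota_mem s ⟨χ, hχ⟩⟩⟫ = ∫ x, W x * u.1.snd x * χ x := by
      rw [L2.inner_def]
      apply integral_congr_ae
      filter_upwards [hJu, JJ_coe hw he.le hb1 ⟨iota s ⟨χ, hχ⟩, iota_mem s ⟨χ, hχ⟩⟩,
          (TF.memLp hχ).coeFn_toLp] with x h1 h3 h5
      have h4 : (iota s (⟨χ, hχ⟩ : TF d)).snd x = χ x := h5
      rw [hJ, h1, h3, h4, RCLike.inner_apply]
      simp only [conj_trivial]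
      have := Real.mul_self_sqrt (hW0 x)
      calc √(W x) * χ x * (√(W x) * u.1.snd x) = (√(W x) * √(W x)) * u.1.snd x * χ x := by ring
        _ = _ := by rw [this]
    have h3 : ⟪u, (⟨iota s ⟨χ, hχ⟩, iota_mem s ⟨χ, hχ⟩⟩ : HH d s)⟫ =
        s * (∫ x, ⟪u.1.fst x, gradient χ x⟫) + ∫ x, u.1.snd x * χ x := by
      have : ⟪u, (⟨iota s ⟨χ, hχ⟩, iota_mem s ⟨χ, hχ⟩⟩ : HH d s)⟫ =
        ⟪(u : KK d), iota s ⟨χ, hχ⟩⟫ := rfl
      rw [this, WithLp.prod_inner_apply]
      have e1 : ⟪(u : KK d).fst, (iota s (⟨χ, hχ⟩ : TF d)).fst⟫ =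
          s * (∫ x, ⟪u.1.fst x, gradient χ x⟫) := by
        rw [iota_fst, inner_smul_right, L2.inner_def]
        congr 1
        apply integral_congr_ae
        filter_upwards [(TF.memLp_grad hχ).coeFn_toLp] with x hx
        have : (gradL d (⟨χ, hχ⟩ : TF d)) x = gradient χ x := hx
        rw [this]
      have e2 : ⟪(u : KK d).snd, (iota s (⟨χ, hχ⟩ : TF d)).snd⟫ = ∫ x, u.1.snd x * χ x := by
        rw [iota_snd, L2.inner_def]
        apply integral_congr_ae
        filter_upwards [(TF.memLp hχ).coeFn_toLp] with x hx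
        have : (valL d (⟨χ, hχ⟩ : TF d)) x = χ x := hx
        rw [this, RCLike.inner_apply]
        simp [mul_comm]
      exact congrArg₂ (· + ·) e1 e2
    rw [h2, h3] at h1
    have h4 : ∀ i, ∫ x, (s⁻¹ • u.1.fst : E1 d) x i * fderiv ℝ χ x (EuclideanSpace.single i 1) =
        s⁻¹ * ∫ x, u.1.fst x i * fderiv ℝ χ x (EuclideanSpace.single i 1) := by
      intro i
      rw [← integral_const_mul]
      apply integral_congr_ae
      filter_upwards [Lp.coeFn_smul s⁻¹ u.1.fst] with x hx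
      rw [hx]
      simp only [Pi.smul_apply, PiLp.smul_apply, smul_eq_mul]
      ring
    have h5 : ∑ i, ∫ x, u.1.fst x i * fderiv ℝ χ x (EuclideanSpace.single i 1) =
        ∫ x, ⟪u.1.fst x, gradient χ x⟫ := by
      rw [← integral_finsetSum]
      · apply integral_congr_ae
        refine Eventually.of_forall fun x => ?_
        simp only
        rw [real_inner_comm, gradient, InnerProductSpace.toDual_symm_apply]
        have hx : u.1.fst x = ∑ i, u.1.fst x i • (EuclideanSpace.single i (1:ℝ) : Sp d) := by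
          have := (EuclideanSpace.basisFun (Fin d) ℝ).sum_repr (u.1.fst x)
          simpa [EuclideanSpace.basisFun_repr] using this.symm
        conv_rhs => rw [hx, map_sum]
        simp
      · intro i _
        have h6 : MemLp (fun x => u.1.fst x i) 2 := by
          have := (Lp.memLp u.1.fst)
          exact (EuclideanSpace.proj i : Sp d →L[ℝ] ℝ).comp_memLp' this
        exact h6.integrable_mul (integrable_pd hχ i)
    simp_rw [h4]
    rw [← Finset.mul_sum, h5]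
    have h7 : hb ^ 2 * (s⁻¹ * ∫ x, ⟪u.1.fst x, gradient χ x⟫) =
        e * (s * ∫ x, ⟪u.1.fst x, gradient χ x⟫) := by
      rw [← hs2]
      field_simp
    rw [h7, h1]
    ring

end MP497a12
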