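import Mathlib

/-!
# The Gamma integral on rays
-/

open MeasureTheory Filter Topology Real Set

namespace MP497a12

lemma integrable_gam {σ δ : ℝ} (hσ : -1 < σ) (hδ : 0 < δ) :
    IntegrableOn (fun t : ℝ => t ^ σ * Real.exp (-δ * t)) (Ioi 0) := by
  have := integrableOn_rpow_mul_exp_neg_mul_rpow (p := 1) hσ one_pos hδ
  simpa using this

lemma norm_gam (s m : ℂ) {t : ℝ} (ht : 0 < t) :
    ‖(t : ℂ) ^ (s - 1) * Complex.exp (-(m * t))‖ = t ^ (s.re - 1) * Real.exp (-m.re * t) := by
  rw [norm_mul, Complex.norm_cpow_eq_rpow_re_of_pos ht, Complex.norm_exp]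
  simp

lemma measurable_gam (s m : ℂ) : Measurable (fun t : ℝ => (t : ℂ) ^ (s - 1) *
    Complex.exp (-(m * t))) := by
  apply Measurable.mul
  · exact Complex.continuous_ofReal.measurable.pow_const _
  · exact (by fun_prop : Continuous (fun t : ℝ => Complex.exp (-(m * t)))).measurable

lemma integrable_gamC {s m : ℂ} (hs : 0 < s.re) (hm : 0 < m.re) :
    IntegrableOn (fun t : ℝ => (t : ℂ) ^ (s - 1) * Complex.exp (-(m * t))) (Ioi 0) := by
  refine Integrable.mono' (integrable_gam (σ := s.re - 1) (by linarith) hm)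
    (measurable_gam s m).aestronglyMeasurable ?_
  rw [ae_restrict_iff' measurableSet_Ioi]
  exact Eventually.of_forall fun t ht => (norm_gam s m ht).le

lemma differentiableAt_gam {s m : ℂ} (hs : 0 < s.re) (hm : 0 < m.re) :
    DifferentiableAt ℂ (fun m => ∫ t in Ioi (0 : ℝ), (t : ℂ) ^ (s - 1) *
      Complex.exp (-(m * t))) m := by
  set δ := m.re / 2 with hδ
  have hδ0 : 0 < δ := by positivity
  have key := hasDerivAt_integral_of_dominated_loc_of_deriv_le
    (μ := volume.restrict (Ioi (0 : ℝ))) (𝕜 := ℂ)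
    (F := fun (m : ℂ) (t : ℝ) => (t : ℂ) ^ (s - 1) * Complex.exp (-(m * t)))
    (F' := fun (m : ℂ) (t : ℝ) => (t : ℂ) ^ (s - 1) * (Complex.exp (-(m * t)) * (-t)))
    (x₀ := m) (s := Metric.ball m δ) (bound := fun t : ℝ => t ^ s.re * Real.exp (-δ * t))
    (Metric.ball_mem_nhds m hδ0)
    (Eventually.of_forall fun x => (measurable_gam s x).aestronglyMeasurable)
    (integrable_gamC hs hm) ?_ ?_ (integrable_gam (by linarith) hδ0) ?_
  · exact key.2.differentiableAt
  · apply Measurable.aestronglyMeasurable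
    apply Measurable.mul
    · exact Complex.continuous_ofReal.measurable.pow_const _
    · exact (by fun_prop : Continuous (fun t : ℝ => Complex.exp (-(m * t)) * (-t))).measurable
  · rw [ae_restrict_iff' measurableSet_Ioi]
    refine Eventually.of_forall fun t ht x hx => ?_
    have ht0 : (0 : ℝ) < t := ht
    have hre : δ ≤ x.re := by
      rw [Metric.mem_ball, dist_eq_norm] at hx
      have h1 := (Complex.abs_re_le_norm (x - m)).trans hx.le
      rw [Complex.sub_re, abs_le] at h1
      linarith [h1.1]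
    rw [← mul_assoc, norm_mul, norm_gam s x ht0, norm_neg, Complex.norm_real,
      Real.norm_of_nonneg ht0.le]
    have h2 : t ^ (s.re - 1) * t = t ^ s.re := by
      rw [Real.rpow_sub_one ht0.ne']
      field_simp
    calc t ^ (s.re - 1) * Real.exp (-x.re * t) * t = (t ^ (s.re - 1) * t) *
          Real.exp (-x.re * t) := by ring
      _ ≤ (t ^ (s.re - 1) * t) * Real.exp (-δ * t) := by
          gcongr
      _ = _ := by rw [h2]
  · refine Eventually.of_forall fun t x _ => ?_
    apply HasDerivAt.const_mul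
    have h1 : HasDerivAt (fun x : ℂ => -(x * t)) (-t : ℂ) x := by
      have h2 := ((hasDerivAt_id x).mul_const (t : ℂ)).fun_neg
      simp only [id_eq, one_mul] at h2
      exact h2
    exact h1.cexp

/-- The Gamma integral on rays. -/
theorem gamma_ray {s m : ℂ} (hs : 0 < s.re) (hm : 0 < m.re) :
    ∫ t in Ioi (0 : ℝ), (t : ℂ) ^ (s - 1) * Complex.exp (-(m * t)) =
      (1 / m) ^ s * Complex.Gamma s := by
  set U : Set ℂ := {m | 0 < m.re} with hU
  have hUo : IsOpen U := isOpen_lt continuous_const Complex.continuous_re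
  have hUc : Convex ℝ U := convex_halfSpace_re_gt 0
  have h1 : DifferentiableOn ℂ (fun m => ∫ t in Ioi (0 : ℝ), (t : ℂ) ^ (s - 1) *
      Complex.exp (-(m * t))) U := fun z hz =>
    (differentiableAt_gam hs hz).differentiableWithinAt
  have h2 : DifferentiableOn ℂ (fun m : ℂ => (1 / m) ^ s * Complex.Gamma s) U := by
    intro z hz
    have hz' : 0 < z.re := hz
    have hz0 : z ≠ 0 := by
      intro h; rw [h] at hz'; simp at hz'
    apply DifferentiableAt.differentiableWithinAt
    apply DifferentiableAt.mul_const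
    apply DifferentiableAt.cpow_const
    · exact (differentiableAt_const _).div differentiableAt_id hz0
    · left
      rw [one_div, Complex.inv_re]
      have : 0 < Complex.normSq z := Complex.normSq_pos.mpr hz0
      positivity
  have h3 := h1.analyticOnNhd hUo
  have h4 := h2.analyticOnNhd hUo
  have h5 : ∃ᶠ z in 𝓝[≠] (1 : ℂ), (fun m => ∫ t in Ioi (0 : ℝ), (t : ℂ) ^ (s - 1) *
      Complex.exp (-(m * t))) z = (fun m : ℂ => (1 / m) ^ s * Complex.Gamma s) z := by
    have h6 : Tendsto (fun n : ℕ => ((1 + 1 / ((n : ℝ) + 1) : ℝ) : ℂ)) atTop (𝓝[≠] 1) := by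
      rw [tendsto_nhdsWithin_iff]
      constructor
      · have h7 : Tendsto (fun n : ℕ => 1 + 1 / ((n : ℝ) + 1)) atTop (𝓝 (1 + 0)) :=
          tendsto_const_nhds.add tendsto_one_div_add_atTop_nhds_zero_nat
        rw [add_zero] at h7
        have h8 := (Complex.continuous_ofReal.tendsto 1).comp h7
        rw [Complex.ofReal_one] at h8
        exact h8
      · refine Eventually.of_forall fun n => ?_
        intro h
        have h7 : (1 + 1 / ((n : ℝ) + 1) : ℝ) = 1 := by
          have : ((1 + 1 / ((n : ℝ) + 1) : ℝ) : ℂ) = ((1 : ℝ) : ℂ) := by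
            rw [Complex.ofReal_one]; exact h
          exact_mod_cast this
        have h8 : 0 < 1 / ((n : ℝ) + 1) := by positivity
        linarith
    refine h6.frequently (Eventually.frequently (Eventually.of_forall fun n => ?_))
    exact Complex.integral_cpow_mul_exp_neg_mul_Ioi hs (by positivity)
  have h6 := h3.eqOn_of_preconnected_of_frequently_eq h4 hUc.isPreconnected
    (by simp [hU] : (1 : ℂ) ∈ U) h5
  exact h6 hm

end MP497a12
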