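import Mathlib

/-!
# An oscillatory integral
-/

open MeasureTheory Filter Topology Real Set

namespace MP497a12

/-- The function `√(u² + 4c)`. -/
noncomputable def oD (c u : ℝ) : ℝ := √(u ^ 2 + 4 * c)

/-- The inverse of `t ↦ √t - c / √t`. -/
noncomputable def oT (c u : ℝ) : ℝ := ((u + oD c u) / 2) ^ 2

lemma oD_sq {c : ℝ} (hc : 0 < c) (u : ℝ) : oD c u ^ 2 = u ^ 2 + 4 * c := by
  unfold oD
  rw [Real.sq_sqrt (by positivity)]

lemma oD_pos {c : ℝ} (hc : 0 < c) (u : ℝ) : 0 < oD c u := by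
  unfold oD; positivity

lemma abs_lt_oD {c : ℝ} (hc : 0 < c) (u : ℝ) : |u| < oD c u := by
  apply abs_lt_of_sq_lt_sq _ (oD_pos hc u).le
  rw [oD_sq hc]; linarith

lemma oD_neg (c u : ℝ) : oD c (-u) = oD c u := by
  unfold oD
  rw [neg_sq]

lemma op_pos {c : ℝ} (hc : 0 < c) (u : ℝ) : 0 < (u + oD c u) / 2 := by
  have h := abs_lt_oD hc u
  rw [abs_lt] at h
  linarith [h.1]

lemma oT_pos {c : ℝ} (hc : 0 < c) (u : ℝ) : 0 < oT c u := by
  have := op_pos hc u
  unfold oT; positivity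

lemma oT_le {c : ℝ} (hc : 0 < c) (u : ℝ) : oT c u ≤ oD c u ^ 2 := by
  have h1 := op_pos hc u
  have h2 := abs_lt_oD hc u
  rw [abs_lt] at h2
  unfold oT
  have h3 : (u + oD c u) / 2 ≤ oD c u := by linarith [h2.2]
  exact pow_le_pow_left₀ h1.le h3 2

lemma hasDerivAt_oD {c : ℝ} (hc : 0 < c) (u : ℝ) : HasDerivAt (oD c) (u / oD c u) u := by
  unfold oD
  have h1 : HasDerivAt (fun u : ℝ => u ^ 2 + 4 * c) (2 * u) u := by
    simpa using (hasDerivAt_pow 2 u).add_const (4 * c)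
  have h2 := h1.sqrt (by positivity)
  convert h2 using 1
  field_simp

lemma hasDerivAt_oT {c : ℝ} (hc : 0 < c) (u : ℝ) :
    HasDerivAt (oT c) (2 * oT c u / oD c u) u := by
  have hD := oD_pos hc u
  have h1 : HasDerivAt (fun u => (u + oD c u) / 2) ((1 + u / oD c u) / 2) u :=
    ((hasDerivAt_id u).add (hasDerivAt_oD hc u)).div_const 2
  refine (h1.fun_pow 2).congr_deriv ?_
  unfold oT
  field_simp
  push_cast
  ring

lemma oT_inv {c : ℝ} (hc : 0 < c) (u : ℝ) : oT c u + c ^ 2 / oT c u = u ^ 2 + 2 * c := by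
  have hD := oD_sq hc u
  have hp := op_pos hc u
  have h1 : c ^ 2 / oT c u = ((oD c u - u) / 2) ^ 2 := by
    rw [div_eq_iff (oT_pos hc u).ne']
    unfold oT
    rw [← mul_pow]
    congr 1
    nlinarith
  rw [h1]
  unfold oT
  nlinarith

lemma strictMono_oT {c : ℝ} (hc : 0 < c) : StrictMono (oT c) := by
  apply strictMono_of_hasDerivAt_pos (f' := fun u => 2 * oT c u / oD c u)
  · intro u; exact hasDerivAt_oT hc u
  · intro u
    have h1 := oT_pos hc u
    have h2 := oD_pos hc u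
    positivity

lemma image_oT {c : ℝ} (hc : 0 < c) : oT c '' univ = Ioi 0 := by
  ext t
  constructor
  · rintro ⟨u, -, rfl⟩
    exact oT_pos hc u
  · intro ht
    have ht' : 0 < t := ht
    have hs : 0 < √t := Real.sqrt_pos.mpr ht'
    refine ⟨√t - c / √t, mem_univ _, ?_⟩
    have h1 : oD c (√t - c / √t) = √t + c / √t := by
      unfold oD
      have : (√t - c / √t) ^ 2 + 4 * c = (√t + c / √t) ^ 2 := by
        field_simp
        ring
      rw [this, Real.sqrt_sq (by positivity)]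
    unfold oT
    rw [h1]
    have : (√t - c / √t + (√t + c / √t)) / 2 = √t := by ring
    rw [this, Real.sq_sqrt ht'.le]

/-- The substitution. -/
lemma subst_oT {c : ℝ} (hc : 0 < c) (g : ℝ → ℂ) :
    ∫ t in Ioi 0, g t = ∫ u, ((2 * oT c u / oD c u : ℝ) : ℂ) * g (oT c u) := by
  rw [← image_oT hc, integral_image_eq_integral_abs_deriv_smul MeasurableSet.univ
    (fun u _ => (hasDerivAt_oT hc u).hasDerivWithinAt) (strictMono_oT hc).injective.injOn]
  rw [Measure.restrict_univ]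
  apply integral_congr_ae
  refine Eventually.of_forall fun u => ?_
  have h1 := oT_pos hc u
  have h2 := oD_pos hc u
  simp only
  rw [abs_of_pos (by positivity), Complex.real_smul]


/-- The exponential `exp (-κ u²)`. -/
noncomputable def eK (κ : ℂ) (u : ℝ) : ℂ := Complex.exp (-κ * (u : ℂ) ^ 2)

lemma norm_eK (κ : ℂ) (u : ℝ) : ‖eK κ u‖ = Real.exp (-κ.re * u ^ 2) := by
  unfold eK
  rw [Complex.norm_exp]
  congr 1
  rw [← Complex.ofReal_pow, Complex.re_mul_ofReal, Complex.neg_re]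

lemma norm_eK_le {κ : ℂ} (hκ : 0 < κ.re) (u : ℝ) : ‖eK κ u‖ ≤ 1 := by
  rw [norm_eK]
  apply Real.exp_le_one_iff.mpr
  nlinarith [sq_nonneg u]

lemma continuous_eK (κ : ℂ) : Continuous (eK κ) := by
  unfold eK; fun_prop

lemma hasDerivAt_eK (κ : ℂ) (u : ℝ) : HasDerivAt (eK κ) (-2 * κ * u * eK κ u) u := by
  unfold eK
  have h1 : HasDerivAt (fun u : ℝ => (u : ℂ)) 1 u := Complex.ofRealCLM.hasDerivAt
  refine (((h1.fun_pow 2).const_mul (-κ)).cexp).congr_deriv ?_
  push_cast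
  ring

/-- Integration by parts. -/
lemma ibp1 {κ : ℂ} (hκ : 0 < κ.re) (hκ1 : ‖κ‖ = 1) {b b' : ℝ → ℂ} {B B' μ : ℝ} (hμ : 0 < μ)
    (hb : ∀ u : ℝ, 1 ≤ u → HasDerivAt b (b' u) u) (hB : ∀ u : ℝ, 1 ≤ u → ‖b u‖ ≤ B)
    (hB' : ∀ u : ℝ, 1 ≤ u → ‖b' u‖ ≤ B' * u ^ (-1 - 2 * μ))
    (hm : AEStronglyMeasurable b' (volume.restrict (Ioi 1))) :
    ‖∫ u in Ioi (1 : ℝ), (u : ℂ) * b u * eK κ u‖ ≤ (1 / 2) * (‖b 1‖ + B' / (2 * μ)) := by
  have hcont : ContinuousOn b (Ici 1) := fun u hu => (hb u hu).continuousAt.continuousWithinAt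
  have hmb : AEStronglyMeasurable b (volume.restrict (Ioi 1)) :=
    (hcont.mono Ioi_subset_Ici_self).aestronglyMeasurable measurableSet_Ioi
  have hint1 : IntegrableOn (fun u : ℝ => u ^ (-1 - 2 * μ)) (Ioi 1) :=
    integrableOn_Ioi_rpow_of_lt (by linarith) one_pos
  have hi1 : IntegrableOn (fun u => b' u * eK κ u) (Ioi 1) := by
    refine Integrable.mono' (hint1.const_mul B') (hm.mul
      (continuous_eK κ).aestronglyMeasurable) ?_
    rw [ae_restrict_iff' measurableSet_Ioi]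
    refine Eventually.of_forall fun u hu => ?_
    rw [norm_mul]
    have h1 := hB' u (le_of_lt hu)
    have h2 := norm_eK_le hκ u
    calc ‖b' u‖ * ‖eK κ u‖ ≤ ‖b' u‖ * 1 := by gcongr
      _ ≤ _ := by rw [mul_one]; exact h1
  have hB0 : 0 ≤ B := (norm_nonneg _).trans (hB 1 le_rfl)
  have hi2 : IntegrableOn (fun u : ℝ => (u : ℂ) * b u * eK κ u) (Ioi 1) := by
    have h0 : Integrable (fun u : ℝ => u * Real.exp (-κ.re * u ^ 2)) :=
      integrable_mul_exp_neg_mul_sq hκ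
    refine Integrable.mono' ((h0.integrableOn (s := Ioi 1)).const_mul B)
      (((Complex.continuous_ofReal.aestronglyMeasurable).mul hmb).mul
        (continuous_eK κ).aestronglyMeasurable) ?_
    rw [ae_restrict_iff' measurableSet_Ioi]
    refine Eventually.of_forall fun u hu => ?_
    have hu0 : (0 : ℝ) < u := lt_trans one_pos hu
    rw [norm_mul, norm_mul, Complex.norm_real, Real.norm_of_nonneg hu0.le, norm_eK]
    have h1 := hB u (le_of_lt hu)
    calc u * ‖b u‖ * Real.exp (-κ.re * u ^ 2) ≤ u * B * Real.exp (-κ.re * u ^ 2) := by gcongr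
      _ = _ := by ring
  have hi3 : IntegrableOn (fun u : ℝ => b' u * eK κ u - 2 * κ * ((u : ℂ) * b u * eK κ u))
      (Ioi 1) := hi1.sub (hi2.const_mul _)
  have hlim : Tendsto (fun u => b u * eK κ u) atTop (𝓝 0) := by
    rw [tendsto_zero_iff_norm_tendsto_zero]
    have h1 : Tendsto (fun u : ℝ => B * Real.exp (-κ.re * u ^ 2)) atTop (𝓝 (B * 0)) := by
      apply Tendsto.const_mul
      apply Real.tendsto_exp_atBot.comp
      have h2 : Tendsto (fun u : ℝ => u ^ 2) atTop atTop := tendsto_pow_atTop (by norm_num)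
      exact h2.const_mul_atTop_of_neg (by linarith)
    rw [mul_zero] at h1
    refine squeeze_zero' (Eventually.of_forall fun u => norm_nonneg _) ?_ h1
    filter_upwards [eventually_ge_atTop 1] with u hu
    rw [norm_mul, norm_eK]
    have := hB u hu
    gcongr
  have key := integral_Ioi_of_hasDerivAt_of_tendsto' (a := (1 : ℝ))
    (f := fun u => b u * eK κ u)
    (f' := fun u : ℝ => b' u * eK κ u - 2 * κ * ((u : ℂ) * b u * eK κ u)) (m := 0)
    (fun u hu => by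
      refine ((hb u hu).fun_mul (hasDerivAt_eK κ u)).congr_deriv ?_
      ring) hi3 hlim
  rw [integral_sub hi1 (hi2.const_mul _), integral_const_mul] at key
  have h2 : 2 * κ * ∫ u in Ioi (1 : ℝ), (u : ℂ) * b u * eK κ u =
      (∫ u in Ioi 1, b' u * eK κ u) + b 1 * eK κ 1 := by
    linear_combination -key
  have h3 : ‖∫ u in Ioi 1, b' u * eK κ u‖ ≤ B' / (2 * μ) := by
    calc ‖∫ u in Ioi 1, b' u * eK κ u‖ ≤ ∫ u in Ioi (1 : ℝ), B' * u ^ (-1 - 2 * μ) := by
          apply norm_integral_le_of_norm_le (hint1.const_mul B')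
          rw [ae_restrict_iff' measurableSet_Ioi]
          refine Eventually.of_forall fun u hu => ?_
          rw [norm_mul]
          have h1 := hB' u (le_of_lt hu)
          have h2 := norm_eK_le hκ u
          calc ‖b' u‖ * ‖eK κ u‖ ≤ ‖b' u‖ * 1 := by gcongr
            _ ≤ _ := by rw [mul_one]; exact h1
      _ = B' / (2 * μ) := by
          rw [integral_const_mul, integral_Ioi_rpow_of_lt (by linarith) one_pos, Real.one_rpow]
          have e1 : -1 - 2 * μ + 1 = -(2 * μ) := by ring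
          rw [e1, neg_div_neg_eq]
          ring
  have h4 : ‖b 1 * eK κ 1‖ ≤ ‖b 1‖ := by
    rw [norm_mul]
    have := norm_eK_le hκ 1
    have h0 := norm_nonneg (b 1)
    nlinarith
  have h5 : ‖2 * κ * ∫ u in Ioi (1 : ℝ), (u : ℂ) * b u * eK κ u‖ ≤ B' / (2 * μ) + ‖b 1‖ := by
    rw [h2]
    exact (norm_add_le _ _).trans (add_le_add h3 h4)
  rw [norm_mul, norm_mul, hκ1, Complex.norm_ofNat] at h5
  linarith


/-- The growth factor. -/
noncomputable def oL (c μ : ℝ) : ℝ := (1 + 4 * c) ^ (max (1 / 2 - μ) 0)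

lemma one_le_oL {c : ℝ} (hc : 0 ≤ c) (μ : ℝ) : 1 ≤ oL c μ := by
  unfold oL
  exact Real.one_le_rpow (by linarith) (le_max_right _ _)

lemma oD_rpow_le {c : ℝ} (hc : 0 < c) (μ : ℝ) {u : ℝ} (hu : 1 ≤ u) :
    oD c u ^ (1 - 2 * μ) ≤ u ^ (1 - 2 * μ) * oL c μ := by
  have hu0 : 0 < u := by linarith
  have hD := oD_pos hc u
  have h1 := one_le_oL hc.le μ
  rcases le_or_gt 0 (1 - 2 * μ) with h | h
  · have h2 : oD c u ^ (1 - 2 * μ) = (oD c u ^ 2) ^ (1 / 2 - μ) := by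
      rw [← Real.rpow_natCast (oD c u) 2, ← Real.rpow_mul hD.le]
      congr 1
      push_cast
      ring
    have h3 : u ^ (1 - 2 * μ) = (u ^ 2) ^ (1 / 2 - μ) := by
      rw [← Real.rpow_natCast u 2, ← Real.rpow_mul hu0.le]
      congr 1
      push_cast
      ring
    have h4 : (1 + 4 * c) ^ (1 / 2 - μ) ≤ oL c μ := by
      unfold oL
      exact Real.rpow_le_rpow_of_exponent_le (by linarith) (le_max_left _ _)
    rw [h2, h3, oD_sq hc]
    calc (u ^ 2 + 4 * c) ^ (1 / 2 - μ) ≤ (u ^ 2 * (1 + 4 * c)) ^ (1 / 2 - μ) := by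
          apply Real.rpow_le_rpow (by positivity) _ (by linarith)
          nlinarith [mul_nonneg hc.le (by nlinarith : (0 : ℝ) ≤ u ^ 2 - 1)]
      _ = (u ^ 2) ^ (1 / 2 - μ) * (1 + 4 * c) ^ (1 / 2 - μ) :=
          Real.mul_rpow (by positivity) (by positivity)
      _ ≤ _ := by gcongr
  · have h2 : oD c u ^ (1 - 2 * μ) ≤ u ^ (1 - 2 * μ) := by
      apply Real.rpow_le_rpow_of_nonpos hu0 _ h.le
      exact (le_abs_self u).trans (abs_lt_oD hc u).le
    calc oD c u ^ (1 - 2 * μ) ≤ u ^ (1 - 2 * μ) * 1 := by rw [mul_one]; exact h2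
      _ ≤ _ := by gcongr

/-- The integral near infinity. -/
lemma ibp2 {c μ e : ℝ} {lam κ : ℂ} (hc : 0 < c) (hμ0 : 0 < μ) (hμ1 : μ < 1) (he : |e| ≤ 1)
    (hlam : lam.re = 1 - μ) (hκ : 0 < κ.re) (hκ1 : ‖κ‖ = 1) {Tf : ℝ → ℝ}
    (hT : ∀ u, 1 ≤ u → HasDerivAt Tf (e * (2 * Tf u / oD c u)) u)
    (hT0 : ∀ u, 1 ≤ u → 0 < Tf u) (hTle : ∀ u, 1 ≤ u → Tf u ≤ oD c u ^ 2) (hTc : Continuous Tf) :
    ‖∫ u in Ioi (1 : ℝ), (Tf u : ℂ) ^ lam / (oD c u : ℂ) * eK κ u‖ ≤
      (1 / 2) * ((1 + (2 * ‖lam‖ + 2) / (2 * μ)) * oL c μ) := by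
  set b : ℝ → ℂ := fun u => (Tf u : ℂ) ^ lam * ((oD c u : ℂ)⁻¹ * (u : ℂ)⁻¹) with hb
  set b' : ℝ → ℂ := fun u => b u * (lam * (2 * e) * (oD c u : ℂ)⁻¹ -
    u * ((oD c u : ℂ)⁻¹) ^ 2 - (u : ℂ)⁻¹) with hb'
  have hΛ := one_le_oL hc.le μ
  have hder : ∀ u : ℝ, 1 ≤ u → HasDerivAt b (b' u) u := by
    intro u hu
    have hu0 : 0 < u := by linarith
    have hD := oD_pos hc u
    have huC : (u : ℂ) ≠ 0 := by exact_mod_cast hu0.ne'
    have hDC : (oD c u : ℂ) ≠ 0 := by exact_mod_cast hD.ne'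
    have hTC : (Tf u : ℂ) ≠ 0 := by exact_mod_cast (hT0 u hu).ne'
    have hs : (Tf u : ℂ) ∈ Complex.slitPlane := Or.inl (by simpa using hT0 u hu)
    have h1 : HasDerivAt (fun z : ℂ => z ^ lam) (lam * (Tf u : ℂ) ^ (lam - 1)) (Tf u : ℂ) := by
      have := (hasDerivAt_id (Tf u : ℂ)).cpow_const (c := lam) hs
      simpa using this
    have h2 : HasDerivAt (fun u => (Tf u : ℂ)) ((e * (2 * Tf u / oD c u) : ℝ) : ℂ) u :=
      (hT u hu).ofReal_comp
    have h3 : HasDerivAt (fun u => (Tf u : ℂ) ^ lam)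
        (((e * (2 * Tf u / oD c u) : ℝ) : ℂ) • (lam * (Tf u : ℂ) ^ (lam - 1))) u := by
      have h3' := HasDerivAt.scomp (g₁ := fun z : ℂ => z ^ lam) (h := fun u => (Tf u : ℂ)) u h1 h2
      exact h3'
    have h4 : HasDerivAt (fun u => (oD c u : ℂ)) ((u / oD c u : ℝ) : ℂ) u :=
      (hasDerivAt_oD hc u).ofReal_comp
    have h5 : HasDerivAt (fun u : ℝ => (u : ℂ)) 1 u := Complex.ofRealCLM.hasDerivAt
    have h6 := h3.fun_mul ((h4.fun_inv hDC).fun_mul (h5.fun_inv huC))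
    refine h6.congr_deriv ?_
    simp only [hb', hb]
    have h7 : (Tf u : ℂ) ^ (lam - 1) = (Tf u : ℂ) ^ lam * (Tf u : ℂ)⁻¹ := by
      rw [Complex.cpow_sub _ _ hTC, Complex.cpow_one, div_eq_mul_inv]
    rw [h7, smul_eq_mul]
    push_cast
    field_simp
    ring
  have hnb : ∀ u : ℝ, 1 ≤ u → ‖b u‖ ≤ oL c μ * u ^ (-2 * μ) := by
    intro u hu
    have hu0 : 0 < u := by linarith
    have hD := oD_pos hc u
    simp only [hb]
    rw [norm_mul, norm_mul, norm_inv, norm_inv, Complex.norm_real, Complex.norm_real,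
      Real.norm_of_nonneg hD.le, Real.norm_of_nonneg hu0.le,
      Complex.norm_cpow_eq_rpow_re_of_pos (hT0 u hu), hlam]
    have h1 : Tf u ^ (1 - μ) ≤ (oD c u ^ 2) ^ (1 - μ) :=
      Real.rpow_le_rpow (hT0 u hu).le (hTle u hu) (by linarith)
    have h2 : (oD c u ^ 2) ^ (1 - μ) * (oD c u)⁻¹ = oD c u ^ (1 - 2 * μ) := by
      rw [← Real.rpow_natCast (oD c u) 2, ← Real.rpow_mul hD.le, ← Real.rpow_neg_one (oD c u),
        ← Real.rpow_add hD]
      congr 1
      push_cast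
      ring
    have h3 : u ^ (1 - 2 * μ) * u⁻¹ = u ^ (-2 * μ) := by
      rw [← Real.rpow_neg_one u, ← Real.rpow_add hu0]
      congr 1
      ring
    calc Tf u ^ (1 - μ) * ((oD c u)⁻¹ * u⁻¹)
        ≤ (oD c u ^ 2) ^ (1 - μ) * ((oD c u)⁻¹ * u⁻¹) := by gcongr
      _ = oD c u ^ (1 - 2 * μ) * u⁻¹ := by rw [← h2]; ring
      _ ≤ (u ^ (1 - 2 * μ) * oL c μ) * u⁻¹ := by
          gcongr
          exact oD_rpow_le hc μ hu
      _ = oL c μ * (u ^ (1 - 2 * μ) * u⁻¹) := by ring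
      _ = _ := by rw [h3]
  have hnb1 : ∀ u : ℝ, 1 ≤ u → ‖b u‖ ≤ oL c μ := by
    intro u hu
    refine (hnb u hu).trans ?_
    have : u ^ (-2 * μ) ≤ 1 := Real.rpow_le_one_of_one_le_of_nonpos hu (by linarith)
    nlinarith
  have hnb' : ∀ u : ℝ, 1 ≤ u → ‖b' u‖ ≤ (2 * ‖lam‖ + 2) * oL c μ * u ^ (-1 - 2 * μ) := by
    intro u hu
    have hu0 : 0 < u := by linarith
    have hD := oD_pos hc u
    have huD : u ≤ oD c u := (le_abs_self u).trans (abs_lt_oD hc u).le
    have hDinv : (oD c u)⁻¹ ≤ u⁻¹ := inv_anti₀ hu0 huD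
    have h1 : ‖lam * (2 * e) * (oD c u : ℂ)⁻¹ - u * ((oD c u : ℂ)⁻¹) ^ 2 - (u : ℂ)⁻¹‖ ≤
        (2 * ‖lam‖ + 2) * u⁻¹ := by
      have a1 : ‖lam * (2 * e) * (oD c u : ℂ)⁻¹‖ ≤ 2 * ‖lam‖ * u⁻¹ := by
        rw [norm_mul, norm_mul, norm_mul, norm_inv, Complex.norm_real, Complex.norm_real,
          Real.norm_of_nonneg hD.le, Complex.norm_ofNat, Real.norm_eq_abs]
        calc ‖lam‖ * (2 * |e|) * (oD c u)⁻¹ ≤ ‖lam‖ * (2 * 1) * u⁻¹ := by gcongr
          _ = _ := by ring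
      have a2 : ‖(u : ℂ) * ((oD c u : ℂ)⁻¹) ^ 2‖ ≤ u⁻¹ := by
        rw [norm_mul, norm_pow, norm_inv, Complex.norm_real, Complex.norm_real,
          Real.norm_of_nonneg hD.le, Real.norm_of_nonneg hu0.le]
        calc u * ((oD c u)⁻¹) ^ 2 ≤ u * (u⁻¹) ^ 2 := by gcongr
          _ = u⁻¹ := by field_simp
      have a3 : ‖(u : ℂ)⁻¹‖ = u⁻¹ := by
        rw [norm_inv, Complex.norm_real, Real.norm_of_nonneg hu0.le]
      calc _ ≤ ‖lam * (2 * e) * (oD c u : ℂ)⁻¹‖ + ‖(u : ℂ) * ((oD c u : ℂ)⁻¹) ^ 2‖ +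
            ‖(u : ℂ)⁻¹‖ := (norm_sub_le _ _).trans (add_le_add_left (norm_sub_le _ _) _)
        _ ≤ 2 * ‖lam‖ * u⁻¹ + u⁻¹ + u⁻¹ := by rw [a3]; gcongr
        _ = _ := by ring
    have h2 : u ^ (-2 * μ) * u⁻¹ = u ^ (-1 - 2 * μ) := by
      rw [← Real.rpow_neg_one u, ← Real.rpow_add hu0]
      congr 1
      ring
    simp only [hb']
    rw [norm_mul]
    calc ‖b u‖ * ‖lam * (2 * e) * (oD c u : ℂ)⁻¹ - u * ((oD c u : ℂ)⁻¹) ^ 2 - (u : ℂ)⁻¹‖
        ≤ (oL c μ * u ^ (-2 * μ)) * ((2 * ‖lam‖ + 2) * u⁻¹) := by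
          gcongr
          exact hnb u hu
      _ = (2 * ‖lam‖ + 2) * oL c μ * (u ^ (-2 * μ) * u⁻¹) := by ring
      _ = _ := by rw [h2]
  have hoDc : Continuous (oD c) := by unfold oD; fun_prop
  have hmeas : AEStronglyMeasurable b' (volume.restrict (Ioi 1)) := by
    have m1 : Measurable (fun u => (Tf u : ℂ) ^ lam) :=
      (Complex.continuous_ofReal.comp hTc).measurable.pow_const lam
    have m2 : Measurable (fun u : ℝ => (oD c u : ℂ)⁻¹) :=
      (Complex.continuous_ofReal.comp hoDc).measurable.inv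
    have m3 : Measurable (fun u : ℝ => (u : ℂ)⁻¹) := Complex.continuous_ofReal.measurable.inv
    have m4 : Measurable (fun u : ℝ => (u : ℂ)) := Complex.continuous_ofReal.measurable
    exact ((m1.mul (m2.mul m3)).mul (((m2.const_mul _).sub (m4.mul (m2.pow_const 2))).sub
      m3)).aestronglyMeasurable
  have key := ibp1 hκ hκ1 hμ0 hder hnb1 hnb' hmeas
  have e1 : ∫ u in Ioi (1 : ℝ), (Tf u : ℂ) ^ lam / (oD c u : ℂ) * eK κ u =
      ∫ u in Ioi (1 : ℝ), (u : ℂ) * b u * eK κ u := by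
    apply setIntegral_congr_fun measurableSet_Ioi
    intro u hu
    have hu0 : (0 : ℝ) < u := lt_trans one_pos hu
    have huC : (u : ℂ) ≠ 0 := by exact_mod_cast hu0.ne'
    simp only [hb]
    rw [div_eq_mul_inv]
    have : (u : ℂ) * ((Tf u : ℂ) ^ lam * ((oD c u : ℂ)⁻¹ * (u : ℂ)⁻¹)) =
        (Tf u : ℂ) ^ lam * (oD c u : ℂ)⁻¹ * ((u : ℂ) * (u : ℂ)⁻¹) := by ring
    rw [this, mul_inv_cancel₀ huC, mul_one]
  rw [e1]
  refine key.trans ?_
  have h1 := hnb1 1 le_rfl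
  have h2 : (2 * ‖lam‖ + 2) * oL c μ / (2 * μ) = (2 * ‖lam‖ + 2) / (2 * μ) * oL c μ := by ring
  rw [h2]
  nlinarith


lemma continuous_oD (c : ℝ) : Continuous (oD c) := by unfold oD; fun_prop

lemma continuous_oT (c : ℝ) : Continuous (oT c) := by unfold oT oD; fun_prop

/-- The integral over the middle region. -/
lemma middle {c μ : ℝ} (hc : 0 < c) (hμ0 : 0 < μ) (hμ1 : μ < 1) :
    ∫ u in Ioc (-1 : ℝ) 1, oT c u ^ (1 - μ) / oD c u ≤ (2 + 1 / (2 * (1 - μ))) * oL c μ := by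
  have hΛ := one_le_oL hc.le μ
  have hcont : Continuous (fun u => oT c u ^ (1 - μ) / oD c u) :=
    ((continuous_oT c).rpow_const fun u => Or.inl (oT_pos hc u).ne').div (continuous_oD c)
      fun u => (oD_pos hc u).ne'
  rcases le_or_gt μ (1 / 2) with h | h
  · have h1 : ∫ u in Ioc (-1 : ℝ) 1, oT c u ^ (1 - μ) / oD c u ≤
        ∫ u in Ioc (-1 : ℝ) 1, oL c μ := by
      apply setIntegral_mono_on (hcont.integrableOn_Ioc) (by simp) measurableSet_Ioc
      intro u hu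
      have hD := oD_pos hc u
      have hT := oT_pos hc u
      have hu2 : u ^ 2 ≤ 1 := by
        have := hu.1; have := hu.2; nlinarith
      have a1 : oT c u ^ (1 - μ) ≤ (oD c u ^ 2) ^ (1 - μ) :=
        Real.rpow_le_rpow hT.le (oT_le hc u) (by linarith)
      have a2 : (oD c u ^ 2) ^ (1 - μ) / oD c u = (oD c u ^ 2) ^ (1 / 2 - μ) := by
        have : oD c u = (oD c u ^ 2) ^ (1 / 2 : ℝ) := by
          rw [← Real.rpow_natCast (oD c u) 2, ← Real.rpow_mul hD.le]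
          norm_num
        nth_rw 2 [this]
        rw [← Real.rpow_sub (by positivity)]
        congr 1
        ring
      calc oT c u ^ (1 - μ) / oD c u ≤ (oD c u ^ 2) ^ (1 - μ) / oD c u := by gcongr
        _ = (oD c u ^ 2) ^ (1 / 2 - μ) := a2
        _ ≤ (1 + 4 * c) ^ (1 / 2 - μ) := by
            apply Real.rpow_le_rpow (by positivity) _ (by linarith)
            rw [oD_sq hc]; linarith
        _ ≤ oL c μ := by
            unfold oL
            exact Real.rpow_le_rpow_of_exponent_le (by linarith) (le_max_left _ _)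
    refine h1.trans ?_
    rw [setIntegral_const]
    simp only [measureReal_def, Real.volume_Ioc, smul_eq_mul]
    rw [ENNReal.toReal_ofReal (by norm_num)]
    have : 0 < 1 / (2 * (1 - μ)) := by
      have : 0 < 1 - μ := by linarith
      positivity
    nlinarith
  · have h1μ : 0 < 1 - μ := by linarith
    have hder : ∀ u ∈ uIcc (-1 : ℝ) 1, HasDerivAt (fun u => oT c u ^ (1 - μ) / (2 * (1 - μ)))
        (oT c u ^ (1 - μ) / oD c u) u := by
      intro u _
      have hD := oD_pos hc u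
      have hT := oT_pos hc u
      have h2 := ((hasDerivAt_oT hc u).rpow_const (p := 1 - μ) (Or.inl hT.ne')).div_const
        (2 * (1 - μ))
      refine h2.congr_deriv ?_
      rw [Real.rpow_sub_one hT.ne']
      field_simp
    have h3 : ∫ u in Ioc (-1 : ℝ) 1, oT c u ^ (1 - μ) / oD c u =
        oT c 1 ^ (1 - μ) / (2 * (1 - μ)) - oT c (-1) ^ (1 - μ) / (2 * (1 - μ)) := by
      rw [← intervalIntegral.integral_of_le (by norm_num)]
      exact intervalIntegral.integral_eq_sub_of_hasDerivAt hder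
        (hcont.intervalIntegrable _ _)
    have hP := op_pos hc 1
    have hQ := op_pos hc (-1)
    set P := (1 + oD c 1) / 2 with hPdef
    set Q := (-1 + oD c (-1)) / 2 with hQdef
    have hPQ : P = Q + 1 := by
      rw [hPdef, hQdef, oD_neg]; ring
    have hT1 : oT c 1 ^ (1 - μ) = P ^ (2 * (1 - μ)) := by
      unfold oT
      rw [← hPdef, ← Real.rpow_natCast P 2, ← Real.rpow_mul hP.le]
      norm_num
    have hT2 : oT c (-1) ^ (1 - μ) = Q ^ (2 * (1 - μ)) := by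
      unfold oT
      rw [← hQdef, ← Real.rpow_natCast Q 2, ← Real.rpow_mul hQ.le]
      norm_num
    have h4 : P ^ (2 * (1 - μ)) ≤ Q ^ (2 * (1 - μ)) + 1 := by
      rw [hPQ]
      have := Real.rpow_add_le_add_rpow hQ.le zero_le_one (p := 2 * (1 - μ)) (by linarith)
        (by linarith)
      rwa [Real.one_rpow] at this
    rw [h3, hT1, hT2, ← sub_div]
    calc (P ^ (2 * (1 - μ)) - Q ^ (2 * (1 - μ))) / (2 * (1 - μ)) ≤ 1 / (2 * (1 - μ)) := by
          gcongr; linarith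
      _ ≤ 2 + 1 / (2 * (1 - μ)) := by linarith
      _ ≤ (2 + 1 / (2 * (1 - μ))) * oL c μ := by
          have : 0 < 1 / (2 * (1 - μ)) := by positivity
          nlinarith


/-- The integrand after the substitution is integrable. -/
lemma integrable_aK {c : ℝ} (hc : 0 < c) {lam κ : ℂ} (hl0 : 0 ≤ lam.re) (hl1 : lam.re ≤ 1)
    (hκ : 0 < κ.re) :
    Integrable (fun u : ℝ => (oT c u : ℂ) ^ lam / (oD c u : ℂ) * eK κ u) := by
  have h1 : Integrable (fun u : ℝ => Real.exp (-κ.re * u ^ 2)) := integrable_exp_neg_mul_sq hκ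
  have h2 : Integrable (fun u : ℝ => u ^ 2 * Real.exp (-κ.re * u ^ 2)) := by
    have := integrable_rpow_mul_exp_neg_mul_sq hκ (s := 2) (by norm_num)
    simpa using this
  set m := 2 * √c with hm
  have hm0 : 0 < m := by positivity
  have hDm : ∀ u, m ≤ oD c u := by
    intro u
    have hD := oD_pos hc u
    apply le_of_sq_le_sq _ hD.le
    rw [oD_sq hc, hm, mul_pow, Real.sq_sqrt hc.le]
    nlinarith [sq_nonneg u]
  have hcont : Continuous (fun u : ℝ => (oT c u : ℂ) ^ lam / (oD c u : ℂ) * eK κ u) := by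
    apply Continuous.mul _ (continuous_eK κ)
    apply Continuous.div _ (Complex.continuous_ofReal.comp (continuous_oD c))
    · intro u
      exact Complex.ofReal_ne_zero.mpr (oD_pos hc u).ne'
    · apply Continuous.cpow (Complex.continuous_ofReal.comp (continuous_oT c)) continuous_const
      intro u
      left
      simpa using oT_pos hc u
  refine Integrable.mono' (((h1.const_mul (1 + 4 * c)).add h2).const_mul m⁻¹)
    hcont.aestronglyMeasurable (Eventually.of_forall fun u => ?_)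
  have hT := oT_pos hc u
  have hD := oD_pos hc u
  rw [norm_mul, norm_div, Complex.norm_cpow_eq_rpow_re_of_pos hT, Complex.norm_real,
    Real.norm_of_nonneg hD.le, norm_eK]
  have h3 : oT c u ^ lam.re ≤ 1 + oT c u := by
    rcases le_or_gt (oT c u) 1 with h | h
    · have := Real.rpow_le_one hT.le h hl0
      linarith
    · have h4 : oT c u ^ lam.re ≤ oT c u ^ (1 : ℝ) := Real.rpow_le_rpow_of_exponent_le h.le hl1
      rw [Real.rpow_one] at h4
      linarith
  have h4 := oT_le hc u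
  rw [oD_sq hc] at h4
  have h5 := hDm u
  calc oT c u ^ lam.re / oD c u * Real.exp (-κ.re * u ^ 2)
      ≤ (1 + (u ^ 2 + 4 * c)) / m * Real.exp (-κ.re * u ^ 2) := by
        gcongr
        linarith
    _ = _ := by
        simp only [Pi.add_apply]
        field_simp
        ring

/-- The substituted form of the integral. -/
lemma osc_subst {c : ℝ} (hc : 0 < c) {lam κ : ℂ} :
    ∫ t in Ioi (0 : ℝ), (t : ℂ) ^ (lam - 1) * Complex.exp (-κ * ((t : ℂ) + (c : ℂ) ^ 2 / t)) =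
      2 * Complex.exp (-κ * (2 * c)) *
        ∫ u, (oT c u : ℂ) ^ lam / (oD c u : ℂ) * eK κ u := by
  rw [subst_oT hc, ← integral_const_mul]
  apply integral_congr_ae
  refine Eventually.of_forall fun u => ?_
  have hT := oT_pos hc u
  have hD := oD_pos hc u
  have hTC : (oT c u : ℂ) ≠ 0 := by exact_mod_cast hT.ne'
  have hDC : (oD c u : ℂ) ≠ 0 := by exact_mod_cast hD.ne'
  simp only
  have h1 : (oT c u : ℂ) + (c : ℂ) ^ 2 / (oT c u : ℂ) = (u : ℂ) ^ 2 + 2 * c := by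
    have := oT_inv hc u
    exact_mod_cast this
  rw [h1, Complex.cpow_sub _ _ hTC, Complex.cpow_one]
  unfold eK
  rw [show -κ * ((u : ℂ) ^ 2 + 2 * c) = -κ * (2 * c) + -κ * (u : ℂ) ^ 2 by ring, Complex.exp_add]
  push_cast
  field_simp

/-- **The bound of the oscillatory integral.** -/
theorem osc {c μ τ : ℝ} {κ : ℂ} (hc : 0 < c) (hμ0 : 0 < μ) (hμ1 : μ < 1) (hκ : 0 < κ.re)
    (hκ1 : ‖κ‖ = 1) :
    ‖∫ t in Ioi (0 : ℝ), (t : ℂ) ^ ((-μ : ℂ) + τ * Complex.I) *
      Complex.exp (-κ * ((t : ℂ) + (c : ℂ) ^ 2 / t))‖ ≤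
      (8 + 4 / μ + 1 / (1 - μ)) * (1 + |τ|) * oL c μ := by
  set lam : ℂ := ((1 - μ : ℝ) : ℂ) + τ * Complex.I with hlam
  have hre : lam.re = 1 - μ := by rw [hlam]; simp
  have hΛ := one_le_oL hc.le μ
  have h1μ : 0 < 1 - μ := by linarith
  have hnlam : ‖lam‖ ≤ 1 + |τ| := by
    rw [hlam]
    refine (norm_add_le _ _).trans ?_
    rw [Complex.norm_real, norm_mul, Complex.norm_I, mul_one, Complex.norm_real,
      Real.norm_of_nonneg h1μ.le, Real.norm_eq_abs]
    linarith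
  have e0 : ((-μ : ℂ) + τ * Complex.I) = lam - 1 := by rw [hlam]; push_cast; ring
  rw [e0, osc_subst hc]
  set F : ℝ → ℂ := fun u => (oT c u : ℂ) ^ lam / (oD c u : ℂ) * eK κ u with hF
  have hFi : Integrable F := integrable_aK hc (by rw [hre]; linarith) (by rw [hre]; linarith) hκ
  have hsplit : ∫ u, F u = (∫ u in Iic (-1 : ℝ), F u) + ((∫ u in Ioc (-1 : ℝ) 1, F u) +
      ∫ u in Ioi (1 : ℝ), F u) := by
    have a1 : ∫ u in Ioi (-1 : ℝ), F u =
        (∫ u in Ioc (-1 : ℝ) 1, F u) + ∫ u in Ioi (1 : ℝ), F u := by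
      rw [← setIntegral_union (Ioc_disjoint_Ioi le_rfl) measurableSet_Ioi
        hFi.integrableOn hFi.integrableOn, Ioc_union_Ioi_eq_Ioi (by norm_num)]
    rw [← a1, ← intervalIntegral.integral_Iic_add_Ioi hFi.integrableOn hFi.integrableOn]
  have hI3 : ‖∫ u in Ioi (1 : ℝ), F u‖ ≤
      (1 / 2) * ((1 + (2 * ‖lam‖ + 2) / (2 * μ)) * oL c μ) := by
    apply ibp2 (e := 1) hc hμ0 hμ1 (by simp) hre hκ hκ1 (Tf := oT c) _ (fun u _ => oT_pos hc u)
      (fun u _ => oT_le hc u) (continuous_oT c)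
    intro u _
    rw [one_mul]
    exact hasDerivAt_oT hc u
  have hI1 : ‖∫ u in Iic (-1 : ℝ), F u‖ ≤
      (1 / 2) * ((1 + (2 * ‖lam‖ + 2) / (2 * μ)) * oL c μ) := by
    have h1 : ∫ u in Iic (-1 : ℝ), F u =
        ∫ u in Ioi (1 : ℝ), ((fun u => oT c (-u)) u : ℂ) ^ lam / (oD c u : ℂ) * eK κ u := by
      have h2 := integral_comp_neg_Ioi (1 : ℝ) F
      rw [← h2]
      apply setIntegral_congr_fun measurableSet_Ioi
      intro u _
      simp only [hF]
      rw [oD_neg]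
      unfold eK
      push_cast
      rw [neg_sq]
    rw [h1]
    apply ibp2 (e := -1) hc hμ0 hμ1 (by simp) hre hκ hκ1 (Tf := fun u => oT c (-u)) _
      (fun u _ => oT_pos hc _) (fun u _ => ?_) ((continuous_oT c).comp continuous_neg)
    · intro u _
      have h3 := (hasDerivAt_oT hc (-u)).scomp u (hasDerivAt_neg u)
      have h4 : HasDerivAt (fun u => oT c (-u)) ((-1 : ℝ) • (2 * oT c (-u) / oD c (-u))) u := h3
      rw [oD_neg, smul_eq_mul] at h4
      exact h4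
    · rw [← oD_neg]
      exact oT_le hc (-u)
  have hI2 : ‖∫ u in Ioc (-1 : ℝ) 1, F u‖ ≤ (2 + 1 / (2 * (1 - μ))) * oL c μ := by
    refine le_trans ?_ (middle hc hμ0 hμ1)
    apply norm_integral_le_of_norm_le
    · apply Continuous.integrableOn_Ioc
      exact ((continuous_oT c).rpow_const fun u => Or.inl (oT_pos hc u).ne').div
        (continuous_oD c) fun u => (oD_pos hc u).ne'
    · refine Eventually.of_forall fun u => ?_
      have hT := oT_pos hc u
      have hD := oD_pos hc u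
      simp only [hF]
      rw [norm_mul, norm_div, Complex.norm_cpow_eq_rpow_re_of_pos hT, Complex.norm_real,
        Real.norm_of_nonneg hD.le, hre]
      have h2 := norm_eK_le hκ u
      have h3 : 0 ≤ oT c u ^ (1 - μ) / oD c u := by positivity
      nlinarith
  have hexp : ‖Complex.exp (-κ * (2 * c))‖ ≤ 1 := by
    rw [Complex.norm_exp]
    apply Real.exp_le_one_iff.mpr
    have : (-κ * (2 * c)).re = -(κ.re * (2 * c)) := by
      rw [show (-κ * (2 * c)) = -κ * ((2 * c : ℝ) : ℂ) by push_cast; ring,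
        Complex.re_mul_ofReal, Complex.neg_re]
      ring
    rw [this]
    have : 0 < κ.re * (2 * c) := by positivity
    linarith
  rw [norm_mul, norm_mul, Complex.norm_ofNat]
  have htot : ‖∫ u, F u‖ ≤ ((1 + (2 * ‖lam‖ + 2) / (2 * μ)) + (2 + 1 / (2 * (1 - μ)))) *
      oL c μ := by
    rw [hsplit]
    calc _ ≤ ‖∫ u in Iic (-1 : ℝ), F u‖ + (‖∫ u in Ioc (-1 : ℝ) 1, F u‖ +
          ‖∫ u in Ioi (1 : ℝ), F u‖) := (norm_add_le _ _).trans
            (add_le_add_right (norm_add_le _ _) _)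
      _ ≤ _ := by linarith
  have hτ := abs_nonneg τ
  calc 2 * ‖Complex.exp (-κ * (2 * c))‖ * ‖∫ u, F u‖
      ≤ 2 * 1 * (((1 + (2 * ‖lam‖ + 2) / (2 * μ)) + (2 + 1 / (2 * (1 - μ)))) * oL c μ) := by
        gcongr
    _ ≤ 2 * 1 * (((1 + (2 * (1 + |τ|) + 2) / (2 * μ)) + (2 + 1 / (2 * (1 - μ)))) * oL c μ) := by
        gcongr
    _ = (6 + (4 + 2 * |τ|) / μ + 1 / (1 - μ)) * oL c μ := by
        field_simp
        ring
    _ ≤ (8 + 4 / μ + 1 / (1 - μ)) * (1 + |τ|) * oL c μ := by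
        gcongr
        have a1 : 0 < 1 / (1 - μ) := by positivity
        have a2 : 0 < 1 / μ := by positivity
        have a3 : (4 + 2 * |τ|) / μ = 4 / μ + 2 * |τ| * (1 / μ) := by field_simp
        have a4 : 4 / μ = 4 * (1 / μ) := by field_simp
        rw [a3, a4]
        nlinarith [mul_nonneg hτ a1.le, mul_nonneg hτ a2.le]

/-- The exact value for `d = 1`. -/
lemma osc_one {c : ℝ} {κ : ℂ} (hc : 0 < c) (hκ : 0 < κ.re) (hκ1 : ‖κ‖ = 1) :
    ‖∫ t in Ioi (0 : ℝ), (t : ℂ) ^ ((-(1 / 2 : ℝ) : ℂ)) *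
      Complex.exp (-κ * ((t : ℂ) + (c : ℂ) ^ 2 / t))‖ ≤ √π := by
  set lam : ℂ := ((1 / 2 : ℝ) : ℂ) with hlam
  have e0 : (-(1 / 2 : ℝ) : ℂ) = lam - 1 := by rw [hlam]; push_cast; ring
  rw [e0, osc_subst hc]
  have hFi := integrable_aK hc (lam := lam) (κ := κ) (by rw [hlam]; simp)
    (by rw [hlam, Complex.ofReal_re]; norm_num) hκ
  have e1 : ∀ u : ℝ, (oT c u : ℂ) ^ lam / (oD c u : ℂ) * eK κ u =
      (1 / 2) * eK κ u + (u : ℂ) / (2 * (oD c u : ℂ)) * eK κ u := by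
    intro u
    have hT := oT_pos hc u
    have hD := oD_pos hc u
    have hDC : (oD c u : ℂ) ≠ 0 := by exact_mod_cast hD.ne'
    have h1 : (oT c u : ℂ) ^ lam = (((u + oD c u) / 2 : ℝ) : ℂ) := by
      rw [hlam, ← Complex.ofReal_cpow hT.le]
      congr 1
      rw [← Real.sqrt_eq_rpow]
      unfold oT
      rw [Real.sqrt_sq (op_pos hc u).le]
    rw [h1]
    push_cast
    field_simp
    ring
  have hE : Integrable (eK κ) := by
    have h1 : Integrable (fun u : ℝ => Real.exp (-κ.re * u ^ 2)) := integrable_exp_neg_mul_sq hκ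
    refine h1.mono' (continuous_eK κ).aestronglyMeasurable (Eventually.of_forall fun u => ?_)
    rw [norm_eK]
  have hE2 : Integrable (fun u : ℝ => (u : ℂ) / (2 * (oD c u : ℂ)) * eK κ u) := by
    have h1 := hFi.sub (hE.const_mul (1 / 2))
    refine h1.congr (Eventually.of_forall fun u => ?_)
    simp only [Pi.sub_apply]
    rw [e1]
    ring
  have hodd : ∫ u : ℝ, (u : ℂ) / (2 * (oD c u : ℂ)) * eK κ u = 0 := by
    have h1 := integral_neg_eq_self (fun u : ℝ => (u : ℂ) / (2 * (oD c u : ℂ)) * eK κ u) volume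
    have h2 : ∀ u : ℝ, ((-u : ℝ) : ℂ) / (2 * (oD c (-u) : ℂ)) * eK κ (-u) =
        -((u : ℂ) / (2 * (oD c u : ℂ)) * eK κ u) := by
      intro u
      rw [oD_neg]
      unfold eK
      push_cast
      rw [neg_sq]
      ring
    simp_rw [h2] at h1
    rw [integral_neg] at h1
    exact self_eq_neg.mp h1.symm
  have e2 : ∫ u, (oT c u : ℂ) ^ lam / (oD c u : ℂ) * eK κ u = (1 / 2) * (π / κ) ^ (1 / 2 : ℂ) := by
    simp_rw [e1]
    rw [integral_add (hE.const_mul _) hE2, hodd, add_zero, integral_const_mul]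
    congr 1
    exact integral_gaussian_complex hκ
  have hκ0 : κ ≠ 0 := by
    intro h; rw [h] at hκ; simp at hκ
  have h3 : ‖((π : ℂ) / κ) ^ (1 / 2 : ℂ)‖ = √π := by
    have h4 : (π : ℂ) / κ ≠ 0 := div_ne_zero (by exact_mod_cast Real.pi_ne_zero) hκ0
    rw [Complex.norm_cpow_of_ne_zero h4]
    have h5 : (1 / 2 : ℂ).im = 0 := by norm_num
    have h6 : (1 / 2 : ℂ).re = 1 / 2 := by norm_num
    rw [h5, h6, mul_zero, Real.exp_zero, div_one, norm_div, hκ1, div_one, Complex.norm_real,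
      Real.norm_of_nonneg Real.pi_pos.le, Real.sqrt_eq_rpow]
  have hexp : ‖Complex.exp (-κ * (2 * c))‖ ≤ 1 := by
    rw [Complex.norm_exp]
    apply Real.exp_le_one_iff.mpr
    have : (-κ * (2 * c)).re = -(κ.re * (2 * c)) := by
      rw [show (-κ * (2 * c)) = -κ * ((2 * c : ℝ) : ℂ) by push_cast; ring,
        Complex.re_mul_ofReal, Complex.neg_re]
      ring
    rw [this]
    have : 0 < κ.re * (2 * c) := by positivity
    linarith
  rw [norm_mul, norm_mul, e2, norm_mul, h3, Complex.norm_ofNat]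
  have h7 : ‖(1 / 2 : ℂ)‖ = 1 / 2 := by norm_num
  rw [h7]
  have h8 : 0 ≤ √π := Real.sqrt_nonneg _
  nlinarith

end MP497a12
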