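import Mathlib
import Pool.Agent.Lib.MP_497a12_mp.Defs

/-!
# Multiplication operators, translations and the Fourier transform on `L^2`
-/

open MeasureTheory Filter Topology Real
open scoped ENNReal ContDiff InnerProductSpace FourierTransform SchwartzMap

namespace MP497a12

variable {d : ℕ}

/-- The Hilbert space `L^2(R^d; C)`. -/
noncomputable abbrev HS (d : ℕ) := Lp ℂ 2 (volume : Measure (Sp d))

/-- Bounded measurable functions. -/
def Good (a : Sp d → ℂ) : Prop := Measurable a ∧ ∃ C : ℝ, ∀ x, ‖a x‖ ≤ C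

lemma Good.bound {a : Sp d → ℂ} (h : Good a) : ∃ C : ℝ, 0 < C ∧ ∀ x, ‖a x‖ ≤ C := by
  obtain ⟨-, C, hC⟩ := h
  exact ⟨|C| + 1, by positivity, fun x => (hC x).trans (by linarith [le_abs_self C])⟩

lemma Good.mul {a b : Sp d → ℂ} (ha : Good a) (hb : Good b) : Good (fun x => a x * b x) := by
  obtain ⟨A, hA0, hA⟩ := ha.bound
  obtain ⟨B, hB0, hB⟩ := hb.bound
  refine ⟨ha.1.mul hb.1, A * B, fun x => ?_⟩
  rw [norm_mul]
  exact mul_le_mul (hA x) (hB x) (norm_nonneg _) hA0.le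

lemma Good.add {a b : Sp d → ℂ} (ha : Good a) (hb : Good b) : Good (fun x => a x + b x) := by
  obtain ⟨A, hA0, hA⟩ := ha.bound
  obtain ⟨B, hB0, hB⟩ := hb.bound
  exact ⟨ha.1.add hb.1, A + B, fun x => (norm_add_le _ _).trans (add_le_add (hA x) (hB x))⟩

lemma Good.const (c : ℂ) : Good (fun _ : Sp d => c) := ⟨measurable_const, ‖c‖, fun _ => le_rfl⟩

lemma Good.const_mul {a : Sp d → ℂ} (ha : Good a) (c : ℂ) : Good (fun x => c * a x) :=
  (Good.const c).mul ha

lemma Good.neg {a : Sp d → ℂ} (ha : Good a) : Good (fun x => - a x) := by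
  refine ⟨ha.1.neg, ?_⟩
  obtain ⟨C, hC⟩ := ha.2
  exact ⟨C, fun x => by rw [norm_neg]; exact hC x⟩

lemma Good.sub {a b : Sp d → ℂ} (ha : Good a) (hb : Good b) : Good (fun x => a x - b x) := by
  simp_rw [sub_eq_add_neg]
  exact ha.add hb.neg

lemma Good.comp {a : Sp d → ℂ} (ha : Good a) {g : Sp d → Sp d} (hg : Measurable g) :
    Good (fun x => a (g x)) := by
  refine ⟨ha.1.comp hg, ?_⟩
  obtain ⟨C, hC⟩ := ha.2
  exact ⟨C, fun x => hC _⟩

lemma Good.conj {a : Sp d → ℂ} (ha : Good a) : Good (fun x => (starRingEnd ℂ) (a x)) := by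
  refine ⟨Complex.continuous_conj.measurable.comp ha.1, ?_⟩
  obtain ⟨C, hC⟩ := ha.2
  exact ⟨C, fun x => by rw [RCLike.norm_conj]; exact hC x⟩

lemma Good.memLp {a : Sp d → ℂ} (ha : Good a) {f : Sp d → ℂ} (hf : MemLp f 2) :
    MemLp (fun x => a x * f x) 2 := by
  obtain ⟨C, hC0, hC⟩ := ha.bound
  refine MemLp.of_le_mul (c := C) hf (ha.1.aestronglyMeasurable.mul hf.1) ?_
  refine Eventually.of_forall fun x => ?_
  rw [norm_mul]
  gcongr
  exact hC x

open Classical in
/-- The operator of multiplication by `a`. -/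
noncomputable def Mop (a : Sp d → ℂ) : HS d →L[ℂ] HS d :=
  if h : Good a then
    LinearMap.mkContinuous
      { toFun := fun f => (h.memLp (Lp.memLp f)).toLp _
        map_add' := fun f g => by
          rw [← MemLp.toLp_add]
          apply MemLp.toLp_congr
          filter_upwards [Lp.coeFn_add f g] with x hx
          rw [hx]
          simp only [Pi.add_apply]
          ring
        map_smul' := fun c f => by
          simp only [RingHom.id_apply]
          rw [← MemLp.toLp_const_smul]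
          apply MemLp.toLp_congr
          filter_upwards [Lp.coeFn_smul c f] with x hx
          rw [hx]
          simp only [Pi.smul_apply, smul_eq_mul]
          ring }
      (Classical.choose h.bound) (fun f => by
        apply Lp.norm_le_mul_norm_of_ae_le_mul
        filter_upwards [(h.memLp (Lp.memLp f)).coeFn_toLp] with x hx
        change ‖((h.memLp (Lp.memLp f)).toLp _ : HS d) x‖ ≤ _
        rw [hx, norm_mul]
        gcongr
        exact (Classical.choose_spec h.bound).2 x)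
  else 0

lemma Mop_coe {a : Sp d → ℂ} (h : Good a) (f : HS d) : Mop a f =ᵐ[volume] fun x => a x * f x := by
  have : Mop a f = (h.memLp (Lp.memLp f)).toLp _ := by
    unfold Mop
    rw [dif_pos h]
    rfl
  rw [this]
  exact MemLp.coeFn_toLp _

lemma Mop_norm_le {a : Sp d → ℂ} (h : Good a) {C : ℝ} (hC : ∀ x, ‖a x‖ ≤ C) (f : HS d) :
    ‖Mop a f‖ ≤ C * ‖f‖ := by
  apply Lp.norm_le_mul_norm_of_ae_le_mul
  filter_upwards [Mop_coe h f] with x hx
  rw [hx, norm_mul]
  gcongr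
  exact hC x

lemma Mop_ext {f g : HS d} (h : f =ᵐ[volume] g) : f = g := Lp.ext h

lemma Mop_mul {a b : Sp d → ℂ} (ha : Good a) (hb : Good b) (f : HS d) :
    Mop a (Mop b f) = Mop (fun x => a x * b x) f := by
  apply Lp.ext
  filter_upwards [Mop_coe ha (Mop b f), Mop_coe hb f, Mop_coe (ha.mul hb) f] with x h1 h2 h3
  rw [h1, h2, h3]; ring

lemma Mop_comm {a b : Sp d → ℂ} (ha : Good a) (hb : Good b) (f : HS d) :
    Mop a (Mop b f) = Mop b (Mop a f) := by
  rw [Mop_mul ha hb, Mop_mul hb ha]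
  congr 2
  funext x; ring

lemma Mop_add {a b : Sp d → ℂ} (ha : Good a) (hb : Good b) (f : HS d) :
    Mop (fun x => a x + b x) f = Mop a f + Mop b f := by
  apply Lp.ext
  filter_upwards [Mop_coe ha f, Mop_coe hb f, Mop_coe (ha.add hb) f,
    Lp.coeFn_add (Mop a f) (Mop b f)] with x h1 h2 h3 h4
  rw [h3, h4, Pi.add_apply, h1, h2]; ring

lemma Mop_sub {a b : Sp d → ℂ} (ha : Good a) (hb : Good b) (f : HS d) :
    Mop (fun x => a x - b x) f = Mop a f - Mop b f := by
  apply Lp.ext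
  filter_upwards [Mop_coe ha f, Mop_coe hb f, Mop_coe (ha.sub hb) f,
    Lp.coeFn_sub (Mop a f) (Mop b f)] with x h1 h2 h3 h4
  rw [h3, h4, Pi.sub_apply, h1, h2]; ring

lemma Mop_const_mul {a : Sp d → ℂ} (ha : Good a) (c : ℂ) (f : HS d) :
    Mop (fun x => c * a x) f = c • Mop a f := by
  apply Lp.ext
  filter_upwards [Mop_coe ha f, Mop_coe (ha.const_mul c) f, Lp.coeFn_smul c (Mop a f)]
    with x h1 h2 h3
  rw [h2, h3, Pi.smul_apply, h1, smul_eq_mul]; ring

lemma Mop_one (f : HS d) : Mop (fun _ => 1) f = f := by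
  apply Lp.ext
  filter_upwards [Mop_coe (Good.const 1) f] with x h1
  rw [h1, one_mul]

lemma Mop_eq_one {a : Sp d → ℂ} (h : ∀ x, a x = 1) (f : HS d) : Mop a f = f := by
  have : a = fun _ => 1 := funext h
  rw [this, Mop_one]

lemma isUnit_Mop {a b : Sp d → ℂ} (ha : Good a) (hb : Good b) (hab : ∀ x, a x * b x = 1) :
    IsUnit (Mop a) := by
  refine ⟨⟨Mop a, Mop b, ?_, ?_⟩, rfl⟩
  · ext1 f
    change Mop a (Mop b f) = f
    rw [Mop_mul ha hb, Mop_eq_one hab]
  · ext1 f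
    change Mop b (Mop a f) = f
    rw [Mop_mul hb ha, Mop_eq_one (fun x => by rw [mul_comm]; exact hab x)]

lemma inner_eq (f g : HS d) : ⟪f, g⟫_ℂ = ∫ x, (starRingEnd ℂ) (f x) * g x := by
  rw [L2.inner_def]
  apply integral_congr_ae
  refine Eventually.of_forall fun x => ?_
  simp only [RCLike.inner_apply]
  ring

lemma inner_Mop {a : Sp d → ℂ} (ha : Good a) (f g : HS d) :
    ⟪f, Mop a g⟫_ℂ = ∫ x, (starRingEnd ℂ) (f x) * (a x * g x) := by
  rw [inner_eq]
  apply integral_congr_ae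
  filter_upwards [Mop_coe ha g] with x hx
  rw [hx]

lemma inner_Mop_left {a : Sp d → ℂ} (ha : Good a) (f g : HS d) :
    ⟪Mop a f, g⟫_ℂ = ⟪f, Mop (fun x => (starRingEnd ℂ) (a x)) g⟫_ℂ := by
  rw [inner_Mop ha.conj, inner_eq]
  apply integral_congr_ae
  filter_upwards [Mop_coe ha f] with x hx
  rw [hx, map_mul]; ring

/-- Translations. -/
noncomputable def Tr (θ : Sp d) : HS d →ₗᵢ[ℂ] HS d :=
  Lp.compMeasurePreservingₗᵢ ℂ (fun ξ => ξ - θ) (measurePreserving_sub_right volume θ)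

lemma Tr_coe (θ : Sp d) (f : HS d) : Tr θ f =ᵐ[volume] fun ξ => f (ξ - θ) :=
  Lp.coeFn_compMeasurePreserving f (measurePreserving_sub_right volume θ)

lemma ae_sub {p : Sp d → Prop} (θ : Sp d) (h : ∀ᵐ x, p x) : ∀ᵐ x, p (x - θ) :=
  (measurePreserving_sub_right volume θ).quasiMeasurePreserving.ae h

lemma Tr_Mop {a : Sp d → ℂ} (ha : Good a) (θ : Sp d) (f : HS d) :
    Tr θ (Mop a f) = Mop (fun ξ => a (ξ - θ)) (Tr θ f) := by
  apply Lp.ext
  have h1 := ae_sub θ (Mop_coe ha f)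
  filter_upwards [Tr_coe θ (Mop a f), h1, Mop_coe (ha.comp (measurable_id'.sub_const θ)) (Tr θ f),
    Tr_coe θ f] with x h2 h3 h4 h5
  rw [h2, h3, h4, h5]

lemma Tr_Tr (θ θ' : Sp d) (f : HS d) : Tr θ (Tr θ' f) = Tr (θ + θ') f := by
  apply Lp.ext
  have h1 := ae_sub θ (Tr_coe θ' f)
  filter_upwards [Tr_coe θ (Tr θ' f), h1, Tr_coe (θ + θ') f] with x h2 h3 h4
  rw [h2, h3, h4, sub_sub]

lemma Tr_zero (f : HS d) : Tr 0 f = f := by
  apply Lp.ext
  filter_upwards [Tr_coe 0 f] with x h2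
  rw [h2, sub_zero]

/-- The Fourier transform. -/
noncomputable def Fo : HS d ≃ₗᵢ[ℂ] HS d := Lp.fourierTransformₗᵢ (Sp d) ℂ

lemma Fo_schwartz (f : 𝓢(Sp d, ℂ)) : Fo (f.toLp 2) = (𝓕 f).toLp 2 :=
  SchwartzMap.toLp_fourier_eq f

/-- Duality. -/
lemma Fo_dual (f : HS d) (g : 𝓢(Sp d, ℂ)) : ∫ x, g x * Fo f x = ∫ x, (𝓕 g) x * f x := by
  have h1 := Lp.fourier_toTemperedDistribution_eq f
  have h2 := congrArg (fun T : 𝓢'(Sp d, ℂ) => T g) h1
  simp only [TemperedDistribution.fourier_apply, Lp.toTemperedDistribution_apply,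
    smul_eq_mul] at h2
  exact h2.symm

/-- The `L^2` Fourier transform of an integrable function is the Fourier integral. -/
lemma Fo_toLp {f : Sp d → ℂ} (h1 : Integrable f) (h2 : MemLp f 2) :
    Fo (h2.toLp f) =ᵐ[volume] 𝓕 f := by
  have hc : Continuous (𝓕 f) :=
    VectorFourier.fourierIntegral_continuous Real.continuous_fourierChar
      (by exact continuous_inner) h1
  apply ae_eq_of_integral_contDiff_smul_eq
    ((Lp.memLp (Fo (h2.toLp f))).locallyIntegrable one_le_two) hc.locallyIntegrable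
  intro g hg hgs
  have hg' : ContDiff ℝ ∞ (fun x => (g x : ℂ)) := Complex.ofRealCLM.contDiff.comp hg
  have hgs' : HasCompactSupport (fun x => (g x : ℂ)) := hgs.comp_left (g := Complex.ofReal) rfl
  set G : 𝓢(Sp d, ℂ) := hgs'.toSchwartzMap hg' with hG
  have e1 := Fo_dual (h2.toLp f) G
  have e2 : ∫ x, (𝓕 G) x * (h2.toLp f) x = ∫ x, (𝓕 G) x * f x := by
    apply integral_congr_ae
    filter_upwards [h2.coeFn_toLp] with x hx
    rw [hx]
  have e3 : ∫ x, (𝓕 (G : Sp d → ℂ)) x • f x = ∫ x, G x • (𝓕 f) x := by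
    have := VectorFourier.integral_fourierIntegral_smul_eq_flip (L := innerₗ (Sp d))
      (μ := volume) (ν := volume) Real.continuous_fourierChar continuous_inner G.integrable h1
    rw [flip_innerₗ] at this
    exact this
  have e4 : ∫ x, G x • (𝓕 f) x = ∫ x, g x • (𝓕 f) x := rfl
  have e5 : ∫ x, G x * Fo (h2.toLp f) x = ∫ x, g x • Fo (h2.toLp f) x := rfl
  rw [← e5, e1, e2, ← e4, ← e3]
  rfl

end MP497a12
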