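import Mathlib
import Pool.Agent.Lib.MP_497a12_mp.GFour

/-!
# Characters and convolution operators
-/

open MeasureTheory Filter Topology Real
open scoped ENNReal ContDiff InnerProductSpace FourierTransform SchwartzMap

namespace MP497a12

variable {d : ℕ}

/-- The character `x ↦ exp (2 π i θ·x)`. -/
noncomputable def ch (θ : Sp d) (x : Sp d) : ℂ :=
  Complex.exp (2 * π * ⟪θ, x⟫_ℝ * Complex.I)

lemma continuous_ch : Continuous (fun p : Sp d × Sp d => ch p.1 p.2) := by
  unfold ch
  fun_prop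

lemma norm_ch (θ x : Sp d) : ‖ch θ x‖ = 1 := by
  unfold ch
  rw [show (2 * π * ⟪θ, x⟫_ℝ * Complex.I : ℂ) = ((2 * π * ⟪θ, x⟫_ℝ : ℝ) : ℂ) * Complex.I by
    push_cast; ring]
  exact Complex.norm_exp_ofReal_mul_I _

lemma continuous_ch_right (θ : Sp d) : Continuous (ch θ) := by
  unfold ch
  fun_prop

lemma good_ch (θ : Sp d) : Good (ch θ) :=
  ⟨(continuous_ch_right θ).measurable, 1, fun x => (norm_ch θ x).le⟩

lemma ch_add_left (θ θ' x : Sp d) : ch (θ + θ') x = ch θ x * ch θ' x := by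
  unfold ch
  rw [← Complex.exp_add, inner_add_left]
  congr 1
  push_cast; ring

lemma ch_symm (θ x : Sp d) : ch θ x = ch x θ := by
  unfold ch
  rw [real_inner_comm]

lemma ch_zero (x : Sp d) : ch 0 x = 1 := by
  unfold ch; simp

lemma ch_neg_mul (θ x : Sp d) : ch (-θ) x * ch θ x = 1 := by
  rw [← ch_add_left, neg_add_cancel, ch_zero]

lemma ch_mul_neg (θ x : Sp d) : ch θ x * ch (-θ) x = 1 := by
  rw [mul_comm, ch_neg_mul]

lemma conj_ch (θ x : Sp d) : (starRingEnd ℂ) (ch θ x) = ch (-θ) x := by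
  unfold ch
  rw [← Complex.exp_conj]
  congr 1
  simp only [map_mul, Complex.conj_I, Complex.conj_ofReal, map_ofNat]
  rw [inner_neg_left]
  push_cast; ring

lemma fourier_eq_ch (f : Sp d → ℂ) (ξ : Sp d) : 𝓕 f ξ = ∫ v, ch (-ξ) v * f v := by
  rw [Real.fourier_eq']
  apply integral_congr_ae
  refine Eventually.of_forall fun v => ?_
  simp only [smul_eq_mul]
  congr 1
  unfold ch
  congr 1
  rw [inner_neg_left, real_inner_comm]
  push_cast; ring

/-- Induction over a dense set. -/
lemma dense_induction {p : HS d → Prop} (hc : IsClosed {f | p f})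
    (h : ∀ (f : Sp d → ℂ) (_ : Integrable f) (h2 : MemLp f 2), p (h2.toLp f)) (f : HS d) :
    p f := by
  apply DenseRange.induction_on (p := p)
    (SchwartzMap.denseRange_toLpCLM (p := 2) ENNReal.ofNat_ne_top) f hc
  intro g
  exact h g g.integrable (g.memLp 2 volume)

lemma integrable_ch_mul {f : Sp d → ℂ} (hf : Integrable f) (θ : Sp d) :
    Integrable (fun x => ch θ x * f x) := by
  refine hf.bdd_mul (c := 1) (continuous_ch_right θ).aestronglyMeasurable ?_
  exact Eventually.of_forall fun x => (norm_ch θ x).le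

/-- Modulation becomes translation. -/
lemma Fo_ch (θ : Sp d) (f : HS d) : Fo (Mop (ch θ) f) = Tr θ (Fo f) := by
  refine dense_induction (p := fun f => Fo (Mop (ch θ) f) = Tr θ (Fo f)) ?_ ?_ f
  · apply isClosed_eq
    · exact (LinearIsometryEquiv.continuous _).comp (Mop (ch θ)).continuous
    · exact (LinearIsometry.continuous _).comp (LinearIsometryEquiv.continuous _)
  · intro f h1 h2
    have h3 : MemLp (fun x => ch θ x * f x) 2 := (good_ch θ).memLp h2
    have e1 : Mop (ch θ) (h2.toLp f) = h3.toLp _ := by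
      apply Lp.ext
      filter_upwards [Mop_coe (good_ch θ) (h2.toLp f), h3.coeFn_toLp, h2.coeFn_toLp]
        with x a1 a2 a3
      rw [a1, a2, a3]
    rw [e1]
    apply Lp.ext
    have h4 := ae_sub θ (Fo_toLp h1 h2)
    filter_upwards [Fo_toLp (integrable_ch_mul h1 θ) h3, Tr_coe θ (Fo (h2.toLp f)), h4]
      with ξ a1 a2 a3
    rw [a1, a2, a3, fourier_eq_ch, fourier_eq_ch]
    apply integral_congr_ae
    refine Eventually.of_forall fun v => ?_
    simp only
    rw [← mul_assoc, ← ch_add_left]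
    congr 2
    abel

/-- Translation becomes modulation. -/
lemma Fo_Tr (y : Sp d) (f : HS d) : Fo (Tr y f) = Mop (ch (-y)) (Fo f) := by
  refine dense_induction (p := fun f => Fo (Tr y f) = Mop (ch (-y)) (Fo f)) ?_ ?_ f
  · apply isClosed_eq
    · exact (LinearIsometryEquiv.continuous _).comp (LinearIsometry.continuous _)
    · exact (Mop (ch (-y))).continuous.comp (LinearIsometryEquiv.continuous _)
  · intro f h1 h2
    have h3 : MemLp (fun x => f (x - y)) 2 :=
      h2.comp_measurePreserving (measurePreserving_sub_right volume y)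
    have e1 : Tr y (h2.toLp f) = h3.toLp _ := by
      apply Lp.ext
      have := ae_sub y h2.coeFn_toLp
      filter_upwards [Tr_coe y (h2.toLp f), h3.coeFn_toLp, this] with x a1 a2 a3
      rw [a1, a2, a3]
    rw [e1]
    apply Lp.ext
    filter_upwards [Fo_toLp (h1.comp_sub_right y) h3, Mop_coe (good_ch (-y)) (Fo (h2.toLp f)),
      Fo_toLp h1 h2] with ξ a1 a2 a3
    rw [a1, a2, a3, fourier_eq_ch, fourier_eq_ch, ← integral_const_mul]
    rw [← integral_sub_right_eq_self (fun v => ch (-y) ξ * (ch (-ξ) v * f v)) y]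
    apply integral_congr_ae
    refine Eventually.of_forall fun v => ?_
    simp only
    rw [← mul_assoc]
    congr 1
    rw [ch_symm (-y) ξ, ch_symm (-ξ) (v - y)]
    unfold ch
    rw [← Complex.exp_add]
    congr 1
    simp only [inner_neg_left, inner_neg_right, inner_sub_left]
    rw [real_inner_comm v ξ, real_inner_comm y ξ]
    push_cast
    ring

/-- The convolution operator which corresponds to multiplication by `v` in position space. -/
noncomputable def Cop (v : Sp d → ℂ) : HS d →L[ℂ] HS d :=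
  Fo.toLinearIsometry.toContinuousLinearMap ∘L Mop v ∘L
    Fo.symm.toLinearIsometry.toContinuousLinearMap

lemma Cop_apply (v : Sp d → ℂ) (f : HS d) : Cop v f = Fo (Mop v (Fo.symm f)) := rfl

lemma Cop_norm_le {v : Sp d → ℂ} (h : Good v) {C : ℝ} (hC : ∀ x, ‖v x‖ ≤ C) (f : HS d) :
    ‖Cop v f‖ ≤ C * ‖f‖ := by
  rw [Cop_apply, LinearIsometryEquiv.norm_map]
  refine (Mop_norm_le h hC _).trans ?_
  rw [LinearIsometryEquiv.norm_map]

lemma fubini_aux1 {F h : Sp d → ℂ} (hF : Integrable F) (hh : Integrable h) :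
    Integrable (fun p : Sp d × Sp d => F p.1 * h p.2) (volume.prod volume) :=
  Integrable.mul_prod hF hh

lemma fubini_aux2 {F : Sp d × Sp d → ℂ} (hF : Integrable F (volume.prod volume))
    {c : Sp d × Sp d → ℂ} (h2 : Continuous c) (h3 : ∀ p, ‖c p‖ ≤ 1) :
    Integrable (fun p : Sp d × Sp d => c p * F p) (volume.prod volume) := by
  have h5 : AEStronglyMeasurable c (volume.prod volume) := h2.aestronglyMeasurable
  exact Integrable.bdd_mul (c := 1) hF h5 (Eventually.of_forall h3)

lemma continuous_ch' : Continuous (fun p : Sp d × Sp d => ch p.2 p.1) := by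
  unfold ch
  fun_prop

lemma fubini_aux {w u h : Sp d → ℂ} (hwu : Integrable (fun x => (starRingEnd ℂ) (w x) * u x))
    (hh : Integrable h) : Integrable (fun p : Sp d × Sp d =>
      (starRingEnd ℂ) (w p.1) * (h p.2 * ch p.2 p.1 * u p.1)) (volume.prod volume) := by
  have h3 := fubini_aux2 (fubini_aux1 hwu hh) continuous_ch' (fun p => (norm_ch p.2 p.1).le)
  have h4 : (fun p : Sp d × Sp d =>
      (starRingEnd ℂ) (w p.1) * (h p.2 * ch p.2 p.1 * u p.1)) = fun p : Sp d × Sp d =>
      ch p.2 p.1 * (((starRingEnd ℂ) (w p.1) * u p.1) * h p.2) := by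
    funext p; ring
  rw [h4]
  exact h3

/-- The convolution operator as a superposition of translations. -/
lemma inner_Cop {h : Sp d → ℂ} (hh : Integrable h) {v : Sp d → ℂ} (hv : Good v)
    (hvh : ∀ x, v x = ∫ θ, h θ * ch θ x) (w f : HS d) :
    ⟪w, Cop v f⟫_ℂ = ∫ θ, h θ * ⟪w, Tr θ f⟫_ℂ := by
  set w' := Fo.symm w with hw'
  set u := Fo.symm f with hu
  have hw : w = Fo w' := by rw [hw', LinearIsometryEquiv.apply_symm_apply]
  have hf : f = Fo u := by rw [hu, LinearIsometryEquiv.apply_symm_apply]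
  have e1 : ⟪w, Cop v f⟫_ℂ = ∫ x, (starRingEnd ℂ) (w' x) * (v x * u x) := by
    rw [Cop_apply, hw, LinearIsometryEquiv.inner_map_map, inner_Mop hv]
  have e2 : ∀ θ, ⟪w, Tr θ f⟫_ℂ = ∫ x, (starRingEnd ℂ) (w' x) * (ch θ x * u x) := by
    intro θ
    rw [hw, hf, ← Fo_ch, LinearIsometryEquiv.inner_map_map, inner_Mop (good_ch θ)]
  rw [e1]
  simp_rw [e2, hvh, ← integral_const_mul]
  have hwu : Integrable (fun x => (starRingEnd ℂ) (w' x) * u x) := by
    have h1 : MemLp (fun x => (starRingEnd ℂ) (w' x)) 2 := (Lp.memLp w').star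
    exact h1.integrable_mul (Lp.memLp u)
  have hint : Integrable (fun p : Sp d × Sp d =>
      (starRingEnd ℂ) (w' p.1) * (h p.2 * ch p.2 p.1 * u p.1)) (volume.prod volume) :=
    fubini_aux hwu hh
  have e3 : ∀ x, (starRingEnd ℂ) (w' x) * ((∫ θ, h θ * ch θ x) * u x) =
      ∫ θ, (starRingEnd ℂ) (w' x) * (h θ * ch θ x * u x) := by
    intro x
    rw [← integral_mul_const, ← integral_const_mul]
  simp_rw [e3]
  rw [integral_integral_swap hint]
  apply integral_congr_ae
  refine Eventually.of_forall fun θ => ?_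
  simp only
  apply integral_congr_ae
  refine Eventually.of_forall fun x => ?_
  simp only
  ring

/-- A norm bound for convolution operators between weights. -/
lemma weighted_bound {h : Sp d → ℂ} (hh : Integrable h) {v : Sp d → ℂ} (hv : Good v)
    (hvh : ∀ x, v x = ∫ θ, h θ * ch θ x) {a b : Sp d → ℂ} (ha : Good a) (hb : Good b)
    {S : Sp d → ℝ} (hS : ∀ θ ξ, ‖a ξ * b (ξ - θ)‖ ≤ S θ) {M : ℝ}
    (hint : Integrable (fun θ => ‖h θ‖ * S θ)) (hM : ∫ θ, ‖h θ‖ * S θ ≤ M) (f : HS d) :
    ‖Mop a (Cop v (Mop b f))‖ ≤ M * ‖f‖ := by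
  set y := Mop a (Cop v (Mop b f)) with hy
  have key : ‖y‖ ^ 2 ≤ M * ‖f‖ * ‖y‖ := by
    have e1 : (‖y‖ ^ 2 : ℝ) = ‖⟪y, y⟫_ℂ‖ := by
      rw [inner_self_eq_norm_sq_to_K, norm_pow]
      simp
    have e2 : ⟪y, y⟫_ℂ = ∫ θ, h θ * ⟪y, Mop a (Tr θ (Mop b f))⟫_ℂ := by
      have h1 : ⟪y, y⟫_ℂ = ⟪Mop (fun x => (starRingEnd ℂ) (a x)) y, Cop v (Mop b f)⟫_ℂ := by
        rw [inner_Mop_left ha.conj]
        congr 2
        simp [hy]
      rw [h1, inner_Cop hh hv hvh]
      apply integral_congr_ae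
      refine Eventually.of_forall fun θ => ?_
      simp only
      rw [inner_Mop_left ha.conj]
      simp
    rw [e1, e2]
    calc ‖∫ θ, h θ * ⟪y, Mop a (Tr θ (Mop b f))⟫_ℂ‖
        ≤ ∫ θ, (‖h θ‖ * S θ) * (‖f‖ * ‖y‖) := by
          apply norm_integral_le_of_norm_le (hint.mul_const _)
          refine Eventually.of_forall fun θ => ?_
          rw [norm_mul, mul_assoc]
          gcongr
          have h2 : Mop a (Tr θ (Mop b f)) = Mop (fun ξ => a ξ * b (ξ - θ)) (Tr θ f) := by
            rw [Tr_Mop hb, Mop_mul ha (hb.comp (measurable_id'.sub_const θ))]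
          have h3 : ‖Mop (fun ξ => a ξ * b (ξ - θ)) (Tr θ f)‖ ≤ S θ * ‖f‖ := by
            refine (Mop_norm_le (ha.mul (hb.comp (measurable_id'.sub_const θ))) (hS θ) _).trans ?_
            rw [LinearIsometry.norm_map]
          rw [h2]
          calc _ ≤ ‖y‖ * ‖Mop (fun ξ => a ξ * b (ξ - θ)) (Tr θ f)‖ := norm_inner_le_norm _ _
            _ ≤ ‖y‖ * (S θ * ‖f‖) := by gcongr
            _ = _ := by ring
      _ = (∫ θ, ‖h θ‖ * S θ) * (‖f‖ * ‖y‖) := integral_mul_const _ _
      _ ≤ M * (‖f‖ * ‖y‖) := by gcongr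
      _ = _ := by ring
  by_cases hy0 : ‖y‖ = 0
  · rw [hy0]
    have : 0 ≤ M := by
      refine le_trans ?_ hM
      apply integral_nonneg
      intro θ
      exact mul_nonneg (norm_nonneg _) ((norm_nonneg _).trans (hS θ 0))
    positivity
  · have hy1 : 0 < ‖y‖ := lt_of_le_of_ne (norm_nonneg _) (Ne.symm hy0)
    rw [pow_two] at key
    exact le_of_mul_le_mul_right key hy1

end MP497a12
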