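import Mathlib
import Pool.Agent.Lib.MP_497a12_mp.FOsc
import Pool.Agent.Lib.MP_497a12_mp.FGam
import Pool.Agent.Lib.MP_497a12_mp.GConv

/-!
# The kernel of the complex powers of the resolvent
-/

open MeasureTheory Filter Topology Real Set
open scoped InnerProductSpace

namespace MP497a12

variable {d : ℕ}

/-- The rotated symbol of `-Laplacian - z`, `z = - A κ²`. -/
noncomputable def fm (κ : ℂ) (A : ℝ) (ξ : Sp d) : ℂ :=
  (starRingEnd ℂ) κ * ((‖ξ‖ ^ 2 : ℝ) : ℂ) + A * κ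

lemma fm_re (κ : ℂ) (A : ℝ) (ξ : Sp d) : (fm κ A ξ).re = κ.re * (‖ξ‖ ^ 2 + A) := by
  unfold fm
  simp only [Complex.add_re, Complex.mul_re, Complex.conj_re, Complex.conj_im, Complex.ofReal_re,
    Complex.ofReal_im]
  ring

lemma fm_re_pos {κ : ℂ} (hκ : 0 < κ.re) {A : ℝ} (hA : 0 < A) (ξ : Sp d) : 0 < (fm κ A ξ).re := by
  rw [fm_re]; positivity

lemma fm_ne {κ : ℂ} (hκ : 0 < κ.re) {A : ℝ} (hA : 0 < A) (ξ : Sp d) : fm κ A ξ ≠ 0 := by
  intro h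
  have := fm_re_pos hκ hA ξ
  rw [h] at this
  simp at this

lemma continuous_fm (κ : ℂ) (A : ℝ) : Continuous (fm (d := d) κ A) := by
  unfold fm; fun_prop

/-- The complex powers of the resolvent symbol. -/
noncomputable def fS (κ : ℂ) (A : ℝ) (s : ℂ) (ξ : Sp d) : ℂ := (1 / fm κ A ξ) ^ s

lemma one_div_re_pos {z : ℂ} (hz : 0 < z.re) : 0 < (1 / z).re := by
  have hz0 : z ≠ 0 := by
    intro h; rw [h] at hz; simp at hz
  rw [one_div, Complex.inv_re]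
  have : 0 < Complex.normSq z := Complex.normSq_pos.mpr hz0
  positivity

lemma continuous_fS {κ : ℂ} (hκ : 0 < κ.re) {A : ℝ} (hA : 0 < A) (s : ℂ) :
    Continuous (fS (d := d) κ A s) := by
  unfold fS
  apply Continuous.cpow _ continuous_const
  · intro ξ
    left
    exact one_div_re_pos (fm_re_pos hκ hA ξ)
  · apply Continuous.div continuous_const (continuous_fm κ A)
    exact fun ξ => fm_ne hκ hA ξ

lemma norm_fS_le {κ : ℂ} (hκ : 0 < κ.re) {A : ℝ} (hA : 0 < A) {s : ℂ} (hs : 0 ≤ s.re) (ξ : Sp d) :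
    ‖fS κ A s ξ‖ ≤ (1 / (κ.re * (‖ξ‖ ^ 2 + A))) ^ s.re * Real.exp (π * |s.im|) := by
  unfold fS
  have h0 := fm_ne hκ hA ξ
  have h1 := fm_re_pos hκ hA ξ
  rw [Complex.norm_cpow_of_ne_zero (one_div_ne_zero h0), div_eq_mul_inv, ← Real.exp_neg]
  have h2 : ‖(1 / fm κ A ξ)‖ ≤ 1 / (κ.re * (‖ξ‖ ^ 2 + A)) := by
    rw [norm_div, norm_one]
    apply one_div_le_one_div_of_le (by positivity)
    rw [← fm_re]
    exact Complex.re_le_norm _
  have h3 : -(Complex.arg (1 / fm κ A ξ) * s.im) ≤ π * |s.im| := by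
    have h4 := Complex.abs_arg_le_pi (1 / fm κ A ξ)
    calc -(Complex.arg (1 / fm κ A ξ) * s.im) ≤ |Complex.arg (1 / fm κ A ξ) * s.im| :=
          neg_le_abs _
      _ = |Complex.arg (1 / fm κ A ξ)| * |s.im| := abs_mul _ _
      _ ≤ _ := by gcongr
  gcongr

lemma good_fS {κ : ℂ} (hκ : 0 < κ.re) {A : ℝ} (hA : 0 < A) {s : ℂ} (hs : 0 ≤ s.re) :
    Good (fS (d := d) κ A s) := by
  refine ⟨(continuous_fS hκ hA s).measurable, (1 / (κ.re * A)) ^ s.re * Real.exp (π * |s.im|),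
    fun ξ => (norm_fS_le hκ hA hs ξ).trans ?_⟩
  gcongr
  nlinarith [sq_nonneg ‖ξ‖]

lemma integrable_fS {κ : ℂ} (hκ : 0 < κ.re) {A : ℝ} (hA : 0 < A) {s : ℂ}
    (hs : (d : ℝ) < 2 * s.re) : Integrable (fS (d := d) κ A s) := by
  have hs0 : 0 < s.re := by
    have : (0 : ℝ) ≤ d := Nat.cast_nonneg d
    linarith
  have hint : Integrable (fun x : Sp d => ((1 : ℝ) + ‖x‖ ^ 2) ^ (-(2 * s.re) / 2)) := by
    apply integrable_rpow_neg_one_add_norm_sq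
    rw [finrank_euclideanSpace, Fintype.card_fin]
    exact hs
  set a := min 1 A with ha
  have ha0 : 0 < a := by positivity
  refine (hint.const_mul ((1 / (κ.re * a)) ^ s.re * Real.exp (π * |s.im|))).mono'
    (continuous_fS hκ hA s).aestronglyMeasurable (Eventually.of_forall fun ξ => ?_)
  refine (norm_fS_le hκ hA hs0.le ξ).trans ?_
  have h1 : (1 + ‖ξ‖ ^ 2) ^ (-(2 * s.re) / 2) = (1 / (1 + ‖ξ‖ ^ 2)) ^ s.re := by
    rw [one_div, Real.inv_rpow (by positivity), ← Real.rpow_neg (by positivity)]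
    congr 1; ring
  have h2 : 1 / (κ.re * (‖ξ‖ ^ 2 + A)) ≤ 1 / (κ.re * a) * (1 / (1 + ‖ξ‖ ^ 2)) := by
    rw [one_div_mul_one_div]
    apply one_div_le_one_div_of_le (by positivity)
    have h3 : a ≤ 1 := min_le_left _ _
    have h4 : a ≤ A := min_le_right _ _
    have h5 : a * (1 + ‖ξ‖ ^ 2) ≤ ‖ξ‖ ^ 2 + A := by nlinarith [sq_nonneg ‖ξ‖]
    calc κ.re * a * (1 + ‖ξ‖ ^ 2) = κ.re * (a * (1 + ‖ξ‖ ^ 2)) := by ring
      _ ≤ _ := by gcongr
  rw [h1]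
  calc (1 / (κ.re * (‖ξ‖ ^ 2 + A))) ^ s.re * Real.exp (π * |s.im|)
      ≤ (1 / (κ.re * a) * (1 / (1 + ‖ξ‖ ^ 2))) ^ s.re * Real.exp (π * |s.im|) := by gcongr
    _ = _ := by
        rw [Real.mul_rpow (by positivity) (by positivity)]
        ring

/-- The kernel. -/
noncomputable def fG (κ : ℂ) (A : ℝ) (s : ℂ) (x : Sp d) : ℂ := ∫ ξ, fS κ A s ξ * ch ξ x

/-- The Gaussian integral. -/
lemma gauss_int {κ : ℂ} (hκ : 0 < κ.re) (hκ1 : ‖κ‖ = 1) {A r : ℝ} (hr : 0 < r) (x : Sp d) :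
    ∫ ξ : Sp d, Complex.exp (-(fm κ A ξ * r)) * ch ξ x =
      (π / ((starRingEnd ℂ) κ * r)) ^ ((d : ℂ) / 2) *
        Complex.exp (-κ * (A * r + π ^ 2 * ‖x‖ ^ 2 / r)) := by
  have hb : 0 < ((starRingEnd ℂ) κ * r : ℂ).re := by
    rw [Complex.re_mul_ofReal, Complex.conj_re]; positivity
  have h1 := GaussianFourier.integral_cexp_neg_mul_sq_norm_add hb (2 * π * Complex.I) x
  rw [finrank_euclideanSpace, Fintype.card_fin] at h1
  have hκκ : (starRingEnd ℂ) κ * κ = 1 := by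
    rw [mul_comm, Complex.mul_conj, Complex.normSq_eq_norm_sq, hκ1]; norm_num
  have hκ0 : (starRingEnd ℂ) κ ≠ 0 := by
    intro h; rw [h, zero_mul] at hκκ; exact zero_ne_one hκκ
  have hrC : (r : ℂ) ≠ 0 := by exact_mod_cast hr.ne'
  have e1 : ∀ ξ : Sp d, Complex.exp (-(fm κ A ξ * r)) * ch ξ x =
      Complex.exp (-(A * κ * r)) * Complex.exp (-((starRingEnd ℂ) κ * r) * (‖ξ‖ : ℂ) ^ 2 +
        2 * π * Complex.I * (⟪x, ξ⟫_ℝ : ℂ)) := by
    intro ξ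
    unfold fm ch
    rw [← Complex.exp_add, ← Complex.exp_add, real_inner_comm]
    congr 1
    push_cast
    ring
  simp_rw [e1]
  rw [integral_const_mul, h1]
  rw [mul_left_comm, ← Complex.exp_add]
  congr 2
  have h2 : (2 * π * Complex.I) ^ 2 * (‖x‖ : ℂ) ^ 2 / (4 * ((starRingEnd ℂ) κ * r)) =
      -κ * (π ^ 2 * ‖x‖ ^ 2 / r) := by
    rw [div_eq_iff (by simp [hκ0, hrC])]
    have h3 : -κ * ((π : ℂ) ^ 2 * (‖x‖ : ℂ) ^ 2 / r) * (4 * ((starRingEnd ℂ) κ * r)) =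
        -4 * ((starRingEnd ℂ) κ * κ) * (π ^ 2 * ‖x‖ ^ 2) := by
      field_simp
    rw [h3, hκκ, mul_pow, mul_pow, Complex.I_sq]
    ring
  rw [h2]
  ring


/-- The joint integrand. -/
noncomputable def fK (κ : ℂ) (A : ℝ) (s : ℂ) (x : Sp d) (p : Sp d × ℝ) : ℂ :=
  (p.2 : ℂ) ^ (s - 1) * Complex.exp (-(fm κ A p.1 * p.2)) * ch p.1 x

lemma measurable_fK (κ : ℂ) (A : ℝ) (s : ℂ) (x : Sp d) : Measurable (fK κ A s x) := by
  unfold fK
  have h1 : Measurable (fun p : Sp d × ℝ => (p.2 : ℂ) ^ (s - 1)) :=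
    (Complex.continuous_ofReal.measurable.comp measurable_snd).pow_const _
  have h2 : Continuous (fun p : Sp d × ℝ => Complex.exp (-(fm κ A p.1 * p.2))) := by
    unfold fm; fun_prop
  have h3 : Continuous (fun p : Sp d × ℝ => ch p.1 x) := by
    unfold ch; fun_prop
  exact (h1.mul h2.measurable).mul h3.measurable

lemma norm_fK {κ : ℂ} {A : ℝ} {s : ℂ} (x ξ : Sp d) {r : ℝ} (hr : 0 < r) :
    ‖fK κ A s x (ξ, r)‖ =
      (r ^ (s.re - 1) * Real.exp (-(κ.re * A) * r)) * Real.exp (-(κ.re * r) * ‖ξ‖ ^ 2) := by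
  unfold fK
  simp only
  rw [norm_mul, norm_ch, mul_one, norm_gam s _ hr, fm_re, mul_assoc, ← Real.exp_add]
  congr 2
  ring

lemma integrable_fK {κ : ℂ} (hκ : 0 < κ.re) {A : ℝ} (hA : 0 < A) {s : ℂ}
    (hs : (d : ℝ) < 2 * s.re) (x : Sp d) :
    Integrable (fK κ A s x) (volume.prod (volume.restrict (Ioi (0 : ℝ)))) := by
  rw [integrable_prod_iff' (measurable_fK κ A s x).aestronglyMeasurable]
  constructor
  · rw [ae_restrict_iff' measurableSet_Ioi]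
    refine Eventually.of_forall fun r hr => ?_
    have hr0 : (0 : ℝ) < r := hr
    have hc : 0 < κ.re * r := by positivity
    have h1 := GaussianFourier.integrable_cexp_neg_mul_sq_norm_add (V := Sp d)
      (b := ((κ.re * r : ℝ) : ℂ)) (by rw [Complex.ofReal_re]; positivity) 0 0
    have h2 : Integrable (fun ξ : Sp d => Real.exp (-(κ.re * r) * ‖ξ‖ ^ 2)) := by
      refine h1.norm.congr (Eventually.of_forall fun ξ => ?_)
      simp only [zero_mul, add_zero]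
      rw [Complex.norm_exp]
      congr 1
      rw [show (-((κ.re * r : ℝ) : ℂ) * (‖ξ‖ : ℂ) ^ 2) = ((-(κ.re * r) * ‖ξ‖ ^ 2 : ℝ) : ℂ) by
        push_cast; ring, Complex.ofReal_re]
    refine (h2.const_mul (r ^ (s.re - 1) * Real.exp (-(κ.re * A) * r))).mono'
      ((measurable_fK κ A s x).comp measurable_prodMk_right).aestronglyMeasurable ?_
    exact Eventually.of_forall fun ξ => (norm_fK x ξ hr0).le
  · have h1 : ∀ r ∈ Ioi (0 : ℝ), ∫ ξ, ‖fK κ A s x (ξ, r)‖ =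
        (π / κ.re) ^ ((d : ℝ) / 2) * (r ^ (s.re - 1 - (d : ℝ) / 2) *
          Real.exp (-(κ.re * A) * r)) := by
      intro r hr
      have hr0 : (0 : ℝ) < r := hr
      simp_rw [norm_fK x _ hr0]
      rw [integral_const_mul, GaussianFourier.integral_rexp_neg_mul_sq_norm (by positivity),
        finrank_euclideanSpace, Fintype.card_fin]
      have h3 : r ^ (s.re - 1 - (d : ℝ) / 2) = r ^ (s.re - 1) / r ^ ((d : ℝ) / 2) :=
        Real.rpow_sub hr0 _ _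
      rw [h3, ← div_div, Real.div_rpow (by positivity) hr0.le]
      ring
    have h2 : IntegrableOn (fun r : ℝ => (π / κ.re) ^ ((d : ℝ) / 2) *
        (r ^ (s.re - 1 - (d : ℝ) / 2) * Real.exp (-(κ.re * A) * r))) (Ioi 0) :=
      (integrable_gam (by linarith) (by positivity)).const_mul _
    exact (integrableOn_congr_fun h1 measurableSet_Ioi).mpr h2

/-- The formula for the kernel. -/
lemma ker_formula {κ : ℂ} (hκ : 0 < κ.re) (hκ1 : ‖κ‖ = 1) {A : ℝ} (hA : 0 < A) {s : ℂ}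
    (hs : (d : ℝ) < 2 * s.re) (x : Sp d) :
    Complex.Gamma s * fG κ A s x = ∫ r in Ioi (0 : ℝ), (r : ℂ) ^ (s - 1) *
      ((π / ((starRingEnd ℂ) κ * r)) ^ ((d : ℂ) / 2) *
        Complex.exp (-κ * (A * r + π ^ 2 * ‖x‖ ^ 2 / r))) := by
  have hs0 : 0 < s.re := by
    have : (0 : ℝ) ≤ d := Nat.cast_nonneg d
    linarith
  have h1 : Complex.Gamma s * fG κ A s x = ∫ ξ, ∫ r in Ioi (0 : ℝ), fK κ A s x (ξ, r) := by
    unfold fG
    rw [← integral_const_mul]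
    apply integral_congr_ae
    refine Eventually.of_forall fun ξ => ?_
    simp only [fK]
    rw [integral_mul_const, gamma_ray hs0 (fm_re_pos hκ hA ξ)]
    unfold fS
    ring
  have h2 : Integrable (Function.uncurry fun (ξ : Sp d) (r : ℝ) => fK κ A s x (ξ, r))
      (volume.prod (volume.restrict (Ioi (0 : ℝ)))) := integrable_fK hκ hA hs x
  rw [h1, integral_integral_swap h2]
  apply setIntegral_congr_fun measurableSet_Ioi
  intro r hr
  have hr0 : (0 : ℝ) < r := hr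
  simp only [fK]
  rw [← gauss_int hκ hκ1 hr0 x, ← integral_const_mul]
  congr 1
  funext ξ
  ring

/-- The kernel in terms of the oscillatory integral. -/
lemma norm_ker {κ : ℂ} (hκ : 0 < κ.re) (hκ1 : ‖κ‖ = 1) {A : ℝ} (hA : 0 < A) {s : ℂ}
    (hs : (d : ℝ) < 2 * s.re) (x : Sp d) :
    ‖Complex.Gamma s * fG κ A s x‖ = π ^ ((d : ℝ) / 2) * A ^ ((d : ℝ) / 2 - s.re) *
      ‖∫ t in Ioi (0 : ℝ), (t : ℂ) ^ (s - d / 2 - 1) *
        Complex.exp (-κ * ((t : ℂ) + ((π * √A * ‖x‖ : ℝ) : ℂ) ^ 2 / t))‖ := by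
  have hκκ : (starRingEnd ℂ) κ * κ = 1 := by
    rw [mul_comm, Complex.mul_conj, Complex.normSq_eq_norm_sq, hκ1]; norm_num
  have hκ0 : (starRingEnd ℂ) κ ≠ 0 := by
    intro h; rw [h, zero_mul] at hκκ; exact zero_ne_one hκκ
  have hκn : ‖(starRingEnd ℂ) κ‖ = 1 := by rw [RCLike.norm_conj, hκ1]
  have hπ := Real.pi_pos
  set g : ℝ → ℂ := fun t => (t : ℂ) ^ (s - d / 2 - 1) *
        Complex.exp (-κ * ((t : ℂ) + ((π * √A * ‖x‖ : ℝ) : ℂ) ^ 2 / t)) with hg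
  have hz : ((π : ℂ) / (starRingEnd ℂ) κ) ≠ 0 := div_ne_zero (by exact_mod_cast hπ.ne') hκ0
  -- the integrand
  have e1 : ∀ r ∈ Ioi (0 : ℝ), (r : ℂ) ^ (s - 1) *
      ((π / ((starRingEnd ℂ) κ * r)) ^ ((d : ℂ) / 2) *
        Complex.exp (-κ * (A * r + π ^ 2 * ‖x‖ ^ 2 / r))) =
      ((π / (starRingEnd ℂ) κ) ^ ((d : ℂ) / 2) * (A : ℂ) ^ (-(s - d / 2 - 1))) * g (A * r) := by
    intro r hr
    have hr0 : (0 : ℝ) < r := hr
    have hrC : (r : ℂ) ≠ 0 := by exact_mod_cast hr0.ne'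
    have hAC : (A : ℂ) ≠ 0 := by exact_mod_cast hA.ne'
    have a1 : ((π : ℂ) / ((starRingEnd ℂ) κ * r)) ^ ((d : ℂ) / 2) =
        (π / (starRingEnd ℂ) κ) ^ ((d : ℂ) / 2) * (r : ℂ) ^ (-((d : ℂ) / 2)) := by
      have b1 : (π : ℂ) / ((starRingEnd ℂ) κ * r) = ((r⁻¹ : ℝ) : ℂ) * (π / (starRingEnd ℂ) κ) := by
        push_cast
        field_simp
      rw [b1, Complex.cpow_def_of_ne_zero (mul_ne_zero (by simpa using hrC) hz),
        Complex.log_ofReal_mul (by positivity) hz, Complex.cpow_def_of_ne_zero hz,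
        Complex.cpow_def_of_ne_zero hrC, ← Complex.exp_add, Real.log_inv]
      congr 1
      rw [← Complex.ofReal_log hr0.le]
      push_cast
      ring
    have a2 : (((A * r : ℝ)) : ℂ) ^ (s - d / 2 - 1) =
        (A : ℂ) ^ (s - d / 2 - 1) * (r : ℂ) ^ (s - d / 2 - 1) := by
      rw [Complex.ofReal_mul, Complex.mul_cpow_ofReal_nonneg hA.le hr0.le]
    have a3 : (A : ℂ) ^ (-(s - d / 2 - 1)) * (A : ℂ) ^ (s - d / 2 - 1) = 1 := by
      rw [← Complex.cpow_add _ _ hAC, neg_add_cancel, Complex.cpow_zero]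
    have a4 : (r : ℂ) ^ (s - 1) * (r : ℂ) ^ (-((d : ℂ) / 2)) = (r : ℂ) ^ (s - d / 2 - 1) := by
      rw [← Complex.cpow_add _ _ hrC]
      congr 1
      ring
    have a5 : (A : ℂ) * r + (π : ℂ) ^ 2 * ‖x‖ ^ 2 / r =
        ((A * r : ℝ) : ℂ) + ((π * √A * ‖x‖ : ℝ) : ℂ) ^ 2 / ((A * r : ℝ) : ℂ) := by
      have b1 : (π * √A * ‖x‖) ^ 2 = A * (π ^ 2 * ‖x‖ ^ 2) := by
        rw [mul_pow, mul_pow, Real.sq_sqrt hA.le]; ring
      have b2 : ((π * √A * ‖x‖ : ℝ) : ℂ) ^ 2 = ((A * (π ^ 2 * ‖x‖ ^ 2) : ℝ) : ℂ) := by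
        rw [← Complex.ofReal_pow, b1]
      rw [b2]
      push_cast
      field_simp
    simp only [hg]
    rw [a1, a2, ← a5]
    calc _ = (π / (starRingEnd ℂ) κ) ^ ((d : ℂ) / 2) *
          ((r : ℂ) ^ (s - 1) * (r : ℂ) ^ (-((d : ℂ) / 2))) *
          Complex.exp (-κ * (A * r + π ^ 2 * ‖x‖ ^ 2 / r)) := by ring
      _ = (π / (starRingEnd ℂ) κ) ^ ((d : ℂ) / 2) *
          (((A : ℂ) ^ (-(s - d / 2 - 1)) * (A : ℂ) ^ (s - d / 2 - 1)) *
            (r : ℂ) ^ (s - d / 2 - 1)) *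
          Complex.exp (-κ * (A * r + π ^ 2 * ‖x‖ ^ 2 / r)) := by rw [a4, a3, one_mul]
      _ = _ := by ring
  rw [ker_formula hκ hκ1 hA hs x, setIntegral_congr_fun measurableSet_Ioi e1,
    integral_const_mul, integral_comp_mul_left_Ioi g 0 hA, mul_zero, norm_mul, norm_mul, norm_smul]
  have n1 : ‖((π : ℂ) / (starRingEnd ℂ) κ) ^ ((d : ℂ) / 2)‖ = π ^ ((d : ℝ) / 2) := by
    rw [Complex.norm_cpow_of_ne_zero hz]
    have h5 : ((d : ℂ) / 2).im = 0 := by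
      rw [show (d : ℂ) / 2 = (((d : ℝ) / 2 : ℝ) : ℂ) by push_cast; ring, Complex.ofReal_im]
    have h6 : ((d : ℂ) / 2).re = (d : ℝ) / 2 := by
      rw [show (d : ℂ) / 2 = (((d : ℝ) / 2 : ℝ) : ℂ) by push_cast; ring, Complex.ofReal_re]
    rw [h5, h6, mul_zero, Real.exp_zero, div_one, norm_div, hκn, div_one, Complex.norm_real,
      Real.norm_of_nonneg hπ.le]
  have n2 : ‖(A : ℂ) ^ (-(s - d / 2 - 1))‖ = A ^ (-(s.re - (d : ℝ) / 2 - 1)) := by
    rw [Complex.norm_cpow_eq_rpow_re_of_pos hA]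
    congr 1
    simp only [Complex.neg_re, Complex.sub_re, Complex.one_re]
    rw [show (d : ℂ) / 2 = (((d : ℝ) / 2 : ℝ) : ℂ) by push_cast; ring, Complex.ofReal_re]
  rw [n1, n2, Real.norm_of_nonneg (by positivity)]
  have n3 : A ^ (-(s.re - (d : ℝ) / 2 - 1)) * A⁻¹ = A ^ ((d : ℝ) / 2 - s.re) := by
    rw [← Real.rpow_neg_one A, ← Real.rpow_add hA]
    congr 1
    ring
  rw [← n3]
  ring


lemma continuous_fG {κ : ℂ} (hκ : 0 < κ.re) {A : ℝ} (hA : 0 < A) {s : ℂ}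
    (hs : (d : ℝ) < 2 * s.re) : Continuous (fG (d := d) κ A s) := by
  unfold fG
  apply continuous_of_dominated (bound := fun ξ => ‖fS κ A s ξ‖)
  · intro x
    exact ((continuous_fS hκ hA s).mul
      ((by unfold ch; fun_prop : Continuous fun ξ : Sp d => ch ξ x))).aestronglyMeasurable
  · intro x
    refine Eventually.of_forall fun ξ => ?_
    rw [norm_mul, norm_ch, mul_one]
  · exact (integrable_fS hκ hA hs).norm
  · refine Eventually.of_forall fun ξ => ?_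
    exact continuous_const.mul (continuous_ch_right ξ)

lemma dense_ne (n : ℕ) : Dense {x : Sp (n + 1) | x ≠ 0} := dense_compl_singleton 0

/-- **The bound of the kernel.** -/
theorem ker_bound (n : ℕ) {σ : ℝ} (h1 : ((n + 1 : ℕ) : ℝ) / 2 < σ)
    (h2 : σ < ((n + 1 : ℕ) : ℝ) / 2 + 1) : ∃ C : ℝ, 0 < C ∧ ∀ (κ : ℂ) (A τ : ℝ) (x : Sp (n + 1)),
      0 < κ.re → ‖κ‖ = 1 → 0 < A →
      ‖Complex.Gamma (σ + τ * Complex.I) * fG κ A (σ + τ * Complex.I) x‖ ≤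
        C * (1 + |τ|) * A ^ (((n + 1 : ℕ) : ℝ) / 2 - σ) *
          (1 + 4 * (π * √A * ‖x‖)) ^ (max (σ - ((n + 1 : ℕ) : ℝ) / 2 - 1 / 2) 0) := by
  have hπ := Real.pi_pos
  set d : ℕ := n + 1 with hd
  set μ : ℝ := 1 + (d : ℝ) / 2 - σ with hμ
  have hμ0 : 0 < μ := by rw [hμ]; linarith
  have hμ1 : μ < 1 := by rw [hμ]; linarith
  have h1μ : 0 < 1 - μ := by linarith
  refine ⟨π ^ ((d : ℝ) / 2) * (8 + 4 / μ + 1 / (1 - μ)), by positivity, ?_⟩
  intro κ A τ x hκ hκ1 hA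
  have hre : ((σ : ℂ) + τ * Complex.I).re = σ := by simp
  have hs : (d : ℝ) < 2 * ((σ : ℂ) + τ * Complex.I).re := by rw [hre]; linarith
  -- away from the origin
  have key : ∀ y : Sp d, y ≠ 0 → ‖Complex.Gamma (σ + τ * Complex.I) *
      fG κ A (σ + τ * Complex.I) y‖ ≤ π ^ ((d : ℝ) / 2) * (8 + 4 / μ + 1 / (1 - μ)) *
        (1 + |τ|) * A ^ ((d : ℝ) / 2 - σ) *
          (1 + 4 * (π * √A * ‖y‖)) ^ (max (σ - (d : ℝ) / 2 - 1 / 2) 0) := by
    intro y hy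
    have hy0 : 0 < ‖y‖ := norm_pos_iff.mpr hy
    have hc : 0 < π * √A * ‖y‖ := by positivity
    rw [norm_ker hκ hκ1 hA hs y, hre]
    have h3 := osc (τ := τ) hc hμ0 hμ1 hκ hκ1
    have e1 : ((-μ : ℂ) + τ * Complex.I) = (σ + τ * Complex.I) - (d : ℂ) / 2 - 1 := by
      rw [hμ]; push_cast; ring
    rw [e1] at h3
    have e2 : oL (π * √A * ‖y‖) μ =
        (1 + 4 * (π * √A * ‖y‖)) ^ (max (σ - (d : ℝ) / 2 - 1 / 2) 0) := by
      unfold oL
      congr 2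
      rw [hμ]; ring
    rw [e2] at h3
    calc _ ≤ π ^ ((d : ℝ) / 2) * A ^ ((d : ℝ) / 2 - σ) * ((8 + 4 / μ + 1 / (1 - μ)) *
          (1 + |τ|) * (1 + 4 * (π * √A * ‖y‖)) ^ (max (σ - (d : ℝ) / 2 - 1 / 2) 0)) := by
          gcongr
      _ = _ := by ring
  -- closedness
  have hcl : IsClosed {y : Sp d | ‖Complex.Gamma (σ + τ * Complex.I) *
      fG κ A (σ + τ * Complex.I) y‖ ≤ π ^ ((d : ℝ) / 2) * (8 + 4 / μ + 1 / (1 - μ)) *
        (1 + |τ|) * A ^ ((d : ℝ) / 2 - σ) *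
          (1 + 4 * (π * √A * ‖y‖)) ^ (max (σ - (d : ℝ) / 2 - 1 / 2) 0)} := by
    apply isClosed_le
    · exact (continuous_const.mul (continuous_fG hκ hA hs)).norm
    · apply continuous_const.mul
      apply Continuous.rpow_const (by fun_prop)
      intro y
      left
      positivity
  have hdense : Dense {y : Sp d | ‖Complex.Gamma (σ + τ * Complex.I) *
      fG κ A (σ + τ * Complex.I) y‖ ≤ π ^ ((d : ℝ) / 2) * (8 + 4 / μ + 1 / (1 - μ)) *
        (1 + |τ|) * A ^ ((d : ℝ) / 2 - σ) *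
          (1 + 4 * (π * √A * ‖y‖)) ^ (max (σ - (d : ℝ) / 2 - 1 / 2) 0)} :=
    (dense_ne n).mono key
  have := hdense.closure_eq ▸ hcl.closure_eq
  have hx : x ∈ {y : Sp d | ‖Complex.Gamma (σ + τ * Complex.I) *
      fG κ A (σ + τ * Complex.I) y‖ ≤ π ^ ((d : ℝ) / 2) * (8 + 4 / μ + 1 / (1 - μ)) *
        (1 + |τ|) * A ^ ((d : ℝ) / 2 - σ) *
          (1 + 4 * (π * √A * ‖y‖)) ^ (max (σ - (d : ℝ) / 2 - 1 / 2) 0)} := by
    rw [← hcl.closure_eq, hdense.closure_eq]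
    exact mem_univ x
  exact hx

/-- The kernel of the resolvent for `d = 1`. -/
theorem ker_one {κ : ℂ} (hκ : 0 < κ.re) (hκ1 : ‖κ‖ = 1) {A : ℝ} (hA : 0 < A) (x : Sp 1) :
    ‖fG κ A 1 x‖ ≤ π / √A := by
  have hπ := Real.pi_pos
  have hs : ((1 : ℕ) : ℝ) < 2 * (1 : ℂ).re := by norm_num
  have key : ∀ y : Sp 1, y ≠ 0 → ‖fG κ A 1 y‖ ≤ π / √A := by
    intro y hy
    have hy0 : 0 < ‖y‖ := norm_pos_iff.mpr hy
    have hc : 0 < π * √A * ‖y‖ := by positivity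
    have h0 := norm_ker hκ hκ1 hA hs y
    rw [Complex.Gamma_one, one_mul] at h0
    rw [h0]
    have h3 := osc_one hc hκ hκ1
    have e1 : (-(1 / 2 : ℝ) : ℂ) = (1 : ℂ) - ((1 : ℕ) : ℂ) / 2 - 1 := by push_cast; ring
    rw [e1] at h3
    have e2 : π ^ (((1 : ℕ) : ℝ) / 2) = √π := by
      rw [Real.sqrt_eq_rpow]; norm_num
    have e3 : A ^ (((1 : ℕ) : ℝ) / 2 - (1 : ℂ).re) = (√A)⁻¹ := by
      rw [Real.sqrt_eq_rpow, ← Real.rpow_neg hA.le]; norm_num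
    rw [e2, e3]
    calc _ ≤ √π * (√A)⁻¹ * √π := by gcongr
      _ = (√π * √π) / √A := by ring
      _ = _ := by rw [Real.mul_self_sqrt hπ.le]
  have hcl : IsClosed {y : Sp 1 | ‖fG κ A 1 y‖ ≤ π / √A} :=
    isClosed_le (continuous_fG hκ hA hs).norm continuous_const
  have hdense : Dense {y : Sp 1 | ‖fG κ A 1 y‖ ≤ π / √A} := (dense_ne 0).mono key
  have hx : x ∈ {y : Sp 1 | ‖fG κ A 1 y‖ ≤ π / √A} := by
    rw [← hcl.closure_eq, hdense.closure_eq]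
    exact mem_univ x
  exact hx

end MP497a12
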