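import Mathlib
import Pool.Agent.Lib.MP_497a12_mp.FKer

/-!
# Bilinear estimates: the end point and analyticity
-/

open MeasureTheory Filter Topology Real Set
open scoped InnerProductSpace FourierTransform ENNReal

namespace MP497a12

variable {d : ℕ}

attribute [local irreducible] Mop Cop Fo

lemma ch_sub_right (ξ x y : Sp d) : ch ξ (x - y) = ch ξ x * ch (-ξ) y := by
  unfold ch
  rw [← Complex.exp_add, inner_sub_right, inner_neg_left]
  congr 1
  push_cast; ring

lemma Fo_coe {u : HS d} (hu : Integrable u) : Fo u =ᵐ[volume] fun ξ => ∫ x, ch (-ξ) x * u x := by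
  have h1 := Fo_toLp hu (Lp.memLp u)
  rw [Lp.toLp_coeFn] at h1
  filter_upwards [h1] with ξ hξ
  rw [hξ, fourier_eq_ch]

lemma continuous_hat {v : Sp d → ℂ} (hv : Integrable v) :
    Continuous (fun ξ : Sp d => ∫ y, ch (-ξ) y * v y) := by
  apply continuous_of_dominated (bound := fun y => ‖v y‖)
  · intro ξ
    exact (continuous_ch_right (-ξ)).aestronglyMeasurable.mul hv.aestronglyMeasurable
  · intro ξ
    refine Eventually.of_forall fun y => ?_
    rw [norm_mul, norm_ch, one_mul]
  · exact hv.norm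
  · refine Eventually.of_forall fun y => ?_
    apply Continuous.mul _ continuous_const
    unfold ch
    fun_prop

lemma norm_hat_le {v : Sp d → ℂ} (ξ : Sp d) : ‖∫ y, ch (-ξ) y * v y‖ ≤ ∫ y, ‖v y‖ := by
  refine (norm_integral_le_integral_norm _).trans (le_of_eq ?_)
  congr 1
  funext y
  rw [norm_mul, norm_ch, one_mul]

/-- **The `L¹` bound.** -/
theorem L1_bound {g : Sp d → ℂ} (hg : Good g) (hgi : Integrable g) {k : Sp d → ℂ}
    (hk : ∀ x, k x = ∫ ξ, g ξ * ch ξ x) {u v : HS d} (hu : Integrable u) (hv : Integrable v)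
    {B : Set (Sp d)} (huB : ∀ᵐ x, u x ≠ 0 → x ∈ B) (hvB : ∀ᵐ x, v x ≠ 0 → x ∈ B) {K : ℝ}
    (hK : ∀ x ∈ B, ∀ y ∈ B, ‖k (x - y)‖ ≤ K) :
    ‖⟪Fo u, Mop g (Fo v)⟫_ℂ‖ ≤ K * (∫ x, ‖u x‖) * ∫ x, ‖v x‖ := by
  set vh : Sp d → ℂ := fun ξ => ∫ y, ch (-ξ) y * v y with hvh
  have hvc : Continuous vh := continuous_hat hv
  set P : Sp d → ℂ := fun ξ => g ξ * vh ξ with hP
  have hPi : Integrable P := by
    have h1 : Integrable (fun ξ => vh ξ * g ξ) :=
      hgi.bdd_mul (c := ∫ y, ‖v y‖) hvc.aestronglyMeasurable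
        (Eventually.of_forall fun ξ => norm_hat_le ξ)
    refine h1.congr (Eventually.of_forall fun ξ => ?_)
    simp only [hP]; ring
  have e1 : ⟪Fo u, Mop g (Fo v)⟫_ℂ =
      ∫ ξ, ∫ x, (starRingEnd ℂ) (u x) * (ch ξ x * P ξ) := by
    rw [inner_Mop hg]
    apply integral_congr_ae
    filter_upwards [Fo_coe hu, Fo_coe hv] with ξ a1 a2
    rw [a1, a2, ← integral_conj, ← integral_mul_const]
    congr 1
    funext x
    rw [map_mul, conj_ch, neg_neg]
    simp only [hP, hvh]
    ring
  have hui : Integrable (fun x => (starRingEnd ℂ) (u x)) := by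
    refine hu.norm.mono' (Complex.continuous_conj.comp_aestronglyMeasurable
      hu.aestronglyMeasurable) (Eventually.of_forall fun x => ?_)
    rw [RCLike.norm_conj]
  have hint : Integrable (fun p : Sp d × Sp d => (starRingEnd ℂ) (u p.2) * (ch p.1 p.2 * P p.1))
      (volume.prod volume) := by
    have h3 := fubini_aux2 (fubini_aux1 hPi hui) continuous_ch (fun p => (norm_ch p.1 p.2).le)
    refine h3.congr (Eventually.of_forall fun p => ?_)
    simp only
    ring
  have e2 : ∀ x, ∫ ξ, ch ξ x * P ξ = ∫ y, v y * k (x - y) := by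
    intro x
    have h1 : ∀ ξ, ch ξ x * P ξ = ∫ y, ch ξ x * g ξ * (ch (-ξ) y * v y) := by
      intro ξ
      rw [integral_const_mul]
      simp only [hP, hvh]
      ring
    simp_rw [h1]
    have hint2 : Integrable (fun p : Sp d × Sp d => ch p.1 x * g p.1 * (ch (-p.1) p.2 * v p.2))
        (volume.prod volume) := by
      have hc : Continuous (fun p : Sp d × Sp d => ch p.1 x * ch (-p.1) p.2) := by
        unfold ch; fun_prop
      have h3 := fubini_aux2 (fubini_aux1 hgi hv) hc (fun p => by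
        rw [norm_mul, norm_ch, norm_ch, one_mul])
      refine h3.congr (Eventually.of_forall fun p => ?_)
      simp only
      ring
    rw [integral_integral_swap hint2]
    congr 1
    funext y
    rw [hk, ← integral_const_mul]
    congr 1
    funext ξ
    rw [ch_sub_right]
    ring
  rw [e1, integral_integral_swap hint]
  have e3 : ∀ x, ∫ ξ, (starRingEnd ℂ) (u x) * (ch ξ x * P ξ) =
      (starRingEnd ℂ) (u x) * ∫ y, v y * k (x - y) := by
    intro x
    rw [integral_const_mul, e2]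
  simp_rw [e3]
  calc ‖∫ x, (starRingEnd ℂ) (u x) * ∫ y, v y * k (x - y)‖
      ≤ ∫ x, ‖u x‖ * (K * ∫ y, ‖v y‖) := by
        apply norm_integral_le_of_norm_le (hu.norm.mul_const _)
        filter_upwards [huB] with x hx
        rw [norm_mul, RCLike.norm_conj]
        by_cases hux : u x = 0
        · rw [hux, norm_zero, zero_mul, zero_mul]
        · gcongr
          rw [← integral_const_mul]
          apply norm_integral_le_of_norm_le (hv.norm.const_mul _)
          filter_upwards [hvB] with y hy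
          rw [norm_mul]
          by_cases hvy : v y = 0
          · rw [hvy, norm_zero, zero_mul, mul_zero]
          · rw [mul_comm]
            gcongr
            exact hK x (hx hux) y (hy hvy)
    _ = _ := by
        rw [integral_mul_const]
        ring

/-- The bound for the derivative. -/
lemma log_bound {W δ : ℝ} (hδ : 0 < δ) {w s : ℂ} (hw0 : w ≠ 0) (hw : ‖w‖ ≤ W)
    (hs1 : δ ≤ s.re) (hs2 : s.re ≤ 3 * δ) {T : ℝ} (hs3 : |s.im| ≤ T) :
    ‖w ^ s * Complex.log w‖ ≤
      (1 / δ + (1 + W) ^ (3 * δ) * (1 + W + π)) * Real.exp (π * T) + π * Real.exp (π * T) := by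
  have hπ := Real.pi_pos
  have hw1 : 0 < ‖w‖ := norm_pos_iff.mpr hw0
  have h1 : ‖w ^ s‖ ≤ ‖w‖ ^ s.re * Real.exp (π * T) := by
    rw [Complex.norm_cpow_of_ne_zero hw0, div_eq_mul_inv, ← Real.exp_neg]
    gcongr
    have h4 := Complex.abs_arg_le_pi w
    calc -(Complex.arg w * s.im) ≤ |Complex.arg w * s.im| := neg_le_abs _
      _ = |Complex.arg w| * |s.im| := abs_mul _ _
      _ ≤ _ := by gcongr
  have h2 : ‖Complex.log w‖ ≤ |Real.log ‖w‖| + π := by
    have e : Complex.log w = (Real.log ‖w‖ : ℂ) + (Complex.arg w : ℂ) * Complex.I := by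
      rw [Complex.log]
    rw [e]
    refine (norm_add_le _ _).trans ?_
    rw [Complex.norm_real, norm_mul, Complex.norm_I, mul_one, Complex.norm_real, Real.norm_eq_abs,
      Real.norm_eq_abs]
    have := Complex.abs_arg_le_pi w
    linarith
  have h3 : ‖w‖ ^ s.re * (|Real.log ‖w‖| + π) ≤ 1 / δ + (1 + W) ^ (3 * δ) * (1 + W + π) + π := by
    have hW0 : 0 < W := lt_of_lt_of_le hw1 hw
    rcases le_or_gt ‖w‖ 1 with h | h
    · have a1 : ‖w‖ ^ s.re ≤ ‖w‖ ^ δ := Real.rpow_le_rpow_of_exponent_ge hw1 h hs1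
      have a2 := Real.abs_log_mul_self_rpow_lt ‖w‖ δ hw1 h hδ
      rw [abs_mul, abs_of_pos (by positivity : 0 < ‖w‖ ^ δ)] at a2
      have a3 : ‖w‖ ^ δ ≤ 1 := Real.rpow_le_one hw1.le h hδ.le
      have a4 : 0 ≤ (1 + W) ^ (3 * δ) * (1 + W + π) := by positivity
      calc ‖w‖ ^ s.re * (|Real.log ‖w‖| + π) ≤ ‖w‖ ^ δ * (|Real.log ‖w‖| + π) := by gcongr
        _ = |Real.log ‖w‖| * ‖w‖ ^ δ + ‖w‖ ^ δ * π := by ring
        _ ≤ 1 / δ + 1 * π := by gcongr
        _ ≤ _ := by linarith
    · have a1 : ‖w‖ ^ s.re ≤ (1 + W) ^ (3 * δ) := by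
        calc ‖w‖ ^ s.re ≤ ‖w‖ ^ (3 * δ) := Real.rpow_le_rpow_of_exponent_le h.le hs2
          _ ≤ _ := Real.rpow_le_rpow hw1.le (by linarith) (by positivity)
      have a2 : |Real.log ‖w‖| ≤ 1 + W := by
        rw [abs_of_nonneg (Real.log_nonneg h.le)]
        have := Real.log_le_self hw1.le
        linarith
      have a3 : 0 < 1 / δ := by positivity
      calc ‖w‖ ^ s.re * (|Real.log ‖w‖| + π) ≤ (1 + W) ^ (3 * δ) * (1 + W + π) := by gcongr
        _ ≤ _ := by linarith
  rw [norm_mul]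
  calc ‖w ^ s‖ * ‖Complex.log w‖ ≤ (‖w‖ ^ s.re * Real.exp (π * T)) * (|Real.log ‖w‖| + π) := by
        gcongr
    _ = (‖w‖ ^ s.re * (|Real.log ‖w‖| + π)) * Real.exp (π * T) := by ring
    _ ≤ (1 / δ + (1 + W) ^ (3 * δ) * (1 + W + π) + π) * Real.exp (π * T) := by gcongr
    _ = _ := by ring

/-- Differentiability of the family. -/
lemma diff_family {κ : ℂ} (hκ : 0 < κ.re) {A : ℝ} (hA : 0 < A) {P : Sp d → ℂ}
    (hP : Integrable P) {s : ℂ} (hs : 0 < s.re) :
    DifferentiableAt ℂ (fun s => ∫ ξ, P ξ * fS κ A s ξ) s := by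
  set δ := s.re / 2 with hδ
  have hδ0 : 0 < δ := by positivity
  set W := 1 / (κ.re * A) with hW
  have hw : ∀ ξ : Sp d, ‖1 / fm κ A ξ‖ ≤ W := by
    intro ξ
    rw [norm_div, norm_one, hW]
    apply one_div_le_one_div_of_le (by positivity)
    refine le_trans ?_ (Complex.re_le_norm _)
    rw [fm_re]
    nlinarith [sq_nonneg ‖ξ‖]
  set T := |s.im| + δ with hT
  have key := hasDerivAt_integral_of_dominated_loc_of_deriv_le
    (μ := (volume : Measure (Sp d))) (𝕜 := ℂ)
    (F := fun (s : ℂ) (ξ : Sp d) => P ξ * fS κ A s ξ)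
    (F' := fun (s : ℂ) (ξ : Sp d) => P ξ * (fS κ A s ξ * Complex.log (1 / fm κ A ξ)))
    (x₀ := s) (s := Metric.ball s δ)
    (bound := fun ξ => ‖P ξ‖ * ((1 / δ + (1 + W) ^ (3 * δ) * (1 + W + π)) * Real.exp (π * T) +
      π * Real.exp (π * T)))
    (Metric.ball_mem_nhds s hδ0) ?_ ?_ ?_ ?_ (hP.norm.mul_const _) ?_
  · exact key.2.differentiableAt
  · exact Eventually.of_forall fun x => hP.aestronglyMeasurable.mul
      (continuous_fS hκ hA x).aestronglyMeasurable
  · have h1 := (good_fS (d := d) hκ hA hs.le).bound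
    obtain ⟨C, -, hC⟩ := h1
    have h2 := hP.bdd_mul (c := C) (continuous_fS hκ hA s).aestronglyMeasurable
      (Eventually.of_forall hC)
    refine h2.congr (Eventually.of_forall fun ξ => ?_)
    simp only
    ring
  · apply hP.aestronglyMeasurable.mul
    apply Continuous.aestronglyMeasurable
    apply (continuous_fS hκ hA s).mul
    apply Continuous.clog
    · exact continuous_const.div (continuous_fm κ A) fun ξ => fm_ne hκ hA ξ
    · intro ξ
      left
      exact one_div_re_pos (fm_re_pos hκ hA ξ)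
  · refine Eventually.of_forall fun ξ x hx => ?_
    rw [Metric.mem_ball, dist_eq_norm] at hx
    have h1 := (Complex.abs_re_le_norm (x - s)).trans hx.le
    have h2 := (Complex.abs_im_le_norm (x - s)).trans hx.le
    rw [Complex.sub_re, abs_le] at h1
    rw [Complex.sub_im] at h2
    rw [norm_mul]
    gcongr
    unfold fS
    apply log_bound hδ0 (one_div_ne_zero (fm_ne hκ hA ξ)) (hw ξ) (by linarith [h1.1])
      (by linarith [h1.2])
    have h3 := abs_sub_abs_le_abs_sub x.im s.im
    linarith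
  · refine Eventually.of_forall fun ξ x _ => ?_
    apply HasDerivAt.const_mul
    unfold fS
    have h0 : (1 / fm κ A ξ) ≠ 0 := one_div_ne_zero (fm_ne hκ hA ξ)
    have h1 := (hasDerivAt_id x).const_cpow (c := 1 / fm κ A ξ) (Or.inl h0)
    simp only [id_eq, mul_one] at h1
    exact h1

/-- Continuity of the family up to the boundary. -/
lemma cont_family {κ : ℂ} (hκ : 0 < κ.re) {A : ℝ} (hA : 0 < A) {P : Sp d → ℂ}
    (hP : Integrable P) : ContinuousOn (fun s => ∫ ξ, P ξ * fS κ A s ξ) {s | 0 ≤ s.re} := by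
  intro s hs
  have hs0 : 0 ≤ s.re := hs
  set W := 1 / (κ.re * A) with hW
  set T := |s.im| + 1 with hT
  apply continuousWithinAt_of_dominated
    (bound := fun ξ => ‖P ξ‖ * ((1 + W) ^ (s.re + 1) * Real.exp (π * T)))
  · exact Eventually.of_forall fun x => hP.aestronglyMeasurable.mul
      (continuous_fS hκ hA x).aestronglyMeasurable
  · have h1 : ∀ᶠ x in 𝓝[{s : ℂ | 0 ≤ s.re}] s, x ∈ Metric.ball s 1 :=
      nhdsWithin_le_nhds (Metric.ball_mem_nhds s one_pos)
    filter_upwards [h1, self_mem_nhdsWithin] with x hx hx0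
    refine Eventually.of_forall fun ξ => ?_
    rw [Metric.mem_ball, dist_eq_norm] at hx
    have h1 := (Complex.abs_re_le_norm (x - s)).trans hx.le
    have h2 := (Complex.abs_im_le_norm (x - s)).trans hx.le
    rw [Complex.sub_re, abs_le] at h1
    rw [Complex.sub_im] at h2
    rw [norm_mul]
    gcongr
    refine (norm_fS_le hκ hA hx0 ξ).trans ?_
    have h3 := abs_sub_abs_le_abs_sub x.im s.im
    have h4 : |x.im| ≤ T := by linarith
    have h5 : 1 / (κ.re * (‖ξ‖ ^ 2 + A)) ≤ 1 + W := by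
      have : 1 / (κ.re * (‖ξ‖ ^ 2 + A)) ≤ W := by
        rw [hW]
        apply one_div_le_one_div_of_le (by positivity)
        nlinarith [sq_nonneg ‖ξ‖]
      linarith
    have hW0 : 0 < W := by positivity
    have hx0' : 0 ≤ x.re := hx0
    have h6 : (1 / (κ.re * (‖ξ‖ ^ 2 + A))) ^ x.re ≤ (1 + W) ^ (s.re + 1) := by
      calc (1 / (κ.re * (‖ξ‖ ^ 2 + A))) ^ x.re ≤ (1 + W) ^ x.re :=
            Real.rpow_le_rpow (by positivity) h5 hx0'
        _ ≤ _ := Real.rpow_le_rpow_of_exponent_le (by linarith) (by linarith [h1.2])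
    have hπ := Real.pi_pos
    gcongr
  · exact hP.norm.mul_const _
  · refine Eventually.of_forall fun ξ => ?_
    apply Continuous.continuousWithinAt
    apply continuous_const.mul
    unfold fS
    apply Continuous.const_cpow continuous_id
    left
    exact one_div_ne_zero (fm_ne hκ hA ξ)

end MP497a12
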