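import Mathlib
import Pool.Agent.Lib.MP_497a12_mp.FLin
import Pool.Agent.Lib.MP_497a12_mp.Hilb

/-!
# The bilinear estimate for step functions, by the three lines theorem
-/

open MeasureTheory Filter Topology Real Set
open scoped InnerProductSpace FourierTransform ENNReal

namespace MP497a12

variable {d : ℕ}

attribute [local irreducible] Mop Cop Fo

/-- Powers of step functions. -/
noncomputable def stp (J : Finset ℤ) (a : ℤ → ℝ) (E : ℤ → Set (Sp d)) (s : ℂ) (x : Sp d) : ℂ :=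
  ∑ j ∈ J, (E j).indicator (fun _ => (a j : ℂ) ^ s) x

/-- Step functions. -/
structure Stp (J : Finset ℤ) (a : ℤ → ℝ) (E : ℤ → Set (Sp d)) : Prop where
  meas : ∀ j ∈ J, MeasurableSet (E j)
  disj : ∀ i ∈ J, ∀ j ∈ J, i ≠ j → Disjoint (E i) (E j)
  fin : ∀ j ∈ J, volume (E j) < ⊤
  pos : ∀ j ∈ J, 0 < a j

variable {J : Finset ℤ} {a : ℤ → ℝ} {E : ℤ → Set (Sp d)}

lemma Stp.eq_on (h : Stp J a E) (s : ℂ) {j : ℤ} (hj : j ∈ J) {x : Sp d} (hx : x ∈ E j) :
    stp J a E s x = (a j : ℂ) ^ s := by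
  unfold stp
  rw [Finset.sum_eq_single_of_mem j hj, indicator_of_mem hx]
  intro i hi hij
  apply indicator_of_notMem
  intro hxi
  exact (h.disj i hi j hj hij).le_bot ⟨hxi, hx⟩

lemma stp_eq_zero (s : ℂ) {x : Sp d} (hx : ∀ j ∈ J, x ∉ E j) : stp J a E s x = 0 := by
  unfold stp
  apply Finset.sum_eq_zero
  intro j hj
  exact indicator_of_notMem (hx j hj) _

lemma stp_ne_zero {s : ℂ} {x : Sp d} (h : stp J a E s x ≠ 0) : ∃ j ∈ J, x ∈ E j := by
  by_contra hne
  push Not at hne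
  exact h (stp_eq_zero s hne)

/-- The sum of the powers. -/
noncomputable def ss (J : Finset ℤ) (a : ℤ → ℝ) (E : ℤ → Set (Sp d)) (q : ℝ) : ℝ :=
  ∑ j ∈ J, a j ^ q * (volume (E j)).toReal

lemma Stp.ss_nonneg (h : Stp J a E) (q : ℝ) : 0 ≤ ss J a E q := by
  unfold ss
  apply Finset.sum_nonneg
  intro j hj
  have := h.pos j hj
  positivity

lemma Stp.norm_sq (h : Stp J a E) (s : ℂ) (x : Sp d) :
    ‖stp J a E s x‖ ^ 2 = ∑ j ∈ J, (E j).indicator (fun _ => a j ^ (2 * s.re)) x := by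
  by_cases hx : ∃ j ∈ J, x ∈ E j
  · obtain ⟨j, hj, hxj⟩ := hx
    rw [h.eq_on s hj hxj, Finset.sum_eq_single_of_mem j hj, indicator_of_mem hxj,
      Complex.norm_cpow_eq_rpow_re_of_pos (h.pos j hj), ← Real.rpow_natCast,
      ← Real.rpow_mul (h.pos j hj).le]
    · congr 1
      push_cast
      ring
    · intro i hi hij
      apply indicator_of_notMem
      intro hxi
      exact (h.disj i hi j hj hij).le_bot ⟨hxi, hxj⟩
  · push Not at hx
    rw [stp_eq_zero s hx, norm_zero]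
    symm
    rw [zero_pow (by norm_num)]
    apply Finset.sum_eq_zero
    intro j hj
    exact indicator_of_notMem (hx j hj) _

lemma Stp.measurable (h : Stp J a E) (s : ℂ) : Measurable (stp J a E s) := by
  unfold stp
  apply Finset.measurable_fun_sum
  intro j hj
  exact measurable_const.indicator (h.meas j hj)

lemma Stp.norm_le (h : Stp J a E) {s : ℂ} {σ : ℝ} (h0 : 0 ≤ s.re) (h1 : s.re ≤ σ) (x : Sp d) :
    ‖stp J a E s x‖ ≤ ∑ j ∈ J, (1 + a j) ^ σ := by
  unfold stp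
  refine (norm_sum_le _ _).trans (Finset.sum_le_sum fun j hj => ?_)
  have hp := h.pos j hj
  by_cases hx : x ∈ E j
  · rw [indicator_of_mem hx, Complex.norm_cpow_eq_rpow_re_of_pos hp]
    calc a j ^ s.re ≤ (1 + a j) ^ s.re := Real.rpow_le_rpow hp.le (by linarith) h0
      _ ≤ _ := Real.rpow_le_rpow_of_exponent_le (by linarith) h1
  · rw [indicator_of_notMem hx, norm_zero]
    positivity

lemma Stp.good (h : Stp J a E) {s : ℂ} (h0 : 0 ≤ s.re) : Good (stp J a E s) :=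
  ⟨h.measurable s, _, h.norm_le h0 le_rfl⟩

lemma Stp.norm_le_one (h : Stp J a E) {s : ℂ} (h0 : s.re = 0) (x : Sp d) :
    ‖stp J a E s x‖ ≤ 1 := by
  by_cases hx : ∃ j ∈ J, x ∈ E j
  · obtain ⟨j, hj, hxj⟩ := hx
    rw [h.eq_on s hj hxj, Complex.norm_cpow_eq_rpow_re_of_pos (h.pos j hj), h0, Real.rpow_zero]
  · push Not at hx
    rw [stp_eq_zero s hx, norm_zero]
    exact zero_le_one

lemma Stp.integrable_sq (h : Stp J a E) (s : ℂ) : Integrable (fun x => ‖stp J a E s x‖ ^ 2) := by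
  simp_rw [h.norm_sq s]
  apply integrable_finsetSum
  intro j hj
  rw [integrable_indicator_iff (h.meas j hj)]
  exact integrableOn_const (h.fin j hj).ne

lemma Stp.integral_sq (h : Stp J a E) (s : ℂ) :
    ∫ x, ‖stp J a E s x‖ ^ 2 = ss J a E (2 * s.re) := by
  simp_rw [h.norm_sq s]
  rw [integral_finsetSum]
  · unfold ss
    apply Finset.sum_congr rfl
    intro j hj
    rw [integral_indicator_const _ (h.meas j hj), smul_eq_mul, mul_comm]
    rfl
  · intro j hj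
    rw [integrable_indicator_iff (h.meas j hj)]
    exact integrableOn_const (h.fin j hj).ne

/-- The Cauchy-Schwarz inequality. -/
lemma cs_bound {w : Sp d → ℂ} (hw : Good w) (hw2 : Integrable (fun x => ‖w x‖ ^ 2)) (f : HS d) :
    Integrable (Mop w f) ∧ ∫ x, ‖Mop w f x‖ ≤ √(∫ x, ‖w x‖ ^ 2) * ‖f‖ := by
  have hwm : MemLp w 2 := by
    rw [memLp_two_iff_integrable_sq_norm hw.1.aestronglyMeasurable]
    exact hw2
  have h1 : Integrable (fun x => w x * f x) := hwm.integrable_mul (Lp.memLp f)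
  have h2 := Mop_coe hw f
  refine ⟨h1.congr h2.symm, ?_⟩
  have e1 : ∫ x, ‖Mop w f x‖ = ∫ x, ‖w x‖ * ‖f x‖ := by
    apply integral_congr_ae
    filter_upwards [h2] with x hx
    rw [hx, norm_mul]
  rw [e1]
  have key := integral_mul_le_Lp_mul_Lq_of_nonneg (μ := (volume : Measure (Sp d)))
    (p := 2) (q := 2) (by constructor <;> norm_num)
    (f := fun x => ‖w x‖) (g := fun x => ‖f x‖)
    (Eventually.of_forall fun x => norm_nonneg _) (Eventually.of_forall fun x => norm_nonneg _)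
    (by
      rw [ENNReal.ofReal_ofNat]
      exact hwm.norm)
    (by
      rw [ENNReal.ofReal_ofNat]
      exact (Lp.memLp f).norm)
  refine key.trans (le_of_eq ?_)
  simp only [Real.rpow_two]
  rw [← L2_norm_sq, Real.sqrt_eq_rpow, ← Real.sqrt_eq_rpow (‖f‖ ^ 2),
    Real.sqrt_sq (norm_nonneg _)]


variable {b : ℤ → ℝ} {F : ℤ → Set (Sp d)}

/-- The indicator multipliers. -/
noncomputable def indF (S : Set (Sp d)) (x : Sp d) : ℂ := S.indicator (fun _ => (1 : ℂ)) x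

lemma good_indF {S : Set (Sp d)} (hS : MeasurableSet S) : Good (indF S) := by
  refine ⟨measurable_const.indicator hS, 1, fun x => ?_⟩
  unfold indF
  by_cases hx : x ∈ S
  · rw [indicator_of_mem hx]; simp
  · rw [indicator_of_notMem hx]; simp

lemma Mop_sum_indF {J : Finset ℤ} {E : ℤ → Set (Sp d)} (hE : ∀ j ∈ J, MeasurableSet (E j))
    (c : ℤ → ℂ) (f : HS d) :
    Mop (fun x => ∑ j ∈ J, c j * indF (E j) x) f = ∑ j ∈ J, c j • Mop (indF (E j)) f := by
  induction J using Finset.induction_on with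
  | empty =>
    simp only [Finset.sum_empty]
    apply Lp.ext
    filter_upwards [Mop_coe (Good.const (d := d) 0) f,
      Lp.coeFn_zero ℂ 2 (volume : Measure (Sp d))] with x a1 a2
    rw [a1, a2, zero_mul, Pi.zero_apply]
  | insert i J hi ih =>
    have hE' : ∀ j ∈ J, MeasurableSet (E j) := fun j hj => hE j (Finset.mem_insert_of_mem hj)
    have hg1 : Good (fun x => c i * indF (E i) x) :=
      (good_indF (hE i (Finset.mem_insert_self i J))).const_mul _
    have hg2 : Good (fun x => ∑ j ∈ J, c j * indF (E j) x) := by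
      refine ⟨Finset.measurable_fun_sum _ fun j hj => ((good_indF (hE' j hj)).const_mul _).1,
        ∑ j ∈ J, ‖c j‖, fun x => ?_⟩
      refine (norm_sum_le _ _).trans (Finset.sum_le_sum fun j hj => ?_)
      rw [norm_mul]
      have : ‖indF (E j) x‖ ≤ 1 := by
        unfold indF
        by_cases hx : x ∈ E j
        · rw [indicator_of_mem hx]; simp
        · rw [indicator_of_notMem hx]; simp
      have h0 := norm_nonneg (c j)
      nlinarith
    simp_rw [Finset.sum_insert hi]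
    rw [Mop_add hg1 hg2, ih hE', Mop_const_mul (good_indF (hE i (Finset.mem_insert_self i J)))]

lemma stp_eq_sum (J : Finset ℤ) (a : ℤ → ℝ) (E : ℤ → Set (Sp d)) (s : ℂ) :
    stp J a E s = fun x => ∑ j ∈ J, (a j : ℂ) ^ s * indF (E j) x := by
  funext x
  unfold stp indF
  apply Finset.sum_congr rfl
  intro j _
  by_cases hx : x ∈ E j
  · rw [indicator_of_mem hx, indicator_of_mem hx, mul_one]
  · rw [indicator_of_notMem hx, indicator_of_notMem hx, mul_zero]

lemma stp_conj_eq_sum (J : Finset ℤ) (a : ℤ → ℝ) (E : ℤ → Set (Sp d)) (s : ℂ) :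
    (fun x => (starRingEnd ℂ) (stp J a E s x)) =
      fun x => ∑ j ∈ J, (starRingEnd ℂ) ((a j : ℂ) ^ s) * indF (E j) x := by
  funext x
  rw [stp_eq_sum]
  simp only [map_sum, map_mul]
  apply Finset.sum_congr rfl
  intro j _
  congr 1
  unfold indF
  by_cases hx : x ∈ E j
  · rw [indicator_of_mem hx, map_one]
  · rw [indicator_of_notMem hx, map_zero]

/-- The bilinear form. -/
noncomputable def bil (J : Finset ℤ) (a : ℤ → ℝ) (E : ℤ → Set (Sp d)) (b : ℤ → ℝ)
    (F : ℤ → Set (Sp d)) (κ : ℂ) (A : ℝ) (f g : HS d) (s : ℂ) : ℂ :=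
  ⟪Fo (Mop (fun x => (starRingEnd ℂ) (stp J a E s x)) f),
    Mop (fS κ A s) (Fo (Mop (stp J b F s) g))⟫_ℂ

lemma bil_expand (hE : Stp J a E) (hF : Stp J b F) {κ : ℂ} (hκ : 0 < κ.re) {A : ℝ} (hA : 0 < A)
    (f g : HS d) {s : ℂ} (hs : 0 ≤ s.re) :
    bil J a E b F κ A f g s = ∑ i ∈ J, ∑ j ∈ J, (a i : ℂ) ^ s * ((b j : ℂ) ^ s *
      ∫ ξ, (starRingEnd ℂ) (Fo (Mop (indF (E i)) f) ξ) * Fo (Mop (indF (F j)) g) ξ * fS κ A s ξ) := by
  have e1 : Mop (fun x => (starRingEnd ℂ) (stp J a E s x)) f =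
      ∑ j ∈ J, (starRingEnd ℂ) ((a j : ℂ) ^ s) • Mop (indF (E j)) f :=
    (congrArg (fun W => Mop W f) (stp_conj_eq_sum J a E s)).trans (Mop_sum_indF hE.meas _ f)
  have e2 : Mop (stp J b F s) g = ∑ j ∈ J, ((b j : ℂ) ^ s) • Mop (indF (F j)) g :=
    (congrArg (fun W => Mop W g) (stp_eq_sum J b F s)).trans (Mop_sum_indF hF.meas _ g)
  have e3 : Fo (Mop (fun x => (starRingEnd ℂ) (stp J a E s x)) f) =
      ∑ j ∈ J, (starRingEnd ℂ) ((a j : ℂ) ^ s) • Fo (Mop (indF (E j)) f) := by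
    rw [e1, map_sum]
    exact Finset.sum_congr rfl fun j _ => map_smul _ _ _
  have e4 : Mop (fS κ A s) (Fo (Mop (stp J b F s) g)) =
      ∑ j ∈ J, ((b j : ℂ) ^ s) • Mop (fS κ A s) (Fo (Mop (indF (F j)) g)) := by
    rw [e2, map_sum, map_sum]
    refine Finset.sum_congr rfl fun j _ => ?_
    rw [map_smul, map_smul]
  unfold bil
  rw [e3, e4, sum_inner]
  apply Finset.sum_congr rfl
  intro i _
  rw [inner_sum]
  apply Finset.sum_congr rfl
  intro j _
  rw [inner_smul_left, inner_smul_right, Complex.conj_conj, inner_Mop (good_fS hκ hA hs)]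
  congr 2
  apply integral_congr_ae
  refine Eventually.of_forall fun ξ => ?_
  simp only
  ring

lemma integrable_pair (f g : HS d) : Integrable (fun ξ => (starRingEnd ℂ) (f ξ) * g ξ) :=
  (Lp.memLp f).star.integrable_mul (Lp.memLp g)

/-- The analytic function. -/
noncomputable def aF (J : Finset ℤ) (a : ℤ → ℝ) (E : ℤ → Set (Sp d)) (b : ℤ → ℝ)
    (F : ℤ → Set (Sp d)) (κ : ℂ) (A : ℝ) (f g : HS d) (s : ℂ) : ℂ :=
  Complex.exp (s ^ 2) * Complex.Gamma (s + 1) * bil J a E b F κ A f g s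

/-- The explicit form of the analytic function. -/
noncomputable def aF' (J : Finset ℤ) (a : ℤ → ℝ) (E : ℤ → Set (Sp d)) (b : ℤ → ℝ)
    (F : ℤ → Set (Sp d)) (κ : ℂ) (A : ℝ) (f g : HS d) (s : ℂ) : ℂ :=
  Complex.exp (s ^ 2) * Complex.Gamma (s + 1) *
    ∑ i ∈ J, ∑ j ∈ J, (a i : ℂ) ^ s * ((b j : ℂ) ^ s *
      ∫ ξ, (starRingEnd ℂ) (Fo (Mop (indF (E i)) f) ξ) * Fo (Mop (indF (F j)) g) ξ * fS κ A s ξ)

lemma differentiableAt_Gamma_add {s : ℂ} (hs : 0 ≤ s.re) :
    DifferentiableAt ℂ (fun s => Complex.Gamma (s + 1)) s := by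
  have h1 : DifferentiableAt ℂ Complex.Gamma (s + 1) := by
    apply Complex.differentiableAt_Gamma
    intro m h
    have h2 := congrArg Complex.re h
    simp only [Complex.add_re, Complex.one_re, Complex.neg_re, Complex.natCast_re] at h2
    have : (0 : ℝ) ≤ m := Nat.cast_nonneg m
    linarith
  exact h1.comp s (differentiableAt_id.add_const 1)

lemma differentiableAt_aF' (hE : Stp J a E) (hF : Stp J b F) {κ : ℂ} (hκ : 0 < κ.re) {A : ℝ}
    (hA : 0 < A) (f g : HS d) {s : ℂ} (hs : 0 < s.re) :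
    DifferentiableAt ℂ (aF' J a E b F κ A f g) s := by
  unfold aF'
  apply DifferentiableAt.mul
  · apply DifferentiableAt.mul
    · fun_prop
    · exact differentiableAt_Gamma_add hs.le
  · apply DifferentiableAt.fun_sum
    intro i hi
    apply DifferentiableAt.fun_sum
    intro j hj
    apply DifferentiableAt.mul
    · apply DifferentiableAt.const_cpow differentiableAt_id
      left
      exact_mod_cast (hE.pos i hi).ne'
    · apply DifferentiableAt.mul
      · apply DifferentiableAt.const_cpow differentiableAt_id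
        left
        exact_mod_cast (hF.pos j hj).ne'
      · exact diff_family hκ hA (integrable_pair _ _) hs

lemma continuousOn_aF' (hE : Stp J a E) (hF : Stp J b F) {κ : ℂ} (hκ : 0 < κ.re) {A : ℝ}
    (hA : 0 < A) (f g : HS d) :
    ContinuousOn (aF' J a E b F κ A f g) {s | 0 ≤ s.re} := by
  unfold aF'
  apply ContinuousOn.mul
  · apply ContinuousOn.mul
    · fun_prop
    · intro s hs
      exact (differentiableAt_Gamma_add hs).continuousAt.continuousWithinAt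
  · apply continuousOn_finsetSum
    intro i hi
    apply continuousOn_finsetSum
    intro j hj
    apply ContinuousOn.mul
    · apply Continuous.continuousOn
      apply Continuous.const_cpow continuous_id
      left
      exact_mod_cast (hE.pos i hi).ne'
    · apply ContinuousOn.mul
      · apply Continuous.continuousOn
        apply Continuous.const_cpow continuous_id
        left
        exact_mod_cast (hF.pos j hj).ne'
      · exact cont_family hκ hA (integrable_pair _ _)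

lemma aF_eq (hE : Stp J a E) (hF : Stp J b F) {κ : ℂ} (hκ : 0 < κ.re) {A : ℝ} (hA : 0 < A)
    (f g : HS d) {s : ℂ} (hs : 0 ≤ s.re) :
    aF J a E b F κ A f g s = aF' J a E b F κ A f g s := by
  unfold aF aF'
  rw [bil_expand hE hF hκ hA f g hs]

open Complex.HadamardThreeLines in
lemma diffContOnCl_aF (hE : Stp J a E) (hF : Stp J b F) {κ : ℂ} (hκ : 0 < κ.re) {A : ℝ}
    (hA : 0 < A) (f g : HS d) (σ : ℝ) :
    DiffContOnCl ℂ (aF J a E b F κ A f g) (verticalStrip 0 σ) := by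
  have hcl : closure (verticalStrip 0 σ) ⊆ {s : ℂ | 0 ≤ s.re} := by
    apply closure_minimal _ (isClosed_le continuous_const Complex.continuous_re)
    intro s hs
    exact le_of_lt hs.1
  constructor
  · intro s hs
    have hs0 : 0 < s.re := hs.1
    have h1 := differentiableAt_aF' hE hF hκ hA f g hs0
    have h2 : aF J a E b F κ A f g =ᶠ[𝓝 s] aF' J a E b F κ A f g := by
      have h3 : {z : ℂ | 0 < z.re} ∈ 𝓝 s :=
        (isOpen_lt continuous_const Complex.continuous_re).mem_nhds hs0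
      filter_upwards [h3] with z hz
      exact aF_eq hE hF hκ hA f g (le_of_lt hz)
    exact (h2.differentiableAt_iff.mpr h1).differentiableWithinAt
  · apply ContinuousOn.congr ((continuousOn_aF' hE hF hκ hA f g).mono hcl)
    intro s hs
    exact aF_eq hE hF hκ hA f g (hcl hs)

/-- Bounds for the Gamma function. -/
lemma norm_Gamma_le {s : ℂ} (hs : 0 ≤ s.re) : ‖Complex.Gamma (s + 1)‖ ≤ Real.Gamma (s.re + 1) := by
  have h1 : 0 < (s + 1).re := by simp; linarith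
  rw [Complex.Gamma_eq_integral h1, Real.Gamma_eq_integral (by linarith)]
  unfold Complex.GammaIntegral
  apply norm_integral_le_of_norm_le
  · exact Real.GammaIntegral_convergent (by linarith)
  · rw [ae_restrict_iff' measurableSet_Ioi]
    refine Eventually.of_forall fun x hx => ?_
    have hx0 : (0 : ℝ) < x := hx
    rw [norm_mul, Complex.norm_cpow_eq_rpow_re_of_pos hx0, Complex.norm_real,
      Real.norm_of_nonneg (Real.exp_pos _).le]
    simp

lemma Gamma_le {r σ : ℝ} (hr : 0 ≤ r) (hrσ : r ≤ σ) :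
    Real.Gamma (r + 1) ≤ 1 + Real.Gamma (σ + 1) := by
  have h0 : ∫ x in Ioi (0 : ℝ), Real.exp (-x) * x ^ ((1 : ℝ) - 1) = 1 := by
    rw [← Real.Gamma_eq_integral one_pos, Real.Gamma_one]
  have hc1 := Real.GammaIntegral_convergent one_pos
  have hcσ := Real.GammaIntegral_convergent (s := σ + 1) (by linarith)
  have hcr := Real.GammaIntegral_convergent (s := r + 1) (by linarith)
  calc Real.Gamma (r + 1) = ∫ x in Ioi (0 : ℝ), Real.exp (-x) * x ^ (r + 1 - 1) :=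
        Real.Gamma_eq_integral (by linarith)
    _ ≤ ∫ x in Ioi (0 : ℝ), (Real.exp (-x) * x ^ ((1 : ℝ) - 1) +
          Real.exp (-x) * x ^ (σ + 1 - 1)) := by
        apply setIntegral_mono_on hcr (hc1.add hcσ) measurableSet_Ioi
        intro x hx
        have hx0 : (0 : ℝ) < x := hx
        have h1 : x ^ (r + 1 - 1) ≤ 1 + x ^ (σ + 1 - 1) := by
          rw [add_sub_cancel_right, add_sub_cancel_right]
          rcases le_or_gt x 1 with h | h
          · have h2 := Real.rpow_le_one hx0.le h hr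
            have : 0 < x ^ σ := by positivity
            linarith
          · have h2 := Real.rpow_le_rpow_of_exponent_le h.le hrσ
            linarith
        have h2 : x ^ ((1 : ℝ) - 1) = 1 := by simp
        simp only [Pi.add_apply]
        rw [h2]
        have h3 := Real.exp_pos (-x)
        nlinarith
    _ = 1 + Real.Gamma (σ + 1) := by
        rw [integral_add hc1 hcσ, h0, ← Real.Gamma_eq_integral (by linarith)]


lemma bil_norm_le (hE : Stp J a E) (hF : Stp J b F) {κ : ℂ} (hκ : 0 < κ.re) {A : ℝ}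
    (hA : 0 < A) (f g : HS d) {s : ℂ} (hs : 0 ≤ s.re) {Ca Cb Cs : ℝ}
    (hCa : ∀ x, ‖stp J a E s x‖ ≤ Ca) (hCb : ∀ x, ‖stp J b F s x‖ ≤ Cb)
    (hCs : ∀ x : Sp d, ‖fS κ A s x‖ ≤ Cs) :
    ‖bil J a E b F κ A f g s‖ ≤ Ca * Cs * Cb * (‖f‖ * ‖g‖) := by
  have hCa0 : 0 ≤ Ca := (norm_nonneg _).trans (hCa 0)
  have hCb0 : 0 ≤ Cb := (norm_nonneg _).trans (hCb 0)
  have hCs0 : 0 ≤ Cs := (norm_nonneg _).trans (hCs 0)
  unfold bil
  refine (norm_inner_le_norm _ _).trans ?_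
  have h1 : ‖Fo (Mop (fun x => (starRingEnd ℂ) (stp J a E s x)) f)‖ ≤ Ca * ‖f‖ := by
    rw [LinearIsometryEquiv.norm_map]
    exact Mop_norm_le (hE.good hs).conj (fun x => by rw [RCLike.norm_conj]; exact hCa x) f
  have h2 : ‖Mop (fS κ A s) (Fo (Mop (stp J b F s) g))‖ ≤ Cs * (Cb * ‖g‖) := by
    refine (Mop_norm_le (good_fS hκ hA hs) hCs _).trans ?_
    rw [LinearIsometryEquiv.norm_map]
    gcongr
    exact Mop_norm_le (hF.good hs) hCb g
  calc _ ≤ (Ca * ‖f‖) * (Cs * (Cb * ‖g‖)) := by gcongr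
    _ = _ := by ring

lemma norm_exp_sq (s : ℂ) : ‖Complex.exp (s ^ 2)‖ = Real.exp (s.re ^ 2 - s.im ^ 2) := by
  rw [Complex.norm_exp]
  congr 1
  rw [pow_two, Complex.mul_re]
  ring

lemma exp_bound1 (τ : ℝ) : Real.exp (-τ ^ 2) * Real.exp (π * |τ|) ≤ Real.exp (π ^ 2 / 4) := by
  rw [← Real.exp_add]
  apply Real.exp_le_exp.mpr
  have := sq_nonneg (|τ| - π / 2)
  rw [sub_sq, sq_abs] at this
  nlinarith

lemma exp_bound2 (τ : ℝ) : Real.exp (-τ ^ 2) * ((1 + |τ|) * (1 + |τ|)) ≤ 2 := by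
  have h1 : (1 + |τ|) * (1 + |τ|) ≤ 2 * Real.exp (τ ^ 2) := by
    have h2 := Real.add_one_le_exp (τ ^ 2)
    have h3 := sq_nonneg (1 - |τ|)
    have h4 := sq_abs τ
    nlinarith
  calc Real.exp (-τ ^ 2) * ((1 + |τ|) * (1 + |τ|)) ≤ Real.exp (-τ ^ 2) * (2 * Real.exp (τ ^ 2)) := by
        gcongr
    _ = 2 * (Real.exp (-τ ^ 2) * Real.exp (τ ^ 2)) := by ring
    _ = 2 := by rw [← Real.exp_add]; simp

/-- The bound on the left line. -/
lemma left_line (hE : Stp J a E) (hF : Stp J b F) {κ : ℂ} (hκ : 0 < κ.re) {A : ℝ}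
    (hA : 0 < A) (f g : HS d) {s : ℂ} (hs : s.re = 0) :
    ‖aF J a E b F κ A f g s‖ ≤ Real.exp (π ^ 2 / 4) * (‖f‖ * ‖g‖) := by
  unfold aF
  rw [norm_mul, norm_mul, norm_exp_sq, hs]
  have h1 : ‖Complex.Gamma (s + 1)‖ ≤ 1 := by
    have := norm_Gamma_le (s := s) hs.ge
    rw [hs, zero_add, Real.Gamma_one] at this
    exact this
  have h2 := bil_norm_le hE hF hκ hA f g hs.ge (hE.norm_le_one hs) (hF.norm_le_one hs)
    (Cs := Real.exp (π * |s.im|)) (fun ξ => by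
      have := norm_fS_le hκ hA hs.ge ξ
      rw [hs, Real.rpow_zero, one_mul] at this
      exact this)
  calc Real.exp (0 ^ 2 - s.im ^ 2) * ‖Complex.Gamma (s + 1)‖ * ‖bil J a E b F κ A f g s‖
      ≤ Real.exp (0 ^ 2 - s.im ^ 2) * 1 * (1 * Real.exp (π * |s.im|) * 1 * (‖f‖ * ‖g‖)) := by
        gcongr
    _ = (Real.exp (-s.im ^ 2) * Real.exp (π * |s.im|)) * (‖f‖ * ‖g‖) := by
        rw [show (0 : ℝ) ^ 2 - s.im ^ 2 = -s.im ^ 2 by ring]
        ring
    _ ≤ _ := by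
        gcongr
        exact exp_bound1 _

/-- Boundedness on the strip. -/
lemma bdd_aF (hE : Stp J a E) (hF : Stp J b F) {κ : ℂ} (hκ : 0 < κ.re) {A : ℝ}
    (hA : 0 < A) (f g : HS d) (σ : ℝ) : BddAbove ((norm ∘ aF J a E b F κ A f g) ''
      Complex.HadamardThreeLines.verticalClosedStrip 0 σ) := by
  set Ca := ∑ j ∈ J, (1 + a j) ^ σ with hCa
  set Cb := ∑ j ∈ J, (1 + b j) ^ σ with hCb
  set W := 1 / (κ.re * A) with hW
  have hW0 : 0 < W := by positivity
  refine ⟨Real.exp (σ ^ 2) * (1 + Real.Gamma (σ + 1)) * (Ca * (1 + W) ^ σ * Cb) *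
    Real.exp (π ^ 2 / 4) * (‖f‖ * ‖g‖), ?_⟩
  rintro y ⟨s, hs, rfl⟩
  have hs0 : 0 ≤ s.re := hs.1
  have hs1 : s.re ≤ σ := hs.2
  simp only [Function.comp]
  unfold aF
  rw [norm_mul, norm_mul, norm_exp_sq]
  have h1 : ‖Complex.Gamma (s + 1)‖ ≤ 1 + Real.Gamma (σ + 1) :=
    (norm_Gamma_le hs0).trans (Gamma_le hs0 hs1)
  have h2 := bil_norm_le hE hF hκ hA f g hs0 (hE.norm_le hs0 hs1) (hF.norm_le hs0 hs1)
    (Cs := (1 + W) ^ σ * Real.exp (π * |s.im|)) (fun ξ => by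
      refine (norm_fS_le hκ hA hs0 ξ).trans ?_
      gcongr
      have h5 : 1 / (κ.re * (‖ξ‖ ^ 2 + A)) ≤ 1 + W := by
        have : 1 / (κ.re * (‖ξ‖ ^ 2 + A)) ≤ W := by
          rw [hW]
          apply one_div_le_one_div_of_le (by positivity)
          nlinarith [sq_nonneg ‖ξ‖]
        linarith
      calc (1 / (κ.re * (‖ξ‖ ^ 2 + A))) ^ s.re ≤ (1 + W) ^ s.re :=
            Real.rpow_le_rpow (by positivity) h5 hs0
        _ ≤ _ := Real.rpow_le_rpow_of_exponent_le (by linarith) hs1)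
  have hCa0 : 0 ≤ Ca := by
    rw [hCa]
    apply Finset.sum_nonneg
    intro j hj
    have := hE.pos j hj
    positivity
  have hCb0 : 0 ≤ Cb := by
    rw [hCb]
    apply Finset.sum_nonneg
    intro j hj
    have := hF.pos j hj
    positivity
  have h3 : Real.exp (s.re ^ 2 - s.im ^ 2) ≤ Real.exp (σ ^ 2) * Real.exp (-s.im ^ 2) := by
    rw [← Real.exp_add]
    apply Real.exp_le_exp.mpr
    nlinarith
  have hG0 : 0 ≤ 1 + Real.Gamma (σ + 1) := (norm_nonneg _).trans h1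
  calc Real.exp (s.re ^ 2 - s.im ^ 2) * ‖Complex.Gamma (s + 1)‖ * ‖bil J a E b F κ A f g s‖
      ≤ (Real.exp (σ ^ 2) * Real.exp (-s.im ^ 2)) * (1 + Real.Gamma (σ + 1)) *
          (Ca * ((1 + W) ^ σ * Real.exp (π * |s.im|)) * Cb * (‖f‖ * ‖g‖)) := by gcongr
    _ = Real.exp (σ ^ 2) * (1 + Real.Gamma (σ + 1)) * (Ca * (1 + W) ^ σ * Cb) *
          (Real.exp (-s.im ^ 2) * Real.exp (π * |s.im|)) * (‖f‖ * ‖g‖) := by ring
    _ ≤ _ := by
        gcongr
        exact exp_bound1 _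

/-- The bound on the right line. -/
lemma right_line {n : ℕ} {σ : ℝ} (h1 : ((n + 1 : ℕ) : ℝ) / 2 < σ)
    (h2 : σ < ((n + 1 : ℕ) : ℝ) / 2 + 1) (hσ1 : 1 ≤ σ) : ∃ C : ℝ, 0 < C ∧
    ∀ (J : Finset ℤ) (a b : ℤ → ℝ) (E F : ℤ → Set (Sp (n + 1))) (κ : ℂ) (A G : ℝ)
      (B : Set (Sp (n + 1))) (f g : HS (n + 1)) (s : ℂ), Stp J a E → Stp J b F → 0 < κ.re →
      ‖κ‖ = 1 → 0 < A → (∀ j ∈ J, E j ⊆ B) → (∀ j ∈ J, F j ⊆ B) → 0 ≤ G →
      (∀ x ∈ B, ∀ y ∈ B, (1 + 4 * (π * √A * ‖x - y‖)) ^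
        (max (σ - ((n + 1 : ℕ) : ℝ) / 2 - 1 / 2) 0) ≤ G) → s.re = σ →
      ‖aF J a E b F κ A f g s‖ ≤ C * (A ^ (((n + 1 : ℕ) : ℝ) / 2 - σ) * G) *
        (√(ss J a E (2 * σ)) * √(ss J b F (2 * σ))) * (‖f‖ * ‖g‖) := by
  obtain ⟨Ck, hCk0, hCk⟩ := ker_bound n h1 h2
  refine ⟨2 * σ * Real.exp (σ ^ 2) * Ck, by positivity, ?_⟩
  intro J a b E F κ A G B f g s hE hF hκ hκ1 hA hEB hFB hG0 hG hs
  set τ := s.im with hτ
  have hsτ : s = σ + τ * Complex.I := by
    rw [← hs, hτ, Complex.re_add_im]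
  have hs0 : 0 ≤ s.re := by rw [hs]; linarith
  have hs00 : s ≠ 0 := by
    intro h; rw [h] at hs; simp at hs; linarith
  have hsd : ((n + 1 : ℕ) : ℝ) < 2 * s.re := by rw [hs]; linarith
  set u : HS (n + 1) := Mop (fun x => (starRingEnd ℂ) (stp J a E s x)) f with hu
  set v : HS (n + 1) := Mop (stp J b F s) g with hv
  have hcs1 := cs_bound (w := fun x => (starRingEnd ℂ) (stp J a E s x)) (hE.good hs0).conj
    (by simp_rw [RCLike.norm_conj]; exact hE.integrable_sq s) f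
  have hcs2 := cs_bound (w := stp J b F s) (hF.good hs0) (hF.integrable_sq s) g
  simp_rw [RCLike.norm_conj] at hcs1
  rw [hE.integral_sq s, hs] at hcs1
  rw [hF.integral_sq s, hs] at hcs2
  have huB : ∀ᵐ x, u x ≠ 0 → x ∈ B := by
    filter_upwards [Mop_coe (hE.good hs0).conj f] with x hx hne
    rw [hu, hx] at hne
    have h3 : stp J a E s x ≠ 0 := by
      intro h; rw [h] at hne; simp at hne
    obtain ⟨j, hj, hxj⟩ := stp_ne_zero h3
    exact hEB j hj hxj
  have hvB : ∀ᵐ x, v x ≠ 0 → x ∈ B := by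
    filter_upwards [Mop_coe (hF.good hs0) g] with x hx hne
    rw [hv, hx] at hne
    have h3 : stp J b F s x ≠ 0 := by
      intro h; rw [h] at hne; simp at hne
    obtain ⟨j, hj, hxj⟩ := stp_ne_zero h3
    exact hFB j hj hxj
  have hgood := (good_fS (d := n + 1) hκ hA hs0).const_mul (Complex.Gamma s)
  have hint := (integrable_fS (d := n + 1) hκ hA hsd).const_mul (Complex.Gamma s)
  have key := L1_bound hgood hint (k := fun x => Complex.Gamma s * fG κ A s x) (fun x => by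
    unfold fG
    rw [← integral_const_mul]
    congr 1
    funext ξ
    ring) hcs1.1 hcs2.1 huB hvB (K := Ck * (1 + |τ|) * A ^ (((n + 1 : ℕ) : ℝ) / 2 - σ) * G) (by
      intro x hx y hy
      have h3 := hCk κ A τ (x - y) hκ hκ1 hA
      rw [← hsτ] at h3
      refine h3.trans ?_
      gcongr
      exact hG x hx y hy)
  have e1 : ⟪Fo u, Mop (fun x => Complex.Gamma s * fS κ A s x) (Fo v)⟫_ℂ =
      Complex.Gamma s * bil J a E b F κ A f g s := by
    rw [Mop_const_mul (good_fS hκ hA hs0), inner_smul_right]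
    rfl
  rw [e1, norm_mul] at key
  unfold aF
  rw [Complex.Gamma_add_one s hs00, norm_mul, norm_mul, norm_mul, norm_exp_sq, hs]
  have hns : ‖s‖ ≤ σ * (1 + |τ|) := by
    rw [hsτ]
    refine (norm_add_le _ _).trans ?_
    rw [Complex.norm_real, norm_mul, Complex.norm_I, mul_one, Complex.norm_real,
      Real.norm_of_nonneg (by linarith), Real.norm_eq_abs]
    nlinarith [abs_nonneg τ]
  have hG1 : 0 ≤ A ^ (((n + 1 : ℕ) : ℝ) / 2 - σ) * G := by positivity
  calc Real.exp (σ ^ 2 - τ ^ 2) * (‖s‖ * ‖Complex.Gamma s‖) * ‖bil J a E b F κ A f g s‖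
      = Real.exp (σ ^ 2 - τ ^ 2) * ‖s‖ * (‖Complex.Gamma s‖ * ‖bil J a E b F κ A f g s‖) := by
        ring
    _ ≤ Real.exp (σ ^ 2 - τ ^ 2) * (σ * (1 + |τ|)) *
        ((Ck * (1 + |τ|) * A ^ (((n + 1 : ℕ) : ℝ) / 2 - σ) * G) *
          (√(ss J a E (2 * σ)) * ‖f‖) * (√(ss J b F (2 * σ)) * ‖g‖)) := by
        have hk2 := key.trans (mul_le_mul (mul_le_mul_of_nonneg_left hcs1.2 (by positivity))
          hcs2.2 (integral_nonneg fun x => norm_nonneg _) (by positivity))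
        exact mul_le_mul (mul_le_mul_of_nonneg_left hns (Real.exp_pos _).le) hk2
          (by positivity) (by positivity)
    _ = (Real.exp (-τ ^ 2) * ((1 + |τ|) * (1 + |τ|))) * (σ * Real.exp (σ ^ 2) * Ck *
          (A ^ (((n + 1 : ℕ) : ℝ) / 2 - σ) * G) * (√(ss J a E (2 * σ)) * √(ss J b F (2 * σ))) *
          (‖f‖ * ‖g‖)) := by
        rw [show σ ^ 2 - τ ^ 2 = σ ^ 2 + -τ ^ 2 by ring, Real.exp_add]
        ring
    _ ≤ 2 * (σ * Real.exp (σ ^ 2) * Ck *
          (A ^ (((n + 1 : ℕ) : ℝ) / 2 - σ) * G) * (√(ss J a E (2 * σ)) * √(ss J b F (2 * σ))) *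
          (‖f‖ * ‖g‖)) := by
        gcongr
        exact exp_bound2 τ
    _ = _ := by ring


open Complex.HadamardThreeLines in
/-- **The bilinear estimate for step functions.** -/
theorem three {n : ℕ} {σ : ℝ} (h1 : ((n + 1 : ℕ) : ℝ) / 2 < σ)
    (h2 : σ < ((n + 1 : ℕ) : ℝ) / 2 + 1) (hσ1 : 1 ≤ σ) : ∃ C : ℝ, 0 < C ∧
    ∀ (J : Finset ℤ) (a b : ℤ → ℝ) (E F : ℤ → Set (Sp (n + 1))) (κ : ℂ) (A G : ℝ)
      (B : Set (Sp (n + 1))) (f g : HS (n + 1)), Stp J a E → Stp J b F → 0 < κ.re →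
      ‖κ‖ = 1 → 0 < A → (∀ j ∈ J, E j ⊆ B) → (∀ j ∈ J, F j ⊆ B) → 0 ≤ G →
      (∀ x ∈ B, ∀ y ∈ B, (1 + 4 * (π * √A * ‖x - y‖)) ^
        (max (σ - ((n + 1 : ℕ) : ℝ) / 2 - 1 / 2) 0) ≤ G) →
      ‖bil J a E b F κ A f g 1‖ ≤ C * (A ^ (((n + 1 : ℕ) : ℝ) / 2 - σ) * G) ^ (1 / σ) *
        (ss J a E (2 * σ) ^ (1 / (2 * σ)) * ss J b F (2 * σ) ^ (1 / (2 * σ))) *
          (‖f‖ * ‖g‖) := by
  obtain ⟨C, hC0, hC⟩ := right_line h1 h2 hσ1
  have hσ0 : 0 < σ := by linarith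
  refine ⟨Real.exp (π ^ 2 / 4) ^ (1 - 1 / σ) * C ^ (1 / σ), by positivity, ?_⟩
  intro J a b E F κ A G B f g hE hF hκ hκ1 hA hEB hFB hG0 hG
  set S := A ^ (((n + 1 : ℕ) : ℝ) / 2 - σ) * G with hS
  have hS0 : 0 ≤ S := by positivity
  set Qa := ss J a E (2 * σ) with hQa
  set Qb := ss J b F (2 * σ) with hQb
  have hQa0 : 0 ≤ Qa := hE.ss_nonneg _
  have hQb0 : 0 ≤ Qb := hF.ss_nonneg _
  set N := ‖f‖ * ‖g‖ with hN
  have hN0 : 0 ≤ N := by positivity
  have hz : (1 : ℂ) ∈ verticalClosedStrip 0 σ := by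
    constructor <;> simp
    exact hσ1
  have key := norm_le_interp_of_mem_verticalClosedStrip' hσ0 hz
    (diffContOnCl_aF hE hF hκ hA f g σ) (bdd_aF hE hF hκ hA f g σ)
    (a := Real.exp (π ^ 2 / 4) * N) (b := C * S * (√Qa * √Qb) * N)
    (fun z hz => left_line hE hF hκ hA f g hz)
    (fun z hz => hC J a b E F κ A G B f g z hE hF hκ hκ1 hA hEB hFB hG0 hG hz)
  rw [Complex.one_re, sub_zero, sub_zero] at key
  have e1 : ‖aF J a E b F κ A f g 1‖ = Real.exp 1 * ‖bil J a E b F κ A f g 1‖ := by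
    unfold aF
    rw [norm_mul, norm_mul, norm_exp_sq]
    have h3 : Complex.Gamma (1 + 1) = 1 := by
      rw [Complex.Gamma_add_one 1 one_ne_zero, Complex.Gamma_one, mul_one]
    rw [h3]
    simp
  have h4 : ‖bil J a E b F κ A f g 1‖ ≤ ‖aF J a E b F κ A f g 1‖ := by
    rw [e1]
    have h5 : 1 ≤ Real.exp 1 := Real.one_le_exp zero_le_one
    have h6 := norm_nonneg (bil J a E b F κ A f g 1)
    nlinarith
  refine h4.trans (key.trans (le_of_eq ?_))
  have r1 : (Real.exp (π ^ 2 / 4) * N) ^ (1 - 1 / σ) =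
      Real.exp (π ^ 2 / 4) ^ (1 - 1 / σ) * N ^ (1 - 1 / σ) :=
    Real.mul_rpow (Real.exp_pos _).le hN0
  have r2 : (C * S * (√Qa * √Qb) * N) ^ (1 / σ) =
      C ^ (1 / σ) * S ^ (1 / σ) * (√Qa ^ (1 / σ) * √Qb ^ (1 / σ)) * N ^ (1 / σ) := by
    rw [Real.mul_rpow (by positivity) hN0, Real.mul_rpow (by positivity) (by positivity),
      Real.mul_rpow hC0.le hS0, Real.mul_rpow (Real.sqrt_nonneg _) (Real.sqrt_nonneg _)]
  have r3 : N ^ (1 - 1 / σ) * N ^ (1 / σ) = N := by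
    rw [← Real.rpow_add' hN0 (by norm_num), sub_add_cancel, Real.rpow_one]
  have r4 : ∀ Q : ℝ, 0 ≤ Q → √Q ^ (1 / σ) = Q ^ (1 / (2 * σ)) := by
    intro Q hQ
    rw [Real.sqrt_eq_rpow, ← Real.rpow_mul hQ]
    congr 1
    field_simp
  rw [r1, r2, r4 Qa hQa0, r4 Qb hQb0]
  calc _ = Real.exp (π ^ 2 / 4) ^ (1 - 1 / σ) * C ^ (1 / σ) * S ^ (1 / σ) *
        (Qa ^ (1 / (2 * σ)) * Qb ^ (1 / (2 * σ))) * (N ^ (1 - 1 / σ) * N ^ (1 / σ)) := by ring
    _ = _ := by rw [r3]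

end MP497a12
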