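import Mathlib
import Pool.Agent.Lib.MP_497a12_mp.FThree

/-!
# The bilinear estimate for bounded weights
-/

open MeasureTheory Filter Topology Real Set
open scoped InnerProductSpace FourierTransform ENNReal

namespace MP497a12

variable {d : ℕ}

attribute [local irreducible] Mop Cop Fo

/-- Weights with values in `{0} ∪ {2^(-N) ≤ |z| ≤ 2^N}` and bounded support. -/
structure Tame (w : Sp d → ℂ) (N : ℤ) (R : ℝ) : Prop where
  meas : Measurable w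
  supp : ∀ x, w x ≠ 0 → ‖x‖ ≤ R
  low : ∀ x, w x ≠ 0 → (2 : ℝ) ^ (-N) ≤ ‖w x‖
  high : ∀ x, ‖w x‖ ≤ (2 : ℝ) ^ N

variable {w : Sp d → ℂ} {N : ℤ} {R : ℝ}

lemma Tame.good (h : Tame w N R) : Good w := ⟨h.meas, _, h.high⟩

/-- The dyadic level sets. -/
def dyE (w : Sp d → ℂ) (j : ℤ) : Set (Sp d) := {x | (2 : ℝ) ^ (j - 1) < ‖w x‖ ∧ ‖w x‖ ≤ (2 : ℝ) ^ j}

lemma dyE_ne {j : ℤ} {x : Sp d} (hx : x ∈ dyE w j) : w x ≠ 0 := by
  intro h
  have h1 := hx.1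
  rw [h, norm_zero] at h1
  have : (0 : ℝ) < 2 ^ (j - 1) := by positivity
  linarith

lemma Tame.cover (h : Tame w N R) {x : Sp d} (hx : w x ≠ 0) :
    ∃ j ∈ Finset.Icc (-N) N, x ∈ dyE w j := by
  have hw : 0 < ‖w x‖ := norm_pos_iff.mpr hx
  obtain ⟨j, hj1, hj2⟩ := exists_mem_Ioc_zpow hw (by norm_num : (1 : ℝ) < 2)
  refine ⟨j + 1, ?_, ?_⟩
  · rw [Finset.mem_Icc]
    constructor
    · have h1 := (h.low x hx).trans hj2
      exact (zpow_le_zpow_iff_right₀ (by norm_num : (1 : ℝ) < 2)).mp h1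
    · have h1 := lt_of_lt_of_le hj1 (h.high x)
      have := (zpow_lt_zpow_iff_right₀ (by norm_num : (1 : ℝ) < 2)).mp h1
      omega
  · constructor
    · rw [add_sub_cancel_right]; exact hj1
    · exact hj2

lemma Tame.stp (h : Tame w N R) : Stp (Finset.Icc (-N) N) (fun j => (2 : ℝ) ^ j) (dyE w) where
  meas j _ := (measurableSet_lt measurable_const h.meas.norm).inter
    (measurableSet_le h.meas.norm measurable_const)
  disj i _ j _ hij := by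
    rw [Set.disjoint_left]
    intro x hx hy
    rcases lt_or_gt_of_ne hij with h1 | h1
    · have h2 : (2 : ℝ) ^ i ≤ 2 ^ (j - 1) := zpow_le_zpow_right₀ (by norm_num) (by omega)
      have := hx.2
      have := hy.1
      linarith
    · have h2 : (2 : ℝ) ^ j ≤ 2 ^ (i - 1) := zpow_le_zpow_right₀ (by norm_num) (by omega)
      have := hy.2
      have := hx.1
      linarith
  fin j _ := by
    refine lt_of_le_of_lt (measure_mono (t := Metric.closedBall 0 R) fun x hx => ?_)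
      measure_closedBall_lt_top
    rw [mem_closedBall_zero_iff]
    exact h.supp x (dyE_ne hx)
  pos j _ := by positivity

/-- The dyadic majorant. -/
noncomputable def dyM (w : Sp d → ℂ) (N : ℤ) : Sp d → ℂ :=
  stp (Finset.Icc (-N) N) (fun j => (2 : ℝ) ^ j) (dyE w) 1

lemma Tame.dyM_eq (h : Tame w N R) {j : ℤ} (hj : j ∈ Finset.Icc (-N) N) {x : Sp d}
    (hx : x ∈ dyE w j) : dyM w N x = ((2 : ℝ) ^ j : ℝ) := by
  unfold dyM
  rw [h.stp.eq_on 1 hj hx, Complex.cpow_one]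

lemma dyM_zero {x : Sp d} (hx : w x = 0) : dyM w N x = 0 := by
  unfold dyM
  apply stp_eq_zero
  intro j _ hxj
  exact dyE_ne hxj hx

lemma Tame.dyM_ne (h : Tame w N R) {x : Sp d} (hx : w x ≠ 0) : dyM w N x ≠ 0 := by
  obtain ⟨j, hj, hxj⟩ := h.cover hx
  rw [h.dyM_eq hj hxj]
  have : (0 : ℝ) < 2 ^ j := by positivity
  exact_mod_cast this.ne'

lemma Tame.le_dyM (h : Tame w N R) (x : Sp d) : ‖w x‖ ≤ ‖dyM w N x‖ := by
  by_cases hx : w x = 0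
  · rw [hx, norm_zero]; exact norm_nonneg _
  · obtain ⟨j, hj, hxj⟩ := h.cover hx
    rw [h.dyM_eq hj hxj, Complex.norm_real, Real.norm_of_nonneg (by positivity)]
    exact hxj.2

lemma Tame.dyM_le (h : Tame w N R) (x : Sp d) : ‖dyM w N x‖ ≤ 2 * ‖w x‖ := by
  by_cases hx : w x = 0
  · rw [dyM_zero hx, hx, norm_zero, mul_zero]
  · obtain ⟨j, hj, hxj⟩ := h.cover hx
    rw [h.dyM_eq hj hxj, Complex.norm_real, Real.norm_of_nonneg (by positivity)]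
    have h1 := hxj.1
    have h2 : (2 : ℝ) ^ j = 2 * 2 ^ (j - 1) := by
      rw [mul_comm, ← zpow_add_one₀ (by norm_num), sub_add_cancel]
    rw [h2]
    linarith

lemma Tame.conj_dyM (h : Tame w N R) (x : Sp d) : (starRingEnd ℂ) (dyM w N x) = dyM w N x := by
  by_cases hx : w x = 0
  · rw [dyM_zero hx, map_zero]
  · obtain ⟨j, hj, hxj⟩ := h.cover hx
    rw [h.dyM_eq hj hxj, Complex.conj_ofReal]

/-- The quotient. -/
noncomputable def dyQ (w : Sp d → ℂ) (N : ℤ) (x : Sp d) : ℂ := w x / dyM w N x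

lemma Tame.good_dyM (h : Tame w N R) : Good (dyM w N) := h.stp.good (by simp)

lemma Tame.norm_dyQ (h : Tame w N R) (x : Sp d) : ‖dyQ w N x‖ ≤ 1 := by
  unfold dyQ
  by_cases hx : w x = 0
  · rw [hx, zero_div, norm_zero]; exact zero_le_one
  · rw [norm_div]
    have := norm_pos_iff.mpr (h.dyM_ne hx)
    rw [div_le_one this]
    exact h.le_dyM x

lemma Tame.good_dyQ (h : Tame w N R) : Good (dyQ w N) :=
  ⟨h.meas.div h.good_dyM.1, 1, h.norm_dyQ⟩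

lemma Tame.mul_dyQ (h : Tame w N R) (x : Sp d) : dyM w N x * dyQ w N x = w x := by
  unfold dyQ
  by_cases hx : w x = 0
  · rw [dyM_zero hx, hx, zero_mul]
  · rw [mul_div_cancel₀ _ (h.dyM_ne hx)]

lemma Tame.Mop_eq (h : Tame w N R) (f : HS d) : Mop w f = Mop (dyM w N) (Mop (dyQ w N) f) := by
  rw [Mop_mul h.good_dyM h.good_dyQ]
  congr 2
  funext x
  exact (h.mul_dyQ x).symm

lemma Tame.norm_Mop_dyQ (h : Tame w N R) (f : HS d) : ‖Mop (dyQ w N) f‖ ≤ ‖f‖ := by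
  have := Mop_norm_le h.good_dyQ h.norm_dyQ f
  rwa [one_mul] at this

/-- The integrals of the powers. -/
lemma Tame.integrable_rpow (h : Tame w N R) {q : ℝ} (hq : 0 < q) :
    Integrable (fun x => ‖w x‖ ^ q) := by
  have h1 : Integrable ((Metric.closedBall (0 : Sp d) R).indicator
      fun _ => ((2 : ℝ) ^ N) ^ q) := by
    rw [integrable_indicator_iff Metric.isClosed_closedBall.measurableSet]
    exact integrableOn_const measure_closedBall_lt_top.ne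
  refine h1.mono' (h.meas.norm.pow_const q).aestronglyMeasurable (Eventually.of_forall fun x => ?_)
  rw [Real.norm_of_nonneg (by positivity)]
  by_cases hx : w x = 0
  · rw [hx, norm_zero, Real.zero_rpow hq.ne']
    apply indicator_nonneg
    intro y _
    positivity
  · rw [indicator_of_mem (by rw [mem_closedBall_zero_iff]; exact h.supp x hx)]
    exact Real.rpow_le_rpow (norm_nonneg _) (h.high x) hq.le

lemma Tame.ss_le (h : Tame w N R) {σ : ℝ} (hσ : 0 < σ) :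
    ss (Finset.Icc (-N) N) (fun j => (2 : ℝ) ^ j) (dyE w) (2 * σ) ≤
      2 ^ (2 * σ) * ∫ x, ‖w x‖ ^ (2 * σ) := by
  have h1 := h.stp.integral_sq (σ : ℂ)
  rw [Complex.ofReal_re] at h1
  rw [← h1, ← integral_const_mul]
  apply integral_mono (h.stp.integrable_sq _) ((h.integrable_rpow (by positivity)).const_mul _)
  intro x
  simp only
  by_cases hx : w x = 0
  · have h2 : MP497a12.stp (Finset.Icc (-N) N) (fun j => (2 : ℝ) ^ j) (dyE w) (σ : ℂ) x = 0 := by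
      apply stp_eq_zero
      intro j _ hxj
      exact dyE_ne hxj hx
    rw [h2, norm_zero, zero_pow (by norm_num)]
    positivity
  · obtain ⟨j, hj, hxj⟩ := h.cover hx
    have hj0 : (0 : ℝ) < 2 ^ j := by positivity
    rw [h.stp.eq_on _ hj hxj, Complex.norm_cpow_eq_rpow_re_of_pos hj0, Complex.ofReal_re,
      ← Real.rpow_natCast, ← Real.rpow_mul hj0.le, ← Real.mul_rpow (by norm_num) (norm_nonneg _)]
    have h2 := h.dyM_le x
    rw [h.dyM_eq hj hxj, Complex.norm_real, Real.norm_of_nonneg hj0.le] at h2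
    calc ((2 : ℝ) ^ j) ^ (σ * ((2 : ℕ) : ℝ)) = ((2 : ℝ) ^ j) ^ (2 * σ) := by
          congr 1; push_cast; ring
      _ ≤ _ := Real.rpow_le_rpow hj0.le h2 (by positivity)

lemma bil_dy {w₁ w₂ : Sp d → ℂ} (t1 : Tame w₁ N R) (t2 : Tame w₂ N R) (κ : ℂ) (A : ℝ)
    (f g : HS d) : bil (Finset.Icc (-N) N) (fun j => (2 : ℝ) ^ j) (dyE w₁) (fun j => (2 : ℝ) ^ j)
      (dyE w₂) κ A (Mop (dyQ w₁ N) f) (Mop (dyQ w₂ N) g) 1 =
      ⟪Fo (Mop w₁ f), Mop (fS κ A 1) (Fo (Mop w₂ g))⟫_ℂ := by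
  have e2 : (fun x => (starRingEnd ℂ) (MP497a12.stp (Finset.Icc (-N) N) (fun j => (2 : ℝ) ^ j)
      (dyE w₁) 1 x)) = dyM w₁ N := by
    funext x
    exact t1.conj_dyM x
  have e3 : Mop (fun x => (starRingEnd ℂ) (MP497a12.stp (Finset.Icc (-N) N)
      (fun j => (2 : ℝ) ^ j) (dyE w₁) 1 x)) (Mop (dyQ w₁ N) f) = Mop w₁ f :=
    (congrArg (fun W => Mop W (Mop (dyQ w₁ N) f)) e2).trans (t1.Mop_eq f).symm
  have e4 : Mop (MP497a12.stp (Finset.Icc (-N) N) (fun j => (2 : ℝ) ^ j) (dyE w₂) 1)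
      (Mop (dyQ w₂ N) g) = Mop w₂ g := (t2.Mop_eq g).symm
  unfold bil
  exact congrArg₂ (fun X Y => ⟪Fo X, Mop (fS κ A 1) (Fo Y)⟫_ℂ) e3 e4

lemma ss_dy {w : Sp d → ℂ} (hw : Tame w N R) {σ : ℝ} (hσ : 0 < σ) :
    ss (Finset.Icc (-N) N) (fun j => (2 : ℝ) ^ j) (dyE w) (2 * σ) ^ (1 / (2 * σ)) ≤
      2 * (∫ x, ‖w x‖ ^ (2 * σ)) ^ (1 / (2 * σ)) := by
  have hI : 0 ≤ ∫ x, ‖w x‖ ^ (2 * σ) := integral_nonneg fun x => by positivity
  calc ss (Finset.Icc (-N) N) (fun j => (2 : ℝ) ^ j) (dyE w) (2 * σ) ^ (1 / (2 * σ))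
      ≤ (2 ^ (2 * σ) * ∫ x, ‖w x‖ ^ (2 * σ)) ^ (1 / (2 * σ)) :=
        Real.rpow_le_rpow (hw.stp.ss_nonneg _) (hw.ss_le hσ) (by positivity)
    _ = 2 * (∫ x, ‖w x‖ ^ (2 * σ)) ^ (1 / (2 * σ)) := by
        rw [Real.mul_rpow (by positivity) hI, ← Real.rpow_mul (by norm_num)]
        congr 1
        rw [mul_one_div_cancel (by positivity), Real.rpow_one]

lemma fin_arith {c s1 s2 i1 i2 p q a b : ℝ} (hc : 0 ≤ c) (hs1 : 0 ≤ s1) (hs2 : 0 ≤ s2)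
    (hp : 0 ≤ p) (hq : 0 ≤ q) (h1 : s1 ≤ 2 * i1) (h2 : s2 ≤ 2 * i2) (h3 : p ≤ a) (h4 : q ≤ b) :
    c * (s1 * s2) * (p * q) ≤ (4 * c) * (i1 * i2) * (a * b) := by
  have h5 : s1 * s2 ≤ (2 * i1) * (2 * i2) := mul_le_mul h1 h2 hs2 (hs1.trans h1)
  have h6 : p * q ≤ a * b := mul_le_mul h3 h4 hq (hp.trans h3)
  have h7 : c * (s1 * s2) ≤ c * ((2 * i1) * (2 * i2)) := mul_le_mul_of_nonneg_left h5 hc
  have h8 : 0 ≤ c * (s1 * s2) := by positivity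
  calc c * (s1 * s2) * (p * q) ≤ c * ((2 * i1) * (2 * i2)) * (a * b) :=
        mul_le_mul h7 h6 (by positivity) (h8.trans h7)
    _ = _ := by ring

/-- **The bilinear estimate.** -/
theorem bilT {n : ℕ} {σ : ℝ} (h1 : ((n + 1 : ℕ) : ℝ) / 2 < σ)
    (h2 : σ < ((n + 1 : ℕ) : ℝ) / 2 + 1) (hσ1 : 1 ≤ σ) : ∃ C : ℝ, 0 < C ∧
    ∀ (w₁ w₂ : Sp (n + 1) → ℂ) (N : ℤ) (R : ℝ) (κ : ℂ) (A G : ℝ) (B : Set (Sp (n + 1)))
      (f g : HS (n + 1)), Tame w₁ N R → Tame w₂ N R → 0 < κ.re → ‖κ‖ = 1 → 0 < A →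
      (∀ x, w₁ x ≠ 0 → x ∈ B) → (∀ x, w₂ x ≠ 0 → x ∈ B) → 0 ≤ G →
      (∀ x ∈ B, ∀ y ∈ B, (1 + 4 * (π * √A * ‖x - y‖)) ^
        (max (σ - ((n + 1 : ℕ) : ℝ) / 2 - 1 / 2) 0) ≤ G) →
      ‖⟪Fo (Mop w₁ f), Mop (fS κ A 1) (Fo (Mop w₂ g))⟫_ℂ‖ ≤
        C * (A ^ (((n + 1 : ℕ) : ℝ) / 2 - σ) * G) ^ (1 / σ) *
        ((∫ x, ‖w₁ x‖ ^ (2 * σ)) ^ (1 / (2 * σ)) * (∫ x, ‖w₂ x‖ ^ (2 * σ)) ^ (1 / (2 * σ))) *
          (‖f‖ * ‖g‖) := by
  obtain ⟨C, hC0, hC⟩ := three h1 h2 hσ1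
  have hσ0 : 0 < σ := by linarith
  refine ⟨4 * C, by positivity, ?_⟩
  intro w₁ w₂ N R κ A G B f g t1 t2 hκ hκ1 hA hB1 hB2 hG0 hG
  have key := hC (Finset.Icc (-N) N) (fun j => (2 : ℝ) ^ j) (fun j => (2 : ℝ) ^ j) (dyE w₁)
    (dyE w₂) κ A G B (Mop (dyQ w₁ N) f) (Mop (dyQ w₂ N) g) t1.stp t2.stp hκ hκ1 hA
    (fun j _ x hx => hB1 x (dyE_ne hx)) (fun j _ x hx => hB2 x (dyE_ne hx)) hG0 hG
  rw [bil_dy t1 t2 κ A f g] at key
  refine key.trans ?_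
  have h9 : 0 ≤ C * (A ^ (((n + 1 : ℕ) : ℝ) / 2 - σ) * G) ^ (1 / σ) := by positivity
  have h10 := fin_arith h9 (Real.rpow_nonneg (t1.stp.ss_nonneg (2 * σ)) (1 / (2 * σ)))
    (Real.rpow_nonneg (t2.stp.ss_nonneg (2 * σ)) (1 / (2 * σ))) (norm_nonneg _) (norm_nonneg _)
    (ss_dy t1 hσ0) (ss_dy t2 hσ0) (t1.norm_Mop_dyQ f) (t2.norm_Mop_dyQ g)
  rw [← mul_assoc 4 C] at h10
  exact h10

end MP497a12
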