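import Mathlib

/-!
# Abstract operator theory: analytic Fredholm theorem for pencils, stability of kernels
-/

open Filter Topology
open scoped InnerProductSpace

namespace MP497a12

namespace Abs

set_option linter.unusedSectionVars false

variable {H : Type*} [NormedAddCommGroup H] [InnerProductSpace ℂ H] [CompleteSpace H]

/-- Fredholm alternative for `B + K`. -/
lemma isUnit_of_injective {B K : H →L[ℂ] H} (hB : IsUnit B) (hK : IsCompactOperator K)
    (h : ∀ φ, (B + K) φ = 0 → φ = 0) : IsUnit (B + K) := by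
  obtain ⟨u, rfl⟩ := hB
  set T : H →L[ℂ] H := -((↑u⁻¹ : H →L[ℂ] H) * K) with hT
  have hTc : IsCompactOperator T := (hK.clm_comp (↑u⁻¹ : H →L[ℂ] H)).neg
  have hu : ∀ x : H, (u : H →L[ℂ] H) ((↑u⁻¹ : H →L[ℂ] H) x) = x := by
    intro x
    have : ((u : H →L[ℂ] H) * (↑u⁻¹ : H →L[ℂ] H)) x = x := by
      rw [Units.mul_inv]; rfl
    exact this
  rcases hTc.hasEigenvalue_or_mem_resolventSet (one_ne_zero (α := ℂ)) with h1 | h1
  · exfalso
    obtain ⟨φ, hφ⟩ := h1.exists_hasEigenvector
    have h2 : T φ = (1 : ℂ) • φ := Module.End.HasEigenvector.apply_eq_smul hφ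
    apply hφ.2
    apply h
    rw [one_smul] at h2
    have h3 : (u : H →L[ℂ] H) (T φ) = (u : H →L[ℂ] H) φ := by rw [h2]
    have h4 : (u : H →L[ℂ] H) (T φ) = - K φ := by
      rw [hT]
      simp only [_root_.neg_apply, map_neg]
      congr 1
      exact hu (K φ)
    rw [h4] at h3
    rw [_root_.add_apply, ← h3]
    simp
  · rw [spectrum.mem_resolventSet_iff] at h1
    have h2 : (u : H →L[ℂ] H) + K = (u : H →L[ℂ] H) * ((algebraMap ℂ (H →L[ℂ] H)) 1 - T) := by
      rw [hT, map_one, mul_sub, mul_neg, mul_one, ← mul_assoc, Units.mul_inv, one_mul,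
        sub_neg_eq_add]
    rw [h2]
    exact u.isUnit.mul h1

/-- Compact operators are approximated by operators of finite rank. -/
lemma exists_proj_approx {K : H →L[ℂ] H} (hK : IsCompactOperator K) {δ : ℝ} (hδ : 0 < δ) :
    ∃ (E : Submodule ℂ H) (_ : FiniteDimensional ℂ E), ∀ x,
      ‖K x - E.starProjection (K x)‖ ≤ δ * ‖x‖ := by
  obtain ⟨C, hC, hsub⟩ := hK.image_closedBall_subset_compact 1
  obtain ⟨t, ht, hCt⟩ := Metric.totallyBounded_iff.mp hC.totallyBounded δ hδ
  refine ⟨Submodule.span ℂ t, FiniteDimensional.span_of_finite ℂ ht, ?_⟩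
  have : FiniteDimensional ℂ (Submodule.span ℂ t) := FiniteDimensional.span_of_finite ℂ ht
  have key : ∀ x : H, ‖x‖ ≤ 1 → ‖K x - (Submodule.span ℂ t).starProjection (K x)‖ ≤ δ := by
    intro x hx
    have h1 : K x ∈ C := hsub ⟨x, by simpa using hx, rfl⟩
    obtain ⟨y, hy, hxy⟩ := Set.mem_iUnion₂.mp (hCt h1)
    rw [Submodule.starProjection_minimal]
    refine (ciInf_le ⟨0, ?_⟩ (⟨y, Submodule.subset_span hy⟩ : Submodule.span ℂ t)).trans ?_
    · rintro _ ⟨z, rfl⟩; exact norm_nonneg _
    · rw [mem_ball_iff_norm] at hxy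
      exact hxy.le
  intro x
  by_cases hx : x = 0
  · subst hx; simp
  have hxn : 0 < ‖x‖ := norm_pos_iff.mpr hx
  have h1 := key ((‖x‖⁻¹ : ℂ) • x) (by
    rw [norm_smul, norm_inv, Complex.norm_real, norm_norm, inv_mul_cancel₀ hxn.ne'])
  rw [map_smul, map_smul, ← smul_sub, norm_smul, norm_inv, Complex.norm_real, norm_norm] at h1
  rw [inv_mul_le_iff₀ hxn] at h1
  linarith

lemma exists_isUnit_nhds {B : H →L[ℂ] H} (hB : IsUnit B) :
    ∃ ρ > 0, ∀ X : H →L[ℂ] H, ‖X - B‖ < ρ → IsUnit X := by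
  obtain ⟨ρ, hρ, h⟩ := Metric.isOpen_iff.mp (Units.isOpen (R := H →L[ℂ] H)) B hB
  exact ⟨ρ, hρ, fun X hX => h (by rwa [mem_ball_iff_norm])⟩

lemma isUnit_apply_inverse {B : H →L[ℂ] H} (hB : IsUnit B) (x : H) :
    B (Ring.inverse B x) = x := by
  have := Ring.mul_inverse_cancel B hB
  calc B (Ring.inverse B x) = (B * Ring.inverse B) x := rfl
    _ = x := by rw [this]; rfl

lemma isUnit_inverse_apply {B : H →L[ℂ] H} (hB : IsUnit B) (x : H) :
    Ring.inverse B (B x) = x := by
  have := Ring.inverse_mul_cancel B hB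
  calc Ring.inverse B (B x) = (Ring.inverse B * B) x := rfl
    _ = x := by rw [this]; rfl

/-- Local version of the analytic Fredholm theorem. -/
lemma local_alt {P S K : H →L[ℂ] H} (hK : IsCompactOperator K) {z₀ : ℂ}
    (hB : IsUnit (P - z₀ • S)) :
    (∀ᶠ z in 𝓝 z₀, ∃ φ, φ ≠ 0 ∧ (P + K - z • S) φ = 0) ∨
      (∀ᶠ z in 𝓝[≠] z₀, ∀ φ, (P + K - z • S) φ = 0 → φ = 0) := by
  obtain ⟨ρ, hρ, hunit⟩ := exists_isUnit_nhds hB
  obtain ⟨E, hE, happ⟩ := exists_proj_approx hK (δ := ρ / 2) (by positivity)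
  set K₁ : H →L[ℂ] H := K - E.starProjection ∘L K with hK₁
  set B₁ : ℂ → (H →L[ℂ] H) := fun z => P + K₁ - z • S with hB₁
  have hB₁d : Differentiable ℂ B₁ := by
    rw [hB₁]; fun_prop
  have hK₁n : ‖K₁‖ ≤ ρ / 2 := by
    apply ContinuousLinearMap.opNorm_le_bound _ (by positivity)
    intro x
    exact happ x
  have hz₀ : IsUnit (B₁ z₀) := by
    apply hunit
    have : B₁ z₀ - (P - z₀ • S) = K₁ := by rw [hB₁]; simp only; abel
    rw [this]
    linarith
  have hev : ∀ᶠ z in 𝓝 z₀, IsUnit (B₁ z) :=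
    hB₁d.continuous.continuousAt.eventually (Units.isOpen.mem_nhds hz₀)
  set b := stdOrthonormalBasis ℂ E with hb
  set n := Module.finrank ℂ E with hn
  set M : ℂ → Matrix (Fin n) (Fin n) ℂ := fun z => Matrix.of fun i j =>
    (if i = j then (1 : ℂ) else 0) +
      ⟪((b i : E) : H), K (Ring.inverse (B₁ z) ((b j : E) : H))⟫_ℂ with hM
  -- the kernel in terms of the matrix
  have hcomb : ∀ e : E, (e : H) = ∑ j, ⟪((b j : E) : H), (e : H)⟫_ℂ • ((b j : E) : H) := by
    intro e
    have h1 := b.sum_repr e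
    have h2 := congrArg Subtype.val h1
    simp only [Submodule.coe_sum, Submodule.coe_smul] at h2
    conv_lhs => rw [← h2]
    apply Finset.sum_congr rfl
    intro j _
    rw [b.repr_apply_apply]
    rfl
  have hker : ∀ z, IsUnit (B₁ z) →
      ((∃ φ, φ ≠ 0 ∧ (P + K - z • S) φ = 0) ↔ (M z).det = 0) := by
    intro z hz
    rw [← Matrix.exists_mulVec_eq_zero_iff]
    have hA : ∀ φ, (P + K - z • S) φ = B₁ z φ + E.starProjection (K φ) := by
      intro φ
      have : P + K - z • S = B₁ z + E.starProjection ∘L K := by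
        simp only [hB₁, hK₁]; abel
      rw [this]; rfl
    constructor
    · rintro ⟨φ, hφ0, hφ⟩
      rw [hA] at hφ
      set e : H := B₁ z φ with he
      have heE : e = - E.starProjection (K φ) := eq_neg_of_add_eq_zero_left hφ
      have heE' : e ∈ E := by
        rw [heE]; exact E.neg_mem (Submodule.starProjection_apply_mem _ _)
      have hφe : φ = Ring.inverse (B₁ z) e := (isUnit_inverse_apply hz φ).symm
      refine ⟨fun j => ⟪((b j : E) : H), e⟫_ℂ, ?_, ?_⟩
      · intro h0
        apply hφ0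
        have : e = 0 := by
          have h1 := hcomb ⟨e, heE'⟩
          simp only at h1
          rw [h1]
          apply Finset.sum_eq_zero
          intro j _
          have := congrFun h0 j
          simp only [Pi.zero_apply] at this
          rw [this, zero_smul]
        rw [hφe, this, map_zero]
      · funext i
        simp only [Matrix.mulVec, dotProduct, hM, Matrix.of_apply, Pi.zero_apply, add_mul,
          Finset.sum_add_distrib, ite_mul, one_mul, zero_mul, Finset.sum_ite_eq,
          Finset.mem_univ, if_true]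
        have h1 : ∑ j, ⟪((b i : E) : H), K (Ring.inverse (B₁ z) ((b j : E) : H))⟫_ℂ *
            ⟪((b j : E) : H), e⟫_ℂ = ⟪((b i : E) : H), K φ⟫_ℂ := by
          rw [hφe]
          conv_rhs => rw [show e = ∑ j, ⟪((b j : E) : H), e⟫_ℂ • ((b j : E) : H) from
            hcomb ⟨e, heE'⟩]
          rw [map_sum, map_sum, inner_sum]
          apply Finset.sum_congr rfl
          intro j _
          rw [map_smul, map_smul, inner_smul_right]
          ring
        rw [h1, heE, inner_neg_right]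
        have h2 : ⟪((b i : E) : H), E.starProjection (K φ)⟫_ℂ = ⟪((b i : E) : H), K φ⟫_ℂ := by
          rw [← Submodule.inner_starProjection_left_eq_right,
            Submodule.starProjection_eq_self_iff.mpr (b i).2]
        rw [h2]; ring
    · rintro ⟨v, hv0, hv⟩
      set e : H := ∑ j, v j • ((b j : E) : H) with he
      have heE' : e ∈ E := E.sum_mem fun j _ => E.smul_mem _ (b j).2
      have hve : ∀ i, ⟪((b i : E) : H), e⟫_ℂ = v i := by
        intro i
        rw [he, inner_sum]
        simp_rw [inner_smul_right]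
        have : ∀ j, ⟪((b i : E) : H), ((b j : E) : H)⟫_ℂ = if i = j then 1 else 0 := by
          intro j
          have := orthonormal_iff_ite.mp b.orthonormal i j
          rw [← this]; rfl
        simp_rw [this]
        simp
      have hi : ∀ i, v i + ⟪((b i : E) : H), K (Ring.inverse (B₁ z) e)⟫_ℂ = 0 := by
        intro i
        have h1 := congrFun hv i
        simp only [Matrix.mulVec, dotProduct, hM, Matrix.of_apply, Pi.zero_apply, add_mul,
          Finset.sum_add_distrib, ite_mul, one_mul, zero_mul, Finset.sum_ite_eq,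
          Finset.mem_univ, if_true] at h1
        rw [← h1]
        congr 1
        rw [he, map_sum, map_sum, inner_sum]
        apply Finset.sum_congr rfl
        intro j _
        rw [map_smul, map_smul, inner_smul_right]
        ring
      refine ⟨Ring.inverse (B₁ z) e, ?_, ?_⟩
      · intro h0
        apply hv0
        have h1 : e = 0 := by
          rw [← isUnit_apply_inverse hz e, h0, map_zero]
        funext i
        rw [← hve i, h1, inner_zero_right]; rfl
      · rw [hA, isUnit_apply_inverse hz]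
        set w := E.starProjection (K (Ring.inverse (B₁ z) e)) with hw
        have hwE : w ∈ E := Submodule.starProjection_apply_mem _ _
        have h1 := hcomb ⟨e + w, E.add_mem heE' hwE⟩
        simp only at h1
        rw [h1]
        apply Finset.sum_eq_zero
        intro i _
        have h2 : ⟪((b i : E) : H), w⟫_ℂ = ⟪((b i : E) : H), K (Ring.inverse (B₁ z) e)⟫_ℂ := by
          rw [hw, ← Submodule.inner_starProjection_left_eq_right,
            Submodule.starProjection_eq_self_iff.mpr (b i).2]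
        rw [inner_add_right, hve, h2, hi, zero_smul]
  -- analyticity of the determinant
  have han : AnalyticAt ℂ (fun z => (M z).det) z₀ := by
    have hs : {z | IsUnit (B₁ z)} ∈ 𝓝 z₀ := hev
    apply DifferentiableOn.analyticAt (s := {z | IsUnit (B₁ z)}) _ hs
    have hent : ∀ i j, DifferentiableOn ℂ (fun z => M z i j) {z | IsUnit (B₁ z)} := by
      intro i j
      simp only [hM, Matrix.of_apply]
      apply DifferentiableOn.const_add
      have h1 : DifferentiableOn ℂ (fun z => Ring.inverse (B₁ z)) {z | IsUnit (B₁ z)} :=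
        DifferentiableOn.inverse hB₁d.differentiableOn fun z hz => hz
      have h2 : (fun z => ⟪((b i : E) : H), K (Ring.inverse (B₁ z) ((b j : E) : H))⟫_ℂ) =
          fun z => (innerSL ℂ ((b i : E) : H)).comp K (Ring.inverse (B₁ z) ((b j : E) : H)) := by
        funext z; rfl
      rw [h2]
      have h3 : DifferentiableOn ℂ (fun z => Ring.inverse (B₁ z) ((b j : E) : H))
          {z | IsUnit (B₁ z)} := h1.clm_apply (differentiableOn_const _)
      exact ((innerSL ℂ ((b i : E) : H)).comp K).differentiable.comp_differentiableOn h3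
    simp only [Matrix.det_apply]
    apply DifferentiableOn.fun_sum
    intro σ _
    apply DifferentiableOn.const_smul
    apply DifferentiableOn.fun_finsetProd
    intro i _
    exact hent _ _
  rcases han.eventually_eq_zero_or_eventually_ne_zero with h | h
  · left
    filter_upwards [h, hev] with z h1 h2
    exact (hker z h2).mpr h1
  · right
    have hev' : ∀ᶠ z in 𝓝[≠] z₀, IsUnit (B₁ z) := hev.filter_mono nhdsWithin_le_nhds
    filter_upwards [h, hev'] with z h1 h2 φ hφ
    by_contra hne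
    exact h1 ((hker z h2).mp ⟨φ, hne, hφ⟩)

/-- Analytic Fredholm theorem for the pencil `P + K - z S`. -/
theorem fredholm_discrete {P S K : H →L[ℂ] H} (hK : IsCompactOperator K) {U : Set ℂ}
    (hU : IsOpen U) (hUc : IsPreconnected U) (hB : ∀ z ∈ U, IsUnit (P - z • S)) {z₁ : ℂ}
    (hz₁ : z₁ ∈ U) (hinj : ∀ φ, (P + K - z₁ • S) φ = 0 → φ = 0) {z₀ : ℂ} (hz₀ : z₀ ∈ U) :
    ∀ᶠ z in 𝓝[≠] z₀, IsUnit (P + K - z • S) := by
  set u : Set ℂ := {z | ∀ᶠ w in 𝓝 z, ∃ φ, φ ≠ 0 ∧ (P + K - w • S) φ = 0} with hu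
  set v : Set ℂ := {z | ∀ᶠ w in 𝓝[≠] z, ∀ φ, (P + K - w • S) φ = 0 → φ = 0} with hv
  have huo : IsOpen u := isOpen_setOfPred_eventually_nhds
  have hvo : IsOpen v := by
    rw [isOpen_iff_eventually]
    intro z hz
    have h1 : ∀ᶠ y in 𝓝[≠] z, y ∈ v := by
      have h2 := eventually_eventually_nhdsWithin.mpr hz
      filter_upwards [h2, self_mem_nhdsWithin] with y hy hyz
      have h3 : 𝓝[{z}ᶜ] y = 𝓝 y := IsOpen.nhdsWithin_eq isOpen_compl_singleton hyz
      rw [h3] at hy
      exact hy.filter_mono nhdsWithin_le_nhds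
    rw [eventually_nhdsWithin_iff] at h1
    filter_upwards [h1] with y hy
    by_cases hyz : y = z
    · rw [hyz]; exact hz
    · exact hy hyz
  have hcov : U ⊆ u ∪ v := by
    intro z hz
    rcases local_alt hK (hB z hz) with h | h
    · exact Or.inl h
    · exact Or.inr h
  have hdis : ∀ z, ¬ (z ∈ u ∧ z ∈ v) := by
    rintro z ⟨h1, h2⟩
    have h3 : ∀ᶠ w in 𝓝[≠] z, ∃ φ, φ ≠ 0 ∧ (P + K - w • S) φ = 0 :=
      h1.filter_mono nhdsWithin_le_nhds
    obtain ⟨w, ⟨φ, hφ, hφ'⟩, h5⟩ := (h3.and h2).exists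
    exact hφ (h5 φ hφ')
  have hz₁v : z₁ ∈ v := by
    rcases hcov hz₁ with h | h
    · exfalso
      obtain ⟨φ, hφ, hφ'⟩ := h.self_of_nhds
      exact hφ (hinj φ hφ')
    · exact h
  have hz₀v : z₀ ∈ v := by
    rcases hcov hz₀ with h | h
    · exfalso
      obtain ⟨w, hw, hw1, hw2⟩ := hUc u v huo hvo hcov ⟨z₀, hz₀, h⟩ ⟨z₁, hz₁, hz₁v⟩
      exact hdis w ⟨hw1, hw2⟩
    · exact h
  have hU' : ∀ᶠ z in 𝓝[≠] z₀, z ∈ U := by
    have h : ∀ᶠ z in 𝓝 z₀, z ∈ U := hU.mem_nhds hz₀
    exact h.filter_mono nhdsWithin_le_nhds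
  filter_upwards [hz₀v, hU'] with z h1 h2
  have h3 : P + K - z • S = (P - z • S) + K := by abel
  rw [h3]
  apply isUnit_of_injective (hB z h2) hK
  intro φ hφ
  apply h1
  rw [h3]
  exact hφ

/-- Stability: an operator family that is bounded below on a circle and has an approximate
kernel vector at the centre is not invertible somewhere in the disc. -/
lemma stab {A : ℂ → H →L[ℂ] H} (hA : Differentiable ℂ A) {z₀ : ℂ} {r C : ℝ} (hr : 0 < r)
    (hcirc : ∀ z, ‖z - z₀‖ = r → ∀ φ, ‖φ‖ ≤ C * ‖A z φ‖) {φ : H}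
    (hφ : C * ‖A z₀ φ‖ < ‖φ‖) : ∃ z, ‖z - z₀‖ ≤ r ∧ ¬ IsUnit (A z) := by
  by_contra! hcon
  set F : ℂ → H := fun z => Ring.inverse (A z) (A z₀ φ) with hF
  have hFd : DifferentiableOn ℂ F (Metric.closedBall z₀ r) := by
    have h1 : DifferentiableOn ℂ (fun z => Ring.inverse (A z)) (Metric.closedBall z₀ r) :=
      DifferentiableOn.inverse hA.differentiableOn
        fun z hz => hcon z (by rwa [mem_closedBall_iff_norm] at hz)
    exact h1.clm_apply (differentiableOn_const _)
  have hFc : DiffContOnCl ℂ F (Metric.ball z₀ r) := by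
    apply DifferentiableOn.diffContOnCl
    rw [closure_ball z₀ hr.ne']
    exact hFd
  have h1 : ‖F z₀‖ ≤ C * ‖A z₀ φ‖ := by
    apply Complex.norm_le_of_forall_mem_frontier_norm_le Metric.isBounded_ball hFc _
      (subset_closure (Metric.mem_ball_self hr))
    intro z hz
    rw [frontier_ball z₀ hr.ne', mem_sphere_iff_norm] at hz
    refine (hcirc z hz _).trans ?_
    rw [hF]
    simp only
    rw [isUnit_apply_inverse (hcon z hz.le)]
  rw [hF] at h1
  simp only at h1
  rw [isUnit_inverse_apply (hcon z₀ (by simpa using hr.le))] at h1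
  linarith

lemma starProjection_eq_sum (E : Submodule ℂ H) [FiniteDimensional ℂ E] (x : H) :
    E.starProjection x = ∑ j, ⟪((stdOrthonormalBasis ℂ E j : E) : H), x⟫_ℂ •
      ((stdOrthonormalBasis ℂ E j : E) : H) := by
  set b := stdOrthonormalBasis ℂ E with hb
  have hw : E.starProjection x ∈ E := Submodule.starProjection_apply_mem _ _
  have h1 := b.sum_repr ⟨E.starProjection x, hw⟩
  have h2 := congrArg Subtype.val h1
  simp only [Submodule.coe_sum, Submodule.coe_smul] at h2
  conv_lhs => rw [← h2]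
  apply Finset.sum_congr rfl
  intro j _
  rw [b.repr_apply_apply]
  congr 1
  have h3 : ⟪((b j : E) : H), E.starProjection x⟫_ℂ = ⟪((b j : E) : H), x⟫_ℂ := by
    rw [← Submodule.inner_starProjection_left_eq_right,
      Submodule.starProjection_eq_self_iff.mpr (b j).2]
  rw [← h3]
  rfl

/-- Compact operators map weakly null families to null families. -/
lemma tendsto_of_weak {ι : Type*} {l : Filter ι} {K : H →L[ℂ] H} (hK : IsCompactOperator K)
    {w : ι → H} {c : ℝ} (hw : ∀ i, ‖w i‖ ≤ c)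
    (hweak : ∀ h, Tendsto (fun i => ⟪h, w i⟫_ℂ) l (𝓝 0)) :
    Tendsto (fun i => K (w i)) l (𝓝 0) := by
  rw [Metric.tendsto_nhds]
  intro ε hε
  have hc : 0 < |c| + 1 := by positivity
  obtain ⟨E, hE, happ⟩ := exists_proj_approx hK (δ := ε / 2 / (|c| + 1)) (by positivity)
  have h1 : Tendsto (fun i => E.starProjection (K (w i))) l (𝓝 0) := by
    simp_rw [starProjection_eq_sum]
    rw [show (0 : H) = ∑ j : Fin (Module.finrank ℂ E),
      (0 : ℂ) • ((stdOrthonormalBasis ℂ E j : E) : H) by simp]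
    apply tendsto_finsetSum
    intro j _
    apply Tendsto.smul_const
    have h2 := hweak (ContinuousLinearMap.adjoint K ((stdOrthonormalBasis ℂ E j : E) : H))
    refine h2.congr fun i => ?_
    rw [ContinuousLinearMap.adjoint_inner_left]
  rw [Metric.tendsto_nhds] at h1
  filter_upwards [h1 (ε / 2) (by positivity)] with i hi
  rw [dist_zero_right] at hi ⊢
  have h3 := happ (w i)
  have h4 : ε / 2 / (|c| + 1) * ‖w i‖ ≤ ε / 2 := by
    rw [div_mul_eq_mul_div, div_le_iff₀ hc]
    have : ‖w i‖ ≤ |c| + 1 := (hw i).trans (by linarith [le_abs_self c])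
    gcongr
  calc ‖K (w i)‖ = ‖(K (w i) - E.starProjection (K (w i))) + E.starProjection (K (w i))‖ := by
        congr 1; abel
    _ ≤ ‖K (w i) - E.starProjection (K (w i))‖ + ‖E.starProjection (K (w i))‖ := norm_add_le _ _
    _ < ε := by linarith

lemma tendsto_norm_comp {ι : Type*} {l : Filter ι} {K' K : H →L[ℂ] H}
    (hK' : IsCompactOperator K') (hK : IsCompactOperator K) {T : ι → H →L[ℂ] H}
    (hT : ∀ i f, ‖T i f‖ ≤ ‖f‖) (hweak : ∀ h f, Tendsto (fun i => ⟪h, T i f⟫_ℂ) l (𝓝 0)) :
    Tendsto (fun i => ‖K' ∘L T i ∘L K‖) l (𝓝 0) := by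
  rw [Metric.tendsto_nhds]
  intro ε hε
  have hc : 0 < ‖K'‖ + 1 := by positivity
  obtain ⟨E, hE, happ⟩ := exists_proj_approx hK (δ := ε / 4 / (‖K'‖ + 1)) (by positivity)
  have h1 : Tendsto (fun i => ‖K‖ * ∑ j : Fin (Module.finrank ℂ E),
      ‖K' (T i ((stdOrthonormalBasis ℂ E j : E) : H))‖) l (𝓝 0) := by
    rw [show (0 : ℝ) = ‖K‖ * ∑ j : Fin (Module.finrank ℂ E), ‖(0 : H)‖ by simp]
    apply Tendsto.const_mul
    apply tendsto_finsetSum
    intro j _
    apply Tendsto.norm
    exact tendsto_of_weak hK' (fun i => hT i _) fun h => hweak h _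
  rw [Metric.tendsto_nhds] at h1
  filter_upwards [h1 (ε / 2) (by positivity)] with i hi
  rw [dist_zero_right] at hi
  rw [dist_zero_right, norm_norm]
  have hi' := (le_abs_self _).trans_lt hi
  have h2 : ‖K' ∘L T i ∘L K‖ ≤ ε / 4 + ‖K‖ * ∑ j : Fin (Module.finrank ℂ E),
      ‖K' (T i ((stdOrthonormalBasis ℂ E j : E) : H))‖ := by
    apply ContinuousLinearMap.opNorm_le_bound _ (by positivity)
    intro x
    have e1 : (K' ∘L T i ∘L K) x = K' (T i (K x - E.starProjection (K x))) +
        K' (T i (E.starProjection (K x))) := by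
      rw [← map_add, ← map_add]
      simp
    rw [e1, add_mul]
    refine (norm_add_le _ _).trans (add_le_add ?_ ?_)
    · calc ‖K' (T i (K x - E.starProjection (K x)))‖
          ≤ ‖K'‖ * ‖T i (K x - E.starProjection (K x))‖ := K'.le_opNorm _
        _ ≤ ‖K'‖ * (ε / 4 / (‖K'‖ + 1) * ‖x‖) := by
            gcongr
            exact (hT i _).trans (happ x)
        _ = (‖K'‖ / (‖K'‖ + 1)) * (ε / 4 * ‖x‖) := by ring
        _ ≤ 1 * (ε / 4 * ‖x‖) := by
            gcongr
            rw [div_le_one hc]; linarith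
        _ = ε / 4 * ‖x‖ := one_mul _
    · rw [starProjection_eq_sum, map_sum, map_sum]
      refine (norm_sum_le _ _).trans ?_
      rw [mul_assoc, mul_comm _ ‖x‖, ← mul_assoc, Finset.mul_sum]
      apply Finset.sum_le_sum
      intro j _
      rw [map_smul, map_smul, norm_smul]
      gcongr
      calc ‖⟪((stdOrthonormalBasis ℂ E j : E) : H), K x⟫_ℂ‖
          ≤ ‖((stdOrthonormalBasis ℂ E j : E) : H)‖ * ‖K x‖ := norm_inner_le_norm _ _
        _ = ‖K x‖ := by
            have : ‖((stdOrthonormalBasis ℂ E j : E) : H)‖ = 1 :=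
              (stdOrthonormalBasis ℂ E).orthonormal.1 j
            rw [this, one_mul]
        _ ≤ ‖K‖ * ‖x‖ := K.le_opNorm x
  linarith

lemma eventually_forall_compact {X Y : Type*} [TopologicalSpace Y] {l : Filter X} {C : Set Y}
    (hC : IsCompact C) {Q : X → Y → Prop} (hQ : ∀ y ∈ C, ∀ᶠ z : X × Y in l ×ˢ 𝓝 y, Q z.1 z.2) :
    ∀ᶠ x in l, ∀ y ∈ C, Q x y := by
  have h1 : {z : X × Y | Q z.1 z.2} ∈ l ×ˢ 𝓝ˢ C := hC.mem_prod_nhdsSet_of_forall hQ
  have h2 : ∀ᶠ z : X × Y in l ×ˢ 𝓝ˢ C, Q z.1 z.2 := h1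
  exact h2.curry.mono fun _ h ↦ h.self_of_nhdsSet

end Abs

end MP497a12
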