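import Mathlib
import Pool.Agent.Lib.MP_497a12_mp.GAbs

/-!
# Persistence of kernels under the addition of far away potentials
-/

open Filter Topology
open scoped InnerProductSpace

namespace MP497a12

namespace Abs

set_option linter.unusedSectionVars false

variable {H : Type*} [NormedAddCommGroup H] [InnerProductSpace ℂ H] [CompleteSpace H]

/-- A unitary operator as a bounded operator. -/
noncomputable def cl (T : H ≃ₗᵢ[ℂ] H) : H →L[ℂ] H := T.toLinearIsometry.toContinuousLinearMap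

lemma cl_apply (T : H ≃ₗᵢ[ℂ] H) (f : H) : cl T f = T f := rfl

/-- Conjugation with a unitary operator. -/
noncomputable def cj (T : H ≃ₗᵢ[ℂ] H) (K : H →L[ℂ] H) : H →L[ℂ] H :=
  cl T ∘L K ∘L cl T.symm

lemma cj_apply (T : H ≃ₗᵢ[ℂ] H) (K : H →L[ℂ] H) (f : H) : cj T K f = T (K (T.symm f)) := rfl

lemma isCompact_cj {T : H ≃ₗᵢ[ℂ] H} {K : H →L[ℂ] H} (hK : IsCompactOperator K) :
    IsCompactOperator (cj T K) := by
  unfold cj
  have h1 : IsCompactOperator (K ∘L cl T.symm) := hK.comp_clm (cl T.symm)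
  exact h1.clm_comp (cl T)

lemma isCompact_smul {K : H →L[ℂ] H} (hK : IsCompactOperator K) (g : ℂ) :
    IsCompactOperator (g • K : H →L[ℂ] H) := hK.smul g

lemma isCompact_add {K L : H →L[ℂ] H} (hK : IsCompactOperator K) (hL : IsCompactOperator L) :
    IsCompactOperator (K + L : H →L[ℂ] H) := hK.add hL

/-- The norm of a conjugated operator. -/
lemma norm_cj_apply_le (T : H ≃ₗᵢ[ℂ] H) (K : H →L[ℂ] H) (f : H) :
    ‖cj T K f‖ ≤ ‖K‖ * ‖f‖ := by
  rw [cj_apply, LinearIsometryEquiv.norm_map]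
  refine (K.le_opNorm _).trans ?_
  rw [LinearIsometryEquiv.norm_map]

lemma norm_cj_le (T : H ≃ₗᵢ[ℂ] H) (K : H →L[ℂ] H) : ‖cj T K‖ ≤ ‖K‖ :=
  ContinuousLinearMap.opNorm_le_bound _ (norm_nonneg _) (norm_cj_apply_le T K)

lemma bounded_inverse {A : ℂ → H →L[ℂ] H} (hA : Differentiable ℂ A) {C : Set ℂ}
    (hC : IsCompact C) (hu : ∀ z ∈ C, IsUnit (A z)) :
    ∃ M : ℝ, 0 < M ∧ ∀ z ∈ C, ∀ φ, ‖φ‖ ≤ M * ‖A z φ‖ := by
  have h1 : ContinuousOn (fun z => Ring.inverse (A z)) C :=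
    (DifferentiableOn.inverse hA.differentiableOn hu).continuousOn
  obtain ⟨M, hM⟩ := hC.exists_bound_of_continuousOn h1
  refine ⟨|M| + 1, by positivity, fun z hz φ => ?_⟩
  calc ‖φ‖ = ‖Ring.inverse (A z) (A z φ)‖ := by rw [isUnit_inverse_apply (hu z hz)]
    _ ≤ ‖Ring.inverse (A z)‖ * ‖A z φ‖ := ContinuousLinearMap.le_opNorm _ _
    _ ≤ (|M| + 1) * ‖A z φ‖ := by
        gcongr
        linarith [hM z hz, le_abs_self M]

/-- **Local persistence.** -/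
theorem persist_local {ι : Type*} {l : Filter ι} {P S Ka Kb : H →L[ℂ] H}
    (hKa : IsCompactOperator Ka) (hKb : IsCompactOperator Kb) {U : Set ℂ} (hU : IsOpen U)
    (hUc : IsPreconnected U) (hB : ∀ z ∈ U, IsUnit (P - z • S))
    (hia : ∀ g : ℂ, ∃ z ∈ U, ∀ φ, (P + g • Ka - z • S) φ = 0 → φ = 0)
    (hib : ∀ g : ℂ, ∃ z ∈ U, ∀ φ, (P + g • Kb - z • S) φ = 0 → φ = 0)
    {T : ι → H ≃ₗᵢ[ℂ] H} (hTP : ∀ i f, T i (P f) = P (T i f))
    (hTS : ∀ i f, T i (S f) = S (T i f))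
    (hweak : ∀ h f, Tendsto (fun i => ⟪h, T i f⟫_ℂ) l (𝓝 0))
    {Ω : Set ℂ} (hΩ : IsOpen Ω) (hΩU : Ω ⊆ U) {g₀ z₀ : ℂ} (hz₀ : z₀ ∈ Ω) {φ₀ : H}
    (hφ₀ : φ₀ ≠ 0) (hker : (P + g₀ • Ka - z₀ • S) φ₀ = 0) :
    ∀ᶠ p : ι × ℂ in l ×ˢ 𝓝 g₀, ∃ z ∈ Ω, ∃ φ, φ ≠ 0 ∧
      (P + p.2 • (Ka + cj (T p.1) Kb) - z • S) φ = 0 := by
  -- choice of the radius
  have ha : ∀ᶠ z in 𝓝[≠] z₀, IsUnit (P + g₀ • Ka - z • S) := by
    obtain ⟨z₁, hz₁, hinj⟩ := hia g₀
    exact fredholm_discrete (isCompact_smul hKa g₀) hU hUc hB hz₁ hinj (hΩU hz₀)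
  have hb : ∀ᶠ z in 𝓝[≠] z₀, IsUnit (P + g₀ • Kb - z • S) := by
    obtain ⟨z₁, hz₁, hinj⟩ := hib g₀
    exact fredholm_discrete (isCompact_smul hKb g₀) hU hUc hB hz₁ hinj (hΩU hz₀)
  have hΩ' : ∀ᶠ z in 𝓝 z₀, z ∈ Ω := hΩ.mem_nhds hz₀
  have hab := ha.and hb
  rw [eventually_nhdsWithin_iff] at hab
  obtain ⟨ρ, hρ, hball⟩ := Metric.eventually_nhds_iff.mp (hab.and hΩ')
  set r := ρ / 2 with hr
  have hr0 : 0 < r := by positivity
  set Cc : Set ℂ := Metric.sphere z₀ r with hCc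
  have hCcc : IsCompact Cc := isCompact_sphere z₀ r
  have hin : ∀ z, ‖z - z₀‖ ≤ r → z ∈ Ω := by
    intro z hz
    apply (hball _).2
    rw [dist_eq_norm]; linarith
  have hcirc : ∀ z ∈ Cc, IsUnit (P + g₀ • Ka - z • S) ∧ IsUnit (P + g₀ • Kb - z • S) := by
    intro z hz
    have hz' : ‖z - z₀‖ = r := by rwa [hCc, mem_sphere_iff_norm] at hz
    apply (hball _).1
    · intro h
      rw [h] at hz'
      simp at hz'
      linarith
    · rw [dist_eq_norm]; linarith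
  have hU' : ∀ z ∈ Cc, z ∈ U := by
    intro z hz
    apply hΩU
    apply hin
    have hz' : ‖z - z₀‖ = r := by rwa [hCc, mem_sphere_iff_norm] at hz
    exact hz'.le
  obtain ⟨Ma, hMa0, hMa⟩ := bounded_inverse (A := fun z => P + g₀ • Ka - z • S) (by fun_prop)
    hCcc fun z hz => (hcirc z hz).1
  obtain ⟨Mb, hMb0, hMb⟩ := bounded_inverse (A := fun z => P + g₀ • Kb - z • S) (by fun_prop)
    hCcc fun z hz => (hcirc z hz).2
  have hcont : ContinuousOn (fun z : ℂ => P - z • S) Cc := by fun_prop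
  obtain ⟨Mc', hMc'⟩ := hCcc.exists_bound_of_continuousOn hcont
  set Mc := |Mc'| + 1 with hMc
  have hMc0 : 0 < Mc := by positivity
  set M := Ma * Mc * Mb with hM
  have hM0 : 0 < M := by positivity
  -- the product operator
  have hprod : ∀ i, ∀ z ∈ Cc, ∀ φ, ‖φ‖ ≤ M *
      ‖T i ((P + g₀ • Kb - z • S) ((T i).symm (Ring.inverse (P - z • S)
        ((P + g₀ • Ka - z • S) φ))))‖ := by
    intro i z hz φ
    set w := (P + g₀ • Ka - z • S) φ with hw
    set w₂ := Ring.inverse (P - z • S) w with hw₂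
    have h1 : ‖φ‖ ≤ Ma * ‖w‖ := hMa z hz φ
    have h2 : ‖w‖ ≤ Mc * ‖w₂‖ := by
      have : w = (P - z • S) w₂ := (isUnit_apply_inverse (hB z (hU' z hz)) w).symm
      rw [this]
      refine (ContinuousLinearMap.le_opNorm _ _).trans ?_
      gcongr
      have := hMc' z hz
      linarith [le_abs_self Mc']
    have h3 : ‖w₂‖ ≤ Mb * ‖(P + g₀ • Kb - z • S) ((T i).symm w₂)‖ := by
      have := hMb z hz ((T i).symm w₂)
      rwa [LinearIsometryEquiv.norm_map] at this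
    rw [LinearIsometryEquiv.norm_map]
    calc ‖φ‖ ≤ Ma * (Mc * (Mb * ‖(P + g₀ • Kb - z • S) ((T i).symm w₂)‖)) := by
          refine h1.trans ?_
          gcongr
          refine h2.trans ?_
          gcongr
      _ = _ := by rw [hM]; ring
  have hTP' : ∀ i f, T i (P ((T i).symm f)) = P f := by
    intro i f; rw [hTP, LinearIsometryEquiv.apply_symm_apply]
  have hTS' : ∀ i f, T i (S ((T i).symm f)) = S f := by
    intro i f; rw [hTS, LinearIsometryEquiv.apply_symm_apply]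
  -- small quantities
  have hweak' : ∀ h f, Tendsto (fun i => ⟪h, cl (T i).symm f⟫_ℂ) l (𝓝 0) := by
    intro h f
    have h1 := (hweak f h).star
    rw [star_zero] at h1
    refine h1.congr fun i => ?_
    rw [cl_apply]
    have h2 : ⟪h, (T i).symm f⟫_ℂ = ⟪T i h, f⟫_ℂ := by
      rw [← LinearIsometryEquiv.inner_map_map (T i) h ((T i).symm f),
        LinearIsometryEquiv.apply_symm_apply]
    rw [h2]
    exact inner_conj_symm _ _
  have hsmall : ∀ η > 0, ∀ᶠ i in l, ∀ z ∈ Cc,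
      ‖Kb ∘L cl (T i).symm ∘L (Ring.inverse (P - z • S) ∘L Ka)‖ < η := by
    intro η hη
    apply eventually_forall_compact hCcc
    intro z hz
    have h1 : Tendsto (fun i => ‖Kb ∘L cl (T i).symm ∘L (Ring.inverse (P - z • S) ∘L Ka)‖) l
        (𝓝 0) := by
      apply tendsto_norm_comp hKb (hKa.clm_comp _) _ hweak'
      intro i f
      rw [cl_apply, LinearIsometryEquiv.norm_map]
    have h2 : ∀ᶠ i in l, ‖Kb ∘L cl (T i).symm ∘L (Ring.inverse (P - z • S) ∘L Ka)‖ < η / 2 :=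
      h1.eventually (gt_mem_nhds (by positivity))
    have h3 : ContinuousAt (fun z => Ring.inverse (P - z • S)) z := by
      apply DifferentiableAt.continuousAt (𝕜 := ℂ)
      have h6 : DifferentiableAt ℂ (fun z : ℂ => P - z • S) z := by fun_prop
      exact h6.inverse (hB z (hU' z hz))
    have h4 : Tendsto (fun w => ‖Kb‖ * (‖Ring.inverse (P - w • S) - Ring.inverse (P - z • S)‖ *
        ‖Ka‖)) (𝓝 z) (𝓝 0) := by
      have h5 : Tendsto (fun w => Ring.inverse (P - w • S) - Ring.inverse (P - z • S)) (𝓝 z)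
          (𝓝 0) := by
        have := h3.tendsto.sub_const (Ring.inverse (P - z • S))
        rwa [sub_self] at this
      have h6 := (h5.norm.mul_const ‖Ka‖).const_mul ‖Kb‖
      simpa using h6
    have h5 : ∀ᶠ w in 𝓝 z, ‖Kb‖ * (‖Ring.inverse (P - w • S) - Ring.inverse (P - z • S)‖ *
        ‖Ka‖) < η / 2 := h4.eventually (gt_mem_nhds (by positivity))
    filter_upwards [h2.prod_mk h5] with p hp
    obtain ⟨hp1, hp2⟩ := hp
    have e1 : Kb ∘L cl (T p.1).symm ∘L (Ring.inverse (P - p.2 • S) ∘L Ka) =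
        Kb ∘L cl (T p.1).symm ∘L (Ring.inverse (P - z • S) ∘L Ka) +
        Kb ∘L cl (T p.1).symm ∘L ((Ring.inverse (P - p.2 • S) - Ring.inverse (P - z • S)) ∘L Ka)
        := by
      ext x; simp
    rw [e1]
    refine (norm_add_le _ _).trans_lt ?_
    have e2 : ‖Kb ∘L cl (T p.1).symm ∘L
        ((Ring.inverse (P - p.2 • S) - Ring.inverse (P - z • S)) ∘L Ka)‖ ≤
        ‖Kb‖ * (‖Ring.inverse (P - p.2 • S) - Ring.inverse (P - z • S)‖ * ‖Ka‖) := by
      apply ContinuousLinearMap.opNorm_le_bound _ (by positivity)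
      intro x
      simp only [ContinuousLinearMap.comp_apply]
      calc _ ≤ ‖Kb‖ * ‖cl (T p.1).symm
            ((Ring.inverse (P - p.2 • S) - Ring.inverse (P - z • S)) (Ka x))‖ :=
            Kb.le_opNorm _
        _ = ‖Kb‖ * ‖(Ring.inverse (P - p.2 • S) - Ring.inverse (P - z • S)) (Ka x)‖ := by
            rw [cl_apply, LinearIsometryEquiv.norm_map]
        _ ≤ ‖Kb‖ * (‖Ring.inverse (P - p.2 • S) - Ring.inverse (P - z • S)‖ *
            (‖Ka‖ * ‖x‖)) := by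
            gcongr
            refine (ContinuousLinearMap.le_opNorm _ _).trans ?_
            gcongr
            exact Ka.le_opNorm _
        _ = _ := by ring
    linarith
  -- eventual estimates
  set η := 1 / (4 * M) with hη
  have hη0 : 0 < η := by positivity
  have ev1 : ∀ᶠ i in l, ∀ z ∈ Cc,
      ‖Kb ∘L cl (T i).symm ∘L (Ring.inverse (P - z • S) ∘L Ka)‖ < η / (‖g₀‖ ^ 2 + 1) :=
    hsmall _ (by positivity)
  have ev2 : ∀ᶠ g in 𝓝 g₀, ‖g - g₀‖ * (‖Ka‖ + ‖Kb‖) < η := by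
    have : Tendsto (fun g : ℂ => ‖g - g₀‖ * (‖Ka‖ + ‖Kb‖)) (𝓝 g₀) (𝓝 0) := by
      have h1 : Continuous (fun g : ℂ => ‖g - g₀‖ * (‖Ka‖ + ‖Kb‖)) := by fun_prop
      have := h1.tendsto g₀
      simpa using this
    exact this.eventually (gt_mem_nhds hη0)
  have ev3 : Tendsto (fun p : ι × ℂ => (2 * M) *
      (‖p.2 - g₀‖ * ‖Ka φ₀‖ + ‖p.2‖ * ‖Kb (cl (T p.1).symm φ₀)‖)) (l ×ˢ 𝓝 g₀) (𝓝 0) := by
    have h1 : Tendsto (fun i => Kb (cl (T i).symm φ₀)) l (𝓝 0) := by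
      apply tendsto_of_weak hKb (c := ‖φ₀‖) _ fun h => hweak' h φ₀
      intro i
      rw [cl_apply, LinearIsometryEquiv.norm_map]
    have h2 : Tendsto (fun p : ι × ℂ => ‖Kb (cl (T p.1).symm φ₀)‖) (l ×ˢ 𝓝 g₀) (𝓝 0) := by
      have := (h1.norm).comp (tendsto_fst (f := l) (g := 𝓝 g₀))
      rw [norm_zero] at this
      exact this
    have h3 : Tendsto (fun p : ι × ℂ => ‖p.2 - g₀‖ * ‖Ka φ₀‖) (l ×ˢ 𝓝 g₀) (𝓝 0) := by
      have h4 : Tendsto (fun g : ℂ => ‖g - g₀‖ * ‖Ka φ₀‖) (𝓝 g₀) (𝓝 0) := by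
        have h1 : Continuous (fun g : ℂ => ‖g - g₀‖ * ‖Ka φ₀‖) := by fun_prop
        have := h1.tendsto g₀
        simpa using this
      exact h4.comp tendsto_snd
    have h4 : Tendsto (fun p : ι × ℂ => ‖p.2‖) (l ×ˢ 𝓝 g₀) (𝓝 ‖g₀‖) :=
      (continuous_norm.tendsto g₀).comp tendsto_snd
    have h5 := (h3.add (h4.mul h2)).const_mul (2 * M)
    simpa using h5
  have ev4 : ∀ᶠ p : ι × ℂ in l ×ˢ 𝓝 g₀, (2 * M) *
      (‖p.2 - g₀‖ * ‖Ka φ₀‖ + ‖p.2‖ * ‖Kb (cl (T p.1).symm φ₀)‖) < ‖φ₀‖ :=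
    ev3.eventually (gt_mem_nhds (norm_pos_iff.mpr hφ₀))
  filter_upwards [ev1.prod_mk ev2, ev4] with p hp1 hp2
  obtain ⟨i, g⟩ := p
  obtain ⟨hi, hg⟩ := hp1
  simp only at hi hg hp2 ⊢
  set A : ℂ → H →L[ℂ] H := fun z => P + g • (Ka + cj (T i) Kb) - z • S with hA
  have hAd : Differentiable ℂ A := by rw [hA]; fun_prop
  have hst := stab (A := A) hAd (z₀ := z₀) (C := 2 * M) hr0 (φ := φ₀) ?_ ?_
  · obtain ⟨z, hz, hnu⟩ := hst
    refine ⟨z, hin z hz, ?_⟩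
    by_contra! hcon
    apply hnu
    have h3 : A z = (P - z • S) + g • (Ka + cj (T i) Kb) := by rw [hA]; simp only; abel
    rw [h3]
    apply isUnit_of_injective (hB z (hΩU (hin z hz)))
      (isCompact_smul (isCompact_add hKa (isCompact_cj hKb)) g)
    intro φ hφ
    by_contra hφ0
    apply hcon φ hφ0
    rw [← h3] at hφ
    exact hφ
  · -- lower bound on the circle
    intro z hz φ
    have hzC : z ∈ Cc := by rw [hCc, mem_sphere_iff_norm]; exact hz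
    have h1 := hprod i z hzC φ
    set w₃ := T i ((P + g₀ • Kb - z • S) ((T i).symm (Ring.inverse (P - z • S)
        ((P + g₀ • Ka - z • S) φ)))) with hw₃
    set L := Kb ∘L cl (T i).symm ∘L (Ring.inverse (P - z • S) ∘L Ka) with hL
    have hLn : ‖L‖ < η / (‖g₀‖ ^ 2 + 1) := hi z hzC
    have hinv : Ring.inverse (P - z • S) ((P + g₀ • Ka - z • S) φ) =
        φ + g₀ • Ring.inverse (P - z • S) (Ka φ) := by
      have e1 : (P + g₀ • Ka - z • S) φ = (P - z • S) φ + g₀ • Ka φ := by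
        simp only [_root_.sub_apply, _root_.add_apply, _root_.smul_apply]; abel
      rw [e1, map_add, map_smul, isUnit_inverse_apply (hB z (hU' z hzC))]
    have e2 : ∀ f, T i ((P + g₀ • Kb - z • S) ((T i).symm f)) =
        (P - z • S) f + g₀ • cj (T i) Kb f := by
      intro f
      simp only [_root_.sub_apply, _root_.add_apply, _root_.smul_apply, map_sub, map_add,
        map_smul, cj_apply]
      rw [hTP', hTS']
      abel
    have e3 : A z φ - w₃ = (g - g₀) • (Ka φ + cj (T i) Kb φ) -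
        (g₀ ^ 2) • T i (L φ) := by
      rw [hw₃, hinv, e2, map_add, map_smul, map_add, map_smul,
        isUnit_apply_inverse (hB z (hU' z hzC))]
      have e4 : cj (T i) Kb (Ring.inverse (P - z • S) (Ka φ)) = T i (L φ) := rfl
      rw [e4]
      simp only [hA, _root_.sub_apply, _root_.add_apply, _root_.smul_apply, smul_add, sub_smul]
      rw [smul_smul, ← pow_two]
      abel
    have e5 : ‖A z φ - w₃‖ ≤ (2 * η) * ‖φ‖ := by
      rw [e3]
      refine (norm_sub_le _ _).trans ?_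
      rw [norm_smul, norm_smul, norm_pow, LinearIsometryEquiv.norm_map]
      have f1 : ‖g - g₀‖ * ‖Ka φ + cj (T i) Kb φ‖ ≤ η * ‖φ‖ := by
        calc ‖g - g₀‖ * ‖Ka φ + cj (T i) Kb φ‖ ≤ ‖g - g₀‖ * (‖Ka‖ * ‖φ‖ + ‖Kb‖ * ‖φ‖) := by
              gcongr
              exact (norm_add_le _ _).trans (add_le_add (Ka.le_opNorm _) (norm_cj_apply_le _ _ _))
          _ = (‖g - g₀‖ * (‖Ka‖ + ‖Kb‖)) * ‖φ‖ := by ring
          _ ≤ η * ‖φ‖ := by gcongr
      have f2 : ‖g₀‖ ^ 2 * ‖L φ‖ ≤ η * ‖φ‖ := by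
        calc ‖g₀‖ ^ 2 * ‖L φ‖ ≤ ‖g₀‖ ^ 2 * (η / (‖g₀‖ ^ 2 + 1) * ‖φ‖) := by
              gcongr
              exact (L.le_opNorm _).trans (by gcongr)
          _ = (‖g₀‖ ^ 2 / (‖g₀‖ ^ 2 + 1)) * (η * ‖φ‖) := by ring
          _ ≤ 1 * (η * ‖φ‖) := by
              gcongr
              rw [div_le_one (by positivity)]; linarith
          _ = η * ‖φ‖ := one_mul _
      linarith
    have e6 : ‖w₃‖ ≤ ‖A z φ‖ + (2 * η) * ‖φ‖ := by
      calc ‖w₃‖ = ‖A z φ - (A z φ - w₃)‖ := by congr 1; abel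
        _ ≤ ‖A z φ‖ + ‖A z φ - w₃‖ := norm_sub_le _ _
        _ ≤ _ := by gcongr
    have e7 : M * (2 * η) = 1 / 2 := by
      rw [hη]; field_simp; norm_num
    have e8 : ‖φ‖ ≤ M * ‖A z φ‖ + (1 / 2) * ‖φ‖ := by
      calc ‖φ‖ ≤ M * ‖w₃‖ := h1
        _ ≤ M * (‖A z φ‖ + (2 * η) * ‖φ‖) := by gcongr
        _ = M * ‖A z φ‖ + (M * (2 * η)) * ‖φ‖ := by ring
        _ = _ := by rw [e7]
    linarith
  · -- approximate kernel
    have e1 : A z₀ φ₀ = (g - g₀) • Ka φ₀ + g • T i (Kb (cl (T i).symm φ₀)) := by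
      have e2 : cj (T i) Kb φ₀ = T i (Kb (cl (T i).symm φ₀)) := rfl
      rw [← e2]
      have e3 : A z₀ φ₀ = A z₀ φ₀ - (P + g₀ • Ka - z₀ • S) φ₀ := by rw [hker, sub_zero]
      rw [e3]
      simp only [hA, _root_.sub_apply, _root_.add_apply, _root_.smul_apply, smul_add, sub_smul]
      abel
    have e4 : ‖A z₀ φ₀‖ ≤ ‖g - g₀‖ * ‖Ka φ₀‖ + ‖g‖ * ‖Kb (cl (T i).symm φ₀)‖ := by
      rw [e1]
      refine (norm_add_le _ _).trans ?_
      rw [norm_smul, norm_smul, LinearIsometryEquiv.norm_map]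
    calc 2 * M * ‖A z₀ φ₀‖ ≤ 2 * M * (‖g - g₀‖ * ‖Ka φ₀‖ + ‖g‖ * ‖Kb (cl (T i).symm φ₀)‖) := by
          gcongr
      _ < ‖φ₀‖ := hp2

end Abs

end MP497a12
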