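import Mathlib
import Pool.Agent.Lib.MP_497a12_mp.GPersist

/-!
# Choice of the positions and passage to the limit
-/

open Filter Topology
open scoped InnerProductSpace

namespace MP497a12

namespace Abs

set_option linter.unusedSectionVars false

variable {H : Type*} [NormedAddCommGroup H] [InnerProductSpace ℂ H] [CompleteSpace H]

theorem persist {ι : Type*} {l : Filter ι} {P S Ka Kb : H →L[ℂ] H}
    (hKa : IsCompactOperator Ka) (hKb : IsCompactOperator Kb) {U : Set ℂ} (hU : IsOpen U)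
    (hUc : IsPreconnected U) (hB : ∀ z ∈ U, IsUnit (P - z • S))
    (hia : ∀ g : ℂ, ∃ z ∈ U, ∀ φ, (P + g • Ka - z • S) φ = 0 → φ = 0)
    (hib : ∀ g : ℂ, ∃ z ∈ U, ∀ φ, (P + g • Kb - z • S) φ = 0 → φ = 0)
    {T : ι → H ≃ₗᵢ[ℂ] H} (hTP : ∀ i f, T i (P f) = P (T i f))
    (hTS : ∀ i f, T i (S f) = S (T i f))
    (hweak : ∀ h f, Tendsto (fun i => ⟪h, T i f⟫_ℂ) l (𝓝 0))
    {Ω : Set ℂ} (hΩ : IsOpen Ω) (hΩU : Ω ⊆ U) {I : Set ℂ} (hI : IsCompact I)
    (hker : ∀ g ∈ I, ∃ z ∈ Ω, ∃ φ, φ ≠ 0 ∧ (P + g • Ka - z • S) φ = 0) :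
    ∀ᶠ i in l, ∀ g ∈ I, ∃ z ∈ Ω, ∃ φ, φ ≠ 0 ∧
      (P + g • (Ka + cj (T i) Kb) - z • S) φ = 0 := by
  apply eventually_forall_compact hI
  intro g hg
  obtain ⟨z, hz, φ, hφ, hφ'⟩ := hker g hg
  exact persist_local hKa hKb hU hUc hB hia hib hTP hTS hweak hΩ hΩU hz hφ hφ'

theorem kernel_limit {P S : H →L[ℂ] H} {U : Set ℂ} (hB : ∀ z ∈ U, IsUnit (P - z • S))
    {KN : ℕ → H →L[ℂ] H} {K : H →L[ℂ] H} (hK : IsCompactOperator K)
    (hlim : Tendsto KN atTop (𝓝 K)) {C : Set ℂ} (hC : IsCompact C) (hCU : C ⊆ U) {g : ℂ}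
    (hker : ∀ᶠ N in atTop, ∃ z ∈ C, ∃ φ, φ ≠ 0 ∧ (P + g • KN N - z • S) φ = 0) :
    ∃ z ∈ C, ∃ φ, φ ≠ 0 ∧ (P + g • K - z • S) φ = 0 := by
  by_contra! hcon
  have hu : ∀ z ∈ C, IsUnit (P + g • K - z • S) := by
    intro z hz
    have e : P + g • K - z • S = (P - z • S) + g • K := by abel
    rw [e]
    apply isUnit_of_injective (hB z (hCU hz)) (isCompact_smul hK g)
    intro φ hφ
    by_contra hφ0
    rw [← e] at hφ
    exact hcon z hz φ hφ0 hφ
  obtain ⟨M, hM0, hM⟩ := bounded_inverse (A := fun z => P + g • K - z • S) (by fun_prop) hC hu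
  have h1 : Tendsto (fun N => M * (‖g‖ * ‖K - KN N‖)) atTop (𝓝 0) := by
    have h2 : Tendsto (fun N => K - KN N) atTop (𝓝 0) := by
      have := hlim.const_sub K
      rwa [sub_self] at this
    have h3 := (h2.norm.const_mul ‖g‖).const_mul M
    simpa using h3
  have h2 : ∀ᶠ N in atTop, M * (‖g‖ * ‖K - KN N‖) < 1 := h1.eventually (gt_mem_nhds one_pos)
  obtain ⟨N, ⟨z, hz, φ, hφ, hφ'⟩, hN⟩ := (hker.and h2).exists
  have h3 := hM z hz φ
  have h4 : (P + g • K - z • S) φ = g • (K - KN N) φ := by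
    have : (P + g • K - z • S) φ = (P + g • K - z • S) φ - (P + g • KN N - z • S) φ := by
      rw [hφ', sub_zero]
    rw [this]
    simp only [_root_.sub_apply, _root_.add_apply, _root_.smul_apply, smul_sub]
    abel
  rw [h4, norm_smul] at h3
  have h5 : ‖φ‖ ≤ (M * (‖g‖ * ‖K - KN N‖)) * ‖φ‖ := by
    calc ‖φ‖ ≤ M * (‖g‖ * ‖(K - KN N) φ‖) := h3
      _ ≤ M * (‖g‖ * (‖K - KN N‖ * ‖φ‖)) := by
          gcongr
          exact (K - KN N).le_opNorm φ
      _ = _ := by ring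
  have h6 : 0 < ‖φ‖ := norm_pos_iff.mpr hφ
  nlinarith

/-- **Choice of the positions.** -/
theorem exists_positions {X : Type*} [AddCommGroup X] {l : Filter X} [l.NeBot]
    (hl : Tendsto (fun x : X => -x) l l) {P S : H →L[ℂ] H} {U : Set ℂ} (hU : IsOpen U)
    (hUc : IsPreconnected U) (hB : ∀ z ∈ U, IsUnit (P - z • S))
    {T : X → H ≃ₗᵢ[ℂ] H} (hTn : ∀ x, T (-x) = (T x).symm)
    (hTP : ∀ i f, T i (P f) = P (T i f)) (hTS : ∀ i f, T i (S f) = S (T i f))
    (hweak : ∀ h f, Tendsto (fun i => ⟪h, T i f⟫_ℂ) l (𝓝 0))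
    {Q : (H →L[ℂ] H) → Prop} (hQ0 : Q 0) (hQadd : ∀ K L, Q K → Q L → Q (K + L))
    (hQcj : ∀ x K, Q K → Q (cj (T x) K)) (hQc : ∀ K, Q K → IsCompactOperator K)
    (hQi : ∀ K, Q K → ∀ g : ℂ, ∃ z ∈ U, ∀ φ, (P + g • K - z • S) φ = 0 → φ = 0)
    (K : ℕ → H →L[ℂ] H) (hK : ∀ k, Q (K k)) (I : ℕ → Set ℂ) (hI : ∀ k, IsCompact (I k))
    (Ω : ℕ → Set ℂ) (hΩ : ∀ k, IsOpen (Ω k)) (hΩU : ∀ k, Ω k ⊆ U)
    (hker : ∀ k, ∀ g ∈ I k, ∃ z ∈ Ω k, ∃ φ, φ ≠ 0 ∧ (P + g • K k - z • S) φ = 0)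
    (R : ℕ → ℕ → X → X → Prop) (hR : ∀ N j a, ∀ᶠ y in l, R N j a y) :
    ∃ x : ℕ → X, (∀ N, ∀ j < N, R N j (x j) (x N)) ∧
      ∀ N, ∀ k < N, ∀ g ∈ I k, ∃ z ∈ Ω k, ∃ φ, φ ≠ 0 ∧
        (P + g • (∑ j ∈ Finset.range N, cj (T (x j)) (K j)) - z • S) φ = 0 := by
  set Good : ℕ → (ℕ → X) → Prop := fun N x => (∀ n < N, ∀ j < n, R n j (x j) (x n)) ∧
      ∀ k < N, ∀ g ∈ I k, ∃ z ∈ Ω k, ∃ φ, φ ≠ 0 ∧
        (P + g • (∑ j ∈ Finset.range N, cj (T (x j)) (K j)) - z • S) φ = 0 with hGood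
  have hQsum : ∀ N (x : ℕ → X), Q (∑ j ∈ Finset.range N, cj (T (x j)) (K j)) := by
    intro N x
    induction N with
    | zero => simpa using hQ0
    | succ N ih => rw [Finset.sum_range_succ]; exact hQadd _ _ ih (hQcj _ _ (hK N))
  have hstep : ∀ N x, Good N x → ∃ y, Good (N + 1) (Function.update x N y) := by
    intro N x hx
    set KK := ∑ j ∈ Finset.range N, cj (T (x j)) (K j) with hKK
    have hQK : Q KK := hQsum N x
    have e1 : ∀ᶠ y in l, ∀ j ∈ Finset.range N, R N j (x j) y := by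
      rw [Filter.eventually_all_finset]
      intro j _
      exact hR N j (x j)
    have e2 : ∀ᶠ y in l, ∀ k ∈ Finset.range N, ∀ g ∈ I k, ∃ z ∈ Ω k, ∃ φ, φ ≠ 0 ∧
        (P + g • (KK + cj (T y) (K N)) - z • S) φ = 0 := by
      rw [Filter.eventually_all_finset]
      intro k hk
      exact persist (hQc _ hQK) (hQc _ (hK N)) hU hUc hB (hQi _ hQK) (hQi _ (hK N)) hTP hTS
        hweak (hΩ k) (hΩU k) (hI k) (hx.2 k (Finset.mem_range.mp hk))
    have e3 : ∀ᶠ y in l, ∀ g ∈ I N, ∃ z ∈ Ω N, ∃ φ, φ ≠ 0 ∧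
        (P + g • (K N + cj (T y) KK) - z • S) φ = 0 :=
      persist (hQc _ (hK N)) (hQc _ hQK) hU hUc hB (hQi _ (hK N)) (hQi _ hQK) hTP hTS
        hweak (hΩ N) (hΩU N) (hI N) (hker N)
    have e4 := hl.eventually e3
    obtain ⟨y, hy1, hy2, hy3⟩ := (e1.and (e2.and e4)).exists
    refine ⟨y, ?_, ?_⟩
    · intro n hn j hj
      rw [Function.update_of_ne (by omega : j ≠ N)]
      by_cases hnN : n = N
      · subst hnN
        rw [Function.update_self]
        exact hy1 j (Finset.mem_range.mpr hj)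
      · rw [Function.update_of_ne hnN]
        exact hx.1 n (by omega) j hj
    · have hsum : ∑ j ∈ Finset.range (N + 1), cj (T (Function.update x N y j)) (K j) =
          KK + cj (T y) (K N) := by
        rw [Finset.sum_range_succ, Function.update_self]
        congr 1
        apply Finset.sum_congr rfl
        intro j hj
        rw [Function.update_of_ne (by have := Finset.mem_range.mp hj; omega)]
      intro k hk g hg
      rw [hsum]
      by_cases hkN : k = N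
      · subst hkN
        obtain ⟨z, hz, φ, hφ, hφ'⟩ := hy3 g hg
        refine ⟨z, hz, T y φ, ?_, ?_⟩
        · simpa using hφ
        · have h1 : (P + g • (KK + cj (T y) (K k)) - z • S) (T y φ) =
              T y ((P + g • (K k + cj (T (-y)) KK) - z • S) φ) := by
            simp only [_root_.sub_apply, _root_.add_apply, _root_.smul_apply, map_sub, map_add,
              map_smul, cj_apply, hTn, LinearIsometryEquiv.symm_symm,
              LinearIsometryEquiv.apply_symm_apply, LinearIsometryEquiv.symm_apply_apply, hTP,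
              hTS]
            congr 2
            rw [add_comm]
          rw [h1, hφ', map_zero]
      · exact hy2 k (Finset.mem_range.mpr (by omega)) g hg
  choose! F hF using hstep
  have h0 : Good 0 (fun _ => (0 : X)) := ⟨fun n hn => by omega, fun k hk => by omega⟩
  set sq : (N : ℕ) → {x : ℕ → X // Good N x} := fun N => Nat.rec ⟨fun _ => 0, h0⟩
    (fun N x => ⟨Function.update x.1 N (F N x.1), hF N x.1 x.2⟩) N with hsq
  have hsucc : ∀ N, (sq (N + 1)).1 = Function.update (sq N).1 N (F N (sq N).1) := fun N => rfl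
  set x : ℕ → X := fun n => (sq (n + 1)).1 n with hx
  have hagree : ∀ N, ∀ j < N, (sq N).1 j = x j := by
    intro N
    induction N with
    | zero => intro j hj; omega
    | succ N ih =>
      intro j hj
      by_cases hjN : j = N
      · subst hjN; rfl
      · rw [hsucc, Function.update_of_ne hjN]
        exact ih j (by omega)
  refine ⟨x, ?_, ?_⟩
  · intro N j hj
    have h1 := (sq (N + 1)).2.1 N (Nat.lt_succ_self N) j hj
    rw [hagree (N + 1) j (by omega), hagree (N + 1) N (Nat.lt_succ_self N)] at h1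
    exact h1
  · intro N k hk g hg
    have h1 := (sq N).2.2 k hk g hg
    have h2 : ∑ j ∈ Finset.range N, cj (T ((sq N).1 j)) (K j) =
        ∑ j ∈ Finset.range N, cj (T (x j)) (K j) := by
      apply Finset.sum_congr rfl
      intro j hj
      rw [hagree N j (Finset.mem_range.mp hj)]
    rw [h2] at h1
    exact h1

end Abs

end MP497a12
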