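import Mathlib

/-!
# Abstract estimates for the rescaled operators
-/

open Filter Topology

namespace MP497a12

namespace Abs

variable {H : Type*} [NormedAddCommGroup H] [NormedSpace ℂ H]

/-- The difference of two operators that are localised by `X`, `Q`. -/
lemma diff_bound {X Q N N0 : H →L[ℂ] H} (hXQ : ∀ f, X f + Q f = f) (hX : ∀ f, ‖X f‖ ≤ ‖f‖)
    {δ c : ℝ} (h1 : ∀ f, ‖Q (N f)‖ ≤ δ * ‖f‖) (h2 : ∀ f, ‖N (Q f)‖ ≤ δ * ‖f‖)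
    (h3 : ∀ f, ‖Q (N0 f)‖ ≤ δ * ‖f‖) (h4 : ∀ f, ‖N0 (Q f)‖ ≤ δ * ‖f‖)
    (h5 : ∀ f, ‖X (N (X f)) - X (N0 (X f))‖ ≤ c * ‖f‖) (f : H) :
    ‖N f - N0 f‖ ≤ (4 * δ + c) * ‖f‖ := by
  have hs : ∀ L : H →L[ℂ] H, L f = X (L (X f)) + (X (L (Q f)) + Q (L f)) := by
    intro L
    have a1 : L f = L (X f) + L (Q f) := by rw [← map_add, hXQ]
    have a2 : X (L f) = X (L (X f)) + X (L (Q f)) := by
      conv_lhs => rw [a1, map_add]
    conv_lhs => rw [← hXQ (L f), a2]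
    rw [add_assoc]
  have e : N f - N0 f = (X (N (X f)) - X (N0 (X f))) + (X (N (Q f)) + Q (N f)) -
      (X (N0 (Q f)) + Q (N0 f)) := by
    conv_lhs => rw [hs N, hs N0]
    abel
  rw [e]
  calc _ ≤ (‖X (N (X f)) - X (N0 (X f))‖ + (‖X (N (Q f))‖ + ‖Q (N f)‖)) +
        (‖X (N0 (Q f))‖ + ‖Q (N0 f)‖) := by
        refine (norm_sub_le _ _).trans (add_le_add ?_ (norm_add_le _ _))
        exact (norm_add_le _ _).trans (add_le_add le_rfl (norm_add_le _ _))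
    _ ≤ (c * ‖f‖ + (δ * ‖f‖ + δ * ‖f‖)) + (δ * ‖f‖ + δ * ‖f‖) := by
        gcongr
        · exact h5 f
        · exact (hX _).trans (h2 f)
        · exact h1 f
        · exact (hX _).trans (h4 f)
        · exact h3 f
    _ = _ := by ring

/-- The lower bound for the reduced operators. -/
lemma lower_bound {X Q N N0 R T m m0 : H →L[ℂ] H} (hXQ : ∀ f, X f + Q f = f)
    (hX : ∀ f, ‖X f‖ ≤ ‖f‖) (hQ : ∀ f, ‖Q f‖ ≤ ‖f‖) (hR : ∀ f, ‖R f‖ = ‖f‖)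
    (hT : ∀ f, ‖T f‖ = ‖f‖) (hRX : ∀ f, R (X f) = X (R f)) {δ M K1 cm C1 : ℝ} (hδ : 0 ≤ δ)
    (hM0 : 0 ≤ M) (hcm : 0 ≤ cm) (hC1 : 0 ≤ C1)
    (h1 : ∀ f, ‖Q (N f)‖ ≤ δ * ‖f‖) (h2 : ∀ f, ‖N (Q f)‖ ≤ δ * ‖f‖)
    (h3 : ∀ f, ‖Q (N0 f)‖ ≤ δ * ‖f‖) (h4 : ∀ f, ‖N0 (Q f)‖ ≤ δ * ‖f‖)
    (hN : ∀ f, ‖N f‖ ≤ M * ‖f‖) (hNN : ∀ f, ‖N f - N0 f‖ ≤ K1 * δ * ‖f‖)
    (hXT : ∀ f, ‖X (T f)‖ ≤ ‖Q f‖) (hmX : ∀ f, m (X f) = X (m f)) (hmQ : ∀ f, m (Q f) = Q (m f))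
    (hm : ∀ f, ‖f‖ ≤ cm * ‖m f‖) (hm0 : ∀ f, ‖m (X f) - m0 (X f)‖ ≤ 4 * δ * ‖f‖)
    (hA0 : ∀ f, ‖f‖ ≤ C1 * ‖m0 f + N0 (R f)‖) {g : ℂ} (hg2 : ‖g‖ ≤ 2) (hg1 : ‖g - 1‖ ≤ δ)
    (f : H) : ‖f‖ ≤ (C1 + (1 + 2 * M * C1) * cm) * ‖m f + g • (N (R f) + N (T f))‖ +
      (4 * (1 + 2 * M * C1) * cm + C1 * (8 + K1 + M)) * δ * ‖f‖ := by
  set w := m f + g • (N (R f) + N (T f)) with hw
  -- the outer part
  have hQf : ‖Q f‖ ≤ cm * (‖w‖ + 4 * δ * ‖f‖) := by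
    refine (hm _).trans ?_
    gcongr
    have e : m (Q f) = Q w - g • (Q (N (R f)) + Q (N (T f))) := by
      rw [hmQ, hw, map_add, map_smul, map_add]
      abel
    rw [e]
    calc _ ≤ ‖Q w‖ + ‖g • (Q (N (R f)) + Q (N (T f)))‖ := norm_sub_le _ _
      _ ≤ ‖w‖ + 2 * (δ * ‖f‖ + δ * ‖f‖) := by
          gcongr
          · exact hQ w
          · rw [norm_smul]
            gcongr
            refine (norm_add_le _ _).trans (add_le_add ?_ ?_)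
            · have := h1 (R f)
              rwa [hR] at this
            · have := h1 (T f)
              rwa [hT] at this
      _ = _ := by ring
  -- the inner part
  have hin : ‖m0 (X f) + N0 (R (X f))‖ ≤ ‖w‖ + 2 * M * ‖Q f‖ + (8 + K1 + M) * δ * ‖f‖ := by
    have e : m0 (X f) + N0 (R (X f)) = X w - (m (X f) - m0 (X f)) +
        (Q (N0 (X (R f))) - X (N0 (Q (R f)))) + (X (N0 (R f)) - X (N (R f))) +
        (1 - g) • X (N (R f)) - g • X (N (T f)) := by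
      have e1 : N0 (X (R f)) = X (N0 (X (R f))) + Q (N0 (X (R f))) := (hXQ _).symm
      have e2 : X (N0 (R f)) = X (N0 (X (R f))) + X (N0 (Q (R f))) := by
        rw [← map_add, ← map_add, hXQ]
      rw [hRX, hmX, hw, map_add, map_smul, map_add, e2]
      conv_lhs => rw [e1]
      simp only [sub_smul, one_smul, smul_add]
      abel
    have e3 : X (N (T f)) = X (N (X (T f))) + X (N (Q (T f))) := by
      rw [← map_add, ← map_add, hXQ]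
    have b1 : ‖X (N (T f))‖ ≤ M * ‖Q f‖ + δ * ‖f‖ := by
      rw [e3]
      refine (norm_add_le _ _).trans (add_le_add ?_ ?_)
      · refine (hX _).trans ((hN _).trans ?_)
        gcongr
        exact hXT f
      · refine (hX _).trans ?_
        have := h2 (T f)
        rwa [hT] at this
    have b2 : ‖Q (N0 (X (R f)))‖ ≤ δ * ‖f‖ := by
      refine (h3 _).trans ?_
      gcongr
      refine (hX _).trans ?_
      rw [hR]
    have b3 : ‖X (N0 (Q (R f)))‖ ≤ δ * ‖f‖ := by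
      refine (hX _).trans ?_
      have := h4 (R f)
      rwa [hR] at this
    have b4 : ‖X (N0 (R f)) - X (N (R f))‖ ≤ K1 * δ * ‖f‖ := by
      rw [← map_sub]
      refine (hX _).trans ?_
      rw [norm_sub_rev]
      have := hNN (R f)
      rwa [hR] at this
    have b5 : ‖(1 - g) • X (N (R f))‖ ≤ δ * (M * ‖f‖) := by
      rw [norm_smul, norm_sub_rev]
      gcongr
      refine (hX _).trans ?_
      have := hN (R f)
      rwa [hR] at this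
    have b6 : ‖g • X (N (T f))‖ ≤ 2 * (M * ‖Q f‖ + δ * ‖f‖) := by
      rw [norm_smul]
      gcongr
    rw [e]
    calc _ ≤ ((((‖X w‖ + ‖m (X f) - m0 (X f)‖) +
          (‖Q (N0 (X (R f)))‖ + ‖X (N0 (Q (R f)))‖)) + ‖X (N0 (R f)) - X (N (R f))‖) +
          ‖(1 - g) • X (N (R f))‖) + ‖g • X (N (T f))‖ := by
          refine (norm_sub_le _ _).trans (add_le_add ?_ le_rfl)
          refine (norm_add_le _ _).trans (add_le_add ?_ le_rfl)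
          refine (norm_add_le _ _).trans (add_le_add ?_ le_rfl)
          refine (norm_add_le _ _).trans (add_le_add ?_ (norm_sub_le _ _))
          exact norm_sub_le _ _
      _ ≤ ((((‖w‖ + 4 * δ * ‖f‖) + (δ * ‖f‖ + δ * ‖f‖)) + K1 * δ * ‖f‖) + δ * (M * ‖f‖)) +
          2 * (M * ‖Q f‖ + δ * ‖f‖) := by
          gcongr
          · exact hX w
          · exact hm0 f
      _ = _ := by ring
  have hXf : ‖X f‖ ≤ C1 * (‖w‖ + 2 * M * ‖Q f‖ + (8 + K1 + M) * δ * ‖f‖) := by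
    refine (hA0 _).trans ?_
    gcongr
  calc ‖f‖ = ‖X f + Q f‖ := by rw [hXQ]
    _ ≤ ‖X f‖ + ‖Q f‖ := norm_add_le _ _
    _ ≤ C1 * (‖w‖ + 2 * M * ‖Q f‖ + (8 + K1 + M) * δ * ‖f‖) + ‖Q f‖ := by gcongr
    _ = C1 * ‖w‖ + C1 * ((8 + K1 + M) * δ * ‖f‖) + (1 + 2 * M * C1) * ‖Q f‖ := by ring
    _ ≤ C1 * ‖w‖ + C1 * ((8 + K1 + M) * δ * ‖f‖) +
        (1 + 2 * M * C1) * (cm * (‖w‖ + 4 * δ * ‖f‖)) := by gcongr
    _ = _ := by ring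

/-- The upper bound for approximate kernel vectors. -/
lemma upper_bound {X Q N N0 R T m m0 : H →L[ℂ] H} (hXQ : ∀ f, X f + Q f = f)
    (hR : ∀ f, ‖R f‖ = ‖f‖) (hT : ∀ f, ‖T f‖ = ‖f‖) {δ M K1 : ℝ}
    (hδ : 0 ≤ δ) (hM0 : 0 ≤ M) (h2 : ∀ f, ‖N (Q f)‖ ≤ δ * ‖f‖)
    (hN : ∀ f, ‖N f‖ ≤ M * ‖f‖) (hNN : ∀ f, ‖N f - N0 f‖ ≤ K1 * δ * ‖f‖)
    (hXT : ∀ f, ‖X (T f)‖ ≤ ‖Q f‖)
    (hmb : ∀ f, ‖m f‖ ≤ 3 * ‖f‖) (hmb0 : ∀ f, ‖m0 f‖ ≤ 3 * ‖f‖)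
    (hm0 : ∀ f, ‖m (X f) - m0 (X f)‖ ≤ 4 * δ * ‖f‖)
    {g : ℂ} (hg2 : ‖g‖ ≤ 2) (hg1 : ‖g - 1‖ ≤ δ)
    (f : H) : ‖m f + g • (N (R f) + N (T f))‖ ≤ ‖m0 f + N0 (R f)‖ +
      (6 + K1 + M) * δ * ‖f‖ + (6 + 2 * M) * ‖Q f‖ := by
  have e : m f + g • (N (R f) + N (T f)) = (m0 f + N0 (R f)) + (m (X f) - m0 (X f)) +
      (m (Q f) - m0 (Q f)) + (N (R f) - N0 (R f)) + (g - 1) • N (R f) + g • N (T f) := by
    have e1 : m f = m (X f) + m (Q f) := by rw [← map_add, hXQ]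
    have e2 : m0 f = m0 (X f) + m0 (Q f) := by rw [← map_add, hXQ]
    rw [e1, e2]
    simp only [sub_smul, one_smul, smul_add]
    abel
  have b1 : ‖N (T f)‖ ≤ M * ‖Q f‖ + δ * ‖f‖ := by
    have e3 : N (T f) = N (X (T f)) + N (Q (T f)) := by rw [← map_add, hXQ]
    rw [e3]
    refine (norm_add_le _ _).trans (add_le_add ?_ ?_)
    · refine (hN _).trans ?_
      gcongr
      exact hXT f
    · have := h2 (T f)
      rwa [hT] at this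
  have b2 : ‖m (Q f) - m0 (Q f)‖ ≤ 3 * ‖Q f‖ + 3 * ‖Q f‖ :=
    (norm_sub_le _ _).trans (add_le_add (hmb _) (hmb0 _))
  have b3 : ‖N (R f) - N0 (R f)‖ ≤ K1 * δ * ‖f‖ := by
    have := hNN (R f)
    rwa [hR] at this
  have b4 : ‖(g - 1) • N (R f)‖ ≤ δ * (M * ‖f‖) := by
    rw [norm_smul]
    gcongr
    have := hN (R f)
    rwa [hR] at this
  have b5 : ‖g • N (T f)‖ ≤ 2 * (M * ‖Q f‖ + δ * ‖f‖) := by
    rw [norm_smul]
    gcongr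
  rw [e]
  calc _ ≤ ((((‖m0 f + N0 (R f)‖ + ‖m (X f) - m0 (X f)‖) + ‖m (Q f) - m0 (Q f)‖) +
        ‖N (R f) - N0 (R f)‖) + ‖(g - 1) • N (R f)‖) + ‖g • N (T f)‖ := by
        refine (norm_add_le _ _).trans (add_le_add ?_ le_rfl)
        refine (norm_add_le _ _).trans (add_le_add ?_ le_rfl)
        refine (norm_add_le _ _).trans (add_le_add ?_ le_rfl)
        refine (norm_add_le _ _).trans (add_le_add ?_ le_rfl)
        exact norm_add_le _ _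
    _ ≤ ((((‖m0 f + N0 (R f)‖ + 4 * δ * ‖f‖) + (3 * ‖Q f‖ + 3 * ‖Q f‖)) + K1 * δ * ‖f‖) +
        δ * (M * ‖f‖)) + 2 * (M * ‖Q f‖ + δ * ‖f‖) := by
        gcongr
        exact hm0 f
    _ = _ := by ring

end Abs

end MP497a12
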