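import Mathlib
import Pool.Agent.Lib.MP_497a12_mp.GConv

/-!
# Compactness of the operators of the form `a (i ∇) v (x)`
-/

open MeasureTheory Filter Topology Real
open scoped ENNReal ContDiff InnerProductSpace FourierTransform SchwartzMap

namespace MP497a12

variable {d : ℕ}

section HS

set_option linter.unusedSectionVars false

variable {H : Type*} [NormedAddCommGroup H] [InnerProductSpace ℂ H] [CompleteSpace H]

lemma memLp_inner (Ψ : Lp H 2 (volume : Measure (Sp d))) (u : H) :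
    MemLp (fun ξ => ⟪Ψ ξ, u⟫_ℂ) 2 (volume : Measure (Sp d)) := by
  refine MemLp.of_le_mul (c := ‖u‖) (Lp.memLp Ψ) ?_ ?_
  · exact (Lp.aestronglyMeasurable Ψ).inner aestronglyMeasurable_const
  · refine Eventually.of_forall fun ξ => ?_
    rw [mul_comm]
    exact norm_inner_le_norm _ _

/-- The operator with the vector valued kernel `Ψ`. -/
noncomputable def opL (Ψ : Lp H 2 (volume : Measure (Sp d))) : H →L[ℂ] HS d :=
  LinearMap.mkContinuous
    { toFun := fun u => (memLp_inner Ψ u).toLp _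
      map_add' := fun u v => by
        rw [← MemLp.toLp_add]
        apply MemLp.toLp_congr
        refine Eventually.of_forall fun ξ => ?_
        simp only [Pi.add_apply, inner_add_right]
      map_smul' := fun c u => by
        simp only [RingHom.id_apply]
        rw [← MemLp.toLp_const_smul]
        apply MemLp.toLp_congr
        refine Eventually.of_forall fun ξ => ?_
        simp only [Pi.smul_apply, inner_smul_right, smul_eq_mul] }
    ‖Ψ‖ (fun u => by
      rw [mul_comm]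
      apply Lp.norm_le_mul_norm_of_ae_le_mul
      filter_upwards [(memLp_inner Ψ u).coeFn_toLp] with ξ hξ
      change ‖((memLp_inner Ψ u).toLp _ : HS d) ξ‖ ≤ _
      rw [hξ, mul_comm]
      exact norm_inner_le_norm _ _)

lemma opL_coe (Ψ : Lp H 2 (volume : Measure (Sp d))) (u : H) :
    opL Ψ u =ᵐ[volume] fun ξ => ⟪Ψ ξ, u⟫_ℂ :=
  (memLp_inner Ψ u).coeFn_toLp

lemma opL_norm_le (Ψ : Lp H 2 (volume : Measure (Sp d))) : ‖opL Ψ‖ ≤ ‖Ψ‖ :=
  LinearMap.mkContinuous_norm_le _ (norm_nonneg _) _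

lemma opL_add (Ψ Ψ' : Lp H 2 (volume : Measure (Sp d))) : opL (Ψ + Ψ') = opL Ψ + opL Ψ' := by
  ext1 u
  rw [_root_.add_apply]
  apply Lp.ext
  filter_upwards [opL_coe (Ψ + Ψ') u, opL_coe Ψ u, opL_coe Ψ' u, Lp.coeFn_add Ψ Ψ',
    Lp.coeFn_add (opL Ψ u) (opL Ψ' u)] with ξ h1 h2 h3 h4 h5
  rw [h1, h5, Pi.add_apply, h2, h3, h4, Pi.add_apply, inner_add_left]

lemma opL_sub (Ψ Ψ' : Lp H 2 (volume : Measure (Sp d))) : opL (Ψ - Ψ') = opL Ψ - opL Ψ' := by
  have h := opL_add (Ψ - Ψ') Ψ'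
  rw [sub_add_cancel] at h
  rw [h, add_sub_cancel_right]

lemma continuous_opL : Continuous (opL (d := d) (H := H)) := by
  apply LipschitzWith.continuous (K := 1)
  apply LipschitzWith.of_dist_le_mul
  intro Ψ Ψ'
  rw [dist_eq_norm, dist_eq_norm, ← opL_sub, NNReal.coe_one, one_mul]
  exact opL_norm_le _

lemma opL_compact (Ψ : Lp H 2 (volume : Measure (Sp d))) : IsCompactOperator (opL Ψ) := by
  induction Ψ using Lp.induction with
  | hp_ne_top => exact ENNReal.ofNat_ne_top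
  | @indicatorConst c s hs hμs =>
    set Ψ : Lp H 2 (volume : Measure (Sp d)) := ↑(Lp.simpleFunc.indicatorConst 2 hs hμs.ne c)
      with hΨ
    set e : HS d := indicatorConstLp 2 hs hμs.ne (1 : ℂ) with he
    have h1 : opL Ψ = (ContinuousLinearMap.toSpanSingleton ℂ e) ∘L (innerSL ℂ c) := by
      ext1 u
      apply Lp.ext
      have h2 : (Ψ : Sp d → H) =ᵐ[volume] s.indicator fun _ => c := by
        rw [hΨ, Lp.simpleFunc.coe_indicatorConst]
        exact indicatorConstLp_coeFn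
      have h3 : (e : Sp d → ℂ) =ᵐ[volume] s.indicator fun _ => (1 : ℂ) := indicatorConstLp_coeFn
      have h4 : ((ContinuousLinearMap.toSpanSingleton ℂ e) ∘L (innerSL ℂ c)) u =
          ⟪c, u⟫_ℂ • e := rfl
      rw [h4]
      filter_upwards [opL_coe Ψ u, h2, h3, Lp.coeFn_smul ⟪c, u⟫_ℂ e] with ξ a1 a2 a3 a4
      rw [a1, a4, Pi.smul_apply, a2, a3]
      by_cases hξ : ξ ∈ s
      · simp [hξ]
      · simp [hξ]
    rw [h1]
    have h5 : IsCompactOperator (innerSL ℂ c) := isCompactOperator_of_locallyCompactSpace_dom _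
    exact h5.clm_comp (ContinuousLinearMap.toSpanSingleton ℂ e)
  | add hf hg hd ihf ihg =>
    rw [opL_add]
    exact ihf.add ihg
  | isClosed =>
    have h1 : IsClosed {T : H →L[ℂ] HS d | IsCompactOperator T} :=
      isClosed_setOfPred_isCompactOperator
    exact h1.preimage continuous_opL

/-- Hilbert-Schmidt operators are compact. -/
lemma compact_of_kernel {T : H →L[ℂ] HS d} {Ψ : Sp d → H} (hΨ : MemLp Ψ 2)
    (hT : ∀ u, T u =ᵐ[volume] fun ξ => ⟪Ψ ξ, u⟫_ℂ) : IsCompactOperator T := by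
  have : T = opL (hΨ.toLp Ψ) := by
    ext1 u
    apply Lp.ext
    filter_upwards [hT u, opL_coe (hΨ.toLp Ψ) u, hΨ.coeFn_toLp] with ξ h1 h2 h3
    rw [h1, h2, h3]
  rw [this]
  exact opL_compact _

end HS

lemma continuous_Tr (f : HS d) : Continuous (fun θ => Tr θ f) := by
  set g : Sp d → C(Sp d, Sp d) := fun θ => ⟨fun ξ => ξ - θ, by fun_prop⟩ with hg
  have hgc : Continuous g := by
    apply ContinuousMap.continuous_of_continuous_uncurry
    change Continuous (fun p : Sp d × Sp d => p.2 - p.1)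
    fun_prop
  exact (continuous_const (y := f)).compMeasurePreservingLp hgc
    (fun θ => measurePreserving_sub_right volume θ) ENNReal.ofNat_ne_top

lemma Mop_ch_eq (θ : Sp d) (g : HS d) : Mop (ch θ) g = Fo.symm (Tr θ (Fo g)) := by
  rw [← Fo_ch, LinearIsometryEquiv.symm_apply_apply]

lemma continuous_Mop_ch (g : HS d) : Continuous (fun θ => Mop (ch θ) g) := by
  simp_rw [Mop_ch_eq]
  exact (LinearIsometryEquiv.continuous _).comp (continuous_Tr _)

lemma Mop_ch_norm (θ : Sp d) (g : HS d) : ‖Mop (ch θ) g‖ ≤ ‖g‖ := by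
  have := Mop_norm_le (good_ch θ) (fun x => (norm_ch θ x).le) g
  rwa [one_mul] at this

/-- The indicator function of a set as a complex function. -/
noncomputable def ind (B : Set (Sp d)) : Sp d → ℂ := B.indicator fun _ => 1

lemma ind_of_mem {B : Set (Sp d)} {x : Sp d} (h : x ∈ B) : ind B x = 1 := by
  unfold ind; rw [Set.indicator_of_mem h]

lemma ind_of_notMem {B : Set (Sp d)} {x : Sp d} (h : x ∉ B) : ind B x = 0 := by
  unfold ind; rw [Set.indicator_of_notMem h]

lemma norm_ind_le (B : Set (Sp d)) (x : Sp d) : ‖ind B x‖ ≤ 1 := by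
  by_cases h : x ∈ B
  · rw [ind_of_mem h]; simp
  · rw [ind_of_notMem h]; simp

lemma good_ind {B : Set (Sp d)} (hB : MeasurableSet B) : Good (ind B) :=
  ⟨measurable_const.indicator hB, 1, norm_ind_le B⟩

/-- The Fourier transform as a bounded operator. -/
noncomputable def FoL : HS d →L[ℂ] HS d := Fo.toLinearIsometry.toContinuousLinearMap

/-- The inverse Fourier transform as a bounded operator. -/
noncomputable def FoI : HS d →L[ℂ] HS d := Fo.symm.toLinearIsometry.toContinuousLinearMap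

lemma FoL_apply (f : HS d) : FoL f = Fo f := rfl

lemma FoI_apply (f : HS d) : FoI f = Fo.symm f := rfl

/-- Multiplication by the indicator function of a bounded set in momentum space and by a
function in `L^2` in position space. -/
lemma compact_ind_Fo {v : Sp d → ℂ} (hv : Good v) (hv2 : MemLp v 2) {B : Set (Sp d)}
    (hB : MeasurableSet B) (hBf : volume B ≠ ⊤) :
    IsCompactOperator (Mop (ind B) ∘L FoL ∘L Mop v) := by
  have hvc : MemLp (fun x => (starRingEnd ℂ) (v x)) 2 := hv2.star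
  set g : HS d := hvc.toLp _ with hg
  have hΨc : Continuous (fun ξ => Mop (ch ξ) g) := continuous_Mop_ch g
  have hΨ : MemLp (B.indicator fun ξ => Mop (ch ξ) g) 2 := by
    have h1 : MemLp (B.indicator fun _ => (1 : ℂ)) 2 volume :=
      memLp_indicator_const 2 hB 1 (Or.inr hBf)
    refine MemLp.of_le_mul (c := ‖g‖) h1 ?_ ?_
    · exact (hΨc.aestronglyMeasurable).indicator hB
    · refine Eventually.of_forall fun ξ => ?_
      by_cases hξ : ξ ∈ B
      · rw [Set.indicator_of_mem hξ, Set.indicator_of_mem hξ]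
        simpa using Mop_ch_norm ξ g
      · rw [Set.indicator_of_notMem hξ, Set.indicator_of_notMem hξ]
        simp
  apply compact_of_kernel hΨ
  intro u
  have e0 : (Mop (ind B) ∘L FoL ∘L Mop v) u = Mop (ind B) (Fo (Mop v u)) := rfl
  rw [e0]
  have i1 : Integrable (fun x => v x * u x) := hv2.integrable_mul (Lp.memLp u)
  have i2 : MemLp (fun x => v x * u x) 2 := hv.memLp (Lp.memLp u)
  have e1 : Mop v u = i2.toLp _ := by
    apply Lp.ext
    filter_upwards [Mop_coe hv u, i2.coeFn_toLp] with x h1 h2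
    rw [h1, h2]
  filter_upwards [Mop_coe (good_ind hB) (Fo (Mop v u)), Fo_toLp i1 i2] with ξ h1 h2
  rw [h1, e1, h2]
  by_cases hξ : ξ ∈ B
  · rw [ind_of_mem hξ, Set.indicator_of_mem hξ, one_mul, fourier_eq_ch, inner_eq]
    apply integral_congr_ae
    filter_upwards [Mop_coe (good_ch ξ) g, hvc.coeFn_toLp] with x h3 h4
    rw [h3, h4, map_mul, conj_ch, Complex.conj_conj]
    ring
  · rw [ind_of_notMem hξ, Set.indicator_of_notMem hξ, inner_zero_left, zero_mul]

lemma Cop_eq (v : Sp d → ℂ) : Cop v = FoL ∘L Mop v ∘L FoI := rfl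

lemma compact_ind_Cop {v : Sp d → ℂ} (hv : Good v) (hv2 : MemLp v 2) {B : Set (Sp d)}
    (hB : MeasurableSet B) (hBf : volume B ≠ ⊤) :
    IsCompactOperator (Mop (ind B) ∘L Cop v) := by
  have h1 := (compact_ind_Fo hv hv2 hB hBf).comp_clm FoI
  exact h1

/-- Compactness from approximation. -/
lemma compact_of_approx' {T : HS d →L[ℂ] HS d}
    (h : ∀ ε > 0, ∃ S : HS d →L[ℂ] HS d, IsCompactOperator S ∧ ‖T - S‖ ≤ ε) :
    IsCompactOperator T := by
  have hcl : T ∈ closure {f : HS d →L[ℂ] HS d | IsCompactOperator f} := by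
    rw [Metric.mem_closure_iff]
    intro ε hε
    obtain ⟨S, hS, hn⟩ := h (ε / 2) (by positivity)
    exact ⟨S, hS, by rw [dist_eq_norm]; linarith⟩
  have hclosed : IsClosed {f : HS d →L[ℂ] HS d | IsCompactOperator f} :=
    isClosed_setOfPred_isCompactOperator
  rw [hclosed.closure_eq] at hcl
  exact hcl

/-- The weight `⟨ξ⟩`. -/
noncomputable def jb (ξ : Sp d) : ℝ := √(1 + ‖ξ‖ ^ 2)

lemma jb_sq (ξ : Sp d) : jb ξ ^ 2 = 1 + ‖ξ‖ ^ 2 := by
  unfold jb
  rw [Real.sq_sqrt (by positivity)]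

lemma one_le_jb (ξ : Sp d) : 1 ≤ jb ξ := by
  unfold jb
  rw [Real.one_le_sqrt]
  nlinarith [sq_nonneg ‖ξ‖]

lemma jb_pos (ξ : Sp d) : 0 < jb ξ := lt_of_lt_of_le one_pos (one_le_jb ξ)

lemma norm_le_jb (ξ : Sp d) : ‖ξ‖ ≤ jb ξ := by
  unfold jb
  apply Real.le_sqrt_of_sq_le
  linarith

lemma continuous_jb : Continuous (jb (d := d)) := by
  unfold jb
  fun_prop

/-- The weight `1 / ⟨ξ⟩`. -/
noncomputable def dd (ξ : Sp d) : ℂ := (((jb ξ)⁻¹ : ℝ) : ℂ)

lemma continuous_dd : Continuous (dd (d := d)) := by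
  unfold dd
  apply Complex.continuous_ofReal.comp
  exact continuous_jb.inv₀ fun ξ => (jb_pos ξ).ne'

lemma norm_dd (ξ : Sp d) : ‖dd ξ‖ = (jb ξ)⁻¹ := by
  unfold dd
  rw [Complex.norm_real, Real.norm_of_nonneg (inv_nonneg.mpr (jb_pos ξ).le)]

lemma norm_dd_le (ξ : Sp d) : ‖dd ξ‖ ≤ 1 := by
  rw [norm_dd]
  exact inv_le_one_of_one_le₀ (one_le_jb ξ)

lemma good_dd : Good (dd (d := d)) := ⟨continuous_dd.measurable, 1, norm_dd_le⟩

lemma conj_dd (ξ : Sp d) : (starRingEnd ℂ) (dd ξ) = dd ξ := Complex.conj_ofReal _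

lemma dd_ne_zero (ξ : Sp d) : dd ξ ≠ 0 := by
  intro h
  have := norm_dd ξ
  rw [h, norm_zero] at this
  exact (inv_pos.mpr (jb_pos ξ)).ne this

lemma jb_mul_dd (ξ : Sp d) : (jb ξ : ℂ) * dd ξ = 1 := by
  unfold dd
  rw [← Complex.ofReal_mul, mul_inv_cancel₀ (jb_pos ξ).ne', Complex.ofReal_one]

/-- The operator of multiplication by `v` between the weights `1 / ⟨ξ⟩`. -/
noncomputable def Kv (v : Sp d → ℂ) : HS d →L[ℂ] HS d := Mop dd ∘L Cop v ∘L Mop dd

lemma Kv_apply (v : Sp d → ℂ) (f : HS d) : Kv v f = Mop dd (Cop v (Mop dd f)) := rfl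

lemma Mop_dd_norm (f : HS d) : ‖Mop dd f‖ ≤ ‖f‖ := by
  have := Mop_norm_le good_dd norm_dd_le f
  rwa [one_mul] at this

lemma volume_closedBall_ne_top (x : Sp d) (r : ℝ) : volume (Metric.closedBall x r) ≠ ⊤ :=
  (isCompact_closedBall x r).measure_ne_top

lemma compact_Kv {v : Sp d → ℂ} (hv : Good v) (hv2 : MemLp v 2) : IsCompactOperator (Kv v) := by
  apply compact_of_approx'
  intro ε hε
  obtain ⟨C, hC0, hC⟩ := hv.bound
  set Λ := C / ε with hΛ
  have hΛ0 : 0 < Λ := by positivity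
  set B : Set (Sp d) := Metric.closedBall 0 Λ with hB
  have hBm : MeasurableSet B := Metric.isClosed_closedBall.measurableSet
  refine ⟨Mop dd ∘L (Mop (ind B) ∘L Cop v) ∘L Mop dd, ?_, ?_⟩
  · exact ((compact_ind_Cop hv hv2 hBm (volume_closedBall_ne_top 0 Λ)).comp_clm
      (Mop dd)).clm_comp (Mop dd)
  · apply ContinuousLinearMap.opNorm_le_bound _ hε.le
    intro f
    set u := Cop v (Mop dd f) with hu
    have e1 : (Kv v - Mop dd ∘L (Mop (ind B) ∘L Cop v) ∘L Mop dd) f =
        Mop (fun ξ => dd ξ - dd ξ * ind B ξ) u := by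
      rw [_root_.sub_apply, Mop_sub good_dd (good_dd.mul (good_ind hBm)),
        ← Mop_mul good_dd (good_ind hBm)]
      rfl
    rw [e1]
    have h1 : ∀ ξ : Sp d, ‖dd ξ - dd ξ * ind B ξ‖ ≤ Λ⁻¹ := by
      intro ξ
      by_cases hξ : ξ ∈ B
      · rw [ind_of_mem hξ]; simp; positivity
      · rw [ind_of_notMem hξ, mul_zero, sub_zero, norm_dd]
        have : Λ < ‖ξ‖ := by simpa [hB] using hξ
        gcongr
        exact this.le.trans (norm_le_jb ξ)
    refine (Mop_norm_le (good_dd.sub (good_dd.mul (good_ind hBm))) h1 u).trans ?_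
    have h2 : ‖u‖ ≤ C * ‖f‖ := by
      rw [hu]
      refine (Cop_norm_le hv hC _).trans ?_
      gcongr
      exact Mop_dd_norm f
    calc Λ⁻¹ * ‖u‖ ≤ Λ⁻¹ * (C * ‖f‖) := by gcongr
      _ = ε * ‖f‖ := by rw [hΛ]; field_simp

end MP497a12
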