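import Mathlib
import Pool.Agent.Lib.MP_497a12_mp.GCpt

/-!
# The symbols of the rescaled operators
-/

open MeasureTheory Filter Topology Real
open scoped ENNReal ContDiff InnerProductSpace FourierTransform SchwartzMap

namespace MP497a12

variable {n : ℕ}

lemma real_ineq_Z {a b t : ℝ} (ha : 0 ≤ a) (hb : 0 ≤ b) (ht : 0 ≤ t) :
    1 + 2 * t + t ^ 2 + a + b ≤ (1 + t) ^ 2 * ((a + 1) * (b + 1)) := by
  have e : (1 + t) ^ 2 * ((a + 1) * (b + 1)) =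
      1 + 2 * t + t ^ 2 + a + b + (a * b + (2 * t + t ^ 2) * (a + b + a * b)) := by ring
  have h : 0 ≤ a * b + (2 * t + t ^ 2) * (a + b + a * b) := by positivity
  linarith

lemma real_ineq_A {y t Z : ℝ} (ht : 0 ≤ t) (hZ : 1 + 2 * t + t ^ 2 ≤ Z)
    (h7 : (y - t) ^ 2 ≤ 2 * Z) : (y - t) * (1 + t) ≤ 3 / 2 * Z := by
  have hZ0 : 0 ≤ Z := le_trans (by positivity) hZ
  have ht2 : (1 + t) ^ 2 ≤ Z := by
    have e : (1 + t) ^ 2 = 1 + 2 * t + t ^ 2 := by ring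
    rw [e]; exact hZ
  have h9 : ((y - t) * (1 + t)) ^ 2 ≤ (3 / 2 * Z) ^ 2 := by
    calc ((y - t) * (1 + t)) ^ 2 = (y - t) ^ 2 * (1 + t) ^ 2 := by ring
      _ ≤ (2 * Z) * Z := by gcongr
      _ ≤ (3 / 2 * Z) ^ 2 := by
        have e : (3 / 2 * Z) ^ 2 = (2 * Z) * Z + Z ^ 2 / 4 := by ring
        have h : 0 ≤ Z ^ 2 / 4 := by positivity
        rw [e]; linarith
  exact (abs_le_of_sq_le_sq' h9 (by positivity)).2

lemma real_ineq {ε a0 b0 y t c s1 s2 : ℝ} (hε0 : 0 ≤ ε) (ht : 0 ≤ t)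
    (hb : |b0| ≤ t) (hc : |c| ≤ y * t) (h1 : s1 = 2 * a0 + ε * a0 ^ 2 + y ^ 2)
    (h2 : s2 = - 2 * (a0 - b0) + ε * (a0 - b0) ^ 2 + (y ^ 2 - 2 * c + (t ^ 2 - b0 ^ 2))) :
    1 + (|a0| + y) ≤ 4 * ((1 + t) ^ 2 * ((|s1| + 1) * (|s2| + 1))) := by
  obtain ⟨a, ha⟩ : ∃ a, a = |s1| := ⟨_, rfl⟩
  obtain ⟨b, hb'⟩ : ∃ b, b = |s2| := ⟨_, rfl⟩
  obtain ⟨x, hx⟩ : ∃ x, x = |a0| := ⟨_, rfl⟩
  rw [← ha, ← hb', ← hx]
  have ha0 : 0 ≤ a := ha ▸ abs_nonneg _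
  have hb0 : 0 ≤ b := hb' ▸ abs_nonneg _
  have hx0 : 0 ≤ x := hx ▸ abs_nonneg _
  have hZ2 := real_ineq_Z ha0 hb0 ht
  obtain ⟨Z, hZ⟩ : ∃ Z, Z = (1 + t) ^ 2 * ((a + 1) * (b + 1)) := ⟨_, rfl⟩
  rw [← hZ] at hZ2 ⊢
  clear hZ
  have hs1 : s1 ≤ a := ha ▸ le_abs_self _
  have hs2 : s2 ≤ b := hb' ▸ le_abs_self _
  have hs1' : -a ≤ s1 := ha ▸ neg_abs_le _
  have hs2' : -b ≤ s2 := hb' ▸ neg_abs_le _
  have hx1 : a0 ≤ x := hx ▸ le_abs_self _
  have hx2 : -x ≤ a0 := hx ▸ neg_abs_le _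
  have hxx : x ^ 2 = a0 ^ 2 := by rw [hx]; exact sq_abs a0
  have hbb : b0 ^ 2 ≤ t ^ 2 := sq_le_sq.mpr (by rwa [abs_of_nonneg ht])
  have hb00 := sq_nonneg b0
  have ht0 := sq_nonneg t
  have hc1 := abs_le.mp hc
  have hb1 := abs_le.mp hb
  have hea : 0 ≤ ε * a0 ^ 2 := by positivity
  have hya : y ^ 2 ≤ a + 2 * x := by linarith
  by_cases hA : ε * |b0| ≤ 1
  · -- case A
    have h3 : 2 * x ≤ |4 * a0 + 2 * ε * a0 * b0| := by
      have e : 4 * a0 + 2 * ε * a0 * b0 = a0 * (4 + 2 * (ε * b0)) := by ring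
      rw [e, abs_mul, mul_comm 2 x, hx]
      apply mul_le_mul_of_nonneg_left _ (abs_nonneg a0)
      have h4 : |ε * b0| ≤ 1 := by rwa [abs_mul, abs_of_nonneg hε0]
      have h5 := abs_le.mp h4
      rw [abs_of_nonneg (by linarith)]
      linarith
    have h4 : ε * b0 ^ 2 ≤ t := by
      have : ε * b0 ^ 2 = (ε * |b0|) * |b0| := by rw [← sq_abs b0]; ring
      rw [this]
      calc (ε * |b0|) * |b0| ≤ 1 * |b0| := mul_le_mul_of_nonneg_right hA (abs_nonneg _)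
        _ ≤ t := by rw [one_mul]; exact hb
    have h4' : 0 ≤ ε * b0 ^ 2 := by positivity
    have h5 : |4 * a0 + 2 * ε * a0 * b0| ≤ a + b + 3 * t + 2 * (y * t) + t ^ 2 := by
      have e : 4 * a0 + 2 * ε * a0 * b0 = s1 - s2 + 2 * b0 + ε * b0 ^ 2 - 2 * c + (t ^ 2 - b0 ^ 2)
        := by rw [h1, h2]; ring
      rw [e, abs_le]
      constructor <;> linarith
    have h6 : 2 * x ≤ a + b + 3 * t + 2 * (y * t) + t ^ 2 := h3.trans h5
    have h7 : (y - t) ^ 2 ≤ 2 * Z := by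
      have e : (y - t) ^ 2 = y ^ 2 - 2 * (y * t) + t ^ 2 := by ring
      rw [e]; linarith
    have h8 := real_ineq_A (y := y) (Z := Z) ht (by linarith) h7
    have e : (y - t) * (1 + t) = y + y * t - t - t ^ 2 := by ring
    rw [e] at h8
    linarith
  · have hA' : 1 < ε * |b0| := not_le.mp hA
    have hε : 0 < ε := by
      rcases hε0.lt_or_eq with h | h
      · exact h
      · rw [← h] at hA'
        linarith
    by_cases hB : 4 ≤ ε * x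
    · have h3 : 4 * x ≤ ε * a0 ^ 2 := by
        rw [← hxx]
        calc 4 * x ≤ (ε * x) * x := mul_le_mul_of_nonneg_right hB hx0
          _ = ε * x ^ 2 := by ring
      have h4 : 2 * x + y ^ 2 ≤ a := by linarith
      have h5 : (y - 1) ^ 2 = y ^ 2 - 2 * y + 1 := by ring
      have h6 := sq_nonneg (y - 1)
      linarith
    · have hB' : ε * x < 4 := not_le.mp hB
      have h3 : x ≤ 4 * t := by
        have e : ε * (4 * |b0|) = 4 * (ε * |b0|) := by ring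
        have : ε * x ≤ ε * (4 * |b0|) := by rw [e]; linarith
        have := le_of_mul_le_mul_left this hε
        linarith
      have h5 : (y - 2) ^ 2 = y ^ 2 - 4 * y + 4 := by ring
      have h6 := sq_nonneg (y - 2)
      linarith

/-- The unit vector in the direction of the coordinate `0`. -/
noncomputable def e0 : Sp (n + 1) := EuclideanSpace.single 0 1

lemma e0_zero : (e0 : Sp (n + 1)) 0 = 1 := by simp [e0]

lemma e0_succ (i : Fin n) : (e0 : Sp (n + 1)) i.succ = 0 := by simp [e0]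

lemma norm_e0 : ‖(e0 : Sp (n + 1))‖ = 1 := by simp [e0]

lemma inner_e0 (η : Sp (n + 1)) : ⟪η, e0⟫_ℝ = η 0 := by
  simp [e0, EuclideanSpace.inner_single_right]

/-- The part of `η` orthogonal to `e0`. -/
noncomputable def pr (η : Sp (n + 1)) : Sp (n + 1) := η - (η 0) • e0

lemma norm_pr_sq (η : Sp (n + 1)) : ‖pr η‖ ^ 2 = ‖η‖ ^ 2 - (η 0) ^ 2 := by
  unfold pr
  rw [norm_sub_sq_real, norm_smul, inner_smul_right, inner_e0, norm_e0]
  rw [mul_one, Real.norm_eq_abs, sq_abs]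
  ring

lemma inner_pr (η θ : Sp (n + 1)) : ⟪pr η, θ⟫_ℝ = ⟪η, θ⟫_ℝ - η 0 * θ 0 := by
  unfold pr
  rw [inner_sub_left, inner_smul_left, real_inner_comm θ e0, inner_e0]
  simp

lemma abs_apply_zero_le (η : Sp (n + 1)) : |η 0| ≤ ‖η‖ := by
  have := EuclideanSpace.norm_eq η
  have h2 := PiLp.norm_apply_le η 0
  simpa using h2

lemma norm_le_pr (η : Sp (n + 1)) : ‖η‖ ≤ |η 0| + ‖pr η‖ := by
  have h : η = (η 0) • e0 + pr η := by unfold pr; abel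
  calc ‖η‖ = ‖(η 0) • e0 + pr η‖ := by rw [← h]
    _ ≤ ‖(η 0) • (e0 : Sp (n + 1))‖ + ‖pr η‖ := norm_add_le _ _
    _ = _ := by rw [norm_smul, norm_e0, mul_one, Real.norm_eq_abs]

/-- The reflection of the coordinate `0`. -/
noncomputable def rf : Sp (n + 1) ≃ₗᵢ[ℝ] Sp (n + 1) :=
  LinearIsometryEquiv.piLpCongrRight 2
    (fun i : Fin (n + 1) => if i = 0 then LinearIsometryEquiv.neg ℝ else
      LinearIsometryEquiv.refl ℝ ℝ)

lemma rf_zero (η : Sp (n + 1)) : rf η 0 = - η 0 := by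
  simp [rf, LinearIsometryEquiv.piLpCongrRight_apply]

lemma rf_succ (η : Sp (n + 1)) (i : Fin n) : rf η i.succ = η i.succ := by
  simp [rf, LinearIsometryEquiv.piLpCongrRight_apply]

lemma rf_eq (η : Sp (n + 1)) : rf η = η - (2 * η 0) • e0 := by
  ext i
  refine Fin.cases ?_ (fun i => ?_) i
  · rw [rf_zero]
    simp [e0_zero]; ring
  · rw [rf_succ]
    simp [e0_succ]

lemma rf_rf (η : Sp (n + 1)) : rf (rf η) = η := by
  ext i
  refine Fin.cases ?_ (fun i => ?_) i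
  · rw [rf_zero, rf_zero, neg_neg]
  · rw [rf_succ, rf_succ]

/-- The symbol. -/
noncomputable def sy (ε : ℝ) (η : Sp (n + 1)) : ℝ :=
  2 * η 0 + ε * (η 0) ^ 2 + (‖η‖ ^ 2 - (η 0) ^ 2)

lemma continuous_sy (ε : ℝ) : Continuous (sy (n := n) ε) := by
  unfold sy; fun_prop

lemma sy_rf (ε : ℝ) (η : Sp (n + 1)) :
    sy ε (rf η) = - 2 * η 0 + ε * (η 0) ^ 2 + (‖η‖ ^ 2 - (η 0) ^ 2) := by
  unfold sy
  rw [rf_zero, LinearIsometryEquiv.norm_map]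
  ring

lemma key_ineq {ε : ℝ} (hε : 0 ≤ ε) (η θ : Sp (n + 1)) :
    1 + ‖η‖ ≤ 4 * ((1 + ‖θ‖) ^ 2 * ((|sy ε η| + 1) * (|sy ε (rf (η - θ))| + 1))) := by
  have h := real_ineq (ε := ε) (a0 := η 0) (b0 := θ 0) (y := ‖pr η‖) (t := ‖θ‖)
    (c := ⟪pr η, θ⟫_ℝ) (s1 := sy ε η) (s2 := sy ε (rf (η - θ))) hε
    (norm_nonneg _) (abs_apply_zero_le θ) (abs_real_inner_le_norm _ _) ?_ ?_
  · linarith [norm_le_pr η]
  · rw [norm_pr_sq, sy]
  · rw [norm_pr_sq, sy_rf, inner_pr, norm_sub_sq_real]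
    simp only [PiLp.sub_apply]
    ring

end MP497a12
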