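import Mathlib
import Pool.Agent.Lib.MP_497a12_mp.GSym

/-!
# The rescaled operators
-/

open MeasureTheory Filter Topology Real
open scoped ENNReal ContDiff InnerProductSpace FourierTransform SchwartzMap

namespace MP497a12

variable {n : ℕ}

/-- Reflection on `L^2`. -/
noncomputable def Rf : HS (n + 1) →ₗᵢ[ℂ] HS (n + 1) :=
  Lp.compMeasurePreservingₗᵢ ℂ (rf : Sp (n + 1) → Sp (n + 1)) rf.measurePreserving

lemma Rf_coe (f : HS (n + 1)) : Rf f =ᵐ[volume] fun ξ => f (rf ξ) :=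
  Lp.coeFn_compMeasurePreserving f rf.measurePreserving

lemma ae_rf {p : Sp (n + 1) → Prop} (h : ∀ᵐ x, p x) : ∀ᵐ x, p (rf x) :=
  ((rf (n := n)).measurePreserving).quasiMeasurePreserving.ae h

lemma measurable_rf : Measurable (rf : Sp (n + 1) → Sp (n + 1)) :=
  rf.continuous.measurable

lemma Rf_Mop {a : Sp (n + 1) → ℂ} (ha : Good a) (f : HS (n + 1)) :
    Rf (Mop a f) = Mop (fun ξ => a (rf ξ)) (Rf f) := by
  apply Lp.ext
  have h1 := ae_rf (Mop_coe ha f)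
  filter_upwards [Rf_coe (Mop a f), h1, Mop_coe (ha.comp measurable_rf) (Rf f), Rf_coe f]
    with x h2 h3 h4 h5
  rw [h2, h3, h4, h5]

lemma Rf_Rf (f : HS (n + 1)) : Rf (Rf f) = f := by
  apply Lp.ext
  filter_upwards [Rf_coe (Rf f), ae_rf (Rf_coe f)] with x h1 h2
  rw [h1, h2, rf_rf]

/-- The weight `1 / √(|s| + 1)`. -/
noncomputable def wt (ε : ℝ) (η : Sp (n + 1)) : ℂ := (((√(|sy ε η| + 1))⁻¹ : ℝ) : ℂ)

lemma wt_base (ε : ℝ) (η : Sp (n + 1)) : 1 ≤ √(|sy ε η| + 1) := by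
  rw [Real.one_le_sqrt]
  linarith [abs_nonneg (sy ε η)]

lemma continuous_wt (ε : ℝ) : Continuous (wt (n := n) ε) := by
  unfold wt
  apply Complex.continuous_ofReal.comp
  apply Continuous.inv₀
  · exact ((continuous_sy ε).abs.add continuous_const).sqrt
  · intro η
    linarith [wt_base ε η]

lemma norm_wt (ε : ℝ) (η : Sp (n + 1)) : ‖wt ε η‖ = (√(|sy ε η| + 1))⁻¹ := by
  unfold wt
  rw [Complex.norm_real, Real.norm_of_nonneg (inv_nonneg.mpr (Real.sqrt_nonneg _))]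

lemma norm_wt_le (ε : ℝ) (η : Sp (n + 1)) : ‖wt ε η‖ ≤ 1 := by
  rw [norm_wt]
  exact inv_le_one_of_one_le₀ (wt_base ε η)

lemma good_wt (ε : ℝ) : Good (wt (n := n) ε) :=
  ⟨(continuous_wt ε).measurable, 1, norm_wt_le ε⟩

lemma conj_wt (ε : ℝ) (η : Sp (n + 1)) : (starRingEnd ℂ) (wt ε η) = wt ε η :=
  Complex.conj_ofReal _

lemma wt_ne_zero (ε : ℝ) (η : Sp (n + 1)) : wt ε η ≠ 0 := by
  intro h
  have h1 := norm_wt ε η
  rw [h, norm_zero] at h1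
  have h2 := wt_base ε η
  have h3 : 0 < (√(|sy ε η| + 1))⁻¹ := by positivity
  linarith

lemma wt_sq (ε : ℝ) (η : Sp (n + 1)) : wt ε η * wt ε η = ((|sy ε η| + 1 : ℝ) : ℂ)⁻¹ := by
  unfold wt
  rw [← Complex.ofReal_mul, ← Complex.ofReal_inv]
  congr 1
  rw [← mul_inv]
  congr 1
  exact Real.mul_self_sqrt (by positivity)

lemma good_wtN (ε : ℝ) : Good (fun η : Sp (n + 1) => wt ε (rf η)) :=
  (good_wt ε).comp measurable_rf

lemma norm_wt_mul_le {ε : ℝ} (hε : 0 ≤ ε) (η θ : Sp (n + 1)) :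
    ‖wt ε η * wt ε (rf (η - θ))‖ ≤ 2 * (1 + ‖θ‖) / √(1 + ‖η‖) := by
  have h := key_ineq hε η θ
  rw [norm_mul, norm_wt, norm_wt]
  set A := |sy ε η| + 1 with hA
  set B := |sy ε (rf (η - θ))| + 1 with hB
  have hA0 : 0 < A := by positivity
  have hB0 : 0 < B := by positivity
  have h1 : √(1 + ‖η‖) ≤ 2 * (1 + ‖θ‖) * (√A * √B) := by
    rw [Real.sqrt_le_left (by positivity)]
    refine h.trans (le_of_eq ?_)
    rw [mul_pow, mul_pow, mul_pow, Real.sq_sqrt hA0.le, Real.sq_sqrt hB0.le]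
    ring
  rw [le_div_iff₀ (by positivity)]
  have hsA : 0 < √A := Real.sqrt_pos.mpr hA0
  have hsB : 0 < √B := Real.sqrt_pos.mpr hB0
  calc (√A)⁻¹ * (√B)⁻¹ * √(1 + ‖η‖) ≤ (√A)⁻¹ * (√B)⁻¹ * (2 * (1 + ‖θ‖) * (√A * √B)) := by gcongr
    _ = 2 * (1 + ‖θ‖) := by field_simp

/-- The operator `N`. -/
noncomputable def Nop (ε : ℝ) (G : Sp (n + 1) → ℂ) : HS (n + 1) →L[ℂ] HS (n + 1) :=
  Mop (wt ε) ∘L Cop G ∘L Mop (fun η => wt ε (rf η))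

lemma Nop_apply (ε : ℝ) (G : Sp (n + 1) → ℂ) (f : HS (n + 1)) :
    Nop ε G f = Mop (wt ε) (Cop G (Mop (fun η => wt ε (rf η)) f)) := rfl

lemma Mop_contr {d : ℕ} {a : Sp d → ℂ} (ha : Good a) (h : ∀ x, ‖a x‖ ≤ 1) (f : HS d) :
    ‖Mop a f‖ ≤ ‖f‖ := by
  have := Mop_norm_le ha h f
  rwa [one_mul] at this

lemma Nop_norm_le (ε : ℝ) {G : Sp (n + 1) → ℂ} (hG : Good G) {M : ℝ} (hM : ∀ x, ‖G x‖ ≤ M)
    (f : HS (n + 1)) : ‖Nop ε G f‖ ≤ M * ‖f‖ := by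
  have hM0 : 0 ≤ M := (norm_nonneg _).trans (hM 0)
  rw [Nop_apply]
  refine (Mop_contr (good_wt ε) (norm_wt_le ε) _).trans ?_
  refine (Cop_norm_le hG hM _).trans ?_
  gcongr
  exact Mop_contr (good_wtN ε) (fun x => norm_wt_le ε _) _

/-- The indicator function of the ball of radius `Λ`. -/
noncomputable def chi {d : ℕ} (Λ : ℝ) : Sp d → ℂ := ind (Metric.closedBall 0 Λ)

/-- The indicator function of the complement of the ball of radius `Λ`. -/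
noncomputable def chc {d : ℕ} (Λ : ℝ) (x : Sp d) : ℂ := 1 - chi Λ x

lemma good_chi {d : ℕ} (Λ : ℝ) : Good (chi (d := d) Λ) :=
  good_ind Metric.isClosed_closedBall.measurableSet

lemma good_chc {d : ℕ} (Λ : ℝ) : Good (chc (d := d) Λ) := (Good.const 1).sub (good_chi Λ)

lemma chi_of_le {d : ℕ} {Λ : ℝ} {x : Sp d} (h : ‖x‖ ≤ Λ) : chi Λ x = 1 :=
  ind_of_mem (by simpa using h)

lemma chi_of_lt {d : ℕ} {Λ : ℝ} {x : Sp d} (h : Λ < ‖x‖) : chi Λ x = 0 :=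
  ind_of_notMem (by simpa using h)

lemma chc_of_le {d : ℕ} {Λ : ℝ} {x : Sp d} (h : ‖x‖ ≤ Λ) : chc Λ x = 0 := by
  rw [chc, chi_of_le h, sub_self]

lemma chc_of_lt {d : ℕ} {Λ : ℝ} {x : Sp d} (h : Λ < ‖x‖) : chc Λ x = 1 := by
  rw [chc, chi_of_lt h, sub_zero]

lemma norm_chi_le {d : ℕ} (Λ : ℝ) (x : Sp d) : ‖chi Λ x‖ ≤ 1 := norm_ind_le _ _

lemma norm_chc_le {d : ℕ} (Λ : ℝ) (x : Sp d) : ‖chc Λ x‖ ≤ 1 := by
  rcases le_or_gt ‖x‖ Λ with h | h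
  · rw [chc_of_le h]; simp
  · rw [chc_of_lt h]; simp

lemma chi_add_chc {d : ℕ} (Λ : ℝ) (f : HS d) : Mop (chi Λ) f + Mop (chc Λ) f = f := by
  rw [← Mop_add (good_chi Λ) (good_chc Λ)]
  apply Mop_eq_one
  intro x
  rw [chc]; ring

lemma chi_rf (Λ : ℝ) (x : Sp (n + 1)) : chi Λ (rf x) = chi Λ x := by
  rcases le_or_gt ‖x‖ Λ with h | h
  · rw [chi_of_le h, chi_of_le (by rwa [LinearIsometryEquiv.norm_map])]
  · rw [chi_of_lt h, chi_of_lt (by rwa [LinearIsometryEquiv.norm_map])]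

/-- `h` represents `G`, with constant `W`. -/
structure Rep {d : ℕ} (G h : Sp d → ℂ) (W : ℝ) : Prop where
  good : Good G
  int : Integrable h
  eq : ∀ x, G x = ∫ θ, h θ * ch θ x
  int2 : Integrable (fun θ => ‖h θ‖ * (1 + ‖θ‖) ^ 2)
  le : ∫ θ, ‖h θ‖ * (1 + ‖θ‖) ^ 2 ≤ W

lemma Rep.W_nonneg {d : ℕ} {G h : Sp d → ℂ} {W : ℝ} (hr : Rep G h W) : 0 ≤ W :=
  le_trans (integral_nonneg fun θ => by positivity) hr.le

lemma Nop_high {ε : ℝ} (hε : 0 ≤ ε) {G h : Sp (n + 1) → ℂ} {W : ℝ} (hr : Rep G h W) {Λ : ℝ}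
    (hΛ : 0 ≤ Λ) (f : HS (n + 1)) :
    ‖Mop (chc Λ) (Nop ε G f)‖ ≤ 2 * W / √(1 + Λ) * ‖f‖ := by
  rw [Nop_apply, Mop_mul (good_chc Λ) (good_wt ε)]
  have hs : 0 < √(1 + Λ) := by positivity
  apply weighted_bound hr.int hr.good hr.eq ((good_chc Λ).mul (good_wt ε)) (good_wtN ε)
    (S := fun θ => 2 / √(1 + Λ) * (1 + ‖θ‖) ^ 2)
  · intro θ ξ
    rcases le_or_gt ‖ξ‖ Λ with h | h
    · rw [chc_of_le h]; simp; positivity
    · rw [chc_of_lt h, one_mul]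
      refine (norm_wt_mul_le hε ξ θ).trans ?_
      have h1 : (1 + ‖θ‖) ≤ (1 + ‖θ‖) ^ 2 := by nlinarith [norm_nonneg θ]
      calc 2 * (1 + ‖θ‖) / √(1 + ‖ξ‖) ≤ 2 * (1 + ‖θ‖) ^ 2 / √(1 + Λ) := by gcongr
        _ = _ := by ring
  · have := hr.int2.const_mul (2 / √(1 + Λ))
    refine this.congr (Eventually.of_forall fun θ => ?_)
    simp only; ring
  · calc ∫ θ, ‖h θ‖ * (2 / √(1 + Λ) * (1 + ‖θ‖) ^ 2)
        = ∫ θ, 2 / √(1 + Λ) * (‖h θ‖ * (1 + ‖θ‖) ^ 2) := by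
          congr 1; funext θ; ring
      _ = 2 / √(1 + Λ) * ∫ θ, ‖h θ‖ * (1 + ‖θ‖) ^ 2 := integral_const_mul _ _
      _ ≤ 2 / √(1 + Λ) * W := by gcongr; exact hr.le
      _ = _ := by ring

lemma Nop_high' {ε : ℝ} (hε : 0 ≤ ε) {G h : Sp (n + 1) → ℂ} {W : ℝ} (hr : Rep G h W) {Λ : ℝ}
    (hΛ : 0 ≤ Λ) (f : HS (n + 1)) :
    ‖Nop ε G (Mop (chc Λ) f)‖ ≤ 2 * W / √(1 + Λ) * ‖f‖ := by
  rw [Nop_apply, Mop_mul (good_wtN ε) (good_chc Λ)]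
  have hs : 0 < √(1 + Λ) := by positivity
  apply weighted_bound hr.int hr.good hr.eq (good_wt ε) ((good_wtN ε).mul (good_chc Λ))
    (S := fun θ => 2 / √(1 + Λ) * (1 + ‖θ‖) ^ 2)
  · intro θ ξ
    rcases le_or_gt ‖ξ - θ‖ Λ with h | h
    · rw [chc_of_le h]; simp; positivity
    · rw [chc_of_lt h, mul_one]
      refine (norm_wt_mul_le hε ξ θ).trans ?_
      have h0 : √(1 + Λ) ≤ (1 + ‖θ‖) * √(1 + ‖ξ‖) := by
        rw [Real.sqrt_le_left (by positivity), mul_pow, Real.sq_sqrt (by positivity)]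
        have h1 : ‖ξ - θ‖ ≤ ‖ξ‖ + ‖θ‖ := norm_sub_le _ _
        nlinarith [norm_nonneg θ, norm_nonneg ξ, mul_nonneg (norm_nonneg θ) (norm_nonneg ξ),
          mul_nonneg (sq_nonneg ‖θ‖) (norm_nonneg ξ)]
      rw [div_le_iff₀ (by positivity)]
      calc 2 * (1 + ‖θ‖) = 2 / √(1 + Λ) * (1 + ‖θ‖) * √(1 + Λ) := by field_simp
        _ ≤ 2 / √(1 + Λ) * (1 + ‖θ‖) * ((1 + ‖θ‖) * √(1 + ‖ξ‖)) := by gcongr
        _ = _ := by ring
  · have := hr.int2.const_mul (2 / √(1 + Λ))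
    refine this.congr (Eventually.of_forall fun θ => ?_)
    simp only; ring
  · calc ∫ θ, ‖h θ‖ * (2 / √(1 + Λ) * (1 + ‖θ‖) ^ 2)
        = ∫ θ, 2 / √(1 + Λ) * (‖h θ‖ * (1 + ‖θ‖) ^ 2) := by
          congr 1; funext θ; ring
      _ = 2 / √(1 + Λ) * ∫ θ, ‖h θ‖ * (1 + ‖θ‖) ^ 2 := integral_const_mul _ _
      _ ≤ 2 / √(1 + Λ) * W := by gcongr; exact hr.le
      _ = _ := by ring

end MP497a12
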