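import Mathlib
import Pool.Agent.Lib.MP_497a12_mp.GOp
import Pool.Agent.Lib.MP_497a12_mp.GAbs2

/-!
# Estimates for the rescaled operators
-/

open MeasureTheory Filter Topology Real
open scoped ENNReal ContDiff InnerProductSpace FourierTransform SchwartzMap

namespace MP497a12

variable {n : ℕ}

attribute [local irreducible] Mop Cop

lemma inv_sqrt_diff {a b : ℝ} (ha : 1 ≤ a) (hb : 1 ≤ b) : |(√a)⁻¹ - (√b)⁻¹| ≤ |a - b| := by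
  have h1 : 1 ≤ √a := by rwa [Real.one_le_sqrt]
  have h2 : 1 ≤ √b := by rwa [Real.one_le_sqrt]
  have e1 : (√a)⁻¹ - (√b)⁻¹ = (√b - √a) * ((√a)⁻¹ * (√b)⁻¹) := by
    field_simp
  have e2 : a - b = (√a - √b) * (√a + √b) := by
    have := Real.mul_self_sqrt (by linarith : 0 ≤ a)
    have := Real.mul_self_sqrt (by linarith : 0 ≤ b)
    nlinarith
  rw [e1, e2, abs_mul, abs_mul (√a - √b) (√a + √b), abs_sub_comm √b √a]
  apply mul_le_mul_of_nonneg_left _ (abs_nonneg _)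
  have h3 : |(√a)⁻¹ * (√b)⁻¹| ≤ 1 := by
    rw [abs_of_nonneg (by positivity), ← mul_inv]
    apply inv_le_one_of_one_le₀
    nlinarith
  have h4 : 1 ≤ |√a + √b| := by
    rw [abs_of_nonneg (by positivity)]
    linarith
  linarith

lemma sy_diff {ε : ℝ} (hε : 0 ≤ ε) {Λ : ℝ} {η : Sp (n + 1)} (h : ‖η‖ ≤ Λ) :
    |sy ε η - sy 0 η| ≤ ε * Λ ^ 2 := by
  have e : sy ε η - sy 0 η = ε * (η 0) ^ 2 := by unfold sy; ring
  rw [e, abs_of_nonneg (by positivity)]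
  gcongr ε * ?_
  rw [← sq_abs (η 0)]
  have := abs_apply_zero_le η
  gcongr
  linarith

lemma wt_diff {ε : ℝ} (hε : 0 ≤ ε) {Λ : ℝ} {η : Sp (n + 1)} (h : ‖η‖ ≤ Λ) :
    ‖wt ε η - wt 0 η‖ ≤ ε * Λ ^ 2 := by
  unfold wt
  rw [← Complex.ofReal_sub, Complex.norm_real, Real.norm_eq_abs]
  refine (inv_sqrt_diff (by linarith [abs_nonneg (sy ε η)])
    (by linarith [abs_nonneg (sy 0 η)])).trans ?_
  have e : |sy ε η| + 1 - (|sy 0 η| + 1) = |sy ε η| - |sy 0 η| := by ring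
  rw [e]
  exact (abs_abs_sub_abs_le_abs_sub _ _).trans (sy_diff hε h)

/-- The symbol `(s - z) / (|s| + 1)`. -/
noncomputable def mm (ε : ℝ) (z : ℂ) (η : Sp (n + 1)) : ℂ :=
  ((sy ε η : ℂ) - z) / ((|sy ε η| + 1 : ℝ) : ℂ)

lemma norm_base (ε : ℝ) (η : Sp (n + 1)) : ‖((|sy ε η| + 1 : ℝ) : ℂ)‖ = |sy ε η| + 1 := by
  rw [Complex.norm_real, Real.norm_of_nonneg (by positivity)]

lemma base_ne (ε : ℝ) (η : Sp (n + 1)) : ((|sy ε η| + 1 : ℝ) : ℂ) ≠ 0 := by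
  rw [Complex.ofReal_ne_zero]; positivity

lemma continuous_mm (ε : ℝ) (z : ℂ) : Continuous (mm (n := n) ε z) := by
  unfold mm
  apply Continuous.div
  · exact (Complex.continuous_ofReal.comp (continuous_sy ε)).sub continuous_const
  · exact Complex.continuous_ofReal.comp ((continuous_sy ε).abs.add continuous_const)
  · exact base_ne ε

lemma norm_mm_le (ε : ℝ) (z : ℂ) (η : Sp (n + 1)) : ‖mm ε z η‖ ≤ 1 + ‖z‖ := by
  unfold mm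
  rw [norm_div, norm_base, div_le_iff₀ (by positivity)]
  have h1 : ‖(sy ε η : ℂ) - z‖ ≤ |sy ε η| + ‖z‖ := by
    refine (norm_sub_le _ _).trans ?_
    rw [Complex.norm_real, Real.norm_eq_abs]
  nlinarith [norm_nonneg z, abs_nonneg (sy ε η), mul_nonneg (norm_nonneg z) (abs_nonneg (sy ε η))]

lemma good_mm (ε : ℝ) (z : ℂ) : Good (mm (n := n) ε z) :=
  ⟨(continuous_mm ε z).measurable, 1 + ‖z‖, norm_mm_le ε z⟩

lemma mm_lower {b : ℝ} (hb : 0 < b) {z : ℂ} (hz : b ≤ z.im) (hz2 : ‖z‖ ≤ 2) (ε : ℝ)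
    (η : Sp (n + 1)) : b / 6 ≤ ‖mm ε z η‖ := by
  unfold mm
  rw [norm_div, norm_base, le_div_iff₀ (by positivity)]
  have hb2 : b ≤ 2 := hz.trans ((Complex.im_le_norm z).trans hz2)
  have h1 : b ≤ ‖(sy ε η : ℂ) - z‖ := by
    have h2 := Complex.abs_im_le_norm ((sy ε η : ℂ) - z)
    rw [Complex.sub_im, Complex.ofReal_im, zero_sub, abs_neg, abs_of_nonneg (by linarith)] at h2
    linarith
  have h2 : |sy ε η| - 2 ≤ ‖(sy ε η : ℂ) - z‖ := by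
    have h3 := norm_sub_norm_le (sy ε η : ℂ) z
    rw [Complex.norm_real, Real.norm_eq_abs] at h3
    linarith
  rcases le_or_gt |sy ε η| 5 with h | h
  · nlinarith
  · nlinarith

lemma mm_diff {ε : ℝ} (hε : 0 ≤ ε) {z : ℂ} {Λ : ℝ} {η : Sp (n + 1)} (h : ‖η‖ ≤ Λ) :
    ‖mm ε z η - mm 0 z η‖ ≤ (2 + ‖z‖) * (ε * Λ ^ 2) := by
  have h0 := sy_diff hε h
  set x := sy ε η with hx
  set y := sy 0 η with hy
  have hx1 := base_ne (n := n) ε η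
  have hy1 := base_ne (n := n) 0 η
  have nx := norm_base (n := n) ε η
  have ny := norm_base (n := n) 0 η
  rw [← hx] at hx1 nx
  rw [← hy] at hy1 ny
  have e1 : mm ε z η - mm 0 z η = ((x : ℂ) - y) / ((|x| + 1 : ℝ) : ℂ) +
      (((y : ℂ) - z) / ((|y| + 1 : ℝ) : ℂ)) * (((|y| - |x| : ℝ) : ℂ) / ((|x| + 1 : ℝ) : ℂ)) := by
    unfold mm
    rw [← hx, ← hy]
    field_simp
    push_cast
    ring
  rw [e1]
  have hd : 0 ≤ |x - y| := abs_nonneg _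
  have h1 : ‖((x : ℂ) - y) / ((|x| + 1 : ℝ) : ℂ)‖ ≤ |x - y| := by
    rw [norm_div, nx, ← Complex.ofReal_sub, Complex.norm_real, Real.norm_eq_abs,
      div_le_iff₀ (by positivity)]
    nlinarith [abs_nonneg x]
  have h2 : ‖((y : ℂ) - z) / ((|y| + 1 : ℝ) : ℂ)‖ ≤ 1 + ‖z‖ := norm_mm_le 0 z η
  have h3 : ‖(((|y| - |x| : ℝ) : ℂ) / ((|x| + 1 : ℝ) : ℂ))‖ ≤ |x - y| := by
    rw [norm_div, nx, Complex.norm_real, Real.norm_eq_abs, div_le_iff₀ (by positivity)]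
    have h4 : |(|y| - |x|)| ≤ |x - y| := by
      rw [abs_sub_comm x y]
      exact abs_abs_sub_abs_le_abs_sub _ _
    nlinarith [abs_nonneg x]
  calc _ ≤ ‖((x : ℂ) - y) / ((|x| + 1 : ℝ) : ℂ)‖ + ‖(((y : ℂ) - z) / ((|y| + 1 : ℝ) : ℂ)) *
        (((|y| - |x| : ℝ) : ℂ) / ((|x| + 1 : ℝ) : ℂ))‖ := norm_add_le _ _
    _ ≤ |x - y| + (1 + ‖z‖) * |x - y| := by
        rw [norm_mul]
        gcongr
    _ = (2 + ‖z‖) * |x - y| := by ring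
    _ ≤ _ := by gcongr

/-- The shift by `2 / ε`. -/
noncomputable def TT (ε : ℝ) : HS (n + 1) →L[ℂ] HS (n + 1) :=
  (Tr ((2 / ε) • e0)).toContinuousLinearMap

lemma TT_apply (ε : ℝ) (f : HS (n + 1)) : TT ε f = Tr ((2 / ε) • e0) f := rfl

/-- The reflection as a bounded operator. -/
noncomputable def RfL : HS (n + 1) →L[ℂ] HS (n + 1) := Rf.toContinuousLinearMap

lemma RfL_apply (f : HS (n + 1)) : RfL f = Rf f := rfl

/-- The reduced operator. -/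
noncomputable def Aop (ε : ℝ) (G : Sp (n + 1) → ℂ) (g z : ℂ) : HS (n + 1) →L[ℂ] HS (n + 1) :=
  Mop (mm ε z) + g • (Nop ε G ∘L (RfL + TT ε))

lemma Aop_apply (ε : ℝ) (G : Sp (n + 1) → ℂ) (g z : ℂ) (f : HS (n + 1)) :
    Aop ε G g z f = Mop (mm ε z) f + g • (Nop ε G (Rf f) + Nop ε G (TT ε f)) :=
  congrArg (fun X => Mop (mm ε z) f + g • X) (map_add (Nop ε G) (Rf f) (TT ε f))

/-- The effective operator. -/
noncomputable def A0 (G : Sp (n + 1) → ℂ) (z : ℂ) : HS (n + 1) →L[ℂ] HS (n + 1) :=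
  Mop (mm 0 z) + Nop 0 G ∘L RfL

lemma A0_apply (G : Sp (n + 1) → ℂ) (z : ℂ) (f : HS (n + 1)) :
    A0 G z f = Mop (mm 0 z) f + Nop 0 G (Rf f) := rfl

lemma TT_norm (ε : ℝ) (f : HS (n + 1)) : ‖TT ε f‖ = ‖f‖ := by
  rw [TT_apply, LinearIsometry.norm_map]

lemma RfL_norm (f : HS (n + 1)) : ‖RfL f‖ = ‖f‖ := by
  rw [RfL_apply, LinearIsometry.norm_map]

lemma chi_TT_chi {ε Λ : ℝ} (hε : 0 < ε) (hΛε : Λ < 1 / ε) (f : HS (n + 1)) :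
    Mop (chi Λ) (TT ε (Mop (chi Λ) f)) = 0 := by
  rw [TT_apply, Tr_Mop (good_chi Λ),
    Mop_mul (good_chi Λ) ((good_chi Λ).comp (measurable_id'.sub_const _))]
  apply Lp.ext
  have h3 := Mop_coe ((good_chi (d := n + 1) Λ).mul
    ((good_chi Λ).comp (measurable_id'.sub_const ((2 / ε) • e0)))) (Tr ((2 / ε) • e0) f)
  filter_upwards [h3, Lp.coeFn_zero ℂ 2 (volume : Measure (Sp (n + 1)))] with ξ h4 h5
  rw [h4, h5, Pi.zero_apply]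
  have h6 : chi Λ ξ * chi Λ (ξ - (2 / ε) • e0) = 0 := by
    rcases le_or_gt ‖ξ‖ Λ with h | h
    · have h7 : Λ < ‖ξ - (2 / ε) • e0‖ := by
        have h8 : ‖(2 / ε) • (e0 : Sp (n + 1))‖ = 2 / ε := by
          rw [norm_smul, norm_e0, mul_one, Real.norm_of_nonneg (by positivity)]
        have h9 := norm_sub_norm_le ((2 / ε) • (e0 : Sp (n + 1))) ξ
        rw [norm_sub_rev, h8] at h9
        have : 2 / ε = 2 * (1 / ε) := by ring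
        linarith
      rw [chi_of_lt h7, mul_zero]
    · rw [chi_of_lt h, zero_mul]
  rw [h6, zero_mul]

lemma abs_chi_TT {H : Type*} [NormedAddCommGroup H] [NormedSpace ℂ H] {X Q T : H →L[ℂ] H}
    (hXQ : ∀ f, X f + Q f = f) (hX : ∀ f, ‖X f‖ ≤ ‖f‖) (hT : ∀ f, ‖T f‖ = ‖f‖)
    (hXTX : ∀ f, X (T (X f)) = 0) (f : H) : ‖X (T f)‖ ≤ ‖Q f‖ := by
  have h1 : X (T f) = X (T (Q f)) := by
    conv_lhs => rw [← hXQ f, map_add, map_add, hXTX, zero_add]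
  rw [h1]
  refine (hX _).trans ?_
  rw [hT]

lemma chi_TT_le {ε Λ : ℝ} (hε : 0 < ε) (hΛε : Λ < 1 / ε) (f : HS (n + 1)) :
    ‖Mop (chi Λ) (TT ε f)‖ ≤ ‖Mop (chc Λ) f‖ :=
  abs_chi_TT (X := Mop (chi Λ)) (Q := Mop (chc Λ)) (T := TT ε) (chi_add_chc Λ)
    (Mop_contr (good_chi Λ) (norm_chi_le Λ)) (TT_norm ε) (chi_TT_chi hε hΛε) f

lemma Mop_norm_le' {d : ℕ} {a : Sp d → ℂ} (h : Good a) {C : ℝ} (hC : ∀ x, ‖a x‖ ≤ C) (f : HS d) :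
    ‖Mop a f‖ ≤ C * ‖f‖ := Mop_norm_le h hC f

lemma mid_bound {d : ℕ} {a b c c' G : Sp d → ℂ} (ha : Good a) (hb : Good b) (hc : Good c)
    (hc' : Good c') (hG : Good G) {A C M : ℝ} (hA : ∀ x, ‖a x‖ ≤ A) (hb1 : ∀ x, ‖b x‖ ≤ 1)
    (hc1 : ∀ x, ‖c x‖ ≤ 1) (hC : ∀ x, ‖c' x‖ ≤ C) (hM : ∀ x, ‖G x‖ ≤ M) (f : HS d) :
    ‖Mop a (Cop G (Mop c f)) + Mop b (Cop G (Mop c' f))‖ ≤ (A * M + M * C) * ‖f‖ := by
  have hM0 : 0 ≤ M := (norm_nonneg _).trans (hM 0)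
  have hA0 : 0 ≤ A := (norm_nonneg _).trans (hA 0)
  refine (norm_add_le _ _).trans ?_
  have a1 : ‖Mop a (Cop G (Mop c f))‖ ≤ A * (M * ‖f‖) := by
    refine (Mop_norm_le ha hA _).trans ?_
    gcongr
    refine (Cop_norm_le hG hM _).trans ?_
    gcongr
    exact Mop_contr hc hc1 _
  have a2 : ‖Mop b (Cop G (Mop c' f))‖ ≤ M * (C * ‖f‖) := by
    refine (Mop_contr hb hb1 _).trans ?_
    refine (Cop_norm_le hG hM _).trans ?_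
    gcongr
    exact Mop_norm_le hc' hC _
  calc _ ≤ A * (M * ‖f‖) + M * (C * ‖f‖) := add_le_add a1 a2
    _ = _ := by ring

lemma diff_expand {d : ℕ} {a b c e G x : Sp d → ℂ} (ha : Good a) (hb : Good b) (hc : Good c)
    (he : Good e) (hx : Good x) (f : HS d) :
    Mop x (Mop a (Cop G (Mop c (Mop x f)))) - Mop x (Mop b (Cop G (Mop e (Mop x f)))) =
      Mop (fun η => x η * (a η - b η)) (Cop G (Mop (fun η => c η * x η) f)) +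
      Mop (fun η => x η * b η) (Cop G (Mop (fun η => (c η - e η) * x η) f)) := by
  rw [← Mop_mul hx (ha.sub hb), ← Mop_mul hx hb, ← Mop_mul hc hx, ← Mop_mul (hc.sub he) hx,
    Mop_sub ha hb, Mop_sub hc he, map_sub (Mop x), map_sub (Cop G), map_sub (Mop b),
    map_sub (Mop x)]
  abel

lemma zone_bound {ε : ℝ} (hε : 0 ≤ ε) {G h : Sp (n + 1) → ℂ} {W : ℝ} (hr : Rep G h W) {M : ℝ}
    (hM : ∀ x, ‖G x‖ ≤ M) {Λ : ℝ} (f : HS (n + 1)) :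
    ‖Mop (chi Λ) (Nop ε G (Mop (chi Λ) f)) - Mop (chi Λ) (Nop 0 G (Mop (chi Λ) f))‖ ≤
      (2 * M * (ε * Λ ^ 2)) * ‖f‖ := by
  have hδ0 : 0 ≤ ε * Λ ^ 2 := by positivity
  have n1 : ∀ η : Sp (n + 1), ‖chi Λ η * (wt ε η - wt 0 η)‖ ≤ ε * Λ ^ 2 := by
    intro η
    rcases le_or_gt ‖η‖ Λ with hη | hη
    · rw [chi_of_le hη, one_mul]
      exact wt_diff hε hη
    · rw [chi_of_lt hη, zero_mul, norm_zero]
      exact hδ0
  have n2 : ∀ η : Sp (n + 1), ‖(wt ε (rf η) - wt 0 (rf η)) * chi Λ η‖ ≤ ε * Λ ^ 2 := by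
    intro η
    have := n1 (rf η)
    rw [chi_rf, mul_comm] at this
    exact this
  rw [Nop_apply, Nop_apply,
    diff_expand (good_wt ε) (good_wt 0) (good_wtN ε) (good_wtN 0) (good_chi Λ) f]
  have h1 := mid_bound ((good_chi (d := n + 1) Λ).mul ((good_wt ε).sub (good_wt 0)))
    ((good_chi Λ).mul (good_wt 0)) ((good_wtN ε).mul (good_chi Λ))
    (((good_wtN ε).sub (good_wtN 0)).mul (good_chi Λ)) hr.good n1 ?_ ?_ n2 hM f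
  · refine h1.trans (le_of_eq ?_)
    ring
  · intro x
    rw [norm_mul]
    exact mul_le_one₀ (norm_chi_le Λ x) (norm_nonneg _) (norm_wt_le 0 x)
  · intro x
    rw [norm_mul]
    exact mul_le_one₀ (norm_wt_le ε _) (norm_nonneg _) (norm_chi_le Λ x)

/-- The difference of the operators `N`. -/
lemma Nop_diff {ε : ℝ} (hε : 0 ≤ ε) {G h : Sp (n + 1) → ℂ} {W : ℝ} (hr : Rep G h W) {M : ℝ}
    (hM : ∀ x, ‖G x‖ ≤ M) {Λ δ : ℝ} (hΛ : 0 ≤ Λ) (h1 : 2 * W / √(1 + Λ) ≤ δ)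
    (h2 : ε * Λ ^ 2 ≤ δ) (f : HS (n + 1)) :
    ‖Nop ε G f - Nop 0 G f‖ ≤ (4 + 2 * M) * δ * ‖f‖ := by
  have hM0 : 0 ≤ M := (norm_nonneg _).trans (hM 0)
  have up : ∀ {x : ℝ} {f : HS (n + 1)}, x ≤ 2 * W / √(1 + Λ) * ‖f‖ → x ≤ δ * ‖f‖ := by
    intro x f hx
    refine hx.trans ?_
    gcongr
  have key := Abs.diff_bound (X := Mop (chi Λ)) (Q := Mop (chc Λ)) (N := Nop ε G) (N0 := Nop 0 G)
    (δ := δ) (c := 2 * M * δ) (chi_add_chc Λ) (Mop_contr (good_chi Λ) (norm_chi_le Λ))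
    (fun f => up (Nop_high hε hr hΛ f)) (fun f => up (Nop_high' hε hr hΛ f))
    (fun f => up (Nop_high le_rfl hr hΛ f)) (fun f => up (Nop_high' le_rfl hr hΛ f)) ?_ f
  · refine key.trans (le_of_eq ?_)
    ring
  · intro f
    refine (zone_bound hε hr hM f).trans ?_
    gcongr

lemma Mop_mm_comm (ε : ℝ) (z : ℂ) {a : Sp (n + 1) → ℂ} (ha : Good a) (f : HS (n + 1)) :
    Mop (mm ε z) (Mop a f) = Mop a (Mop (mm ε z) f) := Mop_comm (good_mm ε z) ha f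

lemma mm_inv {b : ℝ} (hb : 0 < b) {z : ℂ} (hz : b ≤ z.im) (hz2 : ‖z‖ ≤ 2) (ε : ℝ)
    (f : HS (n + 1)) : ‖f‖ ≤ (6 / b) * ‖Mop (mm ε z) f‖ := by
  apply Lp.norm_le_mul_norm_of_ae_le_mul
  filter_upwards [Mop_coe (good_mm ε z) f] with x hx
  rw [hx, norm_mul]
  have h1 := mm_lower hb hz hz2 ε x
  calc ‖f x‖ = (6 / b) * ((b / 6) * ‖f x‖) := by field_simp
    _ ≤ (6 / b) * (‖mm ε z x‖ * ‖f x‖) := by gcongr

lemma mm_zone {ε : ℝ} (hε : 0 ≤ ε) {z : ℂ} (hz2 : ‖z‖ ≤ 2) {Λ δ : ℝ} (h2 : ε * Λ ^ 2 ≤ δ)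
    (f : HS (n + 1)) :
    ‖Mop (mm ε z) (Mop (chi Λ) f) - Mop (mm 0 z) (Mop (chi Λ) f)‖ ≤ 4 * δ * ‖f‖ := by
  have hδ0 : 0 ≤ δ := le_trans (by positivity) h2
  rw [← Mop_sub (good_mm ε z) (good_mm 0 z), Mop_mul ((good_mm ε z).sub (good_mm 0 z)) (good_chi Λ)]
  apply Mop_norm_le (((good_mm ε z).sub (good_mm 0 z)).mul (good_chi Λ))
  intro x
  rcases le_or_gt ‖x‖ Λ with hη | hη
  · rw [chi_of_le hη, mul_one]
    refine (mm_diff hε hη).trans ?_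
    have : 2 + ‖z‖ ≤ 4 := by linarith
    gcongr
  · rw [chi_of_lt hη, mul_zero, norm_zero]
    positivity

/-- Lower bound for the reduced operator. -/
lemma Aop_lower {G h : Sp (n + 1) → ℂ} {W M : ℝ} (hr : Rep G h W) (hM : ∀ x, ‖G x‖ ≤ M)
    {z : ℂ} {b C1 : ℝ} (hb : 0 < b) (hz : b ≤ z.im) (hz2 : ‖z‖ ≤ 2) (hC1 : 0 ≤ C1)
    (hA0 : ∀ f, ‖f‖ ≤ C1 * ‖A0 G z f‖) {ε Λ δ : ℝ} {g : ℂ} (hε : 0 < ε) (hΛ : 0 ≤ Λ)
    (hΛε : Λ < 1 / ε) (h1 : 2 * W / √(1 + Λ) ≤ δ) (h2 : ε * Λ ^ 2 ≤ δ) (hg2 : ‖g‖ ≤ 2)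
    (hg1 : ‖g - 1‖ ≤ δ) (f : HS (n + 1)) :
    ‖f‖ ≤ (C1 + (1 + 2 * M * C1) * (6 / b)) * ‖Aop ε G g z f‖ +
      (4 * (1 + 2 * M * C1) * (6 / b) + C1 * (8 + (4 + 2 * M) + M)) * δ * ‖f‖ := by
  have hM0 : 0 ≤ M := (norm_nonneg _).trans (hM 0)
  have hδ0 : 0 ≤ δ := le_trans (by positivity) h2
  have up : ∀ {x : ℝ} {f : HS (n + 1)}, x ≤ 2 * W / √(1 + Λ) * ‖f‖ → x ≤ δ * ‖f‖ := by
    intro x f hx
    refine hx.trans ?_
    gcongr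
  rw [Aop_apply]
  exact Abs.lower_bound (X := Mop (chi Λ)) (Q := Mop (chc Λ)) (N := Nop ε G) (N0 := Nop 0 G)
    (R := RfL) (T := TT ε) (m := Mop (mm ε z)) (m0 := Mop (mm 0 z)) (chi_add_chc Λ)
    (Mop_contr (good_chi Λ) (norm_chi_le Λ)) (Mop_contr (good_chc Λ) (norm_chc_le Λ)) RfL_norm
    (TT_norm ε) (fun f => by
      rw [RfL_apply, RfL_apply, Rf_Mop (good_chi Λ)]
      congr 2
      funext x
      exact chi_rf Λ x) hδ0 hM0 (by positivity) hC1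
    (fun f => up (Nop_high hε.le hr hΛ f)) (fun f => up (Nop_high' hε.le hr hΛ f))
    (fun f => up (Nop_high le_rfl hr hΛ f)) (fun f => up (Nop_high' le_rfl hr hΛ f))
    (Nop_norm_le ε hr.good hM) (Nop_diff hε.le hr hM hΛ h1 h2) (chi_TT_le hε hΛε)
    (Mop_mm_comm ε z (good_chi Λ)) (Mop_mm_comm ε z (good_chc Λ)) (mm_inv hb hz hz2 ε)
    (mm_zone hε.le hz2 h2) hA0 hg2 hg1 f

/-- Upper bound for the reduced operator. -/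
lemma Aop_upper {G h : Sp (n + 1) → ℂ} {W M : ℝ} (hr : Rep G h W) (hM : ∀ x, ‖G x‖ ≤ M)
    {z : ℂ} (hz2 : ‖z‖ ≤ 2) {ε Λ δ : ℝ} {g : ℂ} (hε : 0 < ε) (hΛ : 0 ≤ Λ)
    (hΛε : Λ < 1 / ε) (h1 : 2 * W / √(1 + Λ) ≤ δ) (h2 : ε * Λ ^ 2 ≤ δ) (hg2 : ‖g‖ ≤ 2)
    (hg1 : ‖g - 1‖ ≤ δ) (f : HS (n + 1)) :
    ‖Aop ε G g z f‖ ≤ ‖A0 G z f‖ + (6 + (4 + 2 * M) + M) * δ * ‖f‖ +
      (6 + 2 * M) * ‖Mop (chc Λ) f‖ := by
  have hM0 : 0 ≤ M := (norm_nonneg _).trans (hM 0)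
  have hδ0 : 0 ≤ δ := le_trans (by positivity) h2
  have up : ∀ {x : ℝ} {f : HS (n + 1)}, x ≤ 2 * W / √(1 + Λ) * ‖f‖ → x ≤ δ * ‖f‖ := by
    intro x f hx
    refine hx.trans ?_
    gcongr
  have hmb : ∀ (ε : ℝ) (f : HS (n + 1)), ‖Mop (mm ε z) f‖ ≤ 3 * ‖f‖ := by
    intro ε f
    apply Mop_norm_le (good_mm ε z)
    intro x
    have := norm_mm_le ε z x
    linarith
  rw [Aop_apply]
  exact Abs.upper_bound (X := Mop (chi Λ)) (Q := Mop (chc Λ)) (N := Nop ε G) (N0 := Nop 0 G)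
    (R := RfL) (T := TT ε) (m := Mop (mm ε z)) (m0 := Mop (mm 0 z)) (chi_add_chc Λ) RfL_norm
    (TT_norm ε) hδ0 hM0 (fun f => up (Nop_high' hε.le hr hΛ f))
    (Nop_norm_le ε hr.good hM) (Nop_diff hε.le hr hM hΛ h1 h2) (chi_TT_le hε hΛε)
    (hmb ε) (hmb 0) (mm_zone hε.le hz2 h2) hg2 hg1 f

end MP497a12
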