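import Mathlib
import Pool.Agent.Lib.MP_497a12_mp.GEst
import Pool.Agent.Lib.MP_497a12_mp.GPersist
import Pool.Agent.Lib.MP_497a12_mp.Hilb

/-!
# Kernels of the rescaled operators
-/

open MeasureTheory Filter Topology Real
open scoped ENNReal ContDiff InnerProductSpace FourierTransform SchwartzMap

namespace MP497a12

variable {n : ℕ}

attribute [local irreducible] Mop Cop

lemma par3 {W δ Λ : ℝ} (hδ : 0 < δ) (hΛ1 : (2 * W / δ) ^ 2 ≤ Λ) : 2 * W / √(1 + Λ) ≤ δ := by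
  have hΛ0 : 0 ≤ Λ := le_trans (sq_nonneg _) hΛ1
  rw [div_le_iff₀ (by positivity)]
  have h2 : 2 * W / δ ≤ √(1 + Λ) := by
    apply Real.le_sqrt_of_sq_le
    linarith
  calc 2 * W = δ * (2 * W / δ) := by field_simp
    _ ≤ δ * √(1 + Λ) := mul_le_mul_of_nonneg_left h2 hδ.le

lemma compact_Nop {ε : ℝ} (hε : 0 ≤ ε) {G h : Sp (n + 1) → ℂ} {W : ℝ} (hr : Rep G h W)
    (hG2 : MemLp G 2) : IsCompactOperator (Nop ε G) := by
  apply compact_of_approx'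
  intro δ hδ
  have hW := hr.W_nonneg
  obtain ⟨Λ, hΛ⟩ : ∃ Λ, (2 * W / δ) ^ 2 ≤ Λ := ⟨_, le_rfl⟩
  have hΛ0 : 0 ≤ Λ := le_trans (sq_nonneg _) hΛ
  have h1 : 2 * W / √(1 + Λ) ≤ δ := par3 hδ hΛ
  refine ⟨Mop (wt ε) ∘L (Mop (chi Λ) ∘L Cop G) ∘L Mop (fun η => wt ε (rf η)), ?_, ?_⟩
  · have h2 : IsCompactOperator (Mop (chi (d := n + 1) Λ) ∘L Cop G) :=
      compact_ind_Cop hr.good hG2 Metric.isClosed_closedBall.measurableSet
        (volume_closedBall_ne_top 0 Λ)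
    exact (h2.comp_clm (Mop (fun η => wt ε (rf η)))).clm_comp (Mop (wt ε))
  · apply ContinuousLinearMap.opNorm_le_bound _ hδ.le
    intro f
    have e1 : (Nop ε G - Mop (wt ε) ∘L (Mop (chi Λ) ∘L Cop G) ∘L Mop (fun η => wt ε (rf η))) f =
        Mop (chc Λ) (Nop ε G f) := by
      have e2 : (Mop (wt ε) ∘L (Mop (chi Λ) ∘L Cop G) ∘L Mop (fun η => wt ε (rf η))) f =
          Mop (wt ε) (Mop (chi Λ) (Cop G (Mop (fun η => wt ε (rf η)) f))) := rfl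
      rw [_root_.sub_apply, e2, Mop_comm (good_wt ε) (good_chi Λ), ← Nop_apply]
      rw [sub_eq_iff_eq_add]
      exact ((add_comm _ _).trans (chi_add_chc Λ _)).symm
    rw [e1]
    refine (Nop_high hε hr hΛ0 f).trans ?_
    gcongr

lemma mm_lower' {z : ℂ} (hz : 0 < z.im) (ε : ℝ) (η : Sp (n + 1)) :
    z.im / (z.im + ‖z‖ + 1) ≤ ‖mm ε z η‖ := by
  unfold mm
  have hz0 := norm_nonneg z
  rw [norm_div, norm_base, le_div_iff₀ (by positivity), div_mul_eq_mul_div,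
    div_le_iff₀ (by positivity)]
  have h1 : z.im ≤ ‖(sy ε η : ℂ) - z‖ := by
    have h2 := Complex.abs_im_le_norm ((sy ε η : ℂ) - z)
    rw [Complex.sub_im, Complex.ofReal_im, zero_sub, abs_neg, abs_of_nonneg hz.le] at h2
    exact h2
  have h2 : |sy ε η| ≤ ‖(sy ε η : ℂ) - z‖ + ‖z‖ := by
    have h3 := norm_sub_norm_le (sy ε η : ℂ) z
    rw [Complex.norm_real, Real.norm_eq_abs] at h3
    linarith
  nlinarith [norm_nonneg ((sy ε η : ℂ) - z)]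

lemma mm_ne_zero {z : ℂ} (hz : 0 < z.im) (ε : ℝ) (η : Sp (n + 1)) : mm ε z η ≠ 0 := by
  intro h
  have h1 := mm_lower' hz ε η
  rw [h, norm_zero] at h1
  have : 0 < z.im / (z.im + ‖z‖ + 1) := by positivity
  linarith

lemma isUnit_mm {z : ℂ} (hz : 0 < z.im) (ε : ℝ) : IsUnit (Mop (mm (n := n) ε z)) := by
  apply isUnit_Mop (b := fun η => (mm ε z η)⁻¹) (good_mm ε z)
  · refine ⟨(good_mm ε z).1.inv, (z.im / (z.im + ‖z‖ + 1))⁻¹, fun η => ?_⟩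
    rw [norm_inv]
    have : 0 < z.im / (z.im + ‖z‖ + 1) := by positivity
    exact inv_anti₀ this (mm_lower' hz ε η)
  · intro η
    exact mul_inv_cancel₀ (mm_ne_zero hz ε η)

/-- Existence of kernel vectors. -/
lemma Aop_ker {ε : ℝ} (hε : 0 ≤ ε) {G h : Sp (n + 1) → ℂ} {W : ℝ} (hr : Rep G h W)
    (hG2 : MemLp G 2) {g z : ℂ} (hz : 0 < z.im) (hnu : ¬ IsUnit (Aop ε G g z)) :
    ∃ φ, φ ≠ 0 ∧ Aop ε G g z φ = 0 := by
  by_contra! hcon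
  apply hnu
  have hK : IsCompactOperator (Nop ε G ∘L (RfL + TT ε)) := (compact_Nop hε hr hG2).comp_clm _
  unfold Aop
  apply Abs.isUnit_of_injective (isUnit_mm hz ε) (Abs.isCompact_smul hK g)
  intro φ hφ
  by_contra h
  exact hcon φ h hφ

/-- The two parts of the symbol. -/
noncomputable def pp (ε : ℝ) (η : Sp (n + 1)) : ℂ := (sy ε η : ℂ) / ((|sy ε η| + 1 : ℝ) : ℂ)

/-- The two parts of the symbol. -/
noncomputable def qq (ε : ℝ) (η : Sp (n + 1)) : ℂ := 1 / ((|sy ε η| + 1 : ℝ) : ℂ)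

lemma good_qq (ε : ℝ) : Good (qq (n := n) ε) := by
  refine ⟨?_, 1, fun η => ?_⟩
  · apply Continuous.measurable
    unfold qq
    apply Continuous.div continuous_const _ (base_ne ε)
    exact Complex.continuous_ofReal.comp ((continuous_sy ε).abs.add continuous_const)
  · unfold qq
    rw [norm_div, norm_base, norm_one, div_le_one (by positivity)]
    linarith [abs_nonneg (sy ε η)]

lemma good_pp (ε : ℝ) : Good (pp (n := n) ε) := by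
  have h : pp (n := n) ε = mm ε 0 := by
    funext η
    unfold pp mm
    rw [sub_zero]
  rw [h]
  exact good_mm ε 0

lemma Mop_mm_eq (ε : ℝ) (z : ℂ) : Mop (mm (n := n) ε z) = Mop (pp ε) - z • Mop (qq ε) := by
  ext1 f
  rw [_root_.sub_apply, _root_.smul_apply, ← Mop_const_mul (good_qq ε),
    ← Mop_sub (good_pp ε) ((good_qq ε).const_mul z)]
  congr 2
  funext η
  unfold mm pp qq
  ring

lemma A0_eq (G : Sp (n + 1) → ℂ) (z : ℂ) :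
    A0 G z = Mop (pp 0) + Nop 0 G ∘L RfL - z • Mop (qq 0) := by
  unfold A0
  rw [Mop_mm_eq]
  abel

lemma differentiable_A0 (G : Sp (n + 1) → ℂ) : Differentiable ℂ (A0 G) := by
  have : A0 G = fun z => Mop (pp 0) + Nop 0 G ∘L RfL - z • Mop (qq 0) := funext (A0_eq G)
  rw [this]
  fun_prop

lemma differentiable_Aop (ε : ℝ) (G : Sp (n + 1) → ℂ) (g : ℂ) :
    Differentiable ℂ (Aop ε G g) := by
  have : Aop ε G g = fun z => Mop (pp ε) - z • Mop (qq ε) + g • (Nop ε G ∘L (RfL + TT ε)) := by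
    funext z
    unfold Aop
    rw [Mop_mm_eq]
  rw [this]
  fun_prop

/-- The effective operator is injective far from the real axis. -/
lemma A0_inj {G : Sp (n + 1) → ℂ} (hG : Good G) {M : ℝ} (hM : ∀ x, ‖G x‖ ≤ M) {z : ℂ}
    (hz : M < z.im) (φ : HS (n + 1)) (hφ : A0 G z φ = 0) : φ = 0 := by
  have h1 : ⟪φ, A0 G z φ⟫_ℂ = 0 := by rw [hφ, inner_zero_right]
  obtain ⟨a, ha⟩ : ∃ a, a = Mop (wt 0) φ := ⟨_, rfl⟩
  have h2 : ⟪φ, Nop 0 G (Rf φ)⟫_ℂ = ⟪a, Cop G (Rf a)⟫_ℂ := by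
    rw [Nop_apply, ha, Rf_Mop (good_wt 0), inner_Mop_left (good_wt 0)]
    congr 3
    funext x
    exact (conj_wt 0 x).symm
  have h3 : ‖⟪a, Cop G (Rf a)⟫_ℂ‖ ≤ M * ‖a‖ ^ 2 := by
    refine (norm_inner_le_norm _ _).trans ?_
    have h4 := Cop_norm_le hG hM (Rf a)
    rw [LinearIsometry.norm_map] at h4
    calc ‖a‖ * ‖Cop G (Rf a)‖ ≤ ‖a‖ * (M * ‖a‖) := by gcongr
      _ = M * ‖a‖ ^ 2 := by ring
  have h5 : (⟪φ, Mop (mm 0 z) φ⟫_ℂ).im = - z.im * ‖a‖ ^ 2 := by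
    rw [inner_Mop (good_mm 0 z)]
    have e1 : ∫ x, (starRingEnd ℂ) (φ x) * (mm 0 z x * φ x) =
        ∫ x, ((sy 0 x : ℂ) - z) * ((‖a x‖ ^ 2 : ℝ) : ℂ) := by
      apply integral_congr_ae
      filter_upwards [Mop_coe (good_wt 0) φ] with x hx
      rw [ha, hx, norm_mul, mul_pow]
      have e2 : ((‖wt 0 x‖ ^ 2 * ‖φ x‖ ^ 2 : ℝ) : ℂ) = (wt 0 x * wt 0 x) *
          ((starRingEnd ℂ) (φ x) * φ x) := by
        rw [Complex.ofReal_mul]
        congr 1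
        · rw [norm_wt, wt, ← Complex.ofReal_mul, pow_two]
        · rw [mul_comm, Complex.mul_conj, Complex.normSq_eq_norm_sq]
      rw [e2, wt_sq, mm]
      have := base_ne (n := n) 0 x
      field_simp
    rw [e1]
    have hint : Integrable (fun x => ((sy 0 x : ℂ) - z) * ((‖a x‖ ^ 2 : ℝ) : ℂ)) := by
      have i1 : Integrable (fun x => (starRingEnd ℂ) (φ x) * (Mop (mm 0 z) φ) x) := by
        have := (Lp.memLp φ).star.integrable_mul (Lp.memLp (Mop (mm 0 z) φ))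
        exact this
      refine i1.congr ?_
      filter_upwards [Mop_coe (good_wt 0) φ, Mop_coe (good_mm 0 z) φ] with x hx hx2
      rw [hx2, ha, hx, norm_mul, mul_pow]
      have e2 : ((‖wt 0 x‖ ^ 2 * ‖φ x‖ ^ 2 : ℝ) : ℂ) = (wt 0 x * wt 0 x) *
          ((starRingEnd ℂ) (φ x) * φ x) := by
        rw [Complex.ofReal_mul]
        congr 1
        · rw [norm_wt, wt, ← Complex.ofReal_mul, pow_two]
        · rw [mul_comm, Complex.mul_conj, Complex.normSq_eq_norm_sq]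
      rw [e2, wt_sq, mm]
      have := base_ne (n := n) 0 x
      field_simp
    have e3 : (∫ x, ((sy 0 x : ℂ) - z) * ((‖a x‖ ^ 2 : ℝ) : ℂ)).im =
        ∫ x, (((sy 0 x : ℂ) - z) * ((‖a x‖ ^ 2 : ℝ) : ℂ)).im := by
      have := integral_im (𝕜 := ℂ) hint
      exact this.symm
    rw [e3]
    have e4 : ∀ x, (((sy 0 x : ℂ) - z) * ((‖a x‖ ^ 2 : ℝ) : ℂ)).im = - z.im * ‖a x‖ ^ 2 := by
      intro x
      rw [Complex.im_mul_ofReal]
      simp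
    simp_rw [e4]
    rw [integral_const_mul, ← L2_norm_sq]
  have h6 : (⟪φ, A0 G z φ⟫_ℂ).im = - z.im * ‖a‖ ^ 2 + (⟪a, Cop G (Rf a)⟫_ℂ).im := by
    rw [A0_apply, inner_add_right, Complex.add_im, h5, h2]
  rw [h1, Complex.zero_im] at h6
  have h7 : (⟪a, Cop G (Rf a)⟫_ℂ).im ≤ M * ‖a‖ ^ 2 :=
    ((le_abs_self _).trans (Complex.abs_im_le_norm _)).trans h3
  have h8 : ‖a‖ = 0 := by
    by_contra hne
    have h9 : 0 < ‖a‖ ^ 2 := by positivity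
    have h10 := mul_pos (sub_pos.mpr hz) h9
    rw [sub_mul] at h10
    linarith
  have h9 : a = 0 := norm_eq_zero.mp h8
  apply Lp.ext
  have h10 : (a : Sp (n + 1) → ℂ) =ᵐ[volume] 0 := by
    rw [h9]
    exact Lp.coeFn_zero _ _ _
  filter_upwards [h10, Mop_coe (good_wt 0) φ, Lp.coeFn_zero ℂ 2 (volume : Measure (Sp (n + 1)))]
    with x h11 h12 h13
  rw [ha, h12, Pi.zero_apply, mul_eq_zero] at h11
  rw [h13, Pi.zero_apply]
  rcases h11 with h | h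
  · exact absurd h (wt_ne_zero 0 x)
  · exact h

/-- Uniform approximation of `G0` by good functions. -/
def Approx (G0 : Sp (n + 1) → ℂ) : Prop := ∀ δ : ℝ, 0 < δ → ∃ (G h : Sp (n + 1) → ℂ) (W : ℝ),
  Rep G h W ∧ MemLp G 2 ∧ IsTest G ∧ ∀ x, ‖G0 x - G x‖ ≤ δ

lemma Cop_sub {d : ℕ} {G G' : Sp d → ℂ} (hG : Good G) (hG' : Good G') (f : HS d) :
    Cop G f - Cop G' f = Cop (fun x => G x - G' x) f := by
  rw [Cop_apply, Cop_apply, Cop_apply, Mop_sub hG hG', map_sub Fo]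

lemma Nop_sub {G G' : Sp (n + 1) → ℂ} (hG : Good G) (hG' : Good G') (ε : ℝ) (f : HS (n + 1)) :
    Nop ε G f - Nop ε G' f = Nop ε (fun x => G x - G' x) f := by
  rw [Nop_apply, Nop_apply, Nop_apply, ← Cop_sub hG hG', map_sub (Mop (wt ε))]

lemma compact_Nop_of_approx {ε : ℝ} (hε : 0 ≤ ε) {G0 : Sp (n + 1) → ℂ} (hG0 : Good G0)
    (hap : Approx G0) : IsCompactOperator (Nop ε G0) := by
  apply compact_of_approx'
  intro δ hδ
  obtain ⟨G, h, W, hr, hG2, -, hδ'⟩ := hap δ hδ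
  refine ⟨Nop ε G, compact_Nop hε hr hG2, ?_⟩
  apply ContinuousLinearMap.opNorm_le_bound _ hδ.le
  intro f
  rw [_root_.sub_apply, Nop_sub hG0 hr.good]
  exact Nop_norm_le ε (hG0.sub hr.good) hδ' f

lemma exists_circle {G0 : Sp (n + 1) → ℂ} (hG0 : Good G0) (hap : Approx G0) :
    ∃ r : ℝ, 0 < r ∧ r < 1 ∧ ∃ C1 : ℝ, 0 < C1 ∧ ∀ z : ℂ, ‖z - Complex.I‖ = r → ∀ f,
      ‖f‖ ≤ C1 * ‖A0 G0 z f‖ := by
  obtain ⟨M, hM0, hM⟩ := hG0.bound
  have hK : IsCompactOperator (Nop 0 G0 ∘L RfL) :=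
    (compact_Nop_of_approx le_rfl hG0 hap).comp_clm _
  have hUo : IsOpen {z : ℂ | 0 < z.im} := isOpen_lt continuous_const Complex.continuous_im
  have hUc : IsPreconnected {z : ℂ | 0 < z.im} :=
    (convex_halfSpace_im_gt 0).isPreconnected
  have h1 := Abs.fredholm_discrete (P := Mop (pp (n := n) 0)) (S := Mop (qq 0)) hK hUo hUc
    (z₁ := ((M + 1 : ℝ) : ℂ) * Complex.I) (z₀ := Complex.I) ?_ ?_ ?_ ?_
  · have h2 : ∀ᶠ z in 𝓝[≠] Complex.I, IsUnit (A0 G0 z) := by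
      filter_upwards [h1] with z hz
      rw [A0_eq]
      exact hz
    rw [eventually_nhdsWithin_iff] at h2
    obtain ⟨ρ, hρ, hball⟩ := Metric.eventually_nhds_iff.mp h2
    obtain ⟨r, hr0, hr1, hr2⟩ : ∃ r : ℝ, 0 < r ∧ r ≤ ρ / 2 ∧ r ≤ 1 / 2 :=
      ⟨min (ρ / 2) (1 / 2), by positivity, min_le_left _ _, min_le_right _ _⟩
    obtain ⟨C1, hC1, hC⟩ := Abs.bounded_inverse (differentiable_A0 G0)
      (isCompact_sphere Complex.I r) (fun z hz => by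
        have hz' : ‖z - Complex.I‖ = r := by rwa [mem_sphere_iff_norm] at hz
        apply hball
        · rw [dist_eq_norm]; linarith
        · intro h
          rw [h, sub_self, norm_zero] at hz'
          linarith)
    refine ⟨r, hr0, by linarith, C1, hC1, fun z hz f => hC z ?_ f⟩
    rw [mem_sphere_iff_norm]
    exact hz
  · intro z hz
    rw [← Mop_mm_eq]
    exact isUnit_mm hz 0
  · simp only [Set.mem_ofPred_eq]
    rw [Complex.im_ofReal_mul]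
    simp
    linarith
  · intro φ hφ
    apply A0_inj hG0 hM (z := ((M + 1 : ℝ) : ℂ) * Complex.I)
    · rw [Complex.im_ofReal_mul]
      simp
    · rw [A0_eq]
      exact hφ
  · simp

lemma tendsto_chc {d : ℕ} (f : HS d) : Tendsto (fun Λ => ‖Mop (chc Λ) f‖) atTop (𝓝 0) := by
  have h1 : Tendsto (fun Λ => ‖Mop (chc Λ) f‖ ^ 2) atTop (𝓝 0) := by
    have e : ∀ Λ : ℝ, ‖Mop (chc Λ) f‖ ^ 2 = ∫ x, ‖chc Λ x * f x‖ ^ 2 := by
      intro Λ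
      rw [L2_norm_sq]
      apply integral_congr_ae
      filter_upwards [Mop_coe (good_chc Λ) f] with x hx
      rw [hx]
    simp_rw [e]
    rw [show (0 : ℝ) = ∫ x : Sp d, (0 : ℝ) by simp]
    apply tendsto_integral_filter_of_dominated_convergence (fun x => ‖f x‖ ^ 2)
    · refine Eventually.of_forall fun Λ => ?_
      exact (((good_chc Λ).1.aestronglyMeasurable.mul (Lp.aestronglyMeasurable f)).norm.pow 2)
    · refine Eventually.of_forall fun Λ => Eventually.of_forall fun x => ?_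
      rw [Real.norm_of_nonneg (by positivity), norm_mul]
      have := norm_chc_le Λ x
      have h0 := norm_nonneg (f x)
      have h1 := norm_nonneg (chc Λ x)
      gcongr
      nlinarith
    · exact (Lp.memLp f).integrable_norm_pow (by norm_num)
    · refine Eventually.of_forall fun x => ?_
      apply Tendsto.congr' _ tendsto_const_nhds
      filter_upwards [eventually_ge_atTop ‖x‖] with Λ hΛ
      rw [chc_of_le hΛ]
      simp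
  have h2 := h1.sqrt
  rw [Real.sqrt_zero] at h2
  refine h2.congr fun Λ => ?_
  rw [Real.sqrt_sq (norm_nonneg _)]

lemma near_I {r : ℝ} {z : ℂ} (hr : r < 1) (hz : ‖z - Complex.I‖ ≤ r) :
    1 - r ≤ z.im ∧ ‖z‖ ≤ 2 := by
  constructor
  · have h1 := (Complex.abs_im_le_norm (z - Complex.I)).trans hz
    rw [Complex.sub_im, Complex.I_im] at h1
    have := abs_le.mp h1
    linarith
  · calc ‖z‖ = ‖(z - Complex.I) + Complex.I‖ := by ring_nf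
      _ ≤ ‖z - Complex.I‖ + ‖Complex.I‖ := norm_add_le _ _
      _ ≤ 2 := by rw [Complex.norm_I]; linarith

/-- Choice of the constants. -/
lemma par1 {C1 b M0 : ℝ} (hC1 : 0 < C1) (hb : 0 < b) (hM0 : 0 ≤ M0) :
    ∃ M C' δ₀ K1 K2 K3 : ℝ, M = M0 + 1 ∧ 0 ≤ M ∧ 0 < C' ∧
      C' = 2 * C1 + (1 + 2 * M * (2 * C1)) * (6 / b) ∧ 0 < δ₀ ∧ δ₀ ≤ 1 ∧
      C1 * δ₀ ≤ 1 / 2 ∧ (2 * C') * δ₀ ≤ 1 / 4 ∧ 0 < K1 ∧
      K1 = 4 * (1 + 2 * M * (2 * C1)) * (6 / b) + (2 * C1) * (8 + (4 + 2 * M) + M) ∧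
      0 < K2 ∧ K2 = (2 * C') * (6 + (4 + 2 * M) + M) ∧ 0 < K3 ∧ K3 = (2 * C') * (6 + 2 * M) := by
  obtain ⟨M, hM⟩ : ∃ M, M = M0 + 1 := ⟨_, rfl⟩
  have hM' : 0 ≤ M := by rw [hM]; positivity
  obtain ⟨C', hC'⟩ : ∃ C', C' = 2 * C1 + (1 + 2 * M * (2 * C1)) * (6 / b) := ⟨_, rfl⟩
  have hC'0 : 0 < C' := by rw [hC']; positivity
  refine ⟨M, C', min 1 (min (1 / (2 * C1)) (1 / (4 * (2 * C')))), _, _, _, hM, hM', hC'0, hC',
    by positivity, min_le_left _ _, ?_, ?_, ?_, rfl, ?_, rfl, ?_, rfl⟩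
  · calc C1 * min 1 (min (1 / (2 * C1)) (1 / (4 * (2 * C')))) ≤ C1 * (1 / (2 * C1)) :=
        mul_le_mul_of_nonneg_left ((min_le_right _ _).trans (min_le_left _ _)) hC1.le
      _ = 1 / 2 := by field_simp
  · calc (2 * C') * min 1 (min (1 / (2 * C1)) (1 / (4 * (2 * C')))) ≤
        (2 * C') * (1 / (4 * (2 * C'))) :=
        mul_le_mul_of_nonneg_left ((min_le_right _ _).trans (min_le_right _ _)) (by positivity)
      _ = 1 / 4 := by field_simp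
  · positivity
  · positivity
  · positivity

/-- Choice of the small parameter. -/
lemma par2 {K1 K2 K3 P : ℝ} (h1 : 0 < K1) (h2 : 0 < K2) (h3 : 0 < K3) (hP : 0 < P) :
    ∃ δ : ℝ, 0 < δ ∧ δ ≤ 1 ∧ K1 * δ ≤ 1 / 2 ∧ K2 * δ ≤ 1 / 4 ∧ K3 * δ ≤ P / 4 := by
  refine ⟨min 1 (min (1 / (2 * K1)) (min (1 / (4 * K2)) (P / (4 * K3)))), by positivity,
    min_le_left _ _, ?_, ?_, ?_⟩
  · calc _ ≤ K1 * (1 / (2 * K1)) :=
        mul_le_mul_of_nonneg_left ((min_le_right _ _).trans (min_le_left _ _)) h1.le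
      _ = 1 / 2 := by field_simp
  · calc _ ≤ K2 * (1 / (4 * K2)) :=
        mul_le_mul_of_nonneg_left
          ((min_le_right _ _).trans ((min_le_right _ _).trans (min_le_left _ _))) h2.le
      _ = 1 / 4 := by field_simp
  · calc _ ≤ K3 * (P / (4 * K3)) :=
        mul_le_mul_of_nonneg_left
          ((min_le_right _ _).trans ((min_le_right _ _).trans (min_le_right _ _))) h3.le
      _ = P / 4 := by field_simp

lemma par4 {ε δ Λ : ℝ} (hδ : 0 < δ) (hΛ : 0 ≤ Λ) (hε0 : 0 < ε)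
    (hε1 : ε ≤ min (δ / (Λ ^ 2 + 1)) (1 / (Λ + 2))) : ε * Λ ^ 2 ≤ δ ∧ Λ < 1 / ε := by
  have h1 : ε ≤ δ / (Λ ^ 2 + 1) := hε1.trans (min_le_left _ _)
  have h2 : ε ≤ 1 / (Λ + 2) := hε1.trans (min_le_right _ _)
  rw [le_div_iff₀ (by positivity)] at h1 h2
  constructor
  · have e : ε * (Λ ^ 2 + 1) = ε * Λ ^ 2 + ε := by ring
    linarith
  · rw [lt_div_iff₀ hε0]
    have e : ε * (Λ + 2) = Λ * ε + 2 * ε := by ring
    linarith

lemma Approx_bound {G0 G : Sp (n + 1) → ℂ} {M0 δ₀ M : ℝ} (hM0 : ∀ x, ‖G0 x‖ ≤ M0)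
    (hδ' : ∀ x, ‖G0 x - G x‖ ≤ δ₀) (hδ : δ₀ ≤ 1) (hM : M = M0 + 1) (x : Sp (n + 1)) :
    ‖G x‖ ≤ M := by
  have h1 : ‖G x‖ ≤ ‖G0 x‖ + ‖G0 x - G x‖ := by
    have := norm_sub_norm_le (G x) (G0 x)
    rw [norm_sub_rev] at this
    linarith
  have := hM0 x
  have := hδ' x
  linarith

lemma A0_approx {G0 G : Sp (n + 1) → ℂ} {δ₀ : ℝ} (hG0 : Good G0) (hG : Good G)
    (hδ' : ∀ x, ‖G0 x - G x‖ ≤ δ₀) (z : ℂ) (f : HS (n + 1)) :
    ‖A0 G0 z f - A0 G z f‖ ≤ δ₀ * ‖f‖ := by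
  rw [A0_apply, A0_apply, add_sub_add_left_eq_sub, Nop_sub hG0 hG]
  have := Nop_norm_le 0 (hG0.sub hG) hδ' (Rf f)
  rwa [LinearIsometry.norm_map] at this

lemma circ_approx {G0 G : Sp (n + 1) → ℂ} {δ₀ C1 : ℝ} (hG0 : Good G0) (hG : Good G)
    (hδ' : ∀ x, ‖G0 x - G x‖ ≤ δ₀) (hC1 : 0 < C1) (hδ : C1 * δ₀ ≤ 1 / 2) {z : ℂ}
    (hz : ∀ f, ‖f‖ ≤ C1 * ‖A0 G0 z f‖) (f : HS (n + 1)) : ‖f‖ ≤ (2 * C1) * ‖A0 G z f‖ := by
  have h1 := hz f
  have h2 : ‖A0 G0 z f‖ ≤ ‖A0 G z f‖ + δ₀ * ‖f‖ := by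
    have h3 := A0_approx hG0 hG hδ' z f
    have h4 := norm_sub_norm_le (A0 G0 z f) (A0 G z f)
    linarith
  have h3 : (C1 * δ₀) * ‖f‖ ≤ 1 / 2 * ‖f‖ := mul_le_mul_of_nonneg_right hδ (norm_nonneg _)
  have h4 : C1 * ‖A0 G0 z f‖ ≤ C1 * (‖A0 G z f‖ + δ₀ * ‖f‖) :=
    mul_le_mul_of_nonneg_left h2 hC1.le
  rw [mul_add, ← mul_assoc] at h4
  rw [mul_assoc]
  linarith

lemma low_half {C' K1 δ x y : ℝ} (hx : 0 ≤ x) (h : x ≤ C' * y + K1 * δ * x)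
    (hK : K1 * δ ≤ 1 / 2) : x ≤ (2 * C') * y := by
  have h2 : K1 * δ * x ≤ 1 / 2 * x := mul_le_mul_of_nonneg_right hK hx
  rw [mul_assoc]
  linarith

lemma up_half {C K2 K3 M δ x P a0 q : ℝ} (hC : 0 < C) (hP : 0 < P) (hK3 : 0 < K3)
    (h : x ≤ a0 + (6 + (4 + 2 * M) + M) * δ * P + (6 + 2 * M) * q)
    (ha0 : C * a0 ≤ P / 4) (hK2' : K2 = C * (6 + (4 + 2 * M) + M)) (hK3' : K3 = C * (6 + 2 * M))
    (hδ2 : K2 * δ ≤ 1 / 4) (hδ3 : K3 * δ ≤ P / 4) (hq : q < δ) : C * x < P := by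
  have h2 : C * x ≤ C * a0 + K2 * δ * P + K3 * q := by
    calc _ ≤ C * (a0 + (6 + (4 + 2 * M) + M) * δ * P + (6 + 2 * M) * q) :=
          mul_le_mul_of_nonneg_left h hC.le
      _ = _ := by rw [hK2', hK3']; ring
  have h3 : K2 * δ * P ≤ 1 / 4 * P := mul_le_mul_of_nonneg_right hδ2 hP.le
  have h4 : K3 * q ≤ K3 * δ := mul_le_mul_of_nonneg_left hq.le hK3.le
  linarith

/-- **The pieces.** -/
theorem piece {G0 : Sp (n + 1) → ℂ} (hG0 : Good G0) (hap : Approx G0) {φ0 : HS (n + 1)}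
    (hφ0 : φ0 ≠ 0) (hker : A0 G0 Complex.I φ0 = 0) :
    ∃ (G h : Sp (n + 1) → ℂ) (W : ℝ), Rep G h W ∧ MemLp G 2 ∧ IsTest G ∧
      ∃ r : ℝ, 0 < r ∧ r < 1 ∧ ∃ ε₀ : ℝ, 0 < ε₀ ∧ ∃ c₀ : ℝ, 0 < c₀ ∧ c₀ ≤ 1 ∧
        ∀ ε : ℝ, 0 < ε → ε ≤ ε₀ → ∀ g : ℝ, 1 ≤ g → g ≤ 1 + c₀ →
          ∃ z : ℂ, ‖z - Complex.I‖ ≤ r ∧ ∃ φ, φ ≠ 0 ∧ Aop ε G g z φ = 0 := by
  obtain ⟨r, hr0, hr1, C1, hC1, hcirc⟩ := exists_circle hG0 hap
  obtain ⟨M0, hM00, hM0⟩ := hG0.bound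
  have hb0 : 0 < 1 - r := by linarith
  obtain ⟨M, C', δ₀, K1, K2, K3, hM, hMn, hC'0, hC', hδ00, hδ01, hδ02, hδ03, hK10, hK1, hK20, hK2,
    hK30, hK3⟩ := par1 hC1 hb0 hM00.le
  have hφn : 0 < ‖φ0‖ := norm_pos_iff.mpr hφ0
  obtain ⟨G, h, W, hrep, hG2, hGt, hδ'⟩ := hap δ₀ hδ00
  have hGM := Approx_bound hM0 hδ' hδ01 hM
  have hcirc' : ∀ z : ℂ, ‖z - Complex.I‖ = r → ∀ f, ‖f‖ ≤ (2 * C1) * ‖A0 G z f‖ :=
    fun z hz => circ_approx hG0 hrep.good hδ' hC1 hδ02 (hcirc z hz)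
  have hker' : (2 * C') * ‖A0 G Complex.I φ0‖ ≤ ‖φ0‖ / 4 := by
    have h1 := A0_approx hG0 hrep.good hδ' Complex.I φ0
    rw [hker, zero_sub, norm_neg] at h1
    calc (2 * C') * ‖A0 G Complex.I φ0‖ ≤ (2 * C') * (δ₀ * ‖φ0‖) :=
          mul_le_mul_of_nonneg_left h1 (by positivity)
      _ = ((2 * C') * δ₀) * ‖φ0‖ := by ring
      _ ≤ 1 / 4 * ‖φ0‖ := mul_le_mul_of_nonneg_right hδ03 hφn.le
      _ = ‖φ0‖ / 4 := by ring
  obtain ⟨δ, hδ0, hδ1, hδ2, hδ3, hδ4⟩ := par2 hK10 hK20 hK30 hφn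
  obtain ⟨Λ, hΛ1, hΛ2⟩ : ∃ Λ : ℝ, (2 * W / δ) ^ 2 ≤ Λ ∧ ‖Mop (chc Λ) φ0‖ < δ := by
    have h1 := (tendsto_chc φ0).eventually (gt_mem_nhds hδ0)
    obtain ⟨Λ, h2, h3⟩ := (h1.and (eventually_ge_atTop ((2 * W / δ) ^ 2))).exists
    exact ⟨Λ, h3, h2⟩
  have hΛ0 : 0 ≤ Λ := le_trans (sq_nonneg _) hΛ1
  have hΛ3 := par3 hδ0 hΛ1
  refine ⟨G, h, W, hrep, hG2, hGt, r, hr0, hr1, min (δ / (Λ ^ 2 + 1)) (1 / (Λ + 2)),
    by positivity, δ, hδ0, hδ1, ?_⟩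
  intro ε hε0 hε1 g hg1 hg2
  obtain ⟨hε2, hε3⟩ := par4 hδ0 hΛ0 hε0 hε1
  have hgn : ‖(g : ℂ)‖ ≤ 2 := by
    rw [Complex.norm_real, Real.norm_of_nonneg (by linarith)]
    linarith
  have hgn1 : ‖(g : ℂ) - 1‖ ≤ δ := by
    rw [← Complex.ofReal_one, ← Complex.ofReal_sub, Complex.norm_real,
      Real.norm_of_nonneg (by linarith)]
    linarith
  have hst := Abs.stab (A := Aop ε G g) (differentiable_Aop ε G g) (z₀ := Complex.I)
    (C := 2 * C') hr0 (φ := φ0) ?_ ?_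
  · obtain ⟨z, hz, hnu⟩ := hst
    have hz' := near_I hr1 hz
    exact ⟨z, hz, Aop_ker hε0.le hrep hG2 (by linarith) hnu⟩
  · intro z hz f
    have hz' := near_I hr1 hz.le
    have h1 : ‖f‖ ≤ C' * ‖Aop ε G g z f‖ + K1 * δ * ‖f‖ := by
      rw [hC', hK1]
      exact Aop_lower hrep hGM hb0 hz'.1 hz'.2 (by positivity : 0 ≤ 2 * C1) (hcirc' z hz) hε0
        hΛ0 hε3 hΛ3 hε2 hgn hgn1 f
    exact low_half (norm_nonneg _) h1 hδ2
  · have h1 := Aop_upper hrep hGM (z := Complex.I) (by rw [Complex.norm_I]; norm_num) hε0 hΛ0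
      hε3 hΛ3 hε2 hgn hgn1 φ0
    exact up_half (by positivity) hφn hK30 h1 hker' hK2 hK3 hδ3 hδ4 hΛ2

end MP497a12
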