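import Mathlib
import Pool.Agent.Lib.MP_497a12_mp.GPiece

/-!
# Splitting off the coordinate `0`
-/

open MeasureTheory Filter Topology Real
open scoped ENNReal ContDiff InnerProductSpace FourierTransform SchwartzMap

namespace MP497a12

variable {n : ℕ}

/-- The splitting of the coordinate `0`. -/
noncomputable def spl (n : ℕ) : Sp (n + 1) ≃ᵐ ℝ × Sp n :=
  ((MeasurableEquiv.toLp 2 (Fin (n + 1) → ℝ)).symm.trans
    (MeasurableEquiv.piFinSuccAbove (fun _ : Fin (n + 1) => ℝ) 0)).trans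
    (MeasurableEquiv.prodCongr (MeasurableEquiv.refl ℝ) (MeasurableEquiv.toLp 2 (Fin n → ℝ)))

/-- The remaining coordinates. -/
noncomputable def tl (η : Sp (n + 1)) : Sp n := WithLp.toLp 2 (fun i : Fin n => η i.succ)

lemma spl_apply (η : Sp (n + 1)) : spl n η = (η 0, tl η) := rfl

lemma spl_mp : MeasurePreserving (spl n) := by
  have h1 := PiLp.volume_preserving_ofLp (Fin (n + 1))
  have h2 := volume_preserving_piFinSuccAbove (fun _ : Fin (n + 1) => ℝ) 0
  have h3 := (MeasurePreserving.id (volume : Measure ℝ)).prod (PiLp.volume_preserving_toLp (Fin n))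
  exact (h3.comp h2).comp h1

lemma integral_spl (f : ℝ × Sp n → ℂ) : ∫ η : Sp (n + 1), f (η 0, tl η) = ∫ p, f p :=
  spl_mp.integral_comp' (g := f)

lemma integrable_spl {E : Type*} [NormedAddCommGroup E] {f : ℝ × Sp n → E} :
    Integrable (fun η : Sp (n + 1) => f (η 0, tl η)) ↔ Integrable f (volume.prod volume) :=
  spl_mp.integrable_comp_emb (g := f) (spl n).measurableEmbedding

lemma tl_apply (η : Sp (n + 1)) (i : Fin n) : tl η i = η i.succ := rfl

lemma norm_sq_split (η : Sp (n + 1)) : ‖η‖ ^ 2 = (η 0) ^ 2 + ‖tl η‖ ^ 2 := by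
  rw [EuclideanSpace.norm_sq_eq, EuclideanSpace.norm_sq_eq, Fin.sum_univ_succ]
  simp [tl_apply]

lemma inner_split (η x : Sp (n + 1)) : ⟪η, x⟫_ℝ = η 0 * x 0 + ⟪tl η, tl x⟫_ℝ := by
  rw [PiLp.inner_apply, PiLp.inner_apply, Fin.sum_univ_succ]
  simp [tl_apply]
  ring

lemma sy_eq (ε : ℝ) (η : Sp (n + 1)) : sy ε η = 2 * η 0 + ε * (η 0) ^ 2 + ‖tl η‖ ^ 2 := by
  unfold sy
  rw [norm_sq_split]; ring

lemma tl_rf (η : Sp (n + 1)) : tl (rf η) = tl η := by
  ext i
  rw [tl_apply, tl_apply, rf_succ]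

/-- The linear map `tl`. -/
noncomputable def tlL (n : ℕ) : Sp (n + 1) →ₗ[ℝ] Sp n where
  toFun := tl
  map_add' x y := by ext i; rfl
  map_smul' c x := by ext i; rfl

lemma contDiff_tl {m : ℕ∞ω} : ContDiff ℝ m (tl (n := n)) :=
  (LinearMap.toContinuousLinearMap (tlL n)).contDiff

lemma continuous_tl : Continuous (tl (n := n)) :=
  (LinearMap.toContinuousLinearMap (tlL n)).continuous

lemma contDiff_zero {m : ℕ∞ω} : ContDiff ℝ m (fun η : Sp (n + 1) => η 0) :=
  (EuclideanSpace.proj (0 : Fin (n + 1)) : Sp (n + 1) →L[ℝ] ℝ).contDiff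

lemma continuous_zero : Continuous (fun η : Sp (n + 1) => η 0) :=
  (EuclideanSpace.proj (0 : Fin (n + 1)) : Sp (n + 1) →L[ℝ] ℝ).continuous

end MP497a12
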