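import Mathlib
import Pool.Agent.Lib.MP_497a12_mp.GCoord

/-!
# Gaussians that solve the effective equation
-/

open MeasureTheory Filter Topology Real
open scoped ENNReal ContDiff InnerProductSpace FourierTransform SchwartzMap

namespace MP497a12

variable {n : ℕ}

/-- The complex width `1 + i (t + 1)`. -/
noncomputable def sw (t : ℝ) : ℂ := 1 + (t + 1 : ℝ) * Complex.I

lemma sw_re (t : ℝ) : (sw t).re = 1 := by simp [sw]

lemma sw_im (t : ℝ) : (sw t).im = t + 1 := by simp [sw]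

lemma sw_ne (t : ℝ) : sw t ≠ 0 := by
  intro h
  have := sw_re t
  rw [h] at this
  simp at this

lemma sw_slit (t : ℝ) : sw t ∈ Complex.slitPlane := by
  left
  rw [sw_re]; exact one_pos

lemma contDiff_sw {m : ℕ∞ω} : ContDiff ℝ m sw := by
  unfold sw
  apply ContDiff.add contDiff_const
  apply ContDiff.mul _ contDiff_const
  exact Complex.ofRealCLM.contDiff.comp (contDiff_id.add contDiff_const)

lemma continuous_sw : Continuous sw := (contDiff_sw (m := 0)).continuous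

lemma hasDerivAt_sw (t : ℝ) : HasDerivAt sw Complex.I t := by
  have h1 : HasDerivAt (fun t : ℝ => ((t + 1 : ℝ) : ℂ)) 1 t := by
    have := ((hasDerivAt_id t).add_const 1).ofReal_comp
    simpa using this
  have h2 := (h1.mul_const Complex.I).const_add 1
  rw [one_mul] at h2
  exact h2

lemma normSq_sw (t : ℝ) : ‖sw t‖ ^ 2 = 1 + (t + 1) ^ 2 := by
  rw [← Complex.normSq_eq_norm_sq, Complex.normSq_apply, sw_re, sw_im]
  ring

lemma one_le_norm_sw (t : ℝ) : 1 ≤ ‖sw t‖ := by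
  have h := Complex.abs_re_le_norm (sw t)
  rw [sw_re, abs_one] at h
  exact h

lemma norm_sw_le (t : ℝ) : ‖sw t‖ ≤ 1 + |t + 1| := by
  unfold sw
  refine (norm_add_le _ _).trans ?_
  rw [norm_one, norm_mul, Complex.norm_I, mul_one, Complex.norm_real, Real.norm_eq_abs]

lemma re_inv_sw (t : ℝ) : ((sw t)⁻¹).re = 1 / ‖sw t‖ ^ 2 := by
  rw [Complex.inv_re, sw_re, Complex.normSq_eq_norm_sq]

/-- The Gaussian of complex width. -/
noncomputable def gg (s : ℂ) (x : Sp n) : ℂ :=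
  Complex.exp (-((n : ℂ) / 2) * Complex.log s) * Complex.exp (-(π / s) * ‖x‖ ^ 2)

lemma gg_ne (s : ℂ) (x : Sp n) : gg s x ≠ 0 :=
  mul_ne_zero (Complex.exp_ne_zero _) (Complex.exp_ne_zero _)

lemma norm_gauss (t c : ℝ) : ‖Complex.exp (-(π / sw t) * (c : ℂ))‖ =
    Real.exp (-(π / ‖sw t‖ ^ 2) * c) := by
  rw [Complex.norm_exp]
  congr 1
  have h : (-((π : ℂ) / sw t) * (c : ℂ)) = ((-(π * c) : ℝ) : ℂ) * (sw t)⁻¹ := by
    push_cast
    rw [div_eq_mul_inv]; ring
  rw [h, Complex.re_ofReal_mul, re_inv_sw]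
  ring

lemma norm_prefactor_le (t : ℝ) :
    ‖Complex.exp (-((n : ℂ) / 2) * Complex.log (sw t))‖ ≤ 1 := by
  rw [Complex.norm_exp]
  have h : (-((n : ℂ) / 2) * Complex.log (sw t)).re = -(n / 2) * Real.log ‖sw t‖ := by
    have h1 : (-((n : ℂ) / 2)) = ((-(n / 2) : ℝ) : ℂ) := by push_cast; ring
    rw [h1, Complex.re_ofReal_mul, Complex.log_re]
  rw [h]
  apply Real.exp_le_one_iff.mpr
  have := Real.log_nonneg (one_le_norm_sw t)
  have h2 : (0 : ℝ) ≤ n := Nat.cast_nonneg n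
  nlinarith [mul_nonneg h2 this]

lemma norm_gg_le (t : ℝ) (x : Sp n) :
    ‖gg (sw t) x‖ ≤ Real.exp (-(π / ‖sw t‖ ^ 2) * ‖x‖ ^ 2) := by
  unfold gg
  rw [norm_mul]
  have h := norm_gauss t (‖x‖ ^ 2)
  push_cast at h
  rw [h]
  have := norm_prefactor_le (n := n) t
  have h0 := Real.exp_pos (-(π / ‖sw t‖ ^ 2) * ‖x‖ ^ 2)
  nlinarith

lemma contDiff_gg {m : ℕ∞ω} : ContDiff ℝ m (fun p : ℝ × Sp n => gg (sw p.1) p.2) := by
  unfold gg
  have h1 : ContDiff ℝ m (fun p : ℝ × Sp n => sw p.1) := contDiff_sw.comp contDiff_fst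
  apply ContDiff.mul
  · apply ContDiff.cexp
    apply ContDiff.mul contDiff_const
    rw [contDiff_iff_contDiffAt]
    intro p
    have h2 : ContDiffAt ℝ m Complex.log (sw p.1) :=
      (Complex.contDiffAt_log (sw_slit p.1)).restrict_scalars ℝ
    exact h2.comp p h1.contDiffAt
  · apply ContDiff.cexp
    apply ContDiff.mul
    · apply ContDiff.neg
      simp_rw [div_eq_mul_inv]
      exact contDiff_const.mul (h1.inv (fun p : ℝ × Sp n => sw_ne p.1))
    · have h3 : ContDiff ℝ m (fun p : ℝ × Sp n => ‖p.2‖ ^ 2) :=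
        contDiff_snd.norm_sq ℝ
      have h4 : ContDiff ℝ m (fun p : ℝ × Sp n => ((‖p.2‖ ^ 2 : ℝ) : ℂ)) :=
        Complex.ofRealCLM.contDiff.comp h3
      have h5 : (fun p : ℝ × Sp n => ((‖p.2‖ : ℂ)) ^ 2) =
          fun p : ℝ × Sp n => ((‖p.2‖ ^ 2 : ℝ) : ℂ) := by
        funext p; push_cast; rfl
      rw [h5]
      exact h4

/-- The Fourier transform of the Gaussian. -/
lemma fourier_gg (t : ℝ) (w : Sp n) : 𝓕 (gg (sw t) : Sp n → ℂ) w =
    Complex.exp (-π * sw t * ‖w‖ ^ 2) := by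
  have hs := sw_ne t
  have hπ : (π : ℂ) ≠ 0 := by exact_mod_cast Real.pi_ne_zero
  have hb : 0 < ((π : ℂ) / sw t).re := by
    rw [div_eq_mul_inv, Complex.re_ofReal_mul, re_inv_sw]
    have := one_le_norm_sw t
    have := Real.pi_pos
    positivity
  have h1 := fourier_gaussian_innerProductSpace hb w
  rw [finrank_euclideanSpace, Fintype.card_fin] at h1
  have h2 : 𝓕 (gg (sw t) : Sp n → ℂ) w =
      Complex.exp (-((n : ℂ) / 2) * Complex.log (sw t)) *
        𝓕 (fun v : Sp n => Complex.exp (-(π / sw t) * ‖v‖ ^ 2)) w := by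
    rw [fourier_eq_ch, fourier_eq_ch, ← integral_const_mul]
    apply integral_congr_ae
    refine Eventually.of_forall fun v => ?_
    simp only [gg]
    ring
  rw [h2, h1]
  have h3 : (π : ℂ) / (π / sw t) = sw t := by field_simp
  rw [h3, Complex.cpow_def_of_ne_zero hs, ← mul_assoc, ← Complex.exp_add]
  have h4 : -((n : ℂ) / 2) * Complex.log (sw t) + Complex.log (sw t) * ((n : ℂ) / 2) = 0 := by ring
  rw [h4, Complex.exp_zero, one_mul]
  congr 1
  field_simp

/-- The functions `q(t) exp(-π t) g`. -/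
noncomputable def fq (q : ℝ → ℝ) (p : ℝ × Sp n) : ℂ :=
  (q p.1 : ℂ) * Complex.exp (-π * p.1) * gg (sw p.1) p.2

/-- Admissible profiles. -/
structure Prof (q : ℝ → ℝ) (C : ℝ) : Prop where
  cont : Continuous q
  bd : ∀ t, |q t| ≤ C
  supp : ∀ t, t < -3 / 2 → q t = 0

lemma Prof.nonneg {q : ℝ → ℝ} {C : ℝ} (h : Prof q C) : 0 ≤ C := (abs_nonneg _).trans (h.bd 0)

lemma continuous_fq {q : ℝ → ℝ} (hq : Continuous q) : Continuous (fq (n := n) q) := by
  unfold fq
  apply Continuous.mul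
  · apply Continuous.mul
    · exact Complex.continuous_ofReal.comp (hq.comp continuous_fst)
    · apply Continuous.cexp
      exact continuous_const.mul (Complex.continuous_ofReal.comp continuous_fst)
  · exact (contDiff_gg (m := 0)).continuous

lemma norm_fq_le (q : ℝ → ℝ) (t : ℝ) (x : Sp n) : ‖fq q (t, x)‖ ≤
    |q t| * Real.exp (-π * t) * Real.exp (-(π / ‖sw t‖ ^ 2) * ‖x‖ ^ 2) := by
  unfold fq
  simp only
  rw [norm_mul, norm_mul, Complex.norm_real, Real.norm_eq_abs, Complex.norm_exp]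
  have h : (-(π : ℂ) * (t : ℂ)).re = -π * t := by
    rw [← Complex.ofReal_neg, ← Complex.ofReal_mul, Complex.ofReal_re]
  rw [h]
  gcongr
  exact norm_gg_le t x

lemma pow_le_exp (v : ℝ) (hv : 0 ≤ v) :
    (1 + v) ^ n ≤ ((n : ℝ) + 1) ^ (n + 1) * Real.exp v := by
  have hN : (0 : ℝ) < (n : ℝ) + 1 := by positivity
  have h1 : 1 + v ≤ ((n : ℝ) + 1) * Real.exp (v / ((n : ℝ) + 1)) := by
    have h2 := Real.add_one_le_exp (v / ((n : ℝ) + 1))
    have h3 : ((n : ℝ) + 1) * (v / ((n : ℝ) + 1) + 1) ≤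
        ((n : ℝ) + 1) * Real.exp (v / ((n : ℝ) + 1)) := by gcongr
    have h4 : ((n : ℝ) + 1) * (v / ((n : ℝ) + 1) + 1) = v + (n + 1) := by field_simp
    have h5 : (0 : ℝ) ≤ n := Nat.cast_nonneg n
    linarith
  calc (1 + v) ^ n ≤ (1 + v) ^ (n + 1) := pow_le_pow_right₀ (by linarith) (Nat.le_succ n)
    _ ≤ (((n : ℝ) + 1) * Real.exp (v / ((n : ℝ) + 1))) ^ (n + 1) := by gcongr
    _ = ((n : ℝ) + 1) ^ (n + 1) * Real.exp v := by
        rw [mul_pow, ← Real.exp_nat_mul]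
        congr 2
        push_cast
        field_simp

lemma integral_gauss_le {k : ℝ} (hk : 1 ≤ k) (t : ℝ) :
    ∫ x : Sp n, Real.exp (-(k * (π / ‖sw t‖ ^ 2)) * ‖x‖ ^ 2) ≤ ‖sw t‖ ^ n := by
  have hs := one_le_norm_sw t
  have hπ := Real.pi_pos
  rw [GaussianFourier.integral_rexp_neg_mul_sq_norm (by positivity), finrank_euclideanSpace,
    Fintype.card_fin]
  have h1 : π / (k * (π / ‖sw t‖ ^ 2)) = ‖sw t‖ ^ 2 / k := by field_simp
  rw [h1]
  calc (‖sw t‖ ^ 2 / k) ^ ((n : ℝ) / 2) ≤ (‖sw t‖ ^ 2) ^ ((n : ℝ) / 2) := by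
        gcongr
        exact div_le_self (by positivity) hk
    _ = ‖sw t‖ ^ n := by
        rw [← Real.rpow_natCast ‖sw t‖ 2, ← Real.rpow_mul (by positivity)]
        rw [show ((2 : ℕ) : ℝ) * ((n : ℝ) / 2) = (n : ℝ) by push_cast; ring, Real.rpow_natCast]

lemma integrable_gauss {k : ℝ} (hk : 1 ≤ k) (t : ℝ) :
    Integrable (fun x : Sp n => Real.exp (-(k * (π / ‖sw t‖ ^ 2)) * ‖x‖ ^ 2)) := by
  have hs := one_le_norm_sw t
  have hπ := Real.pi_pos
  have h := GaussianFourier.integrable_cexp_neg_mul_sq_norm_add (V := Sp n)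
    (b := ((k * (π / ‖sw t‖ ^ 2) : ℝ) : ℂ)) (by rw [Complex.ofReal_re]; positivity) 0 0
  have h2 := h.norm
  refine h2.congr (Eventually.of_forall fun x => ?_)
  simp only [zero_mul, add_zero]
  rw [Complex.norm_exp]
  congr 1
  rw [show (-((k * (π / ‖sw t‖ ^ 2) : ℝ) : ℂ) * (‖x‖ : ℂ) ^ 2) =
    ((-(k * (π / ‖sw t‖ ^ 2)) * ‖x‖ ^ 2 : ℝ) : ℂ) by push_cast; ring, Complex.ofReal_re]

/-- The dominating function in the variable `t`. -/
noncomputable def dom (K : ℝ) : ℝ → ℝ := (Set.Ici (-3 / 2 : ℝ)).indicator fun t =>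
  K * Real.exp (-2 * t)

lemma integrable_dom (K : ℝ) : Integrable (dom K) := by
  unfold dom
  rw [integrable_indicator_iff measurableSet_Ici, integrableOn_Ici_iff_integrableOn_Ioi]
  exact (exp_neg_integrableOn_Ioi _ (by norm_num : (0 : ℝ) < 2)).const_mul K

lemma dom_bound {q : ℝ → ℝ} {C : ℝ} (hq : Prof q C) {k : ℕ} (hk : 1 ≤ k) (t : ℝ) :
    |q t| ^ k * Real.exp (-(k * (π * t))) * ‖sw t‖ ^ n ≤
      dom (C ^ k * (((n : ℝ) + 1) ^ (n + 1) * Real.exp (2 * k * π + 2))) t := by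
  rcases lt_or_ge t (-3 / 2) with ht | ht
  · rw [hq.supp t ht]
    unfold dom
    rw [Set.indicator_of_notMem (by simpa using ht)]
    simp [show k ≠ 0 by omega]
  · unfold dom
    rw [Set.indicator_of_mem (by simpa using ht)]
    have hπ := Real.pi_gt_three
    have hk' : (1 : ℝ) ≤ k := by exact_mod_cast hk
    have hC := hq.nonneg
    have h1 : ‖sw t‖ ^ n ≤ ((n : ℝ) + 1) ^ (n + 1) * Real.exp (|t + 1|) :=
      (pow_le_pow_left₀ (norm_nonneg _) (norm_sw_le t) n).trans (pow_le_exp _ (abs_nonneg _))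
    have h2 : |t + 1| ≤ t + 2 := by
      rw [abs_le]; constructor <;> linarith
    have h3 : Real.exp (-(k * (π * t))) * Real.exp (|t + 1|) ≤
        Real.exp (2 * k * π + 2) * Real.exp (-2 * t) := by
      rw [← Real.exp_add, ← Real.exp_add]
      apply Real.exp_le_exp.mpr
      have h4 : 0 ≤ (k * π - 3) * (t + 3 / 2) := by
        apply mul_nonneg
        · nlinarith
        · linarith
      nlinarith
    calc |q t| ^ k * Real.exp (-(k * (π * t))) * ‖sw t‖ ^ n
        ≤ C ^ k * Real.exp (-(k * (π * t))) * (((n : ℝ) + 1) ^ (n + 1) * Real.exp (|t + 1|)) := by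
          gcongr
          exact hq.bd t
      _ = C ^ k * ((n : ℝ) + 1) ^ (n + 1) * (Real.exp (-(k * (π * t))) * Real.exp (|t + 1|)) := by
          ring
      _ ≤ C ^ k * ((n : ℝ) + 1) ^ (n + 1) * (Real.exp (2 * k * π + 2) * Real.exp (-2 * t)) := by
          gcongr
      _ = _ := by ring

lemma norm_fq_pow_le (q : ℝ → ℝ) (k : ℕ) (t : ℝ) (x : Sp n) : ‖fq q (t, x)‖ ^ k ≤
    |q t| ^ k * Real.exp (-(k * (π * t))) *
      Real.exp (-(k * (π / ‖sw t‖ ^ 2)) * ‖x‖ ^ 2) := by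
  have h := pow_le_pow_left₀ (norm_nonneg _) (norm_fq_le q t x) k
  refine h.trans (le_of_eq ?_)
  rw [mul_pow, mul_pow, ← Real.exp_nat_mul, ← Real.exp_nat_mul]
  congr 2
  · congr 1; ring_nf
  · ring_nf

lemma integrable_fq_pow {q : ℝ → ℝ} {C : ℝ} (hq : Prof q C) {k : ℕ} (hk : 1 ≤ k) :
    Integrable (fun p : ℝ × Sp n => ‖fq q p‖ ^ k) (volume.prod volume) := by
  have hk' : (1 : ℝ) ≤ k := by exact_mod_cast hk
  have hc : Continuous (fun p : ℝ × Sp n => ‖fq q p‖ ^ k) := (continuous_fq hq.cont).norm.pow k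
  have hin : ∀ t : ℝ, Integrable (fun x : Sp n => ‖fq q (t, x)‖ ^ k) := by
    intro t
    refine Integrable.mono' ((integrable_gauss (n := n) hk' t).const_mul
      (|q t| ^ k * Real.exp (-(k * (π * t))))) ?_ ?_
    · exact (hc.comp (by fun_prop : Continuous fun x : Sp n => (t, x))).aestronglyMeasurable
    · refine Eventually.of_forall fun x => ?_
      rw [Real.norm_of_nonneg (by positivity)]
      exact norm_fq_pow_le q k t x
  rw [integrable_prod_iff hc.aestronglyMeasurable]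
  refine ⟨Eventually.of_forall hin, ?_⟩
  refine Integrable.mono' (integrable_dom
    (C ^ k * (((n : ℝ) + 1) ^ (n + 1) * Real.exp (2 * k * π + 2)))) ?_ ?_
  · exact hc.aestronglyMeasurable.norm.integral_prod_right'
  · refine Eventually.of_forall fun t => ?_
    rw [Real.norm_of_nonneg (integral_nonneg fun x => norm_nonneg _)]
    simp only [norm_pow, norm_norm]
    calc ∫ x : Sp n, ‖fq q (t, x)‖ ^ k ≤ ∫ x : Sp n, |q t| ^ k * Real.exp (-(k * (π * t))) *
          Real.exp (-(k * (π / ‖sw t‖ ^ 2)) * ‖x‖ ^ 2) := by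
          apply integral_mono (hin t) ((integrable_gauss (n := n) hk' t).const_mul _)
          intro x
          exact norm_fq_pow_le q k t x
      _ = |q t| ^ k * Real.exp (-(k * (π * t))) *
          ∫ x : Sp n, Real.exp (-(k * (π / ‖sw t‖ ^ 2)) * ‖x‖ ^ 2) := integral_const_mul _ _
      _ ≤ |q t| ^ k * Real.exp (-(k * (π * t))) * ‖sw t‖ ^ n := by
          gcongr
          exact integral_gauss_le hk' t
      _ ≤ _ := dom_bound hq hk t

/-- The function `fq` on `R^(n+1)`. -/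
noncomputable def FQ (q : ℝ → ℝ) (η : Sp (n + 1)) : ℂ := fq q (η 0, tl η)

lemma continuous_FQ {q : ℝ → ℝ} (hq : Continuous q) : Continuous (FQ (n := n) q) :=
  (continuous_fq hq).comp (continuous_zero.prodMk continuous_tl)

lemma integrable_FQ {q : ℝ → ℝ} {C : ℝ} (hq : Prof q C) : Integrable (FQ (n := n) q) := by
  have h1 := integrable_fq_pow (n := n) hq le_rfl
  simp only [pow_one] at h1
  have h2 : Integrable (fq (n := n) q) (volume.prod volume) :=
    (integrable_norm_iff (continuous_fq hq.cont).aestronglyMeasurable).mp h1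
  exact integrable_spl.mpr h2

lemma memLp_FQ {q : ℝ → ℝ} {C : ℝ} (hq : Prof q C) : MemLp (FQ (n := n) q) 2 := by
  rw [memLp_two_iff_integrable_sq_norm (continuous_FQ hq.cont).aestronglyMeasurable]
  have h1 := integrable_fq_pow (n := n) hq (k := 2) (by norm_num)
  exact integrable_spl.mpr h1

/-- The exponential of the Fourier integral. -/
noncomputable def ee' (ξ : Sp (n + 1)) (t : ℝ) : ℂ :=
  Complex.exp (-π * t - 2 * π * Complex.I * ξ 0 * t - π * sw t * ‖tl ξ‖ ^ 2)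

/-- The Fourier transform of `FQ q`. -/
lemma fourier_FQ {q : ℝ → ℝ} {C : ℝ} (hq : Prof q C) (ξ : Sp (n + 1)) :
    𝓕 (FQ (n := n) q) ξ = ∫ t : ℝ, (q t : ℂ) * ee' ξ t := by
  rw [fourier_eq_ch]
  set f : ℝ × Sp n → ℂ := fun p =>
    Complex.exp (-(2 * π * Complex.I * ξ 0 * p.1)) * ch (-(tl ξ)) p.2 * fq q p with hf
  have e1 : ∀ η : Sp (n + 1), ch (-ξ) η * FQ q η = f (η 0, tl η) := by
    intro η
    rw [hf]
    simp only [FQ]
    congr 1
    unfold ch
    rw [← Complex.exp_add]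
    congr 1
    rw [inner_neg_left, inner_neg_left, inner_split]
    push_cast
    ring
  simp_rw [e1]
  rw [integral_spl]
  have hfi : Integrable f (volume.prod volume) := by
    have h1 : Integrable (fun η : Sp (n + 1) => f (η 0, tl η)) := by
      simp_rw [← e1]
      exact integrable_ch_mul (integrable_FQ hq) _
    exact integrable_spl.mp h1
  rw [show (∫ p, f p) = ∫ p, f p ∂(volume.prod volume) from rfl, integral_prod f hfi]
  apply integral_congr_ae
  refine Eventually.of_forall fun t => ?_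
  simp only [hf, fq]
  have e2 : ∀ x : Sp n, Complex.exp (-(2 * π * Complex.I * ξ 0 * t)) * ch (-(tl ξ)) x *
      ((q t : ℂ) * Complex.exp (-π * t) * gg (sw t) x) =
      ((q t : ℂ) * Complex.exp (-π * t) * Complex.exp (-(2 * π * Complex.I * ξ 0 * t))) *
        (ch (-(tl ξ)) x * gg (sw t) x) := by
    intro x; ring
  simp_rw [e2]
  rw [integral_const_mul, ← fourier_eq_ch, fourier_gg]
  unfold ee'
  rw [mul_assoc, mul_assoc, ← Complex.exp_add, ← Complex.exp_add]
  congr 2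
  ring

lemma norm_ee' (ξ : Sp (n + 1)) (t : ℝ) : ‖ee' ξ t‖ ≤ Real.exp (-(π * t)) := by
  unfold ee'
  rw [Complex.norm_exp]
  apply Real.exp_le_exp.mpr
  have e : (-(π : ℂ) * t - 2 * π * Complex.I * ξ 0 * t - π * sw t * ‖tl ξ‖ ^ 2) =
      ((-(π * t) - π * ‖tl ξ‖ ^ 2 : ℝ) : ℂ) +
        ((-(2 * π * ξ 0 * t) - π * (t + 1) * ‖tl ξ‖ ^ 2 : ℝ) : ℂ) * Complex.I := by
    unfold sw
    push_cast
    ring
  rw [e, Complex.add_re, Complex.ofReal_re, Complex.re_ofReal_mul, Complex.I_re, mul_zero,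
    add_zero]
  have := Real.pi_pos
  nlinarith [sq_nonneg ‖tl ξ‖, mul_nonneg this.le (sq_nonneg ‖tl ξ‖)]

lemma hasDerivAt_ee' (ξ : Sp (n + 1)) (t : ℝ) :
    HasDerivAt (ee' ξ) (-(π * Complex.I) * ((sy 0 ξ : ℂ) - Complex.I) * ee' ξ t) t := by
  have h1 : HasDerivAt (fun t : ℝ => (t : ℂ)) 1 t := by
    have := (hasDerivAt_id t).ofReal_comp
    simpa using this
  have h2 : HasDerivAt (fun t : ℝ => -(π : ℂ) * t - 2 * π * Complex.I * ξ 0 * t -
      π * sw t * ‖tl ξ‖ ^ 2)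
      (-(π : ℂ) * 1 - 2 * π * Complex.I * ξ 0 * 1 - π * Complex.I * ‖tl ξ‖ ^ 2) t := by
    apply HasDerivAt.sub
    · exact (h1.const_mul _).sub (h1.const_mul _)
    · exact ((hasDerivAt_sw t).const_mul _).mul_const _
  have h3 := h2.cexp
  refine h3.congr_deriv ?_
  rw [mul_comm]
  congr 1
  rw [sy_eq]
  push_cast
  ring_nf
  rw [Complex.I_sq]
  ring

lemma continuous_ee' (ξ : Sp (n + 1)) : Continuous (ee' ξ) :=
  continuous_iff_continuousAt.mpr fun t => (hasDerivAt_ee' ξ t).continuousAt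

lemma integrable_q_ee' {q : ℝ → ℝ} {C : ℝ} (hq : Prof q C) (ξ : Sp (n + 1)) :
    Integrable (fun t : ℝ => (q t : ℂ) * ee' ξ t) := by
  refine Integrable.mono' (integrable_dom
    (C ^ 1 * (((n : ℝ) + 1) ^ (n + 1) * Real.exp (2 * (1 : ℕ) * π + 2)))) ?_ ?_
  · exact ((Complex.continuous_ofReal.comp hq.cont).mul (continuous_ee' ξ)).aestronglyMeasurable
  · refine Eventually.of_forall fun t => ?_
    refine le_trans ?_ (dom_bound (n := n) hq le_rfl t)
    rw [norm_mul, Complex.norm_real, Real.norm_eq_abs, pow_one, Nat.cast_one, one_mul]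
    have h1 := norm_ee' ξ t
    have h2 : (1 : ℝ) ≤ ‖sw t‖ ^ n := one_le_pow₀ (one_le_norm_sw t)
    have h3 : 0 ≤ |q t| * Real.exp (-(π * t)) := by positivity
    calc |q t| * ‖ee' ξ t‖ ≤ |q t| * Real.exp (-(π * t)) := by gcongr
      _ ≤ |q t| * Real.exp (-(π * t)) * ‖sw t‖ ^ n := by nlinarith

/-- The cutoff function. -/
noncomputable def pt (t : ℝ) : ℝ := Real.smoothTransition (t + 3 / 2)

lemma contDiff_pt {m : ℕ∞} : ContDiff ℝ m pt :=
  Real.smoothTransition.contDiff.comp (contDiff_id.add contDiff_const)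

lemma pt_zero {t : ℝ} (h : t ≤ -3 / 2) : pt t = 0 :=
  Real.smoothTransition.zero_of_nonpos (by linarith)

lemma pt_one {t : ℝ} (h : -1 / 2 ≤ t) : pt t = 1 :=
  Real.smoothTransition.one_of_one_le (by linarith)

lemma prof_pt : Prof pt 1 where
  cont := (contDiff_pt (m := 0)).continuous
  bd t := by
    unfold pt
    rw [abs_of_nonneg (Real.smoothTransition.nonneg _)]
    exact Real.smoothTransition.le_one _
  supp t ht := pt_zero ht.le

lemma contDiff_dpt : ContDiff ℝ ∞ (deriv pt) := by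
  have h : ContDiff ℝ ∞ pt := contDiff_pt
  exact ((contDiff_infty_iff_deriv (𝕜 := ℝ)).mp h).2

lemma dpt_zero_left {t : ℝ} (h : t < -3 / 2) : deriv pt t = 0 := by
  have h1 : pt =ᶠ[𝓝 t] fun _ => 0 := by
    filter_upwards [gt_mem_nhds h] with s hs
    exact pt_zero hs.le
  rw [h1.deriv_eq, deriv_const]

lemma dpt_zero_right {t : ℝ} (h : -1 / 2 < t) : deriv pt t = 0 := by
  have h1 : pt =ᶠ[𝓝 t] fun _ => 1 := by
    filter_upwards [lt_mem_nhds h] with s hs
    exact pt_one hs.le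
  rw [h1.deriv_eq, deriv_const]

lemma exists_prof_dpt : ∃ C, Prof (deriv pt) C := by
  have hc : Continuous (deriv pt) := contDiff_dpt.continuous
  obtain ⟨C, hC⟩ := (isCompact_Icc (a := (-3 / 2 : ℝ)) (b := -1 / 2)).exists_bound_of_continuousOn
    hc.continuousOn
  refine ⟨max C 0, hc, fun t => ?_, fun t ht => dpt_zero_left ht⟩
  by_cases h1 : t < -3 / 2
  · rw [dpt_zero_left h1]; simp
  by_cases h2 : -1 / 2 < t
  · rw [dpt_zero_right h2]; simp
  · exact (hC t ⟨not_lt.mp h1, not_lt.mp h2⟩).trans (le_max_left _ _)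

/-- **The effective equation** on the Fourier side. -/
lemma eff_eq (ξ : Sp (n + 1)) :
    ((sy 0 ξ : ℂ) - Complex.I) * 𝓕 (FQ (n := n) pt) ξ =
      -(Complex.I / π) * 𝓕 (FQ (n := n) (deriv pt)) ξ := by
  obtain ⟨C, hC⟩ := exists_prof_dpt
  rw [fourier_FQ prof_pt, fourier_FQ hC]
  have hπ : (π : ℂ) ≠ 0 := by exact_mod_cast Real.pi_ne_zero
  have hu : ∀ t : ℝ, HasDerivAt (fun t => (pt t : ℂ)) ((deriv pt t : ℝ) : ℂ) t := by
    intro t
    have h : ContDiff ℝ 1 pt := contDiff_pt (m := 1)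
    exact ((h.differentiable (by norm_num)) t).hasDerivAt.ofReal_comp
  have key := integral_mul_deriv_eq_deriv_mul_of_integrable (u := fun t => (pt t : ℂ))
    (u' := fun t => ((deriv pt t : ℝ) : ℂ)) (v := ee' ξ)
    (v' := fun t => -(π * Complex.I) * ((sy 0 ξ : ℂ) - Complex.I) * ee' ξ t)
    (fun t _ => hu t) (fun t _ => hasDerivAt_ee' ξ t) ?_ ?_ ?_
  · have e1 : ∫ t : ℝ, (pt t : ℂ) * (-(π * Complex.I) * ((sy 0 ξ : ℂ) - Complex.I) * ee' ξ t) =
        (-(π * Complex.I) * ((sy 0 ξ : ℂ) - Complex.I)) * ∫ t : ℝ, (pt t : ℂ) * ee' ξ t := by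
      rw [← integral_const_mul]
      congr 1
      funext t
      ring
    rw [e1] at key
    have e2 : ∫ t : ℝ, ((deriv pt t : ℝ) : ℂ) * ee' ξ t =
        (π * Complex.I) * ((sy 0 ξ : ℂ) - Complex.I) * ∫ t : ℝ, (pt t : ℂ) * ee' ξ t := by
      linear_combination key
    rw [e2]
    have e3 : -(Complex.I / π) * (π * Complex.I * ((sy 0 ξ : ℂ) - Complex.I) *
        ∫ t : ℝ, (pt t : ℂ) * ee' ξ t) = -(Complex.I * Complex.I) * (((sy 0 ξ : ℂ) - Complex.I) *
        ∫ t : ℝ, (pt t : ℂ) * ee' ξ t) := by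
      field_simp
    rw [e3, Complex.I_mul_I]
    ring
  · have h := (integrable_q_ee' prof_pt ξ).const_mul
      (-(π * Complex.I) * ((sy 0 ξ : ℂ) - Complex.I))
    refine h.congr (Eventually.of_forall fun t => ?_)
    simp only [Pi.mul_apply]
    ring
  · exact integrable_q_ee' hC ξ
  · exact integrable_q_ee' prof_pt ξ

end MP497a12
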