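import Mathlib
import Pool.Agent.Lib.MP_497a12_mp.GGauss

/-!
# The kernel of the effective operator
-/

open MeasureTheory Filter Topology Real
open scoped ENNReal ContDiff InnerProductSpace FourierTransform SchwartzMap

namespace MP497a12

variable {n : ℕ}

attribute [local irreducible] Mop Cop

/-- Test functions are represented by their Fourier transforms. -/
lemma rep_of_test {d : ℕ} {G : Sp d → ℂ} (hG : IsTest G) : ∃ (h : Sp d → ℂ) (W : ℝ),
    Rep G h W ∧ MemLp G 2 := by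
  obtain ⟨hG1, hG2⟩ := hG
  set S : 𝓢(Sp d, ℂ) := hG2.toSchwartzMap hG1 with hS
  set T : 𝓢(Sp d, ℂ) := 𝓕 S with hT
  have hGS : ∀ x, G x = S x := fun x => rfl
  have hbd : ∃ C, ∀ x, ‖G x‖ ≤ C := hG2.exists_bound_of_continuous hG1.continuous
  have i0 := T.integrable_pow_mul volume 0
  have i1 := T.integrable_pow_mul volume 1
  have i2 := T.integrable_pow_mul volume 2
  have i3 : Integrable (fun θ => ‖T θ‖ * (1 + ‖θ‖) ^ 2) := by
    refine ((i0.add (i1.const_mul 2)).add i2).congr (Eventually.of_forall fun θ => ?_)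
    simp only [Pi.add_apply]
    ring
  refine ⟨T, _, ⟨⟨hG1.continuous.measurable, hbd⟩, T.integrable, ?_, i3, le_rfl⟩,
    hG1.continuous.memLp_of_hasCompactSupport hG2⟩
  intro x
  have h1 : 𝓕⁻ (𝓕 S) = S := FourierPair.fourierInv_fourier_eq S
  rw [hGS]
  conv_lhs => rw [← h1]
  rw [SchwartzMap.fourierInv_coe, Real.fourierInv_eq']
  apply integral_congr_ae
  refine Eventually.of_forall fun θ => ?_
  simp only [smul_eq_mul]
  rw [mul_comm]
  congr 1
  unfold ch
  congr 1
  push_cast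
  ring

/-- The Fourier transform commutes with the reflection. -/
lemma Rf_Fo (f : HS (n + 1)) : Rf (Fo f) = Fo (Rf f) := by
  refine dense_induction (p := fun f => Rf (Fo f) = Fo (Rf f)) ?_ ?_ f
  · apply isClosed_eq
    · exact (LinearIsometry.continuous _).comp (LinearIsometryEquiv.continuous _)
    · exact (LinearIsometryEquiv.continuous _).comp (LinearIsometry.continuous _)
  · intro f h1 h2
    have h3 : MemLp (fun x => f (rf x)) 2 := h2.comp_measurePreserving rf.measurePreserving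
    have h4 : Integrable (fun x => f (rf x)) :=
      (rf.measurePreserving.integrable_comp_emb rf.toHomeomorph.measurableEmbedding).mpr h1
    have e1 : Rf (h2.toLp f) = h3.toLp _ := by
      apply Lp.ext
      have := ae_rf h2.coeFn_toLp
      filter_upwards [Rf_coe (h2.toLp f), h3.coeFn_toLp, this] with x a1 a2 a3
      rw [a1, a2, a3]
    rw [e1]
    apply Lp.ext
    filter_upwards [Rf_coe (Fo (h2.toLp f)), ae_rf (Fo_toLp h1 h2), Fo_toLp h4 h3]
      with ξ a1 a2 a3
    rw [a1, a2, a3, fourier_eq_ch, fourier_eq_ch]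
    rw [← (rf (n := n)).measurePreserving.integral_comp rf.toHomeomorph.measurableEmbedding]
    apply integral_congr_ae
    refine Eventually.of_forall fun x => ?_
    simp only
    congr 1
    unfold ch
    congr 3
    rw [← map_neg, LinearIsometryEquiv.inner_map_map]

/-- The limiting potential. -/
noncomputable def G0 (η : Sp (n + 1)) : ℂ :=
  (Complex.I / π) * ((deriv pt (η 0) : ℝ) : ℂ) * Complex.exp (-2 * π * η 0) *
    (gg (sw (η 0)) (tl η) * (gg (sw (-(η 0))) (tl η))⁻¹)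

lemma contDiff_gg_comp {f : Sp (n + 1) → ℝ} (hf : ContDiff ℝ ∞ f) :
    ContDiff ℝ ∞ (fun η : Sp (n + 1) => gg (sw (f η)) (tl η)) := by
  have h1 : ContDiff ℝ ∞ (fun p : ℝ × Sp n => gg (sw p.1) p.2) := contDiff_gg
  have h2 : ContDiff ℝ ∞ (fun η : Sp (n + 1) => (f η, tl η)) := hf.prodMk contDiff_tl
  have h3 := h1.comp h2
  exact h3

lemma contDiff_G0 : ContDiff ℝ ∞ (G0 (n := n)) := by
  unfold G0
  apply ContDiff.mul
  · apply ContDiff.mul
    · apply ContDiff.mul contDiff_const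
      exact Complex.ofRealCLM.contDiff.comp (contDiff_dpt.comp contDiff_zero)
    · apply ContDiff.cexp
      apply ContDiff.mul contDiff_const
      exact Complex.ofRealCLM.contDiff.comp contDiff_zero
  · apply ContDiff.mul
    · exact contDiff_gg_comp contDiff_zero
    · apply ContDiff.inv
      · exact contDiff_gg_comp contDiff_zero.neg
      · intro η
        exact gg_ne _ _

lemma G0_zero {η : Sp (n + 1)} (h : η 0 < -3 / 2 ∨ -1 / 2 < η 0) : G0 η = 0 := by
  unfold G0
  rcases h with h | h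
  · rw [dpt_zero_left h]; simp
  · rw [dpt_zero_right h]; simp

lemma norm_ratio (t : ℝ) (x : Sp n) : ‖gg (sw t) x * (gg (sw (-t)) x)⁻¹‖ =
    ‖Complex.exp (-((n : ℂ) / 2) * (Complex.log (sw t) - Complex.log (sw (-t))))‖ *
      Real.exp (-((π / ‖sw t‖ ^ 2) - (π / ‖sw (-t)‖ ^ 2)) * ‖x‖ ^ 2) := by
  have e : gg (sw t) x * (gg (sw (-t)) x)⁻¹ =
      Complex.exp (-((n : ℂ) / 2) * (Complex.log (sw t) - Complex.log (sw (-t)))) *
        (Complex.exp (-(π / sw t) * ((‖x‖ ^ 2 : ℝ) : ℂ)) *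
          (Complex.exp (-(π / sw (-t)) * ((‖x‖ ^ 2 : ℝ) : ℂ)))⁻¹) := by
    unfold gg
    rw [mul_inv, mul_sub, Complex.exp_sub, div_eq_mul_inv]
    push_cast
    ring
  rw [e, norm_mul, norm_mul, norm_inv, norm_gauss, norm_gauss, ← Real.exp_neg, ← Real.exp_add]
  congr 2
  ring

lemma G0_bound : ∃ C : ℝ, 0 < C ∧ ∀ η : Sp (n + 1), ‖G0 η‖ ≤ C * Real.exp (-‖tl η‖ ^ 2) := by
  obtain ⟨C, hC⟩ := exists_prof_dpt
  have hC0 := hC.nonneg
  set ρ : ℝ → ℂ := fun t =>
    Complex.exp (-((n : ℂ) / 2) * (Complex.log (sw t) - Complex.log (sw (-t)))) with hρ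
  have hρc : Continuous ρ := by
    have h1 : Continuous (fun t : ℝ => Complex.log (sw t)) :=
      continuous_iff_continuousAt.mpr fun t => continuous_sw.continuousAt.clog (sw_slit t)
    exact (continuous_const.mul (h1.sub (h1.comp continuous_neg))).cexp
  obtain ⟨C1, hC1⟩ := (isCompact_Icc (a := (-3 / 2 : ℝ)) (b := -1 / 2)).exists_bound_of_continuousOn
    hρc.continuousOn
  refine ⟨C * Real.exp (3 * π) * |C1| + 1, by positivity, fun η => ?_⟩
  by_cases h : η 0 < -3 / 2 ∨ -1 / 2 < η 0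
  · rw [G0_zero h, norm_zero]
    positivity
  · push Not at h
    obtain ⟨h1, h2⟩ := h
    have hπ := Real.pi_gt_three
    unfold G0
    rw [norm_mul, norm_mul, norm_mul, norm_ratio, Complex.norm_exp]
    have a1 : ‖Complex.I / (π : ℂ)‖ ≤ 1 := by
      rw [norm_div, Complex.norm_I, Complex.norm_real, Real.norm_of_nonneg (by positivity)]
      rw [div_le_one (by positivity)]
      linarith
    have a2 : ‖((deriv pt (η 0) : ℝ) : ℂ)‖ ≤ C := by
      rw [Complex.norm_real, Real.norm_eq_abs]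
      exact hC.bd _
    have a3 : Real.exp (-2 * (π : ℂ) * (η 0 : ℂ)).re ≤ Real.exp (3 * π) := by
      apply Real.exp_le_exp.mpr
      rw [show (-2 * (π : ℂ) * (η 0 : ℂ)) = ((-2 * π * η 0 : ℝ) : ℂ) by push_cast; ring,
        Complex.ofReal_re]
      nlinarith
    have a4 : ‖ρ (η 0)‖ ≤ |C1| := (hC1 _ ⟨h1, h2⟩).trans (le_abs_self _)
    have a5 : Real.exp (-((π / ‖sw (η 0)‖ ^ 2) - (π / ‖sw (-(η 0))‖ ^ 2)) * ‖tl η‖ ^ 2) ≤
        Real.exp (-‖tl η‖ ^ 2) := by
      apply Real.exp_le_exp.mpr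
      have b1 : 1 ≤ (π / ‖sw (η 0)‖ ^ 2) - (π / ‖sw (-(η 0))‖ ^ 2) := by
        rw [normSq_sw, normSq_sw]
        have c1 : π / (1 + (η 0 + 1) ^ 2) ≥ π / (5 / 4) := by
          gcongr
          nlinarith
        have c2 : π / (1 + (-(η 0) + 1) ^ 2) ≤ π / (13 / 4) := by
          gcongr
          nlinarith
        have c3 : π / (5 / 4) - π / (13 / 4) = π * (32 / 65) := by ring
        linarith
      have b2 : 0 ≤ ‖tl η‖ ^ 2 := by positivity
      nlinarith
    calc ‖Complex.I / (π : ℂ)‖ * ‖((deriv pt (η 0) : ℝ) : ℂ)‖ *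
          Real.exp (-2 * (π : ℂ) * (η 0 : ℂ)).re * (‖ρ (η 0)‖ *
          Real.exp (-((π / ‖sw (η 0)‖ ^ 2) - (π / ‖sw (-(η 0))‖ ^ 2)) * ‖tl η‖ ^ 2))
        ≤ 1 * C * Real.exp (3 * π) * (|C1| * Real.exp (-‖tl η‖ ^ 2)) := by gcongr
      _ = (C * Real.exp (3 * π) * |C1|) * Real.exp (-‖tl η‖ ^ 2) := by ring
      _ ≤ _ := by gcongr; linarith

lemma good_G0 : Good (G0 (n := n)) := by
  obtain ⟨C, hC0, hC⟩ := G0_bound (n := n)
  refine ⟨contDiff_G0.continuous.measurable, C, fun η => (hC η).trans ?_⟩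
  have : Real.exp (-‖tl η‖ ^ 2) ≤ 1 := Real.exp_le_one_iff.mpr (by
    have : 0 ≤ ‖tl η‖ ^ 2 := by positivity
    linarith)
  nlinarith

lemma approx_G0 : Approx (G0 (n := n)) := by
  intro δ hδ
  obtain ⟨C, hC0, hC⟩ := G0_bound (n := n)
  -- choice of the radius
  obtain ⟨R, hR0, hR⟩ : ∃ R : ℝ, 0 < R ∧ C * Real.exp (-R ^ 2) ≤ δ := by
    have h1 : Tendsto (fun R : ℝ => C * Real.exp (-R ^ 2)) atTop (𝓝 (C * 0)) := by
      apply Tendsto.const_mul
      apply Real.tendsto_exp_atBot.comp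
      exact tendsto_neg_atTop_atBot.comp (tendsto_pow_atTop (by norm_num))
    rw [mul_zero] at h1
    obtain ⟨R, h2, h3⟩ := ((h1.eventually (gt_mem_nhds hδ)).and (eventually_gt_atTop 0)).exists
    exact ⟨R, h3, h2.le⟩
  set χ : ContDiffBump (0 : Sp n) := ⟨R, R + 1, hR0, by linarith⟩ with hχ
  set G : Sp (n + 1) → ℂ := fun η => G0 η * ((χ (tl η) : ℝ) : ℂ) with hG
  have hGt : IsTest G := by
    constructor
    · apply contDiff_G0.mul
      exact Complex.ofRealCLM.contDiff.comp (χ.contDiff.comp contDiff_tl)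
    · apply HasCompactSupport.intro (isCompact_closedBall (0 : Sp (n + 1)) (R + 3))
      intro η hη
      have hη' : R + 3 < ‖η‖ := by simpa using hη
      rw [hG]
      simp only
      by_cases h : η 0 < -3 / 2 ∨ -1 / 2 < η 0
      · rw [G0_zero h, zero_mul]
      · push Not at h
        have h1 : |η 0| ≤ 3 / 2 := by
          rw [abs_le]; constructor <;> linarith
        have h2 : R + 1 < ‖tl η‖ := by
          by_contra hcon
          push Not at hcon
          have h3 := norm_sq_split η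
          have h4 : (η 0) ^ 2 ≤ (3 / 2) ^ 2 := by
            rw [← sq_abs]
            gcongr
          have h5 : ‖tl η‖ ^ 2 ≤ (R + 1) ^ 2 := by gcongr
          nlinarith
        have h6 : χ (tl η) = 0 := by
          apply χ.zero_of_le_dist
          rw [dist_zero_right]
          exact h2.le
        rw [h6]
        simp
  obtain ⟨h, W, hrep, hG2⟩ := rep_of_test hGt
  refine ⟨G, h, W, hrep, hG2, hGt, fun η => ?_⟩
  rw [hG]
  simp only
  rcases le_or_gt ‖tl η‖ R with h1 | h1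
  · have h2 : χ (tl η) = 1 := by
      apply χ.one_of_mem_closedBall
      simpa using h1
    rw [h2]
    simp
    exact hδ.le
  · have e : G0 η - G0 η * ((χ (tl η) : ℝ) : ℂ) = G0 η * ((1 - χ (tl η) : ℝ) : ℂ) := by
      push_cast; ring
    rw [e, norm_mul, Complex.norm_real, Real.norm_of_nonneg (by linarith [χ.le_one (x := tl η)])]
    have h3 : 1 - χ (tl η) ≤ 1 := by linarith [χ.nonneg (x := tl η)]
    calc ‖G0 η‖ * (1 - χ (tl η)) ≤ ‖G0 η‖ * 1 := by gcongr
      _ ≤ C * Real.exp (-‖tl η‖ ^ 2) := by rw [mul_one]; exact hC η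
      _ ≤ C * Real.exp (-R ^ 2) := by gcongr
      _ ≤ δ := hR

lemma G0_mul (η : Sp (n + 1)) :
    G0 η * FQ pt (rf η) = (Complex.I / π) * FQ (deriv pt) η := by
  unfold FQ
  rw [rf_zero, tl_rf]
  unfold G0 fq
  simp only
  by_cases h : η 0 < -3 / 2 ∨ -1 / 2 < η 0
  · have h0 : deriv pt (η 0) = 0 := by
      rcases h with h | h
      · exact dpt_zero_left h
      · exact dpt_zero_right h
    rw [h0]; simp
  · push Not at h
    rw [pt_one (t := -(η 0)) (by linarith)]
    have h1 := gg_ne (sw (-(η 0))) (tl η)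
    have h2 : Complex.exp (-π * (η 0 : ℂ)) = Complex.exp (-2 * π * (η 0 : ℂ)) *
        Complex.exp (-π * ((-(η 0) : ℝ) : ℂ)) := by
      rw [← Complex.exp_add]
      congr 1
      push_cast; ring
    rw [h2]
    field_simp
    simp

/-- The weight `√(|s| + 1)`. -/
noncomputable def om (η : Sp (n + 1)) : ℂ := ((√(|sy 0 η| + 1) : ℝ) : ℂ)

lemma continuous_om : Continuous (om (n := n)) := by
  unfold om
  exact Complex.continuous_ofReal.comp ((continuous_sy 0).abs.add continuous_const).sqrt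

lemma wt_mul_om (η : Sp (n + 1)) : wt 0 η * om η = 1 := by
  unfold wt om
  rw [← Complex.ofReal_mul, inv_mul_cancel₀, Complex.ofReal_one]
  have := wt_base 0 η
  linarith

lemma norm_om_le (η : Sp (n + 1)) : ‖om η‖ ≤ 2 * ‖(sy 0 η : ℂ) - Complex.I‖ := by
  unfold om
  rw [Complex.norm_real, Real.norm_of_nonneg (Real.sqrt_nonneg _)]
  have h1 : 1 ≤ ‖(sy 0 η : ℂ) - Complex.I‖ := by
    have := Complex.abs_im_le_norm ((sy 0 η : ℂ) - Complex.I)
    simpa using this
  have h2 : |sy 0 η| ≤ ‖(sy 0 η : ℂ) - Complex.I‖ := by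
    have := Complex.abs_re_le_norm ((sy 0 η : ℂ) - Complex.I)
    simpa using this
  rw [Real.sqrt_le_left (by positivity)]
  nlinarith

lemma mm_mul_om (η : Sp (n + 1)) :
    mm 0 Complex.I η * om η = wt 0 η * ((sy 0 η : ℂ) - Complex.I) := by
  have h1 := wt_mul_om η
  have h2 := wt_sq 0 η
  have h3 : mm 0 Complex.I η = ((sy 0 η : ℂ) - Complex.I) * (wt 0 η * wt 0 η) := by
    rw [h2, mm, div_eq_mul_inv]
  rw [h3]
  calc _ = ((sy 0 η : ℂ) - Complex.I) * wt 0 η * (wt 0 η * om η) := by ring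
    _ = _ := by rw [h1]; ring

/-- **The kernel of the effective operator.** -/
theorem eff_kernel (n : ℕ) : ∃ φ0 : HS (n + 1), φ0 ≠ 0 ∧ A0 G0 Complex.I φ0 = 0 := by
  obtain ⟨C, hC⟩ := exists_prof_dpt
  have i1 : Integrable (FQ (n := n) pt) := integrable_FQ prof_pt
  have m1 : MemLp (FQ (n := n) pt) 2 := memLp_FQ prof_pt
  have i2 : Integrable (FQ (n := n) (deriv pt)) := integrable_FQ hC
  have m2 : MemLp (FQ (n := n) (deriv pt)) 2 := memLp_FQ hC
  set α : HS (n + 1) := m1.toLp _ with hα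
  set β : HS (n + 1) := m2.toLp _ with hβ
  have f1 : Fo α =ᵐ[volume] 𝓕 (FQ (n := n) pt) := Fo_toLp i1 m1
  have f2 : Fo β =ᵐ[volume] 𝓕 (FQ (n := n) (deriv pt)) := Fo_toLp i2 m2
  have m3 : MemLp (fun η => om η * 𝓕 (FQ (n := n) pt) η) 2 := by
    have h1 : MemLp (Fo β) 2 := Lp.memLp _
    refine MemLp.of_le_mul (c := 2) h1 ?_ ?_
    · have h2 : AEStronglyMeasurable (𝓕 (FQ (n := n) pt)) volume :=
        (Lp.aestronglyMeasurable (Fo α)).congr f1
      exact continuous_om.aestronglyMeasurable.mul h2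
    · filter_upwards [f2] with η hη
      rw [hη, norm_mul]
      have h3 := eff_eq η
      have h4 : ‖(sy 0 η : ℂ) - Complex.I‖ * ‖𝓕 (FQ (n := n) pt) η‖ ≤
          ‖𝓕 (FQ (n := n) (deriv pt)) η‖ := by
        rw [← norm_mul, h3, norm_mul, norm_neg]
        have h5 : ‖Complex.I / (π : ℂ)‖ ≤ 1 := by
          have := Real.pi_gt_three
          rw [norm_div, Complex.norm_I, Complex.norm_real, Real.norm_of_nonneg (by positivity)]
          rw [div_le_one (by positivity)]
          linarith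
        have h6 := norm_nonneg (𝓕 (FQ (n := n) (deriv pt)) η)
        nlinarith
      calc ‖om η‖ * ‖𝓕 (FQ (n := n) pt) η‖
          ≤ (2 * ‖(sy 0 η : ℂ) - Complex.I‖) * ‖𝓕 (FQ (n := n) pt) η‖ := by
            gcongr
            exact norm_om_le η
        _ = 2 * (‖(sy 0 η : ℂ) - Complex.I‖ * ‖𝓕 (FQ (n := n) pt) η‖) := by ring
        _ ≤ _ := by gcongr
  set φ0 : HS (n + 1) := m3.toLp _ with hφ0
  have hwφ : Mop (wt 0) φ0 = Fo α := by
    apply Lp.ext
    filter_upwards [Mop_coe (good_wt 0) φ0, m3.coeFn_toLp, f1] with η a1 a2 a3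
    rw [a1, a2, a3, ← mul_assoc, wt_mul_om, one_mul]
  refine ⟨φ0, ?_, ?_⟩
  · intro h0
    rw [h0, map_zero] at hwφ
    have h1 : α = 0 := by
      have h2 : Fo α = Fo 0 := by rw [← hwφ, map_zero]
      exact Fo.injective h2
    have h3 : FQ (n := n) pt =ᵐ[volume] fun _ => (0 : ℂ) := by
      have h4 := m1.coeFn_toLp
      rw [← hα, h1] at h4
      filter_upwards [h4, Lp.coeFn_zero ℂ 2 (volume : Measure (Sp (n + 1)))] with x a1 a2
      rw [← a1, a2]; rfl
    have h5 : FQ (n := n) pt = fun _ => (0 : ℂ) :=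
      (continuous_FQ prof_pt.cont).ae_eq_iff_eq volume continuous_const |>.mp h3
    have h6 := congrFun h5 0
    unfold FQ fq at h6
    simp only at h6
    have h7 : (0 : Sp (n + 1)) 0 = 0 := rfl
    rw [h7, pt_one (by norm_num)] at h6
    have h8 := gg_ne (n := n) (sw 0) (tl 0)
    simp [h8] at h6
  · have e1 : Nop 0 G0 (Rf φ0) = Mop (wt 0) (Mop (fun _ => Complex.I / π) (Fo β)) := by
      have e2 : Mop (fun η => wt 0 (rf η)) (Rf φ0) = Fo (Rf α) := by
        rw [← Rf_Mop (good_wt 0), hwφ, Rf_Fo]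
      have e3 : Mop G0 (Rf α) = Mop (fun _ => Complex.I / π) β := by
        apply Lp.ext
        filter_upwards [Mop_coe good_G0 (Rf α), Mop_coe (Good.const (Complex.I / π)) β,
          Rf_coe α, ae_rf m1.coeFn_toLp, m2.coeFn_toLp] with x a1 a2 a3 a4 a5
        rw [a1, a2, a3, a4, a5, G0_mul]
      rw [Nop_apply, e2, Cop_apply, LinearIsometryEquiv.symm_apply_apply, e3]
      congr 1
      have e4 : ∀ f : HS (n + 1), Mop (fun _ => Complex.I / π) f = (Complex.I / π : ℂ) • f := by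
        intro f
        apply Lp.ext
        filter_upwards [Mop_coe (Good.const (Complex.I / π)) f,
          Lp.coeFn_smul (Complex.I / π : ℂ) f] with x a1 a2
        rw [a1, a2, Pi.smul_apply, smul_eq_mul]
      rw [e4, e4, map_smul]
    rw [A0_apply, e1]
    apply Lp.ext
    filter_upwards [Lp.coeFn_add (Mop (mm 0 Complex.I) φ0)
      (Mop (wt 0) (Mop (fun _ => Complex.I / π) (Fo β))),
      Mop_coe (good_mm 0 Complex.I) φ0, m3.coeFn_toLp,
      Mop_coe (good_wt 0) (Mop (fun _ => Complex.I / π) (Fo β)),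
      Mop_coe (Good.const (Complex.I / π)) (Fo β), f2,
      Lp.coeFn_zero ℂ 2 (volume : Measure (Sp (n + 1)))] with η a1 a2 a3 a4 a5 a6 a7
    rw [a1, Pi.add_apply, a2, a3, a4, a5, a6, a7, Pi.zero_apply, ← mul_assoc, mm_mul_om,
      mul_assoc, eff_eq]
    ring

end MP497a12
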