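import Mathlib
import Pool.Agent.Lib.MP_497a12_mp.GEff

/-!
# Linear changes of variables
-/

open MeasureTheory Filter Topology Real
open scoped ENNReal ContDiff InnerProductSpace FourierTransform SchwartzMap

namespace MP497a12

variable {d : ℕ}

attribute [local irreducible] Mop Cop

/-- The inverse of the absolute value of the determinant. -/
noncomputable def dt (M : Sp d ≃L[ℝ] Sp d) : ℝ :=
  |(LinearMap.det ((M : Sp d →L[ℝ] Sp d) : Sp d →ₗ[ℝ] Sp d))⁻¹|

lemma det_ne (M : Sp d ≃L[ℝ] Sp d) :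
    LinearMap.det ((M : Sp d →L[ℝ] Sp d) : Sp d →ₗ[ℝ] Sp d) ≠ 0 :=
  (LinearEquiv.isUnit_det' M.toLinearEquiv).ne_zero

lemma dt_pos (M : Sp d ≃L[ℝ] Sp d) : 0 < dt M := by
  unfold dt
  exact abs_pos.mpr (inv_ne_zero (det_ne M))

lemma map_M (M : Sp d ≃L[ℝ] Sp d) :
    Measure.map M (volume : Measure (Sp d)) = ENNReal.ofReal (dt M) • volume :=
  Measure.map_linearMap_addHaar_eq_smul_addHaar volume (det_ne M)

lemma qmp_M (M : Sp d ≃L[ℝ] Sp d) : Measure.QuasiMeasurePreserving M volume volume := by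
  refine ⟨M.continuous.measurable, ?_⟩
  rw [map_M]
  exact Measure.smul_absolutelyContinuous

lemma ae_M (M : Sp d ≃L[ℝ] Sp d) {p : Sp d → Prop} (h : ∀ᵐ x, p x) : ∀ᵐ x, p (M x) :=
  (qmp_M M).ae h

lemma integral_M {E : Type*} [NormedAddCommGroup E] [NormedSpace ℝ E] (M : Sp d ≃L[ℝ] Sp d)
    (f : Sp d → E) : ∫ x, f (M x) = dt M • ∫ x, f x := by
  have h1 : ∫ x, f (M x) = ∫ y, f y ∂(Measure.map M volume) :=
    (M.toHomeomorph.measurableEmbedding.integral_map f).symm
  rw [h1, map_M, integral_smul_measure, ENNReal.toReal_ofReal (dt_pos M).le]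

lemma memLp_M (M : Sp d ≃L[ℝ] Sp d) {p : ℝ≥0∞} {E : Type*} [NormedAddCommGroup E] {f : Sp d → E}
    (hf : MemLp f p) : MemLp (fun x => f (M x)) p := by
  have h1 : MemLp f p (Measure.map M (volume : Measure (Sp d))) := by
    rw [map_M]
    exact hf.smul_measure ENNReal.ofReal_ne_top
  exact h1.comp_of_map M.continuous.aemeasurable

lemma integrable_M (M : Sp d ≃L[ℝ] Sp d) {E : Type*} [NormedAddCommGroup E] {f : Sp d → E}
    (hf : Integrable f) : Integrable (fun x => f (M x)) := by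
  rw [← memLp_one_iff_integrable] at hf ⊢
  exact memLp_M M hf

lemma norm_M (M : Sp d ≃L[ℝ] Sp d) (f : HS d) :
    ‖(memLp_M M (Lp.memLp f)).toLp (fun x => f (M x))‖ = √(dt M) * ‖f‖ := by
  have h1 : ‖(memLp_M M (Lp.memLp f)).toLp (fun x => f (M x))‖ ^ 2 = (√(dt M) * ‖f‖) ^ 2 := by
    rw [L2_norm_sq_toLp, mul_pow, Real.sq_sqrt (dt_pos M).le, L2_norm_sq f]
    have := integral_M M (fun x => ‖f x‖ ^ 2)
    rw [this, smul_eq_mul]
  have h2 : 0 ≤ √(dt M) * ‖f‖ := by positivity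
  exact (pow_left_inj₀ (norm_nonneg _) h2 (by norm_num)).mp h1

/-- Composition with `M`. -/
noncomputable def Dil (M : Sp d ≃L[ℝ] Sp d) : HS d →L[ℂ] HS d :=
  LinearMap.mkContinuous
    { toFun := fun f => (memLp_M M (Lp.memLp f)).toLp (fun x => f (M x))
      map_add' := fun f g => by
        rw [← MemLp.toLp_add]
        apply MemLp.toLp_congr
        filter_upwards [ae_M M (Lp.coeFn_add f g)] with x hx
        rw [hx]
        simp only [Pi.add_apply]
      map_smul' := fun c f => by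
        simp only [RingHom.id_apply]
        rw [← MemLp.toLp_const_smul]
        apply MemLp.toLp_congr
        filter_upwards [ae_M M (Lp.coeFn_smul c f)] with x hx
        rw [hx]
        simp only [Pi.smul_apply] }
    (√(dt M)) (fun f => (norm_M M f).le)

lemma Dil_apply (M : Sp d ≃L[ℝ] Sp d) (f : HS d) :
    Dil M f = (memLp_M M (Lp.memLp f)).toLp (fun x => f (M x)) := rfl

lemma Dil_coe (M : Sp d ≃L[ℝ] Sp d) (f : HS d) : Dil M f =ᵐ[volume] fun x => f (M x) := by
  rw [Dil_apply]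
  exact MemLp.coeFn_toLp _

attribute [irreducible] Dil

lemma Dil_symm (M : Sp d ≃L[ℝ] Sp d) (f : HS d) : Dil M.symm (Dil M f) = f := by
  apply Lp.ext
  filter_upwards [Dil_coe M.symm (Dil M f), ae_M M.symm (Dil_coe M f)] with x h1 h2
  rw [h1, h2, ContinuousLinearEquiv.apply_symm_apply]

lemma Dil_symm' (M : Sp d ≃L[ℝ] Sp d) (f : HS d) : Dil M (Dil M.symm f) = f := by
  apply Lp.ext
  filter_upwards [Dil_coe M (Dil M.symm f), ae_M M (Dil_coe M.symm f)] with x h1 h2
  rw [h1, h2, ContinuousLinearEquiv.symm_apply_apply]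

lemma Dil_Mop (M : Sp d ≃L[ℝ] Sp d) {a : Sp d → ℂ} (ha : Good a) (f : HS d) :
    Dil M (Mop a f) = Mop (fun x => a (M x)) (Dil M f) := by
  apply Lp.ext
  filter_upwards [Dil_coe M (Mop a f), ae_M M (Mop_coe ha f), Dil_coe M f,
    Mop_coe (ha.comp M.continuous.measurable) (Dil M f)] with x h1 h2 h3 h4
  rw [h1, h2, h4, h3]

/-- Self-adjoint linear maps. -/
def SA (M : Sp d ≃L[ℝ] Sp d) : Prop := ∀ x y, ⟪M x, y⟫_ℝ = ⟪x, M y⟫_ℝ

lemma SA.symm {M : Sp d ≃L[ℝ] Sp d} (h : SA M) : SA M.symm := by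
  intro x y
  have := h (M.symm x) (M.symm y)
  rw [ContinuousLinearEquiv.apply_symm_apply, ContinuousLinearEquiv.apply_symm_apply] at this
  exact this.symm

lemma ch_M {M : Sp d ≃L[ℝ] Sp d} (h : SA M) (θ x : Sp d) : ch θ (M x) = ch (M θ) x := by
  unfold ch
  rw [h]

lemma Fo_Dil {M : Sp d ≃L[ℝ] Sp d} (h : SA M) (f : HS d) :
    Fo (Dil M f) = ((dt M : ℝ) : ℂ) • Dil M.symm (Fo f) := by
  refine dense_induction (p := fun f => Fo (Dil M f) = ((dt M : ℝ) : ℂ) • Dil M.symm (Fo f))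
    ?_ ?_ f
  · apply isClosed_eq
    · exact (LinearIsometryEquiv.continuous _).comp (Dil M).continuous
    · exact ((Dil M.symm).continuous.comp (LinearIsometryEquiv.continuous Fo)).const_smul
        ((dt M : ℝ) : ℂ)
  · intro f h1 h2
    have h3 : MemLp (fun x => f (M x)) 2 := memLp_M M h2
    have h4 : Integrable (fun x => f (M x)) := integrable_M M h1
    have e1 : Dil M (h2.toLp f) = h3.toLp _ := by
      apply Lp.ext
      filter_upwards [Dil_coe M (h2.toLp f), h3.coeFn_toLp, ae_M M h2.coeFn_toLp] with x a1 a2 a3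
      rw [a1, a2, a3]
    rw [e1]
    apply Lp.ext
    filter_upwards [Fo_toLp h4 h3, Lp.coeFn_smul ((dt M : ℝ) : ℂ) (Dil M.symm (Fo (h2.toLp f))),
      Dil_coe M.symm (Fo (h2.toLp f)), ae_M M.symm (Fo_toLp h1 h2)] with ξ a1 a2 a3 a4
    rw [a1, a2, Pi.smul_apply, a3, a4, fourier_eq_ch, fourier_eq_ch]
    have e2 : ∀ v, ch (-ξ) v * f (M v) = (fun y => ch (-(M.symm ξ)) y * f y) (M v) := by
      intro v
      simp only
      rw [ch_M h, ← map_neg, ContinuousLinearEquiv.apply_symm_apply]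
    simp_rw [e2]
    rw [integral_M M (fun y => ch (-(M.symm ξ)) y * f y), Complex.real_smul, smul_eq_mul]

lemma dt_ne (M : Sp d ≃L[ℝ] Sp d) : ((dt M : ℝ) : ℂ) ≠ 0 := by
  exact_mod_cast (dt_pos M).ne'

/-- The change of variables for convolution operators. -/
lemma Cop_Dil {M : Sp d ≃L[ℝ] Sp d} (h : SA M) {a : Sp d → ℂ} (ha : Good a) (f : HS d) :
    Cop (fun x => a (M x)) (Dil M.symm f) = Dil M.symm (Cop a f) := by
  have h1 : ∀ g : HS d, Dil M.symm g = ((dt M : ℝ) : ℂ)⁻¹ • Fo (Dil M (Fo.symm g)) := by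
    intro g
    rw [Fo_Dil h, LinearIsometryEquiv.apply_symm_apply, smul_smul, inv_mul_cancel₀ (dt_ne M),
      one_smul]
  have h2 : Fo.symm (Dil M.symm f) = ((dt M : ℝ) : ℂ)⁻¹ • Dil M (Fo.symm f) := by
    rw [h1, map_smul, LinearIsometryEquiv.symm_apply_apply]
  rw [Cop_apply, h2, map_smul, ← Dil_Mop M ha, map_smul, h1 (Cop a f), Cop_apply,
    LinearIsometryEquiv.symm_apply_apply]

lemma Cop_Mop_comm {a b : Sp d → ℂ} (ha : Good a) (hb : Good b) (f : HS d) :
    Cop a (Cop b f) = Cop (fun x => a x * b x) f := by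
  rw [Cop_apply, Cop_apply, Cop_apply, LinearIsometryEquiv.symm_apply_apply, Mop_mul ha hb]

lemma Tr_eq_Cop (θ : Sp d) (f : HS d) : Tr θ f = Cop (ch θ) f := by
  rw [Cop_apply, Fo_ch, LinearIsometryEquiv.apply_symm_apply]

lemma Cop_Tr {a : Sp d → ℂ} (ha : Good a) (θ : Sp d) (f : HS d) :
    Cop a (Tr θ f) = Tr θ (Cop a f) := by
  rw [Tr_eq_Cop, Tr_eq_Cop, Cop_Mop_comm ha (good_ch θ), Cop_Mop_comm (good_ch θ) ha]
  congr 2
  funext x; ring

lemma Cop_add {a b : Sp d → ℂ} (ha : Good a) (hb : Good b) (f : HS d) :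
    Cop (fun x => a x + b x) f = Cop a f + Cop b f := by
  rw [Cop_apply, Cop_apply, Cop_apply, Mop_add ha hb, map_add Fo]

lemma Cop_const_mul {a : Sp d → ℂ} (ha : Good a) (c : ℂ) (f : HS d) :
    Cop (fun x => c * a x) f = c • Cop a f := by
  rw [Cop_apply, Cop_apply, Mop_const_mul ha, map_smul]

/-- Diagonal linear maps. -/
noncomputable def diagL (c : Fin d → ℝ) (hc : ∀ i, c i ≠ 0) : Sp d ≃L[ℝ] Sp d :=
  LinearEquiv.toContinuousLinearEquiv
    { toFun := fun x => WithLp.toLp 2 (fun i => c i * x i)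
      invFun := fun x => WithLp.toLp 2 (fun i => (c i)⁻¹ * x i)
      map_add' := fun x y => by
        ext i
        simp [mul_add]
      map_smul' := fun a x => by
        ext i
        simp
        ring
      left_inv := fun x => by
        ext i
        have := hc i
        simp
        field_simp
      right_inv := fun x => by
        ext i
        have := hc i
        simp
        field_simp }

lemma diagL_apply (c : Fin d → ℝ) (hc : ∀ i, c i ≠ 0) (x : Sp d) (i : Fin d) :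
    diagL c hc x i = c i * x i := rfl

lemma diagL_symm_apply (c : Fin d → ℝ) (hc : ∀ i, c i ≠ 0) (x : Sp d) (i : Fin d) :
    (diagL c hc).symm x i = (c i)⁻¹ * x i := rfl

lemma diagL_SA (c : Fin d → ℝ) (hc : ∀ i, c i ≠ 0) : SA (diagL c hc) := by
  intro x y
  rw [PiLp.inner_apply, PiLp.inner_apply]
  apply Finset.sum_congr rfl
  intro i _
  rw [diagL_apply, diagL_apply]
  simp
  ring

end MP497a12
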