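import Mathlib
import Pool.Agent.Lib.MP_497a12_mp.GDil

/-!
# From the rescaled operators to the Schroedinger operators
-/

open MeasureTheory Filter Topology Real
open scoped ENNReal ContDiff InnerProductSpace FourierTransform SchwartzMap

namespace MP497a12

section General

variable {d : ℕ}

attribute [local irreducible] Mop Cop Fo

lemma Mop_map_add (a : Sp d → ℂ) (f g : HS d) : Mop a (f + g) = Mop a f + Mop a g :=
  map_add _ _ _

lemma Cop_map_add (a : Sp d → ℂ) (f g : HS d) : Cop a (f + g) = Cop a f + Cop a g :=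
  map_add _ _ _

lemma Tr_map_add (θ : Sp d) (f g : HS d) : Tr θ (f + g) = Tr θ f + Tr θ g := map_add _ _ _

lemma Cop_map_zero (a : Sp d → ℂ) : Cop a (0 : HS d) = 0 := map_zero _

/-- The symbol `|ξ|² / (1 + |ξ|²)`. -/
noncomputable def pS (ξ : Sp d) : ℂ := ((‖ξ‖ ^ 2 / (1 + ‖ξ‖ ^ 2) : ℝ) : ℂ)

/-- The symbol `1 / (1 + |ξ|²)`. -/
noncomputable def qS (ξ : Sp d) : ℂ := ((1 / (1 + ‖ξ‖ ^ 2) : ℝ) : ℂ)

lemma good_pS : Good (pS (d := d)) := by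
  refine ⟨?_, 1, fun ξ => ?_⟩
  · apply Continuous.measurable
    unfold pS
    apply Complex.continuous_ofReal.comp
    apply Continuous.div (by fun_prop) (by fun_prop)
    intro ξ; positivity
  · unfold pS
    rw [Complex.norm_real, Real.norm_of_nonneg (by positivity), div_le_one (by positivity)]
    linarith

lemma good_qS : Good (qS (d := d)) := by
  refine ⟨?_, 1, fun ξ => ?_⟩
  · apply Continuous.measurable
    unfold qS
    apply Complex.continuous_ofReal.comp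
    apply Continuous.div (by fun_prop) (by fun_prop)
    intro ξ; positivity
  · unfold qS
    rw [Complex.norm_real, Real.norm_of_nonneg (by positivity), div_le_one (by positivity)]
    nlinarith [sq_nonneg ‖ξ‖]

/-- The full operator. -/
noncomputable def Full (v : Sp d → ℂ) (g z : ℂ) : HS d →L[ℂ] HS d :=
  Mop pS + g • Kv v - z • Mop qS

lemma Full_apply (v : Sp d → ℂ) (g z : ℂ) (f : HS d) :
    Full v g z f = Mop pS f + g • Kv v f - z • Mop qS f := rfl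

lemma dd_mul_jb (ξ : Sp d) : dd ξ * (jb ξ : ℂ) = 1 := by rw [mul_comm, jb_mul_dd]

lemma pS_eq (ξ : Sp d) : pS ξ * (jb ξ : ℂ) = ((‖ξ‖ ^ 2 : ℝ) : ℂ) * dd ξ := by
  unfold pS dd
  rw [← Complex.ofReal_mul, ← Complex.ofReal_mul]
  congr 1
  rw [← jb_sq]
  have := jb_pos ξ
  field_simp

lemma qS_eq (ξ : Sp d) : qS ξ * (jb ξ : ℂ) = dd ξ := by
  unfold qS dd
  rw [← Complex.ofReal_mul]
  congr 1
  rw [← jb_sq]
  have := jb_pos ξ
  field_simp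

lemma jb_le_aux (ξ : Sp d) (z : ℂ) : jb ξ ≤ (1 + ‖z‖) + ‖((‖ξ‖ ^ 2 : ℝ) : ℂ) - z‖ := by
  have h1 : jb ξ ≤ jb ξ ^ 2 := by nlinarith [one_le_jb ξ]
  have h2 : ‖ξ‖ ^ 2 ≤ ‖((‖ξ‖ ^ 2 : ℝ) : ℂ) - z‖ + ‖z‖ := by
    have := norm_sub_norm_le (((‖ξ‖ ^ 2 : ℝ) : ℂ)) z
    rw [Complex.norm_real, Real.norm_of_nonneg (by positivity)] at this
    linarith
  rw [jb_sq] at h1
  linarith

lemma full_ker {v : Sp d → ℂ} {g z : ℂ} {u : HS d} (hu : u ≠ 0)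
    (heq : ∀ᵐ ξ, (((‖ξ‖ ^ 2 : ℝ) : ℂ) - z) * u ξ = -(g * (Cop v u) ξ)) :
    ∃ F : HS d, F ≠ 0 ∧ Full v g z F = 0 := by
  have m : MemLp (fun ξ => (jb ξ : ℂ) * u ξ) 2 := by
    have h1 : MemLp (fun ξ => ((1 + ‖z‖ : ℝ) : ℂ) * ((‖u ξ‖ : ℝ) : ℂ) +
        ((‖g * (Cop v u) ξ‖ : ℝ) : ℂ)) 2 := by
      apply MemLp.add
      · exact ((Lp.memLp u).norm.ofReal).const_mul _
      · exact (((Lp.memLp (Cop v u)).const_mul g).norm).ofReal
    refine h1.mono ?_ ?_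
    · exact (Complex.continuous_ofReal.comp continuous_jb).aestronglyMeasurable.mul
        (Lp.aestronglyMeasurable u)
    · filter_upwards [heq] with ξ hξ
      have e : ((1 + ‖z‖ : ℝ) : ℂ) * ((‖u ξ‖ : ℝ) : ℂ) + ((‖g * (Cop v u) ξ‖ : ℝ) : ℂ) =
          (((1 + ‖z‖) * ‖u ξ‖ + ‖g * (Cop v u) ξ‖ : ℝ) : ℂ) := by push_cast; ring
      rw [e, Complex.norm_real, Real.norm_of_nonneg (by positivity), norm_mul, Complex.norm_real,
        Real.norm_of_nonneg (jb_pos ξ).le]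
      have h2 : ‖g * (Cop v u) ξ‖ = ‖((‖ξ‖ ^ 2 : ℝ) : ℂ) - z‖ * ‖u ξ‖ := by
        rw [← norm_mul, hξ, norm_neg]
      rw [h2, ← add_mul]
      gcongr
      exact jb_le_aux ξ z
  set F : HS d := m.toLp _ with hF
  have hdF : Mop dd F = u := by
    apply Lp.ext
    filter_upwards [Mop_coe good_dd F, m.coeFn_toLp] with ξ a1 a2
    rw [a1, a2, ← mul_assoc, dd_mul_jb, one_mul]
  refine ⟨F, ?_, ?_⟩
  · intro h0
    apply hu
    rw [← hdF, h0, map_zero]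
  · rw [Full_apply, Kv_apply, hdF]
    apply Lp.ext
    filter_upwards [Lp.coeFn_sub (Mop pS F + g • Mop dd (Cop v u)) (z • Mop qS F),
      Lp.coeFn_add (Mop pS F) (g • Mop dd (Cop v u)), Lp.coeFn_smul g (Mop dd (Cop v u)),
      Lp.coeFn_smul z (Mop qS F), Mop_coe good_pS F, Mop_coe good_qS F,
      Mop_coe good_dd (Cop v u), m.coeFn_toLp, heq,
      Lp.coeFn_zero ℂ 2 (volume : Measure (Sp d))] with ξ a1 a2 a3 a4 a5 a6 a7 a8 a9 a10
    rw [a1, Pi.sub_apply, a2, Pi.add_apply, a3, a4, Pi.smul_apply, Pi.smul_apply, a5, a6, a7, a8,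
      a10, Pi.zero_apply, smul_eq_mul, smul_eq_mul, ← mul_assoc (pS ξ), pS_eq,
      ← mul_assoc (qS ξ), qS_eq]
    linear_combination dd ξ * a9

end General

section Piece

variable {n : ℕ}

attribute [local irreducible] Mop Cop Fo

lemma sy_shift {ε : ℝ} (hε : 0 < ε) (η : Sp (n + 1)) : sy ε (η - (2 / ε) • e0) = sy ε (rf η) := by
  rw [sy_rf]
  unfold sy
  rw [norm_sub_sq_real, inner_smul_right, inner_e0, norm_smul, norm_e0, Real.norm_of_nonneg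
    (by positivity)]
  simp only [PiLp.sub_apply, PiLp.smul_apply, e0_zero, smul_eq_mul]
  field_simp
  ring

lemma wt_shift {ε : ℝ} (hε : 0 < ε) (η : Sp (n + 1)) : wt ε (η - (2 / ε) • e0) = wt ε (rf η) := by
  unfold wt
  rw [sy_shift hε]

lemma TT_wt {ε : ℝ} (hε : 0 < ε) (F : HS (n + 1)) :
    Mop (fun η => wt ε (rf η)) (TT ε F) = TT ε (Mop (wt ε) F) := by
  rw [TT_apply, TT_apply, Tr_Mop (good_wt ε)]
  congr 2
  funext η
  exact (wt_shift hε η).symm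

lemma rf_e0 (c : ℝ) : rf (c • (e0 : Sp (n + 1))) = -(c • e0) := by
  rw [rf_eq]
  simp only [PiLp.smul_apply, e0_zero, smul_eq_mul, mul_one]
  rw [two_mul, add_smul]
  abel

lemma Rf_Tr (θ : Sp (n + 1)) (f : HS (n + 1)) : Rf (Tr θ f) = Tr (rf θ) (Rf f) := by
  apply Lp.ext
  filter_upwards [Rf_coe (Tr θ f), ae_rf (Tr_coe θ f), Tr_coe (rf θ) (Rf f),
    ae_sub (rf θ) (Rf_coe f)] with x h1 h2 h3 h4
  rw [h1, h2, h3, h4, map_sub, rf_rf]

lemma Rf_Cop {G : Sp (n + 1) → ℂ} (hG : Good G) (f : HS (n + 1)) :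
    Rf (Cop G f) = Cop (fun x => G (rf x)) (Rf f) := by
  have h1 : Fo.symm (Rf f) = Rf (Fo.symm f) := by
    have := Rf_Fo (Fo.symm f)
    rw [LinearIsometryEquiv.apply_symm_apply] at this
    rw [this, LinearIsometryEquiv.symm_apply_apply]
  rw [Cop_apply, Cop_apply, Rf_Fo, Rf_Mop hG, h1]

/-- The composed reflection. -/
noncomputable def RR2 (ε : ℝ) (f : HS (n + 1)) : HS (n + 1) := Tr (-((2 / ε) • e0)) (Rf f)

lemma RR2_coe (ε : ℝ) (f : HS (n + 1)) :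
    RR2 ε f =ᵐ[volume] fun ξ => f (rf (ξ - -((2 / ε) • e0))) := by
  filter_upwards [Tr_coe (-((2 / ε) • e0)) (Rf f), ae_sub (-((2 / ε) • e0)) (Rf_coe f)]
    with x h1 h2
  rw [RR2, h1, h2]

lemma ae_RR2 (ε : ℝ) {p : Sp (n + 1) → Prop} (h : ∀ᵐ x, p x) :
    ∀ᵐ x, p (rf (x - -((2 / ε) • e0))) := ae_sub (-((2 / ε) • e0)) (ae_rf h)

lemma sy_RR2 {ε : ℝ} (hε : 0 < ε) (η : Sp (n + 1)) :
    sy ε (rf (η - -((2 / ε) • e0))) = sy ε η := by
  have h1 := sy_shift hε (η - -((2 / ε) • e0))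
  rw [← h1]
  congr 1
  abel

/-- The potential in the rescaled variables. -/
noncomputable def wG (ε : ℝ) (G : Sp (n + 1) → ℂ) (y : Sp (n + 1)) : ℂ :=
  ch ((2 / ε) • e0) y * G y + ch (-((2 / ε) • e0)) y * G (rf y)

lemma good_wG (ε : ℝ) {G : Sp (n + 1) → ℂ} (hG : Good G) : Good (wG ε G) :=
  ((good_ch _).mul hG).add ((good_ch _).mul (hG.comp measurable_rf))

lemma RR2_def (ε : ℝ) (f : HS (n + 1)) : RR2 ε f = Tr (-((2 / ε) • e0)) (Rf f) := rfl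

lemma Rf_map_add (f g : HS (n + 1)) : Rf (f + g) = Rf f + Rf g := map_add _ _ _

lemma Rf_map_zero : Rf (0 : HS (n + 1)) = 0 := map_zero _

lemma Tr_of_zero {θ : Sp (n + 1)} (h : θ = 0) (f : HS (n + 1)) : Tr θ f = f := by
  subst h
  exact Tr_zero f

lemma Tr_RR2 (ε : ℝ) (a : HS (n + 1)) : Tr ((2 / ε) • e0) (a + RR2 ε a) = Rf a + TT ε a :=
  calc Tr ((2 / ε) • e0) (a + RR2 ε a) =
        Tr ((2 / ε) • e0) a + Tr ((2 / ε) • e0) (Tr (-((2 / ε) • e0)) (Rf a)) := Tr_map_add _ _ _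
    _ = Tr ((2 / ε) • e0) a + Rf a :=
        congrArg _ ((Tr_Tr _ _ _).trans (Tr_of_zero (add_neg_cancel _) _))
    _ = Rf a + TT ε a := add_comm _ _

lemma Tr_rf_e0 (ε : ℝ) (b : HS (n + 1)) : Tr (rf (-((2 / ε) • e0))) b = TT ε b := by
  have h : rf (-((2 / ε) • (e0 : Sp (n + 1)))) = (2 / ε) • e0 := by rw [map_neg, rf_e0, neg_neg]
  exact congrArg (fun θ => Tr θ b) h

lemma Rf_RR2 (ε : ℝ) (a : HS (n + 1)) : Rf (a + RR2 ε a) = Rf a + TT ε a :=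
  calc Rf (a + RR2 ε a) = Rf a + Rf (Tr (-((2 / ε) • e0)) (Rf a)) := Rf_map_add _ _
    _ = Rf a + Tr (rf (-((2 / ε) • e0))) (Rf (Rf a)) := congrArg _ (Rf_Tr _ _)
    _ = Rf a + TT ε (Rf (Rf a)) := congrArg _ (Tr_rf_e0 ε _)
    _ = Rf a + TT ε a := congrArg (fun b => Rf a + TT ε b) (Rf_Rf a)

lemma Cop_wG_split {θ : Sp (n + 1)} {G : Sp (n + 1) → ℂ} (hG : Good G) (b : HS (n + 1)) :
    Cop (fun y => ch θ y * G y + ch (-θ) y * G (rf y)) b =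
      Cop (ch θ) (Cop G b) + Cop (ch (-θ)) (Cop (fun y => G (rf y)) b) := by
  have hGr : Good (fun y => G (rf y)) := hG.comp measurable_rf
  rw [Cop_Mop_comm (good_ch θ) hG, Cop_Mop_comm (good_ch (-θ)) hGr]
  exact Cop_add ((good_ch θ).mul hG) ((good_ch (-θ)).mul hGr) b

lemma Cop_wG {ε : ℝ} {G : Sp (n + 1) → ℂ} (hG : Good G) (a : HS (n + 1)) :
    Cop (wG ε G) (a + RR2 ε a) = Cop G (Rf a + TT ε a) + RR2 ε (Cop G (Rf a + TT ε a)) := by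
  have e1 : Cop (ch ((2 / ε) • e0)) (Cop G (a + RR2 ε a)) = Cop G (Rf a + TT ε a) :=
    (Tr_eq_Cop _ _).symm.trans ((Cop_Tr hG _ _).symm.trans (congrArg (Cop G) (Tr_RR2 ε a)))
  have e2 : Cop (ch (-((2 / ε) • e0))) (Cop (fun y => G (rf y)) (a + RR2 ε a)) =
      RR2 ε (Cop G (Rf a + TT ε a)) := by
    have e4 : Rf (Cop G (Rf a + TT ε a)) = Cop (fun y => G (rf y)) (a + RR2 ε a) := by
      refine (Rf_Cop hG _).trans (congrArg _ ?_)
      exact (congrArg Rf (Rf_RR2 ε a).symm).trans (Rf_Rf _)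
    rw [← Tr_eq_Cop, RR2_def ε (Cop G (Rf a + TT ε a)), e4]
  have e3 := Cop_wG_split (θ := (2 / ε) • e0) hG (a + RR2 ε a)
  rw [e1, e2] at e3
  exact e3

/-- The equation for `a`, abstract form. -/
lemma Aop_eq {ε : ℝ} (hε : 0 < ε) {G : Sp (n + 1) → ℂ} {g z : ℂ} {F a : HS (n + 1)}
    (ha : Mop (wt ε) F = a) (hF : Aop ε G g z F = 0) :
    Mop (mm ε z) F + g • Mop (wt ε) (Cop G (Rf a + TT ε a)) = 0 := by
  have e1 : Nop ε G (Rf F) = Mop (wt ε) (Cop G (Rf a)) := by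
    rw [Nop_apply, ← Rf_Mop (good_wt ε), ha]
  have e2 : Nop ε G (TT ε F) = Mop (wt ε) (Cop G (TT ε a)) := by
    rw [Nop_apply, TT_wt hε, ha]
  rw [Cop_map_add, Mop_map_add, ← e1, ← e2, ← Aop_apply]
  exact hF

/-- The equation for `a`. -/
lemma eq_a {ε : ℝ} (hε : 0 < ε) {G : Sp (n + 1) → ℂ} {g z : ℂ} {F a : HS (n + 1)}
    (ha : Mop (wt ε) F = a) (hF : Aop ε G g z F = 0) :
    ∀ᵐ η, ((sy ε η : ℂ) - z) * a η = -(g * (Cop G (Rf a + TT ε a)) η) := by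
  have h := Aop_eq hε ha hF
  obtain ⟨X, hX⟩ : ∃ X, X = Cop G (Rf a + TT ε a) := ⟨_, rfl⟩
  rw [← hX] at h ⊢
  have h0 : ∀ᵐ η, (Mop (mm ε z) F + g • Mop (wt ε) X : HS (n + 1)) η = 0 := by
    rw [h]
    filter_upwards [Lp.coeFn_zero ℂ 2 (volume : Measure (Sp (n + 1)))] with η h
    rw [h]; rfl
  filter_upwards [h0, Lp.coeFn_add (Mop (mm ε z) F) (g • Mop (wt ε) X),
    Lp.coeFn_smul g (Mop (wt ε) X), Mop_coe (good_mm ε z) F, Mop_coe (good_wt ε) X,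
    Mop_coe (good_wt ε) F] with η h1 h2 h3 h4 h5 h6
  rw [h2, Pi.add_apply, h3, Pi.smul_apply, h4, h5, smul_eq_mul] at h1
  rw [← ha, h6]
  have h7 : mm ε z η = ((sy ε η : ℂ) - z) * (wt ε η * wt ε η) := by
    rw [wt_sq, mm, div_eq_mul_inv]
  rw [h7] at h1
  apply mul_left_cancel₀ (wt_ne_zero ε η)
  linear_combination h1

lemma RR2_eq {ε : ℝ} (hε : 0 < ε) {g z : ℂ} {a X : HS (n + 1)}
    (h : ∀ᵐ η, ((sy ε η : ℂ) - z) * a η = -(g * X η)) :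
    ∀ᵐ η, ((sy ε η : ℂ) - z) * (a + RR2 ε a : HS (n + 1)) η =
      -(g * (X + RR2 ε X : HS (n + 1)) η) := by
  filter_upwards [h, ae_RR2 ε h, RR2_coe ε a, RR2_coe ε X, Lp.coeFn_add a (RR2 ε a),
    Lp.coeFn_add X (RR2 ε X)] with η h1 h2 h3 h4 h5 h6
  rw [h5, h6, Pi.add_apply, Pi.add_apply, h3, h4]
  rw [sy_RR2 hε] at h2
  linear_combination h1 + h2

/-- Vanishing of `a`. -/
lemma a_eq_zero {ε : ℝ} {g z : ℂ} (hz : 0 < z.im) {a X : HS (n + 1)} (hX : X = 0)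
    (h : ∀ᵐ η, ((sy ε η : ℂ) - z) * a η = -(g * X η)) : ∀ᵐ η, a η = 0 := by
  rw [hX] at h
  filter_upwards [h, Lp.coeFn_zero ℂ 2 (volume : Measure (Sp (n + 1)))] with η h5 h6
  rw [h6, Pi.zero_apply, mul_zero, neg_zero, mul_eq_zero] at h5
  rcases h5 with h5 | h5
  · exfalso
    have := congrArg Complex.im h5
    simp at this
    linarith
  · exact h5

/-- The equation for `f`. -/
lemma eq_f {ε : ℝ} (hε : 0 < ε) {G : Sp (n + 1) → ℂ} (hG : Good G) {g z : ℂ} (hz : 0 < z.im)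
    {F : HS (n + 1)} (hF0 : F ≠ 0) (hF : Aop ε G g z F = 0) :
    ∃ f : HS (n + 1), f ≠ 0 ∧ ∀ᵐ η, ((sy ε η : ℂ) - z) * f η = -(g * (Cop (wG ε G) f) η) := by
  obtain ⟨a, ha⟩ : ∃ a, Mop (wt ε) F = a := ⟨_, rfl⟩
  have h1 := eq_a hε ha hF
  refine ⟨a + RR2 ε a, ?_, ?_⟩
  · intro h0
    apply hF0
    have h2 : Rf a + TT ε a = 0 :=
      (Rf_RR2 ε a).symm.trans ((congrArg Rf h0).trans Rf_map_zero)
    have h5 : ∀ᵐ η, a η = 0 :=
      a_eq_zero hz ((congrArg (Cop G) h2).trans (Cop_map_zero G)) h1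
    apply Lp.ext
    filter_upwards [h5, Mop_coe (good_wt ε) F,
      Lp.coeFn_zero ℂ 2 (volume : Measure (Sp (n + 1)))] with η h6 h7 h8
    rw [← ha, h7, mul_eq_zero] at h6
    rw [h8, Pi.zero_apply]
    rcases h6 with h6 | h6
    · exact absurd h6 (wt_ne_zero ε η)
    · exact h6
  · rw [Cop_wG hG]
    exact RR2_eq hε h1

/-- The anisotropic dilation. -/
noncomputable def dl (κ ε : ℝ) (i : Fin (n + 1)) : ℝ := if i = 0 then κ * ε else κ * √ε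

lemma dl_ne {κ ε : ℝ} (hκ : 0 < κ) (hε : 0 < ε) (i : Fin (n + 1)) : dl κ ε i ≠ 0 := by
  unfold dl
  split_ifs
  · positivity
  · positivity

/-- The anisotropic dilation. -/
noncomputable def MM {κ ε : ℝ} (hκ : 0 < κ) (hε : 0 < ε) : Sp (n + 1) ≃L[ℝ] Sp (n + 1) :=
  diagL (dl κ ε) (dl_ne hκ hε)

lemma MM_zero {κ ε : ℝ} (hκ : 0 < κ) (hε : 0 < ε) (x : Sp (n + 1)) :
    MM hκ hε x 0 = κ * ε * x 0 := by
  unfold MM
  rw [diagL_apply]
  simp [dl]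

lemma MM_tl {κ ε : ℝ} (hκ : 0 < κ) (hε : 0 < ε) (x : Sp (n + 1)) :
    tl (MM hκ hε x) = (κ * √ε) • tl x := by
  ext i
  unfold MM
  rw [tl_apply, diagL_apply]
  simp [dl, tl_apply]

/-- The potential. -/
noncomputable def vG {κ ε : ℝ} (hκ : 0 < κ) (hε : 0 < ε) (G : Sp (n + 1) → ℂ)
    (x : Sp (n + 1)) : ℂ := ((κ ^ 2 * ε : ℝ) : ℂ) * wG ε G (MM hκ hε x)

lemma good_vG {κ ε : ℝ} (hκ : 0 < κ) (hε : 0 < ε) {G : Sp (n + 1) → ℂ} (hG : Good G) :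
    Good (vG hκ hε G) :=
  ((good_wG ε hG).const_mul _).comp (MM hκ hε).continuous.measurable

lemma norm_sq_eq_sy {κ ε : ℝ} (hκ : 0 < κ) (hε : 0 < ε) (η : Sp (n + 1)) :
    ‖MM hκ hε η + κ • e0‖ ^ 2 = κ ^ 2 + κ ^ 2 * ε * sy ε η := by
  rw [norm_sq_split, sy_eq]
  have h1 : (MM hκ hε η + κ • e0 : Sp (n + 1)) 0 = κ * ε * η 0 + κ := by
    simp only [PiLp.add_apply, PiLp.smul_apply, e0_zero, MM_zero, smul_eq_mul, mul_one]
  have h2 : tl (MM hκ hε η + κ • e0) = (κ * √ε) • tl η := by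
    rw [← MM_tl hκ hε]
    ext i
    simp only [tl_apply, PiLp.add_apply, PiLp.smul_apply, e0_succ, smul_eq_mul, mul_zero,
      add_zero]
  rw [h1, h2, norm_smul, mul_pow, Real.norm_of_nonneg (by positivity), mul_pow,
    Real.sq_sqrt hε.le]
  ring

/-- **From the reduced operator to the full operator.** -/
theorem scale_ker {κ ε : ℝ} (hκ : 0 < κ) (hε : 0 < ε) {G : Sp (n + 1) → ℂ} (hG : Good G)
    {g z : ℂ} (hz : 0 < z.im) {F : HS (n + 1)} (hF0 : F ≠ 0) (hF : Aop ε G g z F = 0) :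
    ∃ F' : HS (n + 1), F' ≠ 0 ∧
      Full (vG hκ hε G) g (((κ ^ 2 : ℝ) : ℂ) * (1 + (ε : ℂ) * z)) F' = 0 := by
  obtain ⟨f, hf0, hf⟩ := eq_f hε hG hz hF0 hF
  set M := MM (n := n) hκ hε with hM
  set u : HS (n + 1) := Tr (κ • e0) (Dil M.symm f) with hu
  have hSA : SA M := diagL_SA _ _
  apply full_ker (u := u)
  · intro h0
    apply hf0
    have h1 : Dil M.symm f = 0 := by
      have h2 : Tr (κ • e0) (Dil M.symm f) = Tr (κ • e0) 0 := by rw [← hu, h0, map_zero]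
      exact (Tr (κ • e0)).injective h2
    rw [← Dil_symm' M f, h1, map_zero]
  · have e1 : Cop (vG hκ hε G) u = ((κ ^ 2 * ε : ℝ) : ℂ) • Tr (κ • e0)
        (Dil M.symm (Cop (wG ε G) f)) := by
      have e2 : vG hκ hε G = fun x => (fun y => ((κ ^ 2 * ε : ℝ) : ℂ) * wG ε G y) (M x) := rfl
      rw [hu, Cop_Tr (good_vG hκ hε hG), e2, Cop_Dil hSA ((good_wG ε hG).const_mul _),
        Cop_const_mul (good_wG ε hG), map_smul, map_smul]
    rw [e1]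
    have h1 : ∀ᵐ ξ, ((sy ε (M.symm (ξ - κ • e0)) : ℂ) - z) * f (M.symm (ξ - κ • e0)) =
        -(g * (Cop (wG ε G) f) (M.symm (ξ - κ • e0))) :=
      ae_sub (κ • e0) (ae_M M.symm hf)
    filter_upwards [h1, Tr_coe (κ • e0) (Dil M.symm f), ae_sub (κ • e0) (Dil_coe M.symm f),
      Lp.coeFn_smul ((κ ^ 2 * ε : ℝ) : ℂ) (Tr (κ • e0) (Dil M.symm (Cop (wG ε G) f))),
      Tr_coe (κ • e0) (Dil M.symm (Cop (wG ε G) f)),
      ae_sub (κ • e0) (Dil_coe M.symm (Cop (wG ε G) f))] with ξ a1 a2 a3 a4 a5 a6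
    rw [a2, a3, a4, Pi.smul_apply, a5, a6, smul_eq_mul]
    obtain ⟨η, hη⟩ : ∃ η, η = M.symm (ξ - κ • e0) := ⟨_, rfl⟩
    rw [← hη] at a1 ⊢
    have h2 : M η + κ • e0 = ξ := by
      rw [hη, ContinuousLinearEquiv.apply_symm_apply, sub_add_cancel]
    have h3 := norm_sq_eq_sy hκ hε η
    rw [← hM, h2] at h3
    rw [h3]
    push_cast
    linear_combination ((κ : ℂ) ^ 2 * ε) * a1

end Piece

end MP497a12
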