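import Mathlib
import Pool.Agent.Lib.MP_497a12_mp.GScale

/-!
# Form bounds in Fourier space
-/

open MeasureTheory Filter Topology Real
open scoped ENNReal ContDiff InnerProductSpace FourierTransform SchwartzMap

namespace MP497a12

variable {d : ℕ}

attribute [local irreducible] Mop Cop Fo

/-- The Gaussian on the Fourier side. -/
noncomputable def gW (ρ : ℝ) (θ : Sp d) : ℝ := ρ ^ d * Real.exp (-(π * ρ ^ 2) * ‖θ‖ ^ 2)

lemma continuous_gW (ρ : ℝ) : Continuous (gW (d := d) ρ) := by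
  unfold gW; fun_prop

lemma gW_nonneg {ρ : ℝ} (hρ : 0 < ρ) (θ : Sp d) : 0 ≤ gW ρ θ := by unfold gW; positivity

lemma integrable_rexp {c : ℝ} (hc : 0 < c) :
    Integrable (fun x : Sp d => Real.exp (-c * ‖x‖ ^ 2)) := by
  have h := GaussianFourier.integrable_cexp_neg_mul_sq_norm_add (V := Sp d)
    (b := ((c : ℝ) : ℂ)) (by rw [Complex.ofReal_re]; positivity) 0 0
  have h2 := h.norm
  refine h2.congr (Eventually.of_forall fun x => ?_)
  simp only [zero_mul, add_zero]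
  rw [Complex.norm_exp]
  congr 1
  rw [show (-((c : ℝ) : ℂ) * (‖x‖ : ℂ) ^ 2) = ((-c * ‖x‖ ^ 2 : ℝ) : ℂ) by push_cast; ring,
    Complex.ofReal_re]

lemma integrable_gW {ρ : ℝ} (hρ : 0 < ρ) : Integrable (gW (d := d) ρ) :=
  (integrable_rexp (by positivity)).const_mul _

/-- The weight `1 / (1 + |ξ|²)`. -/
noncomputable def jj (ξ : Sp d) : ℝ := (1 + ‖ξ‖ ^ 2)⁻¹

lemma jj_nonneg (ξ : Sp d) : 0 ≤ jj ξ := by unfold jj; positivity

lemma jj_le_one (ξ : Sp d) : jj ξ ≤ 1 := by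
  unfold jj
  apply inv_le_one_of_one_le₀
  nlinarith [sq_nonneg ‖ξ‖]

lemma continuous_jj : Continuous (jj (d := d)) := by
  unfold jj
  apply Continuous.inv₀ (by fun_prop)
  intro ξ; positivity

lemma norm_dd_sq (ξ : Sp d) : ‖dd ξ‖ ^ 2 = jj ξ := by
  rw [norm_dd, inv_pow, jb_sq]; rfl

/-- **The Hoelder estimate.** -/
lemma holder_gW {r : ℝ} (hr1 : 1 < r) (hr2 : (d : ℝ) < 2 * r) : ∃ C : ℝ, 0 < C ∧ ∀ ρ : ℝ, 0 < ρ →
    ∀ (T : Sp d → Sp d), MeasurePreserving T → Measurable T →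
      ∫ θ, gW ρ θ * jj (T θ) ≤ C * ρ ^ ((d : ℝ) / r) := by
  set C0 := (∫ x : Sp d, ((1 : ℝ) + ‖x‖ ^ 2) ^ (-(2 * r) / 2)) ^ (1 / r) with hC0
  have hC0n : 0 ≤ C0 := by
    apply Real.rpow_nonneg
    apply integral_nonneg
    intro x; positivity
  refine ⟨C0 + 1, by positivity, fun ρ hρ T hT hTm => ?_⟩
  set p := r / (r - 1) with hp
  have hr0 : 0 < r - 1 := by linarith
  have hp1 : 1 < p := by
    rw [hp, lt_div_iff₀ hr0]; linarith
  have hpq : p.HolderConjugate r := by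
    refine ⟨?_, by linarith, by linarith⟩
    rw [hp, inv_div, inv_one]
    field_simp
    ring
  have hint : Integrable (fun x : Sp d => ((1 : ℝ) + ‖x‖ ^ 2) ^ (-(2 * r) / 2)) := by
    apply integrable_rpow_neg_one_add_norm_sq
    rw [finrank_euclideanSpace, Fintype.card_fin]
    exact hr2
  have hjr : ∀ x : Sp d, jj x ^ r = ((1 : ℝ) + ‖x‖ ^ 2) ^ (-(2 * r) / 2) := by
    intro x
    unfold jj
    rw [← Real.rpow_neg_one, ← Real.rpow_mul (by positivity)]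
    congr 1; ring
  have hgp : ∀ x : Sp d, gW ρ x ^ p = ρ ^ ((d : ℝ) * p) *
      Real.exp (-(p * (π * ρ ^ 2)) * ‖x‖ ^ 2) := by
    intro x
    unfold gW
    rw [Real.mul_rpow (by positivity) (by positivity), ← Real.rpow_natCast ρ d,
      ← Real.rpow_mul hρ.le, ← Real.exp_mul]
    congr 2
    ring
  have hπ := Real.pi_pos
  have m1 : MemLp (gW (d := d) ρ) (ENNReal.ofReal p) := by
    rw [← integrable_norm_rpow_iff (continuous_gW ρ).aestronglyMeasurable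
      (by simpa using by linarith) ENNReal.ofReal_ne_top, ENNReal.toReal_ofReal (by linarith)]
    have h1 : (fun x : Sp d => ‖gW ρ x‖ ^ p) = fun x => ρ ^ ((d : ℝ) * p) *
        Real.exp (-(p * (π * ρ ^ 2)) * ‖x‖ ^ 2) := by
      funext x
      rw [Real.norm_of_nonneg (gW_nonneg hρ x), hgp]
    rw [h1]
    exact (integrable_rexp (by positivity)).const_mul _
  have hm2 : AEStronglyMeasurable (fun θ => jj (T θ)) volume :=
    (continuous_jj.measurable.comp hTm).aestronglyMeasurable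
  have m2 : MemLp (fun θ => jj (T θ)) (ENNReal.ofReal r) := by
    rw [← integrable_norm_rpow_iff hm2
      (by simpa using by linarith) ENNReal.ofReal_ne_top, ENNReal.toReal_ofReal (by linarith)]
    have h1 : (fun x : Sp d => ‖jj (T x)‖ ^ r) = fun x =>
        (fun y => ((1 : ℝ) + ‖y‖ ^ 2) ^ (-(2 * r) / 2)) (T x) := by
      funext x
      rw [Real.norm_of_nonneg (jj_nonneg _), hjr]
    rw [h1]
    exact hT.integrable_comp_of_integrable hint
  have key := integral_mul_le_Lp_mul_Lq_of_nonneg hpq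
    (Eventually.of_forall fun x => gW_nonneg (d := d) hρ x)
    (Eventually.of_forall fun x => jj_nonneg (T x)) m1 m2
  refine key.trans ?_
  have e1 : ∫ x : Sp d, gW ρ x ^ p = ρ ^ ((d : ℝ) * p) * (1 / (p * ρ ^ 2)) ^ ((d : ℝ) / 2) := by
    simp_rw [hgp]
    rw [integral_const_mul, GaussianFourier.integral_rexp_neg_mul_sq_norm (by positivity),
      finrank_euclideanSpace, Fintype.card_fin]
    congr 2
    field_simp
  have e2 : ∫ x : Sp d, jj (T x) ^ r = ∫ x : Sp d, ((1 : ℝ) + ‖x‖ ^ 2) ^ (-(2 * r) / 2) := by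
    simp_rw [hjr]
    have h2 := hT.map_eq
    have h3 : ∫ y, (fun y : Sp d => ((1 : ℝ) + ‖y‖ ^ 2) ^ (-(2 * r) / 2)) y
        ∂(Measure.map T volume) = ∫ x, ((1 : ℝ) + ‖T x‖ ^ 2) ^ (-(2 * r) / 2) :=
      integral_map hTm.aemeasurable (by
        rw [h2]; exact hint.aestronglyMeasurable)
    rw [← h3, h2]
  rw [e1, e2, ← hC0]
  have e3 : (ρ ^ ((d : ℝ) * p) * (1 / (p * ρ ^ 2)) ^ ((d : ℝ) / 2)) ^ (1 / p) ≤
      ρ ^ ((d : ℝ) / r) := by
    have h1 : (1 / (p * ρ ^ 2)) ^ ((d : ℝ) / 2) ≤ ρ ^ (-(d : ℝ)) := by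
      calc (1 / (p * ρ ^ 2)) ^ ((d : ℝ) / 2) ≤ (1 / (1 * ρ ^ 2)) ^ ((d : ℝ) / 2) := by
            gcongr
        _ = ρ ^ (-(d : ℝ)) := by
            rw [one_mul, one_div, ← Real.rpow_natCast ρ 2, ← Real.rpow_neg hρ.le,
              ← Real.rpow_mul hρ.le]
            congr 1
            push_cast
            ring
    calc (ρ ^ ((d : ℝ) * p) * (1 / (p * ρ ^ 2)) ^ ((d : ℝ) / 2)) ^ (1 / p)
        ≤ (ρ ^ ((d : ℝ) * p) * ρ ^ (-(d : ℝ))) ^ (1 / p) := by gcongr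
      _ = ρ ^ ((d : ℝ) / r) := by
          rw [← Real.rpow_add hρ, ← Real.rpow_mul hρ.le]
          congr 1
          rw [hp]
          field_simp
          ring
  calc _ ≤ ρ ^ ((d : ℝ) / r) * C0 := by gcongr
    _ ≤ (C0 + 1) * ρ ^ ((d : ℝ) / r) := by
        have : 0 ≤ ρ ^ ((d : ℝ) / r) := by positivity
        nlinarith

lemma integrable_sq (f : HS d) : Integrable (fun ξ => ‖f ξ‖ ^ 2) :=
  (Lp.memLp f).integrable_norm_pow (by norm_num)

lemma integrable_sq_mul (f : HS d) {a : Sp d → ℝ} (ha : Measurable a) (h0 : ∀ x, 0 ≤ a x)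
    (h1 : ∀ x, a x ≤ 1) : Integrable (fun ξ => ‖f ξ‖ ^ 2 * a ξ) := by
  refine (integrable_sq f).mul_bdd (c := 1) ha.aestronglyMeasurable
    (Eventually.of_forall fun x => ?_)
  rw [Real.norm_of_nonneg (h0 x)]
  exact h1 x

lemma inner_Tr_le (f : HS d) (θ : Sp d) :
    ‖⟪Mop dd f, Tr θ (Mop dd f)⟫_ℂ‖ ≤
      (1 / 2) * ((∫ ξ, ‖f ξ‖ ^ 2 * jj (ξ - θ)) + ∫ ξ, ‖f ξ‖ ^ 2 * jj (ξ + θ)) := by
  have i1 : Integrable (fun ξ => ‖f ξ‖ ^ 2 * jj (ξ - θ)) :=
    integrable_sq_mul f (continuous_jj.measurable.comp (measurable_id'.sub_const θ))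
      (fun x => jj_nonneg _) fun x => jj_le_one _
  have i2 : Integrable (fun ξ => ‖f ξ‖ ^ 2 * jj (ξ + θ)) :=
    integrable_sq_mul f (continuous_jj.measurable.comp (measurable_id'.add_const θ))
      (fun x => jj_nonneg _) fun x => jj_le_one _
  have i3 : Integrable (fun ξ => ‖f (ξ - θ)‖ ^ 2 * jj ξ) := by
    have := i2.comp_sub_right θ
    refine this.congr (Eventually.of_forall fun ξ => ?_)
    simp
  have e1 : ∫ ξ, ‖f ξ‖ ^ 2 * jj (ξ + θ) = ∫ ξ, ‖f (ξ - θ)‖ ^ 2 * jj ξ := by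
    rw [← integral_sub_right_eq_self (fun ξ => ‖f ξ‖ ^ 2 * jj (ξ + θ)) θ]
    simp
  rw [e1, ← integral_add i1 i3, ← integral_const_mul, inner_eq]
  apply norm_integral_le_of_norm_le ((i1.add i3).const_mul _)
  filter_upwards [Mop_coe good_dd f, Tr_coe θ (Mop dd f), ae_sub θ (Mop_coe good_dd f)]
    with ξ h1 h2 h3
  rw [h1, h2, h3, norm_mul, RCLike.norm_conj, norm_mul, norm_mul]
  simp only [Pi.add_apply]
  rw [← norm_dd_sq, ← norm_dd_sq]
  nlinarith [sq_nonneg (‖f ξ‖ * ‖dd (ξ - θ)‖ - ‖f (ξ - θ)‖ * ‖dd ξ‖)]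

lemma swap_bound {ρ M : ℝ} (hρ : 0 < ρ) (f : HS d) {T : Sp d → Sp d → Sp d}
    (hT : Continuous (fun p : Sp d × Sp d => T p.1 p.2))
    (hM : ∀ ξ, ∫ θ, gW ρ θ * jj (T ξ θ) ≤ M) :
    Integrable (fun θ => gW ρ θ * ∫ ξ, ‖f ξ‖ ^ 2 * jj (T ξ θ)) ∧
    ∫ θ, gW ρ θ * (∫ ξ, ‖f ξ‖ ^ 2 * jj (T ξ θ)) ≤ M * ‖f‖ ^ 2 := by
  have h1 : Integrable (fun p : Sp d × Sp d => ‖f p.1‖ ^ 2 * gW ρ p.2) (volume.prod volume) :=
    Integrable.mul_prod (integrable_sq f) (integrable_gW hρ)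
  have h2 : Integrable (fun p : Sp d × Sp d => (‖f p.1‖ ^ 2 * gW ρ p.2) * jj (T p.1 p.2))
      (volume.prod volume) := by
    refine h1.mul_bdd (c := 1) (continuous_jj.comp hT).aestronglyMeasurable
      (Eventually.of_forall fun p => ?_)
    rw [Real.norm_of_nonneg (jj_nonneg _)]
    exact jj_le_one _
  have e0 : (fun p : Sp d × Sp d => (‖f p.1‖ ^ 2 * gW ρ p.2) * jj (T p.1 p.2)) =
      Function.uncurry (fun ξ θ => ‖f ξ‖ ^ 2 * (gW ρ θ * jj (T ξ θ))) := by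
    funext p
    simp only [Function.uncurry]
    ring
  have h3 : Integrable (Function.uncurry (fun ξ θ => ‖f ξ‖ ^ 2 * (gW ρ θ * jj (T ξ θ))))
      (volume.prod volume) := by rw [← e0]; exact h2
  have e1 : ∀ θ, gW ρ θ * (∫ ξ, ‖f ξ‖ ^ 2 * jj (T ξ θ)) =
      ∫ ξ, ‖f ξ‖ ^ 2 * (gW ρ θ * jj (T ξ θ)) := by
    intro θ
    rw [← integral_const_mul]
    congr 1
    funext ξ; ring
  constructor
  · simp_rw [e1]
    exact h3.integral_prod_right
  · simp_rw [e1]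
    rw [← integral_integral_swap h3]
    have e2 : ∀ ξ, ∫ θ, ‖f ξ‖ ^ 2 * (gW ρ θ * jj (T ξ θ)) =
        ‖f ξ‖ ^ 2 * ∫ θ, gW ρ θ * jj (T ξ θ) := fun ξ => integral_const_mul _ _
    calc ∫ ξ, ∫ θ, ‖f ξ‖ ^ 2 * (gW ρ θ * jj (T ξ θ)) ≤ ∫ ξ, ‖f ξ‖ ^ 2 * M := by
          apply integral_mono h3.integral_prod_left ((integrable_sq f).mul_const M)
          intro ξ
          simp only [Function.uncurry]
          rw [e2]
          gcongr
          exact hM ξ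
      _ = M * ‖f‖ ^ 2 := by
          rw [integral_mul_const, ← L2_norm_sq, mul_comm]

/-- The Gaussian in position space. -/
noncomputable def gX (ρ : ℝ) (x₀ x : Sp d) : ℂ := ((Real.exp (-(π / ρ ^ 2) * ‖x - x₀‖ ^ 2) : ℝ) : ℂ)

lemma good_gX (ρ : ℝ) (x₀ : Sp d) : Good (gX ρ x₀) := by
  refine ⟨?_, 1, fun x => ?_⟩
  · apply Continuous.measurable
    unfold gX
    apply Complex.continuous_ofReal.comp
    fun_prop
  · unfold gX
    rw [Complex.norm_real, Real.norm_of_nonneg (by positivity)]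
    apply Real.exp_le_one_iff.mpr
    have := Real.pi_pos
    have h : 0 ≤ π / ρ ^ 2 * ‖x - x₀‖ ^ 2 := by positivity
    linarith

lemma gX_rep {ρ : ℝ} (hρ : 0 < ρ) (x₀ x : Sp d) :
    gX ρ x₀ x = ∫ θ, ((gW ρ θ : ℂ) * ch θ (-x₀)) * ch θ x := by
  have hπ := Real.pi_pos
  have hπ' : (π : ℂ) ≠ 0 := by exact_mod_cast hπ.ne'
  have hρ' : (ρ : ℂ) ≠ 0 := by exact_mod_cast hρ.ne'
  have hb : 0 < ((π * ρ ^ 2 : ℝ) : ℂ).re := by rw [Complex.ofReal_re]; positivity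
  have h1 := fourier_gaussian_innerProductSpace hb (x₀ - x)
  rw [finrank_euclideanSpace, Fintype.card_fin, fourier_eq_ch] at h1
  have h2 : ∫ θ, ((gW ρ θ : ℂ) * ch θ (-x₀)) * ch θ x =
      (ρ : ℂ) ^ d * ∫ θ : Sp d, ch (-(x₀ - x)) θ *
        Complex.exp (-((π * ρ ^ 2 : ℝ) : ℂ) * ‖θ‖ ^ 2) := by
    rw [← integral_const_mul]
    congr 1
    funext θ
    have e : ch θ (-x₀) * ch θ x = ch (-(x₀ - x)) θ := by
      rw [ch_symm θ (-x₀), ch_symm θ x, ← ch_add_left]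
      congr 1
      abel
    rw [mul_assoc, e]
    unfold gW
    push_cast
    ring
  rw [h2, h1]
  have h3 : ((π : ℂ) / ((π * ρ ^ 2 : ℝ) : ℂ)) ^ ((d : ℂ) / 2) = ((ρ : ℂ) ^ d)⁻¹ := by
    have e : ((π : ℂ) / ((π * ρ ^ 2 : ℝ) : ℂ)) = (((ρ ^ 2)⁻¹ : ℝ) : ℂ) := by
      push_cast
      field_simp
    rw [e]
    have e2 : ((d : ℂ) / 2) = (((d : ℝ) / 2 : ℝ) : ℂ) := by push_cast; ring
    rw [e2, ← Complex.ofReal_cpow (by positivity), ← Complex.ofReal_pow, ← Complex.ofReal_inv]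
    congr 1
    rw [Real.inv_rpow (by positivity), ← Real.rpow_natCast ρ 2, ← Real.rpow_mul hρ.le,
      ← Real.rpow_natCast ρ d]
    congr 2
    push_cast
    ring
  rw [h3, ← mul_assoc, mul_inv_cancel₀ (pow_ne_zero _ hρ'), one_mul]
  unfold gX
  rw [Complex.ofReal_exp]
  congr 1
  rw [norm_sub_rev x x₀]
  push_cast
  field_simp

/-- **The form bound for balls.** -/
theorem fb_ball {r : ℝ} (hr1 : 1 < r) (hr2 : (d : ℝ) < 2 * r) : ∃ C : ℝ, 0 < C ∧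
    ∀ ρ : ℝ, 0 < ρ → ∀ (x₀ : Sp d) (f : HS d),
      ∫ x in Metric.closedBall x₀ ρ, ‖(Fo.symm (Mop dd f)) x‖ ^ 2 ≤
        C * ρ ^ ((d : ℝ) / r) * ‖f‖ ^ 2 := by
  obtain ⟨C, hC0, hC⟩ := holder_gW (d := d) hr1 hr2
  refine ⟨Real.exp π * C, by positivity, fun ρ hρ x₀ f => ?_⟩
  set ψ := Fo.symm (Mop dd f) with hψ
  have hFψ : Fo ψ = Mop dd f := by rw [hψ, LinearIsometryEquiv.apply_symm_apply]
  set M := C * ρ ^ ((d : ℝ) / r) with hM
  have hM0 : 0 ≤ M := by positivity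
  have hπ := Real.pi_pos
  -- the Gaussian integral
  have hint : Integrable (fun θ => ((gW ρ θ : ℂ) * ch θ (-x₀))) := by
    have h1 : Integrable (fun θ : Sp d => ((gW ρ θ : ℝ) : ℂ)) := (integrable_gW hρ).ofReal
    have h2 : Continuous (fun θ : Sp d => ch θ (-x₀)) := by
      unfold ch; fun_prop
    exact h1.mul_bdd (c := 1) h2.aestronglyMeasurable
      (Eventually.of_forall fun θ => (norm_ch θ _).le)
  have e1 : ⟪Mop dd f, Cop (gX ρ x₀) (Mop dd f)⟫_ℂ = ⟪ψ, Mop (gX ρ x₀) ψ⟫_ℂ := by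
    rw [Cop_apply, ← hψ, ← hFψ, LinearIsometryEquiv.inner_map_map]
  have e2 : ⟪ψ, Mop (gX ρ x₀) ψ⟫_ℂ =
      ((∫ x, Real.exp (-(π / ρ ^ 2) * ‖x - x₀‖ ^ 2) * ‖ψ x‖ ^ 2 : ℝ) : ℂ) := by
    rw [inner_Mop (good_gX ρ x₀), ← integral_complex_ofReal]
    congr 1
    funext x
    unfold gX
    push_cast
    rw [← Complex.mul_conj' (ψ x)]
    ring
  have h1 : ‖⟪Mop dd f, Cop (gX ρ x₀) (Mop dd f)⟫_ℂ‖ ≤ M * ‖f‖ ^ 2 := by
    rw [inner_Cop hint (good_gX ρ x₀) (gX_rep hρ x₀)]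
    have s1 := swap_bound (M := M) hρ f (T := fun ξ θ => ξ - θ) (by fun_prop) (fun ξ =>
      hC ρ hρ (fun θ => ξ - θ) (Measure.measurePreserving_sub_left volume ξ) (by fun_prop))
    have s2 := swap_bound (M := M) hρ f (T := fun ξ θ => ξ + θ) (by fun_prop) (fun ξ =>
      hC ρ hρ (fun θ => ξ + θ) (measurePreserving_add_left volume ξ) (by fun_prop))
    calc _ ≤ ∫ θ, (1 / 2) * (gW ρ θ * (∫ ξ, ‖f ξ‖ ^ 2 * jj (ξ - θ)) +
          gW ρ θ * ∫ ξ, ‖f ξ‖ ^ 2 * jj (ξ + θ)) := by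
          apply norm_integral_le_of_norm_le ((s1.1.add s2.1).const_mul _)
          refine Eventually.of_forall fun θ => ?_
          rw [norm_mul, norm_mul, norm_ch, mul_one, Complex.norm_real,
            Real.norm_of_nonneg (gW_nonneg hρ θ)]
          have := inner_Tr_le f θ
          have h0 := gW_nonneg (d := d) hρ θ
          simp only [Pi.add_apply]
          calc gW ρ θ * ‖⟪Mop dd f, Tr θ (Mop dd f)⟫_ℂ‖ ≤ gW ρ θ *
                ((1 / 2) * ((∫ ξ, ‖f ξ‖ ^ 2 * jj (ξ - θ)) + ∫ ξ, ‖f ξ‖ ^ 2 * jj (ξ + θ))) := by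
                gcongr
            _ = _ := by ring
      _ = (1 / 2) * ((∫ θ, gW ρ θ * (∫ ξ, ‖f ξ‖ ^ 2 * jj (ξ - θ))) +
          ∫ θ, gW ρ θ * ∫ ξ, ‖f ξ‖ ^ 2 * jj (ξ + θ)) := by
          rw [integral_const_mul, integral_add s1.1 s2.1]
      _ ≤ (1 / 2) * (M * ‖f‖ ^ 2 + M * ‖f‖ ^ 2) := by
          have a1 := s1.2
          have a2 := s2.2
          gcongr
      _ = _ := by ring
  rw [e1, e2, Complex.norm_real] at h1
  have h2 := (le_abs_self _).trans h1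
  have hi : Integrable (fun x => Real.exp (-(π / ρ ^ 2) * ‖x - x₀‖ ^ 2) * ‖ψ x‖ ^ 2) := by
    have := integrable_sq_mul ψ (a := fun x => Real.exp (-(π / ρ ^ 2) * ‖x - x₀‖ ^ 2))
      (by fun_prop) (fun x => by positivity) (fun x => by
        apply Real.exp_le_one_iff.mpr
        have h : 0 ≤ π / ρ ^ 2 * ‖x - x₀‖ ^ 2 := by positivity
        linarith)
    refine this.congr (Eventually.of_forall fun x => ?_)
    simp only; ring
  calc ∫ x in Metric.closedBall x₀ ρ, ‖ψ x‖ ^ 2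
      ≤ ∫ x in Metric.closedBall x₀ ρ,
        Real.exp π * (Real.exp (-(π / ρ ^ 2) * ‖x - x₀‖ ^ 2) * ‖ψ x‖ ^ 2) := by
        apply setIntegral_mono_on (integrable_sq ψ).integrableOn
          (hi.const_mul (Real.exp π)).integrableOn Metric.isClosed_closedBall.measurableSet
        intro x hx
        have hx' : ‖x - x₀‖ ≤ ρ := by simpa [dist_eq_norm] using hx
        have h3 : 1 ≤ Real.exp π * Real.exp (-(π / ρ ^ 2) * ‖x - x₀‖ ^ 2) := by
          rw [← Real.exp_add]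
          apply Real.one_le_exp
          have h4 : π / ρ ^ 2 * ‖x - x₀‖ ^ 2 ≤ π / ρ ^ 2 * ρ ^ 2 := by gcongr
          have h5 : π / ρ ^ 2 * ρ ^ 2 = π := by field_simp
          linarith
        have h6 : 0 ≤ ‖ψ x‖ ^ 2 := by positivity
        nlinarith
    _ ≤ ∫ x, Real.exp π * (Real.exp (-(π / ρ ^ 2) * ‖x - x₀‖ ^ 2) * ‖ψ x‖ ^ 2) := by
        apply setIntegral_le_integral (hi.const_mul (Real.exp π))
        refine Eventually.of_forall fun x => ?_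
        simp only [Pi.zero_apply]
        positivity
    _ = Real.exp π * ∫ x, Real.exp (-(π / ρ ^ 2) * ‖x - x₀‖ ^ 2) * ‖ψ x‖ ^ 2 :=
        integral_const_mul _ _
    _ ≤ Real.exp π * (M * ‖f‖ ^ 2) := by gcongr
    _ = _ := by rw [hM]; ring

end MP497a12
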