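import Mathlib
import Pool.Agent.Lib.MP_497a12_mp.GFbf

/-!
# Test functions on the Fourier side
-/

open MeasureTheory Filter Topology Real
open scoped ENNReal ContDiff InnerProductSpace FourierTransform SchwartzMap LineDeriv

namespace MP497a12

variable {d : ℕ}

attribute [local irreducible] Mop Cop Fo

/-- The symbol of the partial derivative divided by `⟨ξ⟩`. -/
noncomputable def sg (j : Fin d) (ξ : Sp d) : ℂ := (2 * π * Complex.I * ξ j) * dd ξ

lemma norm_sg_sq (j : Fin d) (ξ : Sp d) : ‖sg j ξ‖ ^ 2 = 4 * π ^ 2 * ((ξ j) ^ 2 * jj ξ) := by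
  unfold sg
  rw [norm_mul, mul_pow, norm_dd_sq, norm_mul, norm_mul, norm_mul, Complex.norm_I,
    Complex.norm_real, Complex.norm_real, Real.norm_of_nonneg Real.pi_pos.le, Real.norm_eq_abs]
  rw [mul_pow, sq_abs]
  simp
  ring

lemma abs_apply_le (ξ : Sp d) (j : Fin d) : |ξ j| ≤ ‖ξ‖ := by
  have h2 := PiLp.norm_apply_le ξ j
  simpa using h2

lemma good_sg (j : Fin d) : Good (sg (d := d) j) := by
  refine ⟨?_, 2 * π, fun ξ => ?_⟩
  · apply Continuous.measurable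
    unfold sg
    apply Continuous.mul _ continuous_dd
    apply Continuous.mul continuous_const
    apply Complex.continuous_ofReal.comp
    exact (EuclideanSpace.proj j : Sp d →L[ℝ] ℝ).continuous
  · have hπ := Real.pi_pos
    have h := norm_sg_sq j ξ
    have h1 : (ξ j) ^ 2 * jj ξ ≤ 1 := by
      unfold jj
      rw [← div_eq_mul_inv, div_le_one (by positivity), ← sq_abs]
      have := abs_apply_le ξ j
      have h0 := abs_nonneg (ξ j)
      nlinarith
    have h2 : ‖sg j ξ‖ ^ 2 ≤ (2 * π) ^ 2 := by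
      rw [h]
      nlinarith [sq_nonneg π]
    exact (abs_le_of_sq_le_sq' h2 (by positivity)).2

lemma sum_sq (ξ : Sp d) : ∑ j, (ξ j) ^ 2 = ‖ξ‖ ^ 2 := by
  rw [EuclideanSpace.norm_sq_eq]
  simp

/-- The norm of `Φ` in terms of the function and its derivatives. -/
lemma norm_split (Φ : HS d) : ‖Φ‖ ^ 2 = ‖Mop dd Φ‖ ^ 2 +
    1 / (4 * π ^ 2) * ∑ j, ‖Mop (sg j) Φ‖ ^ 2 := by
  have hπ := Real.pi_pos
  rw [L2_norm_sq, L2_norm_sq (Mop dd Φ)]
  have e1 : ∀ j, ‖Mop (sg j) Φ‖ ^ 2 = ∫ ξ, ‖(Mop (sg j) Φ) ξ‖ ^ 2 := fun j => L2_norm_sq _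
  simp_rw [e1]
  rw [← integral_finsetSum _ (fun j _ => integrable_sq (Mop (sg j) Φ)), ← integral_const_mul,
    ← integral_add (integrable_sq (Mop dd Φ))
      ((integrable_finsetSum _ fun j _ => integrable_sq (Mop (sg j) Φ)).const_mul _)]
  apply integral_congr_ae
  have h1 : ∀ᵐ ξ, ∀ j, (Mop (sg j) Φ) ξ = sg j ξ * Φ ξ := by
    rw [ae_all_iff]
    intro j
    exact Mop_coe (good_sg j) Φ
  filter_upwards [h1, Mop_coe good_dd Φ] with ξ h2 h3
  simp_rw [h2, h3, norm_mul, mul_pow, norm_sg_sq, norm_dd_sq]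
  rw [← Finset.sum_mul, ← Finset.mul_sum, ← Finset.sum_mul, sum_sq]
  unfold jj
  field_simp

/-- The Fourier side of a test function. -/
lemma test_data {φ : Sp d → ℂ} (hφ : IsTest φ) : ∃ (u Φ : HS d) (w : Fin d → HS d),
    (u =ᵐ[volume] φ) ∧ (∀ j, w j =ᵐ[volume] pd j φ) ∧ Mop dd Φ = Fo u ∧
    (∀ j, Mop (sg j) Φ = Fo (w j)) := by
  obtain ⟨h1, h2⟩ := hφ
  set S : 𝓢(Sp d, ℂ) := h2.toSchwartzMap h1 with hS
  set T : 𝓢(Sp d, ℂ) := 𝓕 S with hT
  have hSφ : ∀ x, S x = φ x := fun x => rfl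
  set m : Fin d → Sp d := fun j => EuclideanSpace.single j 1 with hm
  have hfu : Fo (S.toLp 2) =ᵐ[volume] T := by
    rw [Fo_schwartz]
    exact T.coeFn_toLp 2 volume
  have hmem : MemLp (fun ξ => (jb ξ : ℂ) * T ξ) 2 := by
    have hm : AEStronglyMeasurable (fun ξ => (jb ξ : ℂ) * T ξ) volume :=
      ((Complex.continuous_ofReal.comp continuous_jb).mul T.continuous).aestronglyMeasurable
    rw [memLp_two_iff_integrable_sq_norm hm]
    obtain ⟨C0, -, hC0⟩ := T.decay 0 0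
    obtain ⟨C2, -, hC2⟩ := T.decay 2 0
    refine Integrable.mono' (T.integrable.norm.const_mul (C0 + C2)) (hm.norm.pow 2) ?_
    refine Eventually.of_forall fun ξ => ?_
    rw [Real.norm_of_nonneg (by positivity), norm_mul, Complex.norm_real,
      Real.norm_of_nonneg (jb_pos ξ).le, mul_pow, jb_sq]
    have a0 := hC0 ξ
    have a2 := hC2 ξ
    simp only [pow_zero, one_mul, norm_iteratedFDeriv_zero] at a0 a2
    have h0 := norm_nonneg (T ξ)
    nlinarith
  set Φ : HS d := hmem.toLp _ with hΦ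
  have hdd : Mop dd Φ = Fo (S.toLp 2) := by
    apply Lp.ext
    filter_upwards [Mop_coe good_dd Φ, hmem.coeFn_toLp, hfu] with ξ a1 a2 a3
    rw [a1, a2, a3, ← mul_assoc, dd_mul_jb, one_mul]
  refine ⟨S.toLp 2, Φ, fun j => (∂_{m j} S).toLp 2, ?_, ?_, hdd, ?_⟩
  · filter_upwards [S.coeFn_toLp 2 volume] with x hx
    rw [hx, hSφ]
  · intro j
    filter_upwards [(∂_{m j} S).coeFn_toLp 2 volume] with x hx
    rw [hx, SchwartzMap.lineDerivOp_apply_eq_fderiv]
    rfl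
  · intro j
    apply Lp.ext
    have hf : Fo ((∂_{m j} S).toLp 2) =ᵐ[volume] (𝓕 (∂_{m j} S) : 𝓢(Sp d, ℂ)) := by
      rw [Fo_schwartz]
      exact (𝓕 (∂_{m j} S) : 𝓢(Sp d, ℂ)).coeFn_toLp 2 volume
    filter_upwards [Mop_coe (good_sg j) Φ, hmem.coeFn_toLp, hf] with ξ a1 a2 a3
    rw [a1, a2, a3, SchwartzMap.fourier_lineDerivOp_eq]
    have ht : (inner ℝ · (m j)).HasTemperateGrowth := ((innerSL ℝ).flip (m j)).hasTemperateGrowth
    rw [_root_.smul_apply, SchwartzMap.smulLeftCLM_apply_apply ht]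
    have e1 : ⟪ξ, m j⟫_ℝ = ξ j := by
      rw [hm]; simp [EuclideanSpace.inner_single_right]
    rw [e1]
    unfold sg
    have e2 : (2 * (π : ℂ) * Complex.I * (ξ j : ℂ) * dd ξ * ((jb ξ : ℂ) * T ξ)) =
        (2 * (π : ℂ) * Complex.I * (ξ j : ℂ)) * (dd ξ * (jb ξ : ℂ)) * T ξ := by ring
    rw [e2, dd_mul_jb]
    simp only [smul_eq_mul, Complex.real_smul]
    ring

end MP497a12
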