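import Mathlib
import Pool.Agent.Lib.MP_497a12_mp.GTest

/-!
# From kernels to eigenfunctions
-/

open MeasureTheory Filter Topology Real
open scoped ENNReal ContDiff InnerProductSpace FourierTransform SchwartzMap

namespace MP497a12

variable {d : ℕ}

attribute [local irreducible] Mop Cop Fo

/-- The function that belongs to `F`. -/
noncomputable def psi (F : HS d) : HS d := Fo.symm (Mop dd F)

lemma Fo_psi (F : HS d) : Fo (psi F) = Mop dd F := by
  rw [psi, LinearIsometryEquiv.apply_symm_apply]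

/-- Locally finite families of potentials with form bounds. -/
structure Fam (w : ℕ → Sp d → ℂ) (A M : ℕ → ℝ) : Prop where
  meas : ∀ k, Measurable (w k)
  bd : ∀ k x, ‖w k x‖ ≤ A k
  fb : ∀ k, ∀ F : HS d, ∫ x, ‖w k x‖ * ‖psi F x‖ ^ 2 ≤ M k * ‖F‖ ^ 2
  M0 : ∀ k, 0 ≤ M k
  sum : Summable M
  loc : ∀ N : ℕ, 1 ≤ N → ∀ x : Sp d, ‖x‖ ≤ N → ∀ k, N ≤ k → w k x = 0

variable {w : ℕ → Sp d → ℂ} {A M : ℕ → ℝ}

lemma Fam.good (h : Fam w A M) (k : ℕ) : Good (w k) := ⟨h.meas k, A k, h.bd k⟩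

lemma Fam.shift (h : Fam w A M) (m : ℕ) :
    Fam (fun k => w (k + m)) (fun k => A (k + m)) (fun k => M (k + m)) where
  meas k := h.meas _
  bd k := h.bd _
  fb k := h.fb _
  M0 k := h.M0 _
  sum := (summable_nat_add_iff m).mpr h.sum
  loc N hN x hx k hk := h.loc N hN x hx (k + m) (by omega)

lemma inner_Kv {v : Sp d → ℂ} (Φ F : HS d) : ⟪Φ, Kv v F⟫_ℂ = ⟪psi Φ, Mop v (psi F)⟫_ℂ := by
  have h1 : ⟪Φ, Kv v F⟫_ℂ = ⟪Mop dd Φ, Cop v (Mop dd F)⟫_ℂ := by
    rw [Kv_apply, inner_Mop_left good_dd]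
    congr 3
    funext x
    exact (conj_dd x).symm
  rw [h1, Cop_apply, ← Fo_psi Φ, LinearIsometryEquiv.inner_map_map]
  rfl

lemma integrable_w {v : Sp d → ℂ} (hv : Good v) (f : HS d) :
    Integrable (fun x => ‖v x‖ * ‖f x‖ ^ 2) := by
  obtain ⟨C, hC0, hC⟩ := hv.bound
  refine (integrable_sq f).bdd_mul (c := C) hv.1.norm.aestronglyMeasurable
    (Eventually.of_forall fun x => ?_)
  rw [norm_norm]
  exact hC x

lemma inner_Kv_le {v : Sp d → ℂ} (hv : Good v) {m : ℝ}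
    (hm : ∀ F : HS d, ∫ x, ‖v x‖ * ‖psi F x‖ ^ 2 ≤ m * ‖F‖ ^ 2) (h f : HS d) :
    ‖⟪h, Kv v f⟫_ℂ‖ ≤ (1 / 2) * (m * ‖h‖ ^ 2 + m * ‖f‖ ^ 2) := by
  rw [inner_Kv, inner_Mop hv]
  calc ‖∫ x, (starRingEnd ℂ) (psi h x) * (v x * psi f x)‖
      ≤ ∫ x, (1 / 2) * (‖v x‖ * ‖psi h x‖ ^ 2 + ‖v x‖ * ‖psi f x‖ ^ 2) := by
        apply norm_integral_le_of_norm_le
          (((integrable_w hv (psi h)).add (integrable_w hv (psi f))).const_mul _)
        refine Eventually.of_forall fun x => ?_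
        rw [norm_mul, RCLike.norm_conj, norm_mul]
        simp only [Pi.add_apply]
        nlinarith [mul_nonneg (norm_nonneg (v x)) (sq_nonneg (‖psi h x‖ - ‖psi f x‖))]
    _ = (1 / 2) * ((∫ x, ‖v x‖ * ‖psi h x‖ ^ 2) + ∫ x, ‖v x‖ * ‖psi f x‖ ^ 2) := by
        rw [integral_const_mul, integral_add (integrable_w hv (psi h)) (integrable_w hv (psi f))]
    _ ≤ _ := by
        have a1 := hm h
        have a2 := hm f
        gcongr

lemma norm_le_of_quad {H : Type*} [NormedAddCommGroup H] [InnerProductSpace ℂ H] {m : ℝ}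
    (y f : H) (h : ∀ t : ℝ, ‖⟪(t : ℂ) • y, y⟫_ℂ‖ ≤ (1 / 2) * (m * ‖(t : ℂ) • y‖ ^ 2 + m * ‖f‖ ^ 2))
    (hf : f = 0 → y = 0) : ‖y‖ ≤ m * ‖f‖ := by
  by_cases hy : y = 0
  · rw [hy, norm_zero]
    by_cases hf0 : f = 0
    · rw [hf0]; simp
    · have h0 := h 0
      simp only [Complex.ofReal_zero, zero_smul, inner_zero_left, norm_zero] at h0
      have h1 : 0 < ‖f‖ := norm_pos_iff.mpr hf0
      have h2 : 0 ≤ m * ‖f‖ ^ 2 := by nlinarith
      have h3 : 0 ≤ m := by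
        by_contra hneg
        push Not at hneg
        nlinarith [mul_pos (neg_pos.mpr hneg) (pow_pos h1 2)]
      positivity
  · have hy' : 0 < ‖y‖ := norm_pos_iff.mpr hy
    have hf0 : f ≠ 0 := fun h0 => hy (hf h0)
    have hf' : 0 < ‖f‖ := norm_pos_iff.mpr hf0
    have h1 := h (‖f‖ / ‖y‖)
    have h2 : ‖((‖f‖ / ‖y‖ : ℝ) : ℂ) • y‖ = ‖f‖ := by
      rw [norm_smul, Complex.norm_real, Real.norm_of_nonneg (by positivity)]
      field_simp
    have h3 : ‖⟪((‖f‖ / ‖y‖ : ℝ) : ℂ) • y, y⟫_ℂ‖ = ‖f‖ * ‖y‖ := by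
      rw [inner_smul_left, norm_mul, RCLike.norm_conj, Complex.norm_real,
        Real.norm_of_nonneg (by positivity), inner_self_eq_norm_sq_to_K, norm_pow]
      simp only [RCLike.norm_ofReal, abs_norm]
      field_simp
    rw [h2, h3] at h1
    have h4 : ‖f‖ * ‖y‖ ≤ ‖f‖ * (m * ‖f‖) := by nlinarith
    exact le_of_mul_le_mul_left h4 hf'

lemma Kv_norm_le {v : Sp d → ℂ} (hv : Good v) {m : ℝ} (hm0 : 0 ≤ m)
    (hm : ∀ F : HS d, ∫ x, ‖v x‖ * ‖psi F x‖ ^ 2 ≤ m * ‖F‖ ^ 2) : ‖Kv v‖ ≤ m := by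
  apply ContinuousLinearMap.opNorm_le_bound _ hm0
  intro f
  apply norm_le_of_quad
  · intro t
    exact inner_Kv_le hv hm _ f
  · intro h
    rw [h, map_zero]

/-- The total potential without the factor. -/
noncomputable def VT (w : ℕ → Sp d → ℂ) (x : Sp d) : ℂ := ∑' k, w k x

lemma Fam.eq_sum (h : Fam w A M) {N : ℕ} (hN : 1 ≤ N) {x : Sp d} (hx : ‖x‖ ≤ N) :
    VT w x = ∑ k ∈ Finset.range N, w k x := by
  apply tsum_eq_sum
  intro k hk
  exact h.loc N hN x hx k (by simpa using hk)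

lemma exists_N (x : Sp d) : ∃ N : ℕ, 1 ≤ N ∧ ‖x‖ ≤ N := by
  obtain ⟨N, hN⟩ := exists_nat_ge ‖x‖
  exact ⟨max N 1, le_max_right _ _, hN.trans (by exact_mod_cast le_max_left _ _)⟩

lemma Fam.hasSum (h : Fam w A M) (x : Sp d) : Summable (fun k => w k x) := by
  obtain ⟨N, hN, hx⟩ := exists_N x
  apply summable_of_ne_finset_zero (s := Finset.range N)
  intro k hk
  exact h.loc N hN x hx k (by simpa using hk)

lemma Fam.hasSum_norm (h : Fam w A M) (x : Sp d) : Summable (fun k => ‖w k x‖) := by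
  obtain ⟨N, hN, hx⟩ := exists_N x
  apply summable_of_ne_finset_zero (s := Finset.range N)
  intro k hk
  rw [h.loc N hN x hx k (by simpa using hk), norm_zero]

lemma Fam.measurable (h : Fam w A M) : Measurable (VT w) := by
  apply measurable_of_tendsto_metrizable
    (f := fun N x => ∑ k ∈ Finset.range N, w k x)
    (fun N => Finset.measurable_fun_sum _ fun k _ => h.meas k)
  rw [tendsto_pi_nhds]
  intro x
  exact (h.hasSum x).hasSum.tendsto_sum_nat

/-- The total form bound. -/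
lemma Fam.total (h : Fam w A M) (F : HS d) :
    Integrable (fun x => ‖VT w x‖ * ‖psi F x‖ ^ 2) ∧
    ∫ x, ‖VT w x‖ * ‖psi F x‖ ^ 2 ≤ (∑' k, M k) * ‖F‖ ^ 2 := by
  have hm : AEStronglyMeasurable (fun x => ‖VT w x‖ * ‖psi F x‖ ^ 2) volume :=
    h.measurable.norm.aestronglyMeasurable.mul ((Lp.aestronglyMeasurable (psi F)).norm.pow 2)
  have hS : Summable (fun k => M k * ‖F‖ ^ 2) := h.sum.mul_right _
  have key : ∫⁻ x, ENNReal.ofReal (‖VT w x‖ * ‖psi F x‖ ^ 2) ≤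
      ENNReal.ofReal ((∑' k, M k) * ‖F‖ ^ 2) := by
    calc ∫⁻ x, ENNReal.ofReal (‖VT w x‖ * ‖psi F x‖ ^ 2)
        ≤ ∫⁻ x, ∑' k, ENNReal.ofReal (‖w k x‖ * ‖psi F x‖ ^ 2) := by
          apply lintegral_mono
          intro x
          simp only
          have h1 : Summable (fun k => ‖w k x‖ * ‖psi F x‖ ^ 2) := (h.hasSum_norm x).mul_right _
          rw [← ENNReal.ofReal_tsum_of_nonneg (fun k => by positivity) h1]
          apply ENNReal.ofReal_le_ofReal
          rw [tsum_mul_right]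
          gcongr
          exact norm_tsum_le_tsum_norm (h.hasSum_norm x)
      _ = ∑' k, ∫⁻ x, ENNReal.ofReal (‖w k x‖ * ‖psi F x‖ ^ 2) := by
          apply lintegral_tsum
          intro k
          exact ((integrable_w (h.good k) (psi F)).aestronglyMeasurable).aemeasurable.ennreal_ofReal
      _ = ∑' k, ENNReal.ofReal (∫ x, ‖w k x‖ * ‖psi F x‖ ^ 2) := by
          congr 1
          funext k
          rw [ofReal_integral_eq_lintegral_ofReal (integrable_w (h.good k) (psi F))]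
          exact Eventually.of_forall fun x => by positivity
      _ ≤ ∑' k, ENNReal.ofReal (M k * ‖F‖ ^ 2) := by
          apply ENNReal.tsum_le_tsum
          intro k
          exact ENNReal.ofReal_le_ofReal (h.fb k F)
      _ = ENNReal.ofReal ((∑' k, M k) * ‖F‖ ^ 2) := by
          rw [← ENNReal.ofReal_tsum_of_nonneg (fun k => mul_nonneg (h.M0 k) (by positivity)) hS,
            tsum_mul_right]
  have hint : Integrable (fun x => ‖VT w x‖ * ‖psi F x‖ ^ 2) := by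
    refine ⟨hm, ?_⟩
    rw [hasFiniteIntegral_iff_ofReal (Eventually.of_forall fun x => by positivity)]
    exact key.trans_lt ENNReal.ofReal_lt_top
  refine ⟨hint, ?_⟩
  rw [← ofReal_integral_eq_lintegral_ofReal hint
    (Eventually.of_forall fun x => by positivity)] at key
  have h0 : 0 ≤ (∑' k, M k) * ‖F‖ ^ 2 := mul_nonneg (tsum_nonneg h.M0) (by positivity)
  exact (ENNReal.ofReal_le_ofReal_iff h0).mp key

end MP497a12
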