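import Mathlib
import Pool.Agent.Lib.MP_497a12_mp.GBridge

/-!
# The weak equation and admissibility
-/

open MeasureTheory Filter Topology Real
open scoped ENNReal ContDiff InnerProductSpace FourierTransform SchwartzMap

namespace MP497a12

variable {d : ℕ} {w : ℕ → Sp d → ℂ} {A M : ℕ → ℝ}

attribute [local irreducible] Mop Cop Fo

/-- The total operator. -/
noncomputable def KT (w : ℕ → Sp d → ℂ) : HS d →L[ℂ] HS d := ∑' k, Kv (w k)

lemma Fam.summable_K (h : Fam w A M) : Summable (fun k => Kv (w k)) :=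
  Summable.of_norm_bounded h.sum fun k => Kv_norm_le (h.good k) (h.M0 k) (h.fb k)

lemma Fam.tendsto_K (h : Fam w A M) :
    Tendsto (fun N => ∑ k ∈ Finset.range N, Kv (w k)) atTop (𝓝 (KT w)) :=
  h.summable_K.hasSum.tendsto_sum_nat

lemma isTest_conj {φ : Sp d → ℂ} (hφ : IsTest φ) :
    IsTest (fun x => (starRingEnd ℂ) (φ x)) :=
  ⟨Complex.conjCLE.contDiff.comp hφ.1, hφ.2.comp_left (map_zero _)⟩

lemma pd_conj {φ : Sp d → ℂ} (hφ : IsTest φ) (j : Fin d) (x : Sp d) :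
    pd j (fun x => (starRingEnd ℂ) (φ x)) x = (starRingEnd ℂ) (pd j φ x) := by
  unfold pd
  have h1 : HasFDerivAt φ (fderiv ℝ φ x) x :=
    (hφ.1.differentiable (by simp) x).hasFDerivAt
  have h2 := (Complex.conjCLE.toContinuousLinearMap.hasFDerivAt (x := φ x)).comp x h1
  have h3 : fderiv ℝ (fun x => (starRingEnd ℂ) (φ x)) x =
      (Complex.conjCLE.toContinuousLinearMap).comp (fderiv ℝ φ x) := h2.fderiv
  rw [h3]
  rfl

/-- The data for the pairing with a test function. -/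
lemma pair_data {φ : Sp d → ℂ} (hφ : IsTest φ) : ∃ (u Φ : HS d) (y : Fin d → HS d),
    (∀ f : HS d, ⟪u, f⟫_ℂ = ∫ x, f x * φ x) ∧
    (∀ j, ∀ f : HS d, ⟪y j, f⟫_ℂ = ∫ x, f x * pd j φ x) ∧ Mop dd Φ = Fo u ∧
    (∀ j, Mop (sg j) Φ = Fo (y j)) ∧ (u =ᵐ[volume] fun x => (starRingEnd ℂ) (φ x)) := by
  obtain ⟨u, Φ, y, h1, h2, h3, h4⟩ := test_data (isTest_conj hφ)
  refine ⟨u, Φ, y, fun f => ?_, fun j f => ?_, h3, h4, h1⟩
  · rw [inner_eq]
    apply integral_congr_ae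
    filter_upwards [h1] with x hx
    rw [hx, Complex.conj_conj, mul_comm]
  · rw [inner_eq]
    apply integral_congr_ae
    filter_upwards [h2 j] with x hx
    rw [hx, pd_conj hφ, Complex.conj_conj, mul_comm]

lemma psi_eq {u Φ : HS d} (h : Mop dd Φ = Fo u) : psi Φ = u := by
  rw [psi, h, LinearIsometryEquiv.symm_apply_apply]

lemma conj_sg (j : Fin d) (ξ : Sp d) : (starRingEnd ℂ) (sg j ξ) = - sg j ξ := by
  unfold sg
  simp only [map_mul, Complex.conj_I, Complex.conj_ofReal, map_ofNat, conj_dd]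
  ring

/-- The weak derivatives. -/
noncomputable def Gj (F : HS d) (j : Fin d) : HS d := Fo.symm (Mop (sg j) F)

lemma Fo_Gj (F : HS d) (j : Fin d) : Fo (Gj F j) = Mop (sg j) F := by
  rw [Gj, LinearIsometryEquiv.apply_symm_apply]

lemma weakGrad (F : HS d) : IsWeakGrad (psi F) (fun j => Gj F j) := by
  intro φ hφ j
  obtain ⟨u, Φ, y, hu, hy, h3, h4, -⟩ := pair_data hφ
  rw [← hy j (psi F), ← hu (Gj F j), ← LinearIsometryEquiv.inner_map_map Fo (y j),
    ← LinearIsometryEquiv.inner_map_map Fo u, ← h4 j, ← h3, Fo_psi, Fo_Gj,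
    inner_Mop_left (good_sg j), inner_Mop_left good_dd]
  have e1 : Mop (fun x => (starRingEnd ℂ) (sg j x)) (Mop dd F) =
      - Mop (fun x => (starRingEnd ℂ) (dd x)) (Mop (sg j) F) := by
    rw [Mop_mul (good_sg j).conj good_dd, Mop_mul good_dd.conj (good_sg j)]
    apply Lp.ext
    filter_upwards [Mop_coe ((good_sg j).conj.mul good_dd) F,
      Mop_coe (good_dd.conj.mul (good_sg j)) F,
      Lp.coeFn_neg (Mop (fun x => (starRingEnd ℂ) (dd x) * sg j x) F)] with x a1 a2 a3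
    rw [a1, a3, Pi.neg_apply, a2, conj_sg, conj_dd]
    ring
  rw [e1, inner_neg_right]

lemma sum_sg (ξ : Sp d) : ∑ j, (starRingEnd ℂ) (sg j ξ) * sg j ξ =
    ((4 * π ^ 2 : ℝ) : ℂ) * pS ξ := by
  have h1 : ∀ j, (starRingEnd ℂ) (sg j ξ) * sg j ξ = ((4 * π ^ 2 * ((ξ j) ^ 2 * jj ξ) : ℝ) : ℂ) := by
    intro j
    rw [← norm_sg_sq, mul_comm, Complex.mul_conj, Complex.normSq_eq_norm_sq]
  simp_rw [h1]
  rw [← Complex.ofReal_sum, ← Finset.mul_sum, ← Finset.sum_mul, sum_sq]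
  unfold pS jj
  push_cast
  ring

lemma dd_sq (ξ : Sp d) : (starRingEnd ℂ) (dd ξ) * dd ξ = qS ξ := by
  rw [mul_comm, Complex.mul_conj, Complex.normSq_eq_norm_sq, norm_dd_sq]
  unfold qS jj
  rw [one_div]

lemma sum_grad {Φ F : HS d} {y : Fin d → HS d} (h4 : ∀ j, Mop (sg j) Φ = Fo (y j)) :
    ∑ j, ⟪y j, Gj F j⟫_ℂ = ((4 * π ^ 2 : ℝ) : ℂ) * ⟪Φ, Mop pS F⟫_ℂ := by
  have e1 : ∀ j, ⟪y j, Gj F j⟫_ℂ =
      ∫ x, (starRingEnd ℂ) (Φ x) * (((starRingEnd ℂ) (sg j x) * sg j x) * F x) := by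
    intro j
    rw [← LinearIsometryEquiv.inner_map_map Fo, ← h4 j, Fo_Gj, inner_Mop_left (good_sg j),
      Mop_mul (good_sg j).conj (good_sg j), inner_Mop ((good_sg j).conj.mul (good_sg j))]
  simp_rw [e1]
  rw [← integral_finsetSum]
  · rw [inner_Mop good_pS, ← integral_const_mul]
    apply integral_congr_ae
    refine Eventually.of_forall fun x => ?_
    simp only
    rw [← Finset.mul_sum, ← Finset.sum_mul, sum_sg]
    ring
  · intro j _
    have h := (Lp.memLp Φ).star.integrable_mul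
      (((good_sg j).conj.mul (good_sg j)).memLp (Lp.memLp F))
    exact h

lemma inner_psi {u Φ F : HS d} (h : Mop dd Φ = Fo u) : ⟪u, psi F⟫_ℂ = ⟪Φ, Mop qS F⟫_ℂ := by
  rw [← LinearIsometryEquiv.inner_map_map Fo, ← h, Fo_psi, inner_Mop_left good_dd,
    Mop_mul good_dd.conj good_dd]
  congr 3
  funext x
  exact dd_sq x

lemma inner_KT (h : Fam w A M) {φ : Sp d → ℂ} (hφ : IsTest φ) {u Φ : HS d}
    (hu : ∀ f : HS d, ⟪u, f⟫_ℂ = ∫ x, f x * φ x) (h3 : Mop dd Φ = Fo u) (F : HS d) :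
    ⟪Φ, KT w F⟫_ℂ = ∫ x, VT w x * psi F x * φ x := by
  -- the support
  obtain ⟨R, hR⟩ := hφ.2.isCompact.isBounded.subset_closedBall 0
  obtain ⟨N0, hN0⟩ := exists_nat_ge R
  have hsupp : ∀ x, φ x ≠ 0 → ‖x‖ ≤ (max N0 1 : ℕ) := by
    intro x hx
    have h1 : x ∈ Metric.closedBall (0 : Sp d) R := hR (subset_tsupport φ hx)
    have h2 : ‖x‖ ≤ R := by simpa using h1
    have h3 : (N0 : ℝ) ≤ (max N0 1 : ℕ) := by exact_mod_cast le_max_left _ _
    linarith
  have hfin : ∀ N, max N0 1 ≤ N → ⟪Φ, (∑ k ∈ Finset.range N, Kv (w k)) F⟫_ℂ =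
      ∫ x, VT w x * psi F x * φ x := by
    intro N hN
    rw [_root_.sum_apply, inner_sum]
    have e1 : ∀ k, ⟪Φ, Kv (w k) F⟫_ℂ = ∫ x, (w k x * psi F x) * φ x := by
      intro k
      rw [inner_Kv, psi_eq h3, hu]
      apply integral_congr_ae
      filter_upwards [Mop_coe (h.good k) (psi F)] with x hx
      rw [hx]
    simp_rw [e1]
    have hi : ∀ k, Integrable (fun x => (w k x * psi F x) * φ x) := by
      intro k
      have h1 : MemLp φ 2 := hφ.1.continuous.memLp_of_hasCompactSupport hφ.2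
      exact ((h.good k).memLp (Lp.memLp (psi F))).integrable_mul h1
    rw [← integral_finsetSum _ fun k _ => hi k]
    apply integral_congr_ae
    refine Eventually.of_forall fun x => ?_
    simp only
    by_cases hx : φ x = 0
    · simp [hx]
    · have h1 : ‖x‖ ≤ N := (hsupp x hx).trans (by exact_mod_cast hN)
      rw [h.eq_sum (le_trans (le_max_right _ _) hN) h1, Finset.sum_mul, Finset.sum_mul]
  have hlim : Tendsto (fun N => ⟪Φ, (∑ k ∈ Finset.range N, Kv (w k)) F⟫_ℂ) atTop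
      (𝓝 ⟪Φ, KT w F⟫_ℂ) := by
    have h1 : Continuous (fun T : HS d →L[ℂ] HS d => ⟪Φ, T F⟫_ℂ) := by fun_prop
    exact (h1.tendsto _).comp h.tendsto_K
  refine tendsto_nhds_unique hlim ?_
  apply Tendsto.congr' _ tendsto_const_nhds
  filter_upwards [eventually_ge_atTop (max N0 1)] with N hN
  exact (hfin N hN).symm

/-- The potential. -/
noncomputable def VW (w : ℕ → Sp d → ℂ) (x : Sp d) : ℂ := ((4 * π ^ 2 : ℝ) : ℂ) * VT w x

/-- **From kernels to eigenfunctions.** -/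
theorem bridge (h : Fam w A M) {hb : ℝ} (hhb : 0 < hb) {z : ℂ} {F : HS d}
    (hF : (Mop pS + (((hb ^ 2)⁻¹ : ℝ) : ℂ) • KT w - z • Mop qS : HS d →L[ℂ] HS d) F = 0) :
    Graph (VW w) hb (psi F) (0 + (((4 * π ^ 2 * hb ^ 2 : ℝ) : ℂ) * z) • (psi F : Sp d → ℂ)) := by
  have hπ := Real.pi_pos
  refine ⟨Lp.memLp _, ?_, fun j => Gj F j, fun j => Lp.memLp _, weakGrad F, ?_, ?_⟩
  · rw [zero_add]
    exact (Lp.memLp _).const_smul _
  · have := (h.total F).1.const_mul (4 * π ^ 2)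
    refine this.congr (Eventually.of_forall fun x => ?_)
    simp only [VW]
    rw [norm_mul, Complex.norm_real, Real.norm_of_nonneg (by positivity)]
    ring
  · intro φ hφ
    obtain ⟨u, Φ, y, hu, hy, h3, h4, -⟩ := pair_data hφ
    have e1 : ∑ j, (∫ x, Gj F j x * pd j φ x) = ((4 * π ^ 2 : ℝ) : ℂ) * ⟪Φ, Mop pS F⟫_ℂ := by
      rw [← sum_grad h4]
      apply Finset.sum_congr rfl
      intro j _
      rw [hy]
    have e2 : ∫ x, VW w x * psi F x * φ x = ((4 * π ^ 2 : ℝ) : ℂ) * ⟪Φ, KT w F⟫_ℂ := by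
      rw [inner_KT h hφ hu h3, ← integral_const_mul]
      congr 1
      funext x
      unfold VW
      ring
    have e3 : ∫ x, (0 + (((4 * π ^ 2 * hb ^ 2 : ℝ) : ℂ) * z) • (psi F : Sp d → ℂ)) x * φ x =
        (((4 * π ^ 2 * hb ^ 2 : ℝ) : ℂ) * z) * ⟪Φ, Mop qS F⟫_ℂ := by
      rw [← inner_psi h3, hu, ← integral_const_mul]
      congr 1
      funext x
      simp only [Pi.add_apply, Pi.zero_apply, Pi.smul_apply, smul_eq_mul, zero_add]
      ring
    have e4 : ⟪Φ, (Mop pS + (((hb ^ 2)⁻¹ : ℝ) : ℂ) • KT w - z • Mop qS :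
        HS d →L[ℂ] HS d) F⟫_ℂ = 0 := by
      rw [hF, inner_zero_right]
    have e5 : ⟪Φ, Mop pS F⟫_ℂ + (((hb ^ 2)⁻¹ : ℝ) : ℂ) * ⟪Φ, KT w F⟫_ℂ -
        z * ⟪Φ, Mop qS F⟫_ℂ = 0 := by
      rw [← e4, _root_.sub_apply, _root_.add_apply, _root_.smul_apply, _root_.smul_apply,
        inner_sub_right, inner_add_right, inner_smul_right, inner_smul_right]
    rw [e1, e2, e3]
    have hb0 : (hb : ℂ) ≠ 0 := by exact_mod_cast hhb.ne'
    have hb1 : (hb : ℂ) ^ 2 * (((hb ^ 2)⁻¹ : ℝ) : ℂ) = 1 := by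
      push_cast
      field_simp
    push_cast at e5 ⊢
    push_cast at hb1
    linear_combination (4 * (π : ℂ) ^ 2 * (hb : ℂ) ^ 2) * e5 - (4 * (π : ℂ) ^ 2 *
      ⟪Φ, KT w F⟫_ℂ) * hb1

lemma psi_ne {F : HS d} (hF : F ≠ 0) : ¬ ((psi F : Sp d → ℂ) =ᵐ[volume] 0) := by
  intro h0
  apply hF
  have h1 : psi F = 0 := by
    apply Lp.ext
    filter_upwards [h0, Lp.coeFn_zero ℂ 2 (volume : Measure (Sp d))] with x a1 a2
    rw [a1, a2]
  have h2 : Mop dd F = 0 := by rw [← Fo_psi, h1, map_zero]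
  apply Lp.ext
  have h3 : ∀ᵐ x, (Mop dd F) x = 0 := by
    rw [h2]
    filter_upwards [Lp.coeFn_zero ℂ 2 (volume : Measure (Sp d))] with x hx
    rw [hx]; rfl
  filter_upwards [h3, Mop_coe good_dd F, Lp.coeFn_zero ℂ 2 (volume : Measure (Sp d))]
    with x a1 a2 a3
  rw [a2, mul_eq_zero] at a1
  rw [a3, Pi.zero_apply]
  rcases a1 with a1 | a1
  · exact absurd a1 (dd_ne_zero x)
  · exact a1

lemma hcs_sum (hcs : ∀ k, HasCompactSupport (w k)) (N : ℕ) :
    HasCompactSupport (fun x => ∑ k ∈ Finset.range N, w k x) := by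
  induction N with
  | zero => simp [HasCompactSupport, tsupport]
  | succ N ih =>
    simp_rw [Finset.sum_range_succ]
    exact HasCompactSupport.add ih (hcs N)

/-- **Admissibility.** -/
theorem Fam.admissible (h : Fam w A M)
    (hcs : ∀ k, HasCompactSupport (w k)) : Admissible (VW w) := by
  have hπ := Real.pi_pos
  refine ⟨h.measurable.const_mul _, fun η hη => ?_⟩
  have h1 : Tendsto (fun N => 4 * π ^ 2 * ∑' k, M (k + N)) atTop (𝓝 (4 * π ^ 2 * 0)) :=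
    (tendsto_sum_nat_add M).const_mul _
  rw [mul_zero] at h1
  obtain ⟨N, hN⟩ := (h1.eventually (gt_mem_nhds hη)).exists
  set V1 : Sp d → ℂ := fun x => ((4 * π ^ 2 : ℝ) : ℂ) * ∑ k ∈ Finset.range N, w k x with hV1
  have hsub : ∀ x, VW w x - V1 x = ((4 * π ^ 2 : ℝ) : ℂ) * VT (fun k => w (k + N)) x := by
    intro x
    rw [hV1]
    unfold VW VT
    simp only
    rw [← mul_sub]
    congr 1
    have := (h.hasSum x).sum_add_tsum_nat_add N
    rw [← this]
    ring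
  refine ⟨V1, ?_, ⟨4 * π ^ 2 * ∑ k ∈ Finset.range N, A k, fun x => ?_⟩, ?_, fun φ hφ => ?_⟩
  · exact (Finset.measurable_fun_sum _ fun k _ => h.meas k).const_mul _
  · rw [hV1]
    simp only
    rw [norm_mul, Complex.norm_real, Real.norm_of_nonneg (by positivity)]
    gcongr
    exact (norm_sum_le _ _).trans (Finset.sum_le_sum fun k _ => h.bd k x)
  · exact (hcs_sum hcs N).mul_left
  · obtain ⟨u, Φ, y, hu, hy, h3, h4⟩ := test_data hφ
    have ht := (h.shift N).total Φ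
    have hpsi : psi Φ = u := psi_eq h3
    rw [hpsi] at ht
    have hi : Integrable (fun x => ‖VW w x - V1 x‖ * ‖φ x‖ ^ 2) := by
      refine (ht.1.const_mul (4 * π ^ 2)).congr ?_
      filter_upwards [hu] with x hx
      rw [hsub, norm_mul, Complex.norm_real, Real.norm_of_nonneg (by positivity), hx]
      ring
    refine ⟨hi, ?_⟩
    have e1 : ∫ x, ‖VW w x - V1 x‖ * ‖φ x‖ ^ 2 =
        4 * π ^ 2 * ∫ x, ‖VT (fun k => w (k + N)) x‖ * ‖u x‖ ^ 2 := by
      rw [← integral_const_mul]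
      apply integral_congr_ae
      filter_upwards [hu] with x hx
      rw [hsub, norm_mul, Complex.norm_real, Real.norm_of_nonneg (by positivity), hx]
      ring
    have hΦ : ‖Φ‖ ^ 2 ≤ (∑ j, (∫ x, ‖pd j φ x‖ ^ 2)) + (∫ x, ‖φ x‖ ^ 2) := by
      rw [norm_split, h3, LinearIsometryEquiv.norm_map]
      simp_rw [h4, LinearIsometryEquiv.norm_map]
      have a1 : ‖u‖ ^ 2 = ∫ x, ‖φ x‖ ^ 2 := by
        rw [L2_norm_sq]
        apply integral_congr_ae
        filter_upwards [hu] with x hx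
        rw [hx]
      have a2 : ∀ j, ‖y j‖ ^ 2 = ∫ x, ‖pd j φ x‖ ^ 2 := by
        intro j
        rw [L2_norm_sq]
        apply integral_congr_ae
        filter_upwards [hy j] with x hx
        rw [hx]
      simp_rw [a2]
      rw [a1, add_comm]
      have a3 : 0 ≤ ∑ j, (∫ x, ‖pd j φ x‖ ^ 2) :=
        Finset.sum_nonneg fun j _ => integral_nonneg fun x => by positivity
      have a4 : 1 / (4 * π ^ 2) ≤ 1 := by
        rw [div_le_one (by positivity)]
        have := Real.pi_gt_three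
        nlinarith
      have a5 : 1 / (4 * π ^ 2) * ∑ j, (∫ x, ‖pd j φ x‖ ^ 2) ≤
          1 * ∑ j, (∫ x, ‖pd j φ x‖ ^ 2) := by gcongr
      linarith
    rw [e1]
    have h0 : 0 ≤ ∑' k, M (k + N) := tsum_nonneg fun k => h.M0 _
    calc 4 * π ^ 2 * ∫ x, ‖VT (fun k => w (k + N)) x‖ * ‖u x‖ ^ 2
        ≤ 4 * π ^ 2 * ((∑' k, M (k + N)) * ‖Φ‖ ^ 2) := by
          have := ht.2
          gcongr
      _ = (4 * π ^ 2 * ∑' k, M (k + N)) * ‖Φ‖ ^ 2 := by ring
      _ ≤ η * ((∑ j, (∫ x, ‖pd j φ x‖ ^ 2)) + (∫ x, ‖φ x‖ ^ 2)) := by gcongr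

end MP497a12
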