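import Mathlib
import Pool.Agent.Lib.MP_497a12_mp.GWeak
import Pool.Agent.Lib.MP_497a12_mp.GInd

/-!
# Positions of the pieces
-/

open MeasureTheory Filter Topology Real
open scoped ENNReal ContDiff InnerProductSpace FourierTransform SchwartzMap

namespace MP497a12

variable {d : ℕ}

attribute [local irreducible] Mop Cop Fo

lemma Mop_ch_inv (θ : Sp d) (f : HS d) : Mop (ch θ) (Mop (ch (-θ)) f) = f := by
  rw [Mop_mul (good_ch θ) (good_ch (-θ))]
  exact Mop_eq_one (fun x => ch_mul_neg θ x) f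

lemma Mop_ch_inv' (θ : Sp d) (f : HS d) : Mop (ch (-θ)) (Mop (ch θ) f) = f := by
  rw [Mop_mul (good_ch (-θ)) (good_ch θ)]
  exact Mop_eq_one (fun x => ch_neg_mul θ x) f

lemma norm_Mop_ch (θ : Sp d) (f : HS d) : ‖Mop (ch θ) f‖ = ‖f‖ := by
  rw [Mop_ch_eq, LinearIsometryEquiv.norm_map, LinearIsometry.norm_map,
    LinearIsometryEquiv.norm_map]

/-- Translations in position space. -/
noncomputable def Tm (x : Sp d) : HS d ≃ₗᵢ[ℂ] HS d where
  toFun := Mop (ch (-x))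
  invFun := Mop (ch x)
  map_add' := map_add _
  map_smul' := map_smul _
  left_inv f := Mop_ch_inv x f
  right_inv f := Mop_ch_inv' x f
  norm_map' f := norm_Mop_ch (-x) f

lemma Tm_apply (x : Sp d) (f : HS d) : Tm x f = Mop (ch (-x)) f := rfl

lemma Tm_symm_apply (x : Sp d) (f : HS d) : (Tm x).symm f = Mop (ch x) f := rfl

lemma Tm_neg (x : Sp d) : Tm (-x) = (Tm x).symm := by
  ext1 f
  rw [Tm_apply, Tm_symm_apply, neg_neg]

lemma Tm_Mop {a : Sp d → ℂ} (ha : Good a) (x : Sp d) (f : HS d) :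
    Tm x (Mop a f) = Mop a (Tm x f) := by
  rw [Tm_apply, Tm_apply, Mop_comm (good_ch (-x)) ha]

lemma Tm_symm_Mop {a : Sp d → ℂ} (ha : Good a) (x : Sp d) (f : HS d) :
    (Tm x).symm (Mop a f) = Mop a ((Tm x).symm f) := by
  rw [Tm_symm_apply, Tm_symm_apply, Mop_comm (good_ch x) ha]

lemma Tm_weak (h f : HS d) :
    Tendsto (fun x : Sp d => ⟪h, Tm x f⟫_ℂ) (cocompact (Sp d)) (𝓝 0) := by
  have h1 := tendsto_integral_exp_inner_smul_cocompact
    (f := fun ξ : Sp d => (starRingEnd ℂ) (h ξ) * f ξ)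
  refine h1.congr fun x => ?_
  rw [Tm_apply, inner_Mop (good_ch (-x))]
  apply integral_congr_ae
  refine Eventually.of_forall fun ξ => ?_
  simp only
  have e : (Real.fourierChar (-⟪ξ, x⟫_ℝ) : Circle) • ((starRingEnd ℂ) (h ξ) * f ξ) =
      ch (-x) ξ * ((starRingEnd ℂ) (h ξ) * f ξ) := by
    rw [Circle.smul_def, Real.fourierChar_apply, smul_eq_mul]
    congr 1
    unfold ch
    congr 1
    rw [inner_neg_left, real_inner_comm]
    push_cast
    ring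
  rw [e]
  ring

/-- Translation of the potential. -/
lemma Cop_translate {v : Sp d → ℂ} (hv : Good v) (x : Sp d) (f : HS d) :
    Cop (fun y => v (y - x)) f = Tm x (Cop v ((Tm x).symm f)) := by
  have h1 : ∀ g : HS d, Tm x (Fo g) = Fo (Tr x g) := by
    intro g
    rw [Tm_apply, Fo_Tr]
  have h2 : Fo.symm ((Tm x).symm f) = Tr (-x) (Fo.symm f) := by
    have h3 : (Tm x).symm f = Fo (Tr (-x) (Fo.symm f)) := by
      rw [Tm_symm_apply, Fo_Tr, neg_neg, LinearIsometryEquiv.apply_symm_apply]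
    rw [h3, LinearIsometryEquiv.symm_apply_apply]
  rw [Cop_apply, Cop_apply, h1, h2, Tr_Mop hv, Tr_Tr, add_neg_cancel, Tr_zero]

lemma Kv_translate {v : Sp d → ℂ} (hv : Good v) (x : Sp d) :
    Kv (fun y => v (y - x)) = Abs.cj (Tm x) (Kv v) := by
  ext1 f
  rw [Abs.cj_apply, Kv_apply, Kv_apply, Cop_translate hv, Tm_Mop good_dd, Tm_symm_Mop good_dd]

/-- The class of admissible perturbations. -/
def QK (K : HS d →L[ℂ] HS d) : Prop := IsCompactOperator K ∧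
  ∃ c : ℝ, 0 ≤ c ∧ ∀ φ, ‖⟪φ, K φ⟫_ℂ‖ ≤ c * ‖Mop dd φ‖ ^ 2

lemma QK_zero : QK (0 : HS d →L[ℂ] HS d) := by
  refine ⟨isCompactOperator_zero, 0, le_rfl, fun φ => ?_⟩
  simp

lemma QK_add {K L : HS d →L[ℂ] HS d} (hK : QK K) (hL : QK L) : QK (K + L) := by
  obtain ⟨h1, c, hc0, hc⟩ := hK
  obtain ⟨h2, c', hc0', hc'⟩ := hL
  refine ⟨h1.add h2, c + c', by positivity, fun φ => ?_⟩
  rw [_root_.add_apply, inner_add_right, add_mul]
  exact (norm_add_le _ _).trans (add_le_add (hc φ) (hc' φ))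

lemma QK_cj (x : Sp d) {K : HS d →L[ℂ] HS d} (hK : QK K) : QK (Abs.cj (Tm x) K) := by
  obtain ⟨h1, c, hc0, hc⟩ := hK
  refine ⟨Abs.isCompact_cj h1, c, hc0, fun φ => ?_⟩
  have e : ⟪φ, Abs.cj (Tm x) K φ⟫_ℂ = ⟪(Tm x).symm φ, K ((Tm x).symm φ)⟫_ℂ := by
    rw [Abs.cj_apply, ← LinearIsometryEquiv.inner_map_map (Tm x) ((Tm x).symm φ),
      LinearIsometryEquiv.apply_symm_apply]
  rw [e]
  refine (hc _).trans ?_
  rw [← Tm_symm_Mop good_dd, LinearIsometryEquiv.norm_map]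

lemma QK_Kv {v : Sp d → ℂ} (hv : Good v) (hv2 : MemLp v 2) : QK (Kv v) := by
  obtain ⟨C, hC0, hC⟩ := hv.bound
  refine ⟨compact_Kv hv hv2, C, hC0.le, fun φ => ?_⟩
  have h1 : ⟪φ, Kv v φ⟫_ℂ = ⟪Mop dd φ, Cop v (Mop dd φ)⟫_ℂ := by
    rw [Kv_apply, inner_Mop_left good_dd]
    congr 3
    funext x
    exact (conj_dd x).symm
  rw [h1]
  refine (norm_inner_le_norm _ _).trans ?_
  have := Cop_norm_le hv hC (Mop dd φ)
  calc _ ≤ ‖Mop dd φ‖ * (C * ‖Mop dd φ‖) := by gcongr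
    _ = _ := by ring

lemma inner_qS (φ : HS d) : ⟪φ, Mop qS φ⟫_ℂ = ((‖Mop dd φ‖ ^ 2 : ℝ) : ℂ) := by
  have h1 : ⟪Mop dd φ, Mop dd φ⟫_ℂ = ⟪φ, Mop qS φ⟫_ℂ := by
    rw [inner_Mop_left good_dd, Mop_mul good_dd.conj good_dd]
    congr 3
    funext x
    exact dd_sq x
  rw [← h1, inner_self_eq_norm_sq_to_K]
  push_cast
  rfl

lemma inner_pS_im (φ : HS d) : (⟪φ, Mop pS φ⟫_ℂ).im = 0 := by
  have h1 : ⟪φ, Mop pS φ⟫_ℂ = (starRingEnd ℂ) ⟪φ, Mop pS φ⟫_ℂ := by
    rw [inner_conj_symm, inner_Mop_left good_pS]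
    congr 3
    funext x
    unfold pS
    rw [Complex.conj_ofReal]
  exact Complex.conj_eq_iff_im.mp h1.symm

lemma dd_inj {φ : HS d} (h : Mop dd φ = 0) : φ = 0 := by
  apply Lp.ext
  have h3 : ∀ᵐ x, (Mop dd φ) x = 0 := by
    rw [h]
    filter_upwards [Lp.coeFn_zero ℂ 2 (volume : Measure (Sp d))] with x hx
    rw [hx]; rfl
  filter_upwards [h3, Mop_coe good_dd φ, Lp.coeFn_zero ℂ 2 (volume : Measure (Sp d))]
    with x a1 a2 a3
  rw [a2, mul_eq_zero] at a1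
  rw [a3, Pi.zero_apply]
  rcases a1 with a1 | a1
  · exact absurd a1 (dd_ne_zero x)
  · exact a1

/-- The upper half plane. -/
def UH : Set ℂ := {z | 0 < z.im}

lemma isOpen_UH : IsOpen UH := isOpen_lt continuous_const Complex.continuous_im

lemma isPreconnected_UH : IsPreconnected UH := (convex_halfSpace_im_gt 0).isPreconnected

lemma QK_inj {K : HS d →L[ℂ] HS d} (hK : QK K) (g : ℂ) :
    ∃ z ∈ UH, ∀ φ : HS d, (Mop pS + g • K - z • Mop qS : HS d →L[ℂ] HS d) φ = 0 → φ = 0 := by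
  obtain ⟨h1, c, hc0, hc⟩ := hK
  set b := ‖g‖ * c + 1 with hb
  have hb0 : 0 < b := by positivity
  refine ⟨(b : ℂ) * Complex.I, ?_, fun φ hφ => ?_⟩
  · change 0 < ((b : ℂ) * Complex.I).im
    simpa using hb0
  · have h2 : ⟪φ, (Mop pS + g • K - ((b : ℂ) * Complex.I) • Mop qS : HS d →L[ℂ] HS d) φ⟫_ℂ = 0 := by
      rw [hφ, inner_zero_right]
    rw [_root_.sub_apply, _root_.add_apply, _root_.smul_apply, _root_.smul_apply,
      inner_sub_right, inner_add_right, inner_smul_right, inner_smul_right, inner_qS] at h2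
    have h3 := congrArg Complex.im h2
    rw [Complex.sub_im, Complex.add_im, inner_pS_im, Complex.zero_im] at h3
    have h4 : ((b : ℂ) * Complex.I * ((‖Mop dd φ‖ ^ 2 : ℝ) : ℂ)).im = b * ‖Mop dd φ‖ ^ 2 := by
      rw [Complex.im_mul_ofReal]
      simp
    rw [h4] at h3
    have h5 : (g * ⟪φ, K φ⟫_ℂ).im ≤ ‖g‖ * (c * ‖Mop dd φ‖ ^ 2) := by
      refine ((le_abs_self _).trans (Complex.abs_im_le_norm _)).trans ?_
      rw [norm_mul]
      gcongr
      exact hc φ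
    have h6 : ‖Mop dd φ‖ ^ 2 ≤ 0 := by
      have : b * ‖Mop dd φ‖ ^ 2 = ‖g‖ * (c * ‖Mop dd φ‖ ^ 2) + ‖Mop dd φ‖ ^ 2 := by
        rw [hb]; ring
      linarith
    have h7 : ‖Mop dd φ‖ = 0 := by
      have := sq_nonneg ‖Mop dd φ‖
      have h8 : ‖Mop dd φ‖ ^ 2 = 0 := le_antisymm h6 this
      exact pow_eq_zero_iff (by norm_num) |>.mp h8
    exact dd_inj (norm_eq_zero.mp h7)

/-- The free operator is invertible. -/
lemma unit_free {z : ℂ} (hz : z ∈ UH) : IsUnit (Mop (pS (d := d)) - z • Mop qS) := by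
  have hz' : 0 < z.im := hz
  have e : Mop (pS (d := d)) - z • Mop qS = Mop (fun ξ => pS ξ - z * qS ξ) := by
    ext1 f
    rw [_root_.sub_apply, _root_.smul_apply, ← Mop_const_mul good_qS, ← Mop_sub good_pS
      (good_qS.const_mul z)]
  rw [e]
  have hlow : ∀ ξ : Sp d, z.im / (z.im + ‖z‖ + 1) ≤ ‖pS ξ - z * qS ξ‖ := by
    intro ξ
    have hz0 := norm_nonneg z
    have e1 : pS ξ - z * qS ξ = (((‖ξ‖ ^ 2 : ℝ) : ℂ) - z) / ((1 + ‖ξ‖ ^ 2 : ℝ) : ℂ) := by
      unfold pS qS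
      push_cast
      ring
    rw [e1, norm_div, Complex.norm_real, Real.norm_of_nonneg (by positivity),
      le_div_iff₀ (by positivity), div_mul_eq_mul_div, div_le_iff₀ (by positivity)]
    have h1 : z.im ≤ ‖((‖ξ‖ ^ 2 : ℝ) : ℂ) - z‖ := by
      have h2 := Complex.abs_im_le_norm (((‖ξ‖ ^ 2 : ℝ) : ℂ) - z)
      rw [Complex.sub_im, Complex.ofReal_im, zero_sub, abs_neg, abs_of_nonneg hz'.le] at h2
      exact h2
    have h2 : ‖ξ‖ ^ 2 ≤ ‖((‖ξ‖ ^ 2 : ℝ) : ℂ) - z‖ + ‖z‖ := by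
      have h3 := norm_sub_norm_le (((‖ξ‖ ^ 2 : ℝ) : ℂ)) z
      rw [Complex.norm_real, Real.norm_of_nonneg (by positivity)] at h3
      linarith
    nlinarith [norm_nonneg (((‖ξ‖ ^ 2 : ℝ) : ℂ) - z)]
  have hpos : 0 < z.im / (z.im + ‖z‖ + 1) := by
    have := norm_nonneg z
    positivity
  have hg : Good (fun ξ : Sp d => pS ξ - z * qS ξ) := good_pS.sub (good_qS.const_mul z)
  apply isUnit_Mop (b := fun ξ => (pS ξ - z * qS ξ)⁻¹) hg
  · refine ⟨hg.1.inv, (z.im / (z.im + ‖z‖ + 1))⁻¹, fun ξ => ?_⟩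
    rw [norm_inv]
    exact inv_anti₀ hpos (hlow ξ)
  · intro ξ
    apply mul_inv_cancel₀
    intro h
    have := hlow ξ
    rw [h, norm_zero] at this
    linarith

/-- Data of a sequence of pieces. -/
structure Pieces (v : ℕ → Sp d → ℂ) (A ρ M : ℕ → ℝ) : Prop where
  meas : ∀ k, Measurable (v k)
  bd : ∀ k x, ‖v k x‖ ≤ A k
  ρ0 : ∀ k, 0 < ρ k
  supp : ∀ k x, ρ k < ‖x‖ → v k x = 0
  fb : ∀ k x₀, ∀ F : HS d, ∫ x in Metric.closedBall x₀ (ρ k), A k * ‖psi F x‖ ^ 2 ≤ M k * ‖F‖ ^ 2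
  M0 : ∀ k, 0 ≤ M k
  sum : Summable M

variable {v : ℕ → Sp d → ℂ} {A ρ M : ℕ → ℝ}

lemma Pieces.good (h : Pieces v A ρ M) (k : ℕ) : Good (v k) := ⟨h.meas k, A k, h.bd k⟩

lemma Pieces.hcs (h : Pieces v A ρ M) (k : ℕ) (x₀ : Sp d) :
    HasCompactSupport (fun x => v k (x - x₀)) := by
  apply HasCompactSupport.intro (isCompact_closedBall x₀ (ρ k))
  intro x hx
  apply h.supp
  simpa [dist_eq_norm] using hx

lemma Pieces.memLp (h : Pieces v A ρ M) (k : ℕ) : MemLp (v k) 2 := by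
  have h0 : ∀ x, v k x = v k (x - 0) := fun x => by rw [sub_zero]
  have h1 : MemLp ((Metric.closedBall (0 : Sp d) (ρ k)).indicator fun _ => (A k : ℝ)) 2 volume :=
    memLp_indicator_const 2 Metric.isClosed_closedBall.measurableSet (A k)
      (Or.inr (volume_closedBall_ne_top 0 _))
  refine h1.mono (h.meas k).aestronglyMeasurable (Eventually.of_forall fun x => ?_)
  by_cases hx : x ∈ Metric.closedBall (0 : Sp d) (ρ k)
  · rw [Set.indicator_of_mem hx]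
    exact (h.bd k x).trans (le_abs_self _)
  · rw [h.supp k x (by simpa using hx), norm_zero]
    exact norm_nonneg _

/-- The families built from pieces. -/
lemma Pieces.fam (h : Pieces v A ρ M) {x : ℕ → Sp d}
    (hx : ∀ k : ℕ, 1 ≤ k → (k : ℝ) + ρ k < ‖x k‖) : Fam (fun k y => v k (y - x k)) A M where
  meas k := (h.meas k).comp (measurable_id'.sub_const _)
  bd k y := h.bd k _
  fb k F := by
    have hA : 0 ≤ A k := (norm_nonneg _).trans (h.bd k 0)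
    have hg : Good (fun y => v k (y - x k)) :=
      ⟨(h.meas k).comp (measurable_id'.sub_const _), A k, fun y => h.bd k _⟩
    refine le_trans ?_ (h.fb k (x k) F)
    rw [← integral_indicator Metric.isClosed_closedBall.measurableSet]
    apply integral_mono (integrable_w hg (psi F))
    · apply Integrable.indicator _ Metric.isClosed_closedBall.measurableSet
      exact (integrable_sq (psi F)).const_mul _
    · intro y
      simp only
      by_cases hy : y ∈ Metric.closedBall (x k) (ρ k)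
      · rw [Set.indicator_of_mem hy]
        gcongr
        exact h.bd k _
      · rw [Set.indicator_of_notMem hy, h.supp k _ (by simpa [dist_eq_norm] using hy), norm_zero,
          zero_mul]
  M0 := h.M0
  sum := h.sum
  loc N hN y hy k hk := by
    apply h.supp
    have h1 : 1 ≤ k := hN.trans hk
    have h2 := hx k h1
    have h3 : ‖x k‖ - ‖y‖ ≤ ‖y - x k‖ := by
      rw [norm_sub_rev]
      exact norm_sub_norm_le _ _
    have h4 : (N : ℝ) ≤ k := by exact_mod_cast hk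
    linarith

/-- Separation of the positions. -/
def sepR {n : ℕ} (ρ : ℕ → ℝ) (N j : ℕ) (a y : Sp (n + 1)) : Prop :=
  (N : ℝ) + ρ N < ‖y‖ ∧ ρ j + ρ N < ‖a - y‖

lemma sepR_eventually {n : ℕ} (ρ : ℕ → ℝ) (N j : ℕ) (a : Sp (n + 1)) :
    ∀ᶠ y in cocompact (Sp (n + 1)), sepR ρ N j a y := by
  have h1 : Tendsto (fun y : Sp (n + 1) => ‖y‖) (cocompact _) atTop :=
    tendsto_norm_cocompact_atTop
  filter_upwards [h1.eventually_gt_atTop ((N : ℝ) + ρ N),
    h1.eventually_gt_atTop (ρ j + ρ N + ‖a‖)] with y h2 h3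
  refine ⟨h2, ?_⟩
  have h4 : ‖y‖ - ‖a‖ ≤ ‖a - y‖ := by
    rw [norm_sub_rev]
    exact norm_sub_norm_le _ _
  linarith

/-- **Choice of the positions.** -/
theorem Pieces.positions {n : ℕ} {v : ℕ → Sp (n + 1) → ℂ} {A ρ M : ℕ → ℝ}
    (h : Pieces v A ρ M) (I : ℕ → Set ℂ) (hI : ∀ k, IsCompact (I k))
    (Ω C : ℕ → Set ℂ) (hΩ : ∀ k, IsOpen (Ω k)) (hC : ∀ k, IsCompact (C k))
    (hΩC : ∀ k, Ω k ⊆ C k) (hCU : ∀ k, C k ⊆ UH)
    (hker : ∀ k, ∀ g ∈ I k, ∃ z ∈ Ω k, ∃ φ, φ ≠ 0 ∧ Full (v k) g z φ = 0) :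
    ∃ x : ℕ → Sp (n + 1), Fam (fun k y => v k (y - x k)) A M ∧
      (∀ j k, j < k → ρ j + ρ k < ‖x j - x k‖) ∧
      ∀ k, ∀ g ∈ I k, ∃ z ∈ C k, ∃ φ, φ ≠ 0 ∧
        (Mop pS + g • KT (fun k y => v k (y - x k)) - z • Mop qS :
          HS (n + 1) →L[ℂ] HS (n + 1)) φ = 0 := by
  have hneg : Tendsto (fun x : Sp (n + 1) => -x) (cocompact _) (cocompact _) :=
    (Homeomorph.neg (Sp (n + 1))).isClosedEmbedding.tendsto_cocompact
  obtain ⟨x, hx1, hx2⟩ := Abs.exists_positions (l := cocompact (Sp (n + 1))) hneg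
    (P := Mop (pS (d := n + 1))) (S := Mop qS) isOpen_UH isPreconnected_UH
    (fun z hz => unit_free hz) (T := Tm) Tm_neg (fun x f => Tm_Mop good_pS x f)
    (fun x f => Tm_Mop good_qS x f) Tm_weak (Q := QK) QK_zero (fun K L => QK_add)
    (fun x K => QK_cj x) (fun K hK => hK.1) (fun K hK g => QK_inj hK g)
    (fun k => Kv (v k)) (fun k => QK_Kv (h.good k) (h.memLp k)) I hI Ω hΩ
    (fun k => (hΩC k).trans (hCU k)) hker (sepR ρ) (sepR_eventually ρ)
  have hfam : Fam (fun k y => v k (y - x k)) A M := by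
    apply h.fam
    intro k hk
    exact (hx1 k 0 (by omega)).1
  refine ⟨x, hfam, fun j k hjk => (hx1 k j hjk).2, ?_⟩
  intro k g hg
  apply Abs.kernel_limit (U := UH) (fun z hz => unit_free hz)
    (KN := fun N => ∑ j ∈ Finset.range N, Kv (fun y => v j (y - x j))) ?_ hfam.tendsto_K (hC k)
    (hCU k)
  · filter_upwards [eventually_gt_atTop k] with N hN
    obtain ⟨z, hz, φ, hφ, hφ'⟩ := hx2 N k hN g hg
    refine ⟨z, hΩC k hz, φ, hφ, ?_⟩
    have e : ∑ j ∈ Finset.range N, Kv (fun y => v j (y - x j)) =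
        ∑ j ∈ Finset.range N, Abs.cj (Tm (x j)) (Kv (v j)) := by
      apply Finset.sum_congr rfl
      intro j _
      exact Kv_translate (h.good j) (x j)
    rw [e]
    exact hφ'
  · refine isCompactOperator_of_tendsto hfam.tendsto_K (Eventually.of_forall fun N => ?_)
    have hc : ∀ N, QK (∑ j ∈ Finset.range N, Kv (fun y => v j (y - x j))) := by
      intro N
      induction N with
      | zero => simpa using QK_zero
      | succ N ih =>
        rw [Finset.sum_range_succ]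
        apply QK_add ih
        rw [Kv_translate (h.good N)]
        exact QK_cj _ (QK_Kv (h.good N) (h.memLp N))
    exact (hc N).1

/-- Choice of the positions, with a name for the translated pieces. -/
theorem Pieces.positions' {n : ℕ} {v : ℕ → Sp (n + 1) → ℂ} {A ρ M : ℕ → ℝ}
    (h : Pieces v A ρ M) (I : ℕ → Set ℂ) (hI : ∀ k, IsCompact (I k))
    (Ω C : ℕ → Set ℂ) (hΩ : ∀ k, IsOpen (Ω k)) (hC : ∀ k, IsCompact (C k))
    (hΩC : ∀ k, Ω k ⊆ C k) (hCU : ∀ k, C k ⊆ UH)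
    (hker : ∀ k, ∀ g ∈ I k, ∃ z ∈ Ω k, ∃ φ, φ ≠ 0 ∧ Full (v k) g z φ = 0) :
    ∃ (x : ℕ → Sp (n + 1)) (w : ℕ → Sp (n + 1) → ℂ), (w = fun k y => v k (y - x k)) ∧
      Fam w A M ∧ (∀ j k, j < k → ρ j + ρ k < ‖x j - x k‖) ∧
      ∀ k, ∀ g ∈ I k, ∃ z ∈ C k, ∃ φ, φ ≠ 0 ∧
        (Mop pS + g • KT w - z • Mop qS : HS (n + 1) →L[ℂ] HS (n + 1)) φ = 0 := by
  obtain ⟨x, h1, h2, h3⟩ := h.positions I hI Ω C hΩ hC hΩC hCU hker
  exact ⟨x, _, rfl, h1, h2, h3⟩

end MP497a12
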