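import Mathlib
import Pool.Agent.Lib.MP_497a12_mp.FStep
import Pool.Agent.Lib.MP_497a12_mp.GPos

/-!
# Density of the range of `-hb² Laplacian - E` on test functions
-/

open MeasureTheory Filter Topology Real Set
open scoped InnerProductSpace FourierTransform ENNReal ContDiff SchwartzMap LineDeriv

namespace MP497a12

variable {d : ℕ}

attribute [local irreducible] Mop Cop Fo

/-- The coordinate directions. -/
noncomputable def ed (j : Fin d) : Sp d := EuclideanSpace.single j 1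

/-- The operator on Schwartz functions. -/
noncomputable def PS (hb : ℝ) (E : ℂ) (S : 𝓢(Sp d, ℂ)) : 𝓢(Sp d, ℂ) :=
  (-((hb ^ 2 : ℝ) : ℂ)) • (∑ j : Fin d, ∂_{ed j} (∂_{ed j} S)) + (-E) • S

lemma pd_schwartz (S : 𝓢(Sp d, ℂ)) (j : Fin d) (x : Sp d) : pd j S x = (∂_{ed j} S) x := by
  rw [SchwartzMap.lineDerivOp_apply_eq_fderiv]
  rfl

lemma pd_schwartz' (S : 𝓢(Sp d, ℂ)) (j : Fin d) : pd j S = (∂_{ed j} S : 𝓢(Sp d, ℂ)) := by
  funext x
  exact pd_schwartz S j x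

lemma PS_apply (hb : ℝ) (E : ℂ) (S : 𝓢(Sp d, ℂ)) (x : Sp d) :
    PS hb E S x = (-((hb ^ 2 : ℝ) : ℂ)) * (∑ j, pd j (pd j S) x) + (-E) * S x := by
  unfold PS
  rw [_root_.add_apply, _root_.smul_apply, _root_.smul_apply, smul_eq_mul,
    smul_eq_mul]
  congr 2
  rw [_root_.sum_apply]
  apply Finset.sum_congr rfl
  intro j _
  rw [pd_schwartz', pd_schwartz]

lemma PS_add (hb : ℝ) (E : ℂ) (S T : 𝓢(Sp d, ℂ)) : PS hb E (S + T) = PS hb E S + PS hb E T := by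
  unfold PS
  simp only [LineDeriv.lineDerivOp_add, Finset.sum_add_distrib, smul_add]
  abel

lemma PS_smul (hb : ℝ) (E c : ℂ) (S : 𝓢(Sp d, ℂ)) : PS hb E (c • S) = c • PS hb E S := by
  unfold PS
  simp only [LineDeriv.lineDerivOp_smul, ← Finset.smul_sum, smul_add]
  rw [smul_comm, smul_comm (-E) c]

/-- The Fourier transform of a derivative. -/
lemma fourier_line (S : 𝓢(Sp d, ℂ)) (j : Fin d) (ξ : Sp d) :
    (𝓕 (∂_{ed j} S) : 𝓢(Sp d, ℂ)) ξ = (2 * π * Complex.I * ξ j) * (𝓕 S : 𝓢(Sp d, ℂ)) ξ := by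
  rw [SchwartzMap.fourier_lineDerivOp_eq]
  have ht : (inner ℝ · (ed j)).HasTemperateGrowth := ((innerSL ℝ).flip (ed j)).hasTemperateGrowth
  rw [_root_.smul_apply, SchwartzMap.smulLeftCLM_apply_apply ht]
  have e1 : ⟪ξ, ed j⟫_ℝ = ξ j := by
    unfold ed; simp [EuclideanSpace.inner_single_right]
  rw [e1]
  simp only [smul_eq_mul, Complex.real_smul]
  ring

lemma fourier_PS (hb : ℝ) (E : ℂ) (S : 𝓢(Sp d, ℂ)) (ξ : Sp d) :
    (𝓕 (PS hb E S) : 𝓢(Sp d, ℂ)) ξ =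
      (((4 * π ^ 2 * hb ^ 2 * ‖ξ‖ ^ 2 : ℝ) : ℂ) - E) * (𝓕 S : 𝓢(Sp d, ℂ)) ξ := by
  unfold PS
  rw [FourierTransform.fourier_add, FourierTransform.fourier_smul, FourierTransform.fourier_smul,
    FourierTransform.fourier_sum, _root_.add_apply, _root_.smul_apply,
    _root_.smul_apply, _root_.sum_apply]
  simp_rw [fourier_line]
  have h1 := sum_sq ξ
  have h2 : ∑ j : Fin d, (2 * (π : ℂ) * Complex.I * (ξ j : ℂ)) *
      ((2 * (π : ℂ) * Complex.I * (ξ j : ℂ)) * (𝓕 S : 𝓢(Sp d, ℂ)) ξ) =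
      -((4 * π ^ 2 * ‖ξ‖ ^ 2 : ℝ) : ℂ) * (𝓕 S : 𝓢(Sp d, ℂ)) ξ := by
    rw [← h1]
    push_cast
    rw [Finset.mul_sum, ← Finset.sum_neg_distrib, Finset.sum_mul]
    apply Finset.sum_congr rfl
    intro j _
    have : Complex.I * Complex.I = -1 := Complex.I_mul_I
    linear_combination (4 * (π : ℂ) ^ 2 * (ξ j : ℂ) ^ 2 * (𝓕 S : 𝓢(Sp d, ℂ)) ξ) * this
  rw [h2, smul_eq_mul, smul_eq_mul]
  push_cast
  ring

/-- Test functions as Schwartz functions. -/
lemma test_schwartz {φ : Sp d → ℂ} (hφ : IsTest φ) : ∃ S : 𝓢(Sp d, ℂ), (S : Sp d → ℂ) = φ ∧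
    HasCompactSupport S := by
  obtain ⟨h1, h2⟩ := hφ
  exact ⟨h2.toSchwartzMap h1, rfl, h2⟩

lemma isTest_of_schwartz {S : 𝓢(Sp d, ℂ)} (hS : HasCompactSupport S) : IsTest S :=
  ⟨S.smooth ⊤, hS⟩

lemma isTest_pd {φ : Sp d → ℂ} (hφ : IsTest φ) (j : Fin d) : IsTest (pd j φ) := by
  obtain ⟨S, hS, hSc⟩ := test_schwartz hφ
  subst hS
  refine ⟨?_, ?_⟩
  · rw [pd_schwartz']
    exact (∂_{ed j} S : 𝓢(Sp d, ℂ)).smooth ⊤
  · unfold pd
    exact (hSc.fderiv (𝕜 := ℝ)).comp_left (g := fun L : Sp d →L[ℝ] ℂ => L (EuclideanSpace.single j 1))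
      (by simp)

/-- The range on test functions. -/
noncomputable def DD2 (hb : ℝ) (E : ℂ) : Submodule ℂ (HS d) where
  carrier := {h | ∃ S : 𝓢(Sp d, ℂ), HasCompactSupport S ∧
    h = SchwartzMap.toLpCLM ℂ ℂ 2 volume (PS hb E S)}
  zero_mem' := ⟨0, by
    have : ((0 : 𝓢(Sp d, ℂ)) : Sp d → ℂ) = 0 := rfl
    rw [this]; exact HasCompactSupport.zero, by
    have : PS hb E (0 : 𝓢(Sp d, ℂ)) = 0 := by
      have := PS_smul hb E 0 (0 : 𝓢(Sp d, ℂ))
      simpa using this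
    rw [this, map_zero]⟩
  add_mem' := by
    rintro a b ⟨S, hS, rfl⟩ ⟨T, hT, rfl⟩
    refine ⟨S + T, hS.add hT, ?_⟩
    rw [PS_add, map_add]
  smul_mem' := by
    rintro c a ⟨S, hS, rfl⟩
    refine ⟨c • S, ?_, ?_⟩
    · exact hS.smul_left (f := fun _ => c)
    · rw [PS_smul, map_smul]

lemma contDiff_pd {φ : Sp d → ℂ} (hφ : ContDiff ℝ ∞ φ) (j : Fin d) : ContDiff ℝ ∞ (pd j φ) := by
  unfold pd
  exact (hφ.fderiv_right (m := ∞) (by simp)).clm_apply contDiff_const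

lemma pd_mul {χ S : Sp d → ℂ} (hχ : ContDiff ℝ ∞ χ) (hS : ContDiff ℝ ∞ S) (j : Fin d) :
    pd j (fun y => χ y * S y) = fun x => pd j χ x * S x + χ x * pd j S x := by
  funext x
  unfold pd
  have h1 : DifferentiableAt ℝ χ x := hχ.differentiable (by simp) x
  have h2 : DifferentiableAt ℝ S x := hS.differentiable (by simp) x
  rw [fderiv_fun_mul h1 h2]
  simp only [_root_.add_apply, _root_.smul_apply, smul_eq_mul]
  ring

lemma pd_add {χ S : Sp d → ℂ} (hχ : ContDiff ℝ ∞ χ) (hS : ContDiff ℝ ∞ S) (j : Fin d) :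
    pd j (fun y => χ y + S y) = fun x => pd j χ x + pd j S x := by
  funext x
  unfold pd
  have h1 : DifferentiableAt ℝ χ x := hχ.differentiable (by simp) x
  have h2 : DifferentiableAt ℝ S x := hS.differentiable (by simp) x
  rw [fderiv_fun_add h1 h2]
  simp only [_root_.add_apply]

lemma pd_pd_mul {χ S : Sp d → ℂ} (hχ : ContDiff ℝ ∞ χ) (hS : ContDiff ℝ ∞ S) (j : Fin d)
    (x : Sp d) : pd j (pd j (fun y => χ y * S y)) x =
      pd j (pd j χ) x * S x + 2 * (pd j χ x * pd j S x) + χ x * pd j (pd j S) x := by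
  have h1 := contDiff_pd hχ j
  have h2 := contDiff_pd hS j
  rw [pd_mul hχ hS, pd_add (h1.mul hS) (hχ.mul h2), pd_mul h1 hS, pd_mul hχ h2]
  simp only
  ring

lemma pd_scale {χ : Sp d → ℂ} (hχ : ContDiff ℝ ∞ χ) (c : ℝ) (j : Fin d) :
    pd j (fun y => χ (c • y)) = fun x => (c : ℂ) * pd j χ (c • x) := by
  funext x
  unfold pd
  have h1 : HasFDerivAt χ (fderiv ℝ χ (c • x)) (c • x) :=
    (hχ.differentiable (by simp) _).hasFDerivAt
  have h2 : HasFDerivAt (fun y : Sp d => c • y) (c • ContinuousLinearMap.id ℝ (Sp d)) x :=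
    (hasFDerivAt_id x).const_smul c
  have h3 : HasFDerivAt (fun y => χ (c • y)) ((fderiv ℝ χ (c • x)).comp
      (c • ContinuousLinearMap.id ℝ (Sp d))) x := h1.comp x h2
  rw [h3.fderiv]
  simp

lemma pd_const_mul {χ : Sp d → ℂ} (hχ : ContDiff ℝ ∞ χ) (c : ℂ) (j : Fin d) :
    pd j (fun y => c * χ y) = fun x => c * pd j χ x := by
  funext x
  unfold pd
  rw [fderiv_const_mul (hχ.differentiable (by simp) x)]
  simp

lemma contDiff_scale {χ : Sp d → ℂ} (hχ : ContDiff ℝ ∞ χ) (c : ℝ) :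
    ContDiff ℝ ∞ (fun y : Sp d => χ (c • y)) := by
  have h1 : ContDiff ℝ ∞ (fun y : Sp d => c • y) := contDiff_id.const_smul c
  exact hχ.comp h1

lemma pd_pd_scale {χ : Sp d → ℂ} (hχ : ContDiff ℝ ∞ χ) (c : ℝ) (j : Fin d) (x : Sp d) :
    pd j (pd j (fun y => χ (c • y))) x = (c : ℂ) ^ 2 * pd j (pd j χ) (c • x) := by
  have h1 := contDiff_pd hχ j
  rw [pd_scale hχ, pd_const_mul (contDiff_scale h1 c), pd_scale h1]
  simp only
  ring

lemma exists_bump (d : ℕ) : ∃ χ : Sp d → ℂ, IsTest χ ∧ χ 0 = 1 := by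
  let f : ContDiffBump (0 : Sp d) := ⟨1, 2, one_pos, by norm_num⟩
  refine ⟨fun x => (f x : ℂ), ⟨Complex.ofRealCLM.contDiff.comp f.contDiff, ?_⟩, ?_⟩
  · exact f.hasCompactSupport.comp_left (g := Complex.ofReal) rfl
  · have : f 0 = 1 := f.one_of_mem_closedBall (by simp [f])
    show ((f 0 : ℝ) : ℂ) = 1
    rw [this]; simp

lemma bdd_test {φ : Sp d → ℂ} (hφ : IsTest φ) : ∃ C : ℝ, 0 ≤ C ∧ ∀ x, ‖φ x‖ ≤ C := by
  obtain ⟨C, hC⟩ := hφ.2.exists_bound_of_continuous hφ.1.continuous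
  exact ⟨C, (norm_nonneg _).trans (hC 0), hC⟩

/-- The formula for cut off functions. -/
lemma PS_cut (hb : ℝ) (E : ℂ) {χ : Sp d → ℂ} (hχ : ContDiff ℝ ∞ χ) (S T : 𝓢(Sp d, ℂ)) (c : ℝ)
    (hT : ∀ x, T x = χ (c • x) * S x) (x : Sp d) :
    PS hb E T x = (-((hb ^ 2 : ℝ) : ℂ)) * (∑ j, ((c : ℂ) ^ 2 * pd j (pd j χ) (c • x) * S x +
      2 * ((c : ℂ) * pd j χ (c • x) * pd j S x) + χ (c • x) * pd j (pd j S) x)) +
      (-E) * (χ (c • x) * S x) := by
  have hT' : (T : Sp d → ℂ) = fun x => χ (c • x) * S x := funext hT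
  rw [PS_apply, hT']
  congr 2
  apply Finset.sum_congr rfl
  intro j _
  rw [pd_pd_mul (contDiff_scale hχ c) (S.smooth ⊤), pd_pd_scale hχ, pd_scale hχ]


lemma memLp_schwartz (S : 𝓢(Sp d, ℂ)) : MemLp S 2 := S.memLp 2 volume

lemma inner_toLp (S : 𝓢(Sp d, ℂ)) (k : HS d) :
    ⟪SchwartzMap.toLpCLM ℂ ℂ 2 volume S, k⟫_ℂ = ∫ x, (starRingEnd ℂ) (S x) * k x := by
  rw [inner_eq]
  apply integral_congr_ae
  have : SchwartzMap.toLpCLM ℂ ℂ 2 volume S = S.toLp 2 := rfl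
  filter_upwards [S.coeFn_toLp 2 volume] with x hx
  rw [this, hx]

/-- Cutting off. -/
lemma cutoff {hb : ℝ} {E : ℂ} {k : HS d}
    (hk : ∀ S : 𝓢(Sp d, ℂ), HasCompactSupport S →
      ⟪SchwartzMap.toLpCLM ℂ ℂ 2 volume (PS hb E S), k⟫_ℂ = 0) (S : 𝓢(Sp d, ℂ)) :
    ⟪SchwartzMap.toLpCLM ℂ ℂ 2 volume (PS hb E S), k⟫_ℂ = 0 := by
  obtain ⟨χ, hχ, hχ0⟩ := exists_bump d
  -- the bounds
  obtain ⟨M0, hM00, hM0⟩ := bdd_test hχ
  have hb1 : ∀ j, ∃ C : ℝ, 0 ≤ C ∧ ∀ x, ‖pd j χ x‖ ≤ C := fun j => bdd_test (isTest_pd hχ j)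
  have hb2 : ∀ j, ∃ C : ℝ, 0 ≤ C ∧ ∀ x, ‖pd j (pd j χ) x‖ ≤ C :=
    fun j => bdd_test (isTest_pd (isTest_pd hχ j) j)
  choose M1 hM10 hM1 using hb1
  choose M2 hM20 hM2 using hb2
  set c : ℕ → ℝ := fun n => 1 / ((n : ℝ) + 1) with hc
  have hc0 : ∀ n, 0 < c n := fun n => by rw [hc]; positivity
  have hc1 : ∀ n, c n ≤ 1 := fun n => by
    rw [hc]
    simp only
    rw [div_le_one (by positivity)]
    have : (0 : ℝ) ≤ n := Nat.cast_nonneg n
    linarith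
  have hclim : Tendsto c atTop (𝓝 0) := tendsto_one_div_add_atTop_nhds_zero_nat
  have hT : ∀ n, ∃ T : 𝓢(Sp d, ℂ), HasCompactSupport T ∧ ∀ x, T x = χ (c n • x) * S x := by
    intro n
    have h1 : IsTest (fun x => χ (c n • x) * S x) := by
      refine ⟨(contDiff_scale hχ.1 (c n)).mul (S.smooth ⊤), ?_⟩
      apply HasCompactSupport.mul_right
      have := hχ.2.comp_homeomorph (Homeomorph.smulOfNeZero (c n) (hc0 n).ne')
      exact this
    obtain ⟨T, hT, hTc⟩ := test_schwartz h1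
    exact ⟨T, hTc, fun x => congrFun hT x⟩
  choose T hTc hTe using hT
  have hz : ∀ n, ∫ x, (starRingEnd ℂ) (PS hb E (T n) x) * k x = 0 := by
    intro n
    rw [← inner_toLp]
    exact hk (T n) (hTc n)
  rw [inner_toLp]
  -- the dominating function
  set Bd : Sp d → ℝ := fun x => (hb ^ 2 * ∑ j, (M2 j * ‖S x‖ + 2 * (M1 j * ‖pd j S x‖) +
    M0 * ‖pd j (pd j S) x‖)) + ‖E‖ * (M0 * ‖S x‖) with hBd
  have hBdm : MemLp Bd 2 := by
    have a0 := (memLp_schwartz S).norm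
    have a1 : ∀ j, MemLp (fun x => ‖pd j S x‖) 2 := by
      intro j
      rw [pd_schwartz']
      exact (memLp_schwartz _).norm
    have a2 : ∀ j, MemLp (fun x => ‖pd j (pd j S) x‖) 2 := by
      intro j
      rw [pd_schwartz', pd_schwartz']
      exact (memLp_schwartz _).norm
    have a3 : ∀ j, MemLp (fun x => M2 j * ‖S x‖ + 2 * (M1 j * ‖pd j S x‖) +
        M0 * ‖pd j (pd j S) x‖) 2 := fun j =>
      ((a0.const_mul _).add (((a1 j).const_mul _).const_mul _)).add ((a2 j).const_mul _)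
    have a4 : MemLp (fun x => ∑ j, (M2 j * ‖S x‖ + 2 * (M1 j * ‖pd j S x‖) +
        M0 * ‖pd j (pd j S) x‖)) 2 := memLp_finsetSum _ fun j _ => a3 j
    exact (a4.const_mul _).add ((a0.const_mul _).const_mul _)
  have hle : ∀ n x, ‖PS hb E (T n) x‖ ≤ Bd x := by
    intro n x
    rw [PS_cut hb E hχ.1 S (T n) (c n) (hTe n)]
    have hcn : ‖(c n : ℂ)‖ ≤ 1 := by
      rw [Complex.norm_real, Real.norm_of_nonneg (hc0 n).le]; exact hc1 n
    refine (norm_add_le _ _).trans (add_le_add ?_ ?_)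
    · rw [norm_mul, norm_neg, Complex.norm_real, Real.norm_of_nonneg (by positivity)]
      gcongr
      refine (norm_sum_le _ _).trans (Finset.sum_le_sum fun j _ => ?_)
      refine (norm_add_le _ _).trans (add_le_add ((norm_add_le _ _).trans
        (add_le_add ?_ ?_)) ?_)
      · rw [norm_mul, norm_mul, norm_pow]
        have h1 : ‖(c n : ℂ)‖ ^ 2 ≤ 1 := by
          have := norm_nonneg (c n : ℂ)
          nlinarith
        have h2 := hM2 j (c n • x)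
        calc ‖(c n : ℂ)‖ ^ 2 * ‖pd j (pd j χ) (c n • x)‖ * ‖S x‖ ≤ 1 * M2 j * ‖S x‖ := by gcongr
          _ = _ := by ring
      · rw [norm_mul, norm_mul, norm_mul, Complex.norm_ofNat]
        have h2 := hM1 j (c n • x)
        calc 2 * (‖(c n : ℂ)‖ * ‖pd j χ (c n • x)‖ * ‖pd j S x‖) ≤
            2 * (1 * M1 j * ‖pd j S x‖) := by gcongr
          _ = _ := by ring
      · rw [norm_mul]
        have h2 := hM0 (c n • x)
        gcongr
    · rw [norm_mul, norm_neg, norm_mul]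
      have h2 := hM0 (c n • x)
      gcongr
  have hlim : ∀ x, Tendsto (fun n => PS hb E (T n) x) atTop (𝓝 (PS hb E S x)) := by
    intro x
    have l1 : Tendsto (fun n => c n • x) atTop (𝓝 0) := by
      have := hclim.smul_const x
      rwa [zero_smul] at this
    have l2 : Tendsto (fun n => χ (c n • x)) atTop (𝓝 1) := by
      rw [← hχ0]
      exact (hχ.1.continuous.tendsto 0).comp l1
    have l3 : ∀ j, Tendsto (fun n => pd j χ (c n • x)) atTop (𝓝 (pd j χ 0)) := fun j =>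
      ((contDiff_pd hχ.1 j).continuous.tendsto 0).comp l1
    have l4 : ∀ j, Tendsto (fun n => pd j (pd j χ) (c n • x)) atTop (𝓝 (pd j (pd j χ) 0)) :=
      fun j => ((contDiff_pd (contDiff_pd hχ.1 j) j).continuous.tendsto 0).comp l1
    have l5 : Tendsto (fun n => (c n : ℂ)) atTop (𝓝 0) := by
      have := (Complex.continuous_ofReal.tendsto 0).comp hclim
      rwa [Complex.ofReal_zero] at this
    have l6 : ∀ j, Tendsto (fun n => ((c n : ℂ) ^ 2 * pd j (pd j χ) (c n • x) * S x +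
        2 * ((c n : ℂ) * pd j χ (c n • x) * pd j S x) + χ (c n • x) * pd j (pd j S) x)) atTop
        (𝓝 ((0 : ℂ) ^ 2 * pd j (pd j χ) 0 * S x + 2 * (0 * pd j χ 0 * pd j S x) +
          1 * pd j (pd j S) x)) := fun j =>
      ((((l5.pow 2).mul (l4 j)).mul_const _).add (((l5.mul (l3 j)).mul_const _).const_mul 2)).add
        (l2.mul_const _)
    have l7 : Tendsto (fun n => (-((hb ^ 2 : ℝ) : ℂ)) * (∑ j, ((c n : ℂ) ^ 2 *
        pd j (pd j χ) (c n • x) * S x + 2 * ((c n : ℂ) * pd j χ (c n • x) * pd j S x) +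
        χ (c n • x) * pd j (pd j S) x)) + (-E) * (χ (c n • x) * S x)) atTop
        (𝓝 ((-((hb ^ 2 : ℝ) : ℂ)) * (∑ j, ((0 : ℂ) ^ 2 * pd j (pd j χ) 0 * S x +
          2 * (0 * pd j χ 0 * pd j S x) + 1 * pd j (pd j S) x)) + (-E) * (1 * S x))) :=
      ((tendsto_finsetSum _ fun j _ => l6 j).const_mul _).add ((l2.mul_const _).const_mul _)
    have e1 : ∀ n, PS hb E (T n) x = (-((hb ^ 2 : ℝ) : ℂ)) * (∑ j, ((c n : ℂ) ^ 2 *
        pd j (pd j χ) (c n • x) * S x + 2 * ((c n : ℂ) * pd j χ (c n • x) * pd j S x) +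
        χ (c n • x) * pd j (pd j S) x)) + (-E) * (χ (c n • x) * S x) := fun n =>
      PS_cut hb E hχ.1 S (T n) (c n) (hTe n) x
    simp_rw [e1]
    convert l7 using 2
    rw [PS_apply]
    simp
  have key := tendsto_integral_of_dominated_convergence
    (F := fun n x => (starRingEnd ℂ) (PS hb E (T n) x) * k x)
    (f := fun x => (starRingEnd ℂ) (PS hb E S x) * k x) (μ := volume)
    (fun x => Bd x * ‖k x‖) (fun n =>
      (Complex.continuous_conj.comp (PS hb E (T n)).continuous).aestronglyMeasurable.mul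
        (Lp.memLp k).1)
    (hBdm.integrable_mul (Lp.memLp k).norm)
    (fun n => Eventually.of_forall fun x => by
      rw [norm_mul, RCLike.norm_conj]
      gcongr
      exact hle n x)
    (Eventually.of_forall fun x =>
      ((Complex.continuous_conj.tendsto _).comp (hlim x)).mul_const _)
  simp_rw [hz] at key
  exact tendsto_nhds_unique key tendsto_const_nhds


lemma sym_ne {hb : ℝ} {E : ℂ} (hE : E ∉ halfLine) (ξ : Sp d) :
    (((4 * π ^ 2 * hb ^ 2 * ‖ξ‖ ^ 2 : ℝ) : ℂ) - E) ≠ 0 := by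
  intro h
  apply hE
  exact ⟨4 * π ^ 2 * hb ^ 2 * ‖ξ‖ ^ 2, by positivity, (sub_eq_zero.mp h).symm⟩

/-- **Density.** -/
theorem dense_DD2 {hb : ℝ} {E : ℂ} (hE : E ∉ halfLine) :
    (DD2 (d := d) hb E).topologicalClosure = ⊤ := by
  rw [Submodule.topologicalClosure_eq_top_iff, Submodule.eq_bot_iff]
  intro k hk
  rw [Submodule.mem_orthogonal] at hk
  have h1 : ∀ S : 𝓢(Sp d, ℂ), ⟪SchwartzMap.toLpCLM ℂ ℂ 2 volume (PS hb E S), k⟫_ℂ = 0 :=
    cutoff fun S hS => hk _ ⟨S, hS, rfl⟩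
  -- the Fourier side
  set m : Sp d → ℂ := fun ξ => ((4 * π ^ 2 * hb ^ 2 * ‖ξ‖ ^ 2 : ℝ) : ℂ) - E with hm
  have hmc : Continuous m := by rw [hm]; fun_prop
  have h2 : ∀ T : 𝓢(Sp d, ℂ), ∫ ξ, (starRingEnd ℂ) (m ξ * T ξ) * (Fo k) ξ = 0 := by
    intro T
    set S : 𝓢(Sp d, ℂ) := 𝓕⁻ T with hS
    have h3 := h1 S
    rw [← LinearIsometryEquiv.inner_map_map Fo] at h3
    have h4 : Fo (SchwartzMap.toLpCLM ℂ ℂ 2 volume (PS hb E S)) = (𝓕 (PS hb E S)).toLp 2 :=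
      Fo_schwartz _
    rw [h4, inner_eq] at h3
    rw [← h3]
    apply integral_congr_ae
    filter_upwards [(𝓕 (PS hb E S) : 𝓢(Sp d, ℂ)).coeFn_toLp 2 volume] with ξ hξ
    rw [hξ, fourier_PS, hS, FourierTransform.fourier_fourierInv_eq]
  have h5 : ∀ᵐ ξ, (starRingEnd ℂ) (m ξ) * (Fo k) ξ = 0 := by
    have hloc : LocallyIntegrable (fun ξ => (starRingEnd ℂ) (m ξ) * (Fo k) ξ) := by
      have h6 : LocallyIntegrable (Fo k : Sp d → ℂ) :=
        (Lp.memLp (Fo k)).locallyIntegrable one_le_two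
      have h7 : Continuous (fun ξ => (starRingEnd ℂ) (m ξ)) := Complex.continuous_conj.comp hmc
      rw [← locallyIntegrableOn_univ] at h6 ⊢
      exact h6.continuousOn_mul h7.continuousOn isOpen_univ.isLocallyClosed
    apply ae_eq_zero_of_integral_contDiff_smul_eq_zero hloc
    intro g hg hgs
    have hg' : ContDiff ℝ ∞ (fun x => (g x : ℂ)) := Complex.ofRealCLM.contDiff.comp hg
    have hgs' : HasCompactSupport (fun x => (g x : ℂ)) := hgs.comp_left (g := Complex.ofReal) rfl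
    set T : 𝓢(Sp d, ℂ) := hgs'.toSchwartzMap hg' with hT
    have h6 := h2 T
    rw [← h6]
    congr 1
    funext ξ
    have h7 : T ξ = (g ξ : ℂ) := rfl
    rw [h7, map_mul, Complex.conj_ofReal, Complex.real_smul]
    ring
  have h6 : Fo k = 0 := by
    apply Lp.ext
    filter_upwards [h5, Lp.coeFn_zero ℂ 2 (volume : Measure (Sp d))] with ξ a1 a2
    rw [a2, Pi.zero_apply]
    rcases mul_eq_zero.mp a1 with h | h
    · exact absurd ((map_eq_zero _).mp h) (sym_ne hE ξ)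
    · exact h
  exact (map_eq_zero_iff _ (LinearIsometryEquiv.injective Fo)).mp h6

end MP497a12
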