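import Mathlib
import Pool.Agent.Lib.MP_497a12_mp.FDense

/-!
# The Birman-Schwinger argument
-/

open MeasureTheory Filter Topology Real Set
open scoped InnerProductSpace FourierTransform ENNReal ContDiff SchwartzMap LineDeriv

namespace MP497a12

variable {d : ℕ}

attribute [local irreducible] Mop Cop Fo

/-- A form of Fatou's lemma. -/
lemma fatou_trunc {f : Sp d → ℝ} {F : ℕ → Sp d → ℝ} {K : ℝ} (hK : 0 ≤ K)
    (hF : ∀ N, Integrable (F N)) (hF0 : ∀ N x, 0 ≤ F N x)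
    (hlim : ∀ x, ∀ᶠ N in atTop, F N x = f x) (hb : ∀ N, ∫ x, F N x ≤ K)
    (hm : AEStronglyMeasurable f) : Integrable f ∧ ∫ x, f x ≤ K := by
  have hf0 : ∀ x, 0 ≤ f x := by
    intro x
    obtain ⟨N, hN⟩ := (hlim x).exists
    rw [← hN]
    exact hF0 N x
  have h1 : ∫⁻ x, ENNReal.ofReal (f x) ≤ ENNReal.ofReal K := by
    calc ∫⁻ x, ENNReal.ofReal (f x)
        = ∫⁻ x, liminf (fun N => ENNReal.ofReal (F N x)) atTop := by
          congr 1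
          funext x
          have h2 : Tendsto (fun N => ENNReal.ofReal (F N x)) atTop
              (𝓝 (ENNReal.ofReal (f x))) := by
            apply Tendsto.congr' _ tendsto_const_nhds
            filter_upwards [hlim x] with N hN
            rw [hN]
          exact h2.liminf_eq.symm
      _ ≤ liminf (fun N => ∫⁻ x, ENNReal.ofReal (F N x)) atTop :=
          lintegral_liminf_le' fun N => (hF N).aestronglyMeasurable.aemeasurable.ennreal_ofReal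
      _ ≤ ENNReal.ofReal K := by
          apply liminf_le_of_le
          · isBoundedDefault
          · intro b hb'
            obtain ⟨N, hN⟩ := hb'.exists
            refine hN.trans ?_
            rw [← ofReal_integral_eq_lintegral_ofReal (hF N) (Eventually.of_forall (hF0 N))]
            exact ENNReal.ofReal_le_ofReal (hb N)
  have h2 : Integrable f := by
    refine ⟨hm, ?_⟩
    rw [hasFiniteIntegral_iff_ofReal (Eventually.of_forall hf0)]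
    exact lt_of_le_of_lt h1 ENNReal.ofReal_lt_top
  refine ⟨h2, ?_⟩
  rw [integral_eq_lintegral_of_nonneg_ae (Eventually.of_forall hf0) hm]
  exact ENNReal.toReal_le_of_le_ofReal hK h1

/-- The Cauchy-Schwarz inequality. -/
lemma csw {a b : Sp d → ℝ} (ha : MemLp a 2) (hb : MemLp b 2) (ha0 : ∀ x, 0 ≤ a x)
    (hb0 : ∀ x, 0 ≤ b x) :
    Integrable (fun x => a x * b x) ∧
      ∫ x, a x * b x ≤ √(∫ x, a x ^ 2) * √(∫ x, b x ^ 2) := by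
  refine ⟨ha.integrable_mul hb, ?_⟩
  have key := integral_mul_le_Lp_mul_Lq_of_nonneg (μ := (volume : Measure (Sp d)))
    (p := 2) (q := 2) (by constructor <;> norm_num) (f := a) (g := b)
    (Eventually.of_forall ha0) (Eventually.of_forall hb0)
    (by rw [ENNReal.ofReal_ofNat]; exact ha) (by rw [ENNReal.ofReal_ofNat]; exact hb)
  refine key.trans (le_of_eq ?_)
  simp only [Real.rpow_two]
  rw [Real.sqrt_eq_rpow, Real.sqrt_eq_rpow]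

/-- The energy that belongs to `κ`, `A`. -/
noncomputable def eE (κ : ℂ) (A hb : ℝ) : ℂ := -((4 * π ^ 2 * hb ^ 2 * A : ℝ) : ℂ) * κ ^ 2

/-- The resolvent. -/
noncomputable def RE (κ : ℂ) (A hb : ℝ) : HS d →L[ℂ] HS d :=
  ((starRingEnd ℂ) κ * ((4 * π ^ 2 * hb ^ 2 : ℝ) : ℂ)⁻¹) •
    (Fo.symm.toLinearIsometry.toContinuousLinearMap ∘L Mop (fS κ A 1) ∘L
      Fo.toLinearIsometry.toContinuousLinearMap)

lemma RE_apply (κ : ℂ) (A hb : ℝ) (h : HS d) :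
    RE κ A hb h = ((starRingEnd ℂ) κ * ((4 * π ^ 2 * hb ^ 2 : ℝ) : ℂ)⁻¹) •
      Fo.symm (Mop (fS κ A 1) (Fo h)) := rfl

lemma Fo_RE (κ : ℂ) (A hb : ℝ) (h : HS d) :
    Fo (RE κ A hb h) = ((starRingEnd ℂ) κ * ((4 * π ^ 2 * hb ^ 2 : ℝ) : ℂ)⁻¹) •
      Mop (fS κ A 1) (Fo h) := by
  rw [RE_apply, map_smul, LinearIsometryEquiv.apply_symm_apply]

lemma fS_one (κ : ℂ) (A : ℝ) (ξ : Sp d) : fS κ A 1 ξ = 1 / fm κ A ξ := by
  unfold fS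
  rw [Complex.cpow_one]

lemma conj_mul_self {κ : ℂ} (hκ1 : ‖κ‖ = 1) : (starRingEnd ℂ) κ * κ = 1 := by
  rw [mul_comm, Complex.mul_conj, Complex.normSq_eq_norm_sq, hκ1]; norm_num

lemma sym_eq {κ : ℂ} (hκ1 : ‖κ‖ = 1) (A hb : ℝ) (ξ : Sp d) :
    (starRingEnd ℂ) κ * (((4 * π ^ 2 * hb ^ 2 * ‖ξ‖ ^ 2 : ℝ) : ℂ) - eE κ A hb) =
      ((4 * π ^ 2 * hb ^ 2 : ℝ) : ℂ) * fm κ A ξ := by
  have h := conj_mul_self hκ1
  unfold eE fm
  push_cast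
  linear_combination (4 * (π : ℂ) ^ 2 * (hb : ℂ) ^ 2 * (A : ℂ) * κ) * h

lemma RE_pt {κ : ℂ} (hκ : 0 < κ.re) (hκ1 : ‖κ‖ = 1) {A hb : ℝ} (hA : 0 < A) (hhb : 0 < hb)
    (ξ : Sp d) (y : ℂ) : (starRingEnd ℂ) κ * ((4 * π ^ 2 * hb ^ 2 : ℝ) : ℂ)⁻¹ * (fS κ A 1 ξ *
        ((((4 * π ^ 2 * hb ^ 2 * ‖ξ‖ ^ 2 : ℝ) : ℂ) - eE κ A hb) * y)) = y := by
  have hπ := Real.pi_pos
  have h6 := sym_eq hκ1 A hb ξ
  have h7 : fm κ A ξ ≠ 0 := fm_ne hκ hA ξ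
  have h8 : ((4 * π ^ 2 * hb ^ 2 : ℝ) : ℂ) ≠ 0 := by
    have : (4 * π ^ 2 * hb ^ 2 : ℝ) ≠ 0 := by positivity
    exact_mod_cast this
  rw [fS_one]
  calc (starRingEnd ℂ) κ * ((4 * π ^ 2 * hb ^ 2 : ℝ) : ℂ)⁻¹ * (1 / fm κ A ξ *
        ((((4 * π ^ 2 * hb ^ 2 * ‖ξ‖ ^ 2 : ℝ) : ℂ) - eE κ A hb) * y))
      = ((starRingEnd ℂ) κ * (((4 * π ^ 2 * hb ^ 2 * ‖ξ‖ ^ 2 : ℝ) : ℂ) - eE κ A hb)) *
        ((4 * π ^ 2 * hb ^ 2 : ℝ) : ℂ)⁻¹ * (1 / fm κ A ξ) * y := by ring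
    _ = _ := by
        rw [h6]
        field_simp

lemma RE_of {κ : ℂ} (hκ : 0 < κ.re) (hκ1 : ‖κ‖ = 1) {A hb : ℝ} (hA : 0 < A) (hhb : 0 < hb)
    {X Y : HS d} (h : X =ᵐ[volume] fun ξ =>
      (((4 * π ^ 2 * hb ^ 2 * ‖ξ‖ ^ 2 : ℝ) : ℂ) - eE κ A hb) * Y ξ) :
    ((starRingEnd ℂ) κ * ((4 * π ^ 2 * hb ^ 2 : ℝ) : ℂ)⁻¹) • Mop (fS κ A 1) X = Y := by
  have hg := good_fS (d := d) hκ hA (s := 1) (by simp)
  apply Lp.ext
  filter_upwards [Lp.coeFn_smul ((starRingEnd ℂ) κ * ((4 * π ^ 2 * hb ^ 2 : ℝ) : ℂ)⁻¹)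
    (Mop (fS κ A 1) X), Mop_coe hg X, h] with ξ a1 a2 a3
  rw [a1, Pi.smul_apply, a2, a3, smul_eq_mul]
  exact RE_pt hκ hκ1 hA hhb ξ (Y ξ)

/-- The resolvent inverts the operator on Schwartz functions. -/
lemma RE_PS {κ : ℂ} (hκ : 0 < κ.re) (hκ1 : ‖κ‖ = 1) {A hb : ℝ} (hA : 0 < A) (hhb : 0 < hb)
    (S : 𝓢(Sp d, ℂ)) :
    RE κ A hb (SchwartzMap.toLpCLM ℂ ℂ 2 volume (PS hb (eE κ A hb) S)) =
      SchwartzMap.toLpCLM ℂ ℂ 2 volume S := by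
  apply (LinearIsometryEquiv.injective Fo)
  refine (Fo_RE κ A hb _).trans (RE_of hκ hκ1 hA hhb ?_)
  have h4 : Fo (SchwartzMap.toLpCLM ℂ ℂ 2 volume (PS hb (eE κ A hb) S)) =
      (𝓕 (PS hb (eE κ A hb) S)).toLp 2 := Fo_schwartz _
  have h5 : Fo (SchwartzMap.toLpCLM ℂ ℂ 2 volume S) = (𝓕 S).toLp 2 := Fo_schwartz _
  rw [h4, h5]
  filter_upwards [(𝓕 (PS hb (eE κ A hb) S) : 𝓢(Sp d, ℂ)).coeFn_toLp 2 volume,
    (𝓕 S : 𝓢(Sp d, ℂ)).coeFn_toLp 2 volume] with ξ a3 a4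
  rw [a3, a4, fourier_PS]

/-- The symbol `⟨ξ⟩ / m`. -/
noncomputable def jS (κ : ℂ) (A : ℝ) (ξ : Sp d) : ℂ := (jb ξ : ℂ) * fS κ A 1 ξ

lemma norm_jS {κ : ℂ} (hκ : 0 < κ.re) {A : ℝ} (hA : 0 < A) (ξ : Sp d) :
    ‖jS κ A ξ‖ ≤ 1 / (κ.re * min 1 A) := by
  unfold jS
  have hj := jb_pos ξ
  have hj1 := one_le_jb ξ
  rw [norm_mul, Complex.norm_real, Real.norm_of_nonneg hj.le, fS_one, norm_div, norm_one]
  have h1 : κ.re * (‖ξ‖ ^ 2 + A) ≤ ‖fm κ A ξ‖ := by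
    rw [← fm_re]; exact Complex.re_le_norm _
  have ha0 : 0 < min 1 A := by positivity
  have h3 : min 1 A ≤ 1 := min_le_left _ _
  have h4 : min 1 A ≤ A := min_le_right _ _
  have h2 : κ.re * min 1 A * jb ξ ≤ κ.re * (‖ξ‖ ^ 2 + A) := by
    have h5 : min 1 A * (1 + ‖ξ‖ ^ 2) ≤ ‖ξ‖ ^ 2 + A := by nlinarith [sq_nonneg ‖ξ‖]
    have h6 : jb ξ ≤ 1 + ‖ξ‖ ^ 2 := by
      rw [← jb_sq]; nlinarith
    calc κ.re * min 1 A * jb ξ ≤ κ.re * min 1 A * (1 + ‖ξ‖ ^ 2) := by gcongr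
      _ = κ.re * (min 1 A * (1 + ‖ξ‖ ^ 2)) := by ring
      _ ≤ _ := by gcongr
  have h7 : 0 < ‖fm κ A ξ‖ := norm_pos_iff.mpr (fm_ne hκ hA ξ)
  rw [mul_one_div, div_le_div_iff₀ h7 (by positivity)]
  calc jb ξ * (κ.re * min 1 A) = κ.re * min 1 A * jb ξ := by ring
    _ ≤ _ := h2
    _ ≤ _ := by rw [one_mul]; exact h1

lemma good_jS {κ : ℂ} (hκ : 0 < κ.re) {A : ℝ} (hA : 0 < A) : Good (jS (d := d) κ A) :=
  ⟨((Complex.continuous_ofReal.comp continuous_jb).mul (continuous_fS hκ hA 1)).measurable, _,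
    norm_jS hκ hA⟩

/-- The constant of the form bound. -/
noncomputable def BB (κ : ℂ) (A hb : ℝ) : ℝ :=
  ‖(starRingEnd ℂ) κ * ((4 * π ^ 2 * hb ^ 2 : ℝ) : ℂ)⁻¹‖ * (1 / (κ.re * min 1 A))

lemma BB_nonneg {κ : ℂ} (hκ : 0 < κ.re) {A : ℝ} (hA : 0 < A) (hb : ℝ) : 0 ≤ BB κ A hb := by
  have : 0 < min 1 A := by positivity
  unfold BB
  positivity

lemma dd_jS (κ : ℂ) (A : ℝ) : (fun x : Sp d => dd x * jS κ A x) = fS κ A 1 := by
  funext x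
  unfold jS
  rw [← mul_assoc, dd_mul_jb, one_mul]

/-- The norm of the weighted transform. -/
lemma norm_Phi {κ : ℂ} (hκ : 0 < κ.re) {A : ℝ} (hA : 0 < A) (hb : ℝ) {h u Φ : HS d}
    (hu : RE κ A hb h = u) (h3 : Mop dd Φ = Fo u) : ‖Φ‖ ≤ BB κ A hb * ‖h‖ := by
  obtain ⟨c, hc⟩ : ∃ c : ℂ, c = (starRingEnd ℂ) κ * ((4 * π ^ 2 * hb ^ 2 : ℝ) : ℂ)⁻¹ := ⟨_, rfl⟩
  have h4 : Fo u = c • Mop (fS κ A 1) (Fo h) := by
    rw [← hu, hc]
    exact Fo_RE κ A hb h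
  have h5 : Mop dd (c • Mop (jS κ A) (Fo h)) = c • Mop (fS κ A 1) (Fo h) := by
    rw [← dd_jS, ← Mop_mul good_dd (good_jS hκ hA)]
    exact map_smul _ _ _
  have h6 : Mop dd (Φ - c • Mop (jS κ A) (Fo h)) = 0 := by
    refine (map_sub (Mop dd) Φ (c • Mop (jS κ A) (Fo h))).trans ?_
    rw [h5, h3, h4]
    exact sub_self _
  have e1 : Φ = c • Mop (jS κ A) (Fo h) := sub_eq_zero.mp (dd_inj h6)
  have h7 : ‖Mop (jS κ A) (Fo h)‖ ≤ 1 / (κ.re * min 1 A) * ‖h‖ := by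
    refine (Mop_norm_le (good_jS hκ hA) (norm_jS hκ hA) _).trans (le_of_eq ?_)
    rw [LinearIsometryEquiv.norm_map]
  unfold BB
  rw [← hc, e1, norm_smul, mul_assoc]
  exact mul_le_mul_of_nonneg_left h7 (norm_nonneg _)

/-- The energy of a test function. -/
lemma energy_Phi {S : Sp d → ℂ} {u Φ : HS d} {w : Fin d → HS d} (hu : u =ᵐ[volume] S)
    (hw : ∀ j, w j =ᵐ[volume] pd j S) (h3 : Mop dd Φ = Fo u)
    (h4 : ∀ j, Mop (sg j) Φ = Fo (w j)) :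
    (∑ j, ∫ x, ‖pd j S x‖ ^ 2) + ∫ x, ‖S x‖ ^ 2 ≤ 4 * π ^ 2 * ‖Φ‖ ^ 2 := by
  have hπ := Real.pi_pos
  have hsp := norm_split Φ
  have e1 : ∫ x, ‖S x‖ ^ 2 = ‖Mop dd Φ‖ ^ 2 := by
    rw [h3, LinearIsometryEquiv.norm_map, L2_norm_sq]
    apply integral_congr_ae
    filter_upwards [hu] with x hx
    rw [hx]
  have e2 : ∀ j, ∫ x, ‖pd j S x‖ ^ 2 = ‖Mop (sg j) Φ‖ ^ 2 := by
    intro j
    rw [h4, LinearIsometryEquiv.norm_map, L2_norm_sq]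
    apply integral_congr_ae
    filter_upwards [hw j] with x hx
    rw [hx]
  have e3 : ∑ j, ∫ x, ‖pd j S x‖ ^ 2 = ∑ j, ‖Mop (sg j) Φ‖ ^ 2 :=
    Finset.sum_congr rfl fun j _ => e2 j
  rw [e1, e3, hsp]
  obtain ⟨a, ha⟩ : ∃ a, a = ‖Mop dd Φ‖ ^ 2 := ⟨_, rfl⟩
  obtain ⟨b, hb⟩ : ∃ b, b = ∑ j, ‖Mop (sg j) Φ‖ ^ 2 := ⟨_, rfl⟩
  have ha0 : 0 ≤ a := by rw [ha]; positivity
  rw [← ha, ← hb]
  have hπ1 : 1 ≤ 4 * π ^ 2 := by nlinarith [Real.pi_gt_three]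
  have a1 : 4 * π ^ 2 * (a + 1 / (4 * π ^ 2) * b) = 4 * π ^ 2 * a + b := by field_simp
  rw [a1]
  have := mul_le_mul_of_nonneg_right hπ1 ha0
  linarith

lemma form_D_aux {V V₁ : Sp d → ℂ} {M K : ℝ} (hV : Measurable V) (hM : ∀ x, ‖V₁ x‖ ≤ M)
    {S : 𝓢(Sp d, ℂ)} (hi1 : Integrable (fun x => ‖V x - V₁ x‖ * ‖S x‖ ^ 2))
    (hi2 : ∫ x, ‖V x - V₁ x‖ * ‖S x‖ ^ 2 ≤ K) (hSu : ∫ x, ‖S x‖ ^ 2 ≤ K) :
    Integrable (fun x => ‖V x‖ * ‖S x‖ ^ 2) ∧ ∫ x, ‖V x‖ * ‖S x‖ ^ 2 ≤ (1 + M) * K := by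
  have hM0 : 0 ≤ M := (norm_nonneg _).trans (hM 0)
  have hSi : Integrable (fun x => ‖S x‖ ^ 2) := by
    have := (memLp_schwartz S)
    rw [memLp_two_iff_integrable_sq_norm this.1] at this
    exact this
  have hdom : Integrable (fun x => ‖V x - V₁ x‖ * ‖S x‖ ^ 2 + M * ‖S x‖ ^ 2) :=
    hi1.add (hSi.const_mul M)
  have hpt : ∀ x, ‖V x‖ * ‖S x‖ ^ 2 ≤ ‖V x - V₁ x‖ * ‖S x‖ ^ 2 + M * ‖S x‖ ^ 2 := by
    intro x
    have a1 : ‖V x‖ ≤ ‖V x - V₁ x‖ + M := by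
      have := norm_add_le (V x - V₁ x) (V₁ x)
      rw [sub_add_cancel] at this
      linarith [hM x]
    rw [← add_mul]
    exact mul_le_mul_of_nonneg_right a1 (by positivity)
  have hVi : Integrable (fun x => ‖V x‖ * ‖S x‖ ^ 2) := by
    refine hdom.mono' (hV.norm.mul (S.continuous.norm.pow 2).measurable).aestronglyMeasurable
      (Eventually.of_forall fun x => ?_)
    rw [Real.norm_of_nonneg (by positivity)]
    exact hpt x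
  refine ⟨hVi, ?_⟩
  calc ∫ x, ‖V x‖ * ‖S x‖ ^ 2 ≤ ∫ x, (‖V x - V₁ x‖ * ‖S x‖ ^ 2 + M * ‖S x‖ ^ 2) :=
        integral_mono hVi hdom hpt
    _ = (∫ x, ‖V x - V₁ x‖ * ‖S x‖ ^ 2) + M * ∫ x, ‖S x‖ ^ 2 := by
        rw [integral_add hi1 (hSi.const_mul M), integral_const_mul]
    _ ≤ K + M * K := add_le_add hi2 (mul_le_mul_of_nonneg_left hSu hM0)
    _ = (1 + M) * K := by ring

lemma toLp_eq {S : 𝓢(Sp d, ℂ)} {u : HS d} (hu : u =ᵐ[volume] S) :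
    SchwartzMap.toLpCLM ℂ ℂ 2 volume S = u := by
  apply Lp.ext
  have : SchwartzMap.toLpCLM ℂ ℂ 2 volume S = S.toLp 2 := rfl
  filter_upwards [S.coeFn_toLp 2 volume, hu] with x a1 a2
  rw [this, a1, a2]

/-- The form bound on the range of test functions. -/
lemma form_D {V : Sp d → ℂ} (hV : Admissible V) {κ : ℂ} (hκ : 0 < κ.re) (hκ1 : ‖κ‖ = 1)
    {A hb : ℝ} (hA : 0 < A) (hhb : 0 < hb) : ∃ C : ℝ, 0 ≤ C ∧
      ∀ h ∈ DD2 (d := d) hb (eE κ A hb), Integrable (fun x => ‖V x‖ * ‖RE κ A hb h x‖ ^ 2) ∧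
        ∫ x, ‖V x‖ * ‖RE κ A hb h x‖ ^ 2 ≤ C * ‖h‖ ^ 2 := by
  obtain ⟨V₁, hV₁m, ⟨M, hM⟩, -, hfb⟩ := hV.2 1 one_pos
  have hM0 : 0 ≤ M := (norm_nonneg _).trans (hM 0)
  have hB0 := BB_nonneg hκ hA hb
  refine ⟨(1 + M) * (4 * π ^ 2 * BB κ A hb ^ 2), by positivity, ?_⟩
  rintro h ⟨S, hS, hh⟩
  obtain ⟨u, Φ, w, hu, hw, h3, h4⟩ := test_data (isTest_of_schwartz hS)
  have hREu : RE κ A hb h = u := by
    rw [hh]
    exact (RE_PS hκ hκ1 hA hhb S).trans (toLp_eq hu)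
  have hΦ := norm_Phi hκ hA hb hREu h3
  have hS2 := energy_Phi hu hw h3 h4
  have hSu : ∫ x, ‖S x‖ ^ 2 ≤ 4 * π ^ 2 * ‖Φ‖ ^ 2 := by
    have : 0 ≤ ∑ j, ∫ x, ‖pd j S x‖ ^ 2 :=
      Finset.sum_nonneg fun j _ => integral_nonneg fun x => by positivity
    linarith
  obtain ⟨hi1, hi2⟩ := hfb S (isTest_of_schwartz hS)
  rw [one_mul] at hi2
  obtain ⟨hV1, hV2⟩ := form_D_aux hV.1 hM hi1 (hi2.trans hS2) hSu
  have hae : ∀ᵐ x, ‖V x‖ * ‖S x‖ ^ 2 = ‖V x‖ * ‖RE κ A hb h x‖ ^ 2 := by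
    rw [hREu]
    filter_upwards [hu] with x hx
    rw [hx]
  refine ⟨hV1.congr hae, ?_⟩
  rw [← integral_congr_ae hae]
  refine hV2.trans ?_
  have h5 : ‖Φ‖ ^ 2 ≤ (BB κ A hb * ‖h‖) ^ 2 := pow_le_pow_left₀ (norm_nonneg _) hΦ 2
  calc (1 + M) * (4 * π ^ 2 * ‖Φ‖ ^ 2) ≤ (1 + M) * (4 * π ^ 2 * (BB κ A hb * ‖h‖) ^ 2) :=
        mul_le_mul_of_nonneg_left (mul_le_mul_of_nonneg_left h5 (by positivity)) (by positivity)
    _ = _ := by ring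

/-- Truncated potentials. -/
noncomputable def Vtr (V : Sp d → ℂ) (N : ℕ) (x : Sp d) : ℂ := if ‖V x‖ ≤ N then (‖V x‖ : ℂ) else 0

lemma good_Vtr {V : Sp d → ℂ} (hV : Measurable V) (N : ℕ) : Good (Vtr V N) := by
  refine ⟨?_, N, fun x => ?_⟩
  · unfold Vtr
    apply Measurable.ite (measurableSet_le hV.norm measurable_const) _ measurable_const
    exact Complex.continuous_ofReal.measurable.comp hV.norm
  · unfold Vtr
    split_ifs with h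
    · rw [Complex.norm_real, norm_norm]; exact h
    · rw [norm_zero]; exact Nat.cast_nonneg N

lemma norm_Vtr_le (V : Sp d → ℂ) (N : ℕ) (x : Sp d) : ‖Vtr V N x‖ ≤ ‖V x‖ := by
  unfold Vtr
  split_ifs with h
  · rw [Complex.norm_real, norm_norm]
  · rw [norm_zero]; exact norm_nonneg _

lemma Vtr_eventually (V : Sp d → ℂ) (x : Sp d) : ∀ᶠ N in atTop, ‖Vtr V N x‖ = ‖V x‖ := by
  filter_upwards [eventually_ge_atTop ⌈‖V x‖⌉₊] with N hN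
  have h1 : ‖V x‖ ≤ N := (Nat.le_ceil _).trans (by exact_mod_cast hN)
  unfold Vtr
  rw [if_pos h1, Complex.norm_real, norm_norm]

/-- **The form bound.** -/
theorem form_all {V : Sp d → ℂ} (hV : Admissible V) {κ : ℂ} (hκ : 0 < κ.re) (hκ1 : ‖κ‖ = 1)
    {A hb : ℝ} (hA : 0 < A) (hhb : 0 < hb) (hE : eE κ A hb ∉ halfLine) : ∃ C : ℝ, 0 ≤ C ∧
      ∀ h : HS d, Integrable (fun x => ‖V x‖ * ‖RE κ A hb h x‖ ^ 2) ∧
        ∫ x, ‖V x‖ * ‖RE κ A hb h x‖ ^ 2 ≤ C * ‖h‖ ^ 2 := by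
  obtain ⟨C, hC0, hC⟩ := form_D hV hκ hκ1 hA hhb
  refine ⟨C, hC0, fun h => ?_⟩
  have hint : ∀ (N : ℕ) (y : HS d), Integrable (fun x => ‖Vtr V N x‖ * ‖y x‖ ^ 2) := fun N y =>
    integrable_w (good_Vtr hV.1 N) y
  have key : ∀ N : ℕ, ∫ x, ‖Vtr V N x‖ * ‖RE κ A hb h x‖ ^ 2 ≤ C * ‖h‖ ^ 2 := by
    intro N
    have hcont : Continuous (fun y : HS d => ∫ x, ‖Vtr V N x‖ * ‖y x‖ ^ 2) := by
      have e1 : (fun y : HS d => ∫ x, ‖Vtr V N x‖ * ‖y x‖ ^ 2) =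
          fun y : HS d => ‖⟪y, Mop (Vtr V N) y⟫_ℂ‖ := by
        funext y
        rw [inner_Mop (good_Vtr hV.1 N)]
        have e2 : ∀ x, (starRingEnd ℂ) (y x) * (Vtr V N x * y x) =
            ((‖Vtr V N x‖ * ‖y x‖ ^ 2 : ℝ) : ℂ) := by
          intro x
          have e3 : Vtr V N x = ((‖Vtr V N x‖ : ℝ) : ℂ) := by
            unfold Vtr
            split_ifs with h
            · rw [Complex.norm_real, norm_norm]
            · simp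
          rw [e3]
          push_cast
          rw [← Complex.conj_mul']
          simp only [Complex.norm_real, norm_norm]
          ring
        simp_rw [e2]
        rw [integral_complex_ofReal, Complex.norm_real, Real.norm_of_nonneg
          (integral_nonneg fun x => by positivity)]
      rw [e1]
      exact (continuous_id.inner (Mop (Vtr V N)).continuous).norm
    have hcl : IsClosed {h : HS d | ∫ x, ‖Vtr V N x‖ * ‖RE κ A hb h x‖ ^ 2 ≤ C * ‖h‖ ^ 2} := by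
      apply isClosed_le (hcont.comp (RE κ A hb).continuous)
      exact continuous_const.mul (continuous_norm.pow 2)
    have hsub : (DD2 (d := d) hb (eE κ A hb) : Set (HS d)) ⊆
        {h : HS d | ∫ x, ‖Vtr V N x‖ * ‖RE κ A hb h x‖ ^ 2 ≤ C * ‖h‖ ^ 2} := by
      intro h hh
      obtain ⟨h1, h2⟩ := hC h hh
      refine le_trans ?_ h2
      apply integral_mono (hint N _) h1
      intro x
      simp only
      gcongr
      exact norm_Vtr_le V N x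
    have h3 := closure_minimal hsub hcl
    have h4 : h ∈ (DD2 (d := d) hb (eE κ A hb)).topologicalClosure := by
      rw [dense_DD2 hE]; trivial
    exact h3 h4
  apply fatou_trunc (by positivity) (fun N => hint N _) (fun N x => by positivity) _ key
  · exact hV.1.norm.aestronglyMeasurable.mul ((Lp.memLp (RE κ A hb h)).1.norm.pow 2)
  · intro x
    filter_upwards [Vtr_eventually V x] with N hN
    rw [hN]

end MP497a12
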