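import Mathlib
import Pool.Agent.Lib.MP_497a12_mp.FBS

/-!
# The Birman-Schwinger argument: absence of eigenvalues
-/

open MeasureTheory Filter Topology Real Set
open scoped InnerProductSpace FourierTransform ENNReal ContDiff SchwartzMap LineDeriv

namespace MP497a12

variable {d : ℕ}

attribute [local irreducible] Mop Cop Fo

lemma memLp_test {φ : Sp d → ℂ} (hφ : IsTest φ) : MemLp φ 2 :=
  hφ.1.continuous.memLp_of_hasCompactSupport hφ.2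

/-- The eigenvalue equation tested with test functions, after integration by parts. -/
lemma graph_test {V : Sp d → ℂ} {hb : ℝ} {E : ℂ} {ψ f : Sp d → ℂ} (h : Graph V hb ψ f)
    (hf : f =ᵐ[volume] fun x => E * ψ x) {S : 𝓢(Sp d, ℂ)} (hS : HasCompactSupport S) :
    ∫ x, ψ x * PS hb E S x = - ∫ x, V x * ψ x * S x := by
  obtain ⟨hψ, -, G, hG, hw, -, heq⟩ := h
  have hT := isTest_of_schwartz hS
  have h1 := heq S hT
  have h2 : ∀ j, ∫ x, G j x * pd j S x = - ∫ x, ψ x * pd j (pd j S) x := by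
    intro j
    have := hw (pd j S) (isTest_pd hT j) j
    rw [this, neg_neg]
  have h3 : ∫ x, f x * S x = E * ∫ x, ψ x * S x := by
    rw [← integral_const_mul]
    apply integral_congr_ae
    filter_upwards [hf] with x hx
    rw [hx]; ring
  simp_rw [h2] at h1
  rw [h3] at h1
  have i1 : ∀ j, Integrable (fun x => ψ x * pd j (pd j S) x) := fun j =>
    hψ.integrable_mul (memLp_test (isTest_pd (isTest_pd hT j) j))
  have i2 : Integrable (fun x => ψ x * S x) := hψ.integrable_mul (memLp_test hT)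
  have h4 : ∫ x, ψ x * PS hb E S x = (-((hb ^ 2 : ℝ) : ℂ)) *
      (∑ j, ∫ x, ψ x * pd j (pd j S) x) + (-E) * ∫ x, ψ x * S x := by
    rw [← integral_finsetSum _ fun j _ => i1 j, ← integral_const_mul, ← integral_const_mul,
      ← integral_add ((integrable_finsetSum _ fun j _ => i1 j).const_mul _) (i2.const_mul _)]
    congr 1
    funext x
    rw [PS_apply, ← Finset.mul_sum]
    ring
  rw [h4]
  have h5 : (hb : ℂ) ^ 2 * (∑ j, -∫ x, ψ x * pd j (pd j S) x) =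
      (-((hb ^ 2 : ℝ) : ℂ)) * ∑ j, ∫ x, ψ x * pd j (pd j S) x := by
    rw [Finset.sum_neg_distrib]
    push_cast
    ring
  rw [h5] at h1
  linear_combination h1

/-- The pairing with the resolvent. -/
lemma pair_bound {V : Sp d → ℂ} (hV : Measurable V) {ψ : Sp d → ℂ} (hψm : AEStronglyMeasurable ψ)
    (hψ : Integrable (fun x => ‖V x‖ * ‖ψ x‖ ^ 2)) {y : Sp d → ℂ} (hym : AEStronglyMeasurable y)
    (hy : Integrable (fun x => ‖V x‖ * ‖y x‖ ^ 2)) :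
    Integrable (fun x => V x * ψ x * y x) ∧
      ‖∫ x, V x * ψ x * y x‖ ≤ √(∫ x, ‖V x‖ * ‖ψ x‖ ^ 2) * √(∫ x, ‖V x‖ * ‖y x‖ ^ 2) := by
  have hs : Measurable (fun x => √‖V x‖) := hV.norm.sqrt
  have ma : MemLp (fun x => √‖V x‖ * ‖ψ x‖) 2 := by
    have hm : AEStronglyMeasurable (fun x => √‖V x‖ * ‖ψ x‖) volume :=
      hs.aestronglyMeasurable.mul hψm.norm
    rw [memLp_two_iff_integrable_sq hm]
    refine hψ.congr (Eventually.of_forall fun x => ?_)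
    simp only
    rw [mul_pow, Real.sq_sqrt (norm_nonneg _)]
  have mb : MemLp (fun x => √‖V x‖ * ‖y x‖) 2 := by
    have hm : AEStronglyMeasurable (fun x => √‖V x‖ * ‖y x‖) volume :=
      hs.aestronglyMeasurable.mul hym.norm
    rw [memLp_two_iff_integrable_sq hm]
    refine hy.congr (Eventually.of_forall fun x => ?_)
    simp only
    rw [mul_pow, Real.sq_sqrt (norm_nonneg _)]
  obtain ⟨c1, c2⟩ := csw ma mb (fun x => by positivity) (fun x => by positivity)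
  have e1 : ∀ x, ‖V x * ψ x * y x‖ = √‖V x‖ * ‖ψ x‖ * (√‖V x‖ * ‖y x‖) := by
    intro x
    rw [norm_mul, norm_mul]
    have := Real.mul_self_sqrt (norm_nonneg (V x))
    calc ‖V x‖ * ‖ψ x‖ * ‖y x‖ = (√‖V x‖ * √‖V x‖) * ‖ψ x‖ * ‖y x‖ := by rw [this]
      _ = _ := by ring
  have hi : Integrable (fun x => V x * ψ x * y x) := by
    refine c1.mono' ((hV.aestronglyMeasurable.mul hψm).mul hym)
      (Eventually.of_forall fun x => ?_)
    rw [e1]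
  refine ⟨hi, ?_⟩
  calc ‖∫ x, V x * ψ x * y x‖ ≤ ∫ x, ‖V x * ψ x * y x‖ := norm_integral_le_integral_norm _
    _ = ∫ x, √‖V x‖ * ‖ψ x‖ * (√‖V x‖ * ‖y x‖) := by simp_rw [e1]
    _ ≤ _ := c2
    _ = _ := by
        simp_rw [mul_pow, Real.sq_sqrt (norm_nonneg _)]

/-- A bounded functional. -/
lemma exists_fn {V : Sp d → ℂ} (hV : Measurable V) {ψ : Sp d → ℂ} (hψm : AEStronglyMeasurable ψ)
    (hψ : Integrable (fun x => ‖V x‖ * ‖ψ x‖ ^ 2)) {R : HS d →L[ℂ] HS d} {C : ℝ} (hC0 : 0 ≤ C)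
    (hC : ∀ y : HS d, Integrable (fun x => ‖V x‖ * ‖R y x‖ ^ 2) ∧
      ∫ x, ‖V x‖ * ‖R y x‖ ^ 2 ≤ C * ‖y‖ ^ 2) :
    ∃ L2 : HS d →L[ℂ] ℂ, ∀ y, L2 y = ∫ x, V x * ψ x * R y x := by
  obtain ⟨P, hP⟩ : ∃ P, P = √(∫ x, ‖V x‖ * ‖ψ x‖ ^ 2) := ⟨_, rfl⟩
  have hP0 : 0 ≤ P := by rw [hP]; exact Real.sqrt_nonneg _
  have hpb := fun y : HS d => pair_bound hV hψm hψ (Lp.memLp (R y)).1 (hC y).1
  refine ⟨LinearMap.mkContinuous
    { toFun := fun y => ∫ x, V x * ψ x * R y x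
      map_add' := fun y z => by
        rw [← integral_add (hpb y).1 (hpb z).1]
        apply integral_congr_ae
        rw [map_add R y z]
        filter_upwards [Lp.coeFn_add (R y) (R z)] with x hx
        rw [hx, Pi.add_apply]; ring
      map_smul' := fun c y => by
        simp only [RingHom.id_apply, smul_eq_mul]
        rw [← integral_const_mul]
        apply integral_congr_ae
        rw [map_smul R c y]
        filter_upwards [Lp.coeFn_smul c (R y)] with x hx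
        rw [hx, Pi.smul_apply, smul_eq_mul]; ring }
    (P * √C) (fun y => ?_), fun y => rfl⟩
  refine (hpb y).2.trans ?_
  rw [mul_assoc, hP]
  apply mul_le_mul_of_nonneg_left _ (Real.sqrt_nonneg _)
  calc √(∫ x, ‖V x‖ * ‖R y x‖ ^ 2) ≤ √(C * ‖y‖ ^ 2) := Real.sqrt_le_sqrt (hC y).2
    _ = √C * ‖y‖ := by rw [Real.sqrt_mul hC0, Real.sqrt_sq (norm_nonneg _)]

lemma exists_vec {ψ : Sp d → ℂ} (hψ : MemLp ψ 2) :
    ∃ w : HS d, ∀ y : HS d, ⟪w, y⟫_ℂ = ∫ x, ψ x * y x := by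
  refine ⟨(hψ.star).toLp _, fun y => ?_⟩
  rw [inner_eq]
  apply integral_congr_ae
  filter_upwards [(hψ.star).coeFn_toLp] with x hx
  rw [hx]
  simp

lemma int_toLp (g : Sp d → ℂ) (S : 𝓢(Sp d, ℂ)) :
    ∫ x, g x * (SchwartzMap.toLpCLM ℂ ℂ 2 volume S : HS d) x = ∫ x, g x * S x := by
  apply integral_congr_ae
  have : SchwartzMap.toLpCLM ℂ ℂ 2 volume S = S.toLp 2 := rfl
  filter_upwards [S.coeFn_toLp 2 volume] with x hx
  rw [this, hx]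

/-- The identity for all right sides. -/
lemma ident {V : Sp d → ℂ} (hV : Admissible V) {κ : ℂ} (hκ : 0 < κ.re) (hκ1 : ‖κ‖ = 1)
    {A hb : ℝ} (hA : 0 < A) (hhb : 0 < hb) (hE : eE κ A hb ∉ halfLine) {ψ f : Sp d → ℂ}
    (h : Graph V hb ψ f) (hf : f =ᵐ[volume] fun x => eE κ A hb * ψ x) (k : HS d) :
    ∫ x, ψ x * k x = - ∫ x, V x * ψ x * RE κ A hb k x := by
  obtain ⟨C, hC0, hC⟩ := form_all hV hκ hκ1 hA hhb hE
  have hVψ : Integrable (fun x => ‖V x‖ * ‖ψ x‖ ^ 2) := by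
    obtain ⟨-, -, G, -, -, h5, -⟩ := h
    exact h5
  obtain ⟨L2, hL2a⟩ := exists_fn hV.1 h.1.1 hVψ hC0 hC
  obtain ⟨w, hL1⟩ := exists_vec h.1
  have hcl : IsClosed {y : HS d | ⟪w, y⟫_ℂ = - L2 y} := by
    apply isClosed_eq
    · exact continuous_const.inner continuous_id
    · exact L2.continuous.neg
  have hsub : (DD2 (d := d) hb (eE κ A hb) : Set (HS d)) ⊆ {y : HS d | ⟪w, y⟫_ℂ = - L2 y} := by
    rintro y ⟨S, hS, rfl⟩
    show ⟪w, _⟫_ℂ = - L2 _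
    rw [hL1, hL2a, RE_PS hκ hκ1 hA hhb S, int_toLp, graph_test h hf hS]
    congr 1
    exact (int_toLp (fun x => V x * ψ x) S).symm
  have h3 := closure_minimal hsub hcl
  have h4 : k ∈ (DD2 (d := d) hb (eE κ A hb)).topologicalClosure := by
    rw [dense_DD2 hE]; trivial
  have h5 : ⟪w, k⟫_ℂ = - L2 k := h3 h4
  rw [← hL1, h5, hL2a]

/-- Truncated square roots of the potential. -/
noncomputable def wtr (V : Sp d → ℂ) (N : ℕ) (x : Sp d) : ℂ :=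
  if ‖x‖ ≤ N ∧ (2 : ℝ) ^ (-(N : ℤ)) ≤ √‖V x‖ ∧ √‖V x‖ ≤ (2 : ℝ) ^ (N : ℤ) then (√‖V x‖ : ℂ) else 0

lemma tame_wtr {V : Sp d → ℂ} (hV : Measurable V) (N : ℕ) : Tame (wtr V N) N N where
  meas := by
    unfold wtr
    have hs : Measurable (fun x => √‖V x‖) := hV.norm.sqrt
    apply Measurable.ite _ _ measurable_const
    · exact (measurableSet_le measurable_norm measurable_const).inter
        ((measurableSet_le measurable_const hs).inter (measurableSet_le hs measurable_const))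
    · exact Complex.continuous_ofReal.measurable.comp hs
  supp x hx := by
    unfold wtr at hx
    split_ifs at hx with h
    · exact h.1
    · exact absurd rfl hx
  low x hx := by
    unfold wtr at hx ⊢
    split_ifs at hx ⊢ with h
    · rw [Complex.norm_real, Real.norm_of_nonneg (Real.sqrt_nonneg _)]
      exact h.2.1
    · exact absurd rfl hx
  high x := by
    unfold wtr
    split_ifs with h
    · rw [Complex.norm_real, Real.norm_of_nonneg (Real.sqrt_nonneg _)]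
      exact h.2.2
    · rw [norm_zero]; positivity

lemma wtr_sq_le (V : Sp d → ℂ) (N : ℕ) (x : Sp d) : ‖wtr V N x‖ ^ 2 ≤ ‖V x‖ := by
  unfold wtr
  split_ifs with h
  · rw [Complex.norm_real, Real.norm_of_nonneg (Real.sqrt_nonneg _), Real.sq_sqrt (norm_nonneg _)]
  · rw [norm_zero]
    simp

lemma wtr_conj (V : Sp d → ℂ) (N : ℕ) (x : Sp d) : (starRingEnd ℂ) (wtr V N x) = wtr V N x := by
  unfold wtr
  split_ifs with h
  · exact Complex.conj_ofReal _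
  · exact map_zero _

lemma wtr_eventually (V : Sp d → ℂ) (x : Sp d) : ∀ᶠ N in atTop, ‖wtr V N x‖ ^ 2 = ‖V x‖ := by
  by_cases hx : V x = 0
  · refine Eventually.of_forall fun N => ?_
    have h0 : wtr V N x = 0 := by
      unfold wtr
      rw [if_neg]
      rintro ⟨-, h2, -⟩
      rw [hx, norm_zero, Real.sqrt_zero] at h2
      have : (0 : ℝ) < 2 ^ (-(N : ℤ)) := by positivity
      linarith
    rw [h0, hx]; simp
  · have hs : 0 < √‖V x‖ := Real.sqrt_pos.mpr (norm_pos_iff.mpr hx)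
    have h1 : Tendsto (fun N : ℕ => (2 : ℝ) ^ N) atTop atTop :=
      tendsto_pow_atTop_atTop_of_one_lt (by norm_num)
    filter_upwards [eventually_ge_atTop ⌈‖x‖⌉₊, h1.eventually_ge_atTop (√‖V x‖),
      h1.eventually_ge_atTop (√‖V x‖)⁻¹] with N hN1 hN2 hN3
    have h2 : ‖x‖ ≤ N := (Nat.le_ceil _).trans (by exact_mod_cast hN1)
    have h3 : (2 : ℝ) ^ (-(N : ℤ)) ≤ √‖V x‖ := by
      rw [zpow_neg, zpow_natCast]
      exact inv_le_of_inv_le₀ hs hN3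
    have h4 : √‖V x‖ ≤ (2 : ℝ) ^ (N : ℤ) := by rw [zpow_natCast]; exact hN2
    unfold wtr
    rw [if_pos ⟨h2, h3, h4⟩, Complex.norm_real, Real.norm_of_nonneg hs.le,
      Real.sq_sqrt (norm_nonneg _)]

lemma cancel_sq {a c : ℝ} (ha : 0 ≤ a) (hc : 0 ≤ c) (h : a ^ 2 ≤ c * a) : a ≤ c := by
  rcases ha.lt_or_eq with h0 | h0
  · have h3 : a * a ≤ c * a := by rw [← pow_two]; exact h
    exact le_of_mul_le_mul_right h3 h0
  · rw [← h0]; exact hc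

lemma int_wtr_Mop {V : Sp d → ℂ} (hV : Measurable V) (M : ℕ) {y : HS d} {ψ : Sp d → ℂ}
    (hy : y =ᵐ[volume] ψ) : Integrable (fun x => ‖wtr V M x‖ ^ 2 * ‖ψ x‖ ^ 2) ∧
      ∫ x, ‖wtr V M x‖ ^ 2 * ‖ψ x‖ ^ 2 = ‖Mop (wtr V M) y‖ ^ 2 := by
  have hae : ∀ᵐ x, ‖(Mop (wtr V M) y) x‖ ^ 2 = ‖wtr V M x‖ ^ 2 * ‖ψ x‖ ^ 2 := by
    filter_upwards [Mop_coe (tame_wtr hV M).good y, hy] with x hx hx2
    rw [hx, hx2, norm_mul, mul_pow]
  refine ⟨(integrable_sq (Mop (wtr V M) y)).congr hae, ?_⟩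
  rw [L2_norm_sq]
  exact (integral_congr_ae hae).symm

/-- Fatou's lemma for the truncated weights. -/
lemma fatou_wtr {V : Sp d → ℂ} (hV : Measurable V) {y : HS d} {ψ : Sp d → ℂ}
    (hy : y =ᵐ[volume] ψ) (hψ : AEStronglyMeasurable ψ) {K : ℝ} (hK : 0 ≤ K)
    (h : ∀ M : ℕ, ‖Mop (wtr V M) y‖ ^ 2 ≤ K) : ∫ x, ‖V x‖ * ‖ψ x‖ ^ 2 ≤ K := by
  refine (fatou_trunc (F := fun M x => ‖wtr V M x‖ ^ 2 * ‖ψ x‖ ^ 2) hK
    (fun M => (int_wtr_Mop hV M hy).1) (fun M x => by positivity) ?_ (fun M => ?_) ?_).2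
  · intro x
    filter_upwards [wtr_eventually V x] with M hM
    rw [hM]
  · rw [(int_wtr_Mop hV M hy).2]
    exact h M
  · exact hV.norm.aestronglyMeasurable.mul (hψ.norm.pow 2)

lemma bs_A {V : Sp d → ℂ} (hV : Measurable V) {R : HS d →L[ℂ] HS d} {κ₀ : ℝ} (hκ₀ : 0 ≤ κ₀)
    (hbs : ∀ (N : ℕ) (f g : HS d) , ∀ M : ℕ,
      ‖⟪Mop (wtr V M) f, R (Mop (wtr V N) g)⟫_ℂ‖ ≤ κ₀ * (‖f‖ * ‖g‖)) (N : ℕ) (k : HS d) :
    ∫ x, ‖V x‖ * ‖R (Mop (wtr V N) k) x‖ ^ 2 ≤ (κ₀ * ‖k‖) ^ 2 := by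
  obtain ⟨y, hy⟩ : ∃ y, y = R (Mop (wtr V N) k) := ⟨_, rfl⟩
  rw [← hy]
  apply fatou_wtr hV (y := y) (Filter.EventuallyEq.refl _ _) (Lp.memLp y).1 (by positivity)
  intro M
  apply pow_le_pow_left₀ (norm_nonneg _)
  have hg := (tame_wtr hV M).good
  have e1 : ⟪Mop (wtr V M) (Mop (wtr V M) y), y⟫_ℂ = ⟪Mop (wtr V M) y, Mop (wtr V M) y⟫_ℂ := by
    rw [inner_Mop_left hg]
    congr 2
    simp_rw [wtr_conj]
  have h1 := hbs N (Mop (wtr V M) y) k M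
  rw [← hy, e1, inner_self_eq_norm_sq_to_K, norm_pow] at h1
  simp only [RCLike.norm_ofReal, abs_norm] at h1
  apply cancel_sq (norm_nonneg _) (by positivity)
  refine h1.trans (le_of_eq ?_)
  ring

lemma bs_B {V : Sp d → ℂ} (hV : Measurable V) {κ : ℂ} {A hb : ℝ} {ψ : Sp d → ℂ}
    (hψ : MemLp ψ 2) (hVψ : Integrable (fun x => ‖V x‖ * ‖ψ x‖ ^ 2))
    (hC : ∀ y : HS d, Integrable (fun x => ‖V x‖ * ‖RE κ A hb y x‖ ^ 2))
    (hid : ∀ k : HS d, ∫ x, ψ x * k x = - ∫ x, V x * ψ x * RE κ A hb k x)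
    {κ₀ : ℝ} (hκ₀ : 0 ≤ κ₀)
    (stepA : ∀ (N : ℕ) (k : HS d), ∫ x, ‖V x‖ * ‖RE κ A hb (Mop (wtr V N) k) x‖ ^ 2 ≤
      (κ₀ * ‖k‖) ^ 2) {ψc : HS d} (hψc : ψc =ᵐ[volume] fun x => (starRingEnd ℂ) (ψ x)) (N : ℕ) :
    ‖Mop (wtr V N) ψc‖ ^ 2 ≤ κ₀ ^ 2 * ∫ x, ‖V x‖ * ‖ψ x‖ ^ 2 := by
  have hg := (tame_wtr hV N).good
  obtain ⟨I0, hI0⟩ : ∃ I0, I0 = ∫ x, ‖V x‖ * ‖ψ x‖ ^ 2 := ⟨_, rfl⟩
  have hI00 : 0 ≤ I0 := by rw [hI0]; exact integral_nonneg fun x => by positivity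
  obtain ⟨k, hk⟩ : ∃ k, k = Mop (wtr V N) ψc := ⟨_, rfl⟩
  have hke := Mop_coe hg ψc
  have e3 : ∫ x, ‖wtr V N x‖ ^ 2 * ‖ψ x‖ ^ 2 = ‖k‖ ^ 2 := by
    rw [L2_norm_sq]
    apply integral_congr_ae
    filter_upwards [hke, hψc] with x a1 a2
    rw [hk, a1, a2, norm_mul, RCLike.norm_conj, mul_pow]
  have h1 := hid (Mop (wtr V N) k)
  have e4 : ∫ x, ψ x * (Mop (wtr V N) k) x = ((‖k‖ ^ 2 : ℝ) : ℂ) := by
    rw [← e3, ← integral_complex_ofReal]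
    apply integral_congr_ae
    filter_upwards [Mop_coe hg k, hke, hψc] with x a1 a2 a3
    rw [a1, hk, a2, a3]
    have a4 := Complex.mul_conj' (wtr V N x)
    have a5 := Complex.mul_conj' (ψ x)
    rw [wtr_conj] at a4
    push_cast
    rw [← a4, ← a5]
    ring
  have h2 := (pair_bound hV hψ.1 hVψ (Lp.memLp (RE κ A hb (Mop (wtr V N) k))).1
    (hC (Mop (wtr V N) k))).2
  rw [← hI0] at h2
  have h3 : ‖k‖ ^ 2 ≤ (√I0 * κ₀) * ‖k‖ := by
    have h4 : ‖∫ x, ψ x * (Mop (wtr V N) k) x‖ = ‖k‖ ^ 2 := by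
      rw [e4, Complex.norm_real, Real.norm_of_nonneg (by positivity)]
    rw [← h4, h1, norm_neg, mul_assoc]
    refine h2.trans ?_
    apply mul_le_mul_of_nonneg_left _ (Real.sqrt_nonneg _)
    calc √(∫ x, ‖V x‖ * ‖RE κ A hb (Mop (wtr V N) k) x‖ ^ 2) ≤ √((κ₀ * ‖k‖) ^ 2) :=
          Real.sqrt_le_sqrt (stepA N k)
      _ = κ₀ * ‖k‖ := Real.sqrt_sq (by positivity)
  have h5 : ‖k‖ ≤ √I0 * κ₀ := cancel_sq (norm_nonneg _) (by positivity) h3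
  rw [← hk, ← hI0]
  calc ‖k‖ ^ 2 ≤ (√I0 * κ₀) ^ 2 := pow_le_pow_left₀ (norm_nonneg _) h5 2
    _ = κ₀ ^ 2 * I0 := by rw [mul_pow, Real.sq_sqrt hI00]; ring

lemma zero_of_le {a c : ℝ} (ha : 0 ≤ a) (hc : 0 ≤ c) (hc1 : c < 1) (h : a ≤ c ^ 2 * a) : a = 0 := by
  have h1 : c ^ 2 < 1 := pow_lt_one₀ hc hc1 (by norm_num)
  rcases ha.lt_or_eq with h0 | h0
  · exfalso
    have := mul_lt_mul_of_pos_right h1 h0
    linarith
  · exact h0.symm

lemma ae_zero_of {ψ : Sp d → ℂ} (hψ : MemLp ψ 2) (h : ∫ x, ‖ψ x‖ ^ 2 = 0) : ψ =ᵐ[volume] 0 := by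
  have hint : Integrable (fun x => ‖ψ x‖ ^ 2) := by
    have := hψ
    rw [memLp_two_iff_integrable_sq_norm this.1] at this
    exact this
  rw [integral_eq_zero_iff_of_nonneg (fun x => by positivity) hint] at h
  filter_upwards [h] with x hx
  have h6 : ‖ψ x‖ ^ 2 = 0 := hx
  rw [Pi.zero_apply]
  exact norm_eq_zero.mp (pow_eq_zero_iff (by norm_num) |>.mp h6)

/-- **Absence of eigenvalues.** -/
theorem bs_zero {V : Sp d → ℂ} (hV : Admissible V) {κ : ℂ} (hκ : 0 < κ.re) (hκ1 : ‖κ‖ = 1)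
    {A hb : ℝ} (hA : 0 < A) (hhb : 0 < hb) (hE : eE κ A hb ∉ halfLine) {κ₀ : ℝ} (hκ₀ : 0 ≤ κ₀)
    (hκ₀1 : κ₀ < 1)
    (hbs : ∀ (N : ℕ) (f g : HS d) , ∀ M : ℕ,
      ‖⟪Mop (wtr V M) f, RE κ A hb (Mop (wtr V N) g)⟫_ℂ‖ ≤ κ₀ * (‖f‖ * ‖g‖))
    {ψ f : Sp d → ℂ} (h : Graph V hb ψ f) (hf : f =ᵐ[volume] fun x => eE κ A hb * ψ x) :
    ψ =ᵐ[volume] 0 := by
  obtain ⟨C, hC0, hC⟩ := form_all hV hκ hκ1 hA hhb hE
  have hψ := h.1
  have hVψ : Integrable (fun x => ‖V x‖ * ‖ψ x‖ ^ 2) := by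
    obtain ⟨-, -, G, -, -, h5, -⟩ := h
    exact h5
  have hid := ident hV hκ hκ1 hA hhb hE h hf
  have stepA := bs_A hV.1 hκ₀ hbs
  obtain ⟨ψc, hψc⟩ : ∃ ψc : HS d, ψc =ᵐ[volume] fun x => (starRingEnd ℂ) (ψ x) :=
    ⟨(hψ.star).toLp _, (hψ.star).coeFn_toLp⟩
  have hI00 : 0 ≤ ∫ x, ‖V x‖ * ‖ψ x‖ ^ 2 := integral_nonneg fun x => by positivity
  have stepB := bs_B hV.1 hψ hVψ (fun y => (hC y).1) hid hκ₀ stepA hψc
  have stepC : ∫ x, ‖V x‖ * ‖ψ x‖ ^ 2 ≤ κ₀ ^ 2 * ∫ x, ‖V x‖ * ‖ψ x‖ ^ 2 := by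
    have h6 := fatou_wtr hV.1 hψc (hψ.star).1 (by positivity) stepB
    simpa using h6
  have hI := zero_of_le hI00 hκ₀ hκ₀1 stepC
  -- Step D
  have h1 := hid ψc
  have h2 := (pair_bound hV.1 hψ.1 hVψ (Lp.memLp (RE κ A hb ψc)).1 (hC ψc).1).2
  rw [hI, Real.sqrt_zero, zero_mul] at h2
  have h3 := norm_eq_zero.mp (le_antisymm h2 (norm_nonneg _))
  rw [h3, neg_zero] at h1
  have h4 : ∫ x, ψ x * ψc x = ((∫ x, ‖ψ x‖ ^ 2 : ℝ) : ℂ) := by
    rw [← integral_complex_ofReal]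
    apply integral_congr_ae
    filter_upwards [hψc] with x hx
    rw [hx]
    have := Complex.mul_conj' (ψ x)
    push_cast
    rw [← this]
  rw [h4] at h1
  exact ae_zero_of hψ (by exact_mod_cast h1)

end MP497a12
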