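import Mathlib
import Pool.Agent.Lib.MP_497a12_mp.FBS2

/-!
# Absence of large eigenvalues for `γ ≤ 1/2`
-/

open MeasureTheory Filter Topology Real Set
open scoped InnerProductSpace FourierTransform ENNReal ContDiff SchwartzMap

namespace MP497a12

variable {d : ℕ}

attribute [local irreducible] Mop Cop Fo

/-- The parameters of an energy outside `[0, ∞)`. -/
lemma exists_kappa {E : ℂ} (hE : E ∉ halfLine) {hb : ℝ} (hhb : 0 < hb) : ∃ (κ : ℂ) (A : ℝ),
    0 < κ.re ∧ ‖κ‖ = 1 ∧ 0 < A ∧ eE κ A hb = E ∧ 4 * π ^ 2 * hb ^ 2 * A = ‖E‖ := by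
  have hπ := Real.pi_pos
  have hE0 : E ≠ 0 := by
    intro h
    exact hE ⟨0, le_rfl, by rw [h]; simp⟩
  obtain ⟨r, hr⟩ : ∃ r : ℝ, r = ‖E‖ := ⟨_, rfl⟩
  have hn : 0 < r := by rw [hr]; exact norm_pos_iff.mpr hE0
  have hnC : (r : ℂ) ≠ 0 := by exact_mod_cast hn.ne'
  obtain ⟨w, hw⟩ := IsAlgClosed.exists_pow_nat_eq (-E / r) (n := 2) (by norm_num)
  have hw2 : -(r : ℂ) * w ^ 2 = E := by
    rw [hw]; field_simp
  have hw1 : ‖w‖ = 1 := by
    have h1 : ‖w‖ ^ 2 = 1 := by
      rw [← norm_pow, hw, norm_div, norm_neg, Complex.norm_real, Real.norm_of_nonneg hn.le, ← hr]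
      field_simp
    have h2 := norm_nonneg w
    nlinarith
  have hre : w.re ≠ 0 := by
    intro h0
    apply hE
    refine ⟨r * w.im ^ 2, by positivity, ?_⟩
    have h1 : w = w.im * Complex.I := by
      apply Complex.ext <;> simp [h0]
    rw [← hw2, h1, mul_pow, Complex.I_sq]
    push_cast
    simp
  have key : ∀ κ : ℂ, 0 < κ.re → ‖κ‖ = 1 → κ ^ 2 = w ^ 2 → ∃ (κ : ℂ) (A : ℝ),
      0 < κ.re ∧ ‖κ‖ = 1 ∧ 0 < A ∧ eE κ A hb = E ∧ 4 * π ^ 2 * hb ^ 2 * A = r := by
    intro κ h1 h2 h3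
    have h4 : 4 * π ^ 2 * hb ^ 2 * (r / (4 * π ^ 2 * hb ^ 2)) = r := by field_simp
    refine ⟨κ, r / (4 * π ^ 2 * hb ^ 2), h1, h2, by positivity, ?_, h4⟩
    unfold eE
    rw [h4, h3, hw2]
  rw [← hr]
  rcases lt_or_gt_of_ne hre with h | h
  · exact key (-w) (by simpa using h) (by rw [norm_neg]; exact hw1) (by ring)
  · exact key w h hw1 rfl

/-- The bilinear form with the resolvent. -/
lemma norm_RE_pair {κ : ℂ} (hκ1 : ‖κ‖ = 1) {A hb : ℝ} (hhb : 0 < hb) (u v : HS d) :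
    ‖⟪u, RE κ A hb v⟫_ℂ‖ = (4 * π ^ 2 * hb ^ 2)⁻¹ * ‖⟪Fo u, Mop (fS κ A 1) (Fo v)⟫_ℂ‖ := by
  have hπ := Real.pi_pos
  rw [← LinearIsometryEquiv.inner_map_map Fo, Fo_RE, inner_smul_right, norm_mul, norm_mul,
    RCLike.norm_conj, hκ1, one_mul, norm_inv, Complex.norm_real,
    Real.norm_of_nonneg (by positivity)]

lemma Tame.mono {w : Sp d → ℂ} {N N' : ℤ} {R R' : ℝ} (h : Tame w N R) (hN : N ≤ N')
    (hR : R ≤ R') : Tame w N' R' where
  meas := h.meas
  supp x hx := (h.supp x hx).trans hR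
  low x hx := le_trans (zpow_le_zpow_right₀ (by norm_num) (by omega)) (h.low x hx)
  high x := (h.high x).trans (zpow_le_zpow_right₀ (by norm_num) hN)

lemma Tame.indicator {w : Sp d → ℂ} {N : ℤ} {R : ℝ} (h : Tame w N R) {S : Set (Sp d)}
    (hS : MeasurableSet S) : Tame (S.indicator w) N R := by
  have h0 : ∀ x, S.indicator w x ≠ 0 → x ∈ S ∧ S.indicator w x = w x ∧ w x ≠ 0 := by
    intro x hx
    by_cases hxS : x ∈ S
    · rw [indicator_of_mem hxS] at hx
      exact ⟨hxS, indicator_of_mem hxS _, hx⟩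
    · exact absurd (indicator_of_notMem hxS _) hx
  refine ⟨h.meas.indicator hS, fun x hx => h.supp x (h0 x hx).2.2, fun x hx => ?_, fun x => ?_⟩
  · rw [(h0 x hx).2.1]
    exact h.low x (h0 x hx).2.2
  · by_cases hxS : x ∈ S
    · rw [indicator_of_mem hxS]; exact h.high x
    · rw [indicator_of_notMem hxS, norm_zero]; positivity

lemma Mop_split {w : Sp d → ℂ} {N : ℤ} {R : ℝ} (h : Tame w N R) {S : Set (Sp d)}
    (hS : MeasurableSet S) (f : HS d) :
    Mop w f = Mop (S.indicator w) f + Mop (Sᶜ.indicator w) f := by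
  rw [← Mop_add (h.indicator hS).good (h.indicator hS.compl).good]
  congr 2
  funext x
  have := congrFun (Set.indicator_self_add_compl S w) x
  rw [Pi.add_apply] at this
  exact this.symm

/-- The regular part of space. -/
def gS (V : Sp d → ℂ) (ρ : ℕ) : Set (Sp d) := {x | ‖x‖ ≤ ρ ∧ ‖V x‖ ≤ ρ}

lemma measurableSet_gS {V : Sp d → ℂ} (hV : Measurable V) (ρ : ℕ) : MeasurableSet (gS V ρ) :=
  (measurableSet_le measurable_norm measurable_const).inter
    (measurableSet_le hV.norm measurable_const)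

/-- The tail of the integral. -/
noncomputable def eta (V : Sp d → ℂ) (q : ℝ) (ρ : ℕ) : ℝ := ∫ x, (gS V ρ)ᶜ.indicator
  (fun x => ‖V x‖ ^ q) x

lemma tendsto_eta {V : Sp d → ℂ} (hV : Measurable V) {q : ℝ}
    (hi : Integrable (fun x => ‖V x‖ ^ q)) : Tendsto (eta V q) atTop (𝓝 0) := by
  have h0 : (0 : ℝ) = ∫ x : Sp d, (0 : ℝ) := by simp
  rw [h0]
  unfold eta
  apply tendsto_integral_of_dominated_convergence (fun x => ‖V x‖ ^ q)
  · intro ρ
    exact hi.aestronglyMeasurable.indicator (measurableSet_gS hV ρ).compl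
  · exact hi
  · intro ρ
    refine Eventually.of_forall fun x => ?_
    rw [Real.norm_of_nonneg (indicator_nonneg (fun y _ => by positivity) x)]
    exact indicator_le_self' (fun y _ => by positivity) x
  · refine Eventually.of_forall fun x => ?_
    apply Tendsto.congr' _ tendsto_const_nhds
    filter_upwards [eventually_ge_atTop ⌈‖x‖⌉₊, eventually_ge_atTop ⌈‖V x‖⌉₊] with ρ h1 h2
    have h3 : ‖x‖ ≤ ρ := (Nat.le_ceil _).trans (by exact_mod_cast h1)
    have h4 : ‖V x‖ ≤ ρ := (Nat.le_ceil _).trans (by exact_mod_cast h2)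
    rw [indicator_of_notMem]
    intro h
    exact h ⟨h3, h4⟩

lemma eta_nonneg (V : Sp d → ℂ) (q : ℝ) (ρ : ℕ) : 0 ≤ eta V q ρ :=
  integral_nonneg fun x => indicator_nonneg (fun y _ => by positivity) x

lemma wtr_pow_le (V : Sp d → ℂ) {q : ℝ} (hq : 0 < q) (N : ℕ) (x : Sp d) :
    ‖wtr V N x‖ ^ (2 * q) ≤ ‖V x‖ ^ q := by
  rw [Real.rpow_mul (norm_nonneg _)]
  apply Real.rpow_le_rpow (by positivity) _ hq.le
  rw [Real.rpow_two]
  exact wtr_sq_le V N x

lemma int_wtr {V : Sp d → ℂ} (hV : Measurable V) {q : ℝ} (hq : 0 < q)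
    (hi : Integrable (fun x => ‖V x‖ ^ q)) (N : ℕ) :
    ∫ x, ‖wtr V N x‖ ^ (2 * q) ≤ ∫ x, ‖V x‖ ^ q :=
  integral_mono ((tame_wtr hV N).integrable_rpow (by positivity)) hi (wtr_pow_le V hq N)

lemma ind_pow (S : Set (Sp d)) (w : Sp d → ℂ) {q : ℝ} (hq : 0 < q) (x : Sp d) :
    ‖S.indicator w x‖ ^ q = S.indicator (fun x => ‖w x‖ ^ q) x := by
  by_cases hx : x ∈ S
  · rw [indicator_of_mem hx, indicator_of_mem hx]
  · rw [indicator_of_notMem hx, indicator_of_notMem hx, norm_zero, Real.zero_rpow hq.ne']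

lemma int_ind_le {w : Sp d → ℂ} {N : ℤ} {R : ℝ} (h : Tame w N R) {S : Set (Sp d)}
    (hS : MeasurableSet S) {q : ℝ} (hq : 0 < q) :
    ∫ x, ‖S.indicator w x‖ ^ q ≤ ∫ x, ‖w x‖ ^ q := by
  apply integral_mono ((h.indicator hS).integrable_rpow hq) (h.integrable_rpow hq)
  intro x
  simp only
  rw [ind_pow S w hq]
  exact indicator_le_self' (fun y _ => by positivity) x

lemma int_tail {V : Sp d → ℂ} (hV : Measurable V) {q : ℝ} (hq : 0 < q)
    (hi : Integrable (fun x => ‖V x‖ ^ q)) (ρ N : ℕ) :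
    ∫ x, ‖(gS V ρ)ᶜ.indicator (wtr V N) x‖ ^ (2 * q) ≤ eta V q ρ := by
  unfold eta
  have hS := (measurableSet_gS hV ρ).compl
  apply integral_mono (((tame_wtr hV N).indicator hS).integrable_rpow (by positivity))
    (hi.indicator hS)
  intro x
  simp only
  rw [ind_pow _ _ (by positivity)]
  exact indicator_le_indicator (wtr_pow_le V hq N x)

lemma int_reg {V : Sp d → ℂ} (hV : Measurable V) {σ : ℝ} (hσ : 0 < σ) (ρ N : ℕ) :
    ∫ x, ‖(gS V ρ).indicator (wtr V N) x‖ ^ (2 * σ) ≤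
      (ρ : ℝ) ^ σ * (volume (Metric.closedBall (0 : Sp d) ρ)).toReal := by
  have hS := measurableSet_gS hV ρ
  have h1 : Integrable ((Metric.closedBall (0 : Sp d) ρ).indicator fun _ => (ρ : ℝ) ^ σ) := by
    rw [integrable_indicator_iff Metric.isClosed_closedBall.measurableSet]
    exact integrableOn_const measure_closedBall_lt_top.ne
  calc ∫ x, ‖(gS V ρ).indicator (wtr V N) x‖ ^ (2 * σ)
      ≤ ∫ x, (Metric.closedBall (0 : Sp d) ρ).indicator (fun _ => (ρ : ℝ) ^ σ) x := by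
        apply integral_mono (((tame_wtr hV N).indicator hS).integrable_rpow (by positivity)) h1
        intro x
        simp only
        rw [ind_pow _ _ (by positivity)]
        by_cases hx : x ∈ gS V ρ
        · rw [indicator_of_mem hx, indicator_of_mem (by
            rw [mem_closedBall_zero_iff]; exact hx.1)]
          refine (wtr_pow_le V hσ N x).trans ?_
          exact Real.rpow_le_rpow (norm_nonneg _) hx.2 hσ.le
        · rw [indicator_of_notMem hx]
          apply indicator_nonneg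
          intro y _
          positivity
    _ = _ := by
        rw [integral_indicator_const _ Metric.isClosed_closedBall.measurableSet, smul_eq_mul,
          mul_comm]
        rfl

end MP497a12
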