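import Mathlib
import Pool.Agent.Lib.MP_497a12_mp.FEnd

/-!
# The key bound for `γ ≤ 1/2`
-/

open MeasureTheory Filter Topology Real Set
open scoped InnerProductSpace FourierTransform ENNReal

namespace MP497a12

variable {d : ℕ}

attribute [local irreducible] Mop Cop Fo

lemma arith1 {D γ q hb A J : ℝ} (hγ : 0 < γ) (hD : 0 < D) (hq : q = γ + D / 2) (hhb : 0 < hb)
    (hA : 0 < A) (hJ : 0 < J) (h : hb ^ (-D) * J ≤ (4 * π ^ 2 * hb ^ 2 * A) ^ γ) :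
    (4 * π ^ 2 * hb ^ 2)⁻¹ * A ^ (-(γ / q)) ≤ J ^ (-(1 / q)) := by
  have hπ := Real.pi_pos
  have hq0 : 0 < q := by rw [hq]; positivity
  obtain ⟨P, hP⟩ : ∃ P : ℝ, P = 4 * π ^ 2 := ⟨_, rfl⟩
  have hP1 : 1 ≤ P := by rw [hP]; nlinarith [Real.pi_gt_three]
  have hP0 : 0 < P := by linarith
  rw [← hP] at h ⊢
  have h1 : (P * hb ^ 2 * A) ^ γ = P ^ γ * hb ^ (2 * γ) * A ^ γ := by
    rw [Real.mul_rpow (by positivity) hA.le, Real.mul_rpow hP0.le (by positivity),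
      ← Real.rpow_natCast, ← Real.rpow_mul hhb.le]
    norm_num
  rw [h1] at h
  have h2 : ((P * hb ^ 2)⁻¹ * A ^ (-(γ / q))) ^ q = P ^ (-q) * hb ^ (-(2 * q)) * A ^ (-γ) := by
    rw [Real.mul_rpow (by positivity) (by positivity), ← Real.rpow_mul hA.le,
      Real.inv_rpow (by positivity), Real.mul_rpow hP0.le (by positivity),
      ← Real.rpow_natCast, ← Real.rpow_mul hhb.le, mul_inv, ← Real.rpow_neg hP0.le,
      ← Real.rpow_neg hhb.le]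
    congr 2
    field_simp
  have h3 : P ^ (-q) * hb ^ (-(2 * q)) * A ^ (-γ) * J ≤ 1 := by
    have e1 : J = hb ^ D * (hb ^ (-D) * J) := by
      rw [← mul_assoc, ← Real.rpow_add hhb]
      simp
    calc P ^ (-q) * hb ^ (-(2 * q)) * A ^ (-γ) * J
        = P ^ (-q) * hb ^ (-(2 * q)) * A ^ (-γ) * (hb ^ D * (hb ^ (-D) * J)) := by rw [← e1]
      _ ≤ P ^ (-q) * hb ^ (-(2 * q)) * A ^ (-γ) * (hb ^ D * (P ^ γ * hb ^ (2 * γ) * A ^ γ)) := by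
          gcongr
      _ = (P ^ (-q) * P ^ γ) * (hb ^ (-(2 * q)) * hb ^ D * hb ^ (2 * γ)) *
          (A ^ (-γ) * A ^ γ) := by ring
      _ = P ^ (-q + γ) := by
          rw [← Real.rpow_add hP0, ← Real.rpow_add hhb, ← Real.rpow_add hhb, ← Real.rpow_add hA]
          have e2 : -(2 * q) + D + 2 * γ = 0 := by rw [hq]; ring
          rw [e2]
          simp
      _ ≤ 1 := by
          apply Real.rpow_le_one_of_one_le_of_nonpos hP1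
          rw [hq]; linarith
  have h4 : ((P * hb ^ 2)⁻¹ * A ^ (-(γ / q))) ^ q ≤ J⁻¹ := by
    rw [h2, ← one_div, le_div_iff₀ hJ]
    exact h3
  have h5 : 0 ≤ (P * hb ^ 2)⁻¹ * A ^ (-(γ / q)) := by positivity
  calc (P * hb ^ 2)⁻¹ * A ^ (-(γ / q)) = (((P * hb ^ 2)⁻¹ * A ^ (-(γ / q))) ^ q) ^ (1 / q) := by
        rw [← Real.rpow_mul h5, mul_one_div_cancel hq0.ne', Real.rpow_one]
    _ ≤ (J⁻¹) ^ (1 / q) := Real.rpow_le_rpow (by positivity) h4 (by positivity)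
    _ = J ^ (-(1 / q)) := by rw [Real.inv_rpow hJ.le, ← Real.rpow_neg hJ.le]

lemma arith2 {D γ A₀ J : ℝ} (hγ : 0 < γ) (hD : 0 < D) (hA₀ : 0 < A₀) (hJ : 0 < J) :
    ∃ hb₀ : ℝ, 0 < hb₀ ∧ ∀ hb : ℝ, 0 < hb → hb < hb₀ → ∀ A : ℝ, 0 < A →
      hb ^ (-D) * J ≤ (4 * π ^ 2 * hb ^ 2 * A) ^ γ → A₀ ≤ A := by
  have hπ := Real.pi_pos
  obtain ⟨P, hP⟩ : ∃ P : ℝ, P = (4 * π ^ 2 * A₀) ^ γ := ⟨_, rfl⟩
  have hP0 : 0 < P := by rw [hP]; positivity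
  refine ⟨min 1 ((J / P) ^ (1 / D)), by positivity, ?_⟩
  intro hb hhb hlt A hA h
  have h1 : hb < 1 := lt_of_lt_of_le hlt (min_le_left _ _)
  have h2 : hb < (J / P) ^ (1 / D) := lt_of_lt_of_le hlt (min_le_right _ _)
  have h3 : hb ^ D < J / P := by
    calc hb ^ D < ((J / P) ^ (1 / D)) ^ D := Real.rpow_lt_rpow hhb.le h2 hD
      _ = J / P := by
          rw [← Real.rpow_mul (by positivity), one_div_mul_cancel hD.ne', Real.rpow_one]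
  have h4 : P < hb ^ (-D) * J := by
    have h5 : 0 < hb ^ D := by positivity
    rw [lt_div_iff₀ hP0] at h3
    rw [Real.rpow_neg hhb.le]
    rw [inv_mul_eq_div, lt_div_iff₀ h5]
    linarith
  by_contra hlt2
  push Not at hlt2
  have h6 : (4 * π ^ 2 * hb ^ 2 * A) ^ γ ≤ P := by
    rw [hP]
    apply Real.rpow_le_rpow (by positivity) _ hγ.le
    have : hb ^ 2 ≤ 1 := by nlinarith
    calc 4 * π ^ 2 * hb ^ 2 * A ≤ 4 * π ^ 2 * 1 * A₀ := by gcongr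
      _ = 4 * π ^ 2 * A₀ := by ring
  linarith

lemma arith3 {D γ q σ : ℝ} (hγ : 0 < γ) (hγ2 : γ ≤ 1 / 2) (hD : 2 ≤ D) (hq : q = γ + D / 2)
    (hσ : σ = D / 2 + 3 / 4) : γ / q < 5 / 8 / σ := by
  have hq0 : 0 < q := by rw [hq]; positivity
  have hσ0 : 0 < σ := by rw [hσ]; positivity
  rw [div_lt_div_iff₀ hq0 hσ0, hq, hσ]
  nlinarith

lemma arith4 {A ρ t : ℝ} (hA1 : 1 ≤ A) (hρ : 0 ≤ ρ) (ht : 0 ≤ t) (h1 : t ≤ 2 * ρ) :
    (1 + 4 * (π * √A * t)) ^ (1 / 4 : ℝ) ≤ (1 + 8 * (π * ρ)) ^ (1 / 4 : ℝ) * A ^ (1 / 8 : ℝ) := by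
  have hπ := Real.pi_pos
  have hA : 0 ≤ A := by linarith
  have h2 : 1 ≤ √A := by
    rw [← Real.sqrt_one]; exact Real.sqrt_le_sqrt hA1
  have h3 : 1 + 4 * (π * √A * t) ≤ (1 + 8 * (π * ρ)) * √A := by
    have h4 : π * √A * t ≤ π * √A * (2 * ρ) := mul_le_mul_of_nonneg_left h1 (by positivity)
    have e : (1 + 8 * (π * ρ)) * √A = √A + 4 * (π * √A * (2 * ρ)) := by ring
    rw [e]
    linarith
  calc (1 + 4 * (π * √A * t)) ^ (1 / 4 : ℝ)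
      ≤ ((1 + 8 * (π * ρ)) * √A) ^ (1 / 4 : ℝ) :=
        Real.rpow_le_rpow (by positivity) h3 (by norm_num)
    _ = (1 + 8 * (π * ρ)) ^ (1 / 4 : ℝ) * A ^ (1 / 8 : ℝ) := by
        rw [Real.mul_rpow (by positivity) (by positivity), Real.sqrt_eq_rpow,
          ← Real.rpow_mul hA]
        norm_num

lemma arith5 {A σ c : ℝ} (hA : 0 < A) (hc : 0 ≤ c) :
    (A ^ (-(3 / 4) : ℝ) * (c * A ^ (1 / 8 : ℝ))) ^ (1 / σ) =
      c ^ (1 / σ) * A ^ (-(5 / 8 / σ)) := by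
  have e2 : A ^ (-(3 / 4) : ℝ) * (c * A ^ (1 / 8 : ℝ)) = c * A ^ (-(5 / 8) : ℝ) := by
    have e3 : A ^ (-(5 / 8) : ℝ) = A ^ (-(3 / 4) : ℝ) * A ^ (1 / 8 : ℝ) := by
      rw [← Real.rpow_add hA]; norm_num
    rw [e3]; ring
  rw [e2, Real.mul_rpow hc (by positivity), ← Real.rpow_mul hA.le]
  congr 2
  ring

/-- The estimate of the bilinear form for all pairs of truncated weights. -/
theorem key_pos_q {n : ℕ} (hn : 1 ≤ n) {γ : ℝ} (hγ : 0 < γ) (hγ2 : γ ≤ 1 / 2) {q : ℝ}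
    (hq : q = γ + ((n + 1 : ℕ) : ℝ) / 2) {V : Sp (n + 1) → ℂ} (hV : Measurable V)
    (hi : Integrable (fun x => ‖V x‖ ^ q)) {J : ℝ} (hJe : J = ∫ x, ‖V x‖ ^ q) (hJ : 0 < J) :
    ∃ hb₀ : ℝ, 0 < hb₀ ∧ ∀ hb : ℝ, 0 < hb → hb < hb₀ → ∀ (κ : ℂ) (A : ℝ), 0 < κ.re → ‖κ‖ = 1 →
      0 < A → hb ^ (-((n + 1 : ℕ) : ℝ)) * J ≤ (4 * π ^ 2 * hb ^ 2 * A) ^ γ →
      ∀ (N : ℕ) (f g : HS (n + 1)) (M : ℕ),
        ‖⟪Mop (wtr V M) f, RE κ A hb (Mop (wtr V N) g)⟫_ℂ‖ ≤ 1 / 2 * (‖f‖ * ‖g‖) := by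
  have hπ := Real.pi_pos
  have hD2 : (2 : ℝ) ≤ ((n + 1 : ℕ) : ℝ) := by
    have : (1 : ℝ) ≤ n := by exact_mod_cast hn
    push_cast
    linarith
  obtain ⟨σ, hσ⟩ : ∃ σ : ℝ, σ = ((n + 1 : ℕ) : ℝ) / 2 + 3 / 4 := ⟨_, rfl⟩
  have hq0 : 0 < q := by rw [hq]; linarith
  have hσ0 : 0 < σ := by rw [hσ]; linarith
  obtain ⟨C₁, hC₁0, hC₁⟩ := bilT (n := n) (σ := q) (by rw [hq]; linarith) (by rw [hq]; linarith)
    (by rw [hq]; linarith)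
  obtain ⟨C₂, hC₂0, hC₂⟩ := bilT (n := n) (σ := σ) (by rw [hσ]; linarith) (by rw [hσ]; linarith)
    (by rw [hσ]; linarith)
  have hq1 : ((n + 1 : ℕ) : ℝ) / 2 - q = -γ := by rw [hq]; ring
  have hq2 : max (q - ((n + 1 : ℕ) : ℝ) / 2 - 1 / 2) 0 = 0 := by
    apply max_eq_right
    rw [hq]; linarith
  have hσ1 : ((n + 1 : ℕ) : ℝ) / 2 - σ = -(3 / 4) := by rw [hσ]; ring
  have hσ2 : max (σ - ((n + 1 : ℕ) : ℝ) / 2 - 1 / 2) 0 = 1 / 4 := by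
    have : σ - ((n + 1 : ℕ) : ℝ) / 2 - 1 / 2 = 1 / 4 := by rw [hσ]; ring
    rw [this]
    norm_num
  rw [hq1, hq2] at hC₁
  rw [hσ1, hσ2] at hC₂
  have har3 := arith3 hγ hγ2 hD2 hq hσ
  -- the choice of the cut-off
  have ht1 : Tendsto (fun ρ : ℕ => J ^ (-(1 / q)) * (2 * (C₁ * (J ^ (1 / (2 * q)) *
      eta V q ρ ^ (1 / (2 * q)))))) atTop (𝓝 0) := by
    have h1 : Tendsto (fun ρ : ℕ => eta V q ρ ^ (1 / (2 * q))) atTop (𝓝 0) := by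
      have := (tendsto_eta hV hi).rpow_const (p := 1 / (2 * q)) (Or.inr (by positivity))
      rwa [Real.zero_rpow (by positivity)] at this
    have h2 := ((((h1.const_mul (J ^ (1 / (2 * q)))).const_mul C₁).const_mul 2).const_mul
      (J ^ (-(1 / q))))
    simpa using h2
  obtain ⟨ρ, hρ⟩ := (ht1.eventually_le_const (by norm_num : (0 : ℝ) < 1 / 4)).exists
  -- the constant of the regular part
  obtain ⟨K, hK⟩ : ∃ K : ℝ, K = (ρ : ℝ) ^ σ *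
      (volume (Metric.closedBall (0 : Sp (n + 1)) ρ)).toReal := ⟨_, rfl⟩
  have hK0 : 0 ≤ K := by rw [hK]; positivity
  obtain ⟨K', hK'⟩ : ∃ K' : ℝ, K' = C₂ * ((1 + 8 * (π * ρ)) ^ (1 / 4 : ℝ)) ^ (1 / σ) *
      (K ^ (1 / (2 * σ)) * K ^ (1 / (2 * σ))) := ⟨_, rfl⟩
  have hK'0 : 0 ≤ K' := by rw [hK']; positivity
  have ht2 : Tendsto (fun A : ℝ => J ^ (-(1 / q)) * (K' * A ^ (-(5 / 8 / σ - γ / q)))) atTop
      (𝓝 0) := by
    have h1 : Tendsto (fun A : ℝ => A ^ (-(5 / 8 / σ - γ / q))) atTop (𝓝 0) :=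
      tendsto_rpow_neg_atTop (by linarith)
    have h2 := (h1.const_mul K').const_mul (J ^ (-(1 / q)))
    simpa using h2
  obtain ⟨A₁, hA₁⟩ := (ht2.eventually_le_const (by norm_num : (0 : ℝ) < 1 / 4)).exists_forall_of_atTop
  obtain ⟨hb₀, hhb₀, hb₀p⟩ := arith2 (D := ((n + 1 : ℕ) : ℝ)) (γ := γ) (A₀ := max 1 A₁) (J := J)
    hγ (by linarith) (by positivity) hJ
  refine ⟨hb₀, hhb₀, ?_⟩
  intro hb hhb hlt κ A hκ hκ1 hA hN N f g M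
  have hAA := hb₀p hb hhb hlt A hA hN
  have hA1 : 1 ≤ A := (le_max_left _ _).trans hAA
  have hA2 := hA₁ A ((le_max_right _ _).trans hAA)
  have har1 := arith1 hγ (by linarith) hq hhb hA hJ hN
  rw [norm_RE_pair hκ1 hhb]
  -- the tame pieces
  obtain ⟨L, hL⟩ : ∃ L : ℕ, L = max N M := ⟨_, rfl⟩
  have hNL : N ≤ L := by rw [hL]; exact le_max_left _ _
  have hML : M ≤ L := by rw [hL]; exact le_max_right _ _
  have t1 : Tame (wtr V M) L L := (tame_wtr hV M).mono (by exact_mod_cast hML)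
    (by exact_mod_cast hML)
  have t2 : Tame (wtr V N) L L := (tame_wtr hV N).mono (by exact_mod_cast hNL)
    (by exact_mod_cast hNL)
  have hS := measurableSet_gS hV ρ
  have fg0 : 0 ≤ ‖f‖ * ‖g‖ := by positivity
  -- the general bound for the tails
  have hgen : ∀ w₁ w₂ : Sp (n + 1) → ℂ, Tame w₁ L L → Tame w₂ L L →
      ‖⟪Fo (Mop w₁ f), Mop (fS κ A 1) (Fo (Mop w₂ g))⟫_ℂ‖ ≤
        C₁ * A ^ (-(γ / q)) * ((∫ x, ‖w₁ x‖ ^ (2 * q)) ^ (1 / (2 * q)) *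
          (∫ x, ‖w₂ x‖ ^ (2 * q)) ^ (1 / (2 * q))) * (‖f‖ * ‖g‖) := by
    intro w₁ w₂ h1 h2
    have h3 := hC₁ w₁ w₂ L L κ A 1 Set.univ f g h1 h2 hκ hκ1 hA (fun _ _ => Set.mem_univ _)
      (fun _ _ => Set.mem_univ _) zero_le_one (fun x _ y _ => by rw [Real.rpow_zero])
    rw [mul_one, ← Real.rpow_mul hA.le] at h3
    have e : -γ * (1 / q) = -(γ / q) := by ring
    rw [e] at h3
    exact h3
  -- the regular part
  have hreg : ‖⟪Fo (Mop ((gS V ρ).indicator (wtr V M)) f),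
      Mop (fS κ A 1) (Fo (Mop ((gS V ρ).indicator (wtr V N)) g))⟫_ℂ‖ ≤
        K' * A ^ (-(5 / 8 / σ)) * (‖f‖ * ‖g‖) := by
    have hsup : ∀ w : Sp (n + 1) → ℂ, ∀ x, (gS V ρ).indicator w x ≠ 0 →
        x ∈ Metric.closedBall (0 : Sp (n + 1)) ρ := by
      intro w x hx
      have : x ∈ gS V ρ := by
        by_contra h
        exact hx (indicator_of_notMem h _)
      rw [mem_closedBall_zero_iff]
      exact this.1
    have hG : ∀ x ∈ Metric.closedBall (0 : Sp (n + 1)) (ρ : ℝ),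
        ∀ y ∈ Metric.closedBall (0 : Sp (n + 1)) (ρ : ℝ),
        (1 + 4 * (π * √A * ‖x - y‖)) ^ (1 / 4 : ℝ) ≤
          (1 + 8 * (π * ρ)) ^ (1 / 4 : ℝ) * A ^ (1 / 8 : ℝ) := by
      intro x hx y hy
      rw [mem_closedBall_zero_iff] at hx hy
      have h1 : ‖x - y‖ ≤ 2 * ρ := by
        calc ‖x - y‖ ≤ ‖x‖ + ‖y‖ := norm_sub_le _ _
          _ ≤ 2 * ρ := by linarith
      exact arith4 hA1 (Nat.cast_nonneg _) (norm_nonneg _) h1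
    have h3 := hC₂ ((gS V ρ).indicator (wtr V M)) ((gS V ρ).indicator (wtr V N)) L L κ A
      ((1 + 8 * (π * ρ)) ^ (1 / 4 : ℝ) * A ^ (1 / 8 : ℝ)) (Metric.closedBall 0 ρ) f g
      (t1.indicator hS) (t2.indicator hS) hκ hκ1 hA (hsup _) (hsup _) (by positivity) hG
    refine h3.trans ?_
    rw [arith5 hA (by positivity)]
    have i1 : (∫ x, ‖(gS V ρ).indicator (wtr V M) x‖ ^ (2 * σ)) ^ (1 / (2 * σ)) ≤
        K ^ (1 / (2 * σ)) := by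
      apply Real.rpow_le_rpow (integral_nonneg fun x => by positivity) _ (by positivity)
      rw [hK]
      exact int_reg hV hσ0 ρ M
    have i2 : (∫ x, ‖(gS V ρ).indicator (wtr V N) x‖ ^ (2 * σ)) ^ (1 / (2 * σ)) ≤
        K ^ (1 / (2 * σ)) := by
      apply Real.rpow_le_rpow (integral_nonneg fun x => by positivity) _ (by positivity)
      rw [hK]
      exact int_reg hV hσ0 ρ N
    have i3 : 0 ≤ (∫ x, ‖(gS V ρ).indicator (wtr V M) x‖ ^ (2 * σ)) ^ (1 / (2 * σ)) :=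
      Real.rpow_nonneg (integral_nonneg fun x => by positivity) _
    have i4 : 0 ≤ (∫ x, ‖(gS V ρ).indicator (wtr V N) x‖ ^ (2 * σ)) ^ (1 / (2 * σ)) :=
      Real.rpow_nonneg (integral_nonneg fun x => by positivity) _
    calc _ ≤ C₂ * (((1 + 8 * (π * ρ)) ^ (1 / 4 : ℝ)) ^ (1 / σ) * A ^ (-(5 / 8 / σ))) *
          (K ^ (1 / (2 * σ)) * K ^ (1 / (2 * σ))) * (‖f‖ * ‖g‖) := by
          apply mul_le_mul_of_nonneg_right _ fg0
          apply mul_le_mul_of_nonneg_left _ (by positivity)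
          exact mul_le_mul i1 i2 i4 (by positivity)
      _ = _ := by rw [hK']; ring
  -- the tails
  obtain ⟨η, hη⟩ : ∃ η : ℝ, η = eta V q ρ := ⟨_, rfl⟩
  have hη0 : 0 ≤ η := by rw [hη]; exact eta_nonneg V q ρ
  rw [← hη] at hρ
  have hw : ∀ M' : ℕ, (∫ x, ‖wtr V M' x‖ ^ (2 * q)) ^ (1 / (2 * q)) ≤ J ^ (1 / (2 * q)) := by
    intro M'
    apply Real.rpow_le_rpow (integral_nonneg fun x => by positivity) _ (by positivity)
    rw [hJe]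
    exact int_wtr hV hq0 hi M'
  have hwS : ∀ M' : ℕ, (∫ x, ‖(gS V ρ).indicator (wtr V M') x‖ ^ (2 * q)) ^ (1 / (2 * q)) ≤
      J ^ (1 / (2 * q)) := by
    intro M'
    refine le_trans ?_ (hw M')
    apply Real.rpow_le_rpow (integral_nonneg fun x => by positivity) _ (by positivity)
    exact int_ind_le (tame_wtr hV M') hS (by positivity)
  have hwT : ∀ M' : ℕ, (∫ x, ‖(gS V ρ)ᶜ.indicator (wtr V M') x‖ ^ (2 * q)) ^ (1 / (2 * q)) ≤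
      η ^ (1 / (2 * q)) := by
    intro M'
    apply Real.rpow_le_rpow (integral_nonneg fun x => by positivity) _ (by positivity)
    rw [hη]
    exact int_tail hV hq0 hi ρ M'
  have hnn : ∀ w : Sp (n + 1) → ℂ, 0 ≤ (∫ x, ‖w x‖ ^ (2 * q)) ^ (1 / (2 * q)) := fun w =>
    Real.rpow_nonneg (integral_nonneg fun x => by positivity) _
  have hmix1 : ‖⟪Fo (Mop ((gS V ρ).indicator (wtr V M)) f),
      Mop (fS κ A 1) (Fo (Mop ((gS V ρ)ᶜ.indicator (wtr V N)) g))⟫_ℂ‖ ≤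
        C₁ * A ^ (-(γ / q)) * (J ^ (1 / (2 * q)) * η ^ (1 / (2 * q))) * (‖f‖ * ‖g‖) := by
    refine (hgen _ _ (t1.indicator hS) (t2.indicator hS.compl)).trans ?_
    apply mul_le_mul_of_nonneg_right _ fg0
    apply mul_le_mul_of_nonneg_left _ (by positivity)
    exact mul_le_mul (hwS M) (hwT N) (hnn _) (by positivity)
  have hmix2 : ‖⟪Fo (Mop ((gS V ρ)ᶜ.indicator (wtr V M)) f),
      Mop (fS κ A 1) (Fo (Mop (wtr V N) g))⟫_ℂ‖ ≤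
        C₁ * A ^ (-(γ / q)) * (J ^ (1 / (2 * q)) * η ^ (1 / (2 * q))) * (‖f‖ * ‖g‖) := by
    refine (hgen _ _ (t1.indicator hS.compl) t2).trans ?_
    apply mul_le_mul_of_nonneg_right _ fg0
    apply mul_le_mul_of_nonneg_left _ (by positivity)
    rw [mul_comm (J ^ (1 / (2 * q)))]
    exact mul_le_mul (hwT M) (hw N) (hnn _) (by positivity)
  have hsplit : ⟪Fo (Mop (wtr V M) f), Mop (fS κ A 1) (Fo (Mop (wtr V N) g))⟫_ℂ =
      ⟪Fo (Mop ((gS V ρ).indicator (wtr V M)) f),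
        Mop (fS κ A 1) (Fo (Mop ((gS V ρ).indicator (wtr V N)) g))⟫_ℂ +
      ⟪Fo (Mop ((gS V ρ).indicator (wtr V M)) f),
        Mop (fS κ A 1) (Fo (Mop ((gS V ρ)ᶜ.indicator (wtr V N)) g))⟫_ℂ +
      ⟪Fo (Mop ((gS V ρ)ᶜ.indicator (wtr V M)) f),
        Mop (fS κ A 1) (Fo (Mop (wtr V N) g))⟫_ℂ := by
    conv_lhs => rw [Mop_split t1 hS f, map_add, inner_add_left]
    congr 1
    conv_lhs => rw [Mop_split t2 hS g, map_add, map_add, inner_add_right]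
  have htot : ‖⟪Fo (Mop (wtr V M) f), Mop (fS κ A 1) (Fo (Mop (wtr V N) g))⟫_ℂ‖ ≤
      A ^ (-(γ / q)) * (K' * A ^ (-(5 / 8 / σ - γ / q)) +
        2 * (C₁ * (J ^ (1 / (2 * q)) * η ^ (1 / (2 * q))))) * (‖f‖ * ‖g‖) := by
    rw [hsplit]
    refine (norm_add₃_le).trans ?_
    refine (add_le_add (add_le_add hreg hmix1) hmix2).trans (le_of_eq ?_)
    have e1 : A ^ (-(5 / 8 / σ)) = A ^ (-(γ / q)) * A ^ (-(5 / 8 / σ - γ / q)) := by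
      rw [← Real.rpow_add hA]
      congr 1
      ring
    rw [e1]
    ring
  calc (4 * π ^ 2 * hb ^ 2)⁻¹ * ‖⟪Fo (Mop (wtr V M) f), Mop (fS κ A 1) (Fo (Mop (wtr V N) g))⟫_ℂ‖
      ≤ (4 * π ^ 2 * hb ^ 2)⁻¹ * (A ^ (-(γ / q)) * (K' * A ^ (-(5 / 8 / σ - γ / q)) +
        2 * (C₁ * (J ^ (1 / (2 * q)) * η ^ (1 / (2 * q))))) * (‖f‖ * ‖g‖)) := by
        apply mul_le_mul_of_nonneg_left htot (by positivity)
    _ = ((4 * π ^ 2 * hb ^ 2)⁻¹ * A ^ (-(γ / q))) * (K' * A ^ (-(5 / 8 / σ - γ / q)) +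
        2 * (C₁ * (J ^ (1 / (2 * q)) * η ^ (1 / (2 * q))))) * (‖f‖ * ‖g‖) := by ring
    _ ≤ J ^ (-(1 / q)) * (K' * A ^ (-(5 / 8 / σ - γ / q)) +
        2 * (C₁ * (J ^ (1 / (2 * q)) * η ^ (1 / (2 * q))))) * (‖f‖ * ‖g‖) := by
        apply mul_le_mul_of_nonneg_right _ fg0
        apply mul_le_mul_of_nonneg_right har1
        positivity
    _ = (J ^ (-(1 / q)) * (K' * A ^ (-(5 / 8 / σ - γ / q))) + J ^ (-(1 / q)) *
        (2 * (C₁ * (J ^ (1 / (2 * q)) * η ^ (1 / (2 * q)))))) * (‖f‖ * ‖g‖) := by ring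
    _ ≤ 1 / 2 * (‖f‖ * ‖g‖) := by
        apply mul_le_mul_of_nonneg_right _ fg0
        linarith

/-- The estimate of the bilinear form for all pairs of truncated weights. -/
theorem key_pos {n : ℕ} (hn : 1 ≤ n) {γ : ℝ} (hγ : 0 < γ) (hγ2 : γ ≤ 1 / 2)
    {V : Sp (n + 1) → ℂ} (hV : Measurable V)
    (hi : Integrable (fun x => ‖V x‖ ^ (γ + ((n + 1 : ℕ) : ℝ) / 2)))
    (hJ : 0 < ∫ x, ‖V x‖ ^ (γ + ((n + 1 : ℕ) : ℝ) / 2)) :
    ∃ hb₀ : ℝ, 0 < hb₀ ∧ ∀ hb : ℝ, 0 < hb → hb < hb₀ → ∀ (κ : ℂ) (A : ℝ), 0 < κ.re → ‖κ‖ = 1 →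
      0 < A → hb ^ (-((n + 1 : ℕ) : ℝ)) * (∫ x, ‖V x‖ ^ (γ + ((n + 1 : ℕ) : ℝ) / 2)) ≤
        (4 * π ^ 2 * hb ^ 2 * A) ^ γ →
      ∀ (N : ℕ) (f g : HS (n + 1)) (M : ℕ),
        ‖⟪Mop (wtr V M) f, RE κ A hb (Mop (wtr V N) g)⟫_ℂ‖ ≤ 1 / 2 * (‖f‖ * ‖g‖) :=
  key_pos_q hn hγ hγ2 rfl hV hi rfl hJ

end MP497a12
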