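import Mathlib
import Pool.Agent.Lib.MP_497a12_mp.FFin

/-!
# No sharpness of the truncation from below for `γ ≤ 1/2`
-/

open MeasureTheory Filter Topology Real Set
open scoped InnerProductSpace FourierTransform ENNReal

namespace MP497a12

variable {d : ℕ}

attribute [local irreducible] Mop Cop Fo

/-- The estimate of the bilinear form in dimension one, `γ = 1/2`. -/
theorem key_one {V : Sp 1 → ℂ} (hV : Measurable V) (hi : Integrable (fun x => ‖V x‖ ^ (1 : ℝ)))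
    {hb : ℝ} (hhb : 0 < hb) {κ : ℂ} {A : ℝ} (hκ : 0 < κ.re) (hκ1 : ‖κ‖ = 1) (hA : 0 < A)
    (hN : hb ^ (-(1 : ℝ)) * (∫ x, ‖V x‖ ^ (1 : ℝ)) ≤ (4 * π ^ 2 * hb ^ 2 * A) ^ (1 / 2 : ℝ))
    (N : ℕ) (f g : HS 1) (M : ℕ) :
    ‖⟪Mop (wtr V M) f, RE κ A hb (Mop (wtr V N) g)⟫_ℂ‖ ≤ 1 / 2 * (‖f‖ * ‖g‖) := by
  have hπ := Real.pi_pos
  obtain ⟨J, hJe⟩ : ∃ J : ℝ, J = ∫ x, ‖V x‖ ^ (1 : ℝ) := ⟨_, rfl⟩
  have hJ0 : 0 ≤ J := by rw [hJe]; exact integral_nonneg fun x => by positivity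
  rw [← hJe] at hN
  have hs : ((1 : ℕ) : ℝ) < 2 * (1 : ℂ).re := by norm_num
  have hw2 : ∀ M' : ℕ, Integrable (fun x => ‖wtr V M' x‖ ^ 2) ∧
      ∫ x, ‖wtr V M' x‖ ^ 2 ≤ J := by
    intro M'
    have h1 := (tame_wtr hV M').integrable_rpow (q := 2) (by norm_num)
    have h2 := int_wtr hV one_pos hi M'
    rw [mul_one] at h2
    simp_rw [Real.rpow_two] at h1 h2
    exact ⟨h1, by rw [hJe]; exact h2⟩
  have hcs : ∀ (M' : ℕ) (f : HS 1), Integrable (Mop (wtr V M') f) ∧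
      ∫ x, ‖Mop (wtr V M') f x‖ ≤ √J * ‖f‖ := by
    intro M' f
    obtain ⟨h1, h2⟩ := cs_bound (tame_wtr hV M').good (hw2 M').1 f
    refine ⟨h1, h2.trans ?_⟩
    gcongr
    exact (hw2 M').2
  have hL := L1_bound (good_fS hκ hA (by norm_num : (0 : ℝ) ≤ (1 : ℂ).re)) (integrable_fS hκ hA hs)
    (k := fG κ A 1) (fun x => rfl) (hcs M f).1 (hcs N g).1 (B := Set.univ)
    (Eventually.of_forall fun x _ => Set.mem_univ _)
    (Eventually.of_forall fun x _ => Set.mem_univ _) (K := π / √A)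
    (fun x _ y _ => ker_one hκ hκ1 hA (x - y))
  rw [norm_RE_pair hκ1 hhb]
  have hsA : 0 < √A := Real.sqrt_pos.mpr hA
  have h1 : J ≤ 2 * π * hb ^ 2 * √A := by
    rw [← Real.sqrt_eq_rpow] at hN
    have e1 : 4 * π ^ 2 * hb ^ 2 * A = (2 * π * hb * √A) ^ 2 := by
      rw [mul_pow, Real.sq_sqrt hA.le]; ring
    rw [e1, Real.sqrt_sq (by positivity), Real.rpow_neg_one] at hN
    rw [inv_mul_le_iff₀ hhb] at hN
    linarith
  have hsJ : √J * √J = J := Real.mul_self_sqrt hJ0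
  calc (4 * π ^ 2 * hb ^ 2)⁻¹ * ‖⟪Fo (Mop (wtr V M) f), Mop (fS κ A 1) (Fo (Mop (wtr V N) g))⟫_ℂ‖
      ≤ (4 * π ^ 2 * hb ^ 2)⁻¹ * (π / √A * (√J * ‖f‖) * (√J * ‖g‖)) := by
        apply mul_le_mul_of_nonneg_left _ (by positivity)
        refine hL.trans ?_
        apply mul_le_mul _ (hcs N g).2 (integral_nonneg fun x => norm_nonneg _) (by positivity)
        exact mul_le_mul_of_nonneg_left (hcs M f).2 (by positivity)
    _ = ((4 * π ^ 2 * hb ^ 2)⁻¹ * (π / √A) * (√J * √J)) * (‖f‖ * ‖g‖) := by ring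
    _ = ((4 * π ^ 2 * hb ^ 2)⁻¹ * (π / √A) * J) * (‖f‖ * ‖g‖) := by rw [hsJ]
    _ ≤ 1 / 2 * (‖f‖ * ‖g‖) := by
        apply mul_le_mul_of_nonneg_right _ (by positivity)
        calc (4 * π ^ 2 * hb ^ 2)⁻¹ * (π / √A) * J
            ≤ (4 * π ^ 2 * hb ^ 2)⁻¹ * (π / √A) * (2 * π * hb ^ 2 * √A) := by gcongr
          _ = 1 / 2 := by
              field_simp
              norm_num

/-- If the Birman-Schwinger bound holds, then there are no root vectors. -/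
lemma root_zero {V : Sp d → ℂ} {hb : ℝ} {E : ℂ}
    (h : ∀ ψ f : Sp d → ℂ, Graph V hb ψ f → (f =ᵐ[volume] fun x => E * ψ x) → ψ =ᵐ[volume] 0)
    {ψ : Sp d → ℂ} (hψ : InRoot V hb E ψ) : ψ =ᵐ[volume] 0 := by
  obtain ⟨k, c, h0, hk, hc⟩ := hψ
  have key : ∀ j : ℕ, j ≤ k → c (k - j) =ᵐ[volume] 0 := by
    intro j
    induction j with
    | zero => intro _; exact hk
    | succ j ih =>
      intro hj
      have h1 := ih (by omega)
      have h2 := hc (k - (j + 1)) (by omega)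
      have e : k - (j + 1) + 1 = k - j := by omega
      rw [e] at h2
      apply h _ _ h2
      filter_upwards [h1] with x hx
      rw [Pi.add_apply, hx, Pi.smul_apply, Pi.zero_apply, zero_add, smul_eq_mul]
  have := key k le_rfl
  rw [Nat.sub_self, h0] at this
  exact this

lemma algMult_zero {V : Sp d → ℂ} {hb : ℝ} {E : ℂ}
    (h : ∀ ψ f : Sp d → ℂ, Graph V hb ψ f → (f =ᵐ[volume] fun x => E * ψ x) → ψ =ᵐ[volume] 0) :
    algMult V hb E = 0 := by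
  unfold algMult
  rw [← nonpos_iff_eq_zero]
  refine iSup_le fun n => iSup_le ?_
  rintro ⟨v, hv, hli⟩
  have hn : n = 0 := by
    by_contra hn
    have h1 := hli (fun _ => 1) (by
      have h2 : ∀ i, ∀ᵐ x, v i x = 0 := fun i => root_zero h (hv i)
      have h3 := ae_all_iff.mpr h2
      filter_upwards [h3] with x hx
      simp [hx])
    have h4 := congrFun h1 ⟨0, Nat.pos_of_ne_zero hn⟩
    simp at h4
  rw [hn]
  simp

/-- For `γ ≤ 1/2` the bound (*) with the truncation `(T_ge)` is not sharp. -/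
theorem not_sharp_ge (n : ℕ) {γ α β : ℝ} (hγ : 0 < γ) (hγ2 : γ ≤ 1 / 2)
    (h1 : n = 0 → 1 / 2 ≤ γ) : ¬ MP497a12.Sharp (n + 1) α β γ .ge := by
  rintro ⟨V, hVa, hVm, hV0, hs⟩
  have hπ := Real.pi_pos
  have hD0 : (0 : ℝ) ≤ ((n + 1 : ℕ) : ℝ) := Nat.cast_nonneg _
  have hq0 : 0 < γ + ((n + 1 : ℕ) : ℝ) / 2 := by linarith
  have hi : Integrable (fun x => ‖V x‖ ^ (γ + ((n + 1 : ℕ) : ℝ) / 2)) := by
    have h2 := hVm.integrable_norm_rpow (by simpa using hq0) ENNReal.ofReal_ne_top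
    rwa [ENNReal.toReal_ofReal hq0.le] at h2
  have hJ : 0 < ∫ x, ‖V x‖ ^ (γ + ((n + 1 : ℕ) : ℝ) / 2) := by
    apply lt_of_le_of_ne (integral_nonneg fun x => by positivity)
    intro h0
    have h2 := (integral_eq_zero_iff_of_nonneg (fun x => by positivity) hi).mp h0.symm
    apply hV0
    filter_upwards [h2] with x hx
    rw [Pi.zero_apply] at hx ⊢
    have h3 := (Real.rpow_eq_zero (norm_nonneg _) hq0.ne').mp hx
    exact norm_eq_zero.mp h3
  -- the Birman-Schwinger bound for small `hb`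
  have hkey : ∃ hb₀ : ℝ, 0 < hb₀ ∧ ∀ hb : ℝ, 0 < hb → hb < hb₀ → ∀ (κ : ℂ) (A : ℝ), 0 < κ.re →
      ‖κ‖ = 1 → 0 < A → NN V hb γ ≤ (4 * π ^ 2 * hb ^ 2 * A) ^ γ →
      ∀ (N : ℕ) (f g : HS (n + 1)) (M : ℕ),
        ‖⟪Mop (wtr V M) f, RE κ A hb (Mop (wtr V N) g)⟫_ℂ‖ ≤ 1 / 2 * (‖f‖ * ‖g‖) := by
    rcases Nat.eq_zero_or_pos n with hn | hn
    · subst hn
      have hγe : γ = 1 / 2 := le_antisymm hγ2 (h1 rfl)
      subst hγe
      have e1 : (1 / 2 : ℝ) + ((0 + 1 : ℕ) : ℝ) / 2 = 1 := by norm_num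
      rw [e1] at hi
      refine ⟨1, one_pos, ?_⟩
      intro hb hhb _ κ A hκ hκ1 hA hN
      unfold NN at hN
      rw [e1] at hN
      have e2 : ((0 + 1 : ℕ) : ℝ) = 1 := by norm_num
      rw [e2] at hN
      exact key_one hVa.1 hi hhb hκ hκ1 hA hN
    · exact key_pos hn hγ hγ2 hVa.1 hi hJ
  obtain ⟨hb₀, hhb₀, hb₀p⟩ := hkey
  obtain ⟨c, hc, hb₁, hhb₁, hb₁p⟩ := hs 1 one_pos
  obtain ⟨hb, hhbe⟩ : ∃ hb : ℝ, hb = min hb₀ hb₁ / 2 := ⟨_, rfl⟩
  have hm : 0 < min hb₀ hb₁ := by positivity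
  have hhb : 0 < hb := by rw [hhbe]; positivity
  have hlt0 : hb < hb₀ := by
    rw [hhbe]
    have := min_le_left hb₀ hb₁
    linarith
  have hlt1 : hb < hb₁ := by
    rw [hhbe]
    have := min_le_right hb₀ hb₁
    linarith
  have hlow := hb₁p hb hhb hlt1
  have hNN : 0 < NN V hb γ := by
    unfold NN
    positivity
  have hz : lhs V hb α β γ .ge = 0 := by
    unfold lhs
    rw [ENNReal.tsum_eq_zero]
    intro E
    split_ifs with hE
    · obtain ⟨hE1, hE2⟩ := hE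
      obtain ⟨κ, A, hκ, hκ1, hA, hEe, hEn⟩ := exists_kappa hE1 hhb
      have hE2' : NN V hb γ ≤ (4 * π ^ 2 * hb ^ 2 * A) ^ γ := by
        rw [hEn]; exact hE2
      have hE1' : eE κ A hb ∉ halfLine := by rw [hEe]; exact hE1
      have h0 : algMult V hb E = 0 := by
        apply algMult_zero
        intro ψ f hG hf
        rw [← hEe] at hf
        exact bs_zero hVa hκ hκ1 hA hhb hE1' (by norm_num : (0 : ℝ) ≤ 1 / 2) (by norm_num)
          (hb₀p hb hhb hlt0 κ A hκ hκ1 hA hE2') hG hf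
      rw [h0]
      simp
    · rfl
  rw [hz] at hlow
  have hpos : 0 < c * hb ^ (1 : ℝ) * NN V hb γ ^ (α / γ) := by positivity
  have := ENNReal.ofReal_pos.mpr hpos
  exact absurd (this.trans_le hlow) (lt_irrefl _)

end MP497a12
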