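import Mathlib
import Pool.Agent.Lib.MP_497a12_mp.Defs
import Pool.Agent.Lib.MP_497a12_mp.Eigen
import Pool.Agent.Lib.MP_497a12_mp.Asym

/-!
# Sharpness without truncation and with the truncation `(T_le)`
-/

open MeasureTheory Filter Topology
open scoped ENNReal ContDiff RealInnerProductSpace

namespace MP497a12

variable {d : ℕ}

/-- Real part of a test function. -/
lemma re_mem {φ : Sp d → ℂ} (hφ : IsTest φ) : (fun x => (φ x).re) ∈ TF d :=
  ⟨Complex.reCLM.contDiff.comp hφ.1, hφ.2.comp_left (g := Complex.re) (by simp)⟩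

/-- Imaginary part of a test function. -/
lemma im_mem {φ : Sp d → ℂ} (hφ : IsTest φ) : (fun x => (φ x).im) ∈ TF d :=
  ⟨Complex.imCLM.contDiff.comp hφ.1, hφ.2.comp_left (g := Complex.im) (by simp)⟩

lemma pd_re {φ : Sp d → ℂ} (hφ : IsTest φ) (j : Fin d) (x : Sp d) :
    (pd j φ x).re = fderiv ℝ (fun x => (φ x).re) x (EuclideanSpace.single j 1) := by
  have h1 : HasFDerivAt φ (fderiv ℝ φ x) x :=
    ((hφ.1.differentiable (by simp)) x).hasFDerivAt
  have h2 := (Complex.reCLM.hasFDerivAt.comp x h1).fderiv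
  have h3 : fderiv ℝ (fun x => (φ x).re) x = Complex.reCLM.comp (fderiv ℝ φ x) := h2
  rw [h3]; rfl

lemma pd_im {φ : Sp d → ℂ} (hφ : IsTest φ) (j : Fin d) (x : Sp d) :
    (pd j φ x).im = fderiv ℝ (fun x => (φ x).im) x (EuclideanSpace.single j 1) := by
  have h1 : HasFDerivAt φ (fderiv ℝ φ x) x :=
    ((hφ.1.differentiable (by simp)) x).hasFDerivAt
  have h2 := (Complex.imCLM.hasFDerivAt.comp x h1).fderiv
  have h3 : fderiv ℝ (fun x => (φ x).im) x = Complex.imCLM.comp (fderiv ℝ φ x) := h2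
  rw [h3]; rfl

lemma split_integral {f : Sp d → ℝ} {h : Sp d → ℂ} (h1 : Integrable (fun x => f x * (h x).re))
    (h2 : Integrable (fun x => f x * (h x).im)) :
    ∫ x, (f x : ℂ) * h x = ((∫ x, f x * (h x).re : ℝ) : ℂ) +
      ((∫ x, f x * (h x).im : ℝ) : ℂ) * Complex.I := by
  have e : ∀ x, (f x : ℂ) * h x = ((f x * (h x).re : ℝ) : ℂ) +
      ((f x * (h x).im : ℝ) : ℂ) * Complex.I := by
    intro x
    apply Complex.ext <;> simp
  simp_rw [e]
  rw [integral_add h1.ofReal (h2.ofReal.mul_const _), integral_mul_const,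
    integral_complex_ofReal, integral_complex_ofReal]

/-- Complexification of a real `L^2` function. -/
noncomputable def cpx (u : E2 d) : Lp ℂ 2 (volume : Measure (Sp d)) := Complex.ofRealCLM.compLp u

lemma cpx_coe (u : E2 d) : cpx u =ᵐ[volume] fun x => ((u x : ℝ) : ℂ) :=
  Complex.ofRealCLM.coeFn_compLp u

/-- Components of a vector valued `L^2` function. -/
noncomputable def comp (g : E1 d) (j : Fin d) : E2 d :=
  (EuclideanSpace.proj j : Sp d →L[ℝ] ℝ).compLp g

lemma comp_coe (g : E1 d) (j : Fin d) : comp g j =ᵐ[volume] fun x => g x j :=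
  (EuclideanSpace.proj j : Sp d →L[ℝ] ℝ).coeFn_compLp g

lemma cpx_integral {u : E2 d} {h : Sp d → ℂ} (h1 : MemLp (fun x => (h x).re) 2)
    (h2 : MemLp (fun x => (h x).im) 2) :
    ∫ x, cpx u x * h x = ((∫ x, u x * (h x).re : ℝ) : ℂ) +
      ((∫ x, u x * (h x).im : ℝ) : ℂ) * Complex.I := by
  rw [← split_integral ((Lp.memLp u).integrable_mul h1) ((Lp.memLp u).integrable_mul h2)]
  apply integral_congr_ae
  filter_upwards [cpx_coe u] with x hx
  rw [hx]

lemma memLp_pd_re {φ : Sp d → ℂ} (hφ : IsTest φ) (j : Fin d) :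
    MemLp (fun x => (pd j φ x).re) 2 := by
  simp_rw [pd_re hφ]
  exact integrable_pd (re_mem hφ) j

lemma memLp_pd_im {φ : Sp d → ℂ} (hφ : IsTest φ) (j : Fin d) :
    MemLp (fun x => (pd j φ x).im) 2 := by
  simp_rw [pd_im hφ]
  exact integrable_pd (im_mem hφ) j

/-- A real eigenfunction gives an element of the graph. -/
lemma graph_of_real {hb e : ℝ} {W : Sp d → ℝ} (hW : Measurable W) (hW0 : ∀ x, 0 ≤ W x)
    (hWi : ∀ χ ∈ TF d, Integrable (fun x => W x * χ x ^ 2))
    {u : E2 d} {g : E1 d}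
    (h1 : ∀ χ ∈ TF d, ∀ i, ∫ x, u x * fderiv ℝ χ x (EuclideanSpace.single i 1) =
        - ∫ x, g x i * χ x)
    (h2 : Integrable (fun x => W x * u x ^ 2))
    (h3 : ∀ χ ∈ TF d, hb ^ 2 * (∑ i, ∫ x, g x i * fderiv ℝ χ x (EuclideanSpace.single i 1)) -
        (∫ x, W x * u x * χ x) = - e * ∫ x, u x * χ x) :
    Graph (fun x => -((W x : ℝ) : ℂ)) hb (cpx u) (0 + (-(e : ℂ)) • ⇑(cpx u)) := by
  have hWu : ∀ χ ∈ TF d, Integrable (fun x => W x * u x * χ x) := by
    intro χ hχ
    have hm : AEStronglyMeasurable (fun x => W x * u x * χ x) volume :=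
      (hW.aestronglyMeasurable.mul (Lp.aestronglyMeasurable u)).mul
        (TF.cont hχ).aestronglyMeasurable
    refine ((h2.add (hWi χ hχ)).mono hm ?_)
    refine Eventually.of_forall fun x => ?_
    simp only [Pi.add_apply]
    have h0 := hW0 x
    rw [Real.norm_of_nonneg (by positivity : 0 ≤ W x * u x ^ 2 + W x * χ x ^ 2), norm_mul, norm_mul,
      Real.norm_of_nonneg h0, Real.norm_eq_abs, Real.norm_eq_abs]
    have h5 : |u x| * |χ x| ≤ u x ^ 2 + χ x ^ 2 := by
      rw [← sq_abs (u x), ← sq_abs (χ x)]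
      nlinarith [sq_nonneg (|u x| - |χ x|), sq_nonneg (|u x|), sq_nonneg (|χ x|)]
    nlinarith
  refine ⟨Lp.memLp _, ?_, fun j => cpx (comp g j), fun j => Lp.memLp _, ?_, ?_, ?_⟩
  · rw [zero_add]
    exact (Lp.memLp (cpx u)).const_smul _
  · intro φ hφ j
    rw [cpx_integral (memLp_pd_re hφ j) (memLp_pd_im hφ j),
      cpx_integral (TF.memLp (re_mem hφ)) (TF.memLp (im_mem hφ))]
    simp_rw [pd_re hφ, pd_im hφ]
    rw [h1 _ (re_mem hφ), h1 _ (im_mem hφ)]
    have e1 : ∀ χ : Sp d → ℝ, ∫ x, comp g j x * χ x = ∫ x, g x j * χ x := by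
      intro χ
      apply integral_congr_ae
      filter_upwards [comp_coe g j] with x hx
      rw [hx]
    rw [e1, e1]
    push_cast
    ring
  · refine h2.congr ?_
    filter_upwards [cpx_coe u] with x hx
    rw [hx, norm_neg, Complex.norm_real, Complex.norm_real, Real.norm_of_nonneg (hW0 x),
      Real.norm_eq_abs, sq_abs]
  · intro φ hφ
    have e1 : ∀ j, ∫ x, cpx (comp g j) x * pd j φ x =
        ((∫ x, g x j * fderiv ℝ (fun x => (φ x).re) x (EuclideanSpace.single j 1) : ℝ) : ℂ) +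
        ((∫ x, g x j * fderiv ℝ (fun x => (φ x).im) x (EuclideanSpace.single j 1) : ℝ) : ℂ) *
          Complex.I := by
      intro j
      rw [cpx_integral (memLp_pd_re hφ j) (memLp_pd_im hφ j)]
      simp_rw [pd_re hφ, pd_im hφ]
      have e2 : ∀ χ : Sp d → ℝ, ∫ x, comp g j x * χ x = ∫ x, g x j * χ x := by
        intro χ
        apply integral_congr_ae
        filter_upwards [comp_coe g j] with x hx
        rw [hx]
      rw [e2, e2]
    have e3 : ∫ x, -((W x : ℝ) : ℂ) * cpx u x * φ x =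
        -(((∫ x, W x * u x * (φ x).re : ℝ) : ℂ) +
        ((∫ x, W x * u x * (φ x).im : ℝ) : ℂ) * Complex.I) := by
      rw [← split_integral (f := fun x => W x * u x) (hWu _ (re_mem hφ)) (hWu _ (im_mem hφ)),
        ← integral_neg]
      apply integral_congr_ae
      filter_upwards [cpx_coe u] with x hx
      rw [hx]
      push_cast
      ring
    have e4 : ∫ x, (0 + (-(e : ℂ)) • ⇑(cpx u) : Sp d → ℂ) x * φ x =
        (-(e : ℂ)) * (((∫ x, u x * (φ x).re : ℝ) : ℂ) +
        ((∫ x, u x * (φ x).im : ℝ) : ℂ) * Complex.I) := by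
      rw [← cpx_integral (TF.memLp (re_mem hφ)) (TF.memLp (im_mem hφ)), ← integral_const_mul]
      apply integral_congr_ae
      refine Eventually.of_forall fun x => ?_
      simp only [zero_add, Pi.smul_apply, smul_eq_mul, mul_assoc]
    simp_rw [e1]
    rw [e3, e4, Finset.sum_add_distrib, ← Finset.sum_mul]
    have k1 := h3 _ (re_mem hφ)
    have k2 := h3 _ (im_mem hφ)
    have k1' := congrArg (fun t : ℝ => (t : ℂ)) k1
    have k2' := congrArg (fun t : ℝ => (t : ℂ)) k2
    simp only at k1' k2'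
    push_cast at k1' k2' ⊢
    linear_combination k1' + Complex.I * k2'

/-- The potential. -/
noncomputable def VV (d : ℕ) (b : ℝ) : Sp d → ℂ := fun x => -((WW b x : ℝ) : ℂ)

lemma norm_VV (b : ℝ) (x : Sp d) : ‖VV d b x‖ = WW b x := by
  rw [VV, norm_neg, Complex.norm_real, Real.norm_of_nonneg (WW_nonneg b x)]

/-- Existence of an eigenfunction with eigenvalue `-eH`. -/
theorem exists_graph {b C : ℝ} (hb2 : b < 2) (hF : FBound d b C) {hb : ℝ} (hhb : 0 < hb)
    (he : 0 < eH d b hb) :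
    ∃ ψ : Sp d → ℂ, ¬ (ψ =ᵐ[volume] 0) ∧ Graph (VV d b) hb ψ (0 + (-(eH d b hb : ℂ)) • ψ) := by
  obtain ⟨u, g, hu, h1, h2, h3⟩ := exists_eigenfunction (d := d) hhb he (measurable_WW b)
    (WW_nonneg b) (fun χ hχ => ⟨WW_integrable hF hχ, by
      have := RQ_le_eH hb2 hF hhb hχ
      unfold RQ at this
      linarith⟩)
    (fun δ hδ => exists_near hδ)
    (fun δ hδ => by
      have hlim : Tendsto (fun K => C * ee K) atTop (𝓝 0) := by
        simpa using tendsto_ee.const_mul C
      obtain ⟨K, hK⟩ := (hlim.eventually (gt_mem_nhds hδ)).exists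
      refine ⟨WK b K, measurable_WK b K, WK_nonneg b K, WK_le_WW b K, ⟨_, WK_le b K⟩,
        WK_supp b K, fun χ hχ => ?_⟩
      have h4 := (tail_bound hF.1 hF.2 K one_pos hχ).2
      have h5 : C * ee K * 1 ^ (b - 2) * QQ 1 χ = (C * ee K) * (DD χ + SS χ) := by
        rw [Real.one_rpow, QQ]; ring
      rw [h5] at h4
      refine h4.trans ?_
      have := DD_nonneg χ
      have := SS_nonneg χ
      gcongr)
  refine ⟨cpx u, ?_, graph_of_real (measurable_WW b) (WW_nonneg b)
    (fun χ hχ => WW_integrable hF hχ) h1 h2 h3⟩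
  intro h0
  apply hu
  apply (Lp.eq_zero_iff_ae_eq_zero).mpr
  filter_upwards [h0, cpx_coe u] with x h5 h6
  rw [h6] at h5
  simpa using h5

lemma one_le_algMult {V : Sp d → ℂ} {hb : ℝ} {E : ℂ} {ψ : Sp d → ℂ} (hψ : ¬ (ψ =ᵐ[volume] 0))
    (h : Graph V hb ψ (0 + E • ψ)) : 1 ≤ algMult V hb E := by
  unfold algMult
  refine le_iSup₂_of_le 1 ⟨fun _ => ψ, fun _ => ?_, fun c hc => ?_⟩ (by simp)
  · refine ⟨1, fun i => if i = 0 then ψ else 0, by simp, by simp, fun i hi => ?_⟩
    have : i = 0 := by omega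
    subst this
    simpa using h
  · funext i
    by_contra hci
    apply hψ
    filter_upwards [hc] with x hx
    have hi : i = 0 := Subsingleton.elim _ _
    subst hi
    have h0 : c 0 ≠ 0 := hci
    simpa [h0] using hx

lemma delta_neg {e : ℝ} (he : 0 < e) : e ≤ delta (-(e : ℂ)) := by
  unfold delta
  have hne : halfLine.Nonempty := ⟨0, 0, le_rfl, by simp⟩
  rw [Metric.le_infDist hne]
  rintro z ⟨t, ht, rfl⟩
  rw [dist_eq_norm]
  have : -(e : ℂ) - (t : ℂ) = ((-(e + t) : ℝ) : ℂ) := by push_cast; ring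
  rw [this, Complex.norm_real, norm_neg, Real.norm_of_nonneg (by linarith)]
  linarith

lemma neg_not_mem_halfLine {e : ℝ} (he : 0 < e) : (-(e : ℂ)) ∉ halfLine := by
  rintro ⟨t, ht, h⟩
  have := congrArg Complex.re h
  simp at this
  linarith

/-- One eigenvalue bounds the sum from below. -/
lemma lhs_ge {V : Sp d → ℂ} {hb α β γ : ℝ} (hβ : 0 ≤ β) {t : Trunc} {e : ℝ} (he : 0 < e)
    {ψ : Sp d → ℂ} (hψ : ¬ (ψ =ᵐ[volume] 0)) (h : Graph V hb ψ (0 + (-(e : ℂ)) • ψ))
    (hk : Keep V hb γ t (-(e : ℂ))) :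
    ENNReal.ofReal (e ^ α) ≤ lhs V hb α β γ t := by
  have hn : ‖(-(e : ℂ))‖ = e := by
    rw [norm_neg, Complex.norm_real, Real.norm_of_nonneg he.le]
  unfold lhs
  refine le_trans ?_ (ENNReal.le_tsum (-(e : ℂ)))
  rw [if_pos ⟨neg_not_mem_halfLine he, hk⟩]
  have h1 := one_le_algMult hψ h
  have h2 : ENNReal.ofReal (e ^ α) ≤
      ENNReal.ofReal (‖(-(e : ℂ))‖ ^ α * (delta (-(e : ℂ)) / ‖(-(e : ℂ))‖) ^ β) := by
    apply ENNReal.ofReal_le_ofReal
    rw [hn]
    have h3 : 1 ≤ (delta (-(e : ℂ)) / e) ^ β := by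
      apply Real.one_le_rpow _ hβ
      rw [le_div_iff₀ he]
      linarith [delta_neg he]
    have h4 : 0 < e ^ α := by positivity
    nlinarith
  refine h2.trans ?_
  have h5 : (1 : ℝ≥0∞) ≤ (algMult V hb (-(e : ℂ)) : ℝ≥0∞) := by
    exact_mod_cast h1
  exact le_mul_of_one_le_left (by positivity) h5

/-- The potential is admissible. -/
lemma VV_admissible {b C : ℝ} (hF : FBound d b C) : Admissible (VV d b) := by
  refine ⟨((Complex.measurable_ofReal.comp (measurable_WW b))).neg, fun η hη => ?_⟩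
  have hlim : Tendsto (fun K => C * ee K) atTop (𝓝 0) := by
    simpa using tendsto_ee.const_mul C
  obtain ⟨K, hK⟩ := (hlim.eventually (gt_mem_nhds hη)).exists
  refine ⟨fun x => -((WK b K x : ℝ) : ℂ), (Complex.measurable_ofReal.comp (measurable_WK b K)).neg,
    ⟨∑ k ∈ Finset.range K, aa b k, fun x => ?_⟩, ?_, fun φ hφ => ?_⟩
  · rw [norm_neg, Complex.norm_real, Real.norm_of_nonneg (WK_nonneg b K x)]
    exact WK_le b K x
  · apply HasCompactSupport.intro (isCompact_closedBall (0 : Sp d) 1)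
    intro x hx
    have : 1 < ‖x‖ := by simpa using hx
    simp [WK_supp b K x this]
  · have e1 : ∀ x, ‖VV d b x - -((WK b K x : ℝ) : ℂ)‖ * ‖φ x‖ ^ 2 =
        (WW b x - WK b K x) * (φ x).re ^ 2 + (WW b x - WK b K x) * (φ x).im ^ 2 := by
      intro x
      have e2 : VV d b x - -((WK b K x : ℝ) : ℂ) = -(((WW b x - WK b K x : ℝ)) : ℂ) := by
        rw [VV]; push_cast; ring
      rw [e2, norm_neg, Complex.norm_real, Real.norm_of_nonneg (sub_nonneg.mpr (WK_le_WW b K x)),
        ← Complex.normSq_eq_norm_sq, Complex.normSq_apply]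
      ring
    obtain ⟨i1, l1⟩ := tail_bound hF.1 hF.2 K one_pos (re_mem hφ)
    obtain ⟨i2, l2⟩ := tail_bound hF.1 hF.2 K one_pos (im_mem hφ)
    simp_rw [e1]
    refine ⟨i1.add i2, ?_⟩
    rw [integral_add i1 i2]
    have hS : ∫ x, ‖φ x‖ ^ 2 = SS (fun x => (φ x).re) + SS (fun x => (φ x).im) := by
      unfold SS
      rw [← integral_add (TF.integrable_sq (re_mem hφ)) (TF.integrable_sq (im_mem hφ))]
      congr 1
      funext x
      rw [← Complex.normSq_eq_norm_sq, Complex.normSq_apply]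
      ring
    have hDD : ∀ χ ∈ TF d, DD χ = ∑ j, ∫ x, (fderiv ℝ χ x (EuclideanSpace.single j 1)) ^ 2 := by
      intro χ hχ
      unfold DD
      rw [← integral_finsetSum _ (fun j _ => (integrable_pd hχ j).integrable_sq)]
      congr 1
      funext x
      rw [← norm_gradient, EuclideanSpace.norm_sq_eq]
      refine Finset.sum_congr rfl fun j _ => ?_
      have h3 : ⟪gradient χ x, (EuclideanSpace.single j (1 : ℝ) : Sp d)⟫ =
        fderiv ℝ χ x (EuclideanSpace.single j 1) := by
        rw [gradient, InnerProductSpace.toDual_symm_apply]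
      rw [← h3, EuclideanSpace.inner_single_right, Real.norm_eq_abs, sq_abs]
      simp
    have hD : ∑ j, ∫ x, ‖pd j φ x‖ ^ 2 = DD (fun x => (φ x).re) + DD (fun x => (φ x).im) := by
      rw [hDD _ (re_mem hφ), hDD _ (im_mem hφ), ← Finset.sum_add_distrib]
      refine Finset.sum_congr rfl fun j _ => ?_
      rw [← integral_add (integrable_pd (re_mem hφ) j).integrable_sq
        (integrable_pd (im_mem hφ) j).integrable_sq]
      congr 1
      funext x
      rw [← Complex.normSq_eq_norm_sq, Complex.normSq_apply, pd_re hφ, pd_im hφ]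
      ring
    rw [hS, hD]
    have q : ∀ χ : Sp d → ℝ, C * ee K * 1 ^ (b - 2) * QQ 1 χ = (C * ee K) * (DD χ + SS χ) := by
      intro χ
      rw [Real.one_rpow, QQ]; ring
    rw [q] at l1 l2
    have := DD_nonneg (fun x => (φ x).re)
    have := SS_nonneg (fun x => (φ x).re)
    have := DD_nonneg (fun x => (φ x).im)
    have := SS_nonneg (fun x => (φ x).im)
    have m1 : (C * ee K) * (DD (fun x => (φ x).re) + SS (fun x => (φ x).re)) ≤
        η * (DD (fun x => (φ x).re) + SS (fun x => (φ x).re)) := by gcongr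
    have m2 : (C * ee K) * (DD (fun x => (φ x).im) + SS (fun x => (φ x).im)) ≤
        η * (DD (fun x => (φ x).im) + SS (fun x => (φ x).im)) := by gcongr
    linarith

/-- **The general sharpness theorem.** -/
theorem sharp_general (hd : 1 ≤ d) {α β γ : ℝ} (hα : 0 < α) (hβ : 0 ≤ β) (hγ : 0 < γ)
    (hγ1 : d = 1 → 1 / 2 ≤ γ) {t : Trunc} (ht : t ≠ Trunc.ge) : Sharp d α β γ t := by
  have hd' : (1 : ℝ) ≤ d := by exact_mod_cast hd
  set q := γ + d / 2 with hq
  have hq0 : 0 < q := by positivity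
  have hq1 : 1 ≤ q := by
    rcases Nat.eq_or_lt_of_le hd with h | h
    · have := hγ1 h.symm
      rw [hq, ← h]
      push_cast
      linarith
    · have : (2 : ℝ) ≤ d := by exact_mod_cast h
      rw [hq]; linarith
  set b := d / q with hb
  have hb0 : 0 < b := by positivity
  have hbq : b * q = d := by rw [hb]; field_simp
  have hb2 : b < 2 := by
    rw [hb, div_lt_iff₀ hq0, hq]; linarith
  have hb1 : d = 1 → b ≤ 1 := by
    intro h
    rw [hb, div_le_iff₀ hq0, h]
    push_cast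
    linarith
  have hκ : 2 * b / (2 - b) = d / γ := by
    have : 2 - b = 2 * γ / q := by
      rw [hb, eq_div_iff hq0.ne', sub_mul, div_mul_cancel₀ _ hq0.ne', hq]; ring
    rw [this, hb]
    field_simp
  obtain ⟨C, hC, hFB⟩ := FB hd hb0 hb2 hb1
  have hF : FBound d b C := ⟨hC, hFB⟩
  have hmem : MemLp (VV d b) (ENNReal.ofReal q) := by
    have := (WW_memLp (d := d) hq1 hbq).ofReal (K := ℂ)
    exact this.neg
  have hball : ∀ᵐ x ∂(volume.restrict (Metric.ball (0 : Sp d) 1)), 0 < WW b x := by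
    rw [ae_restrict_iff' Metric.isOpen_ball.measurableSet]
    have hne : ∀ᵐ x : Sp d, x ≠ 0 := by
      have : Nontrivial (Sp d) := by
        have : Nonempty (Fin d) := ⟨⟨0, hd⟩⟩
        infer_instance
      exact (measure_eq_zero_iff_ae_notMem.mp (measure_singleton (0 : Sp d)))
    filter_upwards [hne] with x hx hx1
    have h1 : ‖x‖ ≤ rad 0 := by
      have := mem_ball_zero_iff.mp hx1
      simpa [rad] using this.le
    exact lt_of_lt_of_le (aa_pos b 0) (aa_le_WW b 0 (norm_pos_iff.mpr hx) h1)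
  have hball0 : volume.restrict (Metric.ball (0 : Sp d) 1) ≠ 0 := by
    intro h
    have : volume (Metric.ball (0 : Sp d) 1) = 0 := by
      rw [← Measure.restrict_apply_univ, h]; simp
    exact (Metric.measure_ball_pos volume (0 : Sp d) one_pos).ne' this
  have hnz : ¬ (VV d b =ᵐ[volume] 0) := by
    intro h
    have h1 : ∀ᵐ x ∂(volume.restrict (Metric.ball (0 : Sp d) 1)), False := by
      filter_upwards [hball, ae_restrict_of_ae h] with x h2 h3
      have := norm_VV b x
      rw [h3] at this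
      simp at this
      linarith
    have h2 : (ae (volume.restrict (Metric.ball (0 : Sp d) 1))).NeBot := ae_neBot.mpr hball0
    exact h1.exists.elim fun _ hf => hf
  set I := ∫ x, ‖VV d b x‖ ^ q with hI
  have hIint : Integrable (fun x => ‖VV d b x‖ ^ q) := by
    have := hmem.integrable_norm_rpow (by simpa using hq0) ENNReal.ofReal_ne_top
    rwa [ENNReal.toReal_ofReal hq0.le] at this
  have hI0 : 0 < I := by
    rw [hI, integral_pos_iff_support_of_nonneg (fun x => by positivity) hIint]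
    rw [pos_iff_ne_zero]
    intro h0
    apply hnz
    have : ∀ᵐ x : Sp d, x ∉ Function.support (fun x => ‖VV d b x‖ ^ q) :=
      measure_eq_zero_iff_ae_notMem.mp h0
    filter_upwards [this] with x hx
    simp only [Function.mem_support, not_not] at hx
    have := (Real.rpow_eq_zero (norm_nonneg _) hq0.ne').mp hx
    simpa using this
  refine ⟨VV d b, VV_admissible hF, hmem, hnz, fun ε hε => ?_⟩
  obtain ⟨c, hc, h₁, h₁p, hlow⟩ := eH_lower hb0 hb2 hF hd (show 0 < ε / α by positivity)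
  obtain ⟨h₂, h₂p, hupp⟩ := eH_upper hb0 hb2 hF (show 0 < I ^ (1 / γ) by positivity)
  rw [hκ] at hlow hupp
  refine ⟨c ^ α / I ^ (α / γ), by positivity, min h₁ h₂, lt_min h₁p h₂p, fun hb' h0 h1 => ?_⟩
  have hl := hlow hb' h0 (lt_of_lt_of_le h1 (min_le_left _ _))
  have hu := hupp hb' h0 (lt_of_lt_of_le h1 (min_le_right _ _))
  have he : 0 < eH d b hb' := lt_of_lt_of_le (by positivity) hl
  obtain ⟨ψ, hψ, hgr⟩ := exists_graph hb2 hF h0 he
  have hNN : NN (VV d b) hb' γ = hb' ^ (-(d : ℝ)) * I := rfl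
  have hkeep : Keep (VV d b) hb' γ t (-(eH d b hb' : ℂ)) := by
    cases t with
    | none => trivial
    | le =>
      change ‖(-(eH d b hb' : ℂ))‖ ^ γ ≤ NN (VV d b) hb' γ
      rw [norm_neg, Complex.norm_real, Real.norm_of_nonneg he.le, hNN]
      calc eH d b hb' ^ γ ≤ (I ^ (1 / γ) * hb' ^ (-(d / γ))) ^ γ := by gcongr
        _ = hb' ^ (-(d : ℝ)) * I := by
          rw [Real.mul_rpow (by positivity) (by positivity), ← Real.rpow_mul hI0.le,
            ← Real.rpow_mul h0.le, one_div_mul_cancel hγ.ne', Real.rpow_one, mul_comm]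
          congr 2
          field_simp
    | ge => exact absurd rfl ht
  refine le_trans ?_ (lhs_ge hβ he hψ hgr hkeep)
  apply ENNReal.ofReal_le_ofReal
  rw [hNN, Real.mul_rpow (by positivity) hI0.le]
  calc c ^ α / I ^ (α / γ) * hb' ^ ε * ((hb' ^ (-(d : ℝ))) ^ (α / γ) * I ^ (α / γ))
      = c ^ α * (hb' ^ ε * (hb' ^ (-(d : ℝ))) ^ (α / γ)) := by field_simp
    _ = (c * hb' ^ (-(d / γ) + ε / α)) ^ α := by
        rw [Real.mul_rpow hc.le (by positivity), ← Real.rpow_mul h0.le, ← Real.rpow_mul h0.le,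
          ← Real.rpow_add h0]
        congr 2
        field_simp
        ring
    _ ≤ eH d b hb' ^ α := by gcongr

end MP497a12
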