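import Mathlib
import Pool.Agent.Lib.MP_497a12_mp.Main

/-!
# The cases (a), (b), (c), (e)
-/

namespace MP497a12

theorem range_d_pos {d : ℕ} (hd : 2 ≤ d) : (0 : ℝ) < d / (2 * (2 * d - 1)) := by
  have : (2 : ℝ) ≤ d := by exact_mod_cast hd
  apply div_pos (by linarith)
  linarith

/-- In all cases without the truncation `(T_ge)`, that is in (a), (b), (c) and (e), the bound (*)
is sharp up to `hb ^ eps`, for all parameters in the range. -/
theorem sharp_abce (k : Case) (hk : k.trunc ≠ Trunc.ge) (d : ℕ) (α β γ : ℝ)
    (h : k.Range d α β γ) : Sharp d α β γ k.trunc := by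
  cases k with
  | a =>
    obtain ⟨h1, h2, h3, h4, -⟩ := h
    exact sharp_general (by omega) (by rw [h2]; norm_num) (by rw [h3]; norm_num) h4
      (fun h => by omega) hk
  | b =>
    obtain ⟨h1, h2, h3, h4, h5⟩ := h
    have hγ : 0 < γ := lt_of_lt_of_le (range_d_pos h1) h4
    have hd : (2 : ℝ) ≤ d := by exact_mod_cast h1
    have hα : 0 < α := by
      refine lt_of_le_of_lt ?_ h2
      apply div_nonneg
      · apply mul_nonneg <;> linarith
      · linarith
    exact sharp_general (by omega) hα (by rw [h3]; norm_num) hγ (fun h => by omega) hk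
  | c =>
    obtain ⟨h1, h2, h3, h4⟩ := h
    exact sharp_general h1 (by linarith) (by linarith) (by linarith) (fun _ => h4.le) hk
  | d => exact absurd rfl hk
  | e =>
    obtain ⟨h1, h2, h3, h4, h5⟩ := h
    have : (0 : ℝ) ≤ d := by positivity
    exact sharp_general h1 (by rw [h2]; linarith) (by rw [h3]; linarith) h4 h5 hk
  | f => exact absurd rfl hk

end MP497a12
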