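import Mathlib
import Pool.Agent.Lib.MP_497a12_mp.GScale

/-!
# Properties of the pieces
-/

open MeasureTheory Filter Topology Real
open scoped ENNReal ContDiff InnerProductSpace FourierTransform SchwartzMap

namespace MP497a12

lemma det_diagL {d : ℕ} (c : Fin d → ℝ) (hc : ∀ i, c i ≠ 0) :
    LinearMap.det ((diagL c hc : Sp d →L[ℝ] Sp d) : Sp d →ₗ[ℝ] Sp d) = ∏ i, c i := by
  set b := (EuclideanSpace.basisFun (Fin d) ℝ).toBasis with hb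
  rw [← LinearMap.det_toMatrix b]
  have h : LinearMap.toMatrix b b ((diagL c hc : Sp d →L[ℝ] Sp d) : Sp d →ₗ[ℝ] Sp d) =
      Matrix.diagonal c := by
    ext i j
    rw [LinearMap.toMatrix_apply]
    have h1 : ((diagL c hc : Sp d →L[ℝ] Sp d) : Sp d →ₗ[ℝ] Sp d) (b j) = diagL c hc (b j) := rfl
    rw [h1]
    have h2 : b.repr (diagL c hc (b j)) i = (diagL c hc (b j)) i := by
      rw [hb]
      simp
    rw [h2, diagL_apply, hb]
    simp only [OrthonormalBasis.coe_toBasis, EuclideanSpace.basisFun_apply, Matrix.diagonal_apply]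
    by_cases hij : i = j
    · subst hij; simp
    · simp [hij]
  rw [h, Matrix.det_diagonal]

variable {n : ℕ}

lemma dt_MM {κ ε : ℝ} (hκ : 0 < κ) (hε : 0 < ε) :
    dt (MM (n := n) hκ hε) = κ ^ (-((n : ℝ) + 1)) * ε ^ (-(1 + (n : ℝ) / 2)) := by
  unfold dt MM
  rw [det_diagL, Fin.prod_univ_succ]
  have h1 : ∀ i : Fin n, dl κ ε i.succ = κ * √ε := by
    intro i
    simp [dl]
  have h0 : dl κ ε (0 : Fin (n + 1)) = κ * ε := by simp [dl]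
  rw [h0]
  simp_rw [h1]
  rw [Finset.prod_const, Finset.card_univ, Fintype.card_fin, abs_of_pos (by positivity), mul_pow,
    mul_inv, mul_inv, mul_inv, Real.sqrt_eq_rpow, ← Real.rpow_natCast (ε ^ (1 / 2 : ℝ)) n,
    ← Real.rpow_mul hε.le, ← Real.rpow_natCast κ n]
  have e1 : κ ^ (-((n : ℝ) + 1)) = κ⁻¹ * (κ ^ (n : ℝ))⁻¹ := by
    rw [Real.rpow_neg hκ.le, Real.rpow_add hκ, Real.rpow_one, mul_inv, mul_comm]
  have e2 : ε ^ (-(1 + (n : ℝ) / 2)) = ε⁻¹ * (ε ^ (1 / 2 * (n : ℝ)))⁻¹ := by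
    rw [Real.rpow_neg hε.le, Real.rpow_add hε, Real.rpow_one, mul_inv]
    congr 3
    ring
  rw [e1, e2]
  ring

lemma norm_MM_ge {κ ε : ℝ} (hκ : 0 < κ) (hε : 0 < ε) (hε1 : ε ≤ 1) (x : Sp (n + 1)) :
    κ * ε * ‖x‖ ≤ ‖MM hκ hε x‖ := by
  have h1 := norm_sq_split (MM hκ hε x)
  rw [MM_zero, MM_tl, norm_smul, Real.norm_of_nonneg (by positivity)] at h1
  have h2 := norm_sq_split x
  have h3 : (κ * ε * ‖x‖) ^ 2 ≤ ‖MM hκ hε x‖ ^ 2 := by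
    rw [h1, mul_pow, h2]
    have h4 : (κ * √ε * ‖tl x‖) ^ 2 = κ ^ 2 * ε * ‖tl x‖ ^ 2 := by
      rw [mul_pow, mul_pow, Real.sq_sqrt hε.le]
    rw [h4]
    have h5 : (κ * ε) ^ 2 * ‖tl x‖ ^ 2 ≤ κ ^ 2 * ε * ‖tl x‖ ^ 2 := by
      gcongr
      rw [mul_pow]
      gcongr
      nlinarith
    nlinarith
  exact (pow_le_pow_iff_left₀ (by positivity) (norm_nonneg _) (by norm_num)).mp h3

lemma norm_wG_le (ε : ℝ) (G : Sp (n + 1) → ℂ) (y : Sp (n + 1)) :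
    ‖wG ε G y‖ ≤ ‖G y‖ + ‖G (rf y)‖ := by
  unfold wG
  refine (norm_add_le _ _).trans ?_
  rw [norm_mul, norm_mul, norm_ch, norm_ch, one_mul, one_mul]

lemma norm_vG_le {κ ε : ℝ} (hκ : 0 < κ) (hε : 0 < ε) {G : Sp (n + 1) → ℂ} {MG : ℝ}
    (hMG : ∀ x, ‖G x‖ ≤ MG) (x : Sp (n + 1)) : ‖vG hκ hε G x‖ ≤ κ ^ 2 * ε * (2 * MG) := by
  unfold vG
  rw [norm_mul, Complex.norm_real, Real.norm_of_nonneg (by positivity)]
  gcongr
  refine (norm_wG_le _ _ _).trans ?_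
  have h1 := hMG (MM hκ hε x)
  have h2 := hMG (rf (MM hκ hε x))
  linarith

lemma vG_zero {κ ε : ℝ} (hκ : 0 < κ) (hε : 0 < ε) (hε1 : ε ≤ 1) {G : Sp (n + 1) → ℂ} {R0 : ℝ}
    (hR0 : ∀ y, R0 < ‖y‖ → G y = 0) {x : Sp (n + 1)} (hx : R0 / (κ * ε) < ‖x‖) :
    vG hκ hε G x = 0 := by
  have h1 : R0 < ‖MM hκ hε x‖ := by
    refine lt_of_lt_of_le ?_ (norm_MM_ge hκ hε hε1 x)
    rw [div_lt_iff₀ (by positivity)] at hx
    linarith
  unfold vG wG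
  rw [hR0 _ h1, hR0 _ (by rwa [LinearIsometryEquiv.norm_map])]
  simp

/-- The `L^q` integral of a piece. -/
lemma integral_vG {κ ε q : ℝ} (hκ : 0 < κ) (hε : 0 < ε) (hq : 0 < q) {G : Sp (n + 1) → ℂ} :
    ∫⁻ x, ENNReal.ofReal (‖vG hκ hε G x‖ ^ q) ≤ ENNReal.ofReal
      ((κ ^ 2 * ε) ^ q * (κ ^ (-((n : ℝ) + 1)) * ε ^ (-(1 + (n : ℝ) / 2)))) *
        ∫⁻ y, ENNReal.ofReal ((‖G y‖ + ‖G (rf y)‖) ^ q) := by
  set M := MM (n := n) hκ hε with hM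
  set f : Sp (n + 1) → ℝ≥0∞ := fun y => ENNReal.ofReal ((‖G y‖ + ‖G (rf y)‖) ^ q) with hf
  have h1 : ∀ x, ENNReal.ofReal (‖vG hκ hε G x‖ ^ q) ≤
      ENNReal.ofReal ((κ ^ 2 * ε) ^ q) * f (M x) := by
    intro x
    rw [hf]
    simp only
    rw [← ENNReal.ofReal_mul (by positivity)]
    apply ENNReal.ofReal_le_ofReal
    rw [← Real.mul_rpow (by positivity) (by positivity)]
    apply Real.rpow_le_rpow (norm_nonneg _) _ hq.le
    unfold vG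
    rw [norm_mul, Complex.norm_real, Real.norm_of_nonneg (by positivity)]
    gcongr
    exact norm_wG_le _ _ _
  calc ∫⁻ x, ENNReal.ofReal (‖vG hκ hε G x‖ ^ q)
      ≤ ∫⁻ x, ENNReal.ofReal ((κ ^ 2 * ε) ^ q) * f (M x) := lintegral_mono h1
    _ = ENNReal.ofReal ((κ ^ 2 * ε) ^ q) * ∫⁻ x, f (M x) :=
        lintegral_const_mul' _ _ ENNReal.ofReal_ne_top
    _ = ENNReal.ofReal ((κ ^ 2 * ε) ^ q) * ∫⁻ y, f y ∂(Measure.map M volume) := by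
        have hmap : ∫⁻ y, f y ∂(Measure.map M volume) = ∫⁻ x, f (M x) :=
          M.toHomeomorph.measurableEmbedding.lintegral_map f
        rw [hmap]
    _ = _ := by
        rw [map_M, lintegral_smul_measure, hM, dt_MM, smul_eq_mul, ← mul_assoc,
          ← ENNReal.ofReal_mul (by positivity)]

/-- Polynomials times geometric sequences. -/
lemma summable_poly_geo (a : ℝ) {μ : ℝ} (h0 : 0 < μ) (h1 : μ < 1) :
    Summable (fun k : ℕ => ((k : ℝ) + 1) ^ a * μ ^ k) := by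
  set m := ⌈a⌉₊ with hm
  have hs : Summable (fun k : ℕ => ((k : ℝ)) ^ m * μ ^ k) :=
    summable_pow_mul_geometric_of_norm_lt_one m (by rwa [Real.norm_of_nonneg h0.le])
  have hs1 := ((summable_nat_add_iff 1).mpr hs).mul_right μ⁻¹
  refine Summable.of_nonneg_of_le (fun k => by positivity) (fun k => ?_) hs1
  have hk : (1 : ℝ) ≤ (k : ℝ) + 1 := by
    have : (0 : ℝ) ≤ k := Nat.cast_nonneg k
    linarith
  have h2 : ((k : ℝ) + 1) ^ a ≤ ((k : ℝ) + 1) ^ m := by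
    rw [← Real.rpow_natCast ((k : ℝ) + 1) m]
    exact Real.rpow_le_rpow_of_exponent_le hk (Nat.le_ceil a)
  calc ((k : ℝ) + 1) ^ a * μ ^ k ≤ ((k : ℝ) + 1) ^ m * μ ^ k := by gcongr
    _ = (((k + 1 : ℕ) : ℝ)) ^ m * μ ^ (k + 1) * μ⁻¹ := by
        push_cast
        rw [pow_succ]
        field_simp

lemma bdd_poly_geo (a : ℝ) {μ : ℝ} (h0 : 0 < μ) (h1 : μ < 1) :
    ∃ C : ℝ, 0 < C ∧ ∀ k : ℕ, ((k : ℝ) + 1) ^ a * μ ^ k ≤ C := by
  have hs := summable_poly_geo a h0 h1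
  refine ⟨(∑' k : ℕ, ((k : ℝ) + 1) ^ a * μ ^ k) + 1, ?_, fun k => ?_⟩
  · have : 0 ≤ ∑' k : ℕ, ((k : ℝ) + 1) ^ a * μ ^ k := tsum_nonneg fun k => by positivity
    linarith
  · have := hs.le_tsum k fun j _ => by positivity
    linarith

end MP497a12
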