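import Mathlib
import Pool.Agent.Lib.MP_497a12_mp.Main
import Pool.Agent.Lib.MP_497a12_mp.GPos
import Pool.Agent.Lib.MP_497a12_mp.GPar

/-!
# Sharpness of the bounds with the truncation `ge` for `γ > 1/2`
-/

open MeasureTheory Filter Topology Real
open scoped ENNReal ContDiff InnerProductSpace FourierTransform SchwartzMap

namespace MP497a12

attribute [local irreducible] Mop Cop Fo

section Gen

variable {d : ℕ}

lemma Kv_const_mul {v : Sp d → ℂ} (hv : Good v) (c : ℂ) :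
    Kv (fun x => c * v x) = c • Kv v := by
  ext1 f
  rw [_root_.smul_apply, Kv_apply, Kv_apply, Cop_const_mul hv, map_smul]

lemma Full_const_mul {v : Sp d → ℂ} (hv : Good v) (c g z : ℂ) :
    Full (fun x => c * v x) g z = Full v (g * c) z := by
  unfold Full
  rw [Kv_const_mul hv, smul_smul]

lemma im_le_delta (E : ℂ) : E.im ≤ delta E := by
  unfold delta
  have hne : halfLine.Nonempty := ⟨0, 0, le_rfl, by simp⟩
  rw [Metric.le_infDist hne]
  rintro z ⟨t, ht, rfl⟩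
  rw [dist_eq_norm]
  have h1 := Complex.abs_im_le_norm (E - (t : ℂ))
  rw [Complex.sub_im, Complex.ofReal_im, sub_zero] at h1
  exact (le_abs_self _).trans h1

lemma not_mem_halfLine_of_im {E : ℂ} (h : 0 < E.im) : E ∉ halfLine := by
  rintro ⟨t, ht, rfl⟩
  simp at h

/-- One eigenvalue bounds the sum from below. -/
lemma lhs_ge_im {V : Sp d → ℂ} {hb α β γ : ℝ} (hβ : 0 ≤ β) {t : Trunc} {E : ℂ} (him : 0 < E.im)
    {ψ : Sp d → ℂ} (hψ : ¬ (ψ =ᵐ[volume] 0)) (h : Graph V hb ψ (0 + E • ψ))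
    (hk : Keep V hb γ t E) :
    ENNReal.ofReal (‖E‖ ^ α * (E.im / ‖E‖) ^ β) ≤ lhs V hb α β γ t := by
  unfold lhs
  refine le_trans ?_ (ENNReal.le_tsum E)
  rw [if_pos ⟨not_mem_halfLine_of_im him, hk⟩]
  have h1 := one_le_algMult hψ h
  have h2 : ENNReal.ofReal (‖E‖ ^ α * (E.im / ‖E‖) ^ β) ≤
      ENNReal.ofReal (‖E‖ ^ α * (delta E / ‖E‖) ^ β) := by
    apply ENNReal.ofReal_le_ofReal
    have h3 := im_le_delta E
    gcongr
  refine h2.trans ?_
  have h5 : (1 : ℝ≥0∞) ≤ (algMult V hb E : ℝ≥0∞) := by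
    exact_mod_cast h1
  exact le_mul_of_one_le_left (by positivity) h5

/-- The `L^q` integral of a disjoint sum. -/
lemma lq_total {w : ℕ → Sp d → ℂ} {A M : ℕ → ℝ} (h : Fam w A M)
    (hdis : ∀ j k, j ≠ k → ∀ x, w j x ≠ 0 → w k x = 0) {q : ℝ} (hq : 0 < q) :
    ∫⁻ x, ENNReal.ofReal (‖VT w x‖ ^ q) ≤ ∑' k, ∫⁻ x, ENNReal.ofReal (‖w k x‖ ^ q) := by
  rw [← lintegral_tsum fun k => ((h.meas k).norm.pow_const q).ennreal_ofReal.aemeasurable]
  apply lintegral_mono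
  intro x
  simp only
  by_cases hx : ∃ k, w k x ≠ 0
  · obtain ⟨k, hk⟩ := hx
    have h1 : VT w x = w k x := by
      unfold VT
      apply tsum_eq_single
      intro j hj
      exact hdis k j (Ne.symm hj) x hk
    rw [h1]
    exact ENNReal.le_tsum k
  · push Not at hx
    have h1 : VT w x = 0 := by
      unfold VT
      simp [hx]
    rw [h1, norm_zero, Real.zero_rpow hq.ne', ENNReal.ofReal_zero]
    exact zero_le

end Gen

variable {n : ℕ}

/-- The pieces. -/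
theorem piece_exists (n : ℕ) : ∃ (G h : Sp (n + 1) → ℂ) (W : ℝ), Rep G h W ∧ MemLp G 2 ∧
    IsTest G ∧ ∃ r : ℝ, 0 < r ∧ r < 1 ∧ ∃ ε₀ : ℝ, 0 < ε₀ ∧ ∃ c₀ : ℝ, 0 < c₀ ∧ c₀ ≤ 1 ∧
        ∀ ε : ℝ, 0 < ε → ε ≤ ε₀ → ∀ g : ℝ, 1 ≤ g → g ≤ 1 + c₀ →
          ∃ z : ℂ, ‖z - Complex.I‖ ≤ r ∧ ∃ φ, φ ≠ 0 ∧ Aop ε G g z φ = 0 := by
  obtain ⟨φ0, hφ0, hk⟩ := eff_kernel n
  exact piece good_G0 approx_G0 hφ0 hk

/-- The momentum scales. -/
noncomputable def kap (L e : ℝ) (k : ℕ) : ℝ := (L ^ k) ^ e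

/-- The small parameters. -/
noncomputable def epk (c s : ℝ) (k : ℕ) : ℝ := c * ((k : ℝ) + 1) ^ (-s)

lemma kap_pos {L : ℝ} (hL : 0 < L) (e : ℝ) (k : ℕ) : 0 < kap L e k := by unfold kap; positivity

lemma epk_pos {c : ℝ} (hc : 0 < c) (s : ℝ) (k : ℕ) : 0 < epk c s k := by unfold epk; positivity

lemma epk_le {c : ℝ} (hc : 0 < c) {s : ℝ} (hs : 0 ≤ s) (k : ℕ) : epk c s k ≤ c := by
  unfold epk
  have h1 : ((k : ℝ) + 1) ^ (-s) ≤ 1 := by
    apply Real.rpow_le_one_of_one_le_of_nonpos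
    · have : (0 : ℝ) ≤ k := Nat.cast_nonneg k
      linarith
    · linarith
  nlinarith

/-- The sequence of potentials. -/
noncomputable def vk {L c : ℝ} (hL : 0 < L) (hc : 0 < c) (e s : ℝ) (G : Sp (n + 1) → ℂ) (k : ℕ)
    (x : Sp (n + 1)) : ℂ := (((L ^ k)⁻¹ : ℝ) : ℂ) * vG (kap_pos hL e k) (epk_pos hc s k) G x

lemma vk_ker {L c : ℝ} (hL : 0 < L) (hc : 0 < c) {e s : ℝ} (hs : 0 ≤ s) {G : Sp (n + 1) → ℂ}
    (hG : Good G) {r ε₀ c₀ : ℝ} (hr1 : r < 1) (hLc : L = 1 + c₀) (hcε : c ≤ ε₀)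
    (hp : ∀ ε : ℝ, 0 < ε → ε ≤ ε₀ → ∀ g : ℝ, 1 ≤ g → g ≤ 1 + c₀ →
          ∃ z : ℂ, ‖z - Complex.I‖ ≤ r ∧ ∃ φ, φ ≠ 0 ∧ Aop ε G g z φ = 0)
    (k : ℕ) {g : ℝ} (hg1 : L ^ k ≤ g) (hg2 : g ≤ L * L ^ k) :
    ∃ z : ℂ, ‖z - ((kap L e k ^ 2 : ℝ) : ℂ) * (1 + (epk c s k : ℂ) * Complex.I)‖ ≤
        kap L e k ^ 2 * epk c s k * r ∧
      ∃ φ, φ ≠ 0 ∧ Full (vk hL hc e s G k) (g : ℂ) z φ = 0 := by
  have hLk : 0 < L ^ k := by positivity
  obtain ⟨z, hz, φ, hφ, hφ'⟩ := hp (epk c s k) (epk_pos hc s k) ((epk_le hc hs k).trans hcε)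
    (g * (L ^ k)⁻¹) (by rw [← div_eq_mul_inv, le_div_iff₀ hLk]; linarith)
    (by rw [← div_eq_mul_inv, div_le_iff₀ hLk, ← hLc]; exact hg2)
  have hz' := near_I hr1 hz
  obtain ⟨F, hF, hF'⟩ := scale_ker (kap_pos hL e k) (epk_pos hc s k) hG (by linarith) hφ hφ'
  refine ⟨((kap L e k ^ 2 : ℝ) : ℂ) * (1 + (epk c s k : ℂ) * z), ?_, F, hF, ?_⟩
  · have e1 : ((kap L e k ^ 2 : ℝ) : ℂ) * (1 + (epk c s k : ℂ) * z) -
        ((kap L e k ^ 2 : ℝ) : ℂ) * (1 + (epk c s k : ℂ) * Complex.I) =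
        ((kap L e k ^ 2 * epk c s k : ℝ) : ℂ) * (z - Complex.I) := by push_cast; ring
    have h1 := epk_pos hc s k
    have h2 := kap_pos hL e k
    rw [e1, norm_mul, Complex.norm_real, Real.norm_of_nonneg (by positivity)]
    gcongr
  · have e2 : vk hL hc e s G k = fun x => (((L ^ k)⁻¹ : ℝ) : ℂ) *
        vG (kap_pos hL e k) (epk_pos hc s k) G x := rfl
    rw [e2, Full_const_mul (good_vG _ _ hG)]
    rw [← hF']
    congr 3
    push_cast
    ring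

lemma pow_rpow {L : ℝ} (hL : 0 < L) (k : ℕ) (a : ℝ) : (L ^ k) ^ a = (L ^ a) ^ k := by
  rw [← Real.rpow_natCast L k, ← Real.rpow_mul hL.le, mul_comm, Real.rpow_mul hL.le,
    Real.rpow_natCast]

/-- The sequence of pieces. -/
lemma vk_pieces {L c : ℝ} (hL1 : 1 < L) (hL : 0 < L) (hc : 0 < c) (hc1 : c ≤ 1) {e s : ℝ}
    (hs : 0 ≤ s) {G : Sp (n + 1) → ℂ} (hG : Good G) {MG R0 : ℝ} (hMG0 : 0 ≤ MG)
    (hMG : ∀ x, ‖G x‖ ≤ MG) (hR00 : 0 < R0) (hR0 : ∀ y, R0 < ‖y‖ → G y = 0)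
    {p : ℝ} (hp1 : 1 < p) (hp2 : ((n + 1 : ℕ) : ℝ) < 2 * p)
    (he : e * (2 - ((n + 1 : ℕ) : ℝ) / p) < 1) :
    ∃ M : ℕ → ℝ, Pieces (vk hL hc e s G)
      (fun k => (L ^ k)⁻¹ * (kap L e k ^ 2 * epk c s k * (2 * MG)))
      (fun k => R0 / (kap L e k * epk c s k)) M := by
  obtain ⟨C, hC0, hC⟩ := fb_ball (d := n + 1) hp1 hp2
  set b : ℝ := ((n + 1 : ℕ) : ℝ) / p with hb
  set A : ℕ → ℝ := fun k => (L ^ k)⁻¹ * (kap L e k ^ 2 * epk c s k * (2 * MG)) with hA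
  set ρ : ℕ → ℝ := fun k => R0 / (kap L e k * epk c s k) with hρ
  have hA0 : ∀ k, 0 ≤ A k := by
    intro k
    have h1 := epk_pos hc s k
    rw [hA]; positivity
  have hρ0 : ∀ k, 0 < ρ k := by
    intro k
    have h1 := epk_pos hc s k
    have h2 := kap_pos hL e k
    rw [hρ]; positivity
  refine ⟨fun k => A k * (C * ρ k ^ b), ?_, ?_, hρ0, ?_, ?_, ?_, ?_⟩
  · intro k
    exact ((good_vG (kap_pos hL e k) (epk_pos hc s k) hG).const_mul _).1
  · intro k x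
    unfold vk
    rw [norm_mul, Complex.norm_real, Real.norm_of_nonneg (by positivity)]
    simp only [hA]
    gcongr
    exact norm_vG_le _ _ hMG x
  · intro k x hx
    unfold vk
    rw [vG_zero (kap_pos hL e k) (epk_pos hc s k) ((epk_le hc hs k).trans hc1) hR0 hx, mul_zero]
  · intro k x₀ F
    have h1 := hC (ρ k) (hρ0 k) x₀ F
    have h2 := hA0 k
    have h3 : ∫ x in Metric.closedBall x₀ (ρ k), ‖psi F x‖ ^ 2 ≤
        C * ρ k ^ b * ‖F‖ ^ 2 := h1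
    rw [integral_const_mul]
    calc A k * ∫ x in Metric.closedBall x₀ (ρ k), ‖psi F x‖ ^ 2
        ≤ A k * (C * ρ k ^ b * ‖F‖ ^ 2) := mul_le_mul_of_nonneg_left h3 h2
      _ = A k * (C * ρ k ^ b) * ‖F‖ ^ 2 := by ring
  · intro k
    have h2 := hA0 k
    have h3 := hρ0 k
    positivity
  · -- summability
    set ν := 1 - e * (2 - b) with hν
    have hν0 : 0 < ν := by rw [hν, hb]; linarith
    have hμ0 : 0 < L ^ (-ν) := by positivity
    have hμ1 : L ^ (-ν) < 1 := Real.rpow_lt_one_of_one_lt_of_neg hL1 (by linarith)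
    have hs1 := (summable_poly_geo (-(s * (1 - b))) hμ0 hμ1).mul_left
      (2 * MG * C * R0 ^ b * c ^ (1 - b))
    refine hs1.congr fun k => ?_
    have h1 := epk_pos hc s k
    have h2 := kap_pos hL e k
    have hLk : 0 < L ^ k := by positivity
    have hk1 : (0 : ℝ) < (k : ℝ) + 1 := by positivity
    simp only [hA, hρ]
    rw [Real.div_rpow hR00.le (by positivity), Real.mul_rpow h2.le h1.le]
    have e1 : kap L e k ^ 2 / kap L e k ^ b = (L ^ k) ^ (e * (2 - b)) := by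
      rw [← Real.rpow_natCast (kap L e k) 2, ← Real.rpow_sub h2]
      unfold kap
      rw [← Real.rpow_mul hLk.le]
      push_cast
      rfl
    have e2 : epk c s k / epk c s k ^ b = c ^ (1 - b) * ((k : ℝ) + 1) ^ (-(s * (1 - b))) := by
      nth_rw 1 [← Real.rpow_one (epk c s k)]
      rw [← Real.rpow_sub h1]
      unfold epk
      rw [Real.mul_rpow hc.le (by positivity), ← Real.rpow_mul hk1.le]
      congr 2
      ring
    have e3 : (L ^ k)⁻¹ * (L ^ k) ^ (e * (2 - b)) = (L ^ (-ν)) ^ k := by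
      rw [← pow_rpow hL, hν]
      nth_rw 1 [← Real.rpow_neg_one (L ^ k)]
      rw [← Real.rpow_add hLk]
      congr 1
      ring
    calc 2 * MG * C * R0 ^ b * c ^ (1 - b) * (((k : ℝ) + 1) ^ (-(s * (1 - b))) * (L ^ (-ν)) ^ k)
        = 2 * MG * C * R0 ^ b * (c ^ (1 - b) * ((k : ℝ) + 1) ^ (-(s * (1 - b)))) *
          (L ^ (-ν)) ^ k := by ring
      _ = 2 * MG * C * R0 ^ b * (epk c s k / epk c s k ^ b) *
          ((L ^ k)⁻¹ * (kap L e k ^ 2 / kap L e k ^ b)) := by rw [← e2, ← e3, ← e1]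
      _ = _ := by ring

/-- The `L^q` integrals of the pieces. -/
lemma vk_lq {L c : ℝ} (hL : 0 < L) (hc : 0 < c) {γ q s : ℝ} (hγ : 1 / 2 < γ)
    (hq : q = γ + ((n + 1 : ℕ) : ℝ) / 2) (hs : s * (γ - 1 / 2) = 2) (G : Sp (n + 1) → ℂ) (k : ℕ) :
    ∫⁻ x, ENNReal.ofReal (‖vk hL hc (q / (2 * γ)) s G k x‖ ^ q) ≤
      ENNReal.ofReal (c ^ (γ - 1 / 2) * ((k : ℝ) + 1) ^ (-2 : ℝ)) *
        ∫⁻ y, ENNReal.ofReal ((‖G y‖ + ‖G (rf y)‖) ^ q) := by
  set e := q / (2 * γ) with he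
  have hγ0 : 0 < γ := by linarith
  have hq0 : 0 < q := by rw [hq]; positivity
  have h1 := epk_pos hc s k
  have h2 := kap_pos hL e k
  have hLk : 0 < L ^ k := by positivity
  have hk1 : (0 : ℝ) < (k : ℝ) + 1 := by positivity
  have e1 : ∀ x, ENNReal.ofReal (‖vk hL hc e s G k x‖ ^ q) =
      ENNReal.ofReal (((L ^ k)⁻¹) ^ q) *
        ENNReal.ofReal (‖vG (kap_pos hL e k) (epk_pos hc s k) G x‖ ^ q) := by
    intro x
    unfold vk
    rw [norm_mul, Complex.norm_real, Real.norm_of_nonneg (by positivity),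
      Real.mul_rpow (by positivity) (norm_nonneg _), ENNReal.ofReal_mul (by positivity)]
  simp_rw [e1]
  rw [lintegral_const_mul' _ _ ENNReal.ofReal_ne_top]
  refine (mul_le_mul_right (integral_vG h2 h1 hq0) _).trans (le_of_eq ?_)
  rw [← mul_assoc, ← ENNReal.ofReal_mul (by positivity)]
  congr 2
  -- the identity of the coefficients
  have a1 : (kap L e k ^ 2 * epk c s k) ^ q = kap L e k ^ (2 * q) * epk c s k ^ q := by
    rw [Real.mul_rpow (by positivity) h1.le, ← Real.rpow_natCast (kap L e k) 2,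
      ← Real.rpow_mul h2.le]
    push_cast
    rfl
  have a2 : kap L e k ^ (2 * q) * kap L e k ^ (-((n : ℝ) + 1)) = (L ^ k) ^ q := by
    rw [← Real.rpow_add h2]
    unfold kap
    rw [← Real.rpow_mul hLk.le]
    congr 1
    rw [he, hq]
    push_cast
    field_simp
    ring
  have a3 : epk c s k ^ q * epk c s k ^ (-(1 + (n : ℝ) / 2)) =
      c ^ (γ - 1 / 2) * ((k : ℝ) + 1) ^ (-2 : ℝ) := by
    rw [← Real.rpow_add h1]
    have a4 : q + -(1 + (n : ℝ) / 2) = γ - 1 / 2 := by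
      rw [hq]; push_cast; ring
    rw [a4]
    unfold epk
    rw [Real.mul_rpow hc.le (by positivity), ← Real.rpow_mul hk1.le, neg_mul, hs]
  have a5 : ((L ^ k)⁻¹) ^ q * (L ^ k) ^ q = 1 := by
    rw [← Real.mul_rpow (by positivity) (by positivity), inv_mul_cancel₀ hLk.ne', Real.one_rpow]
  rw [a1]
  calc ((L ^ k)⁻¹) ^ q * (kap L e k ^ (2 * q) * epk c s k ^ q *
        (kap L e k ^ (-((n : ℝ) + 1)) * epk c s k ^ (-(1 + (n : ℝ) / 2))))
      = ((L ^ k)⁻¹) ^ q * (kap L e k ^ (2 * q) * kap L e k ^ (-((n : ℝ) + 1))) *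
        (epk c s k ^ q * epk c s k ^ (-(1 + (n : ℝ) / 2))) := by ring
    _ = _ := by rw [a2, a3, a5, one_mul]


lemma test_bounds {G : Sp (n + 1) → ℂ} (hG : IsTest G) : ∃ MG R0 : ℝ, 0 ≤ MG ∧ 0 < R0 ∧
    (∀ x, ‖G x‖ ≤ MG) ∧ ∀ y, R0 < ‖y‖ → G y = 0 := by
  obtain ⟨C, hC⟩ := hG.2.exists_bound_of_continuous hG.1.continuous
  obtain ⟨R, hR⟩ := hG.2.isCompact.isBounded.subset_closedBall (0 : Sp (n + 1))
  refine ⟨C, max R 1, (norm_nonneg _).trans (hC 0), by positivity, hC, fun y hy => ?_⟩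
  by_contra hne
  have h1 : y ∈ tsupport G := subset_tsupport _ hne
  have h2 := hR h1
  rw [mem_closedBall_zero_iff] at h2
  have h3 := le_max_left R 1
  linarith

lemma lq_fin {G : Sp (n + 1) → ℂ} {MG R0 : ℝ} (hMG0 : 0 ≤ MG) (hMG : ∀ x, ‖G x‖ ≤ MG)
    (hR0 : ∀ y, R0 < ‖y‖ → G y = 0) {q : ℝ} (hq : 0 < q) :
    ∫⁻ y, ENNReal.ofReal ((‖G y‖ + ‖G (rf y)‖) ^ q) < ⊤ := by
  set B := Metric.closedBall (0 : Sp (n + 1)) R0 with hB
  calc ∫⁻ y, ENNReal.ofReal ((‖G y‖ + ‖G (rf y)‖) ^ q)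
      ≤ ∫⁻ y, B.indicator (fun _ => ENNReal.ofReal ((2 * MG) ^ q)) y := by
        apply lintegral_mono
        intro y
        by_cases hy : y ∈ B
        · rw [Set.indicator_of_mem hy]
          apply ENNReal.ofReal_le_ofReal
          have h1 := hMG y
          have h2 := hMG (rf y)
          apply Real.rpow_le_rpow (by positivity) _ hq.le
          linarith
        · rw [Set.indicator_of_notMem hy]
          have h1 : R0 < ‖y‖ := by
            simpa [hB] using hy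
          simp only
          rw [hR0 _ h1, hR0 _ (by rwa [LinearIsometryEquiv.norm_map]), norm_zero, add_zero,
            Real.zero_rpow hq.ne', ENNReal.ofReal_zero]
    _ = ENNReal.ofReal ((2 * MG) ^ q) * volume B := by
        rw [lintegral_indicator_const Metric.isClosed_closedBall.measurableSet]
    _ < ⊤ := ENNReal.mul_lt_top ENNReal.ofReal_lt_top
        (measure_closedBall_lt_top)

/-- The potential is not zero. -/
lemma VW_ne {d : ℕ} {w : ℕ → Sp d → ℂ} {A M : ℕ → ℝ} (h : Fam w A M)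
    (hdis : ∀ j k, j ≠ k → ∀ x, w j x ≠ 0 → w k x = 0) {g z : ℂ} (hz : z ∈ UH) {φ : HS d}
    (hφ : φ ≠ 0)
    (hker : (Mop pS + g • KT w - z • Mop qS : HS d →L[ℂ] HS d) φ = 0) :
    ¬ (VW w =ᵐ[volume] 0) := by
  intro h0
  have h1 : ∀ k, w k =ᵐ[volume] 0 := by
    intro k
    filter_upwards [h0] with x hx
    by_contra hne
    have h2 : VT w x = w k x := by
      unfold VT
      apply tsum_eq_single
      intro j hj
      exact hdis k j (Ne.symm hj) x hne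
    have h3 : VW w x ≠ 0 := by
      unfold VW
      rw [h2]
      apply mul_ne_zero _ hne
      have := Real.pi_pos
      exact_mod_cast (by positivity : (4 * π ^ 2 : ℝ) ≠ 0)
    exact h3 hx
  have h2 : ∀ k, Kv (w k) = 0 := by
    intro k
    have h3 : ‖Kv (w k)‖ ≤ 0 := by
      apply Kv_norm_le (h.good k) le_rfl
      intro F
      have h4 : ∫ x, ‖w k x‖ * ‖psi F x‖ ^ 2 = ∫ x : Sp d, (0 : ℝ) := by
        apply integral_congr_ae
        filter_upwards [h1 k] with x hx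
        rw [hx]
        simp
      rw [h4]
      simp
    exact norm_eq_zero.mp (le_antisymm h3 (norm_nonneg _))
  have h3 : KT w = 0 := by
    unfold KT
    simp [h2]
  rw [h3, smul_zero, add_zero] at hker
  obtain ⟨u, hu⟩ := unit_free (d := d) hz
  have h4 : (↑u⁻¹ * ↑u : HS d →L[ℂ] HS d) φ = 0 := by
    rw [mul_apply_eq_comp, hu, hker, map_zero]
  rw [Units.inv_mul] at h4
  exact hφ h4

/-- The choice of the exponent `p`. -/
lemma exists_p {d γ : ℝ} (hd : 1 ≤ d) (hγ : 1 / 2 < γ) : ∃ p : ℝ, 1 < p ∧ d < 2 * p ∧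
    (γ + d / 2) / (2 * γ) * (2 - d / p) < 1 := by
  set q := γ + d / 2 with hq
  set m := max 1 (d / 2) with hm
  have hm1 : 1 ≤ m := le_max_left _ _
  have hm2 : d / 2 ≤ m := le_max_right _ _
  have hmq : m < q := by
    rw [hm, hq]
    apply max_lt <;> linarith
  have hp0 : 0 < (m + q) / 2 := by linarith
  have hq0 : 0 < q := by linarith
  refine ⟨(m + q) / 2, by linarith, by linarith, ?_⟩
  have h1 : 2 - d / ((m + q) / 2) < 2 - d / q := by
    have : d / q < d / ((m + q) / 2) := by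
      apply div_lt_div_of_pos_left (by linarith) hp0 (by linarith)
    linarith
  calc q / (2 * γ) * (2 - d / ((m + q) / 2)) < q / (2 * γ) * (2 - d / q) := by
        apply mul_lt_mul_of_pos_left h1
        have : 0 < γ := by linarith
        positivity
    _ = 1 := by
        have : 0 < γ := by linarith
        field_simp
        rw [hq]; ring

/-- The choice of the constant `c`. -/
lemma exists_c {ε₀ a B T : ℝ} (hε₀ : 0 < ε₀) (ha : 0 < a) (hB : 0 ≤ B) (hT : 0 < T) :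
    ∃ c : ℝ, 0 < c ∧ c ≤ ε₀ ∧ c ≤ 1 / 2 ∧ B * c ^ a ≤ T := by
  have h1 : Tendsto (fun c : ℝ => B * c ^ a) (𝓝[>] 0) (𝓝 (B * 0)) := by
    apply Tendsto.const_mul
    have h2 : Tendsto (fun c : ℝ => c ^ a) (𝓝 0) (𝓝 ((0 : ℝ) ^ a)) :=
      (Real.continuousAt_rpow_const 0 a (Or.inr ha.le))
    rw [Real.zero_rpow ha.ne'] at h2
    exact h2.mono_left nhdsWithin_le_nhds
  rw [mul_zero] at h1
  have h2 := h1.eventually (eventually_lt_nhds hT)
  have h3 : ∀ᶠ c : ℝ in 𝓝[>] 0, c ∈ Set.Ioo 0 (min ε₀ (1 / 2)) :=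
    Ioo_mem_nhdsGT (by positivity)
  obtain ⟨c, hc1, hc2⟩ := (h2.and h3).exists
  refine ⟨c, hc2.1, ?_, ?_, hc1.le⟩
  · exact hc2.2.le.trans (min_le_left _ _)
  · exact hc2.2.le.trans (min_le_right _ _)

end MP497a12
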