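import Mathlib
import Pool.Agent.Lib.MP_497a12_mp.GFin

/-!
# Sharpness of the bounds with the truncation `ge` for `γ > 1/2`: the theorem
-/

open MeasureTheory Filter Topology Real
open scoped ENNReal ContDiff InnerProductSpace FourierTransform SchwartzMap

namespace MP497a12

attribute [local irreducible] Mop Cop Fo

/-- The geometry of the discs. -/
lemma disc_est {K ε r' : ℝ} (hK : 0 < K) (hε : 0 < ε) (hε2 : ε ≤ 1 / 2) (hr0 : 0 < r')
    (hr1 : r' < 1) {z : ℂ}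
    (hz : ‖z - ((K : ℝ) : ℂ) * (1 + (ε : ℂ) * Complex.I)‖ ≤ K * ε * r') :
    K * ε * (1 - r') ≤ z.im ∧ K / 2 ≤ ‖z‖ ∧ ‖z‖ ≤ 2 * K := by
  obtain ⟨u, hu⟩ : ∃ u, u = z - ((K : ℝ) : ℂ) * (1 + (ε : ℂ) * Complex.I) := ⟨_, rfl⟩
  rw [← hu] at hz
  have hre : u.re = z.re - K := by rw [hu]; simp
  have him : u.im = z.im - K * ε := by rw [hu]; simp
  have h1 := (Complex.abs_im_le_norm u).trans hz
  have h2 := (Complex.abs_re_le_norm u).trans hz
  rw [him, abs_le] at h1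
  rw [hre, abs_le] at h2
  have h3 : K * ε * r' ≤ K * ε := by
    have : 0 < K * ε := by positivity
    exact mul_le_of_le_one_right this.le hr1.le
  have h4 : K * ε ≤ K / 2 := by
    calc K * ε ≤ K * (1 / 2) := mul_le_mul_of_nonneg_left hε2 hK.le
      _ = K / 2 := by ring
  refine ⟨by linarith [h1.1], ?_, ?_⟩
  · have h5 := Complex.re_le_norm z
    linarith [h2.1]
  · have h5 : z = u + ((K : ℝ) : ℂ) * (1 + (ε : ℂ) * Complex.I) := by rw [hu]; ring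
    have h6 : ‖z‖ ≤ ‖u‖ + ‖((K : ℝ) : ℂ) * (1 + (ε : ℂ) * Complex.I)‖ := by
      nth_rw 1 [h5]
      exact norm_add_le _ _
    have h7 : ‖((K : ℝ) : ℂ) * (1 + (ε : ℂ) * Complex.I)‖ ≤ K * (1 + ε) := by
      rw [norm_mul, Complex.norm_real, Real.norm_of_nonneg hK.le]
      have h8 : ‖(1 : ℂ) + (ε : ℂ) * Complex.I‖ ≤ 1 + ε := by
        refine (norm_add_le _ _).trans ?_
        rw [norm_one, norm_mul, Complex.norm_I, mul_one, Complex.norm_real,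
          Real.norm_of_nonneg hε.le]
      gcongr
    have h9 : ‖u‖ ≤ K * ε := hz.trans h3
    have h10 : K * (1 + ε) = K + K * ε := by ring
    linarith


/-- The lower bound of the modulus of the eigenvalues. -/
lemma kap_low {L γ q hb D : ℝ} {k : ℕ} (hL : 1 < L) (hL2 : L ≤ 2) (hγ : 0 < γ) (hD : 0 ≤ D)
    (hq : q = γ + D / 2) (hhb : 0 < hb) (hk : (hb ^ 2)⁻¹ ≤ L * L ^ k) :
    (2 * π ^ 2 * 2 ^ (-(q / γ))) ^ γ * hb ^ (-D) ≤
      (4 * π ^ 2 * hb ^ 2 * (kap L (q / (2 * γ)) k ^ 2 / 2)) ^ γ := by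
  have hπ := Real.pi_pos
  have hL0 : 0 < L := by linarith
  have hLk : 0 < L ^ k := by positivity
  have hq0 : 0 < q := by rw [hq]; positivity
  have hK : kap L (q / (2 * γ)) k ^ 2 = (L ^ k) ^ (q / γ) := by
    unfold kap
    rw [← Real.rpow_natCast ((L ^ k) ^ (q / (2 * γ))) 2, ← Real.rpow_mul hLk.le]
    congr 1
    push_cast
    field_simp
  have h1 : (hb ^ 2)⁻¹ / 2 ≤ L ^ k := by
    rw [div_le_iff₀ (by norm_num)]
    nlinarith
  have h2 : ((hb ^ 2)⁻¹ / 2) ^ (q / γ) ≤ (L ^ k) ^ (q / γ) :=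
    Real.rpow_le_rpow (by positivity) h1 (by positivity)
  have h3 : ((hb ^ 2)⁻¹ / 2) ^ (q / γ) = hb ^ (-(2 * q / γ)) * 2 ^ (-(q / γ)) := by
    rw [Real.div_rpow (by positivity) (by norm_num), Real.rpow_neg (by norm_num : (0 : ℝ) ≤ 2),
      Real.rpow_neg hhb.le, div_eq_mul_inv]
    congr 1
    rw [Real.inv_rpow (by positivity), ← Real.rpow_natCast hb 2, ← Real.rpow_mul hhb.le]
    congr 2
    push_cast
    ring
  have h4 : hb ^ 2 * hb ^ (-(2 * q / γ)) = hb ^ (-(D / γ)) := by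
    rw [← Real.rpow_natCast hb 2, ← Real.rpow_add hhb]
    congr 1
    rw [hq]
    push_cast
    field_simp
    ring
  have h5 : hb ^ (-D) = (hb ^ (-(D / γ))) ^ γ := by
    rw [← Real.rpow_mul hhb.le]
    congr 1
    field_simp
  rw [h5, ← Real.mul_rpow (by positivity) (by positivity)]
  apply Real.rpow_le_rpow (by positivity) _ hγ.le
  rw [hK]
  calc 2 * π ^ 2 * 2 ^ (-(q / γ)) * hb ^ (-(D / γ))
      = 2 * π ^ 2 * hb ^ 2 * (hb ^ (-(2 * q / γ)) * 2 ^ (-(q / γ))) := by rw [← h4]; ring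
    _ ≤ 2 * π ^ 2 * hb ^ 2 * (L ^ k) ^ (q / γ) := by rw [← h3]; gcongr
    _ = 4 * π ^ 2 * hb ^ 2 * ((L ^ k) ^ (q / γ) / 2) := by ring

/-- The loss is smaller than any power. -/
lemma eps_loss {L c s β r' ε : ℝ} (hL : 1 < L) (hc : 0 < c) (hβ : 0 ≤ β) (hr1 : r' < 1)
    (hε : 0 < ε) : ∃ c' : ℝ, 0 < c' ∧ ∀ (hb : ℝ) (k : ℕ), 0 < hb → L ^ k ≤ (hb ^ 2)⁻¹ →
      c' * hb ^ ε ≤ (epk c s k * (1 - r') / 2) ^ β := by
  have hμ0 : 0 < L ^ (-(ε / 2)) := by positivity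
  have hμ1 : L ^ (-(ε / 2)) < 1 := Real.rpow_lt_one_of_one_lt_of_neg hL (by linarith)
  obtain ⟨C, hC0, hC⟩ := bdd_poly_geo (s * β) hμ0 hμ1
  have hr : 0 < 1 - r' := by linarith
  refine ⟨(c * (1 - r') / 2) ^ β / C, by positivity, fun hb k hhb hk => ?_⟩
  have hL0 : 0 < L := by linarith
  have hLk : 0 < L ^ k := by positivity
  have hk1 : (0 : ℝ) < (k : ℝ) + 1 := by positivity
  have h1 : hb ^ ε ≤ (L ^ (-(ε / 2))) ^ k := by
    rw [← pow_rpow hL0]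
    have h2 : hb ^ ε = ((hb ^ 2)⁻¹) ^ (-(ε / 2)) := by
      rw [← Real.rpow_natCast hb 2, ← Real.rpow_neg hhb.le, ← Real.rpow_mul hhb.le]
      congr 1
      push_cast
      ring
    rw [h2]
    exact Real.rpow_le_rpow_of_nonpos hLk hk (by linarith)
  have h3 : epk c s k * (1 - r') / 2 = c * (1 - r') / 2 * ((k : ℝ) + 1) ^ (-s) := by
    unfold epk; ring
  have h4 : (((k : ℝ) + 1) ^ (-s)) ^ β = (((k : ℝ) + 1) ^ (s * β))⁻¹ := by
    rw [← Real.rpow_mul hk1.le, ← Real.rpow_neg hk1.le]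
    congr 1
    ring
  rw [h3, Real.mul_rpow (by positivity) (by positivity), h4]
  have h5 : hb ^ ε * ((k : ℝ) + 1) ^ (s * β) ≤ C := by
    calc hb ^ ε * ((k : ℝ) + 1) ^ (s * β) ≤ (L ^ (-(ε / 2))) ^ k * ((k : ℝ) + 1) ^ (s * β) := by
          gcongr
      _ = ((k : ℝ) + 1) ^ (s * β) * (L ^ (-(ε / 2))) ^ k := mul_comm _ _
      _ ≤ C := hC k
  have h6 : hb ^ ε ≤ C * (((k : ℝ) + 1) ^ (s * β))⁻¹ := by
    rw [← div_eq_mul_inv, le_div_iff₀ (by positivity)]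
    exact h5
  calc (c * (1 - r') / 2) ^ β / C * hb ^ ε
      ≤ (c * (1 - r') / 2) ^ β / C * (C * (((k : ℝ) + 1) ^ (s * β))⁻¹) := by gcongr
    _ = _ := by field_simp

/-- **Sharpness for `γ > 1/2` with the truncation `ge`.** -/
theorem sharp_ge_pos (n : ℕ) {γ α β : ℝ} (hγ : 1 / 2 < γ) (hα : 0 < α) (hβ : 0 ≤ β) :
    Sharp (n + 1) α β γ .ge := by
  have hπ := Real.pi_pos
  obtain ⟨G, h, W, hrep, hG2, hGt, r, hr0, hr1, ε₀, hε₀, c₀, hc₀, hc₁, hp⟩ := piece_exists n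
  have hGood : Good G := hrep.good
  obtain ⟨MG, R0, hMG0, hR00, hMG, hR0⟩ := test_bounds hGt
  have hγ0 : 0 < γ := by linarith
  obtain ⟨L, hLdef⟩ : ∃ L : ℝ, L = 1 + c₀ := ⟨_, rfl⟩
  have hL1 : 1 < L := by linarith
  have hL0 : 0 < L := by linarith
  have hL2 : L ≤ 2 := by linarith
  obtain ⟨q, hq⟩ : ∃ q : ℝ, q = γ + ((n + 1 : ℕ) : ℝ) / 2 := ⟨_, rfl⟩
  have hq0 : 0 < q := by rw [hq]; positivity
  obtain ⟨s, hs⟩ : ∃ s : ℝ, s = 2 / (γ - 1 / 2) := ⟨_, rfl⟩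
  have hs1 : s * (γ - 1 / 2) = 2 := by
    rw [hs]
    have : γ - 1 / 2 ≠ 0 := by linarith
    exact div_mul_cancel₀ _ this
  have hs0 : 0 ≤ s := by
    rw [hs]
    have : 0 < γ - 1 / 2 := by linarith
    positivity
  have hd1 : (1 : ℝ) ≤ ((n + 1 : ℕ) : ℝ) := by exact_mod_cast Nat.succ_le_succ (Nat.zero_le n)
  obtain ⟨p, hp1, hp2, hp3⟩ := exists_p hd1 hγ
  rw [← hq] at hp3
  obtain ⟨CG, hCG⟩ : ∃ CG, CG = ∫⁻ y, ENNReal.ofReal ((‖G y‖ + ‖G (rf y)‖) ^ q) := ⟨_, rfl⟩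
  have hCGt : CG < ⊤ := hCG ▸ lq_fin hMG0 hMG hR0 hq0
  have hS2 : Summable (fun k : ℕ => ((k : ℝ) + 1) ^ (-2 : ℝ)) := by
    have := (Real.summable_nat_rpow (p := -2)).mpr (by norm_num)
    have h2 := (summable_nat_add_iff 1).mpr this
    refine h2.congr fun k => ?_
    push_cast
    rfl
  obtain ⟨S2, hS2def⟩ : ∃ S2 : ℝ, S2 = ∑' k : ℕ, ((k : ℝ) + 1) ^ (-2 : ℝ) := ⟨_, rfl⟩
  have hS20 : 0 ≤ S2 := hS2def ▸ tsum_nonneg fun k => by positivity
  obtain ⟨T, hT⟩ : ∃ T : ℝ, T = (2 * π ^ 2 * 2 ^ (-(q / γ))) ^ γ := ⟨_, rfl⟩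
  have hT0 : 0 < T := by rw [hT]; positivity
  obtain ⟨c, hc0, hcε, hc2, hcT⟩ := exists_c (a := γ - 1 / 2)
    (B := (4 * π ^ 2) ^ q * S2 * CG.toReal) (T := T) hε₀ (by linarith) (by positivity) hT0
  obtain ⟨M, hPi⟩ := vk_pieces (n := n) hL1 hL0 hc0 (by linarith) (e := q / (2 * γ)) hs0 hGood
    hMG0 hMG hR00 hR0 hp1 hp2 hp3
  obtain ⟨v, hv⟩ : ∃ v, v = vk hL0 hc0 (q / (2 * γ)) s G := ⟨_, rfl⟩
  rw [← hv] at hPi
  obtain ⟨r', hr'⟩ : ∃ r' : ℝ, r' = (1 + r) / 2 := ⟨_, rfl⟩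
  have hr'0 : 0 < r' := by rw [hr']; linarith
  have hr'1 : r' < 1 := by rw [hr']; linarith
  have hrr' : r < r' := by rw [hr']; linarith
  set K : ℕ → ℝ := fun k => kap L (q / (2 * γ)) k ^ 2 with hK
  have hK0 : ∀ k, 0 < K k := fun k => by
    have := kap_pos hL0 (q / (2 * γ)) k
    rw [hK]; positivity
  set ctr : ℕ → ℂ := fun k => ((K k : ℝ) : ℂ) * (1 + (epk c s k : ℂ) * Complex.I) with hctr
  have hε0 : ∀ k, 0 < epk c s k := epk_pos hc0 s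
  have hε2 : ∀ k, epk c s k ≤ 1 / 2 := fun k => (epk_le hc0 hs0 k).trans hc2
  have hdisc : ∀ k, ∀ z ∈ Metric.closedBall (ctr k) (K k * epk c s k * r'),
      K k * epk c s k * (1 - r') ≤ z.im ∧ K k / 2 ≤ ‖z‖ ∧ ‖z‖ ≤ 2 * K k := by
    intro k z hz
    rw [Metric.mem_closedBall, dist_eq_norm] at hz
    exact disc_est (hK0 k) (hε0 k) (hε2 k) hr'0 hr'1 hz
  have hUH : ∀ k, Metric.closedBall (ctr k) (K k * epk c s k * r') ⊆ UH := by
    intro k z hz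
    have h1 := (hdisc k z hz).1
    have h2 : 0 < K k * epk c s k * (1 - r') := by
      have h3 := hK0 k
      have h4 := hε0 k
      have h5 : 0 < 1 - r' := by linarith
      positivity
    show 0 < z.im
    linarith
  obtain ⟨x, w, hw, hfam, hdis, hker⟩ := hPi.positions'
    (fun k => (fun t : ℝ => (t : ℂ)) '' Set.Icc (L ^ k) (L * L ^ k))
    (fun k => isCompact_Icc.image Complex.continuous_ofReal)
    (fun k => Metric.ball (ctr k) (K k * epk c s k * r'))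
    (fun k => Metric.closedBall (ctr k) (K k * epk c s k * r'))
    (fun k => Metric.isOpen_ball) (fun k => isCompact_closedBall _ _)
    (fun k => Metric.ball_subset_closedBall) hUH (by
      rintro k g ⟨t, ht, rfl⟩
      obtain ⟨z, hz, φ, hφ, hφ'⟩ := vk_ker hL0 hc0 (e := q / (2 * γ)) hs0 hGood hr1 hLdef hcε hp k
        ht.1 ht.2
      rw [← hv] at hφ'
      refine ⟨z, ?_, φ, hφ, hφ'⟩
      rw [Metric.mem_ball, dist_eq_norm]
      refine lt_of_le_of_lt hz ?_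
      have h3 := hK0 k
      have h4 := hε0 k
      have h5 : 0 < K k * epk c s k := by positivity
      exact mul_lt_mul_of_pos_left hrr' h5)
  have hdisj : ∀ j k, j ≠ k → ∀ y, w j y ≠ 0 → w k y = 0 := by
    have key : ∀ j k, j < k → ∀ y, w j y ≠ 0 → w k y ≠ 0 → False := by
      intro j k hjk y h1 h2
      rw [hw] at h1 h2
      have h3 := hdis j k hjk
      have h4 : ‖y - x j‖ ≤ R0 / (kap L (q / (2 * γ)) j * epk c s j) := by
        by_contra hne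
        push Not at hne
        exact h1 (hPi.supp j _ hne)
      have h5 : ‖y - x k‖ ≤ R0 / (kap L (q / (2 * γ)) k * epk c s k) := by
        by_contra hne
        push Not at hne
        exact h2 (hPi.supp k _ hne)
      have h6 : ‖x j - x k‖ ≤ ‖y - x j‖ + ‖y - x k‖ := by
        have : x j - x k = (y - x k) - (y - x j) := by abel
        rw [this]
        refine (norm_sub_le _ _).trans ?_
        linarith
      linarith
    intro j k hjk y h1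
    by_contra h2
    rcases lt_or_gt_of_ne hjk with h3 | h3
    · exact key j k h3 y h1 h2
    · exact key k j h3 y h2 h1
  have hmeasV : Measurable (VW w) := hfam.measurable.const_mul _
  -- the integral of the potential
  have hlq : ∫⁻ y, ENNReal.ofReal (‖VW w y‖ ^ q) ≤ ENNReal.ofReal T := by
    have a1 : ∀ y, ENNReal.ofReal (‖VW w y‖ ^ q) =
        ENNReal.ofReal ((4 * π ^ 2) ^ q) * ENNReal.ofReal (‖VT w y‖ ^ q) := by
      intro y
      unfold VW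
      rw [norm_mul, Complex.norm_real, Real.norm_of_nonneg (by positivity),
        Real.mul_rpow (by positivity) (norm_nonneg _), ENNReal.ofReal_mul (by positivity)]
    have a2 : ∀ k, ∫⁻ y, ENNReal.ofReal (‖w k y‖ ^ q) ≤
        ENNReal.ofReal (c ^ (γ - 1 / 2) * ((k : ℝ) + 1) ^ (-2 : ℝ)) * CG := by
      intro k
      have a3 : ∫⁻ y, ENNReal.ofReal (‖w k y‖ ^ q) = ∫⁻ y, ENNReal.ofReal (‖v k y‖ ^ q) := by
        rw [hw]
        exact lintegral_sub_right_eq_self (fun y => ENNReal.ofReal (‖v k y‖ ^ q)) (x k)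
      rw [a3, hv, hCG]
      exact vk_lq hL0 hc0 hγ hq hs1 G k
    have a4 : ∑' k : ℕ, ENNReal.ofReal (c ^ (γ - 1 / 2) * ((k : ℝ) + 1) ^ (-2 : ℝ)) =
        ENNReal.ofReal (c ^ (γ - 1 / 2) * S2) := by
      rw [← ENNReal.ofReal_tsum_of_nonneg (fun k => by positivity) (hS2.mul_left _), tsum_mul_left,
        hS2def]
    simp_rw [a1]
    rw [lintegral_const_mul' _ _ ENNReal.ofReal_ne_top]
    calc ENNReal.ofReal ((4 * π ^ 2) ^ q) * ∫⁻ y, ENNReal.ofReal (‖VT w y‖ ^ q)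
        ≤ ENNReal.ofReal ((4 * π ^ 2) ^ q) * ∑' k, ∫⁻ y, ENNReal.ofReal (‖w k y‖ ^ q) := by
          gcongr
          exact lq_total hfam hdisj hq0
      _ ≤ ENNReal.ofReal ((4 * π ^ 2) ^ q) *
          ∑' k : ℕ, ENNReal.ofReal (c ^ (γ - 1 / 2) * ((k : ℝ) + 1) ^ (-2 : ℝ)) * CG := by
          gcongr with k
          exact a2 k
      _ = ENNReal.ofReal ((4 * π ^ 2) ^ q) * (ENNReal.ofReal (c ^ (γ - 1 / 2) * S2) *
          ENNReal.ofReal CG.toReal) := by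
          rw [ENNReal.tsum_mul_right, a4, ENNReal.ofReal_toReal hCGt.ne]
      _ = ENNReal.ofReal ((4 * π ^ 2) ^ q * S2 * CG.toReal * c ^ (γ - 1 / 2)) := by
          rw [← ENNReal.ofReal_mul (by positivity), ← ENNReal.ofReal_mul (by positivity)]
          congr 1
          ring
      _ ≤ ENNReal.ofReal T := ENNReal.ofReal_le_ofReal hcT
  have hint : Integrable (fun y => ‖VW w y‖ ^ q) := by
    refine ⟨(hmeasV.norm.pow_const q).aestronglyMeasurable, ?_⟩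
    rw [hasFiniteIntegral_iff_ofReal (Eventually.of_forall fun y => by positivity)]
    exact lt_of_le_of_lt hlq ENNReal.ofReal_lt_top
  have hJ : ∫ y, ‖VW w y‖ ^ q ≤ T := by
    rw [integral_eq_lintegral_of_nonneg_ae (Eventually.of_forall fun y => by positivity)
      hint.aestronglyMeasurable]
    exact ENNReal.toReal_le_of_le_ofReal hT0.le hlq
  have hJ0 : 0 ≤ ∫ y, ‖VW w y‖ ^ q := integral_nonneg fun y => by positivity
  have hLp : MemLp (VW w) (ENNReal.ofReal q) := by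
    rw [← integrable_norm_rpow_iff hmeasV.aestronglyMeasurable
      (by simpa using hq0) ENNReal.ofReal_ne_top, ENNReal.toReal_ofReal hq0.le]
    exact hint
  have hcs : ∀ k, HasCompactSupport (w k) := by
    intro k
    rw [hw]
    exact hPi.hcs k (x k)
  rw [hq] at hLp
  refine ⟨VW w, hfam.admissible hcs, hLp, ?_, ?_⟩
  · obtain ⟨z, hz, φ, hφ, hφ'⟩ := hker 0 _ ⟨L ^ 0, ⟨le_rfl, by simp; linarith⟩, rfl⟩
    exact VW_ne hfam hdisj (hUH 0 hz) hφ hφ'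
  intro ε' hε'
  obtain ⟨c', hc'0, hc'⟩ := eps_loss (s := s) hL1 hc0 hβ hr'1 hε'
  refine ⟨c', hc'0, 1, one_pos, fun hb hhb hhb1 => ?_⟩
  have hg1 : 1 ≤ (hb ^ 2)⁻¹ := by
    rw [one_le_inv₀ (by positivity)]
    exact pow_le_one₀ hhb.le hhb1.le
  obtain ⟨k, hk1, hk2⟩ := exists_nat_pow_near hg1 hL1
  have hk2' : (hb ^ 2)⁻¹ ≤ L * L ^ k := by
    rw [← pow_succ']
    exact hk2.le
  obtain ⟨z, hz, φ, hφ, hφ'⟩ := hker k _ ⟨(hb ^ 2)⁻¹, ⟨hk1, hk2'⟩, rfl⟩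
  obtain ⟨hz1, hz2, hz3⟩ := hdisc k z hz
  have hgraph := bridge hfam hhb hφ'
  have hψ := psi_ne hφ
  obtain ⟨E, hE⟩ : ∃ E : ℂ, E = ((4 * π ^ 2 * hb ^ 2 : ℝ) : ℂ) * z := ⟨_, rfl⟩
  rw [← hE] at hgraph
  have hEn : ‖E‖ = 4 * π ^ 2 * hb ^ 2 * ‖z‖ := by
    rw [hE, norm_mul, Complex.norm_real, Real.norm_of_nonneg (by positivity)]
  have hEi : E.im = 4 * π ^ 2 * hb ^ 2 * z.im := by
    rw [hE, Complex.im_ofReal_mul]
  have hzi : 0 < z.im := hUH k hz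
  have hKk := hK0 k
  have hz0 : 0 < ‖z‖ := by linarith
  have hEi0 : 0 < E.im := by rw [hEi]; positivity
  have hN : NN (VW w) hb γ = hb ^ (-((n + 1 : ℕ) : ℝ)) * ∫ y, ‖VW w y‖ ^ q := by rw [hq]; rfl
  have hN0 : 0 ≤ NN (VW w) hb γ := by rw [hN]; positivity
  have hkeep : NN (VW w) hb γ ≤ ‖E‖ ^ γ := by
    rw [hN]
    calc hb ^ (-((n + 1 : ℕ) : ℝ)) * ∫ y, ‖VW w y‖ ^ q
        ≤ hb ^ (-((n + 1 : ℕ) : ℝ)) * T := by gcongr
      _ = (2 * π ^ 2 * 2 ^ (-(q / γ))) ^ γ * hb ^ (-((n + 1 : ℕ) : ℝ)) := by rw [hT, mul_comm]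
      _ ≤ (4 * π ^ 2 * hb ^ 2 * (kap L (q / (2 * γ)) k ^ 2 / 2)) ^ γ :=
          kap_low hL1 hL2 hγ0 (Nat.cast_nonneg _) hq hhb hk2'
      _ ≤ ‖E‖ ^ γ := by
          rw [hEn]
          gcongr
  refine le_trans ?_ (lhs_ge_im hβ hEi0 hψ hgraph hkeep)
  apply ENNReal.ofReal_le_ofReal
  have b1 : NN (VW w) hb γ ^ (α / γ) ≤ ‖E‖ ^ α := by
    calc NN (VW w) hb γ ^ (α / γ) ≤ (‖E‖ ^ γ) ^ (α / γ) :=
          Real.rpow_le_rpow hN0 hkeep (by positivity)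
      _ = ‖E‖ ^ α := by
          rw [← Real.rpow_mul (norm_nonneg _)]
          congr 1
          field_simp
  have b2 : epk c s k * (1 - r') / 2 ≤ E.im / ‖E‖ := by
    have e1 : E.im / ‖E‖ = z.im / ‖z‖ := by
      rw [hEi, hEn]
      field_simp
    rw [e1, le_div_iff₀ hz0]
    have h4 := hε0 k
    have h5 : 0 < 1 - r' := by linarith
    calc epk c s k * (1 - r') / 2 * ‖z‖ ≤ epk c s k * (1 - r') / 2 * (2 * K k) := by gcongr
      _ = K k * epk c s k * (1 - r') := by ring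
      _ ≤ z.im := hz1
  have b3 : c' * hb ^ ε' ≤ (E.im / ‖E‖) ^ β := by
    refine (hc' hb k hhb hk1).trans ?_
    have h4 := hε0 k
    have h5 : 0 < 1 - r' := by linarith
    exact Real.rpow_le_rpow (by positivity) b2 hβ
  calc c' * hb ^ ε' * NN (VW w) hb γ ^ (α / γ) ≤ (E.im / ‖E‖) ^ β * ‖E‖ ^ α := by gcongr
    _ = _ := mul_comm _ _

end MP497a12
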