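import Mathlib
import Pool.Agent.Lib.MP_497a12_mp.Final
import Pool.Agent.Lib.MP_497a12_mp.GSharp

/-!
# The cases (a)-(e), and (f) with `γ > 1/2`
-/

namespace MP497a12

/-- In the cases (a)-(e), and in the case (f) with `γ > 1/2`, the bound (*) with the truncation of
the case is sharp up to `hb ^ eps`, for all parameters in the range. -/
theorem sharp_most (k : Case) (d : ℕ) (α β γ : ℝ) (h : k.Range d α β γ)
    (hk : k = Case.f → 1 / 2 < γ) : Sharp d α β γ k.trunc := by
  cases k with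
  | a => exact sharp_abce .a (by simp [Case.trunc]) d α β γ h
  | b => exact sharp_abce .b (by simp [Case.trunc]) d α β γ h
  | c => exact sharp_abce .c (by simp [Case.trunc]) d α β γ h
  | e => exact sharp_abce .e (by simp [Case.trunc]) d α β γ h
  | d =>
    obtain ⟨h1, h2, h3, h4, h5⟩ := h
    obtain ⟨n, rfl⟩ : ∃ n, d = n + 1 := ⟨d - 1, by omega⟩
    exact sharp_ge_pos n h5 h2 (by linarith)
  | f =>
    obtain ⟨h1, h2, h3, h4, h5⟩ := h
    obtain ⟨n, rfl⟩ : ∃ n, d = n + 1 := ⟨d - 1, by omega⟩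
    have h6 : (0 : ℝ) ≤ ((n + 1 : ℕ) : ℝ) := Nat.cast_nonneg _
    exact sharp_ge_pos n (hk rfl) (by linarith) (by rw [h3]; linarith)

end MP497a12
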