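import Mathlib
import Pool.Agent.Lib.MP_497a12_mp.Final2
import Pool.Agent.Lib.MP_497a12_mp.FNot

/-!
# The classification
-/

namespace MP497a12

/-- In the parameter ranges (a)-(f), with the truncation of the case, the bound (*) is sharp up to
`hb ^ eps`, except in the case (f) with `γ ≤ 1/2`, in which it is not. -/
theorem classification (k : Case) (d : ℕ) (α β γ : ℝ) (h : k.Range d α β γ) :
    Sharp d α β γ k.trunc ↔ (k = Case.f → 1 / 2 < γ) := by
  constructor
  · intro hs hk
    subst hk
    by_contra hγ
    push Not at hγ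
    obtain ⟨h1, h2, h3, h4, h5⟩ := h
    obtain ⟨n, rfl⟩ : ∃ n, d = n + 1 := ⟨d - 1, by omega⟩
    exact not_sharp_ge n h4 hγ (fun hn => h5 (by omega)) hs
  · exact sharp_most k d α β γ h

end MP497a12
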